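import Mathlib

/-!
Separable measurable pseudo-metrics on a measurable space: closure properties.
-/

namespace Pool.Agent.P.MP_de432b_gt.LC

open MeasureTheory Set

/-- A pseudo-metric on a measurable space with measurable countable partitions of small mesh. -/
structure IsPM {Ω : Type} [MeasurableSpace Ω] (d : Ω → Ω → ℝ) : Prop where
  self : ∀ p, d p p = 0
  symm : ∀ p q, d p q = d q p
  tri : ∀ p q r, d p r ≤ d p q + d q r
  sep : ∀ ε : ℝ, 0 < ε → ∃ i : Ω → ℕ, Measurable i ∧ ∀ p q, i p = i q → d p q ≤ ε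

/-- One-Lipschitz functions for `d`. -/
def Lip {Ω : Type} (d : Ω → Ω → ℝ) (f : Ω → ℝ) : Prop := ∀ p q, f p - f q ≤ d p q

variable {Ω Ω' : Type} [MeasurableSpace Ω] [MeasurableSpace Ω'] {d d' : Ω → Ω → ℝ}

theorem IsPM.nonneg (h : IsPM d) (p q : Ω) : 0 ≤ d p q := by
  have := h.tri p q p
  rw [h.self, h.symm q p] at this
  linarith

theorem IsPM.pull (h : IsPM d) {τ : Ω' → Ω} (hτ : Measurable τ) :
    IsPM (fun p q => d (τ p) (τ q)) where
  self p := h.self _
  symm p q := h.symm _ _
  tri p q r := h.tri _ _ _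
  sep ε hε := by
    obtain ⟨i, hi, h2⟩ := h.sep ε hε
    exact ⟨i ∘ τ, hi.comp hτ, fun p q e => h2 _ _ e⟩

theorem measurable_pair {i j : Ω → ℕ} (hi : Measurable i) (hj : Measurable j) :
    Measurable (fun p => Nat.pair (i p) (j p)) :=
  (measurable_of_countable (fun x : ℕ × ℕ => Nat.pair x.1 x.2)).comp (hi.prodMk hj)

theorem IsPM.add (h : IsPM d) (h' : IsPM d') : IsPM (fun p q => d p q + d' p q) where
  self p := by simp [h.self, h'.self]
  symm p q := by rw [h.symm, h'.symm]
  tri p q r := by linarith [h.tri p q r, h'.tri p q r]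
  sep ε hε := by
    obtain ⟨i, hi, h2⟩ := h.sep (ε / 2) (by positivity)
    obtain ⟨j, hj, h3⟩ := h'.sep (ε / 2) (by positivity)
    refine ⟨fun p => Nat.pair (i p) (j p), measurable_pair hi hj, fun p q e => ?_⟩
    obtain ⟨e1, e2⟩ := Nat.pair_eq_pair.mp e
    linarith [h2 p q e1, h3 p q e2]

theorem IsPM.smul (h : IsPM d) {a : ℝ} (ha : 0 ≤ a) : IsPM (fun p q => a * d p q) where
  self p := by simp [h.self]
  symm p q := by rw [h.symm]
  tri p q r := by nlinarith [h.tri p q r]
  sep ε hε := by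
    obtain ⟨i, hi, h2⟩ := h.sep (ε / (a + 1)) (by positivity)
    refine ⟨i, hi, fun p q e => ?_⟩
    have h3 := h2 p q e
    rw [le_div_iff₀ (by positivity)] at h3
    nlinarith [h.nonneg p q]

theorem IsPM.trunc (h : IsPM d) {L : ℝ} (hL : 0 ≤ L) : IsPM (fun p q => min (d p q) L) where
  self p := by simp [h.self, hL]
  symm p q := by rw [h.symm]
  tri p q r := by
    have := h.tri p q r
    have := h.nonneg p q
    have := h.nonneg q r
    simp only [min_def]
    split_ifs <;> linarith
  sep ε hε := by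
    obtain ⟨i, hi, h2⟩ := h.sep ε hε
    exact ⟨i, hi, fun p q e => (min_le_left _ _).trans (h2 p q e)⟩

theorem isPM_zero : IsPM (fun _ _ : Ω => (0 : ℝ)) where
  self _ := rfl
  symm _ _ := rfl
  tri _ _ _ := by simp
  sep ε hε := ⟨fun _ => 0, measurable_const, fun _ _ _ => hε.le⟩

theorem isPM_dist (F : Type) [PseudoMetricSpace F] [TopologicalSpace.SeparableSpace F]
    [MeasurableSpace F] [OpensMeasurableSpace F] : IsPM (fun x y : F => dist x y) where
  self := dist_self
  symm := dist_comm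
  tri := dist_triangle
  sep ε hε := by
    rcases isEmpty_or_nonempty F with hF | hF
    · exact ⟨fun _ => 0, measurable_const, fun p => isEmptyElim p⟩
    have hex : ∀ x : F, ∃ n, dist x (TopologicalSpace.denseSeq F n) < ε / 2 := fun x =>
      (TopologicalSpace.denseRange_denseSeq F).exists_dist_lt x (by positivity)
    classical
    refine ⟨fun x => Nat.find (hex x), measurable_find hex (fun k => ?_), fun p q e => ?_⟩
    · exact (isOpen_lt (by fun_prop) continuous_const).measurableSet
    · have h1 := Nat.find_spec (hex p)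
      have h2 := Nat.find_spec (hex q)
      simp only at e
      rw [e] at h1
      linarith [dist_triangle_right p q (TopologicalSpace.denseSeq F (Nat.find (hex q)))]

/-- A pseudo-metric dominated by a multiple of a separable one is separable. -/
theorem IsPM.of_le (h : IsPM d) (h0 : ∀ p, d' p p = 0) (h1 : ∀ p q, d' p q = d' q p)
    (h2 : ∀ p q r, d' p r ≤ d' p q + d' q r) {C : ℝ} (hC : ∀ p q, d' p q ≤ C * d p q) :
    IsPM d' where
  self := h0
  symm := h1
  tri := h2
  sep ε hε := by
    obtain ⟨i, hi, h3⟩ := (h.smul (abs_nonneg C)).sep ε hε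
    refine ⟨i, hi, fun p q e => (hC p q).trans (le_trans ?_ (h3 p q e))⟩
    exact mul_le_mul_of_nonneg_right (le_abs_self C) (h.nonneg p q)

theorem isPM_abs {c : Ω → ℝ} (hc : Measurable c) : IsPM (fun p q => |c p - c q|) :=
  (isPM_dist ℝ).pull hc

theorem isPM_norm {F : Type} [NormedAddCommGroup F] [TopologicalSpace.SeparableSpace F]
    [MeasurableSpace F] [OpensMeasurableSpace F] {g : Ω → F} (hg : Measurable g) :
    IsPM (fun p q => ‖g p - g q‖) := by
  simpa [dist_eq_norm] using (isPM_dist F).pull hg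

open Classical in
/-- Two pseudo-metrics glued along a set `S`: `d1` off `S`, `d2` on `S`, `F` across. -/
noncomputable def glueD (S : Set Ω) (d1 d2 F : Ω → Ω → ℝ) (p q : Ω) : ℝ :=
  if p ∈ S then (if q ∈ S then d2 p q else F q p) else (if q ∈ S then F p q else d1 p q)

theorem IsPM.glue {S : Set Ω} (hS : MeasurableSet S) {d1 d2 F : Ω → Ω → ℝ} (h1 : IsPM d1)
    (h2 : IsPM d2) {D : ℝ} (b1 : ∀ p q, d1 p q ≤ 2 * D) (b2 : ∀ p q, d2 p q ≤ 2 * D)
    (bF : ∀ p q, D ≤ F p q) (l1 : ∀ p p' q, F p q - F p' q ≤ d1 p p')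
    (l2 : ∀ p q q', F p q - F p q' ≤ d2 q q') : IsPM (glueD S d1 d2 F) where
  self p := by by_cases hp : p ∈ S <;> simp [glueD, hp, h1.self, h2.self]
  symm p q := by
    by_cases hp : p ∈ S <;> by_cases hq : q ∈ S <;> simp [glueD, hp, hq, h1.symm p q, h2.symm p q]
  tri p q r := by
    by_cases hp : p ∈ S <;> by_cases hq : q ∈ S <;> by_cases hr : r ∈ S <;>
      simp only [glueD, hp, hq, hr, if_true, if_false]
    · exact h2.tri p q r
    · linarith [l2 r p q]
    · linarith [b2 p r, bF q p, bF q r]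
    · linarith [l1 r q p, h1.symm q r]
    · linarith [l2 p r q, h2.symm q r]
    · linarith [b1 p r, bF p q, bF r q]
    · linarith [l1 p q r]
    · exact h1.tri p q r
  sep ε hε := by
    classical
    obtain ⟨i, hi, h3⟩ := (h1.add h2).sep ε hε
    have hm : Measurable (fun p => if p ∈ S then 1 else (0 : ℕ)) :=
      Measurable.ite hS measurable_const measurable_const
    refine ⟨fun p => Nat.pair (i p) (if p ∈ S then 1 else 0), measurable_pair hi hm,
      fun p q e => ?_⟩
    obtain ⟨e1, e2⟩ := Nat.pair_eq_pair.mp e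
    have := h3 p q e1
    have := h1.nonneg p q
    have := h2.nonneg p q
    by_cases hp : p ∈ S <;> by_cases hq : q ∈ S <;> simp [glueD, hp, hq] at e2 ⊢ <;> linarith

theorem Lip.abs_le (h : IsPM d) {f : Ω → ℝ} (hf : Lip d f) (p q : Ω) : |f p - f q| ≤ d p q :=
  abs_sub_le_iff.mpr ⟨hf p q, (hf q p).trans_eq (h.symm q p)⟩

theorem Lip.measurable (h : IsPM d) {f : Ω → ℝ} (hf : Lip d f) : Measurable f := by
  classical
  have key : ∀ n : ℕ, ∃ g : Ω → ℝ, Measurable g ∧ ∀ p, |g p - f p| ≤ 1 / ((n : ℝ) + 1) := by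
    intro n
    obtain ⟨i, hi, h2⟩ := h.sep (1 / ((n : ℝ) + 1)) (by positivity)
    let u : ℕ → ℝ := fun k => if hk : ∃ p, i p = k then f hk.choose else 0
    refine ⟨u ∘ i, (measurable_of_countable u).comp hi, fun p => ?_⟩
    have hk : ∃ q, i q = i p := ⟨p, rfl⟩
    simp only [Function.comp, u, dif_pos hk]
    exact (hf.abs_le h _ _).trans (h2 _ _ hk.choose_spec)
  choose g hg hb using key
  refine measurable_of_tendsto_metrizable hg (tendsto_pi_nhds.mpr fun p => ?_)
  rw [tendsto_iff_dist_tendsto_zero]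
  exact squeeze_zero (fun _ => dist_nonneg) (fun n => hb n p) tendsto_one_div_add_atTop_nhds_zero_nat

theorem IsPM.lip_left (h : IsPM d) (q : Ω) : Lip d (fun p => d p q) := fun p r => by
  linarith [h.tri p r q]

theorem IsPM.measurable (h : IsPM d) : Measurable (fun x : Ω × Ω => d x.1 x.2) := by
  have h2 : IsPM (fun x y : Ω × Ω => d x.1 y.1 + d x.2 y.2) :=
    (h.pull measurable_fst).add (h.pull measurable_snd)
  refine Lip.measurable h2 (fun x y => ?_)
  linarith [h.tri x.1 y.1 x.2, h.tri y.1 y.2 x.2, h.symm y.2 x.2]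

/-- Clamp to the unit interval. -/
noncomputable def cl01 (t : ℝ) : ℝ := max 0 (min 1 t)

theorem cl01_mem (t : ℝ) : cl01 t ∈ Icc (0 : ℝ) 1 :=
  ⟨le_max_left _ _, max_le zero_le_one (min_le_left _ _)⟩

theorem cl01_of_mem {t : ℝ} (h : t ∈ Icc (0 : ℝ) 1) : cl01 t = t := by
  rw [cl01, min_eq_right h.2, max_eq_right h.1]

theorem continuous_cl01 : Continuous cl01 := by unfold cl01; fun_prop

theorem abs_cl01_sub (s t : ℝ) : |cl01 s - cl01 t| ≤ |s - t| := by
  unfold cl01
  refine (abs_max_sub_max_le_max _ _ _ _).trans ?_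
  simp only [sub_self, abs_zero]
  refine max_le (abs_nonneg _) ((abs_min_sub_min_le_max _ _ _ _).trans ?_)
  simp

/-- Radial retraction onto the ball of radius `B`. -/
noncomputable def clip {F : Type} [NormedAddCommGroup F] [NormedSpace ℝ F] (B : ℝ) (x : F) : F :=
  (B / max B ‖x‖) • x

section clip
variable {F : Type} [NormedAddCommGroup F] [NormedSpace ℝ F] {B : ℝ}

theorem norm_clip_le (hB : 0 ≤ B) (x : F) : ‖clip B x‖ ≤ B := by
  rw [clip, norm_smul, Real.norm_of_nonneg (by positivity)]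
  rcases (le_max_of_le_left hB : 0 ≤ max B ‖x‖).eq_or_lt with h | h
  · rw [← h]; simpa using hB
  · rw [div_mul_eq_mul_div, div_le_iff₀ h]
    exact mul_le_mul_of_nonneg_left (le_max_right _ _) hB

theorem clip_of_le {x : F} (h : ‖x‖ ≤ B) : clip B x = x := by
  rw [clip, max_eq_left h]
  rcases eq_or_ne B 0 with hB | hB
  · have : x = 0 := norm_le_zero_iff.mp (hB ▸ h)
    simp [this]
  · rw [div_self hB, one_smul]

theorem measurable_clip [MeasurableSpace F] [BorelSpace F] [SecondCountableTopology F] :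
    Measurable (clip B : F → F) := by
  unfold clip
  exact (measurable_const.div (measurable_const.max measurable_norm)).smul measurable_id

end clip

end Pool.Agent.P.MP_de432b_gt.LC
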