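import Pool.Agent.P.MP_de432b_gt.LC.A0

/-!
Pre-mm-spaces (standard Borel probability spaces with a separable measurable pseudo-metric),
spans, the two distances, marked spaces and the elementary operations.
-/

namespace Pool.Agent.P.MP_de432b_gt.LC

open MeasureTheory Set
open scoped unitInterval RealInnerProductSpace

set_option linter.dupNamespace false

/-- A pre-mm-space. -/
structure PM where
  Ω : Type
  [ms : MeasurableSpace Ω]
  [sb : StandardBorelSpace Ω]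
  P : Measure Ω
  [pr : IsProbabilityMeasure P]
  d : Ω → Ω → ℝ
  hd : IsPM d

attribute [instance] PM.ms PM.sb PM.pr

section close
variable {Ω : Type} [MeasurableSpace Ω]

/-- Box closeness of two pseudo-metrics on one probability space. -/
def BoxC (Q : Measure Ω) (d d' : Ω → Ω → ℝ) (ε : ℝ) : Prop :=
  ∃ S, MeasurableSet S ∧ Q.real Sᶜ ≤ ε ∧ ∀ p ∈ S, ∀ q ∈ S, |d p q - d' p q| ≤ ε

/-- One half of concentration closeness. -/
def Half (Q : Measure Ω) (d d' : Ω → Ω → ℝ) (ε : ℝ) : Prop :=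
  ∀ f, Lip d f → ∃ f', Lip d' f' ∧ Q.real {p | ε < |f p - f' p|} ≤ ε

/-- Concentration closeness. -/
def ConC (Q : Measure Ω) (d d' : Ω → Ω → ℝ) (ε : ℝ) : Prop := Half Q d d' ε ∧ Half Q d' d ε

/-- Closeness: `true` is the box version, `false` the concentration version. -/
def Close : Bool → Measure Ω → (Ω → Ω → ℝ) → (Ω → Ω → ℝ) → ℝ → Prop
  | true => BoxC
  | false => ConC

/-- A cone: the points of `S` are collapsed to one point at distance `D` from the rest. -/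
noncomputable def coneD (S : Set Ω) (D : ℝ) (d : Ω → Ω → ℝ) : Ω → Ω → ℝ :=
  glueD S (fun p q => min (d p q) (2 * max D 0)) (fun _ _ => 0) (fun _ _ => max D 0)

theorem IsPM.cone {d : Ω → Ω → ℝ} (h : IsPM d) {S : Set Ω} (hS : MeasurableSet S) (D : ℝ) :
    IsPM (coneD S D d) :=
  IsPM.glue hS (h.trunc (by positivity)) isPM_zero (D := max D 0) (fun _ _ => min_le_right _ _)
    (fun _ _ => by positivity) (fun _ _ => le_rfl)
    (fun p p' _ => by
      rw [sub_self]
      exact le_min (h.nonneg p p') (by positivity)) (fun _ _ _ => by simp)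

/-- The mixture of two measures. -/
noncomputable def mixM (u : I) (μ ν : Measure Ω) : Measure Ω :=
  ENNReal.ofReal (1 - u) • μ + ENNReal.ofReal u • ν

instance (u : I) (μ ν : Measure Ω) [IsProbabilityMeasure μ] [IsProbabilityMeasure ν] :
    IsProbabilityMeasure (mixM u μ ν) :=
  ⟨by
    simp only [mixM, Measure.coe_add, Measure.coe_smul, Pi.add_apply, Pi.smul_apply, measure_univ,
      smul_eq_mul, mul_one]
    rw [← ENNReal.ofReal_add (sub_nonneg.mpr u.2.2) u.2.1]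
    simp⟩

end close

/-- A pair of measure-preserving maps from a common standard probability space. -/
structure Span (A B : PM) where
  Ω : Type
  [ms : MeasurableSpace Ω]
  [sb : StandardBorelSpace Ω]
  Q : Measure Ω
  [pr : IsProbabilityMeasure Q]
  l : Ω → A.Ω
  r : Ω → B.Ω
  hl : MeasurePreserving l Q A.P
  hr : MeasurePreserving r Q B.P

attribute [instance] Span.ms Span.sb Span.pr

/-- The two pulled-back pseudo-metrics of a span are close. -/
def Span.Close {A B : PM} (s : Span A B) (b : Bool) (ε : ℝ) : Prop :=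
  LC.Close b s.Q (fun p q => A.d (s.l p) (s.l q)) (fun p q => B.d (s.r p) (s.r q)) ε

/-- The distance between pre-mm-spaces. -/
noncomputable def DD (b : Bool) (A B : PM) : ℝ :=
  sInf {ε | 0 ≤ ε ∧ ∃ s : Span A B, s.Close b ε}

/-- The same probability space with another pseudo-metric. -/
abbrev PM.withD (A : PM) (d : A.Ω → A.Ω → ℝ) (h : IsPM d) : PM :=
  { Ω := A.Ω, P := A.P, d := d, hd := h }

/-- The same pseudo-metric with another probability measure. -/
abbrev PM.withP (A : PM) (P : Measure A.Ω) [IsProbabilityMeasure P] : PM :=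
  { Ω := A.Ω, P := P, d := A.d, hd := A.hd }

/-- Truncation of the distance. -/
noncomputable abbrev PM.trunc (A : PM) (L : ℝ) : PM :=
  A.withD (fun p q => min (A.d p q) (max L 0)) (A.hd.trunc (le_max_right _ _))

theorem measurableSet_lt_snd {Ω : Type} [MeasurableSpace Ω] {c : Ω → ℝ} (hc : Measurable c) :
    MeasurableSet {x : Ω × I | (x.2 : ℝ) < c x.1} :=
  measurableSet_lt (measurable_subtype_coe.comp measurable_snd) (hc.comp measurable_fst)

/-- Ballast: an atom of mass `η` at distance `D` from everything. -/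
noncomputable abbrev PM.ball (A : PM) (D η : ℝ) : PM :=
  { Ω := A.Ω × I, P := A.P.prod volume
    d := coneD {x | (x.2 : ℝ) < η} D (fun x y => A.d x.1 y.1)
    hd := (A.hd.pull measurable_fst).cone (measurableSet_lt_snd (c := fun _ => η) measurable_const)
      D }

/-- The ramp from `a` to `2 a`. -/
noncomputable def ramp (a t : ℝ) : ℝ := cl01 ((t - a) / a)

/-- The far-mass functional at level `a`. -/
noncomputable def Gam (a : ℝ) (A : PM) : ℝ :=
  ⨆ f : {f : A.Ω → ℝ // Lip (fun p q => min (A.d p q) (12 * a)) f},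
    ⨅ s : ℝ, ∫ p, ramp a |f.1 p - s| ∂A.P

/-- Euclidean space. -/
abbrev E (m : ℕ) : Type := EuclideanSpace ℝ (Fin m)

/-- The orthogonal group. -/
abbrev U (m : ℕ) : Type := unitary (E m →L[ℝ] E m)

theorem U.norm_app {m : ℕ} (h : U m) (x : E m) : ‖(h : E m →L[ℝ] E m) x‖ = ‖x‖ :=
  ContinuousLinearMap.norm_map_of_mem_unitary h.2 x

/-- Marks: a bounded vector `g` and a discard weight `c`. -/
structure Marks (m : ℕ) (B : ℝ) (Ω : Type) [MeasurableSpace Ω] where
  g : Ω → E m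
  c : Ω → ℝ
  hg : Measurable g
  hc : Measurable c
  bg : ∀ p, ‖g p‖ ≤ B
  bc : ∀ p, c p ∈ Icc (0 : ℝ) 1

section marks
variable {m : ℕ} {B : ℝ} {Ω Ω' : Type} [MeasurableSpace Ω] [MeasurableSpace Ω']

/-- Pull-back of marks. -/
abbrev Marks.pull (μ : Marks m B Ω) {τ : Ω' → Ω} (hτ : Measurable τ) : Marks m B Ω' :=
  ⟨fun p => μ.g (τ p), fun p => μ.c (τ p), μ.hg.comp hτ, μ.hc.comp hτ, fun _ => μ.bg _,
    fun _ => μ.bc _⟩

/-- Rotation of marks. -/
noncomputable abbrev Marks.act (h : U m) (μ : Marks m B Ω) : Marks m B Ω :=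
  ⟨fun p => (h : E m →L[ℝ] E m) (μ.g p), μ.c, (h : E m →L[ℝ] E m).continuous.measurable.comp μ.hg,
    μ.hc, fun p => (U.norm_app h _).trans_le (μ.bg p), μ.bc⟩

/-- Deviation of two marks up to the rotation `h`. -/
noncomputable def mdev (Q : Measure Ω) (μ μ' : Marks m B Ω) (h : U m) : ℝ :=
  ∫ p, (‖μ.g p - (h : E m →L[ℝ] E m) (μ'.g p)‖ + |μ.c p - μ'.c p|) ∂Q

/-- Deviation of two marks on one space modulo rotations. -/
noncomputable def dmk (Q : Measure Ω) (μ μ' : Marks m B Ω) : ℝ := ⨅ h : U m, mdev Q μ μ' h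

open Classical in
/-- Marks replaced by `(0, 1)` on a set. -/
noncomputable abbrev Marks.kill (μ : Marks m B Ω) {S : Set Ω} (hS : MeasurableSet S) :
    Marks m B Ω :=
  ⟨fun p => if p ∈ S then 0 else μ.g p, fun p => if p ∈ S then 1 else μ.c p,
    Measurable.ite hS measurable_const μ.hg, Measurable.ite hS measurable_const μ.hc,
    fun p => by
      split_ifs
      · simpa using (norm_nonneg _).trans (μ.bg p)
      · exact μ.bg p,
    fun p => by
      split_ifs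
      · simp
      · exact μ.bc p⟩

/-- The best rotation of `μ'` towards `μ` in mean square. -/
noncomputable def bestU (Q : Measure Ω) (μ μ' : Marks m B Ω) : U m :=
  Classical.epsilon fun h => ∀ h' : U m, ∫ p, ‖μ.g p - (h : E m →L[ℝ] E m) (μ'.g p)‖ ^ 2 ∂Q ≤
    ∫ p, ‖μ.g p - (h' : E m →L[ℝ] E m) (μ'.g p)‖ ^ 2 ∂Q

/-- Convex combination of marks. -/
noncomputable abbrev Marks.comb (χ : I) (μ μ' : Marks m B Ω) : Marks m B Ω :=
  ⟨fun p => (1 - χ : ℝ) • μ.g p + (χ : ℝ) • μ'.g p, fun p => (1 - χ) * μ.c p + χ * μ'.c p,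
    (μ.hg.const_smul (1 - χ : ℝ)).add (μ'.hg.const_smul (χ : ℝ)),
    (μ.hc.const_mul _).add (μ'.hc.const_mul _),
    fun p => by
      refine (norm_add_le _ _).trans ?_
      rw [norm_smul, norm_smul, Real.norm_of_nonneg (sub_nonneg.mpr χ.2.2),
        Real.norm_of_nonneg χ.2.1]
      nlinarith [μ.bg p, μ'.bg p, χ.2.1, χ.2.2],
    fun p => by
      constructor <;> nlinarith [(μ.bc p).1, (μ.bc p).2, (μ'.bc p).1, (μ'.bc p).2, χ.2.1, χ.2.2]⟩

/-- The mixture of two marks after the best rotation. -/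
noncomputable abbrev mixK (Q : Measure Ω) (χ : I) (μ μ' : Marks m B Ω) : Marks m B Ω :=
  μ.comb χ (μ'.act (bestU Q μ μ'))

/-- Deviation of the second-moment operator from the identity. -/
noncomputable def gram (lam : Measure (E m)) : ℝ :=
  ‖(∫ x, InnerProductSpace.rankOne ℝ x x ∂lam) - 1‖

open Classical in
/-- The measure reweighted by `1 - c`. -/
noncomputable def bulkP (P : Measure Ω) (c : Ω → ℝ) : Measure Ω :=
  if IsProbabilityMeasure
      (P.withDensity fun p => ENNReal.ofReal ((1 - c p) / (1 - ∫ q, c q ∂P))) then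
    P.withDensity fun p => ENNReal.ofReal ((1 - c p) / (1 - ∫ q, c q ∂P))
  else P

instance (P : Measure Ω) [IsProbabilityMeasure P] (c : Ω → ℝ) :
    IsProbabilityMeasure (bulkP P c) := by
  unfold bulkP
  split_ifs with h
  · exact h
  · infer_instance

end marks

/-- A marked pre-mm-space. -/
structure MK (m : ℕ) (B : ℝ) where
  A : PM
  μ : Marks m B A.Ω

section mk
variable {m : ℕ} {B : ℝ}

/-- Mark deviation along a span. -/
noncomputable def Span.mdev {A A' : PM} (s : Span A A') (μ : Marks m B A.Ω) (μ' : Marks m B A'.Ω)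
    (h : U m) : ℝ :=
  LC.mdev s.Q (μ.pull s.hl.measurable) (μ'.pull s.hr.measurable) h

/-- The distance between marked spaces modulo the group `G`. -/
noncomputable def DM (b : Bool) (G : Subgroup (U m)) (x y : MK m B) : ℝ :=
  sInf {ε | 0 ≤ ε ∧ ∃ s : Span x.A y.A, s.Close b ε ∧ ∃ h ∈ G, s.mdev x.μ y.μ h ≤ ε}

/-- A gauge assigns marks to every pre-mm-space. -/
abbrev Gauge (m : ℕ) (B : ℝ) : Type 1 := (A : PM) → Marks m B A.Ω

/-- Strong continuity of a gauge at `A`, modulo rotations. -/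
def SC (b : Bool) (ga : Gauge m B) (A : PM) : Prop :=
  ∀ δ : ℝ, 0 < δ → ∃ r : ℝ, 0 < r ∧ ∀ (A' : PM) (s : Span A A'), s.Close b r →
    ∃ h : U m, s.mdev (ga A) (ga A') h ≤ δ

/-- The discarded mass. -/
noncomputable def MK.x (y : MK m B) : ℝ := ∫ p, y.μ.c p ∂y.A.P

/-- The bulk measure. -/
noncomputable abbrev MK.bP (y : MK m B) : Measure y.A.Ω := bulkP y.A.P y.μ.c

/-- The law of the vector mark under the bulk measure. -/
noncomputable def MK.law (y : MK m B) : Measure (E m) := y.bP.map y.μ.g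

instance (y : MK m B) : IsProbabilityMeasure y.law :=
  Measure.isProbabilityMeasure_map y.μ.hg.aemeasurable

/-- Rotation of the marks. -/
noncomputable abbrev MK.act (h : U m) (y : MK m B) : MK m B := ⟨y.A, y.μ.act h⟩

/-- Marked ballast. -/
noncomputable abbrev MK.ball (y : MK m B) (D η : ℝ) : MK m B :=
  ⟨y.A.ball D η, (y.μ.pull measurable_fst).kill
    (measurableSet_lt_snd (c := fun _ => η) measurable_const)⟩

open Classical in
/-- Splitting points so that the discard weight becomes an indicator. -/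
noncomputable abbrev MK.split (y : MK m B) (t : I) : MK m B :=
  ⟨{ Ω := y.A.Ω × I, P := y.A.P.prod volume, d := fun p q => y.A.d p.1 q.1
     hd := y.A.hd.pull measurable_fst },
   { g := fun p => y.μ.g p.1
     c := fun p => if (p.2 : ℝ) < y.μ.c p.1 then 1 - (1 - t) * (1 - y.μ.c p.1)
       else (1 - t) * y.μ.c p.1
     hg := y.μ.hg.comp measurable_fst
     hc := Measurable.ite (measurableSet_lt_snd y.μ.hc)
       (measurable_const.sub (measurable_const.mul
         (measurable_const.sub (y.μ.hc.comp measurable_fst))))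
       (measurable_const.mul (y.μ.hc.comp measurable_fst))
     bg := fun _ => y.μ.bg _
     bc := fun p => by
       have h1 := (y.μ.bc p.1).1
       have h2 := (y.μ.bc p.1).2
       have h3 := t.2.1
       have h4 := t.2.2
       split_ifs <;> constructor <;> nlinarith }⟩

end mk

/-- The model geometry: an invariant pseudo-metric, the model law and the antenna law. -/
structure Geo (m : ℕ) where
  B : ℝ
  Bn : ℝ
  hB : 0 ≤ B
  hBn : 0 ≤ Bn
  ρ : E m → E m → ℝ
  C : ℝ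
  hC : 0 ≤ C
  ρ_self : ∀ x, ρ x x = 0
  ρ_symm : ∀ x y, ρ x y = ρ y x
  ρ_tri : ∀ x y z, ρ x z ≤ ρ x y + ρ y z
  ρ_le : ∀ x y, ρ x y ≤ C * ‖x - y‖
  lam : Measure (E m)
  [plam : IsProbabilityMeasure lam]
  lam_bd : ∀ᵐ x ∂lam, ‖x‖ ≤ B
  nu : Measure (E m)
  [pnu : IsProbabilityMeasure nu]
  nu_bd : ∀ᵐ x ∂nu, ‖x‖ ≤ Bn
  nu_mean : ∫ x, x ∂nu = 0
  nu_cov : ∀ u v : E m, ∫ x, ⟪x, u⟫ * ⟪x, v⟫ ∂nu = ⟪u, v⟫
  G : Subgroup (U m)
  ρ_inv : ∀ h ∈ G, ∀ x y, ρ ((h : E m →L[ℝ] E m) x) ((h : E m →L[ℝ] E m) y) = ρ x y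
  lam_inv : ∀ h ∈ G, lam.map (h : E m →L[ℝ] E m) = lam
  nu_inv : ∀ h ∈ G, nu.map (h : E m →L[ℝ] E m) = nu

attribute [instance] Geo.plam Geo.pnu

section geo
variable {m : ℕ} (Γ : Geo m)

theorem Geo.isPM : IsPM Γ.ρ :=
  (isPM_norm (F := E m) measurable_id).of_le Γ.ρ_self Γ.ρ_symm Γ.ρ_tri Γ.ρ_le

/-- The pseudo-metric read off the marks. -/
noncomputable def markD {Ω : Type} [MeasurableSpace Ω] (t s : ℝ) (μ : Marks m Γ.B Ω) (p q : Ω) :
    ℝ :=
  max t 0 * Γ.ρ ((1 - μ.c p) • μ.g p) ((1 - μ.c q) • μ.g q) + max s 0 * |μ.c p - μ.c q|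

theorem isPM_markD {Ω : Type} [MeasurableSpace Ω] (t s : ℝ) (μ : Marks m Γ.B Ω) :
    IsPM (markD Γ t s μ) :=
  ((Γ.isPM.pull ((measurable_const.sub μ.hc).smul μ.hg)).smul (le_max_right _ _)).add
    ((isPM_abs μ.hc).smul (le_max_right _ _))

/-- The metric `l d + t ρ + s |c - c'|`. -/
noncomputable abbrev MK.lin (y : MK m Γ.B) (l t s : ℝ) : MK m Γ.B :=
  ⟨y.A.withD (fun p q => max l 0 * y.A.d p q + markD Γ t s y.μ p q)
    ((y.A.hd.smul (le_max_right _ _)).add (isPM_markD Γ t s y.μ)), y.μ⟩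

/-- The tautological marks on the mark space. -/
noncomputable abbrev tautM : Marks m Γ.B (E m × ℝ) :=
  ⟨fun z => clip Γ.B z.1, fun z => cl01 z.2, measurable_clip.comp measurable_fst,
    continuous_cl01.measurable.comp measurable_snd, fun _ => norm_clip_le Γ.hB _,
    fun _ => cl01_mem _⟩

/-- The terminal law of marks with discarded mass `β`. -/
noncomputable def endL (β : I) : Measure (E m × ℝ) :=
  mixM β (Γ.lam.map fun x => (x, (0 : ℝ))) (Measure.dirac (0, 1))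

instance (β : I) : IsProbabilityMeasure (endL Γ β) := by
  unfold endL
  have : IsProbabilityMeasure (Γ.lam.map fun x => (x, (0 : ℝ))) :=
    Measure.isProbabilityMeasure_map (by fun_prop)
  infer_instance

/-- The mark space with a given law. -/
noncomputable abbrev lawK (D : ℝ) (κ : Measure (E m × ℝ)) [IsProbabilityMeasure κ] : MK m Γ.B :=
  ⟨{ Ω := E m × ℝ, P := κ, d := markD Γ 1 D (tautM Γ), hd := isPM_markD Γ 1 D _ }, tautM Γ⟩

/-- The joint law of the marks. -/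
noncomputable def MK.jlaw {B : ℝ} (y : MK m B) : Measure (E m × ℝ) :=
  y.A.P.map fun p => (y.μ.g p, y.μ.c p)

instance {B : ℝ} (y : MK m B) : IsProbabilityMeasure y.jlaw :=
  Measure.isProbabilityMeasure_map (y.μ.hg.prodMk y.μ.hc).aemeasurable

/-- Moving the law of the marks to the terminal law. -/
noncomputable abbrev MK.mov (y : MK m Γ.B) (D : ℝ) (β t : I) : MK m Γ.B :=
  lawK Γ D (mixM t y.jlaw (endL Γ β))

/-- The largest antenna mass. -/
noncomputable def Geo.zmax : ℝ := 1 / (100 * (Γ.B + 1) * (Γ.Bn + 1))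

/-- The clamped antenna mass. -/
noncomputable def Geo.zc (ζ : ℝ) : ℝ := max 0 (min ζ Γ.zmax)

/-- The bulk space along the straight line to the model metric. -/
noncomputable abbrev MK.linB (y : MK m Γ.B) (t : I) : PM :=
  { Ω := y.A.Ω, P := y.bP
    d := fun p q => (1 - t : ℝ) * y.A.d p q + t * Γ.ρ (y.μ.g p) (y.μ.g q)
    hd := (y.A.hd.smul (sub_nonneg.mpr t.2.2)).add ((Γ.isPM.pull y.μ.hg).smul t.2.1) }

/-- The model metric with a given law. -/
noncomputable abbrev lawP (lam : Measure (E m)) [IsProbabilityMeasure lam] : PM :=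
  { Ω := E m, P := lam, d := Γ.ρ, hd := Γ.isPM }

/-- The largest distance to `X₀` along the contraction of aligned marks. -/
noncomputable def Qal (b : Bool) (X₀ : PM) (y : MK m Γ.B) : ℝ :=
  max (⨆ t : I, DD b (y.linB Γ t) X₀) (⨆ u : I, DD b (lawP Γ (mixM u y.law Γ.lam)) X₀)

theorem Geo.zmax_pos : 0 < Γ.zmax := by
  have := Γ.hB
  have := Γ.hBn
  unfold Geo.zmax
  positivity

theorem Geo.zc_nonneg (ζ : ℝ) : 0 ≤ Γ.zc ζ := le_max_left _ _

theorem Geo.zc_le (ζ : ℝ) : Γ.zc ζ ≤ Γ.zmax := max_le Γ.zmax_pos.le (min_le_right _ _)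

theorem Geo.zc_mul_le (ζ : ℝ) : Γ.zc ζ * ((Γ.B + 1) * (Γ.Bn + 1)) ≤ 1 / 100 := by
  have := Γ.hB
  have := Γ.hBn
  have h := Γ.zc_le ζ
  rw [Geo.zmax, le_div_iff₀ (by positivity)] at h
  nlinarith

/-- The antenna part of the tagged space. -/
def antS {Ω : Type} (ζ : ℝ) : Set (Ω × (E m × I)) := {x | (x.2.2 : ℝ) < Γ.zc ζ}

theorem measurableSet_antS {Ω : Type} [MeasurableSpace Ω] (ζ : ℝ) :
    MeasurableSet (antS Γ ζ : Set (Ω × (E m × I))) :=
  measurableSet_lt (measurable_subtype_coe.comp (measurable_snd.comp measurable_snd))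
    measurable_const

/-- The part of the tagged metric that stores the marks. -/
noncomputable def tagD {Ω : Type} [MeasurableSpace Ω] (L ζ : ℝ) (μ : Marks m Γ.B Ω) :
    Ω × (E m × I) → Ω × (E m × I) → ℝ :=
  glueD (antS Γ ζ)
    (fun p q => Γ.zc ζ * (Γ.Bn * ‖μ.g p.1 - μ.g q.1‖ + |μ.c p.1 - μ.c q.1|))
    (fun p q => Γ.zc ζ * (Γ.B * ‖clip Γ.Bn p.2.1 - clip Γ.Bn q.2.1‖))
    (fun p q => 10 * max L 1 + Γ.zc ζ * (⟪clip Γ.Bn q.2.1, μ.g p.1⟫ + (1 - μ.c p.1)))

theorem isPM_tagD {Ω : Type} [MeasurableSpace Ω] (L ζ : ℝ) (μ : Marks m Γ.B Ω) :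
    IsPM (tagD Γ L ζ μ) := by
  have hB := Γ.hB
  have hBn := Γ.hBn
  have hz := Γ.zc_nonneg ζ
  have hz' := Γ.zc_mul_le ζ
  have hL : (1 : ℝ) ≤ max L 1 := le_max_right _ _
  have hg : ∀ p q : Ω, ‖μ.g p - μ.g q‖ ≤ 2 * Γ.B := fun p q =>
    (norm_sub_le _ _).trans (by linarith [μ.bg p, μ.bg q])
  have hc : ∀ p q : Ω, |μ.c p - μ.c q| ≤ 1 := fun p q =>
    abs_sub_le_iff.mpr ⟨by linarith [(μ.bc p).2, (μ.bc q).1], by linarith [(μ.bc p).1, (μ.bc q).2]⟩
  have ha : ∀ x y : E m, ‖clip Γ.Bn x - clip Γ.Bn y‖ ≤ 2 * Γ.Bn := fun x y =>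
    (norm_sub_le _ _).trans (by linarith [norm_clip_le hBn x, norm_clip_le hBn y])
  have hBB : 0 ≤ Γ.B * Γ.Bn := by positivity
  refine IsPM.glue (D := 9 * max L 1) (measurableSet_antS Γ ζ)
    ((((isPM_norm (μ.hg.comp measurable_fst)).smul hBn).add
      (isPM_abs (μ.hc.comp measurable_fst))).smul hz)
    (((isPM_norm (measurable_clip.comp (measurable_fst.comp measurable_snd))).smul hB).smul hz)
    (fun p q => ?_) (fun p q => ?_) (fun p q => ?_) (fun p p' q => ?_) (fun p q q' => ?_)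
  · have h1 : Γ.Bn * ‖μ.g p.1 - μ.g q.1‖ ≤ Γ.Bn * (2 * Γ.B) :=
      mul_le_mul_of_nonneg_left (hg _ _) hBn
    have h2 := mul_le_mul_of_nonneg_left (add_le_add h1 (hc p.1 q.1)) hz
    nlinarith
  · have h1 : Γ.B * ‖clip Γ.Bn p.2.1 - clip Γ.Bn q.2.1‖ ≤ Γ.B * (2 * Γ.Bn) :=
      mul_le_mul_of_nonneg_left (ha _ _) hB
    have h2 := mul_le_mul_of_nonneg_left h1 hz
    nlinarith
  · have h1 : |⟪clip Γ.Bn q.2.1, μ.g p.1⟫| ≤ Γ.Bn * Γ.B :=
      (abs_real_inner_le_norm _ _).trans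
        (mul_le_mul (norm_clip_le hBn _) (μ.bg _) (norm_nonneg _) hBn)
    have h2 : -(Γ.Bn * Γ.B) ≤ ⟪clip Γ.Bn q.2.1, μ.g p.1⟫ + (1 - μ.c p.1) := by
      linarith [(abs_le.mp h1).1, (μ.bc p.1).2]
    have h3 := mul_le_mul_of_nonneg_left h2 hz
    nlinarith
  · have h1 : ⟪clip Γ.Bn q.2.1, μ.g p.1⟫ - ⟪clip Γ.Bn q.2.1, μ.g p'.1⟫ ≤
        Γ.Bn * ‖μ.g p.1 - μ.g p'.1‖ := by
      rw [← inner_sub_right]
      exact (real_inner_le_norm _ _).trans
        (mul_le_mul_of_nonneg_right (norm_clip_le hBn _) (norm_nonneg _))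
    have h2 := neg_abs_le (μ.c p.1 - μ.c p'.1)
    have h3 := mul_le_mul_of_nonneg_left (show ⟪clip Γ.Bn q.2.1, μ.g p.1⟫ + (1 - μ.c p.1) -
      (⟪clip Γ.Bn q.2.1, μ.g p'.1⟫ + (1 - μ.c p'.1)) ≤
        Γ.Bn * ‖μ.g p.1 - μ.g p'.1‖ + |μ.c p.1 - μ.c p'.1| by linarith) hz
    linarith
  · have h1 : ⟪clip Γ.Bn q.2.1, μ.g p.1⟫ - ⟪clip Γ.Bn q'.2.1, μ.g p.1⟫ ≤
        Γ.B * ‖clip Γ.Bn q.2.1 - clip Γ.Bn q'.2.1‖ := by
      rw [← inner_sub_left, mul_comm]
      exact (real_inner_le_norm _ _).trans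
        (mul_le_mul_of_nonneg_left (μ.bg _) (norm_nonneg _))
    have h3 := mul_le_mul_of_nonneg_left h1 hz
    linarith

/-- The tagged space: an antenna of mass `ζ` at distance about `20 L` stores the marks. -/
noncomputable abbrev MK.tag (y : MK m Γ.B) (L ζ : ℝ) : MK m Γ.B :=
  ⟨{ Ω := y.A.Ω × (E m × I), P := y.A.P.prod (Γ.nu.prod volume)
     d := fun p q => coneD (antS Γ ζ) (10 * max L 1) (fun p q => y.A.d p.1 q.1) p q +
       tagD Γ L ζ y.μ p q
     hd := ((y.A.hd.pull measurable_fst).cone (measurableSet_antS Γ ζ) _).add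
       (isPM_tagD Γ L ζ y.μ) },
   (y.μ.pull measurable_fst).kill (measurableSet_antS Γ ζ)⟩

/-- A slice for the orthogonal group acting on laws near the model law. -/
structure Slice where
  rad : Measure (E m) → ℝ
  Al : Measure (E m) → Prop
  alg : Measure (E m) → U m
  r : ℝ
  hr : 0 < r
  K : ℝ
  hK : 0 ≤ K
  rad_nonneg : ∀ lam, 0 ≤ rad lam
  rad_lam : rad Γ.lam = 0
  rad_lip : ∀ (π : Measure (E m × E m)) [IsProbabilityMeasure π] (h : U m),
    (∀ᵐ z ∂π, ‖z.1‖ ≤ Γ.B ∧ ‖z.2‖ ≤ Γ.B) →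
    |rad (π.map Prod.fst) - rad (π.map Prod.snd)| ≤
      K * ∫ z, ‖z.1 - (h : E m →L[ℝ] E m) z.2‖ ∂π
  al_lam : Al Γ.lam
  al_alg : ∀ (lam : Measure (E m)) [IsProbabilityMeasure lam],
    Al (lam.map (alg lam : E m →L[ℝ] E m))
  al_mix : ∀ (lam : Measure (E m)) [IsProbabilityMeasure lam], Al lam → ∀ u : I,
    Al (mixM u lam Γ.lam) ∧ rad (mixM u lam Γ.lam) ≤ rad lam
  uniq : ∀ δ : ℝ, 0 < δ → ∃ η : ℝ, 0 < η ∧ ∀ (π : Measure (E m × E m)) [IsProbabilityMeasure π]
    (h : U m), (∀ᵐ z ∂π, ‖z.1‖ ≤ Γ.B ∧ ‖z.2‖ ≤ Γ.B) → Al (π.map Prod.fst) → Al (π.map Prod.snd) →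
    rad (π.map Prod.fst) < r → rad (π.map Prod.snd) < r →
    ∫ z, ‖z.1 - (h : E m →L[ℝ] E m) z.2‖ ∂π ≤ η →
    ∃ l ∈ Γ.G, ‖(h : E m →L[ℝ] E m) - (l : E m →L[ℝ] E m)‖ ≤ δ

/-- Alignment of the marks. -/
noncomputable abbrev MK.al {Γ : Geo m} (S : Slice Γ) (y : MK m Γ.B) : MK m Γ.B :=
  y.act (S.alg y.law)

/-- The quality functional. -/
noncomputable def qq {Γ : Geo m} (S : Slice Γ) (b : Bool) (X₀ : PM) (e₀ e₁ e₂ : ℝ)
    (y : MK m Γ.B) : ℝ :=
  max (Qal Γ b X₀ (y.al S) / e₀) (max (S.rad y.law / e₁) (gram y.law / e₂))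

end geo

end Pool.Agent.P.MP_de432b_gt.LC
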