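import Pool.Agent.P.MP_de432b_gt.LC.A1

/-!
Hilbert-space tools: penalised centres, Newton projections, frames, kernels and their operators,
and strongly continuous fields.
-/

namespace Pool.Agent.P.MP_de432b_gt.LC

open MeasureTheory Set Filter Topology
open scoped unitInterval RealInnerProductSpace

section hilbert
variable {H K : Type} [NormedAddCommGroup H] [InnerProductSpace ℝ H] [CompleteSpace H]
  [NormedAddCommGroup K] [InnerProductSpace ℝ K] [CompleteSpace K]

/-- The penalised radius function of a set of points with weights. -/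
noncomputable def radF (S : Set (H × ℝ)) (c : H) : ℝ := ⨆ z : S, (‖c - z.1.1‖ ^ 2 + z.1.2)

/-- The penalised Chebyshev centre. -/
noncomputable def centre (S : Set (H × ℝ)) : H :=
  Classical.epsilon fun c => ∀ c', radF S c ≤ radF S c'

/-- Transport of an operator along a linear isometry. -/
noncomputable def conj (u : H →ₗᵢ[ℝ] K) (T : H →L[ℝ] H) : K →L[ℝ] K :=
  u.toContinuousLinearMap ∘L T ∘L ContinuousLinearMap.adjoint u.toContinuousLinearMap

/-- One Newton step towards an idempotent. -/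
noncomputable def newt (S : H →L[ℝ] H) : H →L[ℝ] H := (3 : ℝ) • (S * S) - (2 : ℝ) • (S * S * S)

/-- The limit of the Newton iteration. -/
noncomputable def Newt (S : H →L[ℝ] H) : H →L[ℝ] H := limUnder atTop fun n => newt^[n] S

/-- `V` is an isometric embedding of Euclidean space with range projection `P`. -/
def IsFrame {m : ℕ} (V : E m →L[ℝ] H) (P : H →L[ℝ] H) : Prop :=
  ContinuousLinearMap.adjoint V ∘L V = 1 ∧ V ∘L ContinuousLinearMap.adjoint V = P

/-- A chosen frame. -/
noncomputable def frame (m : ℕ) (P : H →L[ℝ] H) : E m →L[ℝ] H :=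
  Classical.epsilon fun V => IsFrame V P

end hilbert

section kernels
variable {Ω : Type} [MeasurableSpace Ω]

open Classical in
/-- The class of a function in `L²`. -/
noncomputable def toL2 (P : Measure Ω) (f : Ω → ℝ) : Lp ℝ 2 P :=
  if h : MemLp f 2 P then h.toLp f else 0

/-- The constant one. -/
noncomputable def oneL (P : Measure Ω) : Lp ℝ 2 P := toL2 P fun _ => 1

/-- Pointwise post-composition of two classes. -/
noncomputable def post2 {P : Measure Ω} (F : ℝ → ℝ → ℝ) (k l : Lp ℝ 2 P) : Lp ℝ 2 P :=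
  toL2 P fun x => F (k x) (l x)

/-- Pointwise post-composition. -/
noncomputable def post {P : Measure Ω} (F : ℝ → ℝ) (k : Lp ℝ 2 P) : Lp ℝ 2 P :=
  toL2 P fun x => F (k x)

/-- The tensor product of two classes. -/
noncomputable def tens {P : Measure Ω} (u v : Lp ℝ 2 P) : Lp ℝ 2 (P.prod P) :=
  toL2 (P.prod P) fun x => u x.1 * v x.2

/-- The integral operator of a kernel. -/
noncomputable def opK {P : Measure Ω} (k : Lp ℝ 2 (P.prod P)) : Lp ℝ 2 P →L[ℝ] Lp ℝ 2 P :=
  Classical.epsilon fun T => ∀ u v : Lp ℝ 2 P, ⟪u, T v⟫ = ⟪k, tens u v⟫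

/-- The kernel of a tuple of functions. -/
noncomputable def tupK {N : ℕ} (ψ : ℝ → ℝ) (f : Fin N → Ω → ℝ) (x : Ω × Ω) : ℝ :=
  ψ (⨆ i, |f i x.1 - f i x.2|)

/-- The canonical kernel: the penalised centre of the kernels of Lipschitz `N`-tuples. -/
noncomputable def kerK (N : ℕ) (ψ : ℝ → ℝ) (Λ : ℝ) (A : PM) : Lp ℝ 2 (A.P.prod A.P) :=
  centre {z | ∃ f : Fin N → A.Ω → ℝ, (∀ i, Lip A.d (f i)) ∧
    z.1 = toL2 (A.P.prod A.P) (tupK ψ f) ∧ z.2 = Λ * ∫ x, tupK ψ f x ∂(A.P.prod A.P)}

/-- The vector-valued function of an operator from Euclidean space to `L²`. -/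
noncomputable def vec {m : ℕ} {P : Measure Ω} (W : E m →L[ℝ] Lp ℝ 2 P) (p : Ω) : E m :=
  ∑ i, (W (EuclideanSpace.single i 1)) p • EuclideanSpace.single i (1 : ℝ)

theorem measurable_vec {m : ℕ} {P : Measure Ω} (W : E m →L[ℝ] Lp ℝ 2 P) : Measurable (vec W) :=
  Finset.measurable_sum _ fun _ _ => (Lp.stronglyMeasurable _).measurable.smul_const _

/-- Marks from an operator and a class. -/
noncomputable abbrev mkMarks {m : ℕ} {B : ℝ} (hB : 0 ≤ B) {P : Measure Ω}
    (W : E m →L[ℝ] Lp ℝ 2 P) (u : Lp ℝ 2 P) : Marks m B Ω :=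
  ⟨fun p => clip B (vec W p), fun p => cl01 (1 - u p), measurable_clip.comp (measurable_vec W),
    continuous_cl01.measurable.comp
      (measurable_const.sub (Lp.stronglyMeasurable _).measurable),
    fun _ => norm_clip_le hB _, fun _ => cl01_mem _⟩

/-- Pull-back of `L²` classes along a measure-preserving map. -/
noncomputable abbrev pullL {Ω' : Type} [MeasurableSpace Ω'] {Q : Measure Ω'} {P : Measure Ω}
    {τ : Ω' → Ω} (h : MeasurePreserving τ Q P) : Lp ℝ 2 P →ₗᵢ[ℝ] Lp ℝ 2 Q :=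
  Lp.compMeasurePreservingₗᵢ ℝ τ h

end kernels

section fields

/-- A deviation along spans out of `A` tends to zero with the closeness of the span. -/
def Small (b : Bool) (A : PM) (dev : (A' : PM) → Span A A' → ℝ) : Prop :=
  ∀ δ : ℝ, 0 < δ → ∃ r : ℝ, 0 < r ∧ ∀ (A' : PM) (s : Span A A'), s.Close b r → dev A' s ≤ δ

/-- Strong continuity of a real function. -/
def SC0 (κ : PM → ℝ) (A : PM) : Prop := Small false A fun A' _ => |κ A - κ A'|

/-- Strong continuity of a field of functions. -/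
def SC1 (u : (A : PM) → Lp ℝ 2 A.P) (A : PM) : Prop :=
  Small false A fun A' s => ‖pullL s.hl (u A) - pullL s.hr (u A')‖

/-- Strong continuity of a field of kernels. -/
def SC2 (k : (A : PM) → Lp ℝ 2 (A.P.prod A.P)) (A : PM) : Prop :=
  Small false A fun A' s => ‖pullL (s.hl.prod s.hl) (k A) - pullL (s.hr.prod s.hr) (k A')‖

/-- Strong continuity of a field of operators. -/
def SCo (T : (A : PM) → Lp ℝ 2 A.P →L[ℝ] Lp ℝ 2 A.P) (A : PM) : Prop :=
  Small false A fun A' s => ‖conj (pullL s.hl) (T A) - conj (pullL s.hr) (T A')‖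

end fields

/-- Stability of the mixture of marks when the first marks are nearly isotropic. -/
def MixOK (m : ℕ) (γ : ℝ) : Prop :=
  ∀ B δ : ℝ, 0 < δ → ∃ η : ℝ, 0 < η ∧ ∀ (A A' : PM) (s : Span A A') (μ₁ μ₂ : Marks m B A.Ω)
    (μ₁' μ₂' : Marks m B A'.Ω) (h₁ h₂ : U m) (χ χ' : I), gram (A.P.map μ₁.g) ≤ γ →
    dmk A.P μ₁ μ₂ * (B + 1) ≤ γ → s.mdev μ₁ μ₁' h₁ ≤ η → s.mdev μ₂ μ₂' h₂ ≤ η →
    |(χ : ℝ) - χ'| ≤ η → s.mdev (mixK A.P χ μ₁ μ₂) (mixK A'.P χ' μ₁' μ₂') h₁ ≤ δ

/-- Pre-mm-spaces with the pseudo-metric `DD b`; the instance is in a later file. -/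
def PMb (_b : Bool) : Type 1 := PM

/-- Two maps from `V` are homotopic inside `V'`, up to distance zero at the ends. -/
def Hot {X : Type 1} [PseudoMetricSpace X] (V V' : Set X) (f g : V → X) : Prop :=
  ∃ F : V × I → X, Continuous F ∧ (∀ z, F z ∈ V') ∧ (∀ y, dist (F (y, 0)) (f y) = 0) ∧
    ∀ y, dist (F (y, 1)) (g y) = 0

end Pool.Agent.P.MP_de432b_gt.LC
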