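import Pool.Agent.P.MP_de432b_gt.LC.A2

namespace Pool.Agent.P.MP_de432b_gt.LC

open MeasureTheory Set Filter Topology
open scoped unitInterval RealInnerProductSpace

/-- The span given by a measure-preserving map. -/
abbrev Span.ofMap {A B : PM} {τ : A.Ω → B.Ω} (h : MeasurePreserving τ A.P B.P) : Span A B :=
  { Ω := A.Ω, Q := A.P, l := id, r := τ, hl := MeasurePreserving.id _, hr := h }

/-- The reversed span. -/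
abbrev Span.symm {A B : PM} (s : Span A B) : Span B A :=
  { Ω := s.Ω, Q := s.Q, l := s.r, r := s.l, hl := s.hr, hr := s.hl }

/-- The constant in the closeness of a tagged space to its base. -/
def Geo.CT {m : ℕ} (Γ : Geo m) : ℝ := 2 * (Γ.B + 1) * (Γ.Bn + 1)

/-- The projection of the tagged space to its base. -/
theorem tag_mp {m : ℕ} (Γ : Geo m) (y : MK m Γ.B) (L ζ : ℝ) :
    MeasurePreserving (Prod.fst : (y.tag Γ L ζ).A.Ω → y.A.Ω) (y.tag Γ L ζ).A.P y.A.P :=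
  measurePreserving_fst

/-- The fixed data of the construction. -/
structure Setup where
  b : Bool
  X₀ : PM
  m : ℕ
  Γ : Geo m
  S : Slice Γ
  e₀ : ℝ
  e₁ : ℝ
  e₂ : ℝ
  γ : ℝ
  r : ℝ
  L₀ : ℝ
  he₀ : 0 < e₀
  he₀' : e₀ ≤ 1 / 1000
  he₁ : 0 < e₁
  he₁' : 4 * e₁ ≤ S.r
  he₂ : 0 < e₂
  hγ : MixOK m γ
  hγ' : γ ≤ 1 / 200
  hr : 0 < r
  hr' : r ≤ 1 / 4000
  hgram : 2 * e₂ + 6 * r * (1 + Γ.B ^ 2) ≤ γ
  hlam : gram Γ.lam ≤ e₂ / 2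
  hL : 12 ≤ L₀
  hL' : 2 * Γ.C * Γ.B ≤ L₀
  hGam : ∀ a, L₀ / 12 ≤ a → Gam a X₀ ≤ 1 / 32

namespace Setup
variable (Δ : Setup)

/-- Truncation levels. -/
noncomputable def L (k : ℕ) : ℝ := Δ.L₀ * 252 ^ k
/-- Levels of the far-mass functionals. -/
noncomputable def a (k : ℕ) : ℝ := Δ.L k / 12
/-- Thickness bounds. -/
noncomputable def t (k : ℕ) : ℝ := Δ.r / 2 ^ k
/-- Bounds for the discarded mass in excess of the far mass. -/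
noncomputable def β (k l : ℕ) : ℝ := Δ.r * (5 - 2 / 2 ^ l - 2 / 2 ^ k)
/-- The terminal discarded mass of stage `k`. -/
noncomputable def bb (k : ℕ) : ℝ := Δ.β k (k + 1)
/-- Quality bounds. -/
noncomputable def s (_Δ : Setup) (k : ℕ) : ℝ := 2 - 1 / 2 ^ k
/-- The quality functional. -/
noncomputable def q (y : MK Δ.m Δ.Γ.B) : ℝ := qq Δ.S Δ.b Δ.X₀ Δ.e₀ Δ.e₁ Δ.e₂ y

/-- The invariants of marked spaces at stage `k`. -/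
def Inv (k : ℕ) (y : MK Δ.m Δ.Γ.B) : Prop :=
  Δ.q y < Δ.s k ∧ y.x < 5 * Δ.r ∧ ∀ l ≤ k, y.x - Gam (Δ.a l) y.A < Δ.β k l

/-- The properties of a level function at stage `k`. -/
structure Level (k : ℕ) (v : PM → ℝ) : Prop where
  lip : ∀ z z', |v z - v z'| ≤ 9 * DD Δ.b z z'
  trunc : ∀ z L', Δ.L k ≤ L' → v (z.trunc L') = v z
  mono : ∀ (z : PM) (D η η' : ℝ), Δ.L k ≤ D → 0 ≤ η → η ≤ η' → η' ≤ 1 / 32 →
    (∀ l ≤ k, Gam (Δ.a l) z ≤ 1 / 16) → v (z.ball D η) + (η' - η) ≤ v (z.ball D η')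

/-- A pair of level functions at stage `k`. -/
structure Pair (k : ℕ) (v w : PM → ℝ) : Prop where
  lv : Δ.Level k v
  lw : Δ.Level k w
  le : ∀ z, w z ≤ v z
  gap : ∀ z, v z ≤ 0 → (∀ l ≤ k, 0 < Gam (Δ.a l) z) → w z < 0
  exit : ∀ z, (∀ l ≤ k, Δ.t l ≤ Gam (Δ.a l) z) → 2 * Δ.t k ≤ w z

/-- The level function of a set `T` with thickness `θ`. -/
noncomputable def nf (k : ℕ) (T : Set PM) (θ : PM → ℝ) (c : ℝ) (z : PM) : ℝ :=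
  ⨅ Z : T, (DD Δ.b (z.trunc (Δ.L k)) Z.1 + 4 * Gam (Δ.a k) z - c * θ Z.1)

/-- The data of stage `k`. -/
structure Stage (k : ℕ) where
  v : PM → ℝ
  w : PM → ℝ
  ga : Gauge Δ.m Δ.Γ.B
  pair : Δ.Pair k v w
  sc : ∀ z, w z < 0 → SC Δ.b ga z
  inv : ∀ z, w z < 0 → Δ.Inv k ⟨z, ga z⟩
  base : v Δ.X₀ < 0

variable {Δ}

/-- The intermediate level function. -/
noncomputable def Stage.o {k : ℕ} (St : Δ.Stage k) (z : PM) : ℝ := (2 * St.v z + St.w z) / 3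

/-- Admissible points of the track of stage `k`. -/
def Stage.Nice {k : ℕ} (St : Δ.Stage k) (δ ζ₀ : ℝ) (Z : PM) : Prop :=
  ∃ (y : MK Δ.m Δ.Γ.B) (ζ : ℝ), Z = (y.tag Δ.Γ (Δ.L k) ζ).A ∧ 0 < ζ ∧ ζ ≤ ζ₀ ∧
    (∀ p q, y.A.d p q ≤ 2 * Δ.L k) ∧ Δ.Inv k y ∧ y.x ≤ Δ.bb k ∧
    (0 < St.o (y.tag Δ.Γ (Δ.L k) ζ).A ∨ (St.w (y.tag Δ.Γ (Δ.L k) ζ).A < 0 ∧
      dmk (y.tag Δ.Γ (Δ.L k) ζ).A.P (y.tag Δ.Γ (Δ.L k) ζ).μ
        (St.ga (y.tag Δ.Γ (Δ.L k) ζ).A) ≤ 2 * δ))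

end Setup

/-- A reader for tagged spaces at level `L` with accuracy `δ`. -/
def Reader {m : ℕ} (Γ : Geo m) (L δ : ℝ) (R : Gauge m Γ.B) : Prop :=
  ∀ (y : MK m Γ.B) (ζ : ℝ), 0 < ζ → ζ ≤ Γ.zmax → (∀ p q, y.A.d p q ≤ 2 * L) →
    gram (y.A.P.map y.μ.g) ≤ 1 / 200 →
    (∃ ρ : ℝ, 0 < ρ ∧ ∀ z, DD false (y.tag Γ L ζ).A z < ρ → SC false R z) ∧
      dmk (y.tag Γ L ζ).A.P (y.tag Γ L ζ).μ (R (y.tag Γ L ζ).A) ≤ δ

end Pool.Agent.P.MP_de432b_gt.LC
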