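import Pool.Agent.P.MP_de432b_gt.LC.A2

namespace Pool.Agent.P.MP_de432b_gt.LC

open MeasureTheory Set Filter Topology
open scoped unitInterval RealInnerProductSpace

instance continuousStar_opE (m : ℕ) : ContinuousStar (E m →L[ℝ] E m) :=
  ⟨(ContinuousLinearMap.adjoint (𝕜 := ℝ) (E := E m) (F := E m)).continuous⟩

theorem U.norm_le {m : ℕ} (h : U m) : ‖(h : E m →L[ℝ] E m)‖ ≤ 1 :=
  ContinuousLinearMap.opNorm_le_bound _ zero_le_one fun x => by rw [U.norm_app, one_mul]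

theorem U.norm_mul_left {m : ℕ} (h : U m) (M : E m →L[ℝ] E m) :
    ‖(h : E m →L[ℝ] E m) * M‖ = ‖M‖ := CStarRing.norm_coe_unitary_mul h M

theorem U.norm_mul_right {m : ℕ} (h : U m) (M : E m →L[ℝ] E m) :
    ‖M * (h : E m →L[ℝ] E m)‖ = ‖M‖ := CStarRing.norm_mul_coe_unitary M h

theorem compactSpace_U (m : ℕ) : CompactSpace (U m) := by
  have h : IsCompact ((unitary (E m →L[ℝ] E m) : Set (E m →L[ℝ] E m))) := by
    refine (isCompact_closedBall (0 : E m →L[ℝ] E m) 1).of_isClosed_subset isClosed_unitary ?_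
    intro x hx
    simpa using U.norm_le ⟨x, hx⟩
  exact isCompact_iff_compactSpace.mp h

theorem exists_nearest {m : ℕ} {W : Type} [NormedAddCommGroup W] {p : U m → W} (hp : Continuous p)
    (w : W) : ∃ g, ∀ h, ‖w - p g‖ ≤ ‖w - p h‖ := by
  have := compactSpace_U m
  obtain ⟨g, -, hg⟩ := isCompact_univ.exists_isMinOn ⟨(1 : U m), mem_univ _⟩
    (f := fun g => ‖w - p g‖) (by fun_prop)
  exact ⟨g, fun h => hg (mem_univ h)⟩

/-- Near-zeros of a continuous function on a compact set are near its zeros. -/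
theorem near_zero_set {X : Type} [PseudoMetricSpace X] {K : Set X} (hK : IsCompact K) {F : X → ℝ}
    (hF : Continuous F) {δ : ℝ} (hδ : 0 < δ) :
    ∃ η : ℝ, 0 < η ∧ ∀ x ∈ K, F x ≤ η → ∃ z ∈ K, F z ≤ 0 ∧ dist x z ≤ δ := by
  let K' : Set X := K ∩ ⋂ z ∈ {z ∈ K | F z ≤ 0}, {x | δ ≤ dist x z}
  have hK' : IsCompact K' := hK.inter_right
    (isClosed_biInter fun z _ => isClosed_le continuous_const (by fun_prop))
  have out : ∀ x ∈ K, x ∉ K' → ∃ z ∈ K, F z ≤ 0 ∧ dist x z ≤ δ := by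
    intro x hx hx'
    by_contra hc
    refine hx' ⟨hx, mem_iInter₂.mpr fun z hz => ?_⟩
    by_contra h2
    exact hc ⟨z, hz.1, hz.2, (lt_of_not_ge h2).le⟩
  rcases K'.eq_empty_or_nonempty with he | hne
  · exact ⟨1, one_pos, fun x hx _ => out x hx (by simp [he])⟩
  obtain ⟨x₀, hx₀, hmin⟩ := hK'.exists_isMinOn hne hF.continuousOn
  have hpos : 0 < F x₀ := by
    by_contra hc
    have := mem_iInter₂.mp hx₀.2 x₀ ⟨hx₀.1, le_of_not_gt hc⟩
    simp only [mem_ofPred_eq, dist_self] at this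
    linarith
  refine ⟨F x₀ / 2, by positivity, fun x hx hx2 => out x hx fun hx' => ?_⟩
  have : F x₀ ≤ F x := hmin hx'
  linarith

theorem mem_unitary_of_adj {m : ℕ} {M : E m →L[ℝ] E m}
    (h : ContinuousLinearMap.adjoint M ∘L M = 1) : M ∈ unitary (E m →L[ℝ] E m) := by
  have h1 : star M * M = 1 := h
  refine Unitary.mem_iff.mpr ⟨h1, ?_⟩
  have h2 : ((star M : E m →L[ℝ] E m) : E m →ₗ[ℝ] E m) * (M : E m →ₗ[ℝ] E m) = 1 :=
    congrArg (fun T : E m →L[ℝ] E m => (T : E m →ₗ[ℝ] E m)) h1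
  have h3 := mul_eq_one_comm.mp h2
  exact ContinuousLinearMap.coe_injective h3

theorem near_unitary (m : ℕ) {δ : ℝ} (hδ : 0 < δ) : ∃ η : ℝ, 0 < η ∧ ∀ M : E m →L[ℝ] E m,
    ‖ContinuousLinearMap.adjoint M ∘L M - 1‖ ≤ η → ∃ h : U m, ‖M - (h : E m →L[ℝ] E m)‖ ≤ δ := by
  obtain ⟨η, hη, h⟩ := near_zero_set (isCompact_closedBall (0 : E m →L[ℝ] E m) 2)
    (F := fun M => ‖star M * M - 1‖) (by fun_prop) hδ
  refine ⟨min η 1, by positivity, fun M hM => ?_⟩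
  have hM' : ‖star M * M - 1‖ ≤ min η 1 := hM
  have h1 : ‖star M * M‖ ≤ 2 := by
    have e : star M * M = (star M * M - 1) + 1 := by abel
    rw [e]
    refine (norm_add_le _ _).trans ?_
    have : ‖(1 : E m →L[ℝ] E m)‖ ≤ 1 := ContinuousLinearMap.norm_id_le
    linarith [min_le_right η 1]
  rw [show ‖star M * M‖ = ‖M‖ * ‖M‖ from ContinuousLinearMap.norm_adjoint_comp_self M] at h1
  obtain ⟨z, -, hz, hd⟩ := h M (by
    rw [mem_closedBall_zero_iff]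
    nlinarith [norm_nonneg M]) (hM'.trans (min_le_left _ _))
  refine ⟨⟨z, mem_unitary_of_adj (sub_eq_zero.mp (norm_le_zero_iff.mp hz))⟩, ?_⟩
  simpa [dist_eq_norm] using hd

theorem stab_close {m : ℕ} {W : Type} [NormedAddCommGroup W] {p : U m → W} (hp : Continuous p)
    {δ : ℝ} (hδ : 0 < δ) : ∃ η : ℝ, 0 < η ∧ ∀ g : U m, ‖p g - p 1‖ ≤ η →
      ∃ l : U m, p l = p 1 ∧ ‖(g : E m →L[ℝ] E m) - (l : E m →L[ℝ] E m)‖ ≤ δ := by
  have := compactSpace_U m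
  obtain ⟨η, hη, h⟩ := near_zero_set (isCompact_univ (X := U m))
    (F := fun g => ‖p g - p 1‖) (by fun_prop) hδ
  refine ⟨η, hη, fun g hg => ?_⟩
  obtain ⟨l, -, hl, hd⟩ := h g (mem_univ _) hg
  refine ⟨l, sub_eq_zero.mp (norm_le_zero_iff.mp hl), ?_⟩
  rwa [Subtype.dist_eq, dist_eq_norm] at hd

theorem exists_expo (𝔸 : Type) [NormedRing 𝔸] [NormedAlgebra ℝ 𝔸] [CompleteSpace 𝔸] [StarRing 𝔸]
    [NormedStarGroup 𝔸] : ∃ ex : 𝔸 → 𝔸, (∀ A, star A = -A → ex A ∈ unitary 𝔸) ∧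
      (∀ (A : 𝔸) (s t : ℝ), ex ((s + t) • A) = ex (s • A) * ex (t • A)) ∧ ex 0 = 1 ∧
      HasFDerivAt ex (1 : 𝔸 →L[ℝ] 𝔸) 0 := by
  let : NormedAlgebra ℚ 𝔸 := NormedAlgebra.restrictScalars ℚ ℝ 𝔸
  refine ⟨NormedSpace.exp, fun A hA => ?_, fun A s t => ?_, NormedSpace.exp_zero,
    hasFDerivAt_exp_zero⟩
  · exact NormedSpace.exp_mem_unitary_of_mem_skewAdjoint (skewAdjoint.mem_iff.mpr hA)
  · rw [add_smul]
    exact NormedSpace.exp_add_of_commute (((Commute.refl A).smul_left s).smul_right t)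

section reach
variable {m : ℕ} {W : Type} [NormedAddCommGroup W] [InnerProductSpace ℝ W]

theorem exists_curves (m : ℕ) : ∃ γ : (E m →L[ℝ] E m) → ℝ → U m,
    (∀ A, star A = -A → (∀ s t, γ A (s + t) = γ A s * γ A t) ∧ γ A 0 = 1 ∧
      HasDerivAt (fun s => (γ A s : E m →L[ℝ] E m)) A 0) ∧
    ∃ ρ : ℝ, 0 < ρ ∧ ∀ A, star A = -A → ‖A‖ ≤ ρ →
      ‖(γ A 1 : E m →L[ℝ] E m) - 1 - A‖ ≤ ‖A‖ / 8 := by
  classical
  obtain ⟨ex, h1, h2, h3, h4⟩ := exists_expo (E m →L[ℝ] E m)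
  have sk : ∀ (A : E m →L[ℝ] E m) (s : ℝ), star A = -A → star (s • A) = -(s • A) := by
    intro A s hA
    rw [star_smul, hA, star_trivial, smul_neg]
  let γ : (E m →L[ℝ] E m) → ℝ → U m := fun A s =>
    if h : star A = -A then ⟨ex (s • A), h1 _ (sk A s h)⟩ else 1
  have hγ : ∀ A, star A = -A → ∀ s, (γ A s : E m →L[ℝ] E m) = ex (s • A) := by
    intro A hA s
    simp only [γ, dif_pos hA]
  refine ⟨γ, fun A hA => ⟨fun s t => Subtype.ext ?_, Subtype.ext ?_, ?_⟩, ?_⟩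
  · rw [Submonoid.coe_mul, hγ A hA, hγ A hA, hγ A hA, h2]
  · rw [hγ A hA, show (0 : ℝ) • A = 0 from zero_smul ℝ A, h3]
    rfl
  · have e : (fun s => (γ A s : E m →L[ℝ] E m)) = ex ∘ fun s : ℝ => s • A := funext (hγ A hA)
    rw [e]
    have h5 : HasDerivAt (fun s : ℝ => s • A) A 0 := by
      simpa using (hasDerivAt_id (0 : ℝ)).smul_const A
    have h6 : HasFDerivAt ex (1 : (E m →L[ℝ] E m) →L[ℝ] (E m →L[ℝ] E m)) ((0 : ℝ) • A) := by
      rwa [show (0 : ℝ) • A = 0 from zero_smul ℝ A]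
    exact h6.comp_hasDerivAt 0 h5
  · have h5 := (Asymptotics.isLittleO_iff.mp h4.isLittleO) (show (0 : ℝ) < 1 / 8 by norm_num)
    obtain ⟨ρ, hρ, h6⟩ := Metric.eventually_nhds_iff.mp h5
    refine ⟨ρ / 2, by positivity, fun A hA hn => ?_⟩
    have h7 := h6 (y := A) (by rw [dist_zero_right]; linarith)
    rw [hγ A hA, one_smul]
    simp only [h3, sub_zero, one_apply_eq_self] at h7
    linarith

theorem curve_deriv {p : U m → W} {Dl : (E m →L[ℝ] E m) →L[ℝ] W} {C : ℝ}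
    (hT : ∀ g : U m, ‖p g - p 1 - Dl ((g : E m →L[ℝ] E m) - 1)‖ ≤
      C * ‖(g : E m →L[ℝ] E m) - 1‖ ^ 2) {c : ℝ → U m} (c0 : c 0 = 1) {A : E m →L[ℝ] E m}
    (hc : HasDerivAt (fun s => (c s : E m →L[ℝ] E m)) A 0) :
    HasDerivAt (fun s => p (c s)) (Dl A) 0 := by
  have h1 : HasDerivAt (fun s => Dl (c s : E m →L[ℝ] E m)) (Dl A) 0 :=
    Dl.hasFDerivAt.comp_hasDerivAt 0 hc
  have h2 : HasDerivAt (fun s => p (c s) - p 1 - Dl ((c s : E m →L[ℝ] E m) - 1)) 0 0 := by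
    rw [hasDerivAt_iff_isLittleO]
    have b1 : (fun s : ℝ => (c s : E m →L[ℝ] E m) - 1) =O[𝓝 0] fun s : ℝ => s := by
      simpa [c0] using hc.isBigO_sub
    have b2 : (fun s : ℝ => ‖(c s : E m →L[ℝ] E m) - 1‖ ^ 2) =o[𝓝 0] fun s : ℝ => s :=
      (b1.norm_left.pow 2).trans_isLittleO (Asymptotics.isLittleO_pow_id one_lt_two)
    have b3 : (fun s => p (c s) - p 1 - Dl ((c s : E m →L[ℝ] E m) - 1)) =O[𝓝 0]
        fun s : ℝ => ‖(c s : E m →L[ℝ] E m) - 1‖ ^ 2 :=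
      Asymptotics.IsBigO.of_bound C (Eventually.of_forall fun s => by
        rw [Real.norm_of_nonneg (by positivity)]
        exact hT (c s))
    simpa [c0] using b3.trans_isLittleO b2
  have h3 := (h2.add h1).add_const (p 1 - Dl 1)
  rw [zero_add] at h3
  convert h3 using 1
  funext s
  simp only [Pi.add_apply, map_sub]
  abel

theorem skew_sym_part {R : Type} [Ring R] [StarRing R] {g : R} (h : star g * g = 1) :
    (g - 1) + star (g - 1) = -(star (g - 1) * (g - 1)) := by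
  rw [star_sub, star_one, sub_mul, mul_sub, mul_sub, h]
  simp only [mul_one, one_mul]
  abel

theorem norm_sym_part (g : U m) :
    ‖((g : E m →L[ℝ] E m) - 1) + star ((g : E m →L[ℝ] E m) - 1)‖ =
      ‖(g : E m →L[ℝ] E m) - 1‖ ^ 2 := by
  have h := skew_sym_part (Unitary.mem_iff.mp g.2).1
  rw [show ((g : E m →L[ℝ] E m) - 1) + star ((g : E m →L[ℝ] E m) - 1) =
    -(star ((g : E m →L[ℝ] E m) - 1) * ((g : E m →L[ℝ] E m) - 1)) from h, norm_neg, pow_two]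
  exact ContinuousLinearMap.norm_adjoint_comp_self _

theorem exists_ker_approx {V F : Type} [NormedAddCommGroup V] [NormedSpace ℝ V]
    [FiniteDimensional ℝ V] [NormedAddCommGroup F] [NormedSpace ℝ F] (Φ : V →L[ℝ] F) :
    ∃ K : ℝ, 0 < K ∧ ∀ B, ∃ A, Φ A = 0 ∧ ‖B - A‖ ≤ K * ‖Φ B‖ := by
  have : CompleteSpace V := FiniteDimensional.complete ℝ V
  have : CompleteSpace (LinearMap.range (Φ : V →ₗ[ℝ] F)) := FiniteDimensional.complete ℝ _
  obtain ⟨K, hK, h⟩ := ContinuousLinearMap.exists_preimage_norm_le Φ.rangeRestrict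
    (fun ⟨y, x, hx⟩ => ⟨x, Subtype.ext hx⟩)
  refine ⟨K, hK, fun B => ?_⟩
  obtain ⟨x, hx, hn⟩ := h (Φ.rangeRestrict B)
  have e : Φ x = Φ B := congrArg Subtype.val hx
  refine ⟨B - x, by rw [map_sub, e, sub_self], ?_⟩
  rw [sub_sub_cancel]
  exact hn

end reach

section reach2
variable {m : ℕ} {W : Type} [NormedAddCommGroup W] [InnerProductSpace ℝ W]
  {π : U m → W →ₗᵢ[ℝ] W} {p : U m → W} {Dl : (E m →L[ℝ] E m) →L[ℝ] W} {C : ℝ}

theorem curve_const (hπ : ∀ g h, π g (p h) = p (g * h)) {c : ℝ → U m}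
    (hc : ∀ s t, c (s + t) = c s * c t) (c0 : c 0 = 1)
    (hd : HasDerivAt (fun s => p (c s)) 0 0) (t : ℝ) : p (c t) = p 1 := by
  have h1 : ∀ t, HasDerivAt (fun s => p (c s)) 0 t := by
    intro t
    have h2 : HasDerivAt (fun s => π (c t) (p (c s))) 0 (t - t) := by
      rw [sub_self]
      have h4 := (π (c t)).toContinuousLinearMap.hasFDerivAt.comp_hasDerivAt 0 hd
      rw [map_zero] at h4
      exact h4
    have h3 := h2.comp_sub_const t t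
    convert h3 using 1
    funext s
    rw [hπ, ← hc, add_sub_cancel]
  rw [is_const_of_deriv_eq_zero (fun t => (h1 t).differentiableAt) (fun t => (h1 t).deriv) t 0, c0]

theorem lin_lower (hp : Continuous p) (hπ : ∀ g h, π g (p h) = p (g * h))
    (hT : ∀ g : U m, ‖p g - p 1 - Dl ((g : E m →L[ℝ] E m) - 1)‖ ≤
      C * ‖(g : E m →L[ℝ] E m) - 1‖ ^ 2) :
    ∃ K : ℝ, 0 ≤ K ∧ ∀ h : U m, ∃ h' : U m, p h' = p h ∧
      ‖(h' : E m →L[ℝ] E m) - 1‖ ≤ K * ‖p h - p 1‖ := by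
  have := compactSpace_U m
  obtain ⟨γ, hγ, ρ, hρ, hγ2⟩ := exists_curves m
  let st : (E m →L[ℝ] E m) →L[ℝ] (E m →L[ℝ] E m) :=
    (ContinuousLinearMap.adjoint (𝕜 := ℝ) (E := E m) (F := E m)).toLinearIsometry.toContinuousLinearMap
  have hst : ∀ B, st B = star B := fun _ => rfl
  obtain ⟨K, hK, hA⟩ := exists_ker_approx (Dl.prod (1 + st))
  have hC : 0 < |C| + 1 := by positivity
  obtain ⟨η, hη, hs⟩ := stab_close hp
    (show 0 < min (ρ / 2) (1 / (2 * K * (|C| + 1))) by positivity)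
  refine ⟨max (2 / η) (4 * K), by positivity, fun h => ?_⟩
  have he : 0 ≤ ‖p h - p 1‖ := norm_nonneg _
  by_cases hη' : ‖p h - p 1‖ ≤ η
  swap
  · refine ⟨h, rfl, le_trans ?_ (mul_le_mul_of_nonneg_right (le_max_left _ _) he)⟩
    have h1 : ‖(h : E m →L[ℝ] E m) - 1‖ ≤ 2 := (norm_sub_le _ _).trans (by
      have : ‖(1 : E m →L[ℝ] E m)‖ ≤ 1 := ContinuousLinearMap.norm_id_le
      linarith [U.norm_le h])
    rw [div_mul_eq_mul_div, le_div_iff₀ hη]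
    nlinarith [norm_nonneg ((h : E m →L[ℝ] E m) - 1)]
  have inv : ∀ l : U m, p l = p 1 → p l⁻¹ = p 1 := fun l hl => by
    have := hπ l⁻¹ l
    rw [hl, hπ, mul_one, inv_mul_cancel] at this
    exact this
  have rt : ∀ k l : U m, p l = p 1 → p (k * l⁻¹) = p k := fun k l hl => by
    rw [← hπ, inv l hl, hπ, mul_one]
  have nrm : ∀ k l : U m, ‖((k * l⁻¹ : U m) : E m →L[ℝ] E m) - 1‖ =
      ‖(k : E m →L[ℝ] E m) - (l : E m →L[ℝ] E m)‖ := fun k l => by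
    rw [← U.norm_mul_right l, sub_mul, one_mul, ← Submonoid.coe_mul, inv_mul_cancel_right]
  obtain ⟨h', hh', hmin⟩ := (isClosed_eq hp (continuous_const (y := p h))).isCompact.exists_isMinOn
    ⟨h, rfl⟩ (f := fun k : U m => ‖(k : E m →L[ℝ] E m) - 1‖) (by fun_prop)
  have hh : p h' = p h := hh'
  refine ⟨h', hh, le_trans ?_ (mul_le_mul_of_nonneg_right (le_max_right _ _) he)⟩
  obtain ⟨l, hl, hl2⟩ := hs h hη'
  set B : E m →L[ℝ] E m := (h' : E m →L[ℝ] E m) - 1 with hB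
  have d0 : ‖B‖ ≤ min (ρ / 2) (1 / (2 * K * (|C| + 1))) := by
    have : ‖B‖ ≤ ‖((h * l⁻¹ : U m) : E m →L[ℝ] E m) - 1‖ := hmin (rt h l hl)
    rw [nrm] at this
    exact this.trans hl2
  have d1 : ‖B‖ ≤ ρ / 2 := d0.trans (min_le_left _ _)
  have d2 : K * (|C| + 1) * ‖B‖ ≤ 1 / 2 := by
    have := d0.trans (min_le_right _ _)
    rw [le_div_iff₀ (by positivity)] at this
    linarith
  obtain ⟨A, hA0, hAB⟩ := hA B
  have a1 : Dl A = 0 := congrArg Prod.fst hA0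
  have a2 : star A = -A := eq_neg_of_add_eq_zero_right (congrArg Prod.snd hA0)
  have n1 : ‖Dl B‖ ≤ ‖p h - p 1‖ + |C| * ‖B‖ ^ 2 := by
    have e : Dl B = (p h' - p 1) - (p h' - p 1 - Dl B) := by abel
    have h2 := (hT h').trans (mul_le_mul_of_nonneg_right (le_abs_self C) (by positivity))
    rw [e, ← hh]
    exact (norm_sub_le _ _).trans (add_le_add le_rfl h2)
  have n2 : ‖(Dl.prod (1 + st)) B‖ ≤ ‖p h - p 1‖ + (|C| + 1) * ‖B‖ ^ 2 := by
    have h3 : ‖B + star B‖ = ‖B‖ ^ 2 := norm_sym_part h'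
    refine max_le (le_trans n1 (by nlinarith [sq_nonneg ‖B‖])) ?_
    show ‖B + star B‖ ≤ _
    rw [h3]
    nlinarith [abs_nonneg C, sq_nonneg ‖B‖]
  have n3 : ‖B - A‖ ≤ K * ‖p h - p 1‖ + ‖B‖ / 2 := by
    have := mul_le_mul_of_nonneg_left n2 hK.le
    nlinarith [norm_nonneg B]
  by_cases hc : ‖B‖ ≤ ‖B - A‖
  · nlinarith
  have n4 : ‖A‖ ≤ 2 * ‖B‖ := by
    have e : A = B - (B - A) := by abel
    have := norm_sub_le B (B - A)
    rw [← e] at this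
    linarith
  obtain ⟨g1, g2, g3⟩ := hγ A a2
  have c1 : p (γ A 1) = p 1 := curve_const hπ g1 g2 (a1 ▸ curve_deriv hT g2 g3) 1
  have c2 : ‖B‖ ≤ ‖((h' * (γ A 1)⁻¹ : U m) : E m →L[ℝ] E m) - 1‖ :=
    hmin ((rt h' _ c1).trans hh)
  rw [nrm] at c2
  have e : (h' : E m →L[ℝ] E m) - (γ A 1 : E m →L[ℝ] E m) =
      (B - A) - ((γ A 1 : E m →L[ℝ] E m) - 1 - A) := by
    rw [hB]
    abel
  have c3 := norm_sub_le (B - A) ((γ A 1 : E m →L[ℝ] E m) - 1 - A)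
  rw [← e] at c3
  have c4 := hγ2 A a2 (by linarith)
  nlinarith

theorem normal_bound (hp : Continuous p) (hπ : ∀ g h, π g (p h) = p (g * h))
    (hT : ∀ g : U m, ‖p g - p 1 - Dl ((g : E m →L[ℝ] E m) - 1)‖ ≤
      C * ‖(g : E m →L[ℝ] E m) - 1‖ ^ 2) :
    ∃ K : ℝ, 0 ≤ K ∧ ∀ (w : W) (g : U m), (∀ h, ‖w - p g‖ ≤ ‖w - p h‖) → ∀ h,
      ⟪w - p g, p h - p g⟫ ≤ K * ‖w - p g‖ * ‖p h - p g‖ ^ 2 := by
  obtain ⟨K, hK, hl⟩ := lin_lower hp hπ hT
  obtain ⟨γ, hγ, -⟩ := exists_curves m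
  have base : ∀ w : W, (∀ h, ‖w - p 1‖ ≤ ‖w - p h‖) → ∀ h, ⟪w - p 1, p h - p 1⟫ ≤
      (|C| + ‖Dl‖) * K ^ 2 * ‖w - p 1‖ * ‖p h - p 1‖ ^ 2 := by
    intro w hw h
    have perp : ∀ A : E m →L[ℝ] E m, star A = -A → ⟪w - p 1, Dl A⟫ = 0 := by
      intro A hA
      obtain ⟨-, g2, g3⟩ := hγ A hA
      have h1 := ((curve_deriv hT g2 g3).const_sub w).norm_sq
      have h2 : IsLocalMin (fun s => ‖w - p (γ A s)‖ ^ 2) 0 := Eventually.of_forall fun s => by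
        show ‖w - p (γ A 0)‖ ^ 2 ≤ ‖w - p (γ A s)‖ ^ 2
        rw [g2]
        exact pow_le_pow_left₀ (norm_nonneg _) (hw _) 2
      have h3 := h2.hasDerivAt_eq_zero h1
      rw [g2, inner_neg_right] at h3
      linarith
    obtain ⟨h', hh, hn⟩ := hl h
    set B : E m →L[ℝ] E m := (h' : E m →L[ℝ] E m) - 1 with hB
    have sk : star (B - star B) = -(B - star B) := by
      have : ∀ {R : Type} [Ring R] [StarRing R] (x : R), star (x - star x) = -(x - star x) := by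
        intro R _ _ x
        rw [star_sub, star_star, neg_sub]
      exact this B
    have h1 := perp _ sk
    have h3 : ‖B + star B‖ = ‖B‖ ^ 2 := norm_sym_part h'
    have h4 : ⟪w - p 1, Dl (B + star B)⟫ ≤ ‖w - p 1‖ * (‖Dl‖ * ‖B‖ ^ 2) :=
      (real_inner_le_norm _ _).trans
        (mul_le_mul_of_nonneg_left (h3 ▸ Dl.le_opNorm _) (norm_nonneg _))
    have h5 : ⟪w - p 1, p h' - p 1 - Dl B⟫ ≤ ‖w - p 1‖ * (|C| * ‖B‖ ^ 2) :=
      (real_inner_le_norm _ _).trans (mul_le_mul_of_nonneg_left ((hT h').trans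
        (mul_le_mul_of_nonneg_right (le_abs_self C) (by positivity))) (norm_nonneg _))
    rw [map_sub, inner_sub_right] at h1
    rw [map_add, inner_add_right] at h4
    rw [inner_sub_right, hh] at h5
    have h6 : ‖B‖ ^ 2 ≤ (K * ‖p h - p 1‖) ^ 2 := pow_le_pow_left₀ (norm_nonneg _) hn 2
    have h7 : 0 ≤ ‖w - p 1‖ * (‖Dl‖ * ‖B‖ ^ 2) := by positivity
    have h8 := mul_le_mul_of_nonneg_left h6
      (show 0 ≤ (|C| + ‖Dl‖) * ‖w - p 1‖ by positivity)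
    nlinarith
  refine ⟨(|C| + ‖Dl‖) * K ^ 2, by positivity, fun w g hw h => ?_⟩
  have e1 : ∀ k, π g⁻¹ w - p k = π g⁻¹ (w - p (g * k)) := fun k => by
    rw [map_sub, hπ, inv_mul_cancel_left]
  have e2 : p (g⁻¹ * h) - p 1 = π g⁻¹ (p h - p g) := by
    rw [map_sub, hπ, hπ, inv_mul_cancel]
  have := base (π g⁻¹ w) (fun k => by
    rw [e1, e1, LinearIsometry.norm_map, LinearIsometry.norm_map, mul_one]
    exact hw _) (g⁻¹ * h)
  rwa [e1, e2, mul_one, LinearIsometry.inner_map_map, LinearIsometry.norm_map,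
    LinearIsometry.norm_map] at this

end reach2

/-- Positive reach of an orbit of the orthogonal group. -/
theorem slice_core {m : ℕ} {W : Type} [NormedAddCommGroup W] [InnerProductSpace ℝ W]
    (π : U m → W →ₗᵢ[ℝ] W) {p : U m → W} (hp : Continuous p) (hπ : ∀ g h, π g (p h) = p (g * h))
    (Dl : (E m →L[ℝ] E m) →L[ℝ] W) (C : ℝ)
    (hT : ∀ g : U m, ‖p g - p 1 - Dl ((g : E m →L[ℝ] E m) - 1)‖ ≤
      C * ‖(g : E m →L[ℝ] E m) - 1‖ ^ 2) :
    ∃ r : ℝ, 0 < r ∧ ∀ (w w' : W) (g g' : U m), (∀ h, ‖w - p g‖ ≤ ‖w - p h‖) →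
      (∀ h, ‖w' - p g'‖ ≤ ‖w' - p h‖) → ‖w - p g‖ < r → ‖w' - p g'‖ < r →
      ‖p g - p g'‖ ≤ 2 * ‖w - w'‖ := by
  obtain ⟨K, hK, hb⟩ := normal_bound hp hπ hT
  refine ⟨1 / (4 * (K + 1)), by positivity, fun w w' g g' h1 h2 h3 h4 => ?_⟩
  have b1 := hb w g h1 g'
  have b2 := hb w' g' h2 g
  rw [lt_div_iff₀ (by positivity)] at h3 h4
  rw [norm_sub_rev (p g') (p g)] at b1
  set n := ‖p g - p g'‖ with hn
  have hn0 : 0 ≤ n := norm_nonneg _
  have k1 : K * ‖w - p g‖ ≤ 1 / 4 := by nlinarith [norm_nonneg (w - p g)]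
  have k2 : K * ‖w' - p g'‖ ≤ 1 / 4 := by nlinarith [norm_nonneg (w' - p g')]
  have e : ⟪w - p g, p g' - p g⟫ + ⟪w' - p g', p g - p g'⟫ = n ^ 2 - ⟪w - w', p g - p g'⟫ := by
    rw [hn, ← real_inner_self_eq_norm_sq, ← neg_sub (p g) (p g'), inner_neg_right]
    simp only [inner_sub_left]
    ring
  have c1 : ⟪w - w', p g - p g'⟫ ≤ ‖w - w'‖ * n := real_inner_le_norm _ _
  have c2 : n ^ 2 ≤ 2 * ‖w - w'‖ * n := by nlinarith [sq_nonneg n]
  by_contra hc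
  have : 2 * ‖w - w'‖ < n := lt_of_not_ge hc
  nlinarith [norm_nonneg (w - w')]

end Pool.Agent.P.MP_de432b_gt.LC
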