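import Pool.Agent.P.MP_de432b_gt.LC.B1

namespace Pool.Agent.P.MP_de432b_gt.LC

open MeasureTheory Set Filter Topology
open scoped unitInterval RealInnerProductSpace

namespace SliceAux

variable {m : ℕ}

/-- The weight. -/
noncomputable def wt (t : E m) : ℝ := ((1 + ‖t‖) ^ (m + 3))⁻¹

/-- The dominating function. -/
noncomputable def bd (t : E m) : ℝ := ((1 + ‖t‖) ^ (m + 1))⁻¹

theorem wt_pos (t : E m) : 0 < wt t := by unfold wt; positivity

theorem bd_pos (t : E m) : 0 < bd t := by unfold bd; positivity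

theorem wt_mul (t : E m) : wt t * (1 + ‖t‖) ^ 2 = bd t := by
  unfold wt bd
  have : 0 < 1 + ‖t‖ := by positivity
  field_simp
  ring

theorem continuous_wt : Continuous (wt : E m → ℝ) :=
  Continuous.inv₀ (by fun_prop) fun t => by positivity

theorem continuous_bd : Continuous (bd : E m → ℝ) :=
  Continuous.inv₀ (by fun_prop) fun t => by positivity

theorem memLp_bd : MemLp (bd : E m → ℝ) 2 volume := by
  rw [memLp_two_iff_integrable_sq continuous_bd.aestronglyMeasurable]
  have h := integrable_one_add_norm (E := E m) (μ := volume) (r := ((m + 1 : ℕ) : ℝ)) (by simp)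
  refine h.mono' (continuous_bd.pow 2).aestronglyMeasurable (Eventually.of_forall fun t => ?_)
  have h1 : bd t ≤ 1 := inv_le_one_of_one_le₀ (one_le_pow₀ (by linarith [norm_nonneg t]))
  rw [Real.rpow_neg (by positivity), Real.rpow_natCast, Real.norm_of_nonneg (by positivity)]
  show bd t ^ 2 ≤ bd t
  nlinarith [bd_pos t]

/-- Functions of quadratic growth. -/
def Tame (c : ℝ) (f : E m → ℂ) : Prop :=
  AEStronglyMeasurable f volume ∧ ∀ t, ‖f t‖ ≤ c * (1 + ‖t‖) ^ 2

theorem Tame.bound {c : ℝ} {f : E m → ℂ} (h : Tame c f) (t : E m) :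
    ‖wt t • f t‖ ≤ c * ‖bd t‖ := by
  rw [norm_smul, Real.norm_of_nonneg (wt_pos t).le, Real.norm_of_nonneg (bd_pos t).le, ← wt_mul]
  nlinarith [h.2 t, wt_pos t]

theorem Tame.memLp {c : ℝ} {f : E m → ℂ} (h : Tame c f) :
    MemLp (fun t => wt t • f t) 2 volume :=
  memLp_bd.of_le_mul (continuous_wt.aestronglyMeasurable.smul h.1) (Eventually.of_forall h.bound)

/-- The Hilbert space. -/
abbrev W (m : ℕ) : Type := Lp ℂ 2 (volume : Measure (E m))

open Classical in
/-- The weighted class of a function. -/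
noncomputable def TL (f : E m → ℂ) : W m :=
  if h : MemLp (fun t => wt t • f t) 2 volume then h.toLp _ else 0

theorem Tame.coe {c : ℝ} {f : E m → ℂ} (h : Tame c f) : TL f =ᵐ[volume] fun t => wt t • f t := by
  rw [TL, dif_pos h.memLp]
  exact h.memLp.coeFn_toLp

/-- The norm of the dominating function. -/
noncomputable def MM (m : ℕ) : ℝ := ‖(memLp_bd (m := m)).toLp _‖

theorem MM_nonneg : 0 ≤ MM m := norm_nonneg _

theorem norm_le_of_ae {c : ℝ} {f : E m → ℂ} (h : ∀ t, ‖f t‖ ≤ c * (1 + ‖t‖) ^ 2) {w : W m}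
    (e : w =ᵐ[volume] fun t => wt t • f t) : ‖w‖ ≤ c * MM m := by
  refine Lp.norm_le_mul_norm_of_ae_le_mul ?_
  filter_upwards [e, (memLp_bd (m := m)).coeFn_toLp] with t h1 h2
  rw [h1, h2, norm_smul, Real.norm_of_nonneg (wt_pos t).le, Real.norm_of_nonneg (bd_pos t).le,
    ← wt_mul]
  nlinarith [h t, wt_pos t]

theorem TL_comb {c c' c'' : ℝ} {f g k : E m → ℂ} (hf : Tame c f) (hg : Tame c' g) (hk : Tame c'' k)
    {a b : ℝ} (e : ∀ t, k t = a • f t + b • g t) : TL k = a • TL f + b • TL g := by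
  refine Lp.ext ?_
  filter_upwards [hf.coe, hg.coe, hk.coe, Lp.coeFn_add (a • TL f) (b • TL g),
    Lp.coeFn_smul a (TL f), Lp.coeFn_smul b (TL g)] with t h1 h2 h3 h4 h5 h6
  rw [h3, h4, Pi.add_apply, h5, h6, Pi.smul_apply, Pi.smul_apply, h1, h2, e, smul_add,
    smul_comm (wt t) a, smul_comm (wt t) b]

theorem TL_inj {c c' : ℝ} {f g : E m → ℂ} (hf : Tame c f) (hg : Tame c' g) (cf : Continuous f)
    (cg : Continuous g) (e : TL f = TL g) : f = g := by
  refine (cf.ae_eq_iff_eq volume cg).mp ?_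
  filter_upwards [hf.coe, hg.coe] with t h1 h2
  rw [e, h2] at h1
  exact (smul_right_injective ℂ (wt_pos t).ne' h1).symm

theorem mp_U (g : U m) : MeasurePreserving (g : E m →L[ℝ] E m) volume volume :=
  (Unitary.linearIsometryEquiv g).measurePreserving

/-- The representation. -/
noncomputable def rep (g : U m) : W m →ₗᵢ[ℝ] W m :=
  Lp.compMeasurePreservingₗᵢ ℝ ((g⁻¹ : U m) : E m →L[ℝ] E m) (mp_U g⁻¹)

theorem rep_TL {c c' : ℝ} {f k : E m → ℂ} (hf : Tame c f) (hk : Tame c' k) (g : U m)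
    (e : ∀ t, k t = f (((g⁻¹ : U m) : E m →L[ℝ] E m) t)) : rep g (TL f) = TL k := by
  refine Lp.ext ?_
  filter_upwards [Lp.coeFn_compMeasurePreserving (TL f) (mp_U g⁻¹),
    (mp_U g⁻¹).quasiMeasurePreserving.ae hf.coe, hk.coe] with t h1 h2 h3
  rw [h3, e]
  refine h1.trans (h2.trans ?_)
  simp only [wt, U.norm_app]

theorem one_le_sq (t : E m) : 1 ≤ (1 + ‖t‖) ^ 2 := by nlinarith [norm_nonneg t]

theorem tame_char (lam : Measure (E m)) [IsProbabilityMeasure lam] : Tame 1 (charFun lam) :=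
  ⟨continuous_charFun.aestronglyMeasurable, fun t =>
    (norm_charFun_le_one t).trans (by linarith [one_le_sq t])⟩

/-- The embedding of laws. -/
noncomputable def emb (lam : Measure (E m)) : W m := TL (charFun lam)

instance (lam : Measure (E m)) [IsProbabilityMeasure lam] (g : U m) :
    IsProbabilityMeasure (lam.map (g : E m →L[ℝ] E m)) :=
  Measure.isProbabilityMeasure_map (g : E m →L[ℝ] E m).continuous.measurable.aemeasurable

theorem charFun_map' {Ω : Type} [MeasurableSpace Ω] (P : Measure Ω) {X : Ω → E m}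
    (hX : Measurable X) (t : E m) :
    charFun (P.map X) t = ∫ p, Complex.exp (⟪X p, t⟫ * Complex.I) ∂P := by
  rw [charFun_apply, integral_map hX.aemeasurable (Continuous.aestronglyMeasurable (by fun_prop))]

theorem rep_emb (lam : Measure (E m)) [IsProbabilityMeasure lam] (g : U m) :
    rep g (emb lam) = emb (lam.map (g : E m →L[ℝ] E m)) := by
  refine rep_TL (tame_char _) (tame_char _) g fun t => ?_
  rw [charFun_map' _ (g : E m →L[ℝ] E m).continuous.measurable, charFun_apply]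
  refine integral_congr_ae (Eventually.of_forall fun x => ?_)
  have : ⟪x, ((g⁻¹ : U m) : E m →L[ℝ] E m) t⟫ = ⟪(g : E m →L[ℝ] E m) x, t⟫ :=
    ContinuousLinearMap.adjoint_inner_right (g : E m →L[ℝ] E m) x t
  simp only [this]

theorem map_map_U (lam : Measure (E m)) (g h : U m) :
    (lam.map (h : E m →L[ℝ] E m)).map (g : E m →L[ℝ] E m) =
      lam.map ((g * h : U m) : E m →L[ℝ] E m) :=
  Measure.map_map (g : E m →L[ℝ] E m).continuous.measurable
    (h : E m →L[ℝ] E m).continuous.measurable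

theorem map_one_U (lam : Measure (E m)) : lam.map ((1 : U m) : E m →L[ℝ] E m) = lam :=
  Measure.map_id

theorem emb_inj {lam lam' : Measure (E m)} [IsProbabilityMeasure lam] [IsProbabilityMeasure lam']
    (h : emb lam = emb lam') : lam = lam' :=
  Measure.ext_of_charFun
    (TL_inj (tame_char _) (tame_char _) continuous_charFun continuous_charFun h)

/-- The circle map. -/
noncomputable def ci (a : ℝ) : ℂ := Complex.exp (a * Complex.I)

theorem norm_ci (a : ℝ) : ‖ci a‖ = 1 := Complex.norm_exp_ofReal_mul_I a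

theorem continuous_ci : Continuous ci := by unfold ci; fun_prop

theorem ci_add (a b : ℝ) : ci (a + b) = ci a * ci b := by
  simp only [ci, Complex.ofReal_add, add_mul, Complex.exp_add]

theorem ci_sub_one (b : ℝ) : ‖ci b - 1‖ ≤ |b| := by
  rw [ci, mul_comm]
  exact Real.norm_exp_I_mul_ofReal_sub_one_le

theorem ci_lip (a b : ℝ) : ‖ci a - ci b‖ ≤ |a - b| := by
  have e : ci a - ci b = ci b * (ci (a - b) - 1) := by
    rw [mul_sub, ← ci_add, add_sub_cancel, mul_one]
  rw [e, norm_mul, norm_ci, one_mul]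
  exact ci_sub_one _

theorem ci_taylor (a b : ℝ) : ‖ci (a + b) - ci a - b • (Complex.I * ci a)‖ ≤ 2 * b ^ 2 := by
  have e : ci (a + b) - ci a - b • (Complex.I * ci a) = ci a * (ci b - 1 - b * Complex.I) := by
    rw [ci_add, Complex.real_smul]
    ring
  have n : ‖(b : ℂ) * Complex.I‖ = |b| := by simp
  rw [e, norm_mul, norm_ci, one_mul]
  by_cases hb : |b| ≤ 1
  · have := Complex.norm_exp_sub_one_sub_id_le (x := b * Complex.I) (n ▸ hb)
    rw [n, sq_abs] at this
    exact this.trans (by nlinarith [sq_nonneg b])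
  · have h1 := norm_sub_le (ci b - 1) (b * Complex.I)
    rw [n] at h1
    have h2 := ci_sub_one b
    rw [← sq_abs]
    nlinarith

section ints
variable {Ω : Type} [MeasurableSpace Ω] {P : Measure Ω}

theorem integrable_ci [IsFiniteMeasure P] {X : Ω → E m} (hX : Measurable X) (t : E m) :
    Integrable (fun p => ci ⟪X p, t⟫) P :=
  Integrable.of_bound
    (continuous_ci.measurable.comp (hX.inner measurable_const)).aestronglyMeasurable 1
    (Eventually.of_forall fun _ => (norm_ci _).le)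

theorem emb_lip [IsProbabilityMeasure P] {X Y : Ω → E m} (hX : Measurable X) (hY : Measurable Y)
    (hi : Integrable (fun p => ‖X p - Y p‖) P) :
    ‖emb (P.map X) - emb (P.map Y)‖ ≤ (∫ p, ‖X p - Y p‖ ∂P) * MM m := by
  have := Measure.isProbabilityMeasure_map (μ := P) hX.aemeasurable
  have := Measure.isProbabilityMeasure_map (μ := P) hY.aemeasurable
  refine norm_le_of_ae (f := fun t => charFun (P.map X) t - charFun (P.map Y) t) (fun t => ?_) ?_
  · rw [charFun_map' _ hX, charFun_map' _ hY]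
    show ‖∫ p, ci ⟪X p, t⟫ ∂P - ∫ p, ci ⟪Y p, t⟫ ∂P‖ ≤ _
    rw [← integral_sub (integrable_ci hX t) (integrable_ci hY t), ← integral_mul_const]
    refine norm_integral_le_of_norm_le (hi.mul_const _) (Eventually.of_forall fun p => ?_)
    refine (ci_lip _ _).trans ?_
    rw [← inner_sub_left]
    refine (abs_real_inner_le_norm _ _).trans (mul_le_mul_of_nonneg_left ?_ (norm_nonneg _))
    nlinarith [norm_nonneg t]
  · filter_upwards [Lp.coeFn_sub (emb (P.map X)) (emb (P.map Y)), (tame_char (P.map X)).coe,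
      (tame_char (P.map Y)).coe] with t h1 h2 h3
    rw [h1, Pi.sub_apply, smul_sub, ← h2, ← h3]
    rfl

end ints

theorem emb_mix (lam lam' : Measure (E m)) [IsProbabilityMeasure lam] [IsProbabilityMeasure lam']
    (u : I) : emb (mixM u lam lam') = (1 - u : ℝ) • emb lam + (u : ℝ) • emb lam' := by
  refine TL_comb (tame_char _) (tame_char _) (tame_char _) fun t => ?_
  have h1 := integrable_ci (P := lam) measurable_id' t
  have h2 := integrable_ci (P := lam') measurable_id' t
  show ∫ x, ci ⟪x, t⟫ ∂(mixM u lam lam') =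
    (1 - u : ℝ) • ∫ x, ci ⟪x, t⟫ ∂lam + (u : ℝ) • ∫ x, ci ⟪x, t⟫ ∂lam'
  rw [mixM, integral_add_measure (h1.smul_measure ENNReal.ofReal_ne_top)
    (h2.smul_measure ENNReal.ofReal_ne_top), integral_smul_measure, integral_smul_measure,
    ENNReal.toReal_ofReal (sub_nonneg.mpr u.2.2), ENNReal.toReal_ofReal u.2.1]

section taylor
variable {lam : Measure (E m)} [IsProbabilityMeasure lam] {B : ℝ}

/-- The derivative of the characteristic function along a linear vector field. -/
noncomputable def dch (lam : Measure (E m)) (A : E m →L[ℝ] E m) (t : E m) : ℂ :=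
  ∫ x, ⟪A x, t⟫ • (Complex.I * ci ⟪x, t⟫) ∂lam

theorem inner_bd {x : E m} (hx : ‖x‖ ≤ B) (A : E m →L[ℝ] E m) (t : E m) :
    |⟪A x, t⟫| ≤ ‖A‖ * B * ‖t‖ :=
  (abs_real_inner_le_norm _ _).trans (mul_le_mul_of_nonneg_right ((A.le_opNorm x).trans
    (mul_le_mul_of_nonneg_left hx (norm_nonneg _))) (norm_nonneg _))

theorem norm_dterm (b a : ℝ) : ‖b • (Complex.I * ci a)‖ = |b| := by
  rw [norm_smul, norm_mul, norm_ci, Complex.norm_I, mul_one, mul_one, Real.norm_eq_abs]

theorem continuous_dterm (A : E m →L[ℝ] E m) :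
    Continuous fun z : E m × E m => ⟪A z.2, z.1⟫ • (Complex.I * ci ⟪z.2, z.1⟫) := by
  have := continuous_ci
  fun_prop

theorem integrable_dterm (hb : ∀ᵐ x ∂lam, ‖x‖ ≤ B) (A : E m →L[ℝ] E m) (t : E m) :
    Integrable (fun x => ⟪A x, t⟫ • (Complex.I * ci ⟪x, t⟫)) lam :=
  Integrable.of_bound
    ((continuous_dterm A).comp (Continuous.prodMk_right t)).aestronglyMeasurable (‖A‖ * B * ‖t‖)
    (hb.mono fun _ hx => (norm_dterm _ _).trans_le (inner_bd hx A t))

theorem tame_dch (hB : 0 ≤ B) (hb : ∀ᵐ x ∂lam, ‖x‖ ≤ B) (A : E m →L[ℝ] E m) :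
    Tame (‖A‖ * B) (dch lam A) := by
  refine ⟨(StronglyMeasurable.integral_prod_right' (ν := lam)
    (continuous_dterm A).stronglyMeasurable).aestronglyMeasurable, fun t => ?_⟩
  have h := norm_integral_le_of_norm_le_const (μ := lam) (C := ‖A‖ * B * ‖t‖)
    (f := fun x => ⟪A x, t⟫ • (Complex.I * ci ⟪x, t⟫))
    (hb.mono fun _ hx => (norm_dterm _ _).trans_le (inner_bd hx A t))
  rw [probReal_univ, mul_one] at h
  exact h.trans (mul_le_mul_of_nonneg_left (by nlinarith [norm_nonneg t]) (by positivity))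

theorem dch_comb (hb : ∀ᵐ x ∂lam, ‖x‖ ≤ B) (a : ℝ) (A A' : E m →L[ℝ] E m) (t : E m) :
    dch lam (a • A + A') t = a • dch lam A t + (1 : ℝ) • dch lam A' t := by
  have h1 : Integrable (fun x => a • ⟪A x, t⟫ • (Complex.I * ci ⟪x, t⟫)) lam :=
    (integrable_dterm hb A t).smul a
  rw [one_smul, dch, dch, dch, ← integral_smul, ← integral_add h1 (integrable_dterm hb A' t)]
  refine integral_congr_ae (Eventually.of_forall fun x => ?_)
  simp only [add_apply, smul_apply, inner_add_left,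
    real_inner_smul_left, add_smul, mul_smul]

theorem exists_taylor (hB : 0 ≤ B) (hb : ∀ᵐ x ∂lam, ‖x‖ ≤ B) :
    ∃ (Dl : (E m →L[ℝ] E m) →L[ℝ] W m) (C : ℝ), ∀ g : U m,
      ‖emb (lam.map (g : E m →L[ℝ] E m)) - emb lam - Dl ((g : E m →L[ℝ] E m) - 1)‖ ≤
        C * ‖(g : E m →L[ℝ] E m) - 1‖ ^ 2 := by
  have key : ∀ (a : ℝ) (A A' : E m →L[ℝ] E m),
      TL (dch lam (a • A + A')) = a • TL (dch lam A) + TL (dch lam A') := fun a A A' => by
    rw [TL_comb (tame_dch hB hb A) (tame_dch hB hb A') (tame_dch hB hb _) (dch_comb hb a A A'),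
      one_smul]
  have k0 : TL (dch lam 0) = 0 := by
    have := key 1 0 0
    rw [one_smul, one_smul, add_zero] at this
    exact left_eq_add.mp this
  let D0 : (E m →L[ℝ] E m) →ₗ[ℝ] W m :=
    { toFun := fun A => TL (dch lam A)
      map_add' := fun A A' => by simpa using key 1 A A'
      map_smul' := fun a A => by simpa [k0] using key a A 0 }
  refine ⟨LinearMap.toContinuousLinearMap D0, 2 * B ^ 2 * MM m, fun g => ?_⟩
  set A : E m →L[ℝ] E m := (g : E m →L[ℝ] E m) - 1 with hA
  have hg := (g : E m →L[ℝ] E m).continuous.measurable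
  have h := norm_le_of_ae (c := 2 * (‖A‖ * B) ^ 2)
    (f := fun t => charFun (lam.map (g : E m →L[ℝ] E m)) t - charFun lam t - dch lam A t)
    (w := emb (lam.map (g : E m →L[ℝ] E m)) - emb lam - TL (dch lam A)) (fun t => ?_) ?_
  · exact h.trans_eq (by ring)
  · rw [charFun_map' _ hg]
    show ‖∫ x, ci ⟪(g : E m →L[ℝ] E m) x, t⟫ ∂lam - ∫ x, ci ⟪x, t⟫ ∂lam - dch lam A t‖ ≤ _
    have i1 := integrable_ci (P := lam) hg t
    have i2 := integrable_ci (P := lam) measurable_id' t
    have i3 : Integrable (fun x => ci ⟪(g : E m →L[ℝ] E m) x, t⟫ - ci ⟪x, t⟫) lam := i1.sub i2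
    rw [dch, ← integral_sub i1 i2, ← integral_sub i3 (integrable_dterm hb A t)]
    have h := norm_integral_le_of_norm_le_const (μ := lam) (C := 2 * (‖A‖ * B * ‖t‖) ^ 2)
      (f := fun x => ci ⟪(g : E m →L[ℝ] E m) x, t⟫ - ci ⟪x, t⟫ -
        ⟪A x, t⟫ • (Complex.I * ci ⟪x, t⟫)) (hb.mono fun x hx => by
          have e : ⟪(g : E m →L[ℝ] E m) x, t⟫ = ⟪x, t⟫ + ⟪A x, t⟫ := by
            rw [hA, ← inner_add_left]
            simp
          rw [e]
          refine (ci_taylor _ _).trans ?_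
          rw [← sq_abs]
          exact mul_le_mul_of_nonneg_left
            (pow_le_pow_left₀ (abs_nonneg _) (inner_bd hx A t) 2) zero_le_two)
    rw [probReal_univ, mul_one] at h
    refine h.trans ?_
    rw [mul_pow, ← mul_assoc]
    exact mul_le_mul_of_nonneg_left (by nlinarith [norm_nonneg t]) (by positivity)
  · filter_upwards [Lp.coeFn_sub (emb (lam.map (g : E m →L[ℝ] E m)) - emb lam) (TL (dch lam A)),
      Lp.coeFn_sub (emb (lam.map (g : E m →L[ℝ] E m))) (emb lam),
      (tame_char (lam.map (g : E m →L[ℝ] E m))).coe, (tame_char lam).coe,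
      (tame_dch hB hb A).coe] with t h1 h2 h3 h4 h5
    rw [h1, Pi.sub_apply, h2, Pi.sub_apply, smul_sub, smul_sub, ← h3, ← h4, ← h5]
    rfl

end taylor

end SliceAux

open SliceAux in
theorem exists_slice {m : ℕ} (Γ : Geo m)
    (hG : ∀ h : U m, Γ.lam.map (h : E m →L[ℝ] E m) = Γ.lam → h ∈ Γ.G) : Nonempty (Slice Γ) := by
  let p : U m → W m := fun h => emb (Γ.lam.map (h : E m →L[ℝ] E m))
  have p1 : p 1 = emb Γ.lam := congrArg emb (map_one_U _)
  have hπ : ∀ g h, rep g (p h) = p (g * h) := fun g h => by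
    simp only [p, rep_emb, map_map_U]
  have mU : ∀ g : U m, Measurable (g : E m →L[ℝ] E m) := fun g =>
    (g : E m →L[ℝ] E m).continuous.measurable
  have hp : Continuous p := by
    refine (LipschitzWith.of_dist_le' (K := Γ.B * MM m) fun g h => ?_).continuous
    have hb : ∀ᵐ x ∂Γ.lam, ‖‖(g : E m →L[ℝ] E m) x - (h : E m →L[ℝ] E m) x‖‖ ≤
        ‖(g : E m →L[ℝ] E m) - h‖ * Γ.B := Γ.lam_bd.mono fun x hx => by
      rw [norm_norm]
      exact (((g : E m →L[ℝ] E m) - h).le_opNorm x).trans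
        (mul_le_mul_of_nonneg_left hx (norm_nonneg _))
    have h1 := emb_lip (P := Γ.lam) (mU g) (mU h)
      (Integrable.of_bound ((mU g).sub (mU h)).norm.aestronglyMeasurable _ hb)
    have h2 := (le_abs_self _).trans (norm_integral_le_of_norm_le_const hb)
    rw [probReal_univ, mul_one] at h2
    rw [Subtype.dist_eq, dist_eq_norm, dist_eq_norm]
    exact h1.trans ((mul_le_mul_of_nonneg_right h2 MM_nonneg).trans_eq (by ring))
  obtain ⟨Dl, C, hT⟩ := exists_taylor Γ.hB Γ.lam_bd
  obtain ⟨r, hr, hcore⟩ := slice_core rep hp hπ Dl C (fun g => by rw [p1]; exact hT g)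
  choose nr hnr using exists_nearest hp
  have mv : ∀ (g k : U m) (w : W m), ‖rep g w - p (g * k)‖ = ‖w - p k‖ := fun g k w => by
    rw [← hπ, ← map_sub, LinearIsometry.norm_map]
  have cpl : ∀ (π : Measure (E m × E m)) [IsProbabilityMeasure π] (h : U m),
      (∀ᵐ z ∂π, ‖z.1‖ ≤ Γ.B ∧ ‖z.2‖ ≤ Γ.B) →
      ‖emb (π.map Prod.fst) - rep h (emb (π.map Prod.snd))‖ ≤
        MM m * ∫ z, ‖z.1 - (h : E m →L[ℝ] E m) z.2‖ ∂π := by
    intro π _ h hb
    have := Measure.isProbabilityMeasure_map (μ := π) (measurable_snd).aemeasurable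
    have m2 : Measurable fun z : E m × E m => (h : E m →L[ℝ] E m) z.2 := (mU h).comp measurable_snd
    rw [rep_emb, Measure.map_map (mU h) measurable_snd, mul_comm]
    refine emb_lip measurable_fst m2 (Integrable.of_bound
      (measurable_fst.sub m2).norm.aestronglyMeasurable (Γ.B + Γ.B) (hb.mono fun z hz => ?_))
    rw [norm_norm]
    exact (norm_sub_le _ _).trans (add_le_add hz.1 ((U.norm_app h _).trans_le hz.2))
  have alr : ∀ w, (∀ h, ‖w - p 1‖ ≤ ‖w - p h‖) → ‖w - p 1‖ = ‖w - p (nr w)‖ := fun w hw =>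
    le_antisymm (hw _) (hnr w 1)
  refine ⟨{
    rad := fun lam => ‖emb lam - p (nr (emb lam))‖
    Al := fun lam => ∀ h, ‖emb lam - p 1‖ ≤ ‖emb lam - p h‖
    alg := fun lam => (nr (emb lam))⁻¹
    r := r, hr := hr, K := MM m, hK := MM_nonneg
    rad_nonneg := fun _ => norm_nonneg _
    rad_lam := le_antisymm ((hnr _ 1).trans_eq (by rw [p1, sub_self, norm_zero])) (norm_nonneg _)
    rad_lip := fun π _ h hb => le_trans ?_ (cpl π h hb)
    al_lam := fun h => by rw [p1, sub_self, norm_zero]; exact norm_nonneg _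
    al_alg := fun lam _ h => ?_
    al_mix := fun lam _ hal u => ?_
    uniq := fun δ hδ => ?_ }⟩
  · set w1 := emb (π.map Prod.fst)
    set w2 := emb (π.map Prod.snd)
    refine abs_sub_le_iff.mpr ⟨?_, ?_⟩
    · have h1 := hnr w1 (h * nr w2)
      have h2 := norm_sub_le_norm_sub_add_norm_sub w1 (rep h w2) (p (h * nr w2))
      rw [mv] at h2
      linarith
    · have h1 := hnr w2 (h⁻¹ * nr w1)
      have h2 := norm_sub_le_norm_sub_add_norm_sub (rep h w2) w1 (p (nr w1))
      rw [← mv h (h⁻¹ * nr w1), mul_inv_cancel_left] at h1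
      rw [norm_sub_rev (rep h w2) w1] at h2
      linarith
  · have e1 := mv (nr (emb lam))⁻¹ (nr (emb lam)) (emb lam)
    have e2 := mv (nr (emb lam))⁻¹ (nr (emb lam) * h) (emb lam)
    rw [inv_mul_cancel] at e1
    rw [inv_mul_cancel_left] at e2
    rw [← rep_emb, e1, e2]
    exact hnr _ _
  · have e1 : emb (mixM u lam Γ.lam) - p 1 = (1 - u : ℝ) • (emb lam - p 1) := by
      rw [emb_mix, p1]
      module
    have e2 : emb lam - emb (mixM u lam Γ.lam) = (u : ℝ) • (emb lam - p 1) := by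
      rw [emb_mix, p1]
      module
    have n1 : ‖emb (mixM u lam Γ.lam) - p 1‖ = (1 - u) * ‖emb lam - p 1‖ := by
      rw [e1, norm_smul, Real.norm_of_nonneg (sub_nonneg.mpr u.2.2)]
    have n2 : ‖emb lam - emb (mixM u lam Γ.lam)‖ = u * ‖emb lam - p 1‖ := by
      rw [e2, norm_smul, Real.norm_of_nonneg u.2.1]
    refine ⟨fun h => ?_, (hnr _ 1).trans ?_⟩
    · have h1 := norm_sub_le_norm_sub_add_norm_sub (emb lam) (emb (mixM u lam Γ.lam)) (p h)
      have h2 := hal h
      linarith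
    · rw [n1, ← alr _ hal]
      nlinarith [norm_nonneg (emb lam - p 1), u.2.1]
  · obtain ⟨η, hη, hs⟩ := stab_close hp hδ
    have hM := MM_nonneg (m := m)
    refine ⟨η / (2 * (MM m + 1)), by positivity, fun π _ h hb a1 a2 r1 r2 hi => ?_⟩
    have h1 := (cpl π h hb).trans (mul_le_mul_of_nonneg_left hi hM)
    have h2 : ‖rep h (emb (π.map Prod.snd)) - p h‖ = ‖emb (π.map Prod.snd) - p 1‖ := by
      rw [← mv h 1, mul_one]
    have h3 := hcore _ (rep h (emb (π.map Prod.snd))) 1 h a1 (fun k => by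
      rw [h2, ← mul_inv_cancel_left h k, mv]
      exact a2 _) ((alr _ a1).trans_lt r1) (h2.trans_lt ((alr _ a2).trans_lt r2))
    have h4 : 2 * (MM m * (η / (2 * (MM m + 1)))) ≤ η := by
      rw [← mul_div_assoc, ← mul_div_assoc, div_le_iff₀ (by positivity)]
      nlinarith
    obtain ⟨l, hl, hl2⟩ := hs h (by rw [norm_sub_rev]; linarith)
    exact ⟨l, hG l (emb_inj (hl.trans p1)), hl2⟩

end Pool.Agent.P.MP_de432b_gt.LC
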