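import Pool.Agent.P.MP_de432b_gt.LC.A2

namespace Pool.Agent.P.MP_de432b_gt.LC

open MeasureTheory Set Filter Topology
open scoped unitInterval RealInnerProductSpace

variable {H K : Type} [NormedAddCommGroup H] [InnerProductSpace ℝ H] [CompleteSpace H]
  [NormedAddCommGroup K] [InnerProductSpace ℝ K] [CompleteSpace K]

theorem B3_adj_apply (u : H →ₗᵢ[ℝ] K) (x : H) :
    ContinuousLinearMap.adjoint u.toContinuousLinearMap (u x) = x := by
  refine ext_inner_right ℝ fun y => ?_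
  rw [ContinuousLinearMap.adjoint_inner_left]
  exact u.inner_map_map x y

theorem adj_comp_iso (u : H →ₗᵢ[ℝ] K) :
    ContinuousLinearMap.adjoint u.toContinuousLinearMap ∘L u.toContinuousLinearMap = 1 := by
  ext x
  exact B3_adj_apply u x

theorem B3_conj_apply (u : H →ₗᵢ[ℝ] K) (T : H →L[ℝ] H) (y : K) :
    conj u T y = u (T (ContinuousLinearMap.adjoint u.toContinuousLinearMap y)) := rfl

theorem conj_comp_iso (u : H →ₗᵢ[ℝ] K) (T : H →L[ℝ] H) :
    conj u T ∘L u.toContinuousLinearMap = u.toContinuousLinearMap ∘L T := by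
  ext x
  change conj u T (u x) = u (T x)
  rw [B3_conj_apply, B3_adj_apply]

theorem conj_mul (u : H →ₗᵢ[ℝ] K) (S T : H →L[ℝ] H) : conj u (S * T) = conj u S * conj u T := by
  ext y
  change conj u (S * T) y = conj u S (conj u T y)
  rw [B3_conj_apply, B3_conj_apply, B3_conj_apply, B3_adj_apply]
  rfl

theorem conj_add (u : H →ₗᵢ[ℝ] K) (S T : H →L[ℝ] H) : conj u (S + T) = conj u S + conj u T := by
  ext y
  simp [B3_conj_apply]

theorem conj_sub (u : H →ₗᵢ[ℝ] K) (S T : H →L[ℝ] H) : conj u (S - T) = conj u S - conj u T := by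
  ext y
  simp [B3_conj_apply]

theorem conj_smul (u : H →ₗᵢ[ℝ] K) (a : ℝ) (T : H →L[ℝ] H) : conj u (a • T) = a • conj u T := by
  ext y
  simp [B3_conj_apply]

theorem conj_adjoint (u : H →ₗᵢ[ℝ] K) (T : H →L[ℝ] H) :
    conj u (ContinuousLinearMap.adjoint T) = ContinuousLinearMap.adjoint (conj u T) := by
  unfold conj
  rw [ContinuousLinearMap.adjoint_comp, ContinuousLinearMap.adjoint_comp,
    ContinuousLinearMap.adjoint_adjoint, ContinuousLinearMap.comp_assoc]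

theorem B3_norm_adj_le (u : H →ₗᵢ[ℝ] K) (y : K) :
    ‖ContinuousLinearMap.adjoint u.toContinuousLinearMap y‖ ≤ ‖y‖ := by
  have h1 : ‖ContinuousLinearMap.adjoint u.toContinuousLinearMap‖ ≤ 1 := by
    rw [LinearIsometryEquiv.norm_map]
    exact u.norm_toContinuousLinearMap_le
  calc _ ≤ ‖ContinuousLinearMap.adjoint u.toContinuousLinearMap‖ * ‖y‖ :=
        ContinuousLinearMap.le_opNorm _ _
    _ ≤ 1 * ‖y‖ := mul_le_mul_of_nonneg_right h1 (norm_nonneg _)
    _ = ‖y‖ := one_mul _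

theorem norm_conj (u : H →ₗᵢ[ℝ] K) (T : H →L[ℝ] H) : ‖conj u T‖ = ‖T‖ := by
  refine le_antisymm ?_ ?_
  · refine ContinuousLinearMap.opNorm_le_bound _ (norm_nonneg _) fun y => ?_
    rw [B3_conj_apply, u.norm_map]
    exact (T.le_opNorm _).trans
      (mul_le_mul_of_nonneg_left (B3_norm_adj_le u y) (norm_nonneg _))
  · refine ContinuousLinearMap.opNorm_le_bound _ (norm_nonneg _) fun x => ?_
    have h := (conj u T).le_opNorm (u x)
    rwa [B3_conj_apply, B3_adj_apply, u.norm_map, u.norm_map] at h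

theorem conj_rankOne (u : H →ₗᵢ[ℝ] K) (x y : H) :
    conj u (InnerProductSpace.rankOne ℝ x y) = InnerProductSpace.rankOne ℝ (u x) (u y) := by
  ext z
  rw [B3_conj_apply, InnerProductSpace.rankOne_apply, InnerProductSpace.rankOne_apply, map_smul,
    ContinuousLinearMap.adjoint_inner_right]
  rfl

theorem B3_conj_pow (u : H →ₗᵢ[ℝ] K) (T : H →L[ℝ] H) (n : ℕ) :
    conj u (T ^ (n + 1)) = conj u T ^ (n + 1) := by
  induction n with
  | zero => simp
  | succ n ih => rw [pow_succ, conj_mul, ih, ← pow_succ]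

theorem B3_conj_zero (u : H →ₗᵢ[ℝ] K) : conj u (0 : H →L[ℝ] H) = 0 := by
  ext y
  simp [B3_conj_apply]

theorem B3_conj_sum (u : H →ₗᵢ[ℝ] K) (s : Finset ℕ) (f : ℕ → H →L[ℝ] H) :
    conj u (∑ i ∈ s, f i) = ∑ i ∈ s, conj u (f i) := by
  classical
  induction s using Finset.induction_on with
  | empty => simpa using B3_conj_zero u
  | insert a s ha ih => rw [Finset.sum_insert ha, Finset.sum_insert ha, conj_add, ih]

theorem conj_aeval (u : H →ₗᵢ[ℝ] K) (T : H →L[ℝ] H) {φ : Polynomial ℝ} (hφ : φ.coeff 0 = 0) :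
    conj u (Polynomial.aeval T φ) = Polynomial.aeval (conj u T) φ := by
  rw [Polynomial.aeval_eq_sum_range, Polynomial.aeval_eq_sum_range, B3_conj_sum]
  refine Finset.sum_congr rfl fun i _ => ?_
  rw [conj_smul]
  cases i with
  | zero => rw [hφ, zero_smul, zero_smul]
  | succ n => rw [B3_conj_pow]

theorem B3_norm_pow_le {M : ℝ} (S : K →L[ℝ] K) (hS : ‖S‖ ≤ M) (n : ℕ) : ‖S ^ n‖ ≤ M ^ n := by
  induction n with
  | zero =>
    rw [pow_zero, pow_zero]
    exact ContinuousLinearMap.norm_id_le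
  | succ n ih =>
    rw [pow_succ, pow_succ]
    exact (norm_mul_le _ _).trans
      (mul_le_mul ih hS (norm_nonneg _) ((norm_nonneg _).trans ih))

theorem B3_pow_sub {M : ℝ} (hM : 1 ≤ M) (S T : K →L[ℝ] K) (hS : ‖S‖ ≤ M) (hT : ‖T‖ ≤ M)
    (n : ℕ) : ‖S ^ n - T ^ n‖ ≤ n * M ^ n * ‖S - T‖ := by
  induction n with
  | zero => simp
  | succ n ih =>
    have e : S ^ (n + 1) - T ^ (n + 1) = (S ^ n - T ^ n) * S + T ^ n * (S - T) := by
      rw [pow_succ, pow_succ, sub_mul, mul_sub]; abel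
    have hM0 : 0 ≤ M := zero_le_one.trans hM
    have hp : 0 ≤ M ^ n := pow_nonneg hM0 n
    have hd : 0 ≤ ‖S - T‖ := norm_nonneg _
    have h1 : ‖(S ^ n - T ^ n) * S‖ ≤ n * M ^ n * ‖S - T‖ * M :=
      (norm_mul_le _ _).trans (mul_le_mul ih hS (norm_nonneg _) (by positivity))
    have h2 : ‖T ^ n * (S - T)‖ ≤ M ^ n * M * ‖S - T‖ := by
      refine (norm_mul_le _ _).trans (mul_le_mul_of_nonneg_right ?_ hd)
      exact (B3_norm_pow_le T hT n).trans (le_mul_of_one_le_right hp hM)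
    rw [e]
    refine (norm_add_le _ _).trans ((add_le_add h1 h2).trans (le_of_eq ?_))
    push_cast
    ring

theorem B3_lip (φ : Polynomial ℝ) {M : ℝ} (hM : 1 ≤ M) : ∃ C : ℝ, 0 ≤ C ∧
    ∀ (K : Type) [NormedAddCommGroup K] [InnerProductSpace ℝ K] [CompleteSpace K]
      (S T : K →L[ℝ] K), ‖S‖ ≤ M → ‖T‖ ≤ M →
      ‖Polynomial.aeval S φ - Polynomial.aeval T φ‖ ≤ C * ‖S - T‖ := by
  have hM0 : 0 ≤ M := zero_le_one.trans hM
  refine ⟨∑ i ∈ Finset.range (φ.natDegree + 1), |φ.coeff i| * (i * M ^ i),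
    Finset.sum_nonneg fun i _ => by positivity, fun K _ _ _ S T hS hT => ?_⟩
  rw [Polynomial.aeval_eq_sum_range, Polynomial.aeval_eq_sum_range, ← Finset.sum_sub_distrib,
    Finset.sum_mul]
  refine (norm_sum_le _ _).trans (Finset.sum_le_sum fun i _ => ?_)
  rw [← smul_sub, norm_smul, Real.norm_eq_abs, mul_assoc]
  exact mul_le_mul_of_nonneg_left (B3_pow_sub hM S T hS hT i) (abs_nonneg _)

theorem aeval_uc (φ : Polynomial ℝ) (R : ℝ) {δ : ℝ} (hδ : 0 < δ) : ∃ η : ℝ, 0 < η ∧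
    ∀ (K : Type) [NormedAddCommGroup K] [InnerProductSpace ℝ K] [CompleteSpace K]
      (S T : K →L[ℝ] K), ‖S‖ ≤ R → ‖S - T‖ ≤ η →
      ‖Polynomial.aeval S φ - Polynomial.aeval T φ‖ ≤ δ := by
  obtain ⟨C, hC, h⟩ := B3_lip φ (M := |R| + 1) (by linarith [abs_nonneg R])
  refine ⟨min 1 (δ / (C + 1)), lt_min one_pos (by positivity), fun K _ _ _ S T hS hST => ?_⟩
  have h1 : ‖S - T‖ ≤ 1 := hST.trans (min_le_left _ _)
  have h2 : ‖S - T‖ ≤ δ / (C + 1) := hST.trans (min_le_right _ _)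
  have hR := le_abs_self R
  have hT : ‖T‖ ≤ |R| + 1 := by
    have e : T = S - (S - T) := by abel
    calc ‖T‖ = ‖S - (S - T)‖ := congrArg _ e
      _ ≤ ‖S‖ + ‖S - T‖ := norm_sub_le _ _
      _ ≤ |R| + 1 := by linarith
  refine (h K S T (by linarith) hT).trans ?_
  rw [le_div_iff₀ (by positivity)] at h2
  nlinarith [norm_nonneg (S - T)]

end Pool.Agent.P.MP_de432b_gt.LC
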