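import Pool.Agent.P.MP_de432b_gt.LC.B1
import Pool.Agent.P.MP_de432b_gt.LC.B3

namespace Pool.Agent.P.MP_de432b_gt.LC

open MeasureTheory Set Filter Topology
open scoped unitInterval RealInnerProductSpace

variable {H K : Type} [NormedAddCommGroup H] [InnerProductSpace ℝ H] [CompleteSpace H]
  [NormedAddCommGroup K] [InnerProductSpace ℝ K] [CompleteSpace K] {m : ℕ}

theorem IsFrame.proj {V : E m →L[ℝ] H} {P : H →L[ℝ] H} (h : IsFrame V P) :
    IsSelfAdjoint P ∧ P * P = P ∧ P ∘L V = V ∧ ∀ x, ‖V x‖ = ‖x‖ := by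
  obtain ⟨h1, h2⟩ := h
  have h3 : ∀ x, ContinuousLinearMap.adjoint V (V x) = x := fun x => by
    simpa using congrArg (fun T : E m →L[ℝ] E m => T x) h1
  refine ⟨?_, ?_, ?_, fun x => ?_⟩
  · rw [← h2, ContinuousLinearMap.isSelfAdjoint_iff', ContinuousLinearMap.adjoint_comp,
      ContinuousLinearMap.adjoint_adjoint]
  · rw [← h2]
    ext x
    simp [h3]
  · rw [← h2]
    ext1 x
    simp [h3]
  · have : ‖V x‖ ^ 2 = ‖x‖ ^ 2 := by
      rw [← real_inner_self_eq_norm_sq, ← real_inner_self_eq_norm_sq,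
        ← ContinuousLinearMap.adjoint_inner_right, h3]
    exact (pow_left_inj₀ (norm_nonneg _) (norm_nonneg _) two_ne_zero).mp this

theorem IsFrame.map {V : E m →L[ℝ] H} {P : H →L[ℝ] H} (h : IsFrame V P) (u : H →ₗᵢ[ℝ] K) :
    IsFrame (u.toContinuousLinearMap ∘L V) (conj u P) := by
  obtain ⟨h1, h2⟩ := h
  have h3 : ∀ x, ContinuousLinearMap.adjoint V (V x) = x := fun x => by
    simpa using congrArg (fun T : E m →L[ℝ] E m => T x) h1
  have h4 : ∀ x, ContinuousLinearMap.adjoint u.toContinuousLinearMap (u x) = x := fun x =>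
    congrArg (fun T : H →L[ℝ] H => T x) (adj_comp_iso u)
  refine ⟨?_, ?_⟩
  · rw [ContinuousLinearMap.adjoint_comp]
    ext1 x
    simp [h3, h4]
  · rw [ContinuousLinearMap.adjoint_comp, conj, ← h2]
    rfl

theorem IsFrame.frame {V : E m →L[ℝ] H} {P : H →L[ℝ] H} (h : IsFrame V P) :
    IsFrame (frame m P) P :=
  Classical.epsilon_spec (p := fun V : E m →L[ℝ] H => IsFrame V P) ⟨V, h⟩

omit [CompleteSpace K] in
theorem B4_zero {T : K →L[ℝ] K} (hn : ‖T‖ < 1) {x : K} (h : ‖T x‖ = ‖x‖) : x = 0 := by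
  have h1 := T.le_opNorm x
  rw [h] at h1
  have h2 := norm_nonneg x
  have : ‖x‖ ≤ 0 := by nlinarith
  exact norm_le_zero_iff.mp this

theorem IsFrame.of_near {V : E m →L[ℝ] K} {P : K →L[ℝ] K} (h : IsFrame V P) (u : H →ₗᵢ[ℝ] K)
    {P' : H →L[ℝ] H} (hs : IsSelfAdjoint P') (hp : P' * P' = P') (hn : ‖P - conj u P'‖ < 1) :
    ∃ V' : E m →L[ℝ] H, IsFrame V' P' := by
  obtain ⟨-, -, hPV, hV⟩ := h.proj
  have hfix : ∀ x ∈ LinearMap.range (P' : H →ₗ[ℝ] H), P' x = x := by
    rintro _ ⟨y, rfl⟩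
    simpa using congrArg (fun T : H →L[ℝ] H => T y) hp
  set R := LinearMap.range (P' : H →ₗ[ℝ] H) with hR
  let A : R →ₗ[ℝ] E m :=
    (ContinuousLinearMap.adjoint V : K →ₗ[ℝ] E m) ∘ₗ u.toLinearMap ∘ₗ R.subtype
  have hA : Function.Injective A := by
    rw [injective_iff_map_eq_zero]
    intro x hx
    have h1 : ContinuousLinearMap.adjoint V (u x) = 0 := hx
    have h2 : P (u x) = 0 := by rw [← h.2]; simp [h1]
    have h3 : conj u P' (u x) = u x := by
      have := congrArg (fun T : H →L[ℝ] K => T x) (conj_comp_iso u P')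
      simpa [hfix x x.2] using this
    have h4 : u x = 0 := B4_zero hn (by simp [h2, h3])
    exact Subtype.ext (u.injective (h4.trans (map_zero u).symm))
  let B : E m →ₗ[ℝ] R := LinearMap.rangeRestrict (P' : H →ₗ[ℝ] H) ∘ₗ
    (ContinuousLinearMap.adjoint u.toContinuousLinearMap : K →ₗ[ℝ] H) ∘ₗ (V : E m →ₗ[ℝ] K)
  have hB : Function.Injective B := by
    rw [injective_iff_map_eq_zero]
    intro y hy
    have h1 : P' (ContinuousLinearMap.adjoint u.toContinuousLinearMap (V y)) = 0 :=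
      congrArg Subtype.val hy
    have h2 : conj u P' (V y) = 0 := by simp [conj, h1]
    have h3 : P (V y) = V y := congrArg (fun T : E m →L[ℝ] K => T y) hPV
    have h4 : V y = 0 := B4_zero hn (by simp [h2, h3])
    have h5 := hV y
    rw [h4, norm_zero] at h5
    exact norm_eq_zero.mp h5.symm
  have : FiniteDimensional ℝ R := Module.Finite.of_injective A hA
  have hd : Module.finrank ℝ R = m := by
    have h1 := LinearMap.finrank_le_finrank_of_injective hA
    have h2 := LinearMap.finrank_le_finrank_of_injective hB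
    simp only [finrank_euclideanSpace, Fintype.card_fin] at h1 h2
    omega
  let e : E m ≃ₗᵢ[ℝ] R := ((stdOrthonormalBasis ℝ R).reindex (finCongr hd)).repr.symm
  let j : E m →ₗᵢ[ℝ] H := R.subtypeₗᵢ.comp e.toLinearIsometry
  have hj : ∀ y, j y = (e y : H) := fun _ => rfl
  refine ⟨j.toContinuousLinearMap, adj_comp_iso j, ?_⟩
  ext1 x
  have hx : P' x ∈ R := ⟨x, rfl⟩
  have h1 : j (e.symm ⟨P' x, hx⟩) = P' x := by rw [hj, e.apply_symm_apply]
  have h2 : ContinuousLinearMap.adjoint j.toContinuousLinearMap x = e.symm ⟨P' x, hx⟩ := by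
    refine ext_inner_right ℝ fun y => ?_
    rw [ContinuousLinearMap.adjoint_inner_left, ← j.inner_map_map, h1,
      ← ContinuousLinearMap.adjoint_inner_right, hs.adjoint_eq, hj, hfix _ (e y).2]
    rfl
  rw [ContinuousLinearMap.comp_apply, h2]
  exact h1

theorem frame_uc (m : ℕ) {δ : ℝ} (hδ : 0 < δ) : ∃ η : ℝ, 0 < η ∧
    ∀ (K : Type) [NormedAddCommGroup K] [InnerProductSpace ℝ K] [CompleteSpace K]
      (V V' : E m →L[ℝ] K) (P P' : K →L[ℝ] K), IsFrame V P → IsFrame V' P' → ‖P - P'‖ ≤ η →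
      ∃ h : U m, ‖V ∘L (h : E m →L[ℝ] E m) - V'‖ ≤ δ := by
  obtain ⟨η, hη, hU⟩ := near_unitary m (half_pos hδ)
  refine ⟨min η (δ / 2), lt_min hη (half_pos hδ), fun K _ _ _ V V' P P' h h' hn => ?_⟩
  obtain ⟨-, -, -, hV⟩ := h.proj
  obtain ⟨-, -, hPV', hV'⟩ := h'.proj
  have n1 : ‖V‖ ≤ 1 := V.opNorm_le_bound zero_le_one fun x => by rw [hV, one_mul]
  have n2 : ‖V'‖ ≤ 1 := V'.opNorm_le_bound zero_le_one fun x => by rw [hV', one_mul]
  have n3 : ‖ContinuousLinearMap.adjoint V'‖ ≤ 1 := by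
    rwa [LinearIsometryEquiv.norm_map]
  have n4 : ‖(P - P') ∘L V'‖ ≤ min η (δ / 2) :=
    ((P - P').opNorm_comp_le V').trans ((mul_le_of_le_one_right (norm_nonneg _) n2).trans hn)
  have h3 : ∀ x, ContinuousLinearMap.adjoint V' (V' x) = x := fun x => by
    simpa using congrArg (fun T : E m →L[ℝ] E m => T x) h'.1
  have h4 : ∀ x, P' (V' x) = V' x := fun x => congrArg (fun T : E m →L[ℝ] K => T x) hPV'
  have h5 : ∀ x, P x = V (ContinuousLinearMap.adjoint V x) := fun x => by rw [← h.2]; rfl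
  obtain ⟨g, hg⟩ := hU (ContinuousLinearMap.adjoint V ∘L V') (by
    have : ContinuousLinearMap.adjoint (ContinuousLinearMap.adjoint V ∘L V') ∘L
        (ContinuousLinearMap.adjoint V ∘L V') - 1 =
        ContinuousLinearMap.adjoint V' ∘L ((P - P') ∘L V') := by
      rw [ContinuousLinearMap.adjoint_comp, ContinuousLinearMap.adjoint_adjoint]
      ext1 x
      simp [h3, h4, h5]
    rw [this]
    exact (ContinuousLinearMap.opNorm_comp_le _ _).trans
      ((mul_le_of_le_one_left (norm_nonneg _) n3).trans (n4.trans (min_le_left _ _))))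
  refine ⟨g, ?_⟩
  have : V ∘L (g : E m →L[ℝ] E m) - V' = (P - P') ∘L V' -
      V ∘L (ContinuousLinearMap.adjoint V ∘L V' - (g : E m →L[ℝ] E m)) := by
    ext1 x
    simp [h4, h5]
  rw [this]
  have n5 : ‖V ∘L (ContinuousLinearMap.adjoint V ∘L V' - (g : E m →L[ℝ] E m))‖ ≤ δ / 2 :=
    (ContinuousLinearMap.opNorm_comp_le _ _).trans
      ((mul_le_of_le_one_left (norm_nonneg _) n1).trans hg)
  linarith [norm_sub_le ((P - P') ∘L V')
    (V ∘L (ContinuousLinearMap.adjoint V ∘L V' - (g : E m →L[ℝ] E m))), min_le_right η (δ / 2)]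

end Pool.Agent.P.MP_de432b_gt.LC
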