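import Pool.Agent.P.MP_de432b_gt.LC.A2

namespace Pool.Agent.P.MP_de432b_gt.LC

open MeasureTheory Set Filter Topology
open scoped unitInterval RealInnerProductSpace

variable {H H' K : Type} [NormedAddCommGroup H] [InnerProductSpace ℝ H] [CompleteSpace H]
  [NormedAddCommGroup H'] [InnerProductSpace ℝ H'] [CompleteSpace H']
  [NormedAddCommGroup K] [InnerProductSpace ℝ K] [CompleteSpace K]

omit [InnerProductSpace ℝ H] [CompleteSpace H] in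
theorem B5_le {S : Set (H × ℝ)} {M N : ℝ} (hS : ∀ z ∈ S, ‖z.1‖ ≤ M ∧ |z.2| ≤ N) (c : H)
    {z : H × ℝ} (hz : z ∈ S) : ‖c - z.1‖ ^ 2 + z.2 ≤ radF S c := by
  have hb : BddAbove (range fun z : S => ‖c - z.1.1‖ ^ 2 + z.1.2) := by
    refine ⟨(‖c‖ + M) ^ 2 + N, ?_⟩
    rintro _ ⟨w, rfl⟩
    have h1 := (hS w.1 w.2).1
    have h2 := (abs_le.mp (hS w.1 w.2).2).2
    have h3 : ‖c - w.1.1‖ ≤ ‖c‖ + M := (norm_sub_le _ _).trans (by linarith)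
    have h4 := pow_le_pow_left₀ (norm_nonneg _) h3 2
    simp only
    linarith
  exact le_ciSup hb ⟨z, hz⟩

omit [InnerProductSpace ℝ H] [CompleteSpace H] in
theorem B5_sup {S : Set (H × ℝ)} (hne : S.Nonempty) (c : H) {β : ℝ}
    (h : ∀ z ∈ S, ‖c - z.1‖ ^ 2 + z.2 ≤ β) : radF S c ≤ β := by
  have : Nonempty S := hne.to_subtype
  exact ciSup_le fun z => h z.1 z.2

omit [CompleteSpace H] in
theorem B5_par (c c' p : H) :
    ‖(1 / 2 : ℝ) • (c + c') - p‖ ^ 2 = (‖c - p‖ ^ 2 + ‖c' - p‖ ^ 2) / 2 - ‖c - c'‖ ^ 2 / 4 := by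
  have h1 : (1 / 2 : ℝ) • (c + c') - p = (1 / 2 : ℝ) • ((c - p) + (c' - p)) := by module
  have h2 : c - c' = (c - p) - (c' - p) := by abel
  rw [h1, h2, norm_smul, mul_pow, norm_add_sq_real, norm_sub_sq_real (c - p) (c' - p),
    Real.norm_of_nonneg (by norm_num : (0 : ℝ) ≤ 1 / 2)]
  ring

omit [CompleteSpace H] in
theorem B5_mid {S : Set (H × ℝ)} {M N : ℝ} (hne : S.Nonempty)
    (hS : ∀ z ∈ S, ‖z.1‖ ≤ M ∧ |z.2| ≤ N) (c c' : H) :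
    radF S ((1 / 2 : ℝ) • (c + c')) ≤ (radF S c + radF S c') / 2 - ‖c - c'‖ ^ 2 / 4 := by
  refine B5_sup hne _ fun z hz => ?_
  rw [B5_par]
  linarith [B5_le hS c hz, B5_le hS c' hz]

theorem B5_exists {S : Set (H × ℝ)} {M N : ℝ} (hne : S.Nonempty)
    (hS : ∀ z ∈ S, ‖z.1‖ ≤ M ∧ |z.2| ≤ N) : ∃ c, ∀ c', radF S c ≤ radF S c' := by
  have hb : BddBelow (range (radF S)) := by
    obtain ⟨z, hz⟩ := hne
    refine ⟨-N, ?_⟩
    rintro _ ⟨c, rfl⟩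
    have h1 := B5_le hS c hz
    have h2 := (abs_le.mp (hS z hz).2).1
    nlinarith [sq_nonneg ‖c - z.1‖]
  set m := ⨅ c, radF S c with hm
  have hle : ∀ c, m ≤ radF S c := fun c => ciInf_le hb c
  have hex : ∀ n : ℕ, ∃ c, radF S c < m + (1 / ((n : ℝ) + 1)) ^ 2 := fun n =>
    exists_lt_of_ciInf_lt (lt_add_of_pos_right _ (by positivity))
  choose x hx using hex
  have h0 : Tendsto (fun n : ℕ => 1 / ((n : ℝ) + 1)) atTop (𝓝 0) :=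
    tendsto_one_div_add_atTop_nhds_zero_nat
  have hc : CauchySeq x := by
    refine cauchySeq_of_le_tendsto_0 (fun n : ℕ => 2 * (1 / ((n : ℝ) + 1))) (fun n k N hn hk => ?_)
      (by simpa using h0.const_mul 2)
    have h1 := B5_mid hne hS (x n) (x k)
    have h2 := hle ((1 / 2 : ℝ) • (x n + x k))
    have ha : ∀ j : ℕ, N ≤ j → (1 / ((j : ℝ) + 1)) ^ 2 ≤ (1 / ((N : ℝ) + 1)) ^ 2 := fun j hj =>
      pow_le_pow_left₀ (by positivity) (Nat.one_div_le_one_div hj) 2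
    rw [dist_eq_norm]
    refine (pow_le_pow_iff_left₀ (norm_nonneg _) (by positivity) two_ne_zero).mp ?_
    nlinarith [hx n, hx k, ha n hn, ha k hk]
  obtain ⟨c, hc⟩ := cauchySeq_tendsto_of_complete hc
  refine ⟨c, fun c' => le_trans (B5_sup hne _ fun z hz => ?_) (hle c')⟩
  have h1 : Tendsto (fun n => ‖x n - z.1‖ ^ 2 + z.2) atTop (𝓝 (‖c - z.1‖ ^ 2 + z.2)) :=
    (((hc.sub_const _).norm).pow 2).add_const _
  have h2 : Tendsto (fun n : ℕ => m + (1 / ((n : ℝ) + 1)) ^ 2) atTop (𝓝 (m + 0 ^ 2)) :=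
    (h0.pow 2).const_add m
  have h3 := le_of_tendsto_of_tendsto' h1 h2 fun n => (B5_le hS (x n) hz).trans (hx n).le
  simpa using h3

theorem B5_min {S : Set (H × ℝ)} {M N : ℝ} (hne : S.Nonempty)
    (hS : ∀ z ∈ S, ‖z.1‖ ≤ M ∧ |z.2| ≤ N) (c' : H) : radF S (centre S) ≤ radF S c' :=
  Classical.epsilon_spec (B5_exists hne hS) c'

omit [CompleteSpace H] in
theorem B5_grow {S : Set (H × ℝ)} {M N : ℝ} (hne : S.Nonempty)
    (hS : ∀ z ∈ S, ‖z.1‖ ≤ M ∧ |z.2| ≤ N) {c : H} (hc : ∀ c', radF S c ≤ radF S c') (x : H) :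
    radF S c + ‖c - x‖ ^ 2 / 2 ≤ radF S x := by
  have h1 := B5_mid hne hS c x
  have h2 := hc ((1 / 2 : ℝ) • (c + x))
  linarith

theorem B5_adj (u : H →ₗᵢ[ℝ] K) (y : K) (p : H) :
    ‖ContinuousLinearMap.adjoint u.toContinuousLinearMap y - p‖ ≤ ‖y - u p‖ := by
  set w := ContinuousLinearMap.adjoint u.toContinuousLinearMap y - p with hw
  have h0 : ∀ v : H, ⟪w, v⟫ = ⟪y - u p, u v⟫ := fun v => by
    rw [hw, inner_sub_left, inner_sub_left, u.inner_map_map,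
      ContinuousLinearMap.adjoint_inner_left]
    rfl
  have h1 := h0 w
  have h2 : ‖w‖ * ‖w‖ ≤ ‖y - u p‖ * ‖w‖ := by
    rw [← real_inner_self_eq_norm_mul_norm, h1]
    exact (real_inner_le_norm _ _).trans (by rw [u.norm_map])
  rcases (norm_nonneg w).eq_or_lt with h | h
  · rw [← h]; exact norm_nonneg _
  · exact le_of_mul_le_mul_right h2 h

/-- The image of a weighted set under an isometry. -/
def B5_im (u : H →ₗᵢ[ℝ] K) (S : Set (H × ℝ)) : Set (K × ℝ) := (fun z => (u z.1, z.2)) '' S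

omit [CompleteSpace H] [CompleteSpace K] in
theorem B5_im_bd (u : H →ₗᵢ[ℝ] K) {S : Set (H × ℝ)} {M N : ℝ}
    (hS : ∀ z ∈ S, ‖z.1‖ ≤ M ∧ |z.2| ≤ N) : ∀ z ∈ B5_im u S, ‖z.1‖ ≤ M ∧ |z.2| ≤ N := by
  rintro _ ⟨z, hz, rfl⟩
  simpa using hS z hz

theorem B5_im_min (u : H →ₗᵢ[ℝ] K) {S : Set (H × ℝ)} {M N : ℝ} (hne : S.Nonempty)
    (hS : ∀ z ∈ S, ‖z.1‖ ≤ M ∧ |z.2| ≤ N) (y : K) :
    radF (B5_im u S) (u (centre S)) ≤ radF (B5_im u S) y := by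
  refine B5_sup (hne.image _) _ ?_
  rintro _ ⟨z, hz, rfl⟩
  have h1 := B5_le hS (centre S) hz
  have h2 := B5_min hne hS (ContinuousLinearMap.adjoint u.toContinuousLinearMap y)
  have h3 : radF S (ContinuousLinearMap.adjoint u.toContinuousLinearMap y) ≤
      radF (B5_im u S) y := by
    refine B5_sup hne _ fun w hw => ?_
    have h4 := B5_le (B5_im_bd u hS) y (z := (u w.1, w.2)) ⟨w, hw, rfl⟩
    have h5 := pow_le_pow_left₀ (norm_nonneg _) (B5_adj u y w.1) 2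
    simp only at h4
    linarith
  simp only
  rw [← map_sub, u.norm_map]
  linarith

theorem B5_norm {S : Set (H × ℝ)} {M : ℝ} (hM : 1 ≤ M) (hne : S.Nonempty)
    (hS : ∀ z ∈ S, ‖z.1‖ ≤ M ∧ |z.2| ≤ M ^ 2) : ‖centre S‖ ≤ 3 * M := by
  have h1 : radF S 0 ≤ 2 * M ^ 2 := by
    refine B5_sup hne _ fun z hz => ?_
    have h2 := pow_le_pow_left₀ (norm_nonneg _) (hS z hz).1 2
    have h3 := (abs_le.mp (hS z hz).2).2
    rw [zero_sub, norm_neg]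
    linarith
  obtain ⟨z, hz⟩ := hne
  have h2 := B5_le hS (centre S) hz
  have h3 := B5_min ⟨z, hz⟩ hS 0
  have h4 := (abs_le.mp (hS z hz).2).1
  have h5 : ‖centre S - z.1‖ ≤ 2 * M :=
    (pow_le_pow_iff_left₀ (norm_nonneg _) (by linarith) two_ne_zero).mp
      (by nlinarith [sq_nonneg M])
  have h6 : ‖centre S‖ ≤ ‖centre S - z.1‖ + ‖z.1‖ := by
    simpa using norm_add_le (centre S - z.1) z.1
  linarith [(hS z hz).1]

omit [InnerProductSpace ℝ K] [CompleteSpace K] in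
theorem B5_cmp {T T' : Set (K × ℝ)} {M η : ℝ} (hη : 0 ≤ η) (hne : T.Nonempty)
    (hT : ∀ z ∈ T, ‖z.1‖ ≤ M ∧ |z.2| ≤ M ^ 2) (hT' : ∀ z ∈ T', ‖z.1‖ ≤ M ∧ |z.2| ≤ M ^ 2)
    (h : ∀ z ∈ T, ∃ z' ∈ T', ‖z.1 - z'.1‖ ≤ η ∧ |z.2 - z'.2| ≤ M * η) {y : K} (hy : ‖y‖ ≤ 3 * M) :
    radF T y ≤ radF T' y + 9 * M * η := by
  refine B5_sup hne _ fun z hz => ?_
  obtain ⟨z', hz', h1, h2⟩ := h z hz
  have h3 := B5_le hT' y hz'
  have h4 : ‖y - z.1‖ ≤ 4 * M := (norm_sub_le _ _).trans (by linarith [(hT z hz).1])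
  have h5 : ‖y - z'.1‖ ≤ 4 * M := (norm_sub_le _ _).trans (by linarith [(hT' z' hz').1])
  have h6 : ‖y - z.1‖ - ‖y - z'.1‖ ≤ η := by
    refine (norm_sub_norm_le _ _).trans ?_
    rw [sub_sub_sub_cancel_left, norm_sub_rev]
    exact h1
  have h7 := (abs_le.mp h2).2
  have h8 : (‖y - z.1‖ - ‖y - z'.1‖) * (‖y - z.1‖ + ‖y - z'.1‖) ≤ η * (8 * M) :=
    (mul_le_mul_of_nonneg_right h6 (by positivity)).trans
      (mul_le_mul_of_nonneg_left (by linarith) hη)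
  nlinarith

theorem centre_stab (u : H →ₗᵢ[ℝ] K) (u' : H' →ₗᵢ[ℝ] K) {S : Set (H × ℝ)} {S' : Set (H' × ℝ)}
    {M η : ℝ} (hM : 1 ≤ M) (hη : 0 ≤ η) (hne : S.Nonempty)
    (hS : ∀ z ∈ S, ‖z.1‖ ≤ M ∧ |z.2| ≤ M ^ 2) (hS' : ∀ z ∈ S', ‖z.1‖ ≤ M ∧ |z.2| ≤ M ^ 2)
    (h1 : ∀ z ∈ S, ∃ z' ∈ S', ‖u z.1 - u' z'.1‖ ≤ η ∧ |z.2 - z'.2| ≤ M * η)
    (h2 : ∀ z' ∈ S', ∃ z ∈ S, ‖u z.1 - u' z'.1‖ ≤ η ∧ |z.2 - z'.2| ≤ M * η) :
    ‖u (centre S) - u' (centre S')‖ ^ 2 ≤ 40 * M * η := by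
  have hne' : S'.Nonempty := by
    obtain ⟨z, hz⟩ := hne
    obtain ⟨z', hz', -⟩ := h1 z hz
    exact ⟨z', hz'⟩
  have hT := B5_im_bd u hS
  have hT' := B5_im_bd u' hS'
  have hn : (B5_im u S).Nonempty := hne.image _
  have hn' : (B5_im u' S').Nonempty := hne'.image _
  have g1 := B5_grow hn hT (B5_im_min u hne hS) (u' (centre S'))
  have g2 := B5_grow hn' hT' (B5_im_min u' hne' hS') (u (centre S))
  have c1 : radF (B5_im u S) (u' (centre S')) ≤ radF (B5_im u' S') (u' (centre S')) + 9 * M * η := by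
    refine B5_cmp hη hn hT hT' ?_ (by rw [u'.norm_map]; exact B5_norm hM hne' hS')
    rintro _ ⟨z, hz, rfl⟩
    obtain ⟨z', hz', h⟩ := h1 z hz
    exact ⟨(u' z'.1, z'.2), ⟨z', hz', rfl⟩, h⟩
  have c2 : radF (B5_im u' S') (u (centre S)) ≤ radF (B5_im u S) (u (centre S)) + 9 * M * η := by
    refine B5_cmp hη hn' hT' hT ?_ (by rw [u.norm_map]; exact B5_norm hM hne hS)
    rintro _ ⟨z', hz', rfl⟩
    obtain ⟨z, hz, h, h'⟩ := h2 z' hz'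
    exact ⟨(u z.1, z.2), ⟨z, hz, rfl⟩, by rwa [norm_sub_rev], by rwa [abs_sub_comm]⟩
  rw [norm_sub_rev] at g2
  have : 0 ≤ M * η := mul_nonneg (by linarith) hη
  nlinarith

theorem centre_acc {S : Set (H × ℝ)} {M : ℝ} (hS : ∀ z ∈ S, ‖z.1‖ ≤ M ∧ |z.2| ≤ M) (p : H)
    {β η : ℝ} (hp : ∀ z ∈ S, ‖p - z.1‖ ^ 2 + z.2 ≤ β) (hz : ∃ z ∈ S, β - η ≤ z.2) :
    ‖centre S - p‖ ^ 2 ≤ 4 * η := by
  obtain ⟨z, hz, hβ⟩ := hz
  have h1 := B5_le hS (centre S) hz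
  have h2 := B5_min ⟨z, hz⟩ hS p
  have h3 := B5_sup ⟨z, hz⟩ p hp
  have h4 := hp z hz
  have h5 : ‖centre S - p‖ ≤ ‖centre S - z.1‖ + ‖p - z.1‖ := by
    simpa using norm_sub_le (centre S - z.1) (p - z.1)
  have h6 := pow_le_pow_left₀ (norm_nonneg _) h5 2
  nlinarith [sq_nonneg (‖centre S - z.1‖ - ‖p - z.1‖)]

end Pool.Agent.P.MP_de432b_gt.LC
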