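import Pool.Agent.P.MP_de432b_gt.LC.B4

namespace Pool.Agent.P.MP_de432b_gt.LC

open MeasureTheory Set Filter Topology
open scoped unitInterval RealInnerProductSpace

variable {H K : Type} [NormedAddCommGroup H] [InnerProductSpace ℝ H] [CompleteSpace H]
  [NormedAddCommGroup K] [InnerProductSpace ℝ K] [CompleteSpace K] {m : ℕ}

theorem B6_orth {T : H →L[ℝ] H} (hT : IsSelfAdjoint T) {μ ν : ℝ} (h : μ ≠ ν) {u v : H}
    (hu : T u = μ • u) (hv : T v = ν • v) : ⟪u, v⟫ = 0 := by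
  have h1 : ⟪T u, v⟫ = ⟪u, T v⟫ := hT.isSymmetric u v
  rw [hu, hv, real_inner_smul_left, real_inner_smul_right] at h1
  have h2 : (μ - ν) * ⟪u, v⟫ = 0 := by linarith
  exact (mul_eq_zero.1 h2).resolve_left (sub_ne_zero.2 h)

/-- An operator acting by small scalars on all eigenspaces is small. -/
theorem B6_key {T : H →L[ℝ] H} (hT : IsSelfAdjoint T) (hc : IsCompactOperator T)
    (X : H →L[ℝ] H) {s : ℝ} (hs : 0 ≤ s) (c : ℝ → ℝ)
    (h : ∀ μ v, v ≠ 0 → T v = μ • v → X v = c μ • v ∧ |c μ| ≤ s) : ‖X‖ ≤ s := by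
  classical
  have hsym : (T : H →ₗ[ℝ] H).IsSymmetric := hT.isSymmetric
  have hd := Submodule.topologicalClosure_eq_top_iff.2
    (ContinuousLinearMap.orthogonalComplement_iSup_eigenspaces_eq_bot hc hsym)
  refine X.opNorm_le_bound hs fun v => ?_
  have hv : v ∈ closure ((⨆ μ, Module.End.eigenspace (T : Module.End ℝ H) μ :
      Submodule ℝ H) : Set H) := by
    rw [← Submodule.topologicalClosure_coe, hd]; trivial
  refine closure_minimal (t := {v | ‖X v‖ ≤ s * ‖v‖}) (fun w hw => ?_)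
    (isClosed_le (by fun_prop) (by fun_prop)) hv
  obtain ⟨f, hf, rfl⟩ := (Submodule.mem_iSup_iff_exists_finsupp _ _).1 hw
  have hO := hsym.orthogonalFamily_eigenspaces
  have e1 := hO.norm_sum (fun μ => ⟨f μ, hf μ⟩) f.support
  have e2 := hO.norm_sum (fun μ => c μ • ⟨f μ, hf μ⟩) f.support
  have hk : ∀ μ ∈ f.support, X (f μ) = c μ • f μ ∧ |c μ| ≤ s := fun μ hμ =>
    h μ _ (Finsupp.mem_support_iff.1 hμ) (Module.End.mem_eigenspace_iff.1 (hf μ))
  have e3 : X (f.sum fun _ x => x) = ∑ μ ∈ f.support, c μ • f μ := by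
    rw [Finsupp.sum, map_sum]
    exact Finset.sum_congr rfl fun μ hμ => (hk μ hμ).1
  have e1' : ‖f.sum fun _ x => x‖ ^ 2 = ∑ μ ∈ f.support, ‖f μ‖ ^ 2 := e1
  have e2' : ‖∑ μ ∈ f.support, c μ • f μ‖ ^ 2 = ∑ μ ∈ f.support, ‖c μ • f μ‖ ^ 2 := e2
  show ‖X _‖ ≤ s * _
  refine (pow_le_pow_iff_left₀ (norm_nonneg _) (by positivity) two_ne_zero).1 ?_
  rw [e3, e2', mul_pow, e1', Finset.mul_sum]
  refine Finset.sum_le_sum fun μ hμ => ?_
  rw [norm_smul, mul_pow, Real.norm_eq_abs]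
  gcongr
  exact (hk μ hμ).2

theorem B6_finite {T : H →L[ℝ] H} (hT : IsSelfAdjoint T) (hc : IsCompactOperator T) {a : ℝ}
    (ha : 0 < a) : {μ : ℝ | a ≤ |μ| ∧ ∃ v, v ≠ 0 ∧ T v = μ • v}.Finite := by
  by_contra hinf
  have hinf' : {μ : ℝ | a ≤ |μ| ∧ ∃ v, v ≠ 0 ∧ T v = μ • v}.Infinite := hinf
  let g := hinf'.natEmbedding
  have hex : ∀ n, ∃ v : H, ‖v‖ = 1 ∧ T v = (g n : ℝ) • v := by
    intro n
    obtain ⟨-, v, hv, he⟩ := (g n).2
    refine ⟨‖v‖⁻¹ • v, norm_smul_inv_norm hv, ?_⟩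
    rw [map_smul, he, smul_comm]
  choose e he1 he2 using hex
  have hK : IsCompact (closure (T '' Metric.closedBall 0 1)) :=
    IsCompactOperator.isCompact_closure_image_closedBall (f := (T : H →ₗ[ℝ] H)) hc 1
  obtain ⟨y, -, φ, hφ, hlim⟩ := hK.tendsto_subseq (x := fun n => T (e n)) fun n =>
    subset_closure ⟨e n, by simp [he1 n], rfl⟩
  have h1 : Tendsto (fun n => T (e (φ n)) - T (e (φ (n + 1)))) atTop (𝓝 (y - y)) :=
    hlim.sub (hlim.comp (tendsto_add_atTop_nat 1))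
  rw [sub_self] at h1
  have h2 := h1.norm
  rw [norm_zero] at h2
  obtain ⟨n, hn⟩ := (h2.eventually (gt_mem_nhds ha)).exists
  have hne : (g (φ n) : ℝ) ≠ g (φ (n + 1)) := fun h =>
    (hφ (Nat.lt_succ_self n)).ne (g.injective (Subtype.ext h))
  have h3 : ⟪e (φ n), T (e (φ n)) - T (e (φ (n + 1)))⟫ = g (φ n) := by
    rw [inner_sub_right, he2, he2, real_inner_smul_right, real_inner_smul_right,
      B6_orth hT hne (he2 _) (he2 _), real_inner_self_eq_norm_sq, he1]
    ring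
  have h4 := abs_real_inner_le_norm (e (φ n)) (T (e (φ n)) - T (e (φ (n + 1))))
  rw [h3, he1, one_mul] at h4
  have h5 := (g (φ n)).2.1
  linarith

theorem B6_level {T : H →L[ℝ] H} (hT : IsSelfAdjoint T) (hc : IsCompactOperator T) {θ : ℝ}
    (hθ : 0 < θ) : ∃ b : ℝ, 0 ≤ b ∧ b < θ ∧
      ∀ (μ : ℝ) (v : H), v ≠ 0 → T v = μ • v → |μ| < θ → |μ| ≤ b := by
  classical
  have hf := B6_finite hT hc (half_pos hθ)
  let S : Finset ℝ := insert (θ / 2) ((hf.toFinset.filter fun μ => |μ| < θ).image fun μ => |μ|)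
  have hne : S.Nonempty := Finset.insert_nonempty _ _
  have h0 : θ / 2 ≤ S.max' hne := Finset.le_max' _ _ (Finset.mem_insert_self _ _)
  refine ⟨S.max' hne, by linarith, ?_, fun μ v hv he hμ => ?_⟩
  · rw [Finset.max'_lt_iff]
    intro y hy
    rcases Finset.mem_insert.1 hy with rfl | hy
    · linarith
    · obtain ⟨μ, hμ, rfl⟩ := Finset.mem_image.1 hy
      exact (Finset.mem_filter.1 hμ).2
  · by_cases h : θ / 2 ≤ |μ|
    · refine Finset.le_max' _ _ (Finset.mem_insert_of_mem (Finset.mem_image.2 ⟨μ, ?_, rfl⟩))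
      exact Finset.mem_filter.2 ⟨hf.mem_toFinset.2 ⟨h, v, hv, he⟩, hμ⟩
    · linarith

theorem B6_poly {b θ : ℝ} (hb : 0 ≤ b) (hbθ : b < θ) (M : ℝ) (hM : 0 ≤ M) :
    ∃ φ : Polynomial ℝ, φ.coeff 0 = 0 ∧ ∀ x, |x| ≤ M →
      (θ ≤ |x| → |φ.eval x - 1| ≤ 1 / 100) ∧ (|x| ≤ b → |φ.eval x| ≤ 1 / 100) := by
  let f : ℝ → ℝ := fun x => min 1 (max 0 ((|x| - b) / (θ - b)))
  have hf : Continuous f := by fun_prop
  have hp : 0 < θ - b := by linarith
  have f0 : ∀ x, |x| ≤ b → f x = 0 := by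
    intro x hx
    have : (|x| - b) / (θ - b) ≤ 0 := div_nonpos_of_nonpos_of_nonneg (by linarith) hp.le
    simp [f, max_eq_left this]
  have f1 : ∀ x, θ ≤ |x| → f x = 1 := by
    intro x hx
    have : 1 ≤ (|x| - b) / (θ - b) := by rw [le_div_iff₀ hp]; linarith
    exact min_eq_left (le_max_of_le_right this)
  obtain ⟨p, hp⟩ := exists_polynomial_near_of_continuousOn (-M) M f hf.continuousOn (1 / 200)
    (by norm_num)
  have h0 := hp 0 ⟨by linarith, hM⟩
  rw [f0 0 (by simpa using hb), sub_zero, abs_lt] at h0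
  refine ⟨p - Polynomial.C (p.eval 0), by simp [Polynomial.coeff_zero_eq_eval_zero], ?_⟩
  intro x hx
  have h1 := hp x (abs_le.1 hx)
  simp only [Polynomial.eval_sub, Polynomial.eval_C]
  refine ⟨fun h => ?_, fun h => ?_⟩
  · rw [f1 x h, abs_lt] at h1
    rw [abs_le]; constructor <;> linarith
  · rw [f0 x h, sub_zero, abs_lt] at h1
    rw [abs_le]; constructor <;> linarith

theorem B6_aeval {T : H →L[ℝ] H} {μ : ℝ} {v : H} (h : T v = μ • v) (φ : Polynomial ℝ) :
    Polynomial.aeval T φ v = φ.eval μ • v := by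
  have hp : ∀ n : ℕ, (T ^ n) v = μ ^ n • v := by
    intro n
    induction n with
    | zero => simp
    | succ n ih => rw [pow_succ, mul_apply_eq_comp, h, map_smul, ih, smul_smul, pow_succ, mul_comm]
  induction φ using Polynomial.induction_on' with
  | add p q hp hq => simp [hp, hq, add_smul]
  | monomial n a =>
    rw [Polynomial.aeval_monomial, Polynomial.eval_monomial, mul_apply_eq_comp, hp, mul_smul]
    simp [Algebra.algebraMap_eq_smul_one]
    rw [smul_comm]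

theorem B6_frame (F : Submodule ℝ H) [FiniteDimensional ℝ F] :
    ∃ (m : ℕ) (V : E m →L[ℝ] H), IsFrame V F.starProjection ∧ (∀ x, V x ∈ F) ∧
      ∀ w ∈ F, ∃ y, V y = w := by
  let b := stdOrthonormalBasis ℝ F
  let V : E (Module.finrank ℝ F) →L[ℝ] H :=
    F.subtypeL ∘L (b.repr.symm.toContinuousLinearEquiv : E (Module.finrank ℝ F) →L[ℝ] F)
  have hV : ∀ x, V x = (b.repr.symm x : F) := fun x => rfl
  have hA : ∀ w, ContinuousLinearMap.adjoint V w = b.repr (F.orthogonalProjection w) := by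
    intro w
    refine ext_inner_left ℝ fun x => ?_
    rw [ContinuousLinearMap.adjoint_inner_right, hV, ← b.repr.symm.inner_map_map,
      LinearIsometryEquiv.symm_apply_apply, Submodule.inner_orthogonalProjection_eq_of_mem_left]
  refine ⟨_, V, ⟨?_, ?_⟩, fun x => (b.repr.symm x).2, fun w hw => ⟨b.repr ⟨w, hw⟩, ?_⟩⟩
  · ext1 x
    rw [ContinuousLinearMap.comp_apply, hA, hV]
    simp
  · ext1 w
    rw [ContinuousLinearMap.comp_apply, hA, hV]
    simp
  · rw [hV]; simp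

/-- A compact self-adjoint operator has a spectral gap below any level. -/
theorem exists_gap {T : H →L[ℝ] H} (hT : IsSelfAdjoint T) (hc : IsCompactOperator T) {θ : ℝ}
    (hθ : 0 < θ) : ∃ (m : ℕ) (V : E m →L[ℝ] H) (P : H →L[ℝ] H) (φ : Polynomial ℝ),
      IsFrame V P ∧ φ.coeff 0 = 0 ∧ ‖Polynomial.aeval T φ - P‖ ≤ 1 / 100 ∧ Commute P T ∧
      ‖T - P * T * P‖ ≤ θ ∧ ∀ x : E m, ∃ y : E m, V x = T (V y) := by
  classical
  let S : Set ℝ := {μ : ℝ | θ ≤ |μ| ∧ ∃ v, v ≠ 0 ∧ T v = μ • v}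
  have hS : Finite S := (B6_finite hT hc hθ).to_subtype
  have hS0 : ∀ μ : S, (μ : ℝ) ≠ 0 := by
    intro μ h
    have := μ.2.1
    rw [h, abs_zero] at this
    linarith
  have hfd : ∀ μ : S, FiniteDimensional ℝ (Module.End.eigenspace T.toLinearMap (μ : ℝ)) :=
    fun μ => ContinuousLinearMap.finite_dimensional_eigenspace hc _ (hS0 μ)
  let F : Submodule ℝ H := ⨆ μ : S, Module.End.eigenspace T.toLinearMap (μ : ℝ)
  have hF : FiniteDimensional ℝ F := inferInstance
  obtain ⟨m, V, hV, hV1, hV2⟩ := B6_frame F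
  obtain ⟨b, hb0, hb1, hb⟩ := B6_level hT hc hθ
  obtain ⟨φ, hφ0, hφ⟩ := B6_poly hb0 hb1 ‖T‖ (norm_nonneg _)
  have hP : ∀ (μ : ℝ) (v : H), v ≠ 0 → T v = μ • v →
      F.starProjection v = (if θ ≤ |μ| then (1 : ℝ) else 0) • v := by
    intro μ v hv he
    split_ifs with h
    · rw [one_smul, Submodule.starProjection_eq_self_iff]
      exact Submodule.mem_iSup_of_mem (⟨μ, h, v, hv, he⟩ : S)
        (Module.End.mem_eigenspace_iff.2 he)
    · rw [zero_smul, Submodule.starProjection_apply_eq_zero_iff, ← Submodule.iInf_orthogonal,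
        Submodule.mem_iInf]
      intro ν u hu
      refine B6_orth hT (fun h' => h ?_) (Module.End.mem_eigenspace_iff.1 hu) he
      rw [← h']; exact ν.2.1
  have hM : ∀ (μ : ℝ) (v : H), v ≠ 0 → T v = μ • v → |μ| ≤ ‖T‖ := by
    intro μ v hv he
    have h1 := T.le_opNorm v
    rw [he, norm_smul, Real.norm_eq_abs] at h1
    exact le_of_mul_le_mul_right h1 (norm_pos_iff.2 hv)
  refine ⟨m, V, F.starProjection, φ, hV, hφ0, ?_, ?_, ?_, fun x => ?_⟩
  · refine B6_key hT hc _ (by norm_num) (fun μ => φ.eval μ - if θ ≤ |μ| then 1 else 0)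
      fun μ v hv he => ⟨?_, ?_⟩
    · rw [sub_apply, B6_aeval he, hP μ v hv he, sub_smul]
    · split_ifs with h
      · exact (hφ μ (hM μ v hv he)).1 h
      · rw [sub_zero]
        exact (hφ μ (hM μ v hv he)).2 (hb μ v hv he (not_le.1 h))
  · have h := B6_key hT hc (F.starProjection * T - T * F.starProjection) le_rfl (fun _ => 0)
      fun μ v hv he => ⟨by
        rw [sub_apply, mul_apply_eq_comp, mul_apply_eq_comp, he, map_smul, hP μ v hv he,
          map_smul, he, smul_comm, sub_self, zero_smul], by simp⟩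
    exact sub_eq_zero.1 (norm_le_zero_iff.1 h)
  · refine B6_key hT hc _ hθ.le (fun μ => if θ ≤ |μ| then 0 else μ) fun μ v hv he => ⟨?_, ?_⟩
    · rw [sub_apply, mul_apply_eq_comp, mul_apply_eq_comp, hP μ v hv he, map_smul, he, map_smul,
        map_smul, hP μ v hv he]
      split_ifs <;> simp
    · split_ifs with h
      · simpa using hθ.le
      · exact (not_le.1 h).le
  · have key : ∀ w ∈ F, ∃ w' ∈ F, w = T w' := by
      intro w hw
      induction hw using Submodule.iSup_induction' with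
      | mem μ u hu =>
        refine ⟨(μ : ℝ)⁻¹ • u, F.smul_mem _ (Submodule.mem_iSup_of_mem μ hu), ?_⟩
        have he : T u = (μ : ℝ) • u := Module.End.mem_eigenspace_iff.1 hu
        rw [map_smul, he, smul_smul, inv_mul_cancel₀ (hS0 μ), one_smul]
      | zero => exact ⟨0, F.zero_mem, by simp⟩
      | add x y _ _ hx hy =>
        obtain ⟨x', hx', rfl⟩ := hx
        obtain ⟨y', hy', rfl⟩ := hy
        exact ⟨x' + y', F.add_mem hx' hy', by simp⟩
    obtain ⟨w', hw', he⟩ := key _ (hV1 x)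
    obtain ⟨y, rfl⟩ := hV2 w' hw'
    exact ⟨y, he⟩

end Pool.Agent.P.MP_de432b_gt.LC
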