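import Pool.Agent.P.MP_de432b_gt.LC.B3

namespace Pool.Agent.P.MP_de432b_gt.LC

open MeasureTheory Set Filter Topology
open scoped unitInterval RealInnerProductSpace

variable {H K : Type} [NormedAddCommGroup H] [InnerProductSpace ℝ H] [CompleteSpace H]
  [NormedAddCommGroup K] [InnerProductSpace ℝ K] [CompleteSpace K]

theorem B7_defect (S : H →L[ℝ] H) : newt S * newt S - newt S =
    (4 : ℝ) • ((S * S - S) * (S * S - S) * (S * S - S)) - (3 : ℝ) • ((S * S - S) * (S * S - S)) := by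
  unfold newt
  simp only [mul_sub, sub_mul, smul_mul_assoc, mul_smul_comm, mul_assoc, smul_sub, smul_smul]
  module

theorem B7_step (S : H →L[ℝ] H) : newt S - S = (S * S - S) * (1 - (2 : ℝ) • S) := by
  unfold newt
  simp only [mul_sub, sub_mul, mul_smul_comm, mul_assoc, smul_sub, mul_one]
  module

theorem B7_one_le : ‖(1 : H →L[ℝ] H)‖ ≤ 1 := ContinuousLinearMap.norm_id_le

theorem B7_refl {S : H →L[ℝ] H} (hS : IsSelfAdjoint S) (h : ‖S * S - S‖ ≤ 1 / 8) :
    ‖1 - (2 : ℝ) • S‖ ≤ 3 / 2 := by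
  have h1 : star (1 - (2 : ℝ) • S) = 1 - (2 : ℝ) • S := by
    rw [star_sub, star_one, star_smul, hS.star_eq, star_trivial]
  have h2 : (1 - (2 : ℝ) • S) * (1 - (2 : ℝ) • S) = 1 + (4 : ℝ) • (S * S - S) := by
    simp only [mul_sub, sub_mul, smul_mul_assoc, mul_smul_comm, smul_sub, smul_smul, mul_one,
      one_mul]
    module
  have h3 := CStarRing.norm_star_mul_self (x := 1 - (2 : ℝ) • S)
  rw [h1, h2] at h3
  have h4 : ‖1 + (4 : ℝ) • (S * S - S)‖ ≤ 1 + 4 * ‖S * S - S‖ := by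
    refine (norm_add_le _ _).trans (add_le_add B7_one_le ?_)
    rw [norm_smul, Real.norm_ofNat]
  nlinarith [norm_nonneg (1 - (2 : ℝ) • S)]

theorem B7_norm {S : H →L[ℝ] H} (hS : IsSelfAdjoint S) (h : ‖S * S - S‖ ≤ 1 / 8) : ‖S‖ ≤ 2 := by
  have h1 : (2 : ℝ) • S = 1 - (1 - (2 : ℝ) • S) := by abel
  have h2 : ‖(2 : ℝ) • S‖ ≤ 1 + 3 / 2 := by
    rw [h1]
    exact (norm_sub_le _ _).trans (add_le_add B7_one_le (B7_refl hS h))
  rw [norm_smul, Real.norm_ofNat] at h2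
  linarith

theorem B7_sa {S : H →L[ℝ] H} (hS : IsSelfAdjoint S) : IsSelfAdjoint (newt S) := by
  unfold newt
  show star _ = _
  simp only [star_sub, star_smul, star_mul, hS.star_eq, star_trivial, mul_assoc]

theorem B7_contr {S : H →L[ℝ] H} (h : ‖S * S - S‖ ≤ 1 / 8) :
    ‖newt S * newt S - newt S‖ ≤ 7 / 16 * ‖S * S - S‖ := by
  rw [B7_defect]
  set D := S * S - S
  have h0 := norm_nonneg D
  have h1 : ‖D * D‖ ≤ ‖D‖ * ‖D‖ := norm_mul_le _ _
  have h2 : ‖D * D * D‖ ≤ ‖D‖ * ‖D‖ * ‖D‖ :=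
    (norm_mul_le _ _).trans (mul_le_mul_of_nonneg_right h1 h0)
  refine (norm_sub_le _ _).trans ?_
  rw [norm_smul, norm_smul, Real.norm_ofNat, Real.norm_ofNat]
  have h3 : ‖D‖ * ‖D‖ ≤ 1 / 8 * ‖D‖ := mul_le_mul_of_nonneg_right h h0
  have h4 : ‖D‖ * ‖D‖ * ‖D‖ ≤ 1 / 8 * ‖D‖ * (1 / 8) :=
    mul_le_mul h3 h h0 (by positivity)
  linarith

theorem B7_iter {S : H →L[ℝ] H} (hS : IsSelfAdjoint S) (h : ‖S * S - S‖ ≤ 1 / 8) (n : ℕ) :
    IsSelfAdjoint (newt^[n] S) ∧
      ‖newt^[n] S * newt^[n] S - newt^[n] S‖ ≤ (7 / 16 : ℝ) ^ n * ‖S * S - S‖ ∧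
      ‖newt^[n] S * newt^[n] S - newt^[n] S‖ ≤ 1 / 8 := by
  induction n with
  | zero => exact ⟨hS, by simp, h⟩
  | succ n ih =>
    obtain ⟨h1, h2, h3⟩ := ih
    have h4 := B7_contr h3
    rw [Function.iterate_succ_apply']
    refine ⟨B7_sa h1, ?_, by linarith⟩
    rw [pow_succ]
    linarith

theorem B7_dist {S : H →L[ℝ] H} (hS : IsSelfAdjoint S) (h : ‖S * S - S‖ ≤ 1 / 8) (n : ℕ) :
    dist (newt^[n] S) (newt^[n + 1] S) ≤ 3 / 2 * ‖S * S - S‖ * (7 / 16 : ℝ) ^ n := by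
  obtain ⟨h1, h2, h3⟩ := B7_iter hS h n
  rw [dist_comm, dist_eq_norm, Function.iterate_succ_apply', B7_step]
  refine (norm_mul_le _ _).trans ?_
  have h4 := mul_le_mul h2 (B7_refl h1 h3) (norm_nonneg _) (by positivity)
  linarith

theorem B7_tendsto {S : H →L[ℝ] H} (hS : IsSelfAdjoint S) (h : ‖S * S - S‖ ≤ 1 / 8) :
    Tendsto (fun n => newt^[n] S) atTop (𝓝 (Newt S)) :=
  (cauchySeq_of_le_geometric (7 / 16) _ (by norm_num) (B7_dist hS h)).tendsto_limUnder

theorem B7_tail {S : H →L[ℝ] H} (hS : IsSelfAdjoint S) (h : ‖S * S - S‖ ≤ 1 / 8) (n : ℕ) :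
    ‖Newt S - newt^[n] S‖ ≤ 3 * ‖S * S - S‖ * (7 / 16 : ℝ) ^ n := by
  have h1 := dist_le_of_le_geometric_of_tendsto (7 / 16) _ (by norm_num) (B7_dist hS h)
    (B7_tendsto hS h) n
  rw [dist_comm, dist_eq_norm] at h1
  have h2 : 0 ≤ ‖S * S - S‖ * (7 / 16 : ℝ) ^ n := by positivity
  have h3 : 3 / 2 * ‖S * S - S‖ * (7 / 16 : ℝ) ^ n / (1 - 7 / 16) =
      8 / 3 * (‖S * S - S‖ * (7 / 16 : ℝ) ^ n) := by ring
  linarith

theorem B7_lip {S T : H →L[ℝ] H} (hS : ‖S‖ ≤ 2) (hT : ‖T‖ ≤ 2) :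
    ‖newt S - newt T‖ ≤ 40 * ‖S - T‖ := by
  have h0 := norm_nonneg (S - T)
  have e2 : S * S - T * T = (S - T) * S + T * (S - T) := by noncomm_ring
  have h2 : ‖S * S - T * T‖ ≤ 4 * ‖S - T‖ := by
    rw [e2]
    have a1 := (norm_mul_le (S - T) S).trans (mul_le_mul_of_nonneg_left hS h0)
    have a2 := (norm_mul_le T (S - T)).trans (mul_le_mul_of_nonneg_right hT h0)
    linarith [norm_add_le ((S - T) * S) (T * (S - T))]
  have e3 : S * S * S - T * T * T = (S * S - T * T) * S + T * T * (S - T) := by noncomm_ring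
  have h3 : ‖S * S * S - T * T * T‖ ≤ 12 * ‖S - T‖ := by
    rw [e3]
    have a1 := (norm_mul_le (S * S - T * T) S).trans
      (mul_le_mul_of_nonneg_left hS (norm_nonneg _))
    have a3 : ‖T * T‖ ≤ 2 * 2 :=
      (norm_mul_le T T).trans (mul_le_mul hT hT (norm_nonneg _) (by norm_num))
    have a2 := (norm_mul_le (T * T) (S - T)).trans (mul_le_mul_of_nonneg_right a3 h0)
    linarith [norm_add_le ((S * S - T * T) * S) (T * T * (S - T))]
  have e : newt S - newt T = (3 : ℝ) • (S * S - T * T) - (2 : ℝ) • (S * S * S - T * T * T) := by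
    unfold newt
    module
  rw [e]
  refine (norm_sub_le _ _).trans ?_
  rw [norm_smul, norm_smul, Real.norm_ofNat, Real.norm_ofNat]
  linarith

theorem B7_proj {P : H →L[ℝ] H} (hP : IsSelfAdjoint P) (hPP : P * P = P) : ‖P‖ ≤ 1 := by
  have h := CStarRing.norm_star_mul_self (x := P)
  rw [hP.star_eq, hPP] at h
  nlinarith [norm_nonneg P]

theorem Newt_spec {S : H →L[ℝ] H} (hS : IsSelfAdjoint S) (h : ‖S * S - S‖ ≤ 1 / 8) :
    IsSelfAdjoint (Newt S) ∧ Newt S * Newt S = Newt S ∧ ‖Newt S - S‖ ≤ 3 * ‖S * S - S‖ ∧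
      ∀ T, Commute T S → Commute T (Newt S) := by
  have hT := B7_tendsto hS h
  refine ⟨?_, ?_, ?_, ?_⟩
  · have h1 : Tendsto (fun n => star (newt^[n] S)) atTop (𝓝 (star (Newt S))) :=
      (continuous_star.tendsto _).comp hT
    have h2 : (fun n => star (newt^[n] S)) = fun n => newt^[n] S :=
      funext fun n => (B7_iter hS h n).1.star_eq
    rw [h2] at h1
    exact tendsto_nhds_unique h1 hT
  · have h1 : Tendsto (fun n => newt^[n] S * newt^[n] S - newt^[n] S) atTop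
        (𝓝 (Newt S * Newt S - Newt S)) := (hT.mul hT).sub hT
    have h2 : Tendsto (fun n : ℕ => (7 / 16 : ℝ) ^ n * ‖S * S - S‖) atTop (𝓝 (0 * ‖S * S - S‖)) :=
      (tendsto_pow_atTop_nhds_zero_of_lt_one (by norm_num) (by norm_num)).mul_const _
    rw [zero_mul] at h2
    have h3 := squeeze_zero_norm (fun n => (B7_iter hS h n).2.1) h2
    exact sub_eq_zero.1 (tendsto_nhds_unique h1 h3)
  · have h1 := B7_tail hS h 0
    simpa using h1
  · intro T hc
    have h1 : ∀ n, Commute T (newt^[n] S) := by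
      intro n
      induction n with
      | zero => exact hc
      | succ n ih =>
        rw [Function.iterate_succ_apply']
        exact ((ih.mul_right ih).smul_right _).sub_right
          (((ih.mul_right ih).mul_right ih).smul_right _)
    have h2 : Tendsto (fun n => T * newt^[n] S) atTop (𝓝 (T * Newt S)) := hT.const_mul T
    have h3 : Tendsto (fun n => newt^[n] S * T) atTop (𝓝 (Newt S * T)) := hT.mul_const T
    have h4 : (fun n => T * newt^[n] S) = fun n => newt^[n] S * T := funext fun n => (h1 n).eq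
    rw [h4] at h2
    exact tendsto_nhds_unique h2 h3

theorem conj_Newt (u : H →ₗᵢ[ℝ] K) {S : H →L[ℝ] H} (hS : IsSelfAdjoint S)
    (h : ‖S * S - S‖ ≤ 1 / 8) : conj u (Newt S) = Newt (conj u S) := by
  have hT := B7_tendsto hS h
  have h1 : ∀ n, conj u (newt^[n] S) = newt^[n] (conj u S) := by
    intro n
    induction n with
    | zero => rfl
    | succ n ih =>
      rw [Function.iterate_succ_apply', Function.iterate_succ_apply', ← ih]
      unfold newt
      rw [conj_sub, conj_smul, conj_smul, conj_mul, conj_mul, conj_mul]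
  have h2 : Tendsto (fun n => newt^[n] (conj u S)) atTop (𝓝 (conj u (Newt S))) := by
    rw [tendsto_iff_norm_sub_tendsto_zero] at hT ⊢
    refine hT.congr fun n => ?_
    rw [← h1, ← conj_sub, norm_conj]
  exact h2.limUnder_eq.symm

theorem Newt_uc {δ : ℝ} (hδ : 0 < δ) : ∃ η : ℝ, 0 < η ∧
    ∀ (K : Type) [NormedAddCommGroup K] [InnerProductSpace ℝ K] [CompleteSpace K]
      (S T : K →L[ℝ] K), IsSelfAdjoint S → IsSelfAdjoint T → ‖S * S - S‖ ≤ 1 / 8 →
      ‖T * T - T‖ ≤ 1 / 8 → ‖S - T‖ ≤ η → ‖Newt S - Newt T‖ ≤ δ := by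
  obtain ⟨n, hn⟩ := exists_pow_lt_of_lt_one (half_pos hδ) (by norm_num : (7 / 16 : ℝ) < 1)
  refine ⟨δ / 2 / 40 ^ n, by positivity, ?_⟩
  intro K _ _ _ S T hS hT h1 h2 h3
  have key : ∀ m, ‖newt^[m] S - newt^[m] T‖ ≤ 40 ^ m * ‖S - T‖ := by
    intro m
    induction m with
    | zero => simp
    | succ m ih =>
      rw [Function.iterate_succ_apply', Function.iterate_succ_apply', pow_succ]
      have a := B7_lip (B7_norm (B7_iter hS h1 m).1 (B7_iter hS h1 m).2.2)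
        (B7_norm (B7_iter hT h2 m).1 (B7_iter hT h2 m).2.2)
      linarith
  have a1 := B7_tail hS h1 n
  have a2 := B7_tail hT h2 n
  have a3 : (40 : ℝ) ^ n * ‖S - T‖ ≤ δ / 2 := by
    have a := mul_le_mul_of_nonneg_left h3 (by positivity : (0 : ℝ) ≤ 40 ^ n)
    rwa [mul_div_cancel₀ _ (by positivity : (40 : ℝ) ^ n ≠ 0)] at a
  have hp : (0 : ℝ) ≤ (7 / 16 : ℝ) ^ n := by positivity
  have a4 := mul_le_mul_of_nonneg_right h1 hp
  have a5 := mul_le_mul_of_nonneg_right h2 hp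
  have e : Newt S - Newt T =
      (Newt S - newt^[n] S) + (newt^[n] S - newt^[n] T) - (Newt T - newt^[n] T) := by abel
  rw [e]
  have a6 := norm_sub_le ((Newt S - newt^[n] S) + (newt^[n] S - newt^[n] T)) (Newt T - newt^[n] T)
  have a7 := norm_add_le (Newt S - newt^[n] S) (newt^[n] S - newt^[n] T)
  have a8 := key n
  linarith

theorem defect_le {S P : H →L[ℝ] H} (hP : IsSelfAdjoint P) (hPP : P * P = P) {η : ℝ}
    (h : ‖S - P‖ ≤ η) (hη : η ≤ 1) : ‖S * S - S‖ ≤ 4 * η := by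
  have h0 := norm_nonneg (S - P)
  have hn := B7_proj hP hPP
  have e : S * S - S = P * (S - P) + (S - P) * P + (S - P) * (S - P) - (S - P) := by
    simp only [mul_sub, sub_mul, hPP]
    abel
  have a1 := (norm_mul_le P (S - P)).trans (mul_le_mul_of_nonneg_right hn h0)
  have a2 := (norm_mul_le (S - P) P).trans (mul_le_mul_of_nonneg_left hn h0)
  have a3 := (norm_mul_le (S - P) (S - P)).trans (mul_le_mul_of_nonneg_left (h.trans hη) h0)
  rw [e]
  have a4 := norm_sub_le (P * (S - P) + (S - P) * P + (S - P) * (S - P)) (S - P)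
  have a5 := norm_add_le (P * (S - P) + (S - P) * P) ((S - P) * (S - P))
  have a6 := norm_add_le (P * (S - P)) ((S - P) * P)
  linarith

theorem Newt_eq {S P : H →L[ℝ] H} (hS : IsSelfAdjoint S) (hP : IsSelfAdjoint P) (hPP : P * P = P)
    (hc : Commute P S) (h : ‖S - P‖ ≤ 1 / 40) : Newt S = P := by
  have hd := defect_le hP hPP h (by norm_num)
  obtain ⟨-, h2, h3, h4⟩ := Newt_spec hS (hd.trans (by norm_num))
  have h5 : P * Newt S = Newt S * P := h4 P hc
  set Q := Newt S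
  have h6 : ‖Q - P‖ ≤ 1 / 2 := by
    have e : Q - P = (Q - S) + (S - P) := by abel
    rw [e]
    linarith [norm_add_le (Q - S) (S - P)]
  have e2 : (Q - P) * (Q - P) = Q + P - (Q * P + Q * P) := by
    simp only [mul_sub, sub_mul, h2, hPP, h5]
    abel
  have a1 : Q * P * Q = Q * P := by rw [mul_assoc, h5, ← mul_assoc, h2]
  have a2 : Q * P * P = Q * P := by rw [mul_assoc, hPP]
  have e3 : (Q - P) * (Q - P) * (Q - P) = Q - P := by
    rw [e2]
    simp only [mul_sub, sub_mul, add_mul, h2, hPP, h5, a1, a2]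
    abel
  have h0 := norm_nonneg (Q - P)
  have a3 : ‖(Q - P) * (Q - P)‖ ≤ 1 / 2 * (1 / 2) :=
    (norm_mul_le _ _).trans (mul_le_mul h6 h6 h0 (by norm_num))
  have a4 := (norm_mul_le ((Q - P) * (Q - P)) (Q - P)).trans (mul_le_mul_of_nonneg_right a3 h0)
  rw [e3] at a4
  exact sub_eq_zero.1 (norm_eq_zero.1 (by linarith))

end Pool.Agent.P.MP_de432b_gt.LC
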