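import Pool.Agent.P.MP_de432b_gt.LC.A3

set_option linter.unusedSectionVars false

namespace Pool.Agent.P.MP_de432b_gt.LC

open MeasureTheory Set Filter Topology
open scoped unitInterval RealInnerProductSpace

variable {Ω Ω' : Type} [MeasurableSpace Ω] [MeasurableSpace Ω'] {Q : Measure Ω}
  [IsProbabilityMeasure Q] {d d' d'' : Ω → Ω → ℝ} {b : Bool} {ε ε' : ℝ}

theorem C1_lip_zero (hd : IsPM d) : Lip d (fun _ => 0) := fun p q => by
  simpa using hd.nonneg p q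

theorem lip_ext (hd : IsPM d) {S : Set Ω} (hS : S.Nonempty) {f : Ω → ℝ} {e : ℝ} (he : 0 ≤ e)
    (h : ∀ p ∈ S, ∀ q ∈ S, f p - f q ≤ d p q + e) :
    ∃ f', Lip d f' ∧ ∀ p ∈ S, |f p - f' p| ≤ e := by
  obtain ⟨q0, hq0⟩ := hS
  have : Nonempty S := ⟨⟨q0, hq0⟩⟩
  have hb : ∀ p, BddBelow (range fun q : S => f q + d p q) := fun p =>
    ⟨f q0 - e - d q0 p, by
      rintro _ ⟨q, rfl⟩
      have := h q0 hq0 q q.2
      have := hd.tri q0 p q
      simp only
      linarith⟩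
  refine ⟨fun p => ⨅ q : S, f q + d p q, fun p r => ?_, fun p hp => ?_⟩
  · have : (⨅ q : S, f q + d p q) - d p r ≤ ⨅ q : S, f q + d r q := by
      refine le_ciInf fun q => ?_
      have := ciInf_le (hb p) q
      have := hd.tri p r q
      linarith
    simp only
    linarith
  · have h1 : (⨅ q : S, f q + d p q) ≤ f p + d p p := ciInf_le (hb p) ⟨p, hp⟩
    have h2 : f p - e ≤ ⨅ q : S, f q + d p q := by
      refine le_ciInf fun q => ?_
      have := h p hp q q.2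
      linarith
    rw [hd.self] at h1
    rw [abs_le]
    constructor <;> simp only <;> linarith

theorem lip_factor (hd : IsPM d) (τ : Ω' → Ω) {f : Ω' → ℝ}
    (hf : Lip (fun p q => d (τ p) (τ q)) f) : ∃ f₀, Lip d f₀ ∧ ∀ p, f₀ (τ p) = f p := by
  rcases isEmpty_or_nonempty Ω' with h0 | h0
  · exact ⟨fun _ => 0, C1_lip_zero hd, fun p => isEmptyElim p⟩
  have key : ∀ p, f (Function.invFun τ (τ p)) = f p := by
    intro p
    have e : τ (Function.invFun τ (τ p)) = τ p := Function.invFun_eq ⟨p, rfl⟩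
    have h1 := hf (Function.invFun τ (τ p)) p
    have h2 := hf p (Function.invFun τ (τ p))
    simp only [e, hd.self] at h1 h2
    linarith
  obtain ⟨f₀, h1, h2⟩ := lip_ext hd (range_nonempty τ) (f := fun x => f (Function.invFun τ x))
    le_rfl (by
      rintro _ ⟨p, rfl⟩ _ ⟨q, rfl⟩
      simp only [key, add_zero]
      exact hf p q)
  refine ⟨f₀, h1, fun p => ?_⟩
  have h3 := h2 (τ p) ⟨p, rfl⟩
  simp only [key] at h3
  have := abs_nonpos_iff.mp h3
  linarith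

theorem C1_half_mono (h : Half Q d d' ε) (hε : ε ≤ ε') : Half Q d d' ε' := by
  intro f hf
  obtain ⟨f', h1, h2⟩ := h f hf
  refine ⟨f', h1, (measureReal_mono ?_).trans (h2.trans hε)⟩
  exact fun p hp => lt_of_le_of_lt hε hp

theorem C1_box_symm (h : BoxC Q d d' ε) : BoxC Q d' d ε := by
  obtain ⟨S, h1, h2, h3⟩ := h
  exact ⟨S, h1, h2, fun p hp q hq => abs_sub_comm (d p q) (d' p q) ▸ h3 p hp q hq⟩

theorem C1_half_trans (h : Half Q d d' ε) (h' : Half Q d' d'' ε') : Half Q d d'' (ε + ε') := by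
  intro f hf
  obtain ⟨f', h1, h2⟩ := h f hf
  obtain ⟨f'', h3, h4⟩ := h' f' h1
  refine ⟨f'', h3, ?_⟩
  have h5 : {p | ε + ε' < |f p - f'' p|} ⊆ {p | ε < |f p - f' p|} ∪ {p | ε' < |f' p - f'' p|} := by
    intro p hp
    by_contra hn
    simp only [mem_union, mem_ofPred_eq, not_or, not_lt] at hn hp
    linarith [abs_sub_le (f p) (f' p) (f'' p), hn.1, hn.2]
  exact (measureReal_mono h5).trans ((measureReal_union_le _ _).trans (add_le_add h2 h4))

theorem C1_box_half (hd' : IsPM d') (h : BoxC Q d d' ε) : Half Q d d' ε := by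
  obtain ⟨S, h1, h2, h3⟩ := h
  intro f hf
  rcases S.eq_empty_or_nonempty with rfl | hS
  · refine ⟨fun _ => 0, C1_lip_zero hd', measureReal_le_one.trans ?_⟩
    simpa using h2
  · obtain ⟨f', h4, h5⟩ := lip_ext hd' hS (f := f) (measureReal_nonneg.trans h2)
      (fun p hp q hq => by linarith [hf p q, (abs_le.mp (h3 p hp q hq)).2])
    refine ⟨f', h4, (measureReal_mono ?_).trans h2⟩
    exact fun p hp hpS => absurd (h5 p hpS) (not_le.mpr hp)

theorem C1_meas (hd : IsPM d) (hd' : IsPM d') {f f' : Ω → ℝ} (hf : Lip d f) (hf' : Lip d' f')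
    (e : ℝ) : MeasurableSet {p | e < |f p - f' p|} :=
  measurableSet_lt measurable_const ((hf.measurable hd).sub (hf'.measurable hd')).abs

theorem C1_half_pull (hd : IsPM d) (hd' : IsPM d') {Q' : Measure Ω'}
    {τ : Ω' → Ω} (hτ : MeasurePreserving τ Q' Q) (h : Half Q d d' ε) :
    Half Q' (fun p q => d (τ p) (τ q)) (fun p q => d' (τ p) (τ q)) ε := by
  intro f hf
  obtain ⟨f₀, h1, h2⟩ := lip_factor hd τ hf
  obtain ⟨f', h3, h4⟩ := h f₀ h1
  refine ⟨fun p => f' (τ p), fun p q => h3 _ _, ?_⟩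
  rw [← hτ.measureReal_preimage (C1_meas hd hd' h1 h3 ε).nullMeasurableSet] at h4
  simpa only [preimage_ofPred_eq, h2] using h4

theorem C1_half_dom (hd : IsPM d) (hd' : IsPM d') {Q' : Measure Ω} [IsProbabilityMeasure Q']
    {C η : ℝ} (hC : 1 ≤ C) (hη : 0 ≤ η)
    (hQ : ∀ S, MeasurableSet S → Q'.real S ≤ C * Q.real S + η) (h0 : 0 ≤ ε)
    (h : Half Q d d' ε) : Half Q' d d' (C * ε + η) := by
  intro f hf
  obtain ⟨f', h1, h2⟩ := h f hf
  have h3 : ε ≤ C * ε + η := by nlinarith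
  refine ⟨f', h1, (measureReal_mono (s₂ := {p | ε < |f p - f' p|}) ?_).trans
    ((hQ _ (C1_meas hd hd' hf h1 ε)).trans ?_)⟩
  · exact fun p hp => lt_of_le_of_lt h3 hp
  · nlinarith

theorem C1_null {G : Set Ω} (hG : ∀ᵐ p ∂Q, p ∈ G) :
    ∃ t : Set Ω, (∀ p ∈ tᶜ, p ∈ G) ∧ MeasurableSet t ∧ Q.real t = 0 := by
  obtain ⟨t, h1, h2, h3⟩ := exists_measurable_superset_of_null (ae_iff.mp hG)
  refine ⟨t, fun p hp => ?_, h2, by simp [Measure.real, h3]⟩
  by_contra hn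
  exact hp (h1 hn)

theorem Close.nonneg (hd : IsPM d) (h : Close b Q d d' ε) : 0 ≤ ε := by
  cases b
  · obtain ⟨f', -, h2⟩ := h.1 _ (C1_lip_zero hd)
    exact measureReal_nonneg.trans h2
  · obtain ⟨S, -, h2, -⟩ := h
    exact measureReal_nonneg.trans h2

theorem Close.mono (h : Close b Q d d' ε) (hε : ε ≤ ε') : Close b Q d d' ε' := by
  cases b
  · exact ⟨C1_half_mono h.1 hε, C1_half_mono h.2 hε⟩
  · obtain ⟨S, h1, h2, h3⟩ := h
    exact ⟨S, h1, h2.trans hε, fun p hp q hq => (h3 p hp q hq).trans hε⟩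

theorem Close.symm (h : Close b Q d d' ε) : Close b Q d' d ε := by
  cases b
  · exact ⟨h.2, h.1⟩
  · exact C1_box_symm h

theorem Close.trans (h : Close b Q d d' ε) (h' : Close b Q d' d'' ε') :
    Close b Q d d'' (ε + ε') := by
  cases b
  · exact ⟨C1_half_trans h.1 h'.1, add_comm ε' ε ▸ C1_half_trans h'.2 h.2⟩
  · obtain ⟨S, h1, h2, h3⟩ := h
    obtain ⟨S', h1', h2', h3'⟩ := h'
    refine ⟨S ∩ S', h1.inter h1', ?_, fun p hp q hq => ?_⟩
    · rw [compl_inter]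
      exact (measureReal_union_le _ _).trans (add_le_add h2 h2')
    · exact (abs_sub_le _ _ _).trans (add_le_add (h3 p hp.1 q hq.1) (h3' p hp.2 q hq.2))

theorem BoxC.close (hd : IsPM d) (hd' : IsPM d') (h : BoxC Q d d' ε) : Close b Q d d' ε := by
  cases b
  · exact ⟨C1_box_half hd' h, C1_box_half hd (C1_box_symm h)⟩
  · exact h

theorem Close.conC (hd : IsPM d) (hd' : IsPM d') (h : Close b Q d d' ε) :
    Close false Q d d' ε := by
  cases b
  · exact h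
  · exact BoxC.close hd hd' h

theorem close_one (hd : IsPM d) (hd' : IsPM d') : Close b Q d d' 1 := by
  refine BoxC.close hd hd' ⟨∅, MeasurableSet.empty, measureReal_le_one, fun p hp => ?_⟩
  exact absurd hp (notMem_empty p)

theorem Close.pull (hd : IsPM d) (hd' : IsPM d') {Q' : Measure Ω'} [IsProbabilityMeasure Q']
    {τ : Ω' → Ω} (hτ : MeasurePreserving τ Q' Q) (h : Close b Q d d' ε) :
    Close b Q' (fun p q => d (τ p) (τ q)) (fun p q => d' (τ p) (τ q)) ε := by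
  cases b
  · exact ⟨C1_half_pull hd hd' hτ h.1, C1_half_pull hd' hd hτ h.2⟩
  · obtain ⟨S, h1, h2, h3⟩ := h
    refine ⟨τ ⁻¹' S, hτ.measurable h1, ?_, fun p hp q hq => h3 _ hp _ hq⟩
    rw [← preimage_compl, hτ.measureReal_preimage h1.compl.nullMeasurableSet]
    exact h2

theorem Close.dom (hd : IsPM d) (hd' : IsPM d') {Q' : Measure Ω} [IsProbabilityMeasure Q']
    {C η : ℝ} (hC : 1 ≤ C) (hη : 0 ≤ η)
    (hQ : ∀ S, MeasurableSet S → Q'.real S ≤ C * Q.real S + η) (h : Close b Q d d' ε) :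
    Close b Q' d d' (C * ε + η) := by
  have h0 := h.nonneg hd
  cases b
  · exact ⟨C1_half_dom hd hd' hC hη hQ h0 h.1, C1_half_dom hd' hd hC hη hQ h0 h.2⟩
  · obtain ⟨S, h1, h2, h3⟩ := h
    refine ⟨S, h1, (hQ _ h1.compl).trans ?_, fun p hp q hq => (h3 p hp q hq).trans ?_⟩
    · nlinarith
    · nlinarith

theorem boxC_of_ae {G : Set Ω} (hG : ∀ᵐ p ∂Q, p ∈ G) (hε : 0 ≤ ε)
    (h : ∀ p ∈ G, ∀ q ∈ G, |d p q - d' p q| ≤ ε) : BoxC Q d d' ε := by
  obtain ⟨t, h1, h2, h3⟩ := C1_null hG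
  refine ⟨tᶜ, h2.compl, ?_, fun p hp q hq => h p (h1 p hp) q (h1 q hq)⟩
  rw [compl_compl, h3]
  exact hε

theorem boxC_of_mean {φ : Ω → ℝ} (hφ : Measurable φ) (h0 : ∀ p, 0 ≤ φ p) (hi : Integrable φ Q)
    {C η : ℝ} (hC : 0 ≤ C) (hη : 0 < η) (hm : ∫ p, φ p ∂Q ≤ η ^ 2) {G : Set Ω}
    (hG : ∀ᵐ p ∂Q, p ∈ G) (h : ∀ p ∈ G, ∀ q ∈ G, |d p q - d' p q| ≤ C * (φ p + φ q)) :
    BoxC Q d d' ((2 * C + 1) * η) := by
  obtain ⟨t, h1, h2, h3⟩ := C1_null hG
  have h4 := mul_meas_ge_le_integral_of_nonneg (Eventually.of_forall h0) hi η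
  have h5 : Q.real {x | η ≤ φ x} ≤ η := by
    refine le_of_mul_le_mul_left (h4.trans ?_) hη
    rwa [← sq]
  refine ⟨{p | φ p ≤ η} ∩ tᶜ, (measurableSet_le hφ measurable_const).inter h2.compl, ?_,
    fun p hp q hq => (h p (h1 p hp.2) q (h1 q hq.2)).trans ?_⟩
  · have h6 : ({p | φ p ≤ η} ∩ tᶜ)ᶜ ⊆ {x | η ≤ φ x} ∪ t := by
      intro p hp
      by_cases ht : p ∈ t
      · exact Or.inr ht
      · refine Or.inl ?_
        by_contra hn
        have h8 : φ p ≤ η := (not_le.mp hn).le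
        exact hp ⟨h8, ht⟩
    have h7 := (measureReal_mono (μ := Q) h6).trans (measureReal_union_le _ _)
    rw [h3] at h7
    nlinarith
  · have h6 : φ p ≤ η := hp.1
    have h7 : φ q ≤ η := hq.1
    nlinarith

theorem BoxC.add_left (e : Ω → Ω → ℝ) (h : BoxC Q d d' ε) :
    BoxC Q (fun p q => e p q + d p q) (fun p q => e p q + d' p q) ε := by
  obtain ⟨S, h1, h2, h3⟩ := h
  refine ⟨S, h1, h2, fun p hp q hq => ?_⟩
  simpa using h3 p hp q hq

end Pool.Agent.P.MP_de432b_gt.LC
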