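import Pool.Agent.P.MP_de432b_gt.LC.C1

namespace Pool.Agent.P.MP_de432b_gt.LC

open MeasureTheory Set Filter Topology
open scoped unitInterval RealInnerProductSpace

variable {Ω Ω' : Type} [MeasurableSpace Ω] [MeasurableSpace Ω'] {Q : Measure Ω}
  [IsProbabilityMeasure Q] {d d' d'' : Ω → Ω → ℝ} {b : Bool} {ε ε' : ℝ}

theorem C2_cl_mem {a c : ℝ} (h : a ≤ c) (x : ℝ) : a ≤ max a (min c x) ∧ max a (min c x) ≤ c :=
  ⟨le_max_left _ _, max_le h (min_le_left _ _)⟩

theorem C2_cl_lip (a c : ℝ) {x y t : ℝ} (h : x - y ≤ t) (ht : 0 ≤ t) :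
    max a (min c x) - max a (min c y) ≤ t := by
  simp only [max_def, min_def]
  split_ifs <;> linarith

theorem C2_cl_near {a c y : ℝ} (h1 : a ≤ y) (h2 : y ≤ c) (x : ℝ) :
    |y - max a (min c x)| ≤ |y - x| := by
  have := le_abs_self (y - x)
  have := neg_abs_le (y - x)
  have := abs_nonneg (y - x)
  rw [abs_le]
  simp only [max_def, min_def]
  constructor <;> split_ifs <;> linarith

theorem C2_half_smul (hε : 0 ≤ ε) (h : Half Q d d' ε) {l : ℝ} (h0 : 0 ≤ l) (h1 : l ≤ 1) :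
    Half Q (fun p q => l * d p q) (fun p q => l * d' p q) ε := by
  intro f hf
  rcases h0.eq_or_lt with rfl | h0
  · refine ⟨f, fun p q => by simpa using hf p q, ?_⟩
    simpa [not_lt.mpr hε] using hε
  obtain ⟨g, hg, hm⟩ := h (fun p => f p / l) fun p q => by
    rw [← sub_div, div_le_iff₀ h0, mul_comm]
    exact hf p q
  refine ⟨fun p => l * g p, fun p q => by nlinarith [hg p q], (measureReal_mono ?_).trans hm⟩
  intro p hp
  have e : f p - l * g p = l * (f p / l - g p) := by field_simp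
  simp only [mem_ofPred_eq, e, abs_mul, abs_of_pos h0] at hp ⊢
  nlinarith [abs_nonneg (f p / l - g p)]

theorem Close.smul (hd : IsPM d) (h : Close b Q d d' ε) {l : ℝ} (h0 : 0 ≤ l) (h1 : l ≤ 1) :
    Close b Q (fun p q => l * d p q) (fun p q => l * d' p q) ε := by
  have hε := h.nonneg hd
  cases b
  · exact ⟨C2_half_smul hε h.1 h0 h1, C2_half_smul hε h.2 h0 h1⟩
  · obtain ⟨S, hS, hm, hc⟩ := h
    refine ⟨S, hS, hm, fun p hp q hq => ?_⟩
    rw [← mul_sub, abs_mul, abs_of_nonneg h0]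
    nlinarith [hc p hp q hq, abs_nonneg (d p q - d' p q)]

theorem C2_half_cone (hd : IsPM d) (hd' : IsPM d') (hε : 0 ≤ ε) (h : Half Q d d' ε) (S : Set Ω)
    (D : ℝ) : Half Q (coneD S D d) (coneD S D d') ε := by
  classical
  intro f hf
  have hD : 0 ≤ max D 0 := le_max_right _ _
  rcases (Sᶜ).eq_empty_or_nonempty with hS | hS
  · have hS' : ∀ p, p ∈ S := fun p => by
      by_contra hp
      exact (hS ▸ (hp : p ∈ Sᶜ) : p ∈ (∅ : Set Ω))
    refine ⟨f, fun p q => by simpa [coneD, glueD, hS'] using hf p q, ?_⟩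
    simpa [not_lt.mpr hε] using hε
  have h1 : ∀ p ∉ S, ∀ q ∉ S, f p - f q ≤ d p q ∧ f p - f q ≤ 2 * max D 0 := fun p hp q hq => by
    simpa only [coneD, glueD, hp, hq, if_false, le_min_iff] using hf p q
  obtain ⟨f₀, hf₀, he⟩ := lip_ext hd hS (f := f) le_rfl fun p hp q hq => by
    simpa using (h1 p hp q hq).1
  obtain ⟨g, hg, hm⟩ := h f₀ hf₀
  obtain ⟨a, ha, ha'⟩ : ∃ a, (∀ p ∉ S, a ≤ f p ∧ f p ≤ a + 2 * max D 0) ∧
      ∀ p ∈ S, f p = a + max D 0 := by
    rcases S.eq_empty_or_nonempty with rfl | ⟨s, hs⟩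
    · obtain ⟨p₀, -⟩ := hS
      have : Nonempty Ω := ⟨p₀⟩
      have hb : BddBelow (range f) := ⟨f p₀ - 2 * max D 0, by
        rintro _ ⟨q, rfl⟩
        linarith [(h1 p₀ (by simp) q (by simp)).2]⟩
      refine ⟨⨅ p, f p, fun p _ => ⟨ciInf_le hb p, ?_⟩, by simp⟩
      rw [← sub_le_iff_le_add]
      exact le_ciInf fun q => by linarith [(h1 p (by simp) q (by simp)).2]
    · refine ⟨f s - max D 0, fun p hp => ?_, fun p hp => ?_⟩
      · have h2 := hf p s
        have h3 := hf s p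
        simp only [coneD, glueD, hp, hs, if_true, if_false] at h2 h3
        constructor <;> linarith
      · have h2 := hf p s
        have h3 := hf s p
        simp only [coneD, glueD, hp, hs, if_true] at h2 h3
        linarith
  have hc := C2_cl_mem (a := a) (c := a + 2 * max D 0) (by linarith)
  refine ⟨fun p => if p ∈ S then a + max D 0 else max a (min (a + 2 * max D 0) (g p)),
    fun p q => ?_, (measureReal_mono ?_).trans hm⟩
  · by_cases hp : p ∈ S <;> by_cases hq : q ∈ S <;>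
      simp only [coneD, glueD, hp, hq, if_true, if_false]
    · simp
    · linarith [(hc (g q)).1]
    · linarith [(hc (g p)).2]
    · exact le_min (C2_cl_lip _ _ (hg p q) (hd'.nonneg p q))
        (by linarith [(hc (g q)).1, (hc (g p)).2])
  · intro p hp
    simp only [mem_ofPred_eq] at hp ⊢
    by_cases hs : p ∈ S
    · rw [if_pos hs, ha' p hs, sub_self, abs_zero] at hp
      linarith
    · rw [if_neg hs] at hp
      have e : f₀ p = f p := by linarith [abs_le.mp (he p hs)]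
      rw [e]
      exact hp.trans_le (C2_cl_near (ha p hs).1 (ha p hs).2 _)

theorem C2_cone (hd : IsPM d) (hd' : IsPM d') (h : Close b Q d d' ε) (S : Set Ω) (D : ℝ) :
    Close b Q (coneD S D d) (coneD S D d') ε := by
  have hε := h.nonneg hd
  cases b
  · exact ⟨C2_half_cone hd hd' hε h.1 S D, C2_half_cone hd' hd hε h.2 S D⟩
  · obtain ⟨T, hT, hm, hc⟩ := h
    refine ⟨T, hT, hm, fun p hp q hq => ?_⟩
    by_cases hp' : p ∈ S <;> by_cases hq' : q ∈ S <;>
      simp only [coneD, glueD, hp', hq', if_true, if_false, sub_self, abs_zero, hε]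
    refine (abs_min_sub_min_le_max _ _ _ _).trans (max_le (hc p hp q hq) ?_)
    simpa using hε

theorem Close.trunc (hd : IsPM d) (hd' : IsPM d') (h : Close b Q d d' ε) {L : ℝ} (hL : 0 ≤ L) :
    Close b Q (fun p q => min (d p q) L) (fun p q => min (d' p q) L) ε := by
  have e : ∀ d : Ω → Ω → ℝ, coneD ∅ (L / 2) d = fun p q => min (d p q) L := fun d => by
    funext p q
    simp only [coneD, glueD, mem_empty_iff_false, if_false]
    rw [max_eq_left (by linarith), mul_div_cancel₀ _ two_ne_zero]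
  simpa only [e] using C2_cone hd hd' h ∅ (L / 2)

theorem Close.cone (hd : IsPM d) (hd' : IsPM d') (h : Close b Q d d' ε) {S : Set Ω}
    (hS : MeasurableSet S) (D : ℝ) : Close b Q (coneD S D d) (coneD S D d') ε :=
  C2_cone hd hd' h S D

theorem C2_half_cells (hd : IsPM d) (hd' : IsPM d') (hε : 0 ≤ ε) (h : Half Q d d' ε)
    {ρ : Ω → Ω → ℝ} (hρ : IsPM ρ) {N : ℕ} {i : Ω → Fin N} {η : ℝ} (hη : 0 ≤ η)
    (hc : ∀ p q, i p = i q → ρ p q ≤ η) :
    Half Q (fun p q => d p q + ρ p q) (fun p q => d' p q + ρ p q) (η + (N + 2) * ε) := by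
  intro f hf
  have key : ∀ j : Fin N, ∃ F, Lip d F ∧ (∀ y, i y = j → F y ≤ f y) ∧
      ∀ y y', i y' = j → f y ≤ F y + ρ y y' + η := by
    intro j
    rcases isEmpty_or_nonempty {y // i y = j} with hj | hj
    · exact ⟨fun _ => 0, fun p q => by simpa using hd.nonneg p q,
        fun y hy => hj.elim ⟨y, hy⟩, fun y y' hy => hj.elim ⟨y', hy⟩⟩
    have h1 : ∀ y y', i y' = j → ∀ z : {y // i y = j}, f y - ρ y y' - η ≤ f z + d z y := by
      intro y y' hy z
      have h2 : f y - f z ≤ d y z + ρ y z := hf y z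
      linarith [hρ.tri y y' z, hc y' z (hy.trans z.2.symm), hd.symm y z]
    have hb : ∀ y, BddBelow (range fun z : {y // i y = j} => f z + d z y) := fun y =>
      ⟨_, by
        rintro _ ⟨z, rfl⟩
        exact h1 y hj.some.1 hj.some.2 z⟩
    refine ⟨fun y => ⨅ z : {y // i y = j}, (f z + d z y), fun p q => ?_, fun y hy => ?_,
      fun y y' hy => ?_⟩
    · rw [sub_le_comm]
      refine le_ciInf fun z => ?_
      linarith [ciInf_le (hb p) z, hd.tri z q p, hd.symm p q]
    · simpa [hd.self] using ciInf_le (hb y) ⟨y, hy⟩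
    · linarith [le_ciInf (h1 y y' hy)]
  choose F hF h1 h2 using key
  choose F' hF' hm using fun j => h (F j) (hF j)
  have hN : (0 : ℝ) ≤ N * ε := by positivity
  obtain ⟨f', hf', he⟩ : ∃ f', Lip (fun p q => d' p q + ρ p q) f' ∧
      ∀ p ∈ {p | ∀ j, |F j p - F' j p| ≤ ε}, |f p - f' p| ≤ η + 2 * ε := by
    rcases {p | ∀ j, |F j p - F' j p| ≤ ε}.eq_empty_or_nonempty with hG | hG
    · exact ⟨fun _ => 0, fun p q => by simpa using (hd'.add hρ).nonneg p q, by simp [hG]⟩
    refine lip_ext (hd'.add hρ) hG (by positivity) fun p hp q hq => ?_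
    linarith [h2 (i q) p q rfl, h1 (i q) q rfl, abs_le.mp (hp (i q)), abs_le.mp (hq (i q)),
      hF' (i q) p q]
  refine ⟨f', hf', (measureReal_mono (s₂ := ⋃ j, {p | ε < |F j p - F' j p|}) ?_).trans
    ((measureReal_iUnion_fintype_le _).trans ((Finset.sum_le_sum fun j _ => hm j).trans ?_))⟩
  · intro p hp
    by_contra hn
    simp only [mem_iUnion, mem_ofPred_eq, not_exists, not_lt] at hn hp
    linarith [he p hn]
  · simp only [Finset.sum_const, Finset.card_univ, Fintype.card_fin, nsmul_eq_mul]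
    linarith

/-- Adding a common pseudo-metric with finitely many small cells. -/
theorem Close.cells (hd : IsPM d) (hd' : IsPM d') (h : Close b Q d d' ε) {ρ : Ω → Ω → ℝ}
    (hρ : IsPM ρ) {N : ℕ} {i : Ω → Fin N} (hi : Measurable i) {η : ℝ} (hη : 0 ≤ η)
    (hc : ∀ p q, i p = i q → ρ p q ≤ η) {l : ℝ} (h0 : 0 ≤ l) (h1 : l ≤ 1) :
    Close b Q (fun p q => l * d p q + ρ p q) (fun p q => l * d' p q + ρ p q)
      (η + (N + 2) * ε) := by
  have hε := h.nonneg hd
  have h' := h.smul hd h0 h1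
  cases b
  · exact ⟨C2_half_cells (hd.smul h0) (hd'.smul h0) hε h'.1 hρ hη hc,
      C2_half_cells (hd'.smul h0) (hd.smul h0) hε h'.2 hρ hη hc⟩
  · obtain ⟨S, hS, hm, hd⟩ := h'
    have hN : (0 : ℝ) ≤ N * ε := by positivity
    refine ⟨S, hS, by linarith, fun p hp q hq => ?_⟩
    rw [add_sub_add_right_eq_sub]
    linarith [hd p hp q hq]

theorem C2_median {f : Ω → ℝ} (hf : Measurable f) :
    ∃ s : ℝ, 1 / 2 ≤ Q.real {p | f p ≤ s} ∧ 1 / 2 ≤ Q.real {p | s - 1 ≤ f p} := by
  have : IsProbabilityMeasure (Q.map f) := Measure.isProbabilityMeasure_map hf.aemeasurable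
  have e : ∀ t, ProbabilityTheory.cdf (Q.map f) t = Q.real {p | f p ≤ t} := fun t => by
    rw [ProbabilityTheory.cdf_eq_real, map_measureReal_apply hf measurableSet_Iic]
    rfl
  obtain ⟨t₀, h0⟩ := ((ProbabilityTheory.tendsto_cdf_atBot (Q.map f)).eventually
    (gt_mem_nhds (show (0 : ℝ) < 1 / 2 by norm_num))).exists
  obtain ⟨t₁, h1⟩ := ((ProbabilityTheory.tendsto_cdf_atTop (Q.map f)).eventually
    (lt_mem_nhds (show (1 / 2 : ℝ) < 1 by norm_num))).exists
  have hmono := ProbabilityTheory.monotone_cdf (Q.map f)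
  obtain ⟨n, hn, hl⟩ := Int.exists_least_of_bdd
    (P := fun n : ℤ => 1 / 2 ≤ ProbabilityTheory.cdf (Q.map f) n)
    ⟨⌊t₀⌋, fun z hz => by
      by_contra hc
      have : (z : ℝ) ≤ t₀ := (Int.cast_le.mpr (not_le.mp hc).le).trans (Int.floor_le _)
      linarith [hmono this]⟩
    ⟨⌈t₁⌉, h1.le.trans (hmono (Int.le_ceil _))⟩
  refine ⟨n, e _ ▸ hn, ?_⟩
  have h2 : Q.real {p | f p ≤ (n : ℝ) - 1} < 1 / 2 := by
    by_contra hc
    have := hl (n - 1) (by rw [e]; push_cast; exact not_lt.mp hc)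
    omega
  have h3 := probReal_compl_eq_one_sub (μ := Q) (s := {p | f p ≤ (n : ℝ) - 1})
    (measurableSet_le hf measurable_const)
  refine le_trans (by linarith) (measureReal_mono (s₁ := {p | f p ≤ (n : ℝ) - 1}ᶜ) fun p hp => ?_)
  exact (not_le.mp (show ¬ f p ≤ (n : ℝ) - 1 from hp)).le

theorem Close.of_trunc (hd : IsPM d) (hd' : IsPM d') {L : ℝ} (hL : 8 ≤ L)
    (hb : ∀ p q, d' p q ≤ L / 4) (hε : ε < 1 / 2)
    (h : Close b Q (fun p q => min (d p q) L) d' ε) : Close b Q d d' ε := by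
  cases b
  · refine ⟨fun f hf => ?_, fun f hf => ?_⟩
    · obtain ⟨s, h1, h2⟩ := C2_median (Q := Q) (hf.measurable hd)
      have hc := C2_cl_mem (a := s - L / 2) (c := s + L / 2) (by linarith)
      obtain ⟨g, hg, hm⟩ := h.1 (fun p => max (s - L / 2) (min (s + L / 2) (f p))) fun p q =>
        le_min (C2_cl_lip _ _ (hf p q) (hd.nonneg p q)) (by linarith [(hc (f q)).1, (hc (f p)).2])
      have ex : ∀ T : Set Ω, 1 / 2 ≤ Q.real T →
          ∃ p ∈ T, |max (s - L / 2) (min (s + L / 2) (f p)) - g p| ≤ ε := fun T hT => by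
        by_contra hn
        push Not at hn
        linarith [(measureReal_mono (μ := Q) hn).trans hm]
      obtain ⟨p₁, hp₁, e₁⟩ := ex _ h1
      obtain ⟨p₂, hp₂, e₂⟩ := ex _ h2
      have a₁ : max (s - L / 2) (min (s + L / 2) (f p₁)) ≤ s :=
        max_le (by linarith) ((min_le_right _ _).trans hp₁)
      have a₂ : s - 1 ≤ max (s - L / 2) (min (s + L / 2) (f p₂)) :=
        le_max_of_le_right (le_min (by linarith) hp₂)
      refine ⟨g, hg, (measureReal_mono fun p hp => ?_).trans hm⟩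
      simp only [mem_ofPred_eq] at hp ⊢
      by_contra hn
      have b₁ := abs_le.mp (not_lt.mp hn)
      have b₂ := abs_le.mp e₁
      have b₃ := abs_le.mp e₂
      have b₄ := (hg p p₁).trans (hb _ _)
      have b₅ := (hg p₂ p).trans (hb _ _)
      have e : max (s - L / 2) (min (s + L / 2) (f p)) = f p := by
        simp only [max_def, min_def] at b₁ ⊢
        split_ifs at b₁ ⊢ <;> linarith
      exact hn (e.symm ▸ hp)
    · obtain ⟨g, hg, hm⟩ := h.2 f hf
      exact ⟨g, fun p q => (hg p q).trans (min_le_left _ _), hm⟩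
  · obtain ⟨S, hS, hm, hc⟩ := h
    refine ⟨S, hS, hm, fun p hp q hq => ?_⟩
    have h1 : |min (d p q) L - d' p q| ≤ ε := hc p hp q hq
    rcases le_total (d p q) L with h2 | h2
    · rwa [min_eq_left h2] at h1
    · rw [min_eq_right h2] at h1
      linarith [abs_le.mp h1, hb p q]

theorem exists_cells (m : ℕ) (B : ℝ) {η : ℝ} (hη : 0 < η) :
    ∃ (N : ℕ) (i : E m × ℝ → Fin N), Measurable i ∧ ∀ z z' : E m × ℝ, ‖z.1‖ ≤ B → ‖z'.1‖ ≤ B →
      z.2 ∈ Icc (0 : ℝ) 1 → z'.2 ∈ Icc (0 : ℝ) 1 → i z = i z' →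
      ‖z.1 - z'.1‖ ≤ η ∧ |z.2 - z'.2| ≤ η := by
  classical
  have hK : IsCompact (Metric.closedBall (0 : E m) B ×ˢ Icc (0 : ℝ) 1) :=
    (isCompact_closedBall _ _).prod isCompact_Icc
  obtain ⟨t, ht, hc⟩ := Metric.totallyBounded_iff.mp hK.totallyBounded (η / 2) (half_pos hη)
  have := ht.fintype
  refine ⟨_, fun z => Fintype.equivFin (t → Prop) fun y => z ∈ Metric.ball y.1 (η / 2),
    (measurable_of_countable _).comp (measurable_pi_lambda _ fun y =>
      measurableSet_setOfPred.mp Metric.isOpen_ball.measurableSet), fun z z' h1 _ h2 _ e => ?_⟩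
  obtain ⟨y, hy, hz⟩ := mem_iUnion₂.mp (hc (a := z) ⟨by simpa using h1, h2⟩)
  have hz' : z' ∈ Metric.ball y (η / 2) :=
    (congrFun ((Fintype.equivFin _).injective e) ⟨y, hy⟩).mp hz
  have h3 : dist z z' ≤ η := by
    linarith [dist_triangle_right z z' y, Metric.mem_ball.mp hz, Metric.mem_ball.mp hz']
  rw [Prod.dist_eq, max_le_iff, dist_eq_norm, Real.dist_eq] at h3
  exact h3

end Pool.Agent.P.MP_de432b_gt.LC
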