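import Pool.Agent.P.MP_de432b_gt.LC.C1

namespace Pool.Agent.P.MP_de432b_gt.LC

open MeasureTheory Set Filter Topology
open scoped unitInterval RealInnerProductSpace

variable {A B C : PM} {b : Bool} {ε : ℝ}

open ProbabilityTheory in
theorem C3_couple (s₁ : Span A B) (s₂ : Span B C) :
    ∃ Q : Measure (s₁.Ω × s₂.Ω), IsProbabilityMeasure Q ∧ MeasurePreserving Prod.fst Q s₁.Q ∧
      MeasurePreserving Prod.snd Q s₂.Q ∧ ∀ᵐ x ∂Q, s₁.r x.1 = s₂.l x.2 := by
  have : Nonempty s₂.Ω := nonempty_of_isProbabilityMeasure s₂.Q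
  set κ : Kernel B.Ω s₂.Ω := condDistrib id s₂.l s₂.Q with hκ
  have hc : B.P.compProd κ = Measure.map (fun a => (s₂.l a, a)) s₂.Q := by
    have := compProd_map_condDistrib (X := s₂.l) (Y := (id : s₂.Ω → s₂.Ω)) (μ := s₂.Q)
      (mβ := B.ms) measurable_id.aemeasurable
    rw [s₂.hl.map_eq] at this
    exact this
  have hG : Measurable fun p : s₁.Ω × s₂.Ω => (s₁.r p.1, p.2) :=
    (s₁.hr.measurable.comp measurable_fst).prodMk measurable_snd
  have hψ : Measurable fun a : s₂.Ω => (s₂.l a, a) := s₂.hl.measurable.prodMk measurable_id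
  have hG' : MeasurePreserving (fun p : s₁.Ω × s₂.Ω => (s₁.r p.1, p.2))
      (s₁.Q.compProd (κ.comap s₁.r s₁.hr.measurable))
      (Measure.map (fun a => (s₂.l a, a)) s₂.Q) := by
    refine ⟨hG, ?_⟩
    rw [← hc]
    ext S hS
    rw [Measure.map_apply hG hS, Measure.compProd_apply (hG hS), Measure.compProd_apply hS,
      ← s₁.hr.lintegral_comp (Kernel.measurable_kernel_prodMk_left hS)]
    rfl
  have hsnd : MeasurePreserving (Prod.snd : B.Ω × s₂.Ω → s₂.Ω)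
      (Measure.map (fun a => (s₂.l a, a)) s₂.Q) s₂.Q :=
    ⟨measurable_snd, by rw [Measure.map_map measurable_snd hψ]; exact Measure.map_id⟩
  refine ⟨s₁.Q.compProd (κ.comap s₁.r s₁.hr.measurable), inferInstance,
    ⟨measurable_fst, Measure.fst_compProd _ _⟩, hsnd.comp hG', ?_⟩
  have hm : MeasurableSet {q : B.Ω × s₂.Ω | q.1 = s₂.l q.2} := by
    let _ := upgradeStandardBorel B.Ω
    exact measurableSet_eq_fun measurable_fst (s₂.hl.measurable.comp measurable_snd)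
  have h1 : ∀ᵐ q ∂(Measure.map (fun a => (s₂.l a, a)) s₂.Q), q.1 = s₂.l q.2 := by
    rw [ae_map_iff hψ.aemeasurable hm]
    exact Filter.Eventually.of_forall fun _ => rfl
  exact hG'.quasiMeasurePreserving.ae h1

theorem Span.glue (s₁ : Span A B) (s₂ : Span B C) :
    ∃ (s : Span A C) (p₁ : s.Ω → s₁.Ω) (p₂ : s.Ω → s₂.Ω), MeasurePreserving p₁ s.Q s₁.Q ∧
      MeasurePreserving p₂ s.Q s₂.Q ∧ (∀ x, s.l x = s₁.l (p₁ x)) ∧ (∀ x, s.r x = s₂.r (p₂ x)) ∧
      (∀ᵐ x ∂s.Q, s₁.r (p₁ x) = s₂.l (p₂ x)) ∧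
      ∀ (b : Bool) (ε ε' : ℝ), s₁.Close b ε → s₂.Close b ε' → s.Close b (ε + ε') := by
  obtain ⟨Q, hQ, h1, h2, h3⟩ := C3_couple s₁ s₂
  refine ⟨{ Ω := s₁.Ω × s₂.Ω, Q := Q, l := fun x => s₁.l x.1, r := fun x => s₂.r x.2,
            hl := s₁.hl.comp h1, hr := s₂.hr.comp h2 }, Prod.fst, Prod.snd, h1, h2,
    fun _ => rfl, fun _ => rfl, h3, fun b ε ε' c1 c2 => ?_⟩
  have e1 := LC.Close.pull (A.hd.pull s₁.hl.measurable) (B.hd.pull s₁.hr.measurable) h1 c1
  have e2 := LC.Close.pull (B.hd.pull s₂.hl.measurable) (C.hd.pull s₂.hr.measurable) h2 c2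
  have e3 : LC.Close b Q (fun p q => B.d (s₁.r p.1) (s₁.r q.1))
      (fun p q => B.d (s₂.l p.2) (s₂.l q.2)) 0 := by
    refine BoxC.close (B.hd.pull (s₁.hr.measurable.comp measurable_fst))
      (B.hd.pull (s₂.hl.measurable.comp measurable_snd))
      (boxC_of_ae (G := {x | s₁.r x.1 = s₂.l x.2}) h3 le_rfl fun p hp q hq => ?_)
    rw [show s₁.r p.1 = s₂.l p.2 from hp, show s₁.r q.1 = s₂.l q.2 from hq, sub_self, abs_zero]
  have := (e1.trans e3).trans e2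
  rw [add_zero] at this
  exact this

theorem Span.Close.mono {s : Span A B} {ε' : ℝ} (h : s.Close b ε) (hε : ε ≤ ε') : s.Close b ε' :=
  LC.Close.mono h hε

theorem Span.Close.symm {s : Span A B} (h : s.Close b ε) : s.symm.Close b ε := LC.Close.symm h

theorem Span.Close.conc {s : Span A B} (h : s.Close b ε) : s.Close false ε :=
  LC.Close.conC (A.hd.pull s.hl.measurable) (B.hd.pull s.hr.measurable) h

theorem Span.Close.of_box {s : Span A B} (h : s.Close true ε) : s.Close b ε :=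
  BoxC.close (A.hd.pull s.hl.measurable) (B.hd.pull s.hr.measurable) h

theorem C3_nonneg {s : Span A B} (h : s.Close b ε) : 0 ≤ ε :=
  LC.Close.nonneg (A.hd.pull s.hl.measurable) h

theorem C3_one (b : Bool) (A B : PM) : ∃ s : Span A B, s.Close b 1 :=
  ⟨{ Ω := A.Ω × B.Ω, Q := A.P.prod B.P, l := Prod.fst, r := Prod.snd,
     hl := measurePreserving_fst, hr := measurePreserving_snd },
    close_one (A.hd.pull measurable_fst) (B.hd.pull measurable_snd)⟩

theorem DD_le {s : Span A B} (h : s.Close b ε) : DD b A B ≤ ε :=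
  csInf_le ⟨0, fun _ hx => hx.1⟩ ⟨C3_nonneg h, s, h⟩

theorem exists_span (h : DD b A B < ε) : ∃ s : Span A B, s.Close b ε := by
  obtain ⟨a, ⟨-, s, hs⟩, ha⟩ := exists_lt_of_csInf_lt
    (s := {ε | 0 ≤ ε ∧ ∃ s : Span A B, s.Close b ε}) ⟨1, zero_le_one, C3_one b A B⟩ h
  exact ⟨s, hs.mono ha.le⟩

theorem DD_nonneg (b : Bool) (A B : PM) : 0 ≤ DD b A B :=
  le_csInf ⟨1, zero_le_one, C3_one b A B⟩ fun _ hx => hx.1

theorem DD_le_one (b : Bool) (A B : PM) : DD b A B ≤ 1 := by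
  obtain ⟨s, hs⟩ := C3_one b A B
  exact DD_le hs

theorem C3_le {A' B' : PM} {b' : Bool}
    (h : ∀ (s : Span A B) (ε : ℝ), s.Close b ε → DD b' A' B' ≤ ε) : DD b' A' B' ≤ DD b A B :=
  le_csInf ⟨1, zero_le_one, C3_one b A B⟩ fun _ ⟨_, s, hs⟩ => h s _ hs

theorem C3_map_le {τ : A.Ω → B.Ω} (hτ : MeasurePreserving τ A.P B.P)
    (h : BoxC A.P A.d (fun p q => B.d (τ p) (τ q)) ε) : DD b A B ≤ ε :=
  DD_le (s := Span.ofMap hτ) (Span.Close.of_box h)

theorem C3_map {τ : A.Ω → B.Ω} (hτ : MeasurePreserving τ A.P B.P) {G : Set A.Ω}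
    (hG : ∀ᵐ p ∂A.P, p ∈ G) (h : ∀ p ∈ G, ∀ q ∈ G, A.d p q = B.d (τ p) (τ q)) :
    DD b A B = 0 :=
  le_antisymm (C3_map_le hτ (boxC_of_ae hG le_rfl fun p hp q hq => by
    rw [h p hp q hq, sub_self, abs_zero])) (DD_nonneg b A B)

theorem DD_self (b : Bool) (A : PM) : DD b A A = 0 :=
  C3_map (MeasurePreserving.id A.P) (G := univ) (Eventually.of_forall fun _ => trivial)
    fun _ _ _ _ => rfl

theorem DD_comm (b : Bool) (A B : PM) : DD b A B = DD b B A :=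
  le_antisymm (C3_le fun _ _ h => DD_le h.symm) (C3_le fun _ _ h => DD_le h.symm)

theorem DD_triangle (b : Bool) (A B C : PM) : DD b A C ≤ DD b A B + DD b B C := by
  refine le_of_forall_pos_le_add fun η hη => ?_
  obtain ⟨s₁, h₁⟩ := exists_span (show DD b A B < DD b A B + η / 2 by linarith)
  obtain ⟨s₂, h₂⟩ := exists_span (show DD b B C < DD b B C + η / 2 by linarith)
  obtain ⟨s, -, -, -, -, -, -, -, h⟩ := s₁.glue s₂
  linarith [DD_le (h b _ _ h₁ h₂)]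

theorem DD_false_le (b : Bool) (A B : PM) : DD false A B ≤ DD b A B :=
  C3_le fun _ _ h => DD_le h.conc

theorem DD_le_true (b : Bool) (A B : PM) : DD b A B ≤ DD true A B :=
  C3_le fun _ _ h => DD_le h.of_box

theorem DD_withD {d : A.Ω → A.Ω → ℝ} (hd : IsPM d) (h : Close b A.P A.d d ε) :
    DD b A (A.withD d hd) ≤ ε :=
  DD_le (s := Span.ofMap (B := A.withD d hd) (MeasurePreserving.id A.P)) h

theorem DD_map_le {τ : A.Ω → B.Ω} (hτ : MeasurePreserving τ A.P B.P)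
    (h : BoxC A.P A.d (fun p q => B.d (τ p) (τ q)) ε) : DD b A B ≤ ε := C3_map_le hτ h

theorem DD_map {τ : A.Ω → B.Ω} (hτ : MeasurePreserving τ A.P B.P) {G : Set A.Ω}
    (hG : ∀ᵐ p ∂A.P, p ∈ G) (h : ∀ p ∈ G, ∀ q ∈ G, A.d p q = B.d (τ p) (τ q)) :
    DD b A B = 0 := C3_map hτ hG h

end Pool.Agent.P.MP_de432b_gt.LC
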