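import Pool.Agent.P.MP_de432b_gt.LC.C3

namespace Pool.Agent.P.MP_de432b_gt.LC

open MeasureTheory Set Filter Topology
open scoped unitInterval RealInnerProductSpace

noncomputable instance (b : Bool) : PseudoMetricSpace (PMb b) where
  dist A B := DD b A B
  dist_self := DD_self b
  dist_comm := DD_comm b
  dist_triangle := DD_triangle b

theorem dist_PMb {b : Bool} (A B : PMb b) : dist A B = DD b A B := rfl

end Pool.Agent.P.MP_de432b_gt.LC
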