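import Pool.Agent.P.MP_de432b_gt.LC.A3

namespace Pool.Agent.P.MP_de432b_gt.LC

open MeasureTheory Set Filter Topology
open scoped unitInterval RealInnerProductSpace

variable {Ω : Type} [MeasurableSpace Ω] {P : Measure Ω} [IsProbabilityMeasure P]

theorem C5_lt {η : ℝ} (h : η ∈ Icc (0 : ℝ) 1) :
    (volume : Measure I) {s | (s : ℝ) < η} = ENNReal.ofReal η :=
  unitInterval.volume_Iio (x := ⟨η, h⟩)

theorem C5_ge {η : ℝ} (h : η ∈ Icc (0 : ℝ) 1) :
    (volume : Measure I) {s | (s : ℝ) < η}ᶜ = ENNReal.ofReal (1 - η) := by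
  have e : {s : I | (s : ℝ) < η}ᶜ = Ici (⟨η, h⟩ : I) := by
    ext s
    simp only [mem_compl_iff, mem_ofPred_eq, not_lt, mem_Ici]
    rfl
  rw [e]
  exact unitInterval.volume_Ici (x := ⟨η, h⟩)

theorem C5_meas (η : ℝ) : MeasurableSet {s : I | (s : ℝ) < η} :=
  measurableSet_lt measurable_subtype_coe measurable_const

theorem C5_meas2 {c : Ω → ℝ} (hc : Measurable c) :
    MeasurableSet {x : Ω × I | (x.2 : ℝ) < c x.1} :=
  measurableSet_lt (measurable_subtype_coe.comp measurable_snd) (hc.comp measurable_fst)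

open Classical in
theorem C5_lint {η : ℝ} (h : η ∈ Icc (0 : ℝ) 1) (a b : ENNReal) :
    ∫⁻ s : I, (if (s : ℝ) < η then a else b) = ENNReal.ofReal η * a + ENNReal.ofReal (1 - η) * b := by
  have e := lintegral_piecewise (μ := (volume : Measure I)) (C5_meas η) (fun _ => a) (fun _ => b)
  rw [setLIntegral_const, setLIntegral_const, C5_lt h, C5_ge h, mul_comm a, mul_comm b] at e
  rw [← e]
  refine lintegral_congr fun s => ?_
  simp [Set.piecewise]

open Classical in
theorem C5_int {η : ℝ} (h : η ∈ Icc (0 : ℝ) 1) (a b : ℝ) :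
    ∫ s : I, (if (s : ℝ) < η then a else b) = η * a + (1 - η) * b := by
  have e := integral_piecewise (μ := (volume : Measure I)) (C5_meas η) (f := fun _ => a)
    (g := fun _ => b) (integrable_const a).integrableOn (integrable_const b).integrableOn
  rw [setIntegral_const, setIntegral_const, measureReal_def, measureReal_def, C5_lt h, C5_ge h,
    ENNReal.toReal_ofReal h.1, ENNReal.toReal_ofReal (sub_nonneg.mpr h.2), smul_eq_mul,
    smul_eq_mul] at e
  rw [← e]
  refine integral_congr_ae (Eventually.of_forall fun s => ?_)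
  simp [Set.piecewise]

theorem C5_between (η η' : ℝ) :
    (volume : Measure I) {s | ¬ ((s : ℝ) < η ↔ (s : ℝ) < η')} ≤ ENNReal.ofReal |η - η'| := by
  rw [unitInterval.volume_apply, ← max_sub_min_eq_abs', ← Real.volume_Ico]
  refine measure_mono ?_
  rintro _ ⟨s, hs, rfl⟩
  simp only [mem_ofPred_eq] at hs
  constructor
  · by_contra h
    rw [not_le, lt_min_iff] at h
    exact hs (iff_of_true h.1 h.2)
  · by_contra h
    rw [not_lt, max_le_iff] at h
    exact hs (iff_of_false (not_lt.mpr h.1) (not_lt.mpr h.2))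

theorem vol_lt {η : ℝ} (h0 : 0 ≤ η) (h1 : η ≤ 1) :
    (volume : Measure I).real {s | (s : ℝ) < η} = η := by
  rw [measureReal_def, C5_lt ⟨h0, h1⟩, ENNReal.toReal_ofReal h0]

theorem vol_between (η η' : ℝ) :
    (volume : Measure I).real {s | ¬ ((s : ℝ) < η ↔ (s : ℝ) < η')} ≤ |η - η'| :=
  ENNReal.toReal_le_of_le_ofReal (abs_nonneg _) (C5_between η η')

theorem prod_between {c c' : Ω → ℝ} (hc : Measurable c) (hc' : Measurable c')
    (hi : Integrable (fun p => |c p - c' p|) P) :
    (P.prod (volume : Measure I)).real {x | ¬ ((x.2 : ℝ) < c x.1 ↔ (x.2 : ℝ) < c' x.1)} ≤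
      ∫ p, |c p - c' p| ∂P := by
  have hm : MeasurableSet {x : Ω × I | ¬ ((x.2 : ℝ) < c x.1 ↔ (x.2 : ℝ) < c' x.1)} :=
    ((C5_meas2 hc).iff (C5_meas2 hc')).compl
  refine ENNReal.toReal_le_of_le_ofReal (integral_nonneg fun p => abs_nonneg _) ?_
  rw [Measure.prod_apply hm,
    ofReal_integral_eq_lintegral_ofReal hi (Eventually.of_forall fun p => abs_nonneg _)]
  exact lintegral_mono fun p => C5_between (c p) (c' p)

open Classical in
theorem integral_ite_lt {c u v : Ω → ℝ} (hc : Measurable c) (bc : ∀ p, c p ∈ Icc (0 : ℝ) 1)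
    (hu : Integrable u P) (hv : Integrable v P) :
    ∫ x, (if (x.2 : ℝ) < c x.1 then u x.1 else v x.1) ∂(P.prod (volume : Measure I)) =
      ∫ p, (c p * u p + (1 - c p) * v p) ∂P := by
  have hi : Integrable (fun x : Ω × I => if (x.2 : ℝ) < c x.1 then u x.1 else v x.1)
      (P.prod (volume : Measure I)) := by
    have := Integrable.piecewise (C5_meas2 hc) (hu.comp_fst (volume : Measure I)).integrableOn
      (hv.comp_fst (volume : Measure I)).integrableOn
    refine this.congr (Eventually.of_forall fun x => ?_)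
    simp [Set.piecewise]
  rw [integral_prod _ hi]
  exact integral_congr_ae (Eventually.of_forall fun p => C5_int (bc p) (u p) (v p))

open Classical in
theorem map_fst_withDensity_ite {c u v : Ω → ℝ} (hc : Measurable c)
    (bc : ∀ p, c p ∈ Icc (0 : ℝ) 1) (hu : Measurable u) (hv : Measurable v) (u0 : ∀ p, 0 ≤ u p)
    (v0 : ∀ p, 0 ≤ v p) :
    ((P.prod (volume : Measure I)).withDensity fun x =>
        ENNReal.ofReal (if (x.2 : ℝ) < c x.1 then u x.1 else v x.1)).map Prod.fst =
      P.withDensity fun p => ENNReal.ofReal (c p * u p + (1 - c p) * v p) := by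
  ext s hs
  have hm : Measurable fun x : Ω × I =>
      ENNReal.ofReal (if (x.2 : ℝ) < c x.1 then u x.1 else v x.1) :=
    (Measurable.ite (C5_meas2 hc) (hu.comp measurable_fst) (hv.comp measurable_fst)).ennreal_ofReal
  rw [Measure.map_apply measurable_fst hs, withDensity_apply _ (measurable_fst hs),
    withDensity_apply _ hs, ← prod_univ, ← Measure.restrict_prod_eq_prod_univ,
    lintegral_prod _ hm.aemeasurable]
  refine lintegral_congr fun p => ?_
  simp only [apply_ite ENNReal.ofReal]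
  have h1 := sub_nonneg.mpr (bc p).2
  rw [C5_lint (bc p), ENNReal.ofReal_add (mul_nonneg (bc p).1 (u0 p)) (mul_nonneg h1 (v0 p)),
    ENNReal.ofReal_mul (bc p).1, ENNReal.ofReal_mul h1]

open Classical in
theorem map_ite_lt {Y : Type} [MeasurableSpace Y] {f g : Ω → Y} (hf : Measurable f)
    (hg : Measurable g) (t : I) :
    (P.prod (volume : Measure I)).map (fun x => if (x.2 : ℝ) < t then g x.1 else f x.1) =
      mixM t (P.map f) (P.map g) := by
  have hm : Measurable fun x : Ω × I => if (x.2 : ℝ) < t then g x.1 else f x.1 :=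
    Measurable.ite (C5_meas2 (c := fun _ => (t : ℝ)) measurable_const) (hg.comp measurable_fst)
      (hf.comp measurable_fst)
  refine Measure.ext_of_lintegral _ fun φ hφ => ?_
  have m1 : Measurable fun x : Ω × I => φ (if (x.2 : ℝ) < t then g x.1 else f x.1) := hφ.comp hm
  have m2 : Measurable fun x => φ (g x) := hφ.comp hg
  have m3 : Measurable fun x => φ (f x) := hφ.comp hf
  rw [lintegral_map hφ hm, lintegral_prod _ m1.aemeasurable, mixM, lintegral_add_measure,
    lintegral_smul_measure, lintegral_smul_measure, lintegral_map hφ hf, lintegral_map hφ hg]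
  simp only [apply_ite φ, C5_lint t.2]
  rw [lintegral_add_left (m2.const_mul _), lintegral_const_mul _ m2, lintegral_const_mul _ m3,
    add_comm]
  rfl

theorem mixM_map {Y : Type} [MeasurableSpace Y] {f : Ω → Y} (hf : Measurable f) (t : I)
    (μ ν : Measure Ω) : (mixM t μ ν).map f = mixM t (μ.map f) (ν.map f) := by
  rw [mixM, mixM, Measure.map_add _ _ hf, Measure.map_smul, Measure.map_smul]

theorem mixM_zero (μ ν : Measure Ω) : mixM 0 μ ν = μ := by simp [mixM]

theorem mixM_one (μ ν : Measure Ω) : mixM 1 μ ν = ν := by simp [mixM]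

theorem mixM_mixM (t u : I) (μ ν : Measure Ω) :
    mixM u (mixM t μ ν) ν = mixM (σ (σ t * σ u)) μ ν := by
  have hu := sub_nonneg.mpr u.2.2
  simp only [mixM, smul_add, smul_smul, add_assoc, ← add_smul, unitInterval.coe_symm_eq,
    Set.Icc.coe_mul]
  rw [← ENNReal.ofReal_mul hu, ← ENNReal.ofReal_mul hu,
    ← ENNReal.ofReal_add (mul_nonneg hu t.2.1) u.2.1]
  congr 3 <;> ring

theorem integral_mixM {F : Type} [NormedAddCommGroup F] [NormedSpace ℝ F] (t : I)
    {μ ν : Measure Ω} {f : Ω → F} (hμ : Integrable f μ) (hν : Integrable f ν) :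
    ∫ p, f p ∂(mixM t μ ν) = (1 - t : ℝ) • ∫ p, f p ∂μ + (t : ℝ) • ∫ p, f p ∂ν := by
  rw [mixM, integral_add_measure (hμ.smul_measure ENNReal.ofReal_ne_top)
    (hν.smul_measure ENNReal.ofReal_ne_top), integral_smul_measure, integral_smul_measure,
    ENNReal.toReal_ofReal (sub_nonneg.mpr t.2.2), ENNReal.toReal_ofReal t.2.1]

theorem ae_mixM (t : I) {μ ν : Measure Ω} {p : Ω → Prop} (hμ : ∀ᵐ x ∂μ, p x) (hν : ∀ᵐ x ∂ν, p x) :
    ∀ᵐ x ∂(mixM t μ ν), p x := by
  rw [mixM, ae_add_measure_iff]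
  exact ⟨Measure.ae_smul_measure hμ _, Measure.ae_smul_measure hν _⟩

theorem C5_cancel (μ : Measure Ω) [IsFiniteMeasure μ] : ((μ univ)⁻¹ * μ univ) • μ = μ := by
  by_cases h : μ univ = 0
  · rw [Measure.measure_univ_eq_zero.mp h, smul_zero]
  · rw [ENNReal.inv_mul_cancel h (measure_ne_top _ _), one_smul]

theorem C5_couple [StandardBorelSpace Ω] (μ₀ μ₁ μ₂ : Measure Ω) [IsFiniteMeasure μ₁]
    [IsFiniteMeasure μ₂] (h : μ₁ univ = μ₂ univ) :
    ∃ π : Measure (Ω × Ω), π.map Prod.fst = μ₀ + μ₁ ∧ π.map Prod.snd = μ₀ + μ₂ ∧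
      π {x | x.1 ≠ x.2} ≤ μ₁ univ := by
  have hd : Measurable fun p : Ω => (p, p) := measurable_id.prodMk measurable_id
  refine ⟨μ₀.map (fun p => (p, p)) + (μ₁ univ)⁻¹ • μ₁.prod μ₂, ?_, ?_, ?_⟩
  · rw [Measure.map_add _ _ measurable_fst, Measure.map_map measurable_fst hd, Measure.map_smul,
      Measure.map_fst_prod, smul_smul, ← h, C5_cancel]
    congr 1
    exact Measure.map_id
  · rw [Measure.map_add _ _ measurable_snd, Measure.map_map measurable_snd hd, Measure.map_smul,
      Measure.map_snd_prod, smul_smul, h, C5_cancel]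
    congr 1
    exact Measure.map_id
  · have hm : MeasurableSet {x : Ω × Ω | x.1 ≠ x.2} :=
      (measurableSet_eq_fun measurable_fst measurable_snd).compl
    have e : (fun p : Ω => (p, p)) ⁻¹' {x : Ω × Ω | x.1 ≠ x.2} = ∅ := by
      ext p; simp
    rw [Measure.add_apply, Measure.map_apply hd hm, e, measure_empty, zero_add, Measure.smul_apply,
      smul_eq_mul]
    calc (μ₁ univ)⁻¹ * μ₁.prod μ₂ {x | x.1 ≠ x.2}
        ≤ (μ₁ univ)⁻¹ * μ₁.prod μ₂ (univ ×ˢ univ) := by
          gcongr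
          intro x _
          simp
      _ = ((μ₁ univ)⁻¹ * μ₁ univ) * μ₁ univ := by rw [Measure.prod_prod, ← h, mul_assoc]
      _ ≤ 1 * μ₁ univ := by
          gcongr
          exact ENNReal.inv_mul_le_one _
      _ = μ₁ univ := one_mul _

omit [IsProbabilityMeasure P] in
theorem C5_prob {ρ : Ω → ℝ} (h0 : ∀ p, 0 ≤ ρ p) (hi : Integrable ρ P) (h1 : ∫ p, ρ p ∂P = 1) :
    IsProbabilityMeasure (P.withDensity fun p => ENNReal.ofReal (ρ p)) := by
  refine ⟨?_⟩
  rw [withDensity_apply _ MeasurableSet.univ, Measure.restrict_univ,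
    ← ofReal_integral_eq_lintegral_ofReal hi (Eventually.of_forall h0), h1, ENNReal.ofReal_one]

omit [IsProbabilityMeasure P] in
theorem C5_split {ρ k : Ω → ℝ} (hk : Measurable k) (h0 : ∀ p, 0 ≤ k p) (h : ∀ p, k p ≤ ρ p) :
    (P.withDensity fun p => ENNReal.ofReal (k p)) +
      (P.withDensity fun p => ENNReal.ofReal (ρ p - k p)) =
      P.withDensity fun p => ENNReal.ofReal (ρ p) := by
  rw [← withDensity_add_left hk.ennreal_ofReal]
  congr 1
  funext p
  rw [Pi.add_apply, ← ENNReal.ofReal_add (h0 p) (sub_nonneg.mpr (h p)), add_sub_cancel]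

/-- A coupling of two densities that is concentrated near the diagonal. -/
theorem tv_coupling [StandardBorelSpace Ω] {ρ ρ' : Ω → ℝ} (hρ : Measurable ρ)
    (hρ' : Measurable ρ') (h0 : ∀ p, 0 ≤ ρ p) (h0' : ∀ p, 0 ≤ ρ' p) (hi : Integrable ρ P)
    (hi' : Integrable ρ' P) (h1 : ∫ p, ρ p ∂P = 1) (h1' : ∫ p, ρ' p ∂P = 1) :
    ∃ π : Measure (Ω × Ω), IsProbabilityMeasure π ∧
      π.map Prod.fst = P.withDensity (fun p => ENNReal.ofReal (ρ p)) ∧
      π.map Prod.snd = P.withDensity (fun p => ENNReal.ofReal (ρ' p)) ∧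
      π.real {x | x.1 ≠ x.2} ≤ ∫ p, |ρ p - ρ' p| ∂P := by
  have hk : Measurable fun p => min (ρ p) (ρ' p) := hρ.min hρ'
  have k0 : ∀ p, 0 ≤ min (ρ p) (ρ' p) := fun p => le_min (h0 p) (h0' p)
  have e1 := C5_split (P := P) hk k0 fun p => min_le_left (ρ p) (ρ' p)
  have e2 := C5_split (P := P) hk k0 fun p => min_le_right (ρ p) (ρ' p)
  have p1 := C5_prob h0 hi h1
  have p2 := C5_prob h0' hi' h1'
  have hb : (P.withDensity fun p => ENNReal.ofReal (ρ p - min (ρ p) (ρ' p))) univ ≤
      ENNReal.ofReal (∫ p, |ρ p - ρ' p| ∂P) := by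
    rw [withDensity_apply _ MeasurableSet.univ, Measure.restrict_univ,
      ofReal_integral_eq_lintegral_ofReal (f := fun p => |ρ p - ρ' p|) (hi.sub hi').abs
        (Eventually.of_forall fun p => abs_nonneg _)]
    refine lintegral_mono fun p => ENNReal.ofReal_le_ofReal ?_
    rcases le_total (ρ p) (ρ' p) with h | h
    · rw [min_eq_left h, sub_self]; exact abs_nonneg _
    · rw [min_eq_right h]; exact le_abs_self _
  generalize (P.withDensity fun p => ENNReal.ofReal (min (ρ p) (ρ' p))) = μ₀ at e1 e2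
  generalize (P.withDensity fun p => ENNReal.ofReal (ρ p - min (ρ p) (ρ' p))) = μ₁ at e1 hb
  generalize (P.withDensity fun p => ENNReal.ofReal (ρ' p - min (ρ p) (ρ' p))) = μ₂ at e2
  rw [← e1] at p1 ⊢
  rw [← e2] at p2 ⊢
  have f0 : IsFiniteMeasure μ₀ := isFiniteMeasure_of_le (μ₀ + μ₁) (Measure.le_add_right le_rfl)
  have f1 : IsFiniteMeasure μ₁ := isFiniteMeasure_of_le (μ₀ + μ₁) (Measure.le_add_left le_rfl)
  have f2 : IsFiniteMeasure μ₂ := isFiniteMeasure_of_le (μ₀ + μ₂) (Measure.le_add_left le_rfl)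
  have hu : μ₁ univ = μ₂ univ := by
    refine (ENNReal.add_right_inj (measure_ne_top μ₀ univ)).mp ?_
    rw [← Measure.add_apply, ← Measure.add_apply, measure_univ, measure_univ]
  obtain ⟨π, a1, a2, a3⟩ := C5_couple μ₀ μ₁ μ₂ hu
  refine ⟨π, ⟨?_⟩, a1, a2, ?_⟩
  · rw [← preimage_univ (f := (Prod.fst : Ω × Ω → Ω)),
      ← Measure.map_apply measurable_fst MeasurableSet.univ, a1, measure_univ]
  · exact ENNReal.toReal_le_of_le_ofReal (integral_nonneg fun p => abs_nonneg _) (a3.trans hb)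

end Pool.Agent.P.MP_de432b_gt.LC
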