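import Pool.Agent.P.MP_de432b_gt.LC.C2
import Pool.Agent.P.MP_de432b_gt.LC.C3
import Pool.Agent.P.MP_de432b_gt.LC.C5

namespace Pool.Agent.P.MP_de432b_gt.LC

open MeasureTheory Set Filter Topology
open scoped unitInterval RealInnerProductSpace

variable {b : Bool}

theorem C6_withD_congr (A : PM) {d d' : A.Ω → A.Ω → ℝ} (h : IsPM d) (h' : IsPM d')
    (e : d = d') : A.withD d h = A.withD d' h' := by
  subst e
  rfl

theorem PM.tight (A : PM) {δ : ℝ} (hδ : 0 < δ) : ∃ (R : ℝ) (S : Set A.Ω), 0 < R ∧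
    MeasurableSet S ∧ A.P.real Sᶜ ≤ δ ∧ ∀ p ∈ S, ∀ q ∈ S, A.d p q ≤ R := by
  obtain ⟨i, hi, hc⟩ := A.hd.sep 1 one_pos
  obtain ⟨p0⟩ : Nonempty A.Ω := nonempty_of_isProbabilityMeasure A.P
  have hR : ∀ k : ℕ, ∃ r : ℝ, 0 ≤ r ∧ ∀ p, i p = k → A.d p p0 ≤ r := by
    intro k
    by_cases hk : ∃ q, i q = k
    · obtain ⟨q, hq⟩ := hk
      refine ⟨1 + A.d q p0, by linarith [A.hd.nonneg q p0], fun p hp => ?_⟩
      linarith [A.hd.tri p q p0, hc p q (hp.trans hq.symm)]
    · exact ⟨0, le_rfl, fun p hp => absurd ⟨p, hp⟩ hk⟩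
  choose r hr0 hr using hR
  have hm : ∀ n : ℕ, MeasurableSet {p : A.Ω | n ≤ i p} := fun n =>
    measurableSet_le measurable_const hi
  have hanti : Antitone fun n : ℕ => {p : A.Ω | n ≤ i p} := fun m n hmn p hp =>
    le_trans hmn hp
  have hlim := tendsto_measure_iInter_atTop (μ := A.P) (fun n => (hm n).nullMeasurableSet) hanti
    ⟨0, measure_ne_top _ _⟩
  have hemp : (⋂ n : ℕ, {p : A.Ω | n ≤ i p}) = ∅ := by
    ext p
    simp only [mem_iInter, Set.mem_ofPred_eq, mem_empty_iff_false, iff_false, not_forall, not_le]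
    exact ⟨i p + 1, Nat.lt_succ_self _⟩
  rw [hemp, measure_empty] at hlim
  have hev := hlim.eventually (gt_mem_nhds (ENNReal.ofReal_pos.mpr hδ))
  obtain ⟨n, hn⟩ := hev.exists
  have hs : ∀ p, i p < n → A.d p p0 ≤ ∑ k ∈ Finset.range n, r k := fun p hp =>
    (hr _ p rfl).trans (Finset.single_le_sum (fun k _ => hr0 k) (Finset.mem_range.mpr hp))
  have h0 : 0 ≤ ∑ k ∈ Finset.range n, r k := Finset.sum_nonneg fun k _ => hr0 k
  refine ⟨1 + 2 * ∑ k ∈ Finset.range n, r k, {p : A.Ω | n ≤ i p}ᶜ, by linarith, (hm n).compl, ?_,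
    fun p hp q hq => ?_⟩
  · rw [compl_compl]
    exact ENNReal.toReal_le_of_le_ofReal hδ.le (le_of_lt hn)
  · have h1 := hs p (not_le.mp hp)
    have h2 := hs q (not_le.mp hq)
    linarith [A.hd.tri p p0 q, A.hd.symm p0 q]

theorem PM.trunc_trunc (A : PM) {L L' : ℝ} (h : L ≤ L') : (A.trunc L').trunc L = A.trunc L := by
  refine C6_withD_congr A _ _ (funext fun p => funext fun q => ?_)
  show min (min (A.d p q) (max L' 0)) (max L 0) = min (A.d p q) (max L 0)
  rw [min_assoc, min_eq_right (max_le_max_right 0 h)]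

theorem PM.trunc_eq (A : PM) {L : ℝ} (h : ∀ p q, A.d p q ≤ L) : A.trunc L = A :=
  C6_withD_congr A _ A.hd
    (funext fun p => funext fun q => min_eq_left ((h p q).trans (le_max_left _ _)))

theorem C6_trunc_same (A B : PM) (L : ℝ) : DD b (A.trunc L) (B.trunc L) ≤ DD b A B := by
  refine le_of_forall_pos_le_add fun ε hε => ?_
  obtain ⟨s, hs⟩ := exists_span (b := b) (A := A) (B := B) (lt_add_of_pos_right _ hε)
  let s' : Span (A.trunc L) (B.trunc L) :=
    { Ω := s.Ω, Q := s.Q, l := s.l, r := s.r, hl := s.hl, hr := s.hr }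
  refine DD_le (s := s') ?_
  exact Close.trunc (A.hd.pull s.hl.measurable) (B.hd.pull s.hr.measurable) hs (le_max_right L 0)

theorem C6_trunc_level (B : PM) (L L' : ℝ) : DD b (B.trunc L) (B.trunc L') ≤ |L - L'| := by
  refine DD_map_le (A := B.trunc L) (B := B.trunc L') (τ := id) (MeasurePreserving.id _)
    ⟨univ, MeasurableSet.univ, by simp, fun p _ q _ => ?_⟩
  show |min (B.d p q) (max L 0) - min (B.d p q) (max L' 0)| ≤ |L - L'|
  refine (abs_min_sub_min_le_max _ _ _ _).trans (max_le (by simp) ?_)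
  exact abs_max_sub_max_le_abs _ _ _

theorem DD_trunc_trunc (A B : PM) (L L' : ℝ) :
    DD b (A.trunc L) (B.trunc L') ≤ DD b A B + |L - L'| :=
  (DD_triangle b _ (B.trunc L) _).trans
    (add_le_add (C6_trunc_same A B L) (C6_trunc_level B L L'))

theorem DD_trunc_tail (A : PM) {δ : ℝ} (hδ : 0 < δ) :
    ∃ R : ℝ, 0 < R ∧ ∀ L, R ≤ L → DD b A (A.trunc L) ≤ δ := by
  obtain ⟨R, S, hR, hS, h1, h2⟩ := A.tight hδ
  refine ⟨R, hR, fun L hL => ?_⟩
  refine DD_map_le (A := A) (B := A.trunc L) (τ := id) (MeasurePreserving.id _)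
    ⟨S, hS, h1, fun p hp q hq => ?_⟩
  show |A.d p q - min (A.d p q) (max L 0)| ≤ δ
  rw [min_eq_left (((h2 p hp q hq).trans hL).trans (le_max_left _ _)), sub_self, abs_zero]
  exact hδ.le

theorem DD_of_trunc (z Z : PM) {L : ℝ} (hL : 8 ≤ L) (hZ : ∀ p q, Z.d p q ≤ L / 4)
    (h : DD b (z.trunc L) Z < 1 / 2) : DD b z Z ≤ DD b (z.trunc L) Z := by
  by_contra hlt
  obtain ⟨ε, h1, h2⟩ := exists_between (lt_min (not_le.mp hlt) h)
  obtain ⟨s, hs⟩ := exists_span h1
  let s' : Span z Z := { Ω := s.Ω, Q := s.Q, l := s.l, r := s.r, hl := s.hl, hr := s.hr }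
  have hm : max L 0 = L := max_eq_left (by linarith)
  have hs' : Close b s.Q (fun p q => min (z.d (s.l p) (s.l q)) (max L 0))
      (fun p q => Z.d (s.r p) (s.r q)) ε := hs
  rw [hm] at hs'
  have h3 : DD b z Z ≤ ε := DD_le (s := s')
    (Close.of_trunc (z.hd.pull s.hl.measurable) (Z.hd.pull s.hr.measurable) hL
      (fun p q => hZ _ _) (h2.trans_le (min_le_right _ _)) hs')
  exact absurd (h2.trans_le (min_le_left _ _)) (not_lt.mpr h3)

theorem C6_ball_same (A B : PM) (D η : ℝ) : DD b (A.ball D η) (B.ball D η) ≤ DD b A B := by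
  refine le_of_forall_pos_le_add fun ε hε => ?_
  obtain ⟨s, hs⟩ := exists_span (b := b) (A := A) (B := B) (lt_add_of_pos_right _ hε)
  let s' : Span (A.ball D η) (B.ball D η) :=
    { Ω := s.Ω × I, Q := s.Q.prod volume, l := Prod.map s.l id, r := Prod.map s.r id
      hl := s.hl.prod (MeasurePreserving.id _), hr := s.hr.prod (MeasurePreserving.id _) }
  refine DD_le (s := s') ?_
  have hA := A.hd.pull s.hl.measurable
  have hB := B.hd.pull s.hr.measurable
  have h1 := Close.pull hA hB (Q' := s.Q.prod (volume : Measure I)) measurePreserving_fst hs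
  exact Close.cone (hA.pull measurable_fst) (hB.pull measurable_fst) h1
    (measurableSet_lt_snd (c := fun _ => η) measurable_const) D

theorem C6_prod_between (B : PM) (η η' : ℝ) :
    (B.P.prod (volume : Measure I)).real {x | ¬ ((x.2 : ℝ) < η ↔ (x.2 : ℝ) < η')} ≤ |η - η'| := by
  have := prod_between (P := B.P) (c := fun _ => η) (c' := fun _ => η') measurable_const
    measurable_const (integrable_const _)
  simpa using this

theorem C6_ball_level (B : PM) (D η η' : ℝ) :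
    DD b (B.ball D η) (B.ball D η') ≤ |η - η'| := by
  have m1 : MeasurableSet {x : B.Ω × I | (x.2 : ℝ) < η} :=
    measurableSet_lt_snd (c := fun _ => η) measurable_const
  have m2 : MeasurableSet {x : B.Ω × I | (x.2 : ℝ) < η'} :=
    measurableSet_lt_snd (c := fun _ => η') measurable_const
  refine DD_map_le (A := B.ball D η) (B := B.ball D η') (τ := id) (MeasurePreserving.id _)
    ⟨{x : B.Ω × I | (x.2 : ℝ) < η ↔ (x.2 : ℝ) < η'}, m1.iff m2, C6_prod_between B η η',
      fun p hp q hq => ?_⟩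
  have hp' : (p.2 : ℝ) < η ↔ (p.2 : ℝ) < η' := hp
  have hq' : (q.2 : ℝ) < η ↔ (q.2 : ℝ) < η' := hq
  have e : (B.ball D η).d p q = (B.ball D η').d p q := by
    by_cases h1 : (p.2 : ℝ) < η' <;> by_cases h2 : (q.2 : ℝ) < η' <;>
      simp [coneD, glueD, hp', hq', h1, h2]
  show |(B.ball D η).d p q - (B.ball D η').d p q| ≤ |η - η'|
  rw [e, sub_self, abs_zero]
  exact abs_nonneg _

theorem DD_ball_ball (A B : PM) (D η η' : ℝ) :
    DD b (A.ball D η) (B.ball D η') ≤ DD b A B + |η - η'| :=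
  (DD_triangle b _ (B.ball D η) _).trans
    (add_le_add (C6_ball_same A B D η) (C6_ball_level B D η η'))

theorem DD_ball_trunc (A : PM) {D η : ℝ} (hD : 0 ≤ D) (hη : 0 ≤ η) :
    DD b (A.ball D η) (A.trunc (2 * D)) ≤ η := by
  have m1 : MeasurableSet {x : A.Ω × I | (x.2 : ℝ) < η} :=
    measurableSet_lt_snd (c := fun _ => η) measurable_const
  refine DD_map_le (A := A.ball D η) (B := A.trunc (2 * D)) (τ := Prod.fst) measurePreserving_fst
    ⟨{x : A.Ω × I | (x.2 : ℝ) < η}ᶜ, m1.compl, ?_, fun p hp q hq => ?_⟩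
  · have h1 := C6_prod_between A η 0
    rw [sub_zero, abs_of_nonneg hη] at h1
    refine le_trans (le_of_eq ?_) h1
    rw [compl_compl]
    congr 1
    ext x
    have : ¬ ((x.2 : ℝ) < 0) := not_lt.mpr x.2.2.1
    simp [this]
  · have hp' : ¬ ((p.2 : ℝ) < η) := hp
    have hq' : ¬ ((q.2 : ℝ) < η) := hq
    have e : (A.ball D η).d p q = min (A.d p.1 q.1) (max (2 * D) 0) := by
      rw [max_eq_left (by linarith : (0 : ℝ) ≤ 2 * D)]
      simp [coneD, glueD, hp', hq', max_eq_left hD]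
    show |(A.ball D η).d p q - min (A.d p.1 q.1) (max (2 * D) 0)| ≤ η
    rw [e, sub_self, abs_zero]
    exact hη

theorem ball_d_le (A : PM) {D η R : ℝ} (hD : 0 ≤ D) (hR : D ≤ R) (h : ∀ p q, A.d p q ≤ R)
    (p q : (A.ball D η).Ω) : (A.ball D η).d p q ≤ R := by
  show coneD {x : A.Ω × I | (x.2 : ℝ) < η} D (fun x y => A.d x.1 y.1) p q ≤ R
  unfold coneD glueD
  rw [max_eq_left hD]
  split_ifs
  · exact hD.trans hR
  · exact hR
  · exact hR
  · exact (min_le_left _ _).trans (h _ _)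

theorem DD_coupling (A : PM) (μ ν : Measure A.Ω) [IsProbabilityMeasure μ] [IsProbabilityMeasure ν]
    (π : Measure (A.Ω × A.Ω)) [IsProbabilityMeasure π] (h1 : π.map Prod.fst = μ)
    (h2 : π.map Prod.snd = ν) {η : ℝ} (h : π.real {x | x.1 ≠ x.2} ≤ η) :
    DD b (A.withP μ) (A.withP ν) ≤ η := by
  let s : Span (A.withP μ) (A.withP ν) :=
    { Ω := A.Ω × A.Ω, Q := π, l := Prod.fst, r := Prod.snd
      hl := ⟨measurable_fst, h1⟩, hr := ⟨measurable_snd, h2⟩ }
  have hη : 0 ≤ η := le_trans measureReal_nonneg h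
  have hm : MeasurableSet {x : A.Ω × A.Ω | x.1 = x.2} := by
    let _ := upgradeStandardBorel A.Ω
    exact measurableSet_eq_fun measurable_fst measurable_snd
  refine DD_le (s := s) (Span.Close.of_box ?_)
  refine ⟨{x : A.Ω × A.Ω | x.1 = x.2}, hm, h, fun p hp q hq => ?_⟩
  have hp' : p.1 = p.2 := hp
  have hq' : q.1 = q.2 := hq
  show |A.d p.1 q.1 - A.d p.2 q.2| ≤ η
  rw [hp', hq', sub_self, abs_zero]
  exact hη

open Classical in
/-- The truncation path is jointly continuous. -/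
theorem trunc_path (A : PM) {L : ℝ} (hL : 0 < L) (t : I) {δ : ℝ} (hδ : 0 < δ) :
    ∃ η : ℝ, 0 < η ∧ ∀ (A' : PM) (t' : I), DD b A A' < η → |(t : ℝ) - t'| < η →
      DD b (if t = 0 then A else A.trunc (L / t)) (if t' = 0 then A' else A'.trunc (L / t')) ≤ δ := by
  by_cases ht : t = 0
  · obtain ⟨R, hR, hT⟩ := DD_trunc_tail (b := b) A (half_pos hδ)
    refine ⟨min (δ / 2) (L / R), lt_min (half_pos hδ) (div_pos hL hR), fun A' t' h1 h2 => ?_⟩
    have h1' : DD b A A' < δ / 2 := h1.trans_le (min_le_left _ _)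
    rw [if_pos ht]
    split_ifs with ht'
    · linarith
    · have hpos : (0 : ℝ) < t' := lt_of_le_of_ne t'.2.1 fun e => ht' (Subtype.ext e.symm)
      have h3 : (t' : ℝ) < L / R := by
        have h4 := h2.trans_le (min_le_right _ _)
        rw [ht] at h4
        simpa [abs_of_pos hpos] using h4
      have h5 : R ≤ L / t' := by
        rw [le_div_iff₀ hpos]
        rw [lt_div_iff₀ hR] at h3
        linarith
      have h6 := DD_triangle b A (A.trunc (L / t')) (A'.trunc (L / t'))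
      have h7 := C6_trunc_same (b := b) A A' (L / t')
      linarith [hT _ h5]
  · have hpos : (0 : ℝ) < t := lt_of_le_of_ne t.2.1 fun e => ht (Subtype.ext e.symm)
    have hc : ContinuousAt (fun s : ℝ => L / s) t :=
      continuousAt_const.div continuousAt_id hpos.ne'
    obtain ⟨η, hη, hh⟩ := Metric.continuousAt_iff.mp hc (δ / 2) (half_pos hδ)
    refine ⟨min (δ / 2) (min η t), lt_min (half_pos hδ) (lt_min hη hpos), fun A' t' h1 h2 => ?_⟩
    have h1' : DD b A A' < δ / 2 := h1.trans_le (min_le_left _ _)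
    have h3 : |(t : ℝ) - t'| < η := h2.trans_le ((min_le_right _ _).trans (min_le_left _ _))
    have h4 : |(t : ℝ) - t'| < t := h2.trans_le ((min_le_right _ _).trans (min_le_right _ _))
    have ht' : t' ≠ 0 := by
      intro e
      rw [e] at h4
      simp [abs_of_pos hpos] at h4
    rw [if_neg ht, if_neg ht']
    have h5 := hh (x := (t' : ℝ)) (by rw [Real.dist_eq, abs_sub_comm]; exact h3)
    rw [Real.dist_eq, abs_sub_comm] at h5
    linarith [DD_trunc_trunc (b := b) A A' (L / t) (L / t')]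

end Pool.Agent.P.MP_de432b_gt.LC
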