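import Pool.Agent.P.MP_de432b_gt.LC.C6

namespace Pool.Agent.P.MP_de432b_gt.LC

open MeasureTheory Set Filter Topology
open scoped unitInterval RealInnerProductSpace

set_option linter.unusedSectionVars false
set_option linter.unusedVariables false

section
variable {Ω Ω' : Type} [MeasurableSpace Ω] [MeasurableSpace Ω'] {P : Measure Ω}
  [IsProbabilityMeasure P] {c : Ω → ℝ}

theorem C7_int (hc : Measurable c) (bc : ∀ p, c p ∈ Icc (0 : ℝ) 1) : Integrable c P :=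
  Integrable.of_bound hc.aestronglyMeasurable 1 (ae_of_all _ fun p => by
    rw [Real.norm_of_nonneg (bc p).1]; exact (bc p).2)

theorem C7_meas (hc : Measurable c) (x : ℝ) : Measurable fun p => (1 - c p) / (1 - x) :=
  (measurable_const.sub hc).div_const _

theorem C7_nonneg (bc : ∀ p, c p ∈ Icc (0 : ℝ) 1) {x : ℝ} (hx : x < 1) (p : Ω) :
    0 ≤ (1 - c p) / (1 - x) :=
  div_nonneg (sub_nonneg.2 (bc p).2) (sub_nonneg.2 hx.le)

theorem C7_rint (hc : Measurable c) (bc : ∀ p, c p ∈ Icc (0 : ℝ) 1) (x : ℝ) :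
    Integrable (fun p => (1 - c p) / (1 - x)) P :=
  ((integrable_const 1).sub (C7_int hc bc)).div_const _

theorem C7_one (hc : Measurable c) (bc : ∀ p, c p ∈ Icc (0 : ℝ) 1) (hx : ∫ p, c p ∂P < 1) :
    ∫ p, (1 - c p) / (1 - ∫ q, c q ∂P) ∂P = 1 := by
  rw [integral_div, integral_sub (integrable_const 1) (C7_int hc bc), integral_const,
    probReal_univ, one_smul, div_self (sub_pos.2 hx).ne']

theorem bulkP_eq (hc : Measurable c) (bc : ∀ p, c p ∈ Icc (0 : ℝ) 1) (hx : ∫ p, c p ∂P < 1) :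
    bulkP P c = P.withDensity fun p => ENNReal.ofReal ((1 - c p) / (1 - ∫ q, c q ∂P)) := by
  unfold bulkP
  refine if_pos ⟨?_⟩
  rw [withDensity_apply _ MeasurableSet.univ, Measure.restrict_univ,
    ← ofReal_integral_eq_lintegral_ofReal (C7_rint hc bc _) (ae_of_all _ (C7_nonneg bc hx)),
    C7_one hc bc hx, ENNReal.ofReal_one]

theorem bulkP_ac : bulkP P c ≪ P := by
  unfold bulkP
  split_ifs
  · exact withDensity_absolutelyContinuous _ _
  · exact Measure.AbsolutelyContinuous.refl _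

theorem C7_le (hc : Measurable c) (bc : ∀ p, c p ∈ Icc (0 : ℝ) 1)
    (hx : ∫ p, c p ∂P ≤ 1 / 2) : bulkP P c ≤ ENNReal.ofReal 2 • P := by
  rw [bulkP_eq hc bc (by linarith), ← withDensity_const]
  refine withDensity_mono (ae_of_all _ fun p => ENNReal.ofReal_le_ofReal ?_)
  rw [div_le_iff₀ (by linarith)]
  linarith [(bc p).1]

theorem bulkP_real_le (hc : Measurable c) (bc : ∀ p, c p ∈ Icc (0 : ℝ) 1)
    (hx : ∫ p, c p ∂P ≤ 1 / 2) (S : Set Ω) : (bulkP P c).real S ≤ 2 * P.real S := by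
  have h := Measure.le_iff'.1 (C7_le hc bc hx) S
  rw [Measure.smul_apply, smul_eq_mul] at h
  have h2 := ENNReal.toReal_mono (ENNReal.mul_ne_top ENNReal.ofReal_ne_top (measure_ne_top P S)) h
  rwa [ENNReal.toReal_mul, ENNReal.toReal_ofReal (by norm_num)] at h2

theorem integral_bulkP_le (hc : Measurable c) (bc : ∀ p, c p ∈ Icc (0 : ℝ) 1)
    (hx : ∫ p, c p ∂P ≤ 1 / 2) {φ : Ω → ℝ} (h0 : ∀ p, 0 ≤ φ p) (hi : Integrable φ P) :
    ∫ p, φ p ∂(bulkP P c) ≤ 2 * ∫ p, φ p ∂P := by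
  have h := integral_mono_measure (C7_le hc bc hx) (ae_of_all _ h0)
    (hi.smul_measure ENNReal.ofReal_ne_top)
  rwa [integral_smul_measure, ENNReal.toReal_ofReal (by norm_num), smul_eq_mul] at h

theorem bulkP_ae_lt (hc : Measurable c) (bc : ∀ p, c p ∈ Icc (0 : ℝ) 1) (hx : ∫ p, c p ∂P < 1) :
    ∀ᵐ p ∂(bulkP P c), c p < 1 := by
  rw [bulkP_eq hc bc hx, ae_withDensity_iff (C7_meas hc _).ennreal_ofReal]
  refine ae_of_all _ fun p hp => lt_of_le_of_ne (bc p).2 fun h => hp ?_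
  rw [h, sub_self, zero_div, ENNReal.ofReal_zero]

theorem C7_pull (hc : Measurable c) {Q : Measure Ω'} {τ : Ω' → Ω}
    (hτ : MeasurePreserving τ Q P) : ∫ p, c (τ p) ∂Q = ∫ p, c p ∂P := by
  rw [← hτ.map_eq, integral_map hτ.measurable.aemeasurable hc.aestronglyMeasurable]

theorem bulkP_pull (hc : Measurable c) (bc : ∀ p, c p ∈ Icc (0 : ℝ) 1) (hx : ∫ p, c p ∂P < 1)
    {Q : Measure Ω'} [IsProbabilityMeasure Q] {τ : Ω' → Ω} (hτ : MeasurePreserving τ Q P) :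
    MeasurePreserving τ (bulkP Q fun p => c (τ p)) (bulkP P c) := by
  refine ⟨hτ.measurable, ?_⟩
  have e := C7_pull hc hτ
  rw [bulkP_eq (c := fun p => c (τ p)) (hc.comp hτ.measurable) (fun p => bc _) (e ▸ hx),
    bulkP_eq hc bc hx, e]
  ext S hS
  rw [Measure.map_apply hτ.measurable hS, withDensity_apply _ (hτ.measurable hS),
    withDensity_apply _ hS]
  exact hτ.setLIntegral_comp_preimage hS (C7_meas hc _).ennreal_ofReal

theorem bulkP_decomp (hc : Measurable c) (bc : ∀ p, c p ∈ Icc (0 : ℝ) 1) (hx : ∫ p, c p ∂P < 1) :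
    P = ENNReal.ofReal (1 - ∫ p, c p ∂P) • bulkP P c +
      P.withDensity fun p => ENNReal.ofReal (c p) := by
  have hm := (C7_meas hc (∫ p, c p ∂P)).ennreal_ofReal
  rw [bulkP_eq hc bc hx, ← withDensity_smul _ hm, ← withDensity_add_left (hm.const_smul _)]
  refine withDensity_one.symm.trans ?_
  congr 1
  funext p
  have h1 : 0 < 1 - ∫ p, c p ∂P := sub_pos.2 hx
  simp only [Pi.add_apply, Pi.smul_apply, smul_eq_mul, Pi.one_apply]
  rw [← ENNReal.ofReal_mul h1.le, mul_div_cancel₀ _ h1.ne',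
    ← ENNReal.ofReal_add (sub_nonneg.2 (bc p).2) (bc p).1, sub_add_cancel, ENNReal.ofReal_one]

theorem bulkP_of_ae_zero (hc : Measurable c) (h : ∀ᵐ p ∂P, c p = 0) : bulkP P c = P := by
  have hx : ∫ p, c p ∂P = 0 := integral_eq_zero_of_ae h
  have e : (P.withDensity fun p => ENNReal.ofReal ((1 - c p) / (1 - ∫ q, c q ∂P))) = P := by
    refine Eq.trans (withDensity_congr_ae ?_) withDensity_one
    filter_upwards [h] with p hp
    simp [hp, hx]
  unfold bulkP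
  split_ifs
  · exact e
  · rfl

theorem C7_abs {c' : Ω → ℝ} (hc : Measurable c) (bc : ∀ p, c p ∈ Icc (0 : ℝ) 1)
    (hc' : Measurable c') (bc' : ∀ p, c' p ∈ Icc (0 : ℝ) 1) :
    |∫ p, c p ∂P - ∫ p, c' p ∂P| ≤ ∫ p, |c p - c' p| ∂P := by
  rw [← integral_sub (C7_int hc bc) (C7_int hc' bc')]
  exact abs_integral_le_integral_abs

theorem C7_pt {a a' x x' : ℝ} (ha' : a' ≤ 1) (hx : x ≤ 1 / 2) (hx' : x' ≤ 1 / 2) :
    |(1 - a) / (1 - x) - (1 - a') / (1 - x')| ≤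
      2 * |a - a'| + 2 * |x - x'| * ((1 - a') / (1 - x')) := by
  have h1 : 0 < 1 - x := by linarith
  have h2 : 0 < 1 - x' := by linarith
  have h3 : 0 ≤ (1 - a') / (1 - x') := div_nonneg (by linarith) h2.le
  have e : (1 - a) / (1 - x) - (1 - a') / (1 - x') =
      (-(a - a') + (x - x') * ((1 - a') / (1 - x'))) / (1 - x) := by
    field_simp
    ring
  rw [e, abs_div, abs_of_pos h1, div_le_iff₀ h1]
  have h4 := abs_add_le (-(a - a')) ((x - x') * ((1 - a') / (1 - x')))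
  rw [abs_neg, abs_mul, abs_of_nonneg h3] at h4
  have h5 : 0 ≤ |a - a'| + |x - x'| * ((1 - a') / (1 - x')) := by positivity
  nlinarith

theorem bulk_tv [StandardBorelSpace Ω] {c' : Ω → ℝ} (hc : Measurable c)
    (bc : ∀ p, c p ∈ Icc (0 : ℝ) 1) (hx : ∫ p, c p ∂P ≤ 1 / 2) (hc' : Measurable c')
    (bc' : ∀ p, c' p ∈ Icc (0 : ℝ) 1) (hx' : ∫ p, c' p ∂P ≤ 1 / 2) :
    ∃ π : Measure (Ω × Ω), IsProbabilityMeasure π ∧ π.map Prod.fst = bulkP P c ∧
      π.map Prod.snd = bulkP P c' ∧ π.real {x | x.1 ≠ x.2} ≤ 4 * ∫ p, |c p - c' p| ∂P := by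
  have h1 : ∫ p, c p ∂P < 1 := by linarith
  have h1' : ∫ p, c' p ∂P < 1 := by linarith
  obtain ⟨π, hπ, e1, e2, h⟩ := tv_coupling (P := P) (C7_meas hc _) (C7_meas hc' _)
    (C7_nonneg bc h1) (C7_nonneg bc' h1') (C7_rint hc bc _) (C7_rint hc' bc' _)
    (C7_one hc bc h1) (C7_one hc' bc' h1')
  refine ⟨π, hπ, e1.trans (bulkP_eq hc bc h1).symm, e2.trans (bulkP_eq hc' bc' h1').symm,
    h.trans ?_⟩
  have i1 : Integrable (fun p => 2 * |c p - c' p|) P :=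
    ((C7_int hc bc).sub (C7_int hc' bc')).abs.const_mul 2
  have i2 : Integrable (fun p => 2 * |∫ p, c p ∂P - ∫ p, c' p ∂P| *
      ((1 - c' p) / (1 - ∫ p, c' p ∂P))) P := (C7_rint hc' bc' _).const_mul _
  refine (integral_mono ((C7_rint hc bc _).sub (C7_rint hc' bc' _)).abs (i1.add i2)
    fun p => C7_pt (bc' p).2 hx hx').trans ?_
  have h2 := C7_abs (P := P) hc bc hc' bc'
  simp only [Pi.add_apply]
  rw [integral_add i1 i2, integral_const_mul, integral_const_mul, C7_one hc' bc' h1']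
  linarith

end

variable {m : ℕ} {B : ℝ} {b : Bool}

theorem MK.x_mem (y : MK m B) : y.x ∈ Icc (0 : ℝ) 1 := by
  refine ⟨integral_nonneg fun p => (y.μ.bc p).1, ?_⟩
  have h := integral_mono (μ := y.A.P) (C7_int y.μ.hc y.μ.bc) (integrable_const (1 : ℝ))
    fun p => (y.μ.bc p).2
  rwa [integral_const, probReal_univ, one_smul] at h

theorem MK.law_bd (y : MK m B) : ∀ᵐ z ∂y.law, ‖z‖ ≤ B :=
  (ae_map_iff y.μ.hg.aemeasurable (measurableSet_le measurable_norm measurable_const)).2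
    (ae_of_all _ y.μ.bg)

theorem MK.law_act (h : U m) (y : MK m B) :
    (y.act h).law = y.law.map (h : E m →L[ℝ] E m) :=
  (Measure.map_map (h : E m →L[ℝ] E m).continuous.measurable y.μ.hg).symm

theorem C7_norm_le (h : U m) {u v : E m} (hu : ‖u‖ ≤ B) (hv : ‖v‖ ≤ B) :
    ‖u - (h : E m →L[ℝ] E m) v‖ ≤ 2 * B := by
  have := norm_sub_le u ((h : E m →L[ℝ] E m) v)
  rw [U.norm_app] at this
  linarith

theorem C7_gint {Ω : Type} [MeasurableSpace Ω] (Q : Measure Ω) [IsFiniteMeasure Q] (h : U m)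
    {g g' : Ω → E m} (hg : Measurable g) (hg' : Measurable g') (bg : ∀ p, ‖g p‖ ≤ B)
    (bg' : ∀ p, ‖g' p‖ ≤ B) : Integrable (fun p => ‖g p - (h : E m →L[ℝ] E m) (g' p)‖) Q :=
  Integrable.of_bound
    (hg.sub ((h : E m →L[ℝ] E m).continuous.measurable.comp hg')).norm.aestronglyMeasurable
    (2 * B) (ae_of_all _ fun p => by rw [norm_norm]; exact C7_norm_le h (bg p) (bg' p))

theorem C7_mdev {Ω : Type} [MeasurableSpace Ω] (Q : Measure Ω) [IsProbabilityMeasure Q]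
    (μ μ' : Marks m B Ω) (h : U m) :
    mdev Q μ μ' h = ∫ p, ‖μ.g p - (h : E m →L[ℝ] E m) (μ'.g p)‖ ∂Q + ∫ p, |μ.c p - μ'.c p| ∂Q :=
  integral_add (C7_gint Q h μ.hg μ'.hg μ.bg μ'.bg)
    ((C7_int μ.hc μ.bc).sub (C7_int μ'.hc μ'.bc)).abs

theorem abs_x_sub {y y' : MK m B} (s : Span y.A y'.A) (h : U m) :
    |y.x - y'.x| ≤ s.mdev y.μ y'.μ h := by
  rw [Span.mdev, C7_mdev, MK.x, MK.x, ← C7_pull y.μ.hc s.hl, ← C7_pull y'.μ.hc s.hr]
  exact (C7_abs (y.μ.pull s.hl.measurable).hc (y.μ.pull s.hl.measurable).bc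
    (y'.μ.pull s.hr.measurable).hc (y'.μ.pull s.hr.measurable).bc).trans
    (le_add_of_nonneg_left (integral_nonneg fun p => norm_nonneg _))

theorem DD_bulk (y : MK m B) (hx : y.x ≤ 1 / 2) : DD b y.A (y.A.withP y.bP) ≤ 4 * y.x := by
  obtain ⟨π, hπ, e1, e2, h⟩ := bulk_tv (P := y.A.P) (c := fun _ => 0) measurable_const
    (fun _ => ⟨le_rfl, zero_le_one⟩) (by simp) y.μ.hc y.μ.bc hx
  rw [bulkP_of_ae_zero measurable_const (ae_of_all _ fun _ => rfl)] at e1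
  have e : ∫ p, |0 - y.μ.c p| ∂y.A.P = y.x :=
    integral_congr_ae (ae_of_all _ fun p => by
      show |0 - y.μ.c p| = y.μ.c p
      rw [zero_sub, abs_neg, abs_of_nonneg (y.μ.bc p).1])
  rw [e] at h
  exact DD_coupling y.A y.A.P y.bP π e1 e2 h

theorem C7_couple {Ω : Type} [MeasurableSpace Ω] [StandardBorelSpace Ω] (Q : Measure Ω)
    [IsProbabilityMeasure Q] (μ μ' : Marks m B Ω) (h : U m) (hx : ∫ p, μ.c p ∂Q ≤ 1 / 2)
    (hx' : ∫ p, μ'.c p ∂Q ≤ 1 / 2) : ∃ π : Measure (E m × E m), IsProbabilityMeasure π ∧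
      π.map Prod.fst = (bulkP Q μ.c).map μ.g ∧ π.map Prod.snd = (bulkP Q μ'.c).map μ'.g ∧
      (∀ᵐ z ∂π, ‖z.1‖ ≤ B ∧ ‖z.2‖ ≤ B) ∧
      ∫ z, ‖z.1 - (h : E m →L[ℝ] E m) z.2‖ ∂π ≤ (2 + 8 * B) * mdev Q μ μ' h := by
  obtain ⟨π, hπ, e1, e2, hd⟩ := bulk_tv μ.hc μ.bc hx μ'.hc μ'.bc hx'
  have m1 : Measurable fun x : Ω × Ω => μ.g x.1 := μ.hg.comp measurable_fst
  have m2 : Measurable fun x : Ω × Ω => μ'.g x.2 := μ'.hg.comp measurable_snd
  have m3 : Measurable fun x : Ω × Ω => μ'.g x.1 := μ'.hg.comp measurable_fst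
  have hT : Measurable fun x : Ω × Ω => (μ.g x.1, μ'.g x.2) := m1.prodMk m2
  have hh : Measurable (h : E m →L[ℝ] E m) := (h : E m →L[ℝ] E m).continuous.measurable
  have hB : 0 ≤ B := by
    obtain ⟨p⟩ := nonempty_of_isProbabilityMeasure Q
    exact (norm_nonneg _).trans (μ.bg p)
  refine ⟨π.map fun x => (μ.g x.1, μ'.g x.2), Measure.isProbabilityMeasure_map hT.aemeasurable,
    ?_, ?_, ?_, ?_⟩
  · rw [← e1, Measure.map_map measurable_fst hT, Measure.map_map μ.hg measurable_fst]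
    rfl
  · rw [← e2, Measure.map_map measurable_snd hT, Measure.map_map μ'.hg measurable_snd]
    rfl
  · refine (ae_map_iff hT.aemeasurable ?_).2 (ae_of_all _ fun x => ⟨μ.bg _, μ'.bg _⟩)
    exact (measurableSet_le measurable_fst.norm measurable_const).inter
      (measurableSet_le measurable_snd.norm measurable_const)
  · have hS : MeasurableSet {x : Ω × Ω | x.1 ≠ x.2} :=
      (measurableSet_eq_fun measurable_fst measurable_snd).compl
    have i1 := C7_gint π h m1 m3 (fun _ => μ.bg _) (fun _ => μ'.bg _)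
    have i2 : Integrable ({x : Ω × Ω | x.1 ≠ x.2}.indicator fun _ => 2 * B) π :=
      (integrable_const _).indicator hS
    have b1 : ∫ x, ‖μ.g x.1 - (h : E m →L[ℝ] E m) (μ'.g x.2)‖ ∂π ≤
        ∫ x, ‖μ.g x.1 - (h : E m →L[ℝ] E m) (μ'.g x.1)‖ ∂π +
          π.real {x : Ω × Ω | x.1 ≠ x.2} * (2 * B) := by
      rw [← smul_eq_mul, ← integral_indicator_const _ hS, ← integral_add i1 i2]
      refine integral_mono (C7_gint π h m1 m2 (fun _ => μ.bg _) (fun _ => μ'.bg _)) (i1.add i2)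
        fun x => ?_
      by_cases hx : x.1 = x.2
      · have : x ∉ {x : Ω × Ω | x.1 ≠ x.2} := fun h => h hx
        simp only [indicator_of_notMem this, add_zero, hx, le_refl]
      · have : x ∈ {x : Ω × Ω | x.1 ≠ x.2} := hx
        simp only [indicator_of_mem this]
        exact (C7_norm_le h (μ.bg _) (μ'.bg _)).trans (le_add_of_nonneg_left (norm_nonneg _))
    have b2 : ∫ x, ‖μ.g x.1 - (h : E m →L[ℝ] E m) (μ'.g x.1)‖ ∂π ≤
        2 * ∫ p, ‖μ.g p - (h : E m →L[ℝ] E m) (μ'.g p)‖ ∂Q := by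
      refine le_trans (le_of_eq ?_) (integral_bulkP_le μ.hc μ.bc hx (fun p => norm_nonneg _)
        (C7_gint Q h μ.hg μ'.hg μ.bg μ'.bg))
      have m4 : Measurable fun p => ‖μ.g p - (h : E m →L[ℝ] E m) (μ'.g p)‖ :=
        (μ.hg.sub (hh.comp μ'.hg)).norm
      rw [← e1, integral_map measurable_fst.aemeasurable m4.aestronglyMeasurable]
    have p1 : 0 ≤ ∫ p, ‖μ.g p - (h : E m →L[ℝ] E m) (μ'.g p)‖ ∂Q :=
      integral_nonneg fun p => norm_nonneg _
    have p2 : 0 ≤ ∫ p, |μ.c p - μ'.c p| ∂Q := integral_nonneg fun p => abs_nonneg _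
    have m5 : Measurable fun z : E m × E m => ‖z.1 - (h : E m →L[ℝ] E m) z.2‖ :=
      (measurable_fst.sub (hh.comp measurable_snd)).norm
    rw [integral_map hT.aemeasurable m5.aestronglyMeasurable, C7_mdev]
    have b3 := mul_le_mul_of_nonneg_right hd (by linarith : 0 ≤ 2 * B)
    have b4 := mul_nonneg hB p1
    refine b1.trans ?_
    nlinarith

theorem law_couple {y y' : MK m B} (s : Span y.A y'.A) (h : U m) (hx : y.x ≤ 1 / 2)
    (hx' : y'.x ≤ 1 / 2) : ∃ π : Measure (E m × E m), IsProbabilityMeasure π ∧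
      π.map Prod.fst = y.law ∧ π.map Prod.snd = y'.law ∧ (∀ᵐ z ∂π, ‖z.1‖ ≤ B ∧ ‖z.2‖ ≤ B) ∧
      ∫ z, ‖z.1 - (h : E m →L[ℝ] E m) z.2‖ ∂π ≤ (2 + 8 * B) * s.mdev y.μ y'.μ h := by
  obtain ⟨π, hπ, e1, e2, h1, h2⟩ := C7_couple s.Q (y.μ.pull s.hl.measurable)
    (y'.μ.pull s.hr.measurable) h ((C7_pull y.μ.hc s.hl).trans_le hx)
    ((C7_pull y'.μ.hc s.hr).trans_le hx')
  have k1 := bulkP_pull y.μ.hc y.μ.bc (lt_of_le_of_lt hx (by norm_num)) s.hl
  have k2 := bulkP_pull y'.μ.hc y'.μ.bc (lt_of_le_of_lt hx' (by norm_num)) s.hr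
  refine ⟨π, hπ, e1.trans ?_, e2.trans ?_, h1, h2⟩
  · rw [MK.law, MK.bP, ← k1.map_eq, Measure.map_map y.μ.hg s.hl.measurable]
    rfl
  · rw [MK.law, MK.bP, ← k2.map_eq, Measure.map_map y'.μ.hg s.hr.measurable]
    rfl

end Pool.Agent.P.MP_de432b_gt.LC
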