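import Pool.Agent.P.MP_de432b_gt.LC.C6

namespace Pool.Agent.P.MP_de432b_gt.LC

open MeasureTheory Set Filter Topology
open scoped unitInterval RealInnerProductSpace

variable {a : ℝ}

theorem C8_ramp_mem (a t : ℝ) : ramp a t ∈ Icc (0 : ℝ) 1 := cl01_mem _

theorem C8_ramp_one (ha : 0 < a) {t : ℝ} (h : 2 * a ≤ t) : ramp a t = 1 := by
  have : 1 ≤ (t - a) / a := by rw [le_div_iff₀ ha]; linarith
  rw [ramp, cl01, min_eq_left this, max_eq_right zero_le_one]

theorem C8_ramp_zero (ha : 0 < a) {t : ℝ} (h : t ≤ a) : ramp a t = 0 := by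
  have : (t - a) / a ≤ 0 := div_nonpos_of_nonpos_of_nonneg (by linarith) ha.le
  rw [ramp, cl01, max_eq_left ((min_le_right _ _).trans this)]

theorem C8_ramp_lip (ha : 1 ≤ a) (u v : ℝ) : ramp a u - ramp a v ≤ |u - v| := by
  refine (le_abs_self _).trans ((abs_cl01_sub _ _).trans ?_)
  rw [← sub_div, sub_sub_sub_cancel_right, abs_div, abs_of_nonneg (by linarith : 0 ≤ a)]
  exact div_le_self (abs_nonneg _) ha

theorem C8_meas {Ω : Type} [MeasurableSpace Ω] {f : Ω → ℝ} (hf : Measurable f) (s : ℝ) :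
    Measurable fun p => ramp a |f p - s| :=
  continuous_cl01.measurable.comp (((hf.sub_const s).abs.sub_const a).div_const a)

theorem C8_int {Ω : Type} [MeasurableSpace Ω] (P : Measure Ω) [IsProbabilityMeasure P]
    {g : Ω → ℝ} (hg : Measurable g) (h : ∀ p, g p ∈ Icc (0 : ℝ) 1) : Integrable g P :=
  Integrable.of_bound hg.aestronglyMeasurable 1 (ae_of_all _ fun p => by
    rw [Real.norm_of_nonneg (h p).1]; exact (h p).2)

theorem C8_I_nonneg (A : PM) (f : A.Ω → ℝ) (s : ℝ) : 0 ≤ ∫ p, ramp a |f p - s| ∂A.P :=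
  integral_nonneg fun _ => (C8_ramp_mem _ _).1

theorem C8_I_le_one (A : PM) (f : A.Ω → ℝ) (s : ℝ) : ∫ p, ramp a |f p - s| ∂A.P ≤ 1 := by
  have := integral_mono_of_nonneg (μ := A.P) (f := fun p => ramp a |f p - s|) (g := fun _ => 1)
    (ae_of_all _ fun _ => (C8_ramp_mem _ _).1) (integrable_const _)
    (ae_of_all _ fun _ => (C8_ramp_mem _ _).2)
  simpa using this

theorem C8_inf_le (A : PM) (f : A.Ω → ℝ) (s : ℝ) :
    ⨅ s : ℝ, ∫ p, ramp a |f p - s| ∂A.P ≤ ∫ p, ramp a |f p - s| ∂A.P :=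
  ciInf_le ⟨0, forall_mem_range.mpr (C8_I_nonneg A f)⟩ s

theorem C8_le_Gam (A : PM) {f : A.Ω → ℝ} (hf : Lip (fun p q => min (A.d p q) (12 * a)) f) {c : ℝ}
    (h : ∀ s, c ≤ ∫ p, ramp a |f p - s| ∂A.P) : c ≤ Gam a A :=
  (le_ciInf h).trans (le_ciSup
    (f := fun f : {f : A.Ω → ℝ // Lip (fun p q => min (A.d p q) (12 * a)) f} =>
      ⨅ s : ℝ, ∫ p, ramp a |f.1 p - s| ∂A.P)
    ⟨1, forall_mem_range.mpr fun f => (C8_inf_le A f.1 0).trans (C8_I_le_one A f.1 0)⟩ ⟨f, hf⟩)

theorem C8_mono (A : PM) {d : A.Ω → A.Ω → ℝ} (hd : IsPM d)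
    (h : ∀ p q, min (A.d p q) (12 * a) ≤ min (d p q) (12 * a)) (h0 : 0 ≤ Gam a (A.withD d hd)) :
    Gam a A ≤ Gam a (A.withD d hd) :=
  Real.iSup_le (fun f => C8_le_Gam (A.withD d hd) (fun p q => (f.2 p q).trans (h p q))
    (C8_inf_le A f.1)) h0

theorem Gam_nonneg (ha : 0 ≤ a) (A : PM) : 0 ≤ Gam a A :=
  C8_le_Gam A (f := fun _ => 0) (fun p q => by
    rw [sub_self]; exact le_min (A.hd.nonneg p q) (by positivity)) (C8_I_nonneg A _)

theorem Gam_le_one (A : PM) : Gam a A ≤ 1 :=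
  Real.iSup_le (fun f => (C8_inf_le A f.1 0).trans (C8_I_le_one A f.1 0)) zero_le_one

theorem C8_span (ha : 1 ≤ a) {A B : PM} (s : Span A B) {ε : ℝ} (h : s.Close false ε) :
    Gam a A ≤ Gam a B + 2 * ε := by
  have h12 : 0 ≤ 12 * a := by linarith
  have hA := A.hd.pull s.hl.measurable
  have hε := Close.nonneg hA h
  have hB := Gam_nonneg (zero_le_one.trans ha) B
  refine Real.iSup_le (fun f => ?_) (by linarith)
  obtain ⟨f', hf', hQ⟩ := (Close.trunc hA (B.hd.pull s.hr.measurable) h h12).1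
    (fun p => f.1 (s.l p)) fun p q => f.2 _ _
  obtain ⟨g, hg, hgf⟩ := lip_factor (B.hd.trunc h12) s.r hf'
  have mf := f.2.measurable (A.hd.trunc h12)
  have mg := hg.measurable (B.hd.trunc h12)
  rw [← sub_le_iff_le_add]
  refine C8_le_Gam B hg fun t => ?_
  rw [sub_le_iff_le_add]
  refine (C8_inf_le A f.1 t).trans ?_
  rw [← s.hl.map_eq, ← s.hr.map_eq,
    integral_map s.hl.measurable.aemeasurable (C8_meas mf t).aestronglyMeasurable,
    integral_map s.hr.measurable.aemeasurable (C8_meas mg t).aestronglyMeasurable]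
  have mS : MeasurableSet {p | ε < |f.1 (s.l p) - f' p|} := by
    simp only [← hgf]
    exact measurableSet_lt measurable_const
      ((mf.comp s.hl.measurable).sub (mg.comp s.hr.measurable)).abs
  have i2 : Integrable (fun p => ramp a |g (s.r p) - t|) s.Q :=
    C8_int _ (C8_meas (mg.comp s.hr.measurable) t) fun _ => C8_ramp_mem _ _
  have i3 : Integrable ({p | ε < |f.1 (s.l p) - f' p|}.indicator (1 : s.Ω → ℝ)) s.Q :=
    (integrable_const 1).indicator mS
  have key := integral_mono_of_nonneg (μ := s.Q) (f := fun p => ramp a |f.1 (s.l p) - t|)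
    (g := fun p => ramp a |g (s.r p) - t| +
      ({p | ε < |f.1 (s.l p) - f' p|}.indicator (1 : s.Ω → ℝ) p + ε))
    (ae_of_all _ fun _ => (C8_ramp_mem _ _).1) (i2.add (i3.add (integrable_const _)))
    (ae_of_all _ fun p => by
      by_cases hp : ε < |f.1 (s.l p) - f' p|
      · have h1 := (C8_ramp_mem a |f.1 (s.l p) - t|).2
        have h2 := (C8_ramp_mem a |g (s.r p) - t|).1
        simp only [indicator_of_mem (show p ∈ {p | ε < |f.1 (s.l p) - f' p|} from hp), Pi.one_apply]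
        linarith
      · have h1 := C8_ramp_lip ha |f.1 (s.l p) - t| |g (s.r p) - t|
        have h2 := abs_abs_sub_abs_le (f.1 (s.l p) - t) (g (s.r p) - t)
        rw [sub_sub_sub_cancel_right, hgf] at h2
        simp only [indicator_of_notMem (show p ∉ {p | ε < |f.1 (s.l p) - f' p|} from hp)]
        rw [hgf] at h1 ⊢
        linarith [not_lt.mp hp])
  rw [integral_add i2 (i3.fun_add (integrable_const _)), integral_add i3 (integrable_const _),
    integral_indicator_one mS, integral_const, probReal_univ, one_smul] at key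
  linarith

theorem Gam_span (ha : 1 ≤ a) {A B : PM} (s : Span A B) {ε : ℝ} (h : s.Close false ε) :
    |Gam a A - Gam a B| ≤ 2 * ε :=
  abs_sub_le_iff.mpr ⟨by linarith [C8_span ha s h], by linarith [C8_span ha s.symm h.symm]⟩

theorem Gam_lip (ha : 1 ≤ a) (b : Bool) (A B : PM) : |Gam a A - Gam a B| ≤ 2 * DD b A B := by
  refine le_of_forall_pos_le_add fun δ hδ => ?_
  obtain ⟨s, hs⟩ := exists_span (b := b) (A := A) (B := B) (ε := DD b A B + δ / 2) (by linarith)
  linarith [Gam_span ha s hs.conc]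

theorem Gam_trunc (ha : 0 ≤ a) (A : PM) {L : ℝ} (hL : 12 * a ≤ L) :
    Gam a (A.trunc L) = Gam a A := by
  have e : ∀ p q, min (min (A.d p q) (max L 0)) (12 * a) = min (A.d p q) (12 * a) := fun p q => by
    rw [min_assoc, min_eq_right (hL.trans (le_max_left _ _))]
  exact le_antisymm (C8_mono (A.trunc L) A.hd (fun p q => (e p q).le) (Gam_nonneg ha _))
    (C8_mono A _ (fun p q => (e p q).ge) (Gam_nonneg ha _))

theorem Gam_mono (ha : 0 ≤ a) (A : PM) {d : A.Ω → A.Ω → ℝ} (hd : IsPM d)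
    (h : ∀ p q, A.d p q ≤ d p q) : Gam a A ≤ Gam a (A.withD d hd) :=
  C8_mono A hd (fun p q => min_le_min_right _ (h p q)) (Gam_nonneg ha _)

theorem Gam_ge (ha : 0 < a) (A : PM) {c : A.Ω → ℝ} (hc : Measurable c)
    (bc : ∀ p, c p ∈ Icc (0 : ℝ) 1) (h01 : ∀ᵐ p ∂A.P, c p = 0 ∨ c p = 1)
    (hx : ∫ p, c p ∂A.P ≤ 1 / 2) (hd : ∀ p q, 4 * a * |c p - c q| ≤ A.d p q) :
    ∫ p, c p ∂A.P ≤ Gam a A := by
  have ic := C8_int A.P hc bc
  refine C8_le_Gam A (f := fun p => 4 * a * c p) (fun p q => le_min ?_ ?_) fun s => ?_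
  · have := mul_le_mul_of_nonneg_left (le_abs_self (c p - c q)) (by positivity : 0 ≤ 4 * a)
    linarith [hd p q]
  · nlinarith [(bc p).2, (bc q).1]
  have ir : Integrable (fun p => ramp a |4 * a * c p - s|) A.P :=
    C8_int _ (C8_meas (hc.const_mul _) s) fun _ => C8_ramp_mem _ _
  rcases le_or_gt (2 * a) |s| with h | h
  · have key := integral_mono_ae ((integrable_const 1).sub ic) ir (h01.mono fun p hp => by
      rcases hp with hp | hp
      · simp [hp, C8_ramp_one ha h]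
      · simpa [hp] using (C8_ramp_mem _ _).1)
    simp only [Pi.sub_apply] at key
    rw [integral_sub (integrable_const 1) ic, integral_const, probReal_univ, one_smul] at key
    linarith
  · refine integral_mono_ae ic ir (h01.mono fun p hp => ?_)
    rcases hp with hp | hp
    · simpa [hp] using (C8_ramp_mem _ _).1
    · have : 2 * a ≤ |4 * a - s| := le_trans (by linarith [le_abs_self s]) (le_abs_self _)
      simp [hp, C8_ramp_one ha this]

theorem Gam_le (ha : 0 < a) (A : PM) {S : Set A.Ω} (hS : MeasurableSet S)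
    (hd : ∀ p ∈ S, ∀ q ∈ S, A.d p q ≤ a) : Gam a A ≤ A.P.real Sᶜ := by
  rcases S.eq_empty_or_nonempty with rfl | ⟨p₀, hp₀⟩
  · simpa using Gam_le_one A
  refine Real.iSup_le (fun f => (C8_inf_le A f.1 (f.1 p₀)).trans ?_) measureReal_nonneg
  rw [← integral_indicator_one hS.compl]
  refine integral_mono_of_nonneg (ae_of_all _ fun _ => (C8_ramp_mem _ _).1)
    ((integrable_const 1).indicator hS.compl) (ae_of_all _ fun p => ?_)
  by_cases hp : p ∈ S
  · have := (f.2.abs_le (A.hd.trunc (by positivity)) p p₀).trans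
      ((min_le_left _ _).trans (hd p hp p₀ hp₀))
    simp [hp, C8_ramp_zero ha this]
  · simpa [hp] using (C8_ramp_mem _ _).2

end Pool.Agent.P.MP_de432b_gt.LC
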