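import Pool.Agent.P.MP_de432b_gt.LC.C8

namespace Pool.Agent.P.MP_de432b_gt.LC

open MeasureTheory Set Filter Topology
open scoped unitInterval RealInnerProductSpace

variable {a : ℝ}

theorem C9_ramp_mem (a t : ℝ) : ramp a t ∈ Icc (0 : ℝ) 1 := cl01_mem _

theorem C9_ramp_one (ha : 0 < a) {t : ℝ} (ht : 2 * a ≤ t) : ramp a t = 1 := by
  have h : 1 ≤ (t - a) / a := by
    rw [le_div_iff₀ ha]
    linarith
  rw [ramp, cl01, min_eq_left h, max_eq_right zero_le_one]

theorem C9_int {Ω : Type} [MeasurableSpace Ω] (P : Measure Ω) [IsProbabilityMeasure P]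
    {f : Ω → ℝ} (hf : Measurable f) (a s : ℝ) : Integrable (fun p => ramp a |f p - s|) P := by
  refine Integrable.of_bound (C := 1) (Measurable.aestronglyMeasurable ?_) (ae_of_all _ fun p => ?_)
  · exact continuous_cl01.measurable.comp
      ((((hf.sub_const s).abs).sub_const a).div_const a)
  · rw [Real.norm_of_nonneg (C9_ramp_mem _ _).1]
    exact (C9_ramp_mem _ _).2

theorem C9_nonneg {Ω : Type} [MeasurableSpace Ω] (P : Measure Ω) (f : Ω → ℝ) (a s : ℝ) :
    0 ≤ ∫ p, ramp a |f p - s| ∂P := integral_nonneg fun _ => (C9_ramp_mem _ _).1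

theorem C9_le_one {Ω : Type} [MeasurableSpace Ω] (P : Measure Ω) [IsProbabilityMeasure P]
    (f : Ω → ℝ) (a s : ℝ) : ∫ p, ramp a |f p - s| ∂P ≤ 1 := by
  have h := integral_mono_of_nonneg (μ := P) (f := fun p => ramp a |f p - s|)
    (g := fun _ => (1 : ℝ)) (ae_of_all _ fun _ => (C9_ramp_mem _ _).1) (integrable_const _)
    (ae_of_all _ fun _ => (C9_ramp_mem _ _).2)
  simpa using h

theorem C9_bdd {Ω : Type} [MeasurableSpace Ω] (P : Measure Ω) (f : Ω → ℝ) (a : ℝ) :
    BddBelow (range fun s : ℝ => ∫ p, ramp a |f p - s| ∂P) :=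
  ⟨0, by
    rintro _ ⟨s, rfl⟩
    exact C9_nonneg P f a s⟩

theorem C9_le_Gam (A : PM) {f : A.Ω → ℝ} (hf : Lip (fun p q => min (A.d p q) (12 * a)) f) :
    ⨅ s : ℝ, ∫ p, ramp a |f p - s| ∂A.P ≤ Gam a A := by
  refine le_ciSup (f := fun f : {f : A.Ω → ℝ // Lip (fun p q => min (A.d p q) (12 * a)) f} =>
    ⨅ s : ℝ, ∫ p, ramp a |f.1 p - s| ∂A.P) ⟨1, ?_⟩ ⟨f, hf⟩
  rintro _ ⟨g, rfl⟩
  exact (ciInf_le (C9_bdd A.P g.1 a) 0).trans (C9_le_one A.P g.1 a 0)

theorem C9_Gam_le (ha : 0 ≤ a) (A : PM) {w : ℝ}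
    (h : ∀ f : A.Ω → ℝ, Lip (fun p q => min (A.d p q) (12 * a)) f →
      ⨅ s : ℝ, ∫ p, ramp a |f p - s| ∂A.P ≤ w) : Gam a A ≤ w := by
  have : Nonempty {f : A.Ω → ℝ // Lip (fun p q => min (A.d p q) (12 * a)) f} :=
    ⟨⟨fun _ => 0, fun p q => by
      rw [sub_self]
      exact le_min (A.hd.nonneg p q) (by positivity)⟩⟩
  exact ciSup_le fun f => h f.1 f.2

open Classical in
theorem C9_ball_d (A : PM) (D η : ℝ) (x y : A.Ω × I) :
    coneD {x : A.Ω × I | (x.2 : ℝ) < η} D (fun x y => A.d x.1 y.1) x y =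
    if (x.2 : ℝ) < η then (if (y.2 : ℝ) < η then 0 else max D 0)
    else (if (y.2 : ℝ) < η then max D 0 else min (A.d x.1 y.1) (2 * max D 0)) := by
  by_cases hx : (x.2 : ℝ) < η <;> by_cases hy : (y.2 : ℝ) < η <;>
    simp [coneD, glueD, hx, hy]

open Classical in
theorem C9_ite (A : PM) {η : ℝ} (h0 : 0 ≤ η) (h1 : η ≤ 1) (c : ℝ) {v : A.Ω → ℝ}
    (hv : Integrable v A.P) :
    Integrable (fun x : A.Ω × I => if (x.2 : ℝ) < η then c else v x.1) (A.P.prod volume) ∧
    ∫ x : A.Ω × I, (if (x.2 : ℝ) < η then c else v x.1) ∂(A.P.prod volume) =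
      η * c + (1 - η) * ∫ p, v p ∂A.P := by
  constructor
  · have hS := measurableSet_lt_snd (Ω := A.Ω) (c := fun _ => η) measurable_const
    have h := Integrable.piecewise (μ := A.P.prod (volume : Measure I)) hS
      (f := fun _ => c) (g := fun x => v x.1) (integrable_const c).integrableOn
      (hv.comp_fst _).integrableOn
    refine h.congr (ae_of_all _ fun x => ?_)
    by_cases hx : (x.2 : ℝ) < η <;> simp [Set.piecewise, hx]
  · have h := integral_ite_lt (P := A.P) (c := fun _ => η) (u := fun _ => c) (v := v)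
      measurable_const (fun _ => ⟨h0, h1⟩) (integrable_const c) hv
    rw [h, integral_add (integrable_const _) (hv.const_mul _), integral_const_mul,
      integral_const_mul]
    simp

theorem C9_clamp (l u x y : ℝ) : max l (min u x) - max l (min u y) ≤ |x - y| := by
  refine (le_abs_self _).trans ((abs_max_sub_max_le_max _ _ _ _).trans ?_)
  simp only [sub_self, abs_zero]
  refine max_le (abs_nonneg _) ((abs_min_sub_min_le_max _ _ _ _).trans ?_)
  simp

theorem C9_near (ha : 0 < a) {c s : ℝ} (hs : |s - c| ≤ 4 * a) (x : ℝ) :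
    ramp a |max (c - 6 * a) (min (c + 6 * a) x) - s| = ramp a |x - s| := by
  obtain ⟨s1, s2⟩ := abs_le.mp hs
  rcases le_total x (c - 6 * a) with h | h
  · rw [min_eq_right (by linarith), max_eq_left h,
      C9_ramp_one ha (le_abs.mpr (Or.inr (by linarith))),
      C9_ramp_one ha (le_abs.mpr (Or.inr (by linarith)))]
  · rcases le_total x (c + 6 * a) with h' | h'
    · rw [min_eq_right h', max_eq_right h]
    · rw [min_eq_left h', max_eq_right (by linarith),
        C9_ramp_one ha (le_abs.mpr (Or.inl (by linarith))),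
        C9_ramp_one ha (le_abs.mpr (Or.inl (by linarith)))]

theorem C9_far (ha : 0 < a) {c s : ℝ} (hs : 4 * a ≤ |s - c|) (x : ℝ) :
    1 - ramp a |x - c| ≤ ramp a |max (c - 6 * a) (min (c + 6 * a) x) - s| := by
  rcases le_total (2 * a) |x - c| with h | h
  · rw [C9_ramp_one ha h, sub_self]
    exact (C9_ramp_mem _ _).1
  · obtain ⟨h1, h2⟩ := abs_le.mp h
    rw [min_eq_right (by linarith), max_eq_right (by linarith)]
    have h3 : 2 * a ≤ |x - s| := by
      have := abs_sub_le s x c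
      rw [abs_sub_comm s x] at this
      linarith
    rw [C9_ramp_one ha h3]
    linarith [(C9_ramp_mem a |x - c|).1]

open Classical in
theorem C9_core (ha : 0 < a) (A : PM) {D η η' : ℝ} (hD : 12 * a ≤ D) (h0 : 0 ≤ η) (h1 : η ≤ η')
    (h2 : η' ≤ 1 / 8) {F : A.Ω × I → ℝ}
    (hF : Lip (fun p q => min ((A.ball D η).d p q) (12 * a)) F) {v : ℝ}
    (hv : ∀ s, v ≤ ∫ x, ramp a |F x - s| ∂(A.P.prod volume)) (hv' : v ≤ 1 / 8) {c : ℝ}
    (hc : ∫ x, ramp a |F x - c| ∂(A.P.prod volume) ≤ 1 / 4) :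
    v + (η' - η) * (1 - v) / (1 - η) ≤ Gam a (A.ball D η') := by
  have hη : 0 < 1 - η := by linarith
  have hD0 : max D 0 = D := max_eq_left (by linarith)
  have hone : ¬ (((1 : I) : ℝ) < η) := by
    simp only [Icc.coe_one, not_lt]
    linarith
  have hpm := (A.ball D η).hd.trunc (L := 12 * a) (by positivity)
  have hFm : Measurable F := hF.measurable hpm
  set f : A.Ω → ℝ := fun p => F (p, 1) with hf
  have hfm : Measurable f := hFm.comp (measurable_id.prodMk measurable_const)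
  have hfl : ∀ p q, |f p - f q| ≤ min (min (A.d p q) (2 * max D 0)) (12 * a) := fun p q => by
    have h := hF.abs_le hpm (p, 1) (q, 1)
    simp only [C9_ball_d, if_neg hone] at h
    exact h
  have hFf : ∀ x : A.Ω × I, ¬ (x.2 : ℝ) < η → F x = f x.1 := fun x hx => by
    have h := hF.abs_le hpm x (x.1, 1)
    simp only [C9_ball_d, if_neg hone, if_neg hx, A.hd.self] at h
    have h' : |F x - F (x.1, 1)| ≤ 0 := h.trans ((min_le_left _ _).trans (min_le_left _ _))
    exact sub_eq_zero.mp (abs_nonpos_iff.mp h')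
  have hup : ∀ s, v ≤ η + (1 - η) * ∫ p, ramp a |f p - s| ∂A.P := fun s => by
    obtain ⟨i1, i2⟩ := C9_ite A h0 (by linarith) 1 (C9_int A.P hfm a s)
    rw [mul_one] at i2
    rw [← i2]
    refine (hv s).trans (integral_mono (C9_int _ hFm a s) i1 fun x => ?_)
    by_cases hx : (x.2 : ℝ) < η
    · simp only [if_pos hx]
      exact (C9_ramp_mem _ _).2
    · simp only [if_neg hx, hFf x hx, le_refl]
  have hlo : (1 - η) * ∫ p, ramp a |f p - c| ∂A.P ≤ 1 / 4 := by
    obtain ⟨i1, i2⟩ := C9_ite A h0 (by linarith) 0 (C9_int A.P hfm a c)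
    rw [mul_zero, zero_add] at i2
    rw [← i2]
    refine (integral_mono i1 (C9_int _ hFm a c) fun x => ?_).trans hc
    by_cases hx : (x.2 : ℝ) < η
    · simp only [if_pos hx]
      exact (C9_ramp_mem _ _).1
    · simp only [if_neg hx, hFf x hx, le_refl]
  set g : A.Ω → ℝ := fun p => max (c - 6 * a) (min (c + 6 * a) (f p)) with hg
  have hgm : Measurable g := measurable_const.max (measurable_const.min hfm)
  have g1 : ∀ p, c - 6 * a ≤ g p := fun p => le_max_left _ _
  have g2 : ∀ p, g p ≤ c + 6 * a := fun p => max_le (by linarith) (min_le_left _ _)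
  have hL : Lip (fun p q => min ((A.ball D η').d p q) (12 * a))
      (fun x : A.Ω × I => if (x.2 : ℝ) < η' then c + 6 * a else g x.1) := fun x y => by
    by_cases hx : (x.2 : ℝ) < η' <;> by_cases hy : (y.2 : ℝ) < η' <;>
      simp only [C9_ball_d, hx, hy, if_true, if_false]
    · rw [sub_self]
      exact le_min le_rfl (by positivity)
    · rw [hD0, min_eq_right hD]
      linarith [g1 y.1]
    · rw [hD0, min_eq_right hD]
      linarith [g2 x.1]
    · exact (C9_clamp _ _ _ _).trans (hfl x.1 y.1)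
  refine le_trans (le_ciInf fun s => ?_) (C9_le_Gam (A.ball D η') hL)
  obtain ⟨-, i2⟩ := C9_ite A (h0.trans h1) (by linarith) (ramp a |c + 6 * a - s|)
    (C9_int A.P hgm a s)
  have e : ∫ x : A.Ω × I, ramp a |(if (x.2 : ℝ) < η' then c + 6 * a else g x.1) - s|
      ∂(A.P.prod volume) = η' * ramp a |c + 6 * a - s| + (1 - η') * ∫ p, ramp a |g p - s| ∂A.P := by
    rw [← i2]
    refine integral_congr_ae (ae_of_all _ fun x => ?_)
    by_cases hx : (x.2 : ℝ) < η' <;> simp only [hx, if_true, if_false]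
  refine le_trans ?_ e.ge
  rw [← sub_nonneg]
  rcases le_total |s - c| (4 * a) with hs | hs
  · have e1 : ramp a |c + 6 * a - s| = 1 :=
      C9_ramp_one ha (le_abs.mpr (Or.inl (by linarith [(abs_le.mp hs).2])))
    have e2 : ∫ p, ramp a |g p - s| ∂A.P = ∫ p, ramp a |f p - s| ∂A.P :=
      integral_congr_ae (ae_of_all _ fun p => C9_near ha hs (f p))
    rw [e1, e2]
    have h3 := hup s
    set G := ∫ p, ramp a |f p - s| ∂A.P
    have e3 : η' * 1 + (1 - η') * G - (v + (η' - η) * (1 - v) / (1 - η)) =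
        (1 - η') * (η + (1 - η) * G - v) / (1 - η) := by
      field_simp
      ring
    rw [e3]
    exact div_nonneg (mul_nonneg (by linarith) (by linarith)) hη.le
  · have h3 : 1 - ∫ p, ramp a |f p - c| ∂A.P ≤ ∫ p, ramp a |g p - s| ∂A.P := by
      have h := integral_mono ((integrable_const (1 : ℝ)).sub (C9_int A.P hfm a c))
        (C9_int A.P hgm a s) fun p => C9_far ha hs (f p)
      rw [integral_sub' (integrable_const _) (C9_int A.P hfm a c)] at h
      simpa using h
    have h4 := C9_nonneg A.P f a c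
    have h5 := C9_nonneg A.P g a s
    have h6 : 0 ≤ η' * ramp a |c + 6 * a - s| := mul_nonneg (h0.trans h1) (C9_ramp_mem _ _).1
    have h7 : v + (η' - η) * (1 - v) / (1 - η) ≤ 1 / 2 := by
      have e3 : v + (η' - η) * (1 - v) / (1 - η) =
          (v * (1 - η') + (η' - η)) / (1 - η) := by
        field_simp
        ring
      rw [e3, div_le_iff₀ hη]
      nlinarith
    set G := ∫ p, ramp a |f p - c| ∂A.P
    set G' := ∫ p, ramp a |g p - s| ∂A.P
    have h8 : G ≤ 2 / 7 := by nlinarith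
    nlinarith

/-- Growth of the far mass along the ballast. -/
theorem Gam_ball (ha : 0 < a) (A : PM) {D η η' : ℝ} (hD : 12 * a ≤ D) (h0 : 0 ≤ η) (h1 : η ≤ η')
    (h2 : η' ≤ 1 / 8) (hG : Gam a (A.ball D η) ≤ 1 / 8) :
    Gam a (A.ball D η) + (η' - η) * (1 - Gam a (A.ball D η)) / (1 - η) ≤ Gam a (A.ball D η') := by
  have hη : 0 < 1 - η := by linarith
  have hη' : 0 < 1 - η' := by linarith
  have key : Gam a (A.ball D η) ≤ (Gam a (A.ball D η') * (1 - η) - (η' - η)) / (1 - η') := by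
    refine C9_Gam_le ha.le _ fun F hF => ?_
    have hv := (C9_le_Gam (A.ball D η) hF).trans hG
    obtain ⟨c, hc⟩ := exists_lt_of_ciInf_lt (hv.trans_lt (by norm_num : (1 / 8 : ℝ) < 1 / 4))
    have h := C9_core ha A hD h0 h1 h2 hF (fun s => ciInf_le (C9_bdd _ F a) s) hv hc.le
    set v := ⨅ s : ℝ, ∫ p, ramp a |F p - s| ∂(A.ball D η).P
    have e : v + (η' - η) * (1 - v) / (1 - η) = (v * (1 - η') + (η' - η)) / (1 - η) := by
      field_simp
      ring
    rw [e, div_le_iff₀ hη] at h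
    rw [le_div_iff₀ hη']
    linarith
  set v := Gam a (A.ball D η)
  have e : v + (η' - η) * (1 - v) / (1 - η) = (v * (1 - η') + (η' - η)) / (1 - η) := by
    field_simp
    ring
  rw [le_div_iff₀ hη'] at key
  rw [e, div_le_iff₀ hη]
  linarith

open Classical in
theorem Gam_ball_ge (ha : 0 < a) (A : PM) {D η : ℝ} (hD : 4 * a ≤ D) (h0 : 0 ≤ η)
    (h1 : η ≤ 1 / 2) : η ≤ Gam a (A.ball D η) := by
  have hD0 : max D 0 = D := max_eq_left (by linarith)
  obtain ⟨-, i2⟩ := C9_ite A h0 (by linarith) 1 (v := fun _ => 0) (integrable_const _)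
  have e : ∫ x : A.Ω × I, (if (x.2 : ℝ) < η then (1 : ℝ) else 0) ∂(A.P.prod volume) = η := by
    rw [i2]
    simp
  have h := Gam_ge ha (A.ball D η) (c := fun x : A.Ω × I => if (x.2 : ℝ) < η then 1 else 0)
    (Measurable.ite (measurableSet_lt_snd (c := fun _ => η) measurable_const) measurable_const
      measurable_const)
    (fun x => by by_cases hx : (x.2 : ℝ) < η <;> simp [hx])
    (ae_of_all _ fun x => by by_cases hx : (x.2 : ℝ) < η <;> simp [hx]) (e.trans_le h1)
    (fun x y => by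
      by_cases hx : (x.2 : ℝ) < η <;> by_cases hy : (y.2 : ℝ) < η <;>
        simp only [C9_ball_d, hx, hy, if_true, if_false]
      · simp
      · rw [hD0]
        simpa using hD
      · rw [hD0]
        simpa using hD
      · rw [sub_self, abs_zero, mul_zero]
        exact le_min (A.hd.nonneg _ _) (by positivity))
  exact e.ge.trans h

theorem C9_abs (ha : 1 ≤ a) (A : PM) {D η : ℝ} (hD : 12 * a ≤ D) (h0 : 0 ≤ η) :
    |Gam a (A.ball D η) - Gam a A| ≤ 2 * η := by
  have h := Gam_lip ha false (A.ball D η) (A.trunc (2 * D))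
  rw [Gam_trunc (by linarith) A (by linarith)] at h
  linarith [DD_ball_trunc (b := false) A (D := D) (by linarith) h0]

theorem Gam_ball_le (ha : 1 ≤ a) (A : PM) {D η : ℝ} (hD : 12 * a ≤ D) (h0 : 0 ≤ η) :
    Gam a (A.ball D η) ≤ Gam a A + 2 * η := by
  linarith [(abs_le.mp (C9_abs ha A hD h0)).2]

theorem Gam_ball_zero (ha : 1 ≤ a) (A : PM) {D : ℝ} (hD : 12 * a ≤ D) :
    Gam a (A.ball D 0) = Gam a A := by
  have h := C9_abs ha A hD le_rfl
  rw [mul_zero] at h
  exact sub_eq_zero.mp (abs_nonpos_iff.mp h)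

end Pool.Agent.P.MP_de432b_gt.LC
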