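import Pool.Agent.P.MP_de432b_gt.LC.C3

namespace Pool.Agent.P.MP_de432b_gt.LC

open MeasureTheory Set Filter Topology
open scoped unitInterval RealInnerProductSpace

section
variable {m : ℕ} {B : ℝ} {Ω Ω' : Type} [MeasurableSpace Ω] [MeasurableSpace Ω'] {Q : Measure Ω}
  [IsProbabilityMeasure Q]

theorem D1_meas (μ μ' : Marks m B Ω) (h : U m) :
    Measurable (fun p => ‖μ.g p - (h : E m →L[ℝ] E m) (μ'.g p)‖ + |μ.c p - μ'.c p|) :=
  (μ.hg.sub ((h : E m →L[ℝ] E m).continuous.measurable.comp μ'.hg)).norm.add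
    (continuous_abs.measurable.comp (μ.hc.sub μ'.hc))

theorem D1_bd (μ μ' : Marks m B Ω) (h : U m) (p : Ω) :
    ‖μ.g p - (h : E m →L[ℝ] E m) (μ'.g p)‖ + |μ.c p - μ'.c p| ≤ 2 * B + 1 := by
  have h1 := norm_sub_le (μ.g p) ((h : E m →L[ℝ] E m) (μ'.g p))
  rw [U.norm_app] at h1
  have h2 : |μ.c p - μ'.c p| ≤ 1 :=
    abs_sub_le_iff.mpr ⟨by linarith [(μ.bc p).2, (μ'.bc p).1], by linarith [(μ.bc p).1, (μ'.bc p).2]⟩
  linarith [μ.bg p, μ'.bg p]

theorem D1_mul_app (h h' : U m) (v : E m) :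
    ((h * h' : U m) : E m →L[ℝ] E m) v = (h : E m →L[ℝ] E m) ((h' : E m →L[ℝ] E m) v) := rfl

theorem D1_one_app (v : E m) : ((1 : U m) : E m →L[ℝ] E m) v = v := rfl

theorem integrable_mdev (μ μ' : Marks m B Ω) (h : U m) :
    Integrable (fun p => ‖μ.g p - (h : E m →L[ℝ] E m) (μ'.g p)‖ + |μ.c p - μ'.c p|) Q := by
  refine Integrable.of_bound (D1_meas μ μ' h).aestronglyMeasurable (2 * B + 1)
    (Eventually.of_forall fun p => ?_)
  rw [Real.norm_of_nonneg (by positivity)]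
  exact D1_bd μ μ' h p

theorem measurable_mdev (μ μ' : Marks m B Ω) (h : U m) :
    Measurable (fun p => ‖μ.g p - (h : E m →L[ℝ] E m) (μ'.g p)‖ + |μ.c p - μ'.c p|) :=
  D1_meas μ μ' h

theorem mdev_nonneg (μ μ' : Marks m B Ω) (h : U m) : 0 ≤ mdev Q μ μ' h :=
  integral_nonneg fun p => by positivity

theorem mdev_le (μ μ' : Marks m B Ω) (h : U m) : mdev Q μ μ' h ≤ 2 * B + 1 := by
  have h1 := integral_mono (integrable_mdev (Q := Q) μ μ' h) (integrable_const (2 * B + 1))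
    (fun p => D1_bd μ μ' h p)
  simpa [mdev] using h1

theorem mdev_g_le (μ μ' : Marks m B Ω) (h : U m) :
    ∫ p, ‖μ.g p - (h : E m →L[ℝ] E m) (μ'.g p)‖ ∂Q ≤ mdev Q μ μ' h :=
  integral_mono_of_nonneg (Eventually.of_forall fun _ => norm_nonneg _) (integrable_mdev μ μ' h)
    (Eventually.of_forall fun _ => le_add_of_nonneg_right (abs_nonneg _))

theorem mdev_c_le (μ μ' : Marks m B Ω) (h : U m) : ∫ p, |μ.c p - μ'.c p| ∂Q ≤ mdev Q μ μ' h :=
  integral_mono_of_nonneg (Eventually.of_forall fun _ => abs_nonneg _) (integrable_mdev μ μ' h)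
    (Eventually.of_forall fun _ => le_add_of_nonneg_left (norm_nonneg _))

theorem mdev_self (μ : Marks m B Ω) : mdev Q μ μ 1 = 0 := by
  simp [mdev]

theorem mdev_symm (μ μ' : Marks m B Ω) (h : U m) : mdev Q μ' μ h⁻¹ = mdev Q μ μ' h := by
  unfold mdev
  refine integral_congr_ae (Eventually.of_forall fun p => ?_)
  have h1 := U.norm_app h (μ'.g p - ((h⁻¹ : U m) : E m →L[ℝ] E m) (μ.g p))
  rw [map_sub, ← D1_mul_app, mul_inv_cancel, D1_one_app] at h1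
  simp only
  rw [← h1, norm_sub_rev, abs_sub_comm]

theorem mdev_tri (μ μ' μ'' : Marks m B Ω) (h h' : U m) :
    mdev Q μ μ'' (h * h') ≤ mdev Q μ μ' h + mdev Q μ' μ'' h' := by
  unfold mdev
  rw [← integral_add (integrable_mdev μ μ' h) (integrable_mdev μ' μ'' h')]
  refine integral_mono (integrable_mdev μ μ'' (h * h'))
    ((integrable_mdev μ μ' h).add (integrable_mdev μ' μ'' h')) (fun p => ?_)
  have h1 := U.norm_app h (μ'.g p - (h' : E m →L[ℝ] E m) (μ''.g p))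
  rw [map_sub, ← D1_mul_app] at h1
  have h2 := norm_sub_le_norm_sub_add_norm_sub (μ.g p) ((h : E m →L[ℝ] E m) (μ'.g p))
    (((h * h' : U m) : E m →L[ℝ] E m) (μ''.g p))
  have h3 := abs_sub_le (μ.c p) (μ'.c p) (μ''.c p)
  simp only
  linarith

theorem mdev_pull (μ μ' : Marks m B Ω) (h : U m) {Q' : Measure Ω'} {τ : Ω' → Ω}
    (hτ : MeasurePreserving τ Q' Q) :
    mdev Q' (μ.pull hτ.measurable) (μ'.pull hτ.measurable) h = mdev Q μ μ' h := by
  have h1 := integral_map (μ := Q') hτ.measurable.aemeasurable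
    (measurable_mdev μ μ' h).aestronglyMeasurable
  rw [hτ.map_eq] at h1
  exact h1.symm

theorem mdev_congr {μ μ' ν ν' : Marks m B Ω} (h : U m)
    (h1 : ∀ᵐ p ∂Q, μ.g p = ν.g p ∧ μ.c p = ν.c p) (h2 : ∀ᵐ p ∂Q, μ'.g p = ν'.g p ∧ μ'.c p = ν'.c p) :
    mdev Q μ μ' h = mdev Q ν ν' h := by
  unfold mdev
  refine integral_congr_ae ?_
  filter_upwards [h1, h2] with p a1 a2
  rw [a1.1, a1.2, a2.1, a2.2]

theorem mdev_change (μ μ' : Marks m B Ω) (h h' : U m) : mdev Q μ μ' h' ≤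
    mdev Q μ μ' h + B * ‖(h : E m →L[ℝ] E m) - (h' : E m →L[ℝ] E m)‖ := by
  have h0 := integral_mono (integrable_mdev (Q := Q) μ μ' h')
    ((integrable_mdev (Q := Q) μ μ' h).add
      (integrable_const (B * ‖(h : E m →L[ℝ] E m) - (h' : E m →L[ℝ] E m)‖))) (fun p => by
      have h1 := norm_sub_le_norm_sub_add_norm_sub (μ.g p) ((h : E m →L[ℝ] E m) (μ'.g p))
        ((h' : E m →L[ℝ] E m) (μ'.g p))
      have h2 := ((h : E m →L[ℝ] E m) - (h' : E m →L[ℝ] E m)).le_opNorm (μ'.g p)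
      rw [sub_apply] at h2
      have h3 := mul_le_mul_of_nonneg_left (μ'.bg p)
        (norm_nonneg ((h : E m →L[ℝ] E m) - (h' : E m →L[ℝ] E m)))
      simp only [Pi.add_apply]
      linarith)
  simp only [Pi.add_apply] at h0
  rw [integral_add (integrable_mdev μ μ' h) (integrable_const _)] at h0
  simpa [mdev] using h0

theorem mdev_act (μ μ' : Marks m B Ω) (h k k' : U m) :
    mdev Q (μ.act k) (μ'.act k') (k * h * k'⁻¹) = mdev Q μ μ' h := by
  unfold mdev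
  refine integral_congr_ae (Eventually.of_forall fun p => ?_)
  have h1 := U.norm_app k (μ.g p - (h : E m →L[ℝ] E m) (μ'.g p))
  rw [map_sub, ← D1_mul_app] at h1
  simp only
  rw [← D1_mul_app, inv_mul_cancel_right, h1]

theorem dmk_le (μ μ' : Marks m B Ω) (h : U m) : dmk Q μ μ' ≤ mdev Q μ μ' h :=
  ciInf_le ⟨0, by
    rintro _ ⟨k, rfl⟩
    exact mdev_nonneg μ μ' k⟩ h

theorem dmk_nonneg (μ μ' : Marks m B Ω) : 0 ≤ dmk Q μ μ' :=
  le_ciInf fun h => mdev_nonneg μ μ' h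

theorem exists_of_dmk_lt {μ μ' : Marks m B Ω} {ε : ℝ} (h : dmk Q μ μ' < ε) :
    ∃ h : U m, mdev Q μ μ' h < ε :=
  exists_lt_of_ciInf_lt h

theorem dmk_comm (μ μ' : Marks m B Ω) : dmk Q μ μ' = dmk Q μ' μ := by
  have key : ∀ ν ν' : Marks m B Ω, dmk Q ν ν' ≤ dmk Q ν' ν := fun ν ν' =>
    le_ciInf fun h => (dmk_le ν ν' h⁻¹).trans_eq (mdev_symm ν' ν h)
  exact le_antisymm (key μ μ') (key μ' μ)

theorem dmk_tri (μ μ' μ'' : Marks m B Ω) : dmk Q μ μ'' ≤ dmk Q μ μ' + dmk Q μ' μ'' := by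
  refine le_of_forall_pos_le_add fun δ hδ => ?_
  obtain ⟨h, h1⟩ := exists_of_dmk_lt (Q := Q) (μ := μ) (μ' := μ')
    (ε := dmk Q μ μ' + δ / 2) (by linarith)
  obtain ⟨h', h2⟩ := exists_of_dmk_lt (Q := Q) (μ := μ') (μ' := μ'')
    (ε := dmk Q μ' μ'' + δ / 2) (by linarith)
  linarith [dmk_le (Q := Q) μ μ'' (h * h'), mdev_tri (Q := Q) μ μ' μ'' h h']

end

variable {m : ℕ} {B : ℝ} {b : Bool} {G : Subgroup (U m)} {x y z : MK m B} {ε : ℝ}

theorem D1_nonempty :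
    {ε | 0 ≤ ε ∧ ∃ s : Span x.A y.A, s.Close b ε ∧ ∃ h ∈ G, s.mdev x.μ y.μ h ≤ ε}.Nonempty := by
  obtain ⟨s, hs⟩ := exists_span (b := b) (A := x.A) (B := y.A) (ε := 2)
    (by linarith [DD_le_one b x.A y.A])
  have h0 : 0 ≤ s.mdev x.μ y.μ 1 := mdev_nonneg _ _ 1
  exact ⟨2 + s.mdev x.μ y.μ 1, by linarith, s, hs.mono (by linarith), 1, G.one_mem, by linarith⟩

theorem D1_close_id {A : PM} (hε : 0 ≤ ε) : (Span.ofMap (MeasurePreserving.id A.P)).Close b ε :=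
  BoxC.close A.hd A.hd (boxC_of_ae (G := univ) (Eventually.of_forall fun _ => mem_univ _) hε
    (fun p _ q _ => by simpa using hε))

theorem DM_le {s : Span x.A y.A} (hs : s.Close b ε) {h : U m} (hG : h ∈ G)
    (hm : s.mdev x.μ y.μ h ≤ ε) : DM b G x y ≤ ε :=
  csInf_le ⟨0, fun _ he => he.1⟩ ⟨(mdev_nonneg _ _ h).trans hm, s, hs, h, hG, hm⟩

theorem exists_of_DM_lt (h : DM b G x y < ε) :
    ∃ s : Span x.A y.A, s.Close b ε ∧ ∃ h ∈ G, s.mdev x.μ y.μ h ≤ ε := by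
  obtain ⟨e, ⟨_, s, hs, k, hk, hm⟩, he⟩ := exists_lt_of_csInf_lt D1_nonempty h
  exact ⟨s, hs.mono he.le, k, hk, hm.trans he.le⟩

theorem DM_nonneg : 0 ≤ DM b G x y :=
  le_csInf D1_nonempty fun _ he => he.1

theorem DM_self : DM b G x x = 0 := by
  refine le_antisymm ?_ DM_nonneg
  refine DM_le (s := Span.ofMap (MeasurePreserving.id x.A.P)) (D1_close_id le_rfl) G.one_mem ?_
  exact (mdev_self (Q := x.A.P) x.μ).le

theorem DM_comm : DM b G x y = DM b G y x := by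
  have key : ∀ u v : MK m B, DM b G u v ≤ DM b G v u := fun u v => by
    refine le_of_forall_pos_le_add fun δ hδ => ?_
    obtain ⟨s, hs, h, hG, hm⟩ := exists_of_DM_lt (b := b) (G := G) (x := v) (y := u)
      (ε := DM b G v u + δ) (by linarith)
    exact DM_le (s := s.symm) hs.symm (G.inv_mem hG) ((mdev_symm _ _ h).trans_le hm)
  exact le_antisymm (key x y) (key y x)

theorem DM_triangle : DM b G x z ≤ DM b G x y + DM b G y z := by
  refine le_of_forall_pos_le_add fun δ hδ => ?_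
  obtain ⟨s₁, hs₁, h, hG, hm⟩ := exists_of_DM_lt (b := b) (G := G) (x := x) (y := y)
    (ε := DM b G x y + δ / 2) (by linarith)
  obtain ⟨s₂, hs₂, h', hG', hm'⟩ := exists_of_DM_lt (b := b) (G := G) (x := y) (y := z)
    (ε := DM b G y z + δ / 2) (by linarith)
  obtain ⟨s, p₁, p₂, m₁, m₂, e₁, e₂, e₃, hc⟩ := Span.glue s₁ s₂
  have t := mdev_tri (Q := s.Q) (x.μ.pull s.hl.measurable)
    ((y.μ.pull s₁.hr.measurable).pull m₁.measurable) (z.μ.pull s.hr.measurable) h h'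
  have a₁ : mdev s.Q (x.μ.pull s.hl.measurable) ((y.μ.pull s₁.hr.measurable).pull m₁.measurable) h
      = s₁.mdev x.μ y.μ h := by
    rw [Span.mdev, ← mdev_pull _ _ h m₁]
    refine mdev_congr h (Eventually.of_forall fun p => ?_) (Eventually.of_forall fun p => ?_)
    · simp only [e₁, and_self]
    · exact ⟨rfl, rfl⟩
  have a₂ : mdev s.Q ((y.μ.pull s₁.hr.measurable).pull m₁.measurable) (z.μ.pull s.hr.measurable) h'
      = s₂.mdev y.μ z.μ h' := by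
    rw [Span.mdev, ← mdev_pull _ _ h' m₂]
    refine mdev_congr h' ?_ (Eventually.of_forall fun p => ?_)
    · filter_upwards [e₃] with p hp
      simp only [hp, and_self]
    · simp only [e₂, and_self]
  have fin : DM b G x z ≤ (DM b G x y + δ / 2) + (DM b G y z + δ / 2) := by
    refine DM_le (s := s) (hc b _ _ hs₁ hs₂) (G.mul_mem hG hG') ?_
    rw [a₁, a₂] at t
    exact t.trans (add_le_add hm hm')
  linarith

theorem DD_le_DM : DD b x.A y.A ≤ DM b G x y :=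
  le_csInf D1_nonempty fun _ he => by
    obtain ⟨_, s, hs, _⟩ := he
    exact DD_le hs

theorem DM_top_le : DM b ⊤ x y ≤ DM b G x y :=
  le_csInf D1_nonempty fun _ he => by
    obtain ⟨_, s, hs, h, _, hm⟩ := he
    exact DM_le hs (Subgroup.mem_top h) hm

theorem DM_same {A : PM} (μ μ' : Marks m B A.Ω) {h : U m} (hG : h ∈ G) :
    DM b G ⟨A, μ⟩ ⟨A, μ'⟩ ≤ mdev A.P μ μ' h :=
  DM_le (x := ⟨A, μ⟩) (y := ⟨A, μ'⟩) (s := Span.ofMap (MeasurePreserving.id A.P))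
    (D1_close_id (mdev_nonneg μ μ' h)) hG le_rfl

theorem DM_top_le_dmk {A : PM} (μ μ' : Marks m B A.Ω) : DM b ⊤ ⟨A, μ⟩ ⟨A, μ'⟩ ≤ dmk A.P μ μ' :=
  le_ciInf fun h => DM_same μ μ' (Subgroup.mem_top h)

theorem DM_map_le {τ : x.A.Ω → y.A.Ω} (hτ : MeasurePreserving τ x.A.P y.A.P)
    (h : BoxC x.A.P x.A.d (fun p q => y.A.d (τ p) (τ q)) ε)
    (hm : mdev x.A.P x.μ (y.μ.pull hτ.measurable) 1 ≤ ε) : DM b G x y ≤ ε :=
  DM_le (s := Span.ofMap hτ) (BoxC.close x.A.hd (y.A.hd.pull hτ.measurable) h) G.one_mem hm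

end Pool.Agent.P.MP_de432b_gt.LC
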