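import Pool.Agent.P.MP_de432b_gt.LC.D3

namespace Pool.Agent.P.MP_de432b_gt.LC

open MeasureTheory Set Filter Topology
open scoped unitInterval RealInnerProductSpace

variable {m : ℕ} {B : ℝ} {b : Bool} {ga ga' : Gauge m B} {A : PM}

theorem Small.of_false {dev : (A' : PM) → Span A A' → ℝ} (h : Small false A dev) :
    Small b A dev := fun δ hδ => by
  obtain ⟨r, hr, H⟩ := h δ hδ
  exact ⟨r, hr, fun A' s hs => H A' s hs.conc⟩

theorem SC.of_false (h : SC false ga A) : SC b ga A := fun δ hδ => by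
  obtain ⟨r, hr, H⟩ := h δ hδ
  exact ⟨r, hr, fun A' s hs => H A' s hs.conc⟩

theorem SC.cont (h : SC b ga A) {δ : ℝ} (hδ : 0 < δ) : ∃ r : ℝ, 0 < r ∧
    ∀ A', DD b A A' < r → DM b ⊤ ⟨A, ga A⟩ ⟨A', ga A'⟩ ≤ δ := by
  obtain ⟨r, hr, H⟩ := h δ hδ
  refine ⟨min r δ, lt_min hr hδ, fun A' hA => ?_⟩
  obtain ⟨s, hs⟩ := exists_span hA
  obtain ⟨k, hk⟩ := H A' s (hs.mono (min_le_left _ _))
  exact DM_le (x := ⟨A, ga A⟩) (y := ⟨A', ga A'⟩) (s := s) (hs.mono (min_le_right _ _))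
    (Subgroup.mem_top k) hk

theorem D2_three {A' : PM} (s : Span A A') (ν μ : Marks m B A.Ω) (μ' ν' : Marks m B A'.Ω)
    (k h k' : U m) : s.mdev ν ν' (k * h * k') ≤
      mdev A.P ν μ k + s.mdev μ μ' h + mdev A'.P μ' ν' k' := by
  unfold Span.mdev
  rw [← mdev_pull ν μ k s.hl, ← mdev_pull μ' ν' k' s.hr]
  have h1 := mdev_tri (Q := s.Q) (ν.pull s.hl.measurable) (μ'.pull s.hr.measurable)
    (ν'.pull s.hr.measurable) (k * h) k'
  have h2 := mdev_tri (Q := s.Q) (ν.pull s.hl.measurable) (μ.pull s.hl.measurable)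
    (μ'.pull s.hr.measurable) k h
  linarith

theorem SC.dmk_cont (h : SC b ga A) (h' : SC b ga' A) {δ : ℝ} (hδ : 0 < δ) : ∃ r : ℝ, 0 < r ∧
    ∀ A', DD b A A' < r → dmk A'.P (ga A') (ga' A') ≤ dmk A.P (ga A) (ga' A) + δ := by
  obtain ⟨r, hr, H⟩ := h (δ / 2) (by positivity)
  obtain ⟨r', hr', H'⟩ := h' (δ / 2) (by positivity)
  refine ⟨min r r', lt_min hr hr', fun A' hA => ?_⟩
  obtain ⟨s, hs⟩ := exists_span hA
  obtain ⟨k, hk⟩ := H A' s (hs.mono (min_le_left _ _))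
  obtain ⟨k', hk'⟩ := H' A' s (hs.mono (min_le_right _ _))
  refine le_of_forall_pos_le_add fun ε hε => ?_
  obtain ⟨g, hg⟩ := exists_of_dmk_lt (Q := A.P) (μ := ga A) (μ' := ga' A)
    (lt_add_of_pos_right _ hε)
  unfold Span.mdev at hk hk'
  have h0 := dmk_le (Q := A'.P) (ga A') (ga' A') (k⁻¹ * g * k')
  rw [← mdev_pull _ _ _ s.hr] at h0
  rw [← mdev_pull _ _ _ s.hl] at hg
  have h1 := mdev_tri (Q := s.Q) ((ga A').pull s.hr.measurable) ((ga' A).pull s.hl.measurable)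
    ((ga' A').pull s.hr.measurable) (k⁻¹ * g) k'
  have h2 := mdev_tri (Q := s.Q) ((ga A').pull s.hr.measurable) ((ga A).pull s.hl.measurable)
    ((ga' A).pull s.hl.measurable) k⁻¹ g
  have h3 := mdev_symm (Q := s.Q) ((ga A).pull s.hl.measurable) ((ga A').pull s.hr.measurable) k
  linarith

/-- Strong continuity is locally uniform. -/
theorem SC.unif (h : SC b ga A) {δ : ℝ} (hδ : 0 < δ) : ∃ r : ℝ, 0 < r ∧
    ∀ A', DD b A A' < r → ∀ (z : PM) (s : Span A' z), s.Close b r →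
      ∃ h : U m, s.mdev (ga A') (ga z) h ≤ δ := by
  obtain ⟨r, hr, H⟩ := h (δ / 2) (by positivity)
  refine ⟨r / 2, by positivity, fun A' hA z s hs => ?_⟩
  obtain ⟨s₁, hs₁⟩ := exists_span hA
  obtain ⟨t, p₁, p₂, hp₁, hp₂, el, er, hae, hcl⟩ := s₁.glue s
  obtain ⟨k, hk⟩ := H z t (by simpa using hcl b _ _ hs₁ hs)
  obtain ⟨k₁, hk₁⟩ := H A' s₁ (hs₁.mono (by linarith))
  refine ⟨k₁⁻¹ * k, ?_⟩
  unfold Span.mdev at hk hk₁ ⊢
  rw [← mdev_pull _ _ _ hp₂]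
  rw [← mdev_pull _ _ _ hp₁] at hk₁
  have h1 := mdev_tri (Q := t.Q) (((ga A').pull s.hl.measurable).pull hp₂.measurable)
    ((ga A).pull t.hl.measurable) (((ga z).pull s.hr.measurable).pull hp₂.measurable) k₁⁻¹ k
  have h2 := mdev_symm (Q := t.Q) ((ga A).pull t.hl.measurable)
    (((ga A').pull s.hl.measurable).pull hp₂.measurable) k₁
  have h3 : mdev t.Q ((ga A).pull t.hl.measurable)
      (((ga A').pull s.hl.measurable).pull hp₂.measurable) k₁ =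
      mdev t.Q (((ga A).pull s₁.hl.measurable).pull hp₁.measurable)
        (((ga A').pull s₁.hr.measurable).pull hp₁.measurable) k₁ := by
    refine mdev_congr k₁ (Eventually.of_forall fun p => ?_) ?_
    · simp only [el p, and_self]
    · filter_upwards [hae] with p hp
      simp only [hp, and_self]
  have h4 : mdev t.Q ((ga A).pull t.hl.measurable)
      (((ga z).pull s.hr.measurable).pull hp₂.measurable) k =
      mdev t.Q ((ga A).pull t.hl.measurable) ((ga z).pull t.hr.measurable) k := by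
    refine mdev_congr k (Eventually.of_forall fun p => ⟨rfl, rfl⟩)
      (Eventually.of_forall fun p => ?_)
    simp only [er p, and_self]
  linarith

theorem D2_mix_eq {Ω : Type} [MeasurableSpace Ω] (Q : Measure Ω) (μ μ' : Marks m B Ω) (χ : I)
    (h : U m) : mdev Q μ (μ.comb χ (μ'.act h)) 1 = χ * mdev Q μ μ' h := by
  unfold mdev
  rw [← integral_const_mul]
  refine integral_congr_ae (Eventually.of_forall fun p => ?_)
  have e1 : μ.g p - ((1 - χ : ℝ) • μ.g p + (χ : ℝ) • (h : E m →L[ℝ] E m) (μ'.g p)) =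
      (χ : ℝ) • (μ.g p - (h : E m →L[ℝ] E m) (μ'.g p)) := by
    rw [sub_smul, one_smul, smul_sub]; abel
  have e2 : μ.c p - ((1 - χ : ℝ) * μ.c p + χ * μ'.c p) = χ * (μ.c p - μ'.c p) := by ring
  simp only [OneMemClass.coe_one, one_apply_eq_self]
  rw [e1, e2, norm_smul, abs_mul, Real.norm_of_nonneg χ.2.1, abs_of_nonneg χ.2.1, mul_add]

theorem D2_mix_eq' {Ω : Type} [MeasurableSpace Ω] (Q : Measure Ω) (μ μ' : Marks m B Ω) (χ : I)
    (h : U m) : mdev Q (μ.comb χ (μ'.act h)) μ' h = (1 - χ) * mdev Q μ μ' h := by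
  unfold mdev
  rw [← integral_const_mul]
  refine integral_congr_ae (Eventually.of_forall fun p => ?_)
  have e1 : ((1 - χ : ℝ) • μ.g p + (χ : ℝ) • (h : E m →L[ℝ] E m) (μ'.g p)) -
      (h : E m →L[ℝ] E m) (μ'.g p) =
      (1 - χ : ℝ) • (μ.g p - (h : E m →L[ℝ] E m) (μ'.g p)) := by
    rw [smul_sub, sub_smul, sub_smul, one_smul, one_smul]; abel
  have e2 : ((1 - χ : ℝ) * μ.c p + χ * μ'.c p) - μ'.c p = (1 - χ) * (μ.c p - μ'.c p) := by ring
  have h0 : (0 : ℝ) ≤ 1 - χ := sub_nonneg.mpr χ.2.2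
  simp only
  rw [e1, e2, norm_smul, abs_mul, Real.norm_of_nonneg h0, abs_of_nonneg h0, mul_add]

theorem mix_near (μ μ' : Marks m B A.Ω) (χ : I) :
    mdev A.P μ (mixK A.P χ μ μ') 1 ≤ χ * (2 * B + 1) := by
  rw [D2_mix_eq]
  exact mul_le_mul_of_nonneg_left (mdev_le _ _ _) χ.2.1

theorem mix_near' (μ μ' : Marks m B A.Ω) (χ : I) :
    mdev A.P (mixK A.P χ μ μ') μ' (bestU A.P μ μ') ≤ (1 - χ) * (2 * B + 1) := by
  rw [D2_mix_eq']
  exact mul_le_mul_of_nonneg_left (mdev_le _ _ _) (sub_nonneg.mpr χ.2.2)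

theorem D2_B_nonneg (μ : Marks m B A.Ω) : 0 ≤ B := by
  obtain ⟨p⟩ := nonempty_of_isProbabilityMeasure A.P
  exact (norm_nonneg _).trans (μ.bg p)

theorem D2_meas (μ μ' : Marks m B A.Ω) (h : U m) :
    Measurable fun p => ‖μ.g p - (h : E m →L[ℝ] E m) (μ'.g p)‖ :=
  (μ.hg.sub (μ'.act h).hg).norm

theorem D2_bd (μ μ' : Marks m B A.Ω) (h : U m) (p : A.Ω) :
    ‖μ.g p - (h : E m →L[ℝ] E m) (μ'.g p)‖ ≤ 2 * B :=
  (norm_sub_le _ _).trans (by linarith [μ.bg p, (μ'.act h).bg p])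

theorem D2_int (μ μ' : Marks m B A.Ω) (h : U m) :
    Integrable (fun p => ‖μ.g p - (h : E m →L[ℝ] E m) (μ'.g p)‖) A.P :=
  Integrable.of_bound (D2_meas μ μ' h).aestronglyMeasurable (2 * B)
    (Eventually.of_forall fun p => by rw [norm_norm]; exact D2_bd μ μ' h p)

theorem D2_int2 (μ μ' : Marks m B A.Ω) (h : U m) :
    Integrable (fun p => ‖μ.g p - (h : E m →L[ℝ] E m) (μ'.g p)‖ ^ 2) A.P :=
  Integrable.of_bound ((D2_meas μ μ' h).pow_const 2).aestronglyMeasurable ((2 * B) ^ 2)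
    (Eventually.of_forall fun p => by
      rw [norm_pow, norm_norm]
      exact pow_le_pow_left₀ (norm_nonneg _) (D2_bd μ μ' h p) 2)

theorem D2_sq_le {Ω : Type} [MeasurableSpace Ω] (Q : Measure Ω) [IsProbabilityMeasure Q]
    {φ : Ω → ℝ} (h1 : Integrable φ Q) (h2 : Integrable (fun p => φ p ^ 2) Q) :
    (∫ p, φ p ∂Q) ^ 2 ≤ ∫ p, φ p ^ 2 ∂Q := by
  set a := ∫ p, φ p ∂Q with ha
  have h3 : ∫ p, (2 * a * φ p - a ^ 2) ∂Q ≤ ∫ p, φ p ^ 2 ∂Q :=
    integral_mono ((h1.const_mul _).sub (integrable_const _)) h2 fun p => by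
      nlinarith [sq_nonneg (φ p - a)]
  rw [integral_sub (h1.const_mul _) (integrable_const _), integral_const_mul, integral_const,
    ← ha] at h3
  simp only [probReal_univ, smul_eq_mul, one_mul] at h3
  nlinarith

theorem mix_close (μ μ' : Marks m B A.Ω) (χ : I) {δ : ℝ} (h : dmk A.P μ μ' < δ) :
    mdev A.P μ (mixK A.P χ μ μ') 1 ≤ √(2 * B * δ) + δ := by
  obtain ⟨k, hk⟩ := exists_of_dmk_lt h
  have hB := D2_B_nonneg μ
  rw [D2_mix_eq]
  refine (mul_le_of_le_one_left (mdev_nonneg _ _ _) χ.2.2).trans ?_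
  have hc : Integrable (fun p => |μ.c p - μ'.c p|) A.P := by
    have := (integrable_mdev (Q := A.P) μ μ' k).sub (D2_int μ μ' k)
    refine this.congr (Eventually.of_forall fun p => ?_)
    simp
  have e : mdev A.P μ μ' (bestU A.P μ μ') =
      ∫ p, ‖μ.g p - (bestU A.P μ μ' : E m →L[ℝ] E m) (μ'.g p)‖ ∂A.P +
        ∫ p, |μ.c p - μ'.c p| ∂A.P := integral_add (D2_int _ _ _) hc
  have h1 := mdev_c_le (Q := A.P) μ μ' k
  have h2 := mdev_g_le (Q := A.P) μ μ' k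
  have h3 := bestU_spec A.P μ μ' k
  have h4 := D2_sq_le A.P (D2_int μ μ' (bestU A.P μ μ')) (D2_int2 μ μ' (bestU A.P μ μ'))
  have h5 : ∫ p, ‖μ.g p - (k : E m →L[ℝ] E m) (μ'.g p)‖ ^ 2 ∂A.P ≤
      2 * B * ∫ p, ‖μ.g p - (k : E m →L[ℝ] E m) (μ'.g p)‖ ∂A.P := by
    rw [← integral_const_mul]
    refine integral_mono (D2_int2 μ μ' k) ((D2_int μ μ' k).const_mul _) fun p => ?_
    simp only [pow_two]
    exact mul_le_mul_of_nonneg_right (D2_bd μ μ' k p) (norm_nonneg _)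
  have h6 : 2 * B * ∫ p, ‖μ.g p - (k : E m →L[ℝ] E m) (μ'.g p)‖ ∂A.P ≤ 2 * B * δ :=
    mul_le_mul_of_nonneg_left (by linarith) (by linarith)
  have h7 : ∫ p, ‖μ.g p - (bestU A.P μ μ' : E m →L[ℝ] E m) (μ'.g p)‖ ∂A.P ≤ √(2 * B * δ) :=
    Real.le_sqrt_of_sq_le (by linarith)
  linarith

/-- Strong continuity of the mixture of two gauges. -/
theorem SC.mix {γ : ℝ} (hγ : MixOK m γ) {χ : PM → I}
    (hχ : ∀ δ : ℝ, 0 < δ → ∃ r : ℝ, 0 < r ∧ ∀ A', DD b A A' < r → |(χ A : ℝ) - χ A'| ≤ δ)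
    (h : (χ A = 0 ∧ SC b ga A) ∨ (χ A = 1 ∧ SC b ga' A) ∨ (SC b ga A ∧ SC b ga' A ∧
      gram (A.P.map (ga A).g) ≤ γ ∧ dmk A.P (ga A) (ga' A) * (B + 1) ≤ γ)) :
    SC b (fun z => mixK z.P (χ z) (ga z) (ga' z)) A := by
  intro δ hδ
  have hB := D2_B_nonneg (ga A)
  have hM : 0 < 2 * B + 1 := by linarith
  have hη : δ / 2 / (2 * B + 1) * (2 * B + 1) = δ / 2 := div_mul_cancel₀ _ hM.ne'
  rcases h with ⟨h0, h⟩ | ⟨h0, h⟩ | ⟨h, h', hg, hd⟩
  · obtain ⟨r, hr, H⟩ := h (δ / 2) (by positivity)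
    obtain ⟨r', hr', H'⟩ := hχ (δ / 2 / (2 * B + 1)) (by positivity)
    refine ⟨min r (r' / 2), lt_min hr (by positivity), fun A' s hs => ?_⟩
    obtain ⟨k, hk⟩ := H A' s (hs.mono (min_le_left _ _))
    have hx := H' A' ((DD_le (hs.mono (min_le_right _ _))).trans_lt (by linarith))
    refine ⟨1⁻¹ * k * 1, (D2_three s _ (ga A) (ga A') _ _ _ _).trans ?_⟩
    rw [mdev_symm]
    have h1 := mix_near (ga A) (ga' A) (χ A)
    have h2 := mix_near (ga A') (ga' A') (χ A')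
    have h3 : (χ A : ℝ) = 0 := by rw [h0]; rfl
    rw [h3] at hx
    have h4 : (χ A' : ℝ) * (2 * B + 1) ≤ δ / 2 / (2 * B + 1) * (2 * B + 1) :=
      mul_le_mul_of_nonneg_right (by linarith [(abs_le.mp hx).1]) hM.le
    have h5 : (χ A : ℝ) * (2 * B + 1) = 0 := by rw [h3, zero_mul]
    linarith
  · obtain ⟨r, hr, H⟩ := h (δ / 2) (by positivity)
    obtain ⟨r', hr', H'⟩ := hχ (δ / 2 / (2 * B + 1)) (by positivity)
    refine ⟨min r (r' / 2), lt_min hr (by positivity), fun A' s hs => ?_⟩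
    obtain ⟨k, hk⟩ := H A' s (hs.mono (min_le_left _ _))
    have hx := H' A' ((DD_le (hs.mono (min_le_right _ _))).trans_lt (by linarith))
    refine ⟨bestU A.P (ga A) (ga' A) * k * (bestU A'.P (ga A') (ga' A'))⁻¹,
      (D2_three s _ (ga' A) (ga' A') _ _ _ _).trans ?_⟩
    rw [mdev_symm]
    have h1 := mix_near' (ga A) (ga' A) (χ A)
    have h2 := mix_near' (ga A') (ga' A') (χ A')
    have h3 : (χ A : ℝ) = 1 := by rw [h0]; rfl
    rw [h3] at hx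
    have h4 : (1 - χ A' : ℝ) * (2 * B + 1) ≤ δ / 2 / (2 * B + 1) * (2 * B + 1) :=
      mul_le_mul_of_nonneg_right (by linarith [(abs_le.mp hx).2]) hM.le
    have h5 : (1 - χ A : ℝ) * (2 * B + 1) = 0 := by rw [h3, sub_self, zero_mul]
    linarith
  · obtain ⟨η, hη0, K⟩ := hγ B δ hδ
    obtain ⟨r, hr, H⟩ := h η hη0
    obtain ⟨r₁, hr₁, H₁⟩ := h' η hη0
    obtain ⟨r', hr', H'⟩ := hχ η hη0
    refine ⟨min (min r r₁) (r' / 2), lt_min (lt_min hr hr₁) (by positivity), fun A' s hs => ?_⟩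
    obtain ⟨k, hk⟩ := H A' s (hs.mono ((min_le_left _ _).trans (min_le_left _ _)))
    obtain ⟨k₁, hk₁⟩ := H₁ A' s (hs.mono ((min_le_left _ _).trans (min_le_right _ _)))
    have hx := H' A' ((DD_le (hs.mono (min_le_right _ _))).trans_lt (by linarith))
    exact ⟨k, K A A' s _ _ _ _ k k₁ _ _ hg hd hk hk₁ hx⟩

end Pool.Agent.P.MP_de432b_gt.LC
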