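import Pool.Agent.P.MP_de432b_gt.LC.B1
import Pool.Agent.P.MP_de432b_gt.LC.D1

namespace Pool.Agent.P.MP_de432b_gt.LC

open MeasureTheory Set Filter Topology
open scoped unitInterval RealInnerProductSpace

/-- Tuples of vectors. -/
abbrev D3_W (m : ℕ) : Type := PiLp 2 (fun _ : Fin m => E m)

/-- The columns of an operator. -/
noncomputable def D3_D (m : ℕ) : (E m →L[ℝ] E m) →L[ℝ] D3_W m where
  toFun M := WithLp.toLp 2 fun j => M (EuclideanSpace.single j 1)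
  map_add' _ _ := by ext1 j; simp
  map_smul' _ _ := by ext1 j; simp
  cont := (PiLp.continuous_toLp 2 _).comp
    (continuous_pi fun _ => continuous_id.clm_apply continuous_const)

theorem D3_D_apply {m : ℕ} (M : E m →L[ℝ] E m) (j : Fin m) :
    D3_D m M j = M (EuclideanSpace.single j 1) := rfl

/-- The componentwise action. -/
noncomputable def D3_pi {m : ℕ} (g : U m) : D3_W m →ₗᵢ[ℝ] D3_W m where
  toFun w := WithLp.toLp 2 fun j => (g : E m →L[ℝ] E m) (w j)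
  map_add' v w := by ext1 j; simp
  map_smul' c w := by ext1 j; simp
  norm_map' w := by
    rw [PiLp.norm_eq_of_L2, PiLp.norm_eq_of_L2]
    simp [U.norm_app]

theorem D3_sum {m : ℕ} (x : E m) : ∑ j, x j • EuclideanSpace.single j (1 : ℝ) = x := by
  simpa using (EuclideanSpace.basisFun (Fin m) ℝ).sum_repr x

theorem D3_norm_le {m : ℕ} (w : D3_W m) {c : ℝ} (hc : 0 ≤ c) (h : ∀ j, ‖w j‖ ≤ c) :
    ‖w‖ ≤ m * c := by
  refine (pow_le_pow_iff_left₀ (norm_nonneg _) (by positivity) two_ne_zero).1 ?_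
  rw [PiLp.norm_sq_eq_of_L2]
  calc ∑ j, ‖w j‖ ^ 2 ≤ ∑ _j : Fin m, c ^ 2 := Finset.sum_le_sum fun j _ => by gcongr; exact h j
    _ = m * c ^ 2 := by simp
    _ ≤ (m * c) ^ 2 := by
      rw [mul_pow]
      gcongr
      exact_mod_cast Nat.le_self_pow two_ne_zero m

theorem D3_op_le {m : ℕ} (M : E m →L[ℝ] E m) : ‖M‖ ≤ m * ‖D3_D m M‖ := by
  refine M.opNorm_le_bound (by positivity) fun x => ?_
  conv_lhs => rw [← D3_sum x, map_sum]
  refine (norm_sum_le _ _).trans ?_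
  calc _ ≤ ∑ _j : Fin m, ‖D3_D m M‖ * ‖x‖ := Finset.sum_le_sum fun j _ => by
        rw [map_smul, norm_smul, mul_comm]
        exact mul_le_mul (PiLp.norm_apply_le (D3_D m M) j) (PiLp.norm_apply_le x j)
          (norm_nonneg _) (norm_nonneg _)
    _ = _ := by simp [mul_assoc]

theorem D3_norm_D {m : ℕ} (h : U m) : ‖D3_D m (h : E m →L[ℝ] E m)‖ ^ 2 = m := by
  rw [PiLp.norm_sq_eq_of_L2]
  simp [D3_D_apply, U.norm_app]

theorem D3_core (m : ℕ) : ∃ r : ℝ, 0 < r ∧ ∀ (w w' : D3_W m) (g g' : U m),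
    (∀ h : U m, ‖w - D3_D m g‖ ≤ ‖w - D3_D m h‖) →
    (∀ h : U m, ‖w' - D3_D m g'‖ ≤ ‖w' - D3_D m h‖) → ‖w - D3_D m g‖ < r →
    ‖w' - D3_D m g'‖ < r → ‖D3_D m g - D3_D m g'‖ ≤ 2 * ‖w - w'‖ :=
  slice_core D3_pi (p := fun h : U m => D3_D m h)
    ((D3_D m).continuous.comp continuous_subtype_val) (fun _ _ => rfl) (D3_D m) 0
    (fun g => by simp)

theorem D3_pull {Ω Ω' F : Type} [MeasurableSpace Ω] [MeasurableSpace Ω'] [NormedAddCommGroup F]
    [NormedSpace ℝ F] {Q : Measure Ω} {Q' : Measure Ω'} {τ : Ω' → Ω}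
    (hτ : MeasurePreserving τ Q' Q) {f : Ω → F} (hf : AEStronglyMeasurable f Q) :
    ∫ p, f (τ p) ∂Q' = ∫ p, f p ∂Q := by
  rw [← hτ.map_eq] at hf ⊢
  exact (integral_map hτ.measurable.aemeasurable hf).symm

section
variable {m : ℕ} {B : ℝ} {Ω : Type} [MeasurableSpace Ω] (Q : Measure Ω) [IsProbabilityMeasure Q]

/-- The mixed second moments. -/
noncomputable def D3_w (μ μ' : Marks m B Ω) : D3_W m :=
  WithLp.toLp 2 fun j => ∫ p, μ'.g p j • μ.g p ∂Q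

theorem D3_meas (μ μ' : Marks m B Ω) (j : Fin m) : Measurable fun p => μ'.g p j • μ.g p :=
  ((EuclideanSpace.proj j : E m →L[ℝ] ℝ).continuous.measurable.comp μ'.hg).smul μ.hg

theorem D3_int (μ μ' : Marks m B Ω) (j : Fin m) : Integrable (fun p => μ'.g p j • μ.g p) Q := by
  refine Integrable.of_bound (D3_meas μ μ' j).aestronglyMeasurable (B * B)
    (ae_of_all _ fun p => ?_)
  rw [norm_smul]
  exact mul_le_mul ((PiLp.norm_apply_le _ j).trans (μ'.bg p)) (μ.bg p) (norm_nonneg _)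
    ((norm_nonneg _).trans (μ.bg p))

theorem D3_int_sq (μ : Marks m B Ω) : Integrable (fun p => ‖μ.g p‖ ^ 2) Q := by
  refine Integrable.of_bound (μ.hg.norm.pow_const 2).aestronglyMeasurable (B ^ 2)
    (ae_of_all _ fun p => ?_)
  rw [norm_pow, norm_norm]
  exact pow_le_pow_left₀ (norm_nonneg _) (μ.bg p) 2

theorem D3_int_sub (μ μ' : Marks m B Ω) : Integrable (fun p => ‖μ.g p - μ'.g p‖) Q := by
  refine Integrable.of_bound (μ.hg.sub μ'.hg).norm.aestronglyMeasurable (B + B)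
    (ae_of_all _ fun p => ?_)
  rw [norm_norm]
  exact (norm_sub_le _ _).trans (add_le_add (μ.bg p) (μ'.bg p))

theorem D3_formula (μ μ' : Marks m B Ω) (h : U m) :
    ∫ p, ‖μ.g p - (h : E m →L[ℝ] E m) (μ'.g p)‖ ^ 2 ∂Q =
      ∫ p, ‖μ.g p‖ ^ 2 ∂Q + ∫ p, ‖μ'.g p‖ ^ 2 ∂Q - ‖D3_w Q μ μ'‖ ^ 2 - m +
        ‖D3_w Q μ μ' - D3_D m h‖ ^ 2 := by
  have hi : ∀ j, Integrable (fun p => ⟪D3_D m h j, μ'.g p j • μ.g p⟫) Q := fun j =>
    (D3_int Q μ μ' j).const_inner _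
  have h1 : ⟪D3_D m h, D3_w Q μ μ'⟫ = ∫ p, ∑ j, ⟪D3_D m h j, μ'.g p j • μ.g p⟫ ∂Q := by
    rw [integral_finsetSum _ fun j _ => hi j, PiLp.inner_apply]
    exact Finset.sum_congr rfl fun j _ => (integral_inner (D3_int Q μ μ' j) _).symm
  have h2 : ∀ p, ‖μ.g p - (h : E m →L[ℝ] E m) (μ'.g p)‖ ^ 2 =
      ‖μ.g p‖ ^ 2 + ‖μ'.g p‖ ^ 2 - 2 * ∑ j, ⟪D3_D m h j, μ'.g p j • μ.g p⟫ := by
    intro p
    have h3 : ⟪μ.g p, (h : E m →L[ℝ] E m) (μ'.g p)⟫ = ∑ j, ⟪D3_D m h j, μ'.g p j • μ.g p⟫ := by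
      conv_lhs => rw [← D3_sum (μ'.g p), map_sum, inner_sum]
      refine Finset.sum_congr rfl fun j _ => ?_
      rw [map_smul, real_inner_smul_right, real_inner_smul_right, D3_D_apply, real_inner_comm]
    rw [norm_sub_sq_real, U.norm_app, h3]
    ring
  simp only [h2]
  have i1 : Integrable (fun p => ‖μ.g p‖ ^ 2 + ‖μ'.g p‖ ^ 2) Q :=
    (D3_int_sq Q μ).add (D3_int_sq Q μ')
  have i2 : Integrable (fun p => 2 * ∑ j, ⟪D3_D m h j, μ'.g p j • μ.g p⟫) Q :=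
    (integrable_finsetSum _ fun j _ => hi j).const_mul 2
  rw [integral_sub i1 i2,
    integral_add (D3_int_sq Q μ) (D3_int_sq Q μ'), integral_const_mul, ← h1, norm_sub_sq_real,
    D3_norm_D, real_inner_comm]
  ring

theorem D3_near {μ μ' : Marks m B Ω} {g h : U m} :
    ∫ p, ‖μ.g p - (g : E m →L[ℝ] E m) (μ'.g p)‖ ^ 2 ∂Q ≤
      ∫ p, ‖μ.g p - (h : E m →L[ℝ] E m) (μ'.g p)‖ ^ 2 ∂Q ↔
    ‖D3_w Q μ μ' - D3_D m g‖ ≤ ‖D3_w Q μ μ' - D3_D m h‖ := by
  rw [D3_formula, D3_formula, add_le_add_iff_left,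
    pow_le_pow_iff_left₀ (norm_nonneg _) (norm_nonneg _) two_ne_zero]

theorem D3_lip (hB : 0 ≤ B) (a b a' b' : Marks m B Ω) : ‖D3_w Q a b - D3_w Q a' b'‖ ≤
    m * (B * (∫ p, ‖a.g p - a'.g p‖ ∂Q + ∫ p, ‖b.g p - b'.g p‖ ∂Q)) := by
  refine D3_norm_le _ (by positivity) fun j => ?_
  have h1 : (D3_w Q a b - D3_w Q a' b') j = ∫ p, (b.g p j • a.g p - b'.g p j • a'.g p) ∂Q :=
    (integral_sub (D3_int Q a b j) (D3_int Q a' b' j)).symm
  rw [h1, ← integral_add (D3_int_sub Q a a') (D3_int_sub Q b b'), ← integral_const_mul]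
  refine norm_integral_le_of_norm_le (((D3_int_sub Q a a').add (D3_int_sub Q b b')).const_mul B)
    (ae_of_all _ fun p => ?_)
  have e : b.g p j • a.g p - b'.g p j • a'.g p =
      b.g p j • (a.g p - a'.g p) + (b.g p - b'.g p) j • a'.g p := by
    rw [PiLp.sub_apply, smul_sub, sub_smul]; abel
  rw [e, mul_add]
  refine (norm_add_le _ _).trans (add_le_add ?_ ?_)
  · rw [norm_smul]
    exact mul_le_mul_of_nonneg_right ((PiLp.norm_apply_le _ j).trans (b.bg p)) (norm_nonneg _)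
  · rw [norm_smul, mul_comm]
    exact mul_le_mul (a'.bg p) (PiLp.norm_apply_le _ j) (norm_nonneg _) hB

theorem D3_inv_app (h : U m) (x : E m) :
    (h : E m →L[ℝ] E m) (((h⁻¹ : U m) : E m →L[ℝ] E m) x) = x := by
  rw [← mul_apply_eq_comp, ← Submonoid.coe_mul, mul_inv_cancel]; rfl

theorem D3_cont (m : ℕ) : Continuous fun x : E m => InnerProductSpace.rankOne ℝ x x := by
  rw [continuous_clm_apply]
  intro y
  simp only [InnerProductSpace.rankOne_apply]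
  fun_prop

theorem D3_gram (a : Marks m B Ω) (h : U m) :
    ‖D3_w Q a (a.act h⁻¹) - D3_D m h‖ ≤ m * gram (Q.map a.g) := by
  have hg0 : 0 ≤ gram (Q.map a.g) := by unfold gram; exact norm_nonneg _
  refine D3_norm_le _ hg0 fun j => ?_
  have hc : Continuous fun x : E m => InnerProductSpace.rankOne ℝ x x := D3_cont m
  have hi : Integrable (fun p => InnerProductSpace.rankOne ℝ (a.g p) (a.g p)) Q := by
    have h0 : AEStronglyMeasurable a.g Q := a.hg.aestronglyMeasurable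
    have h1 : AEStronglyMeasurable (fun p => InnerProductSpace.rankOne ℝ (a.g p) (a.g p)) Q :=
      Continuous.comp_aestronglyMeasurable
        (g := fun x : E m => InnerProductSpace.rankOne ℝ x x) hc h0
    refine Integrable.of_bound h1 (B * B) (ae_of_all _ fun p => ?_)
    rw [InnerProductSpace.norm_rankOne]
    exact mul_le_mul (a.bg p) (a.bg p) (norm_nonneg _) ((norm_nonneg _).trans (a.bg p))
  have h1 : (D3_w Q a (a.act h⁻¹) - D3_D m h) j =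
      ((∫ x, InnerProductSpace.rankOne ℝ x x ∂(Q.map a.g)) - 1)
        ((h : E m →L[ℝ] E m) (EuclideanSpace.single j 1)) := by
    rw [integral_map a.hg.aemeasurable hc.aestronglyMeasurable, sub_apply,
      ContinuousLinearMap.integral_apply hi, PiLp.sub_apply]
    congr 1
    refine integral_congr_ae (ae_of_all _ fun p => ?_)
    simp only [InnerProductSpace.rankOne_apply]
    congr 1
    conv_rhs => rw [← D3_inv_app h (a.g p)]
    rw [ContinuousLinearMap.inner_map_map_of_mem_unitary h.2]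
    simp [EuclideanSpace.inner_single_right]
  rw [h1]
  refine (ContinuousLinearMap.le_opNorm _ _).trans ?_
  rw [U.norm_app]
  simp [gram]

end

theorem bestU_spec {m : ℕ} {B : ℝ} {Ω : Type} [MeasurableSpace Ω] (Q : Measure Ω)
    [IsProbabilityMeasure Q] (μ μ' : Marks m B Ω) (h : U m) :
    ∫ p, ‖μ.g p - (bestU Q μ μ' : E m →L[ℝ] E m) (μ'.g p)‖ ^ 2 ∂Q ≤
      ∫ p, ‖μ.g p - (h : E m →L[ℝ] E m) (μ'.g p)‖ ^ 2 ∂Q := by
  obtain ⟨g, hg⟩ := exists_nearest (p := fun h : U m => D3_D m h)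
    ((D3_D m).continuous.comp continuous_subtype_val) (D3_w Q μ μ')
  exact Classical.epsilon_spec (p := fun h : U m => ∀ h' : U m,
    ∫ p, ‖μ.g p - (h : E m →L[ℝ] E m) (μ'.g p)‖ ^ 2 ∂Q ≤
      ∫ p, ‖μ.g p - (h' : E m →L[ℝ] E m) (μ'.g p)‖ ^ 2 ∂Q) ⟨g, fun h' => (D3_near Q).2 (hg h')⟩ h

theorem D3_w_pull {m : ℕ} {B : ℝ} {Ω Ω' : Type} [MeasurableSpace Ω] [MeasurableSpace Ω']
    {Q : Measure Ω} {Q' : Measure Ω'} {τ : Ω' → Ω} (hτ : MeasurePreserving τ Q' Q)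
    (μ μ' : Marks m B Ω) :
    D3_w Q' (μ.pull hτ.measurable) (μ'.pull hτ.measurable) = D3_w Q μ μ' := by
  ext1 j
  exact D3_pull hτ (D3_meas μ μ' j).aestronglyMeasurable

theorem D3_best_act {m : ℕ} {B : ℝ} {Ω : Type} [MeasurableSpace Ω] (Q : Measure Ω)
    [IsProbabilityMeasure Q] (μ μ' : Marks m B Ω) (h₁ h₂ h : U m) :
    ‖D3_w Q (μ.act h₁) (μ'.act h₂) - D3_D m (h₁ * bestU Q μ μ' * h₂⁻¹ : U m)‖ ≤
      ‖D3_w Q (μ.act h₁) (μ'.act h₂) - D3_D m h‖ := by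
  have key : ∀ (k : U m) (x y : E m), ‖(h₁ : E m →L[ℝ] E m) x -
      ((h₁ * k * h₂⁻¹ : U m) : E m →L[ℝ] E m) ((h₂ : E m →L[ℝ] E m) y)‖ =
        ‖x - (k : E m →L[ℝ] E m) y‖ := by
    intro k x y
    rw [← mul_apply_eq_comp, ← Submonoid.coe_mul, inv_mul_cancel_right, Submonoid.coe_mul,
      mul_apply_eq_comp, ← map_sub, U.norm_app]
  rw [← D3_near]
  have e : h = h₁ * (h₁⁻¹ * h * h₂) * h₂⁻¹ := by group
  rw [e]
  simp only [key]
  exact bestU_spec Q μ μ' _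

theorem D3_point {m : ℕ} {B : ℝ} {a b a' b' : E m} (hb : ‖b‖ ≤ B) (ha' : ‖a'‖ ≤ B)
    (hb' : ‖b'‖ ≤ B) (k k' h₁ h₂ : U m) {x x' : ℝ} (h0 : 0 ≤ x) (h1 : x ≤ 1) :
    ‖(1 - x) • a + x • (k : E m →L[ℝ] E m) b -
      (h₁ : E m →L[ℝ] E m) ((1 - x') • a' + x' • (k' : E m →L[ℝ] E m) b')‖ ≤
    ‖a - (h₁ : E m →L[ℝ] E m) a'‖ + ‖b - (h₂ : E m →L[ℝ] E m) b'‖ + |x - x'| * (2 * B) +
      ‖(k : E m →L[ℝ] E m) - (h₁ * k' * h₂⁻¹ : U m)‖ * B := by
  set l : U m := h₁ * k' * h₂⁻¹ with hl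
  have e1 : (h₁ : E m →L[ℝ] E m) ((k' : E m →L[ℝ] E m) b') =
      (l : E m →L[ℝ] E m) ((h₂ : E m →L[ℝ] E m) b') := by
    rw [← mul_apply_eq_comp, ← mul_apply_eq_comp, ← Submonoid.coe_mul, ← Submonoid.coe_mul, hl,
      inv_mul_cancel_right]
  have e : (1 - x) • a + x • (k : E m →L[ℝ] E m) b -
      (h₁ : E m →L[ℝ] E m) ((1 - x') • a' + x' • (k' : E m →L[ℝ] E m) b') =
      (1 - x) • (a - (h₁ : E m →L[ℝ] E m) a') +
        x • (l : E m →L[ℝ] E m) (b - (h₂ : E m →L[ℝ] E m) b') +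
        (x - x') • (h₁ : E m →L[ℝ] E m) ((k' : E m →L[ℝ] E m) b' - a') +
        x • ((k : E m →L[ℝ] E m) - l) b := by
    simp only [map_add, map_smul, map_sub, sub_apply, e1]
    module
  rw [e]
  refine (norm_add_le _ _).trans (add_le_add ((norm_add_le _ _).trans (add_le_add
    ((norm_add_le _ _).trans (add_le_add ?_ ?_)) ?_)) ?_)
  · rw [norm_smul, Real.norm_of_nonneg (by linarith)]
    exact mul_le_of_le_one_left (norm_nonneg _) (by linarith)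
  · rw [norm_smul, Real.norm_of_nonneg h0, U.norm_app]
    exact mul_le_of_le_one_left (norm_nonneg _) h1
  · rw [norm_smul, U.norm_app, Real.norm_eq_abs]
    refine mul_le_mul_of_nonneg_left ((norm_sub_le _ _).trans ?_) (abs_nonneg _)
    rw [U.norm_app]; linarith
  · rw [norm_smul, Real.norm_of_nonneg h0]
    refine (mul_le_of_le_one_left (norm_nonneg _) h1).trans
      ((ContinuousLinearMap.le_opNorm _ _).trans ?_)
    exact mul_le_mul_of_nonneg_left hb (norm_nonneg _)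

theorem D3_pointc {c d c' d' x x' : ℝ} (hc : c' ∈ Icc (0 : ℝ) 1) (hd : d' ∈ Icc (0 : ℝ) 1)
    (h0 : 0 ≤ x) (h1 : x ≤ 1) :
    |(1 - x) * c + x * d - ((1 - x') * c' + x' * d')| ≤ |c - c'| + |d - d'| + |x - x'| := by
  have e : (1 - x) * c + x * d - ((1 - x') * c' + x' * d') =
      (1 - x) * (c - c') + x * (d - d') + (x - x') * (d' - c') := by ring
  rw [e]
  refine (abs_add_le _ _).trans (add_le_add ((abs_add_le _ _).trans (add_le_add ?_ ?_)) ?_)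
  · rw [abs_mul, abs_of_nonneg (by linarith)]
    exact mul_le_of_le_one_left (abs_nonneg _) (by linarith)
  · rw [abs_mul, abs_of_nonneg h0]
    exact mul_le_of_le_one_left (abs_nonneg _) h1
  · rw [abs_mul]
    refine mul_le_of_le_one_right (abs_nonneg _) (abs_le.2 ⟨?_, ?_⟩) <;>
      linarith [hc.1, hc.2, hd.1, hd.2]

theorem D3_mono {Ω : Type} [MeasurableSpace Ω] {Q : Measure Ω} [IsProbabilityMeasure Q]
    {f g h : Ω → ℝ} {c : ℝ} (hf : Integrable f Q) (hg : Integrable g Q) (hh : Integrable h Q)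
    (hle : ∀ p, f p ≤ g p + h p + c) : ∫ p, f p ∂Q ≤ ∫ p, g p ∂Q + ∫ p, h p ∂Q + c := by
  have i1 : Integrable (fun p => g p + h p) Q := hg.add hh
  have h1 := integral_mono hf (g := fun p => g p + h p + c) (i1.add (integrable_const c)) hle
  rw [integral_add i1 (integrable_const c), integral_add hg hh] at h1
  simpa using h1

theorem exists_mixOK (m : ℕ) : ∃ γ : ℝ, 0 < γ ∧ ∀ γ' ≤ γ, MixOK m γ' := by
  obtain ⟨r, hr, hcore⟩ := D3_core m
  refine ⟨r / (6 * (m + 1)), by positivity, fun γ' hγ' B δ hδ => ?_⟩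
  set γ : ℝ := r / (6 * (m + 1)) with hγ
  have hγ0 : 0 < γ := by positivity
  have hγr : γ * (6 * (m + 1)) = r := by rw [hγ]; field_simp
  set C : ℝ := 3 + 2 * |B| + 4 * m ^ 2 * |B| ^ 2 with hC
  have hC0 : 0 < C := by positivity
  refine ⟨min (r / (8 * (m * |B| + 1))) (δ / C), lt_min (by positivity) (by positivity), ?_⟩
  intro A A' s μ₁ μ₂ μ₁' μ₂' h₁ h₂ χ χ' hg hd e1 e2 e3
  set η : ℝ := min (r / (8 * (m * |B| + 1))) (δ / C) with hη
  have hη0 : 0 < η := lt_min (by positivity) (by positivity)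
  have hB : 0 ≤ B := by
    obtain ⟨p⟩ := nonempty_of_isProbabilityMeasure A.P
    exact (norm_nonneg _).trans (μ₁.bg p)
  have hη1 : η * (8 * (m * |B| + 1)) ≤ r := (le_div_iff₀ (by positivity)).1 (min_le_left _ _)
  have hη2 : η * C ≤ δ := (le_div_iff₀ hC0).1 (min_le_right _ _)
  rw [abs_of_nonneg hB] at hη1 hC
  have hm : (0 : ℝ) ≤ m := Nat.cast_nonneg m
  obtain ⟨h₀, hh₀⟩ := exists_of_dmk_lt (Q := A.P) (μ := μ₁) (μ' := μ₂)
    (ε := dmk A.P μ₁ μ₂ + γ / (B + 1)) (lt_add_of_pos_right _ (by positivity))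
  have hd0 := dmk_nonneg (Q := A.P) μ₁ μ₂
  have hw0 : ‖D3_w A.P μ₁ μ₂ - D3_D m h₀‖ ≤ r / 2 := by
    have t1 := D3_lip A.P hB μ₁ μ₂ μ₁ (μ₁.act h₀⁻¹)
    have t2 := D3_gram A.P μ₁ h₀
    have t3 := mdev_g_le (Q := A.P) μ₂ μ₁ h₀⁻¹
    rw [mdev_symm] at t3
    have t4 : B * (γ / (B + 1)) ≤ γ := by
      rw [← mul_div_assoc, div_le_iff₀ (by positivity)]; linarith
    have t5 : B * ∫ p, ‖μ₂.g p - (μ₁.act h₀⁻¹).g p‖ ∂A.P ≤ 2 * γ := by
      refine (mul_le_mul_of_nonneg_left (t3.trans hh₀.le) hB).trans ?_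
      linarith
    simp only [sub_self, norm_zero, integral_zero, zero_add] at t1
    have t6 := norm_sub_le_norm_sub_add_norm_sub (D3_w A.P μ₁ μ₂) (D3_w A.P μ₁ (μ₁.act h₀⁻¹))
      (D3_D m h₀)
    have t7 := mul_le_mul_of_nonneg_left t5 hm
    have t8 := mul_le_mul_of_nonneg_left (hg.trans hγ') hm
    refine t6.trans ((add_le_add (t1.trans t7) (t2.trans t8)).trans ?_)
    linarith
  have hww : ‖D3_w A.P μ₁ μ₂ - D3_w A'.P (μ₁'.act h₁) (μ₂'.act h₂)‖ ≤ m * (B * (η + η)) := by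
    rw [← D3_w_pull s.hl, ← D3_w_pull s.hr]
    refine (D3_lip s.Q hB _ _ _ _).trans ?_
    gcongr
    · exact (mdev_g_le (Q := s.Q) (μ₁.pull s.hl.measurable) (μ₁'.pull s.hr.measurable) h₁).trans e1
    · exact (mdev_g_le (Q := s.Q) (μ₂.pull s.hl.measurable) (μ₂'.pull s.hr.measurable) h₂).trans e2
  have n1 : ∀ h : U m, ‖D3_w A.P μ₁ μ₂ - D3_D m (bestU A.P μ₁ μ₂)‖ ≤ ‖D3_w A.P μ₁ μ₂ - D3_D m h‖ :=
    fun h => (D3_near A.P).1 (bestU_spec A.P μ₁ μ₂ h)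
  have n2 := D3_best_act A'.P μ₁' μ₂' h₁ h₂
  have hkk := hcore _ _ _ _ n1 n2 ((n1 h₀).trans_lt (by linarith)) ((n2 h₀).trans_lt (by
    have t := norm_sub_le_norm_sub_add_norm_sub (D3_w A'.P (μ₁'.act h₁) (μ₂'.act h₂))
      (D3_w A.P μ₁ μ₂) (D3_D m h₀)
    rw [norm_sub_rev _ (D3_w A.P μ₁ μ₂)] at t
    refine (t.trans (add_le_add hww hw0)).trans_lt ?_
    linarith))
  have hk : ‖(bestU A.P μ₁ μ₂ : E m →L[ℝ] E m) - (h₁ * bestU A'.P μ₁' μ₂' * h₂⁻¹ : U m)‖ ≤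
      m * (2 * (m * (B * (η + η)))) := by
    refine (D3_op_le _).trans (mul_le_mul_of_nonneg_left ?_ hm)
    rw [map_sub]
    linarith
  have i1 := integrable_mdev (Q := s.Q) (μ₁.pull s.hl.measurable) (μ₁'.pull s.hr.measurable) h₁
  have i2 := integrable_mdev (Q := s.Q) (μ₂.pull s.hl.measurable) (μ₂'.pull s.hr.measurable) h₂
  have fin : s.mdev (mixK A.P χ μ₁ μ₂) (mixK A'.P χ' μ₁' μ₂') h₁ ≤
      s.mdev μ₁ μ₁' h₁ + s.mdev μ₂ μ₂' h₂ + (η * (2 * B + 1) + m * (2 * (m * (B * (η + η)))) * B) := by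
    unfold Span.mdev mdev
    refine D3_mono (integrable_mdev _ _ _) i1 i2 fun p => ?_
    have p1 := D3_point (a := μ₁.g (s.l p)) (μ₂.bg (s.l p)) (μ₁'.bg (s.r p)) (μ₂'.bg (s.r p))
      (bestU A.P μ₁ μ₂) (bestU A'.P μ₁' μ₂') h₁ h₂ (x' := χ') χ.2.1 χ.2.2
    have p2 := D3_pointc (c := μ₁.c (s.l p)) (d := μ₂.c (s.l p)) (x' := χ') (μ₁'.bc (s.r p))
      (μ₂'.bc (s.r p)) χ.2.1 χ.2.2
    have p3 := mul_le_mul_of_nonneg_right hk hB
    have p4 := mul_le_mul_of_nonneg_right e3 (show 0 ≤ 2 * B by positivity)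
    simp only
    linarith
  rw [hC] at hη2
  refine fin.trans ((add_le_add (add_le_add e1 e2) le_rfl).trans ?_)
  linarith

end Pool.Agent.P.MP_de432b_gt.LC
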