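import Pool.Agent.P.MP_de432b_gt.LC.C7
import Pool.Agent.P.MP_de432b_gt.LC.D1

namespace Pool.Agent.P.MP_de432b_gt.LC

open MeasureTheory Set Filter Topology
open scoped unitInterval RealInnerProductSpace

section
variable {m : ℕ} {B : ℝ} {b : Bool} {G : Subgroup (U m)}

theorem E1_B_nonneg (y : MK m B) : 0 ≤ B := by
  obtain ⟨p⟩ := nonempty_of_isProbabilityMeasure y.A.P
  exact (norm_nonneg _).trans (y.μ.bg p)

theorem E1_mdev_le {Ω : Type} [MeasurableSpace Ω] {Q : Measure Ω} (μ μ' : Marks m B Ω) (h : U m)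
    {φ : Ω → ℝ} (hφ : Integrable φ Q)
    (hle : ∀ p, ‖μ.g p - (h : E m →L[ℝ] E m) (μ'.g p)‖ + |μ.c p - μ'.c p| ≤ φ p) :
    mdev Q μ μ' h ≤ ∫ p, φ p ∂Q :=
  integral_mono_of_nonneg (Eventually.of_forall fun _ => by positivity) hφ
    (Eventually.of_forall hle)

theorem E1_ind {Ω : Type} [MeasurableSpace Ω] {Q : Measure Ω} [IsFiniteMeasure Q] {T : Set Ω}
    (hT : MeasurableSet T) (C : ℝ) :
    Integrable (T.indicator fun _ => C) Q ∧ ∫ p, T.indicator (fun _ => C) p ∂Q = Q.real T * C :=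
  ⟨(integrable_const C).indicator hT, by rw [integral_indicator_const _ hT, smul_eq_mul]⟩

theorem E1_ball_same (y y' : MK m B) (D η : ℝ) :
    DM b G (y.ball D η) (y'.ball D η) ≤ DM b G y y' := by
  refine le_of_forall_pos_le_add fun ε hε => ?_
  obtain ⟨s, hs, h, hG, hm⟩ :=
    exists_of_DM_lt (b := b) (G := G) (x := y) (y := y') (lt_add_of_pos_right _ hε)
  let s' : Span (y.ball D η).A (y'.ball D η).A :=
    { Ω := s.Ω × I, Q := s.Q.prod volume, l := Prod.map s.l id, r := Prod.map s.r id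
      hl := s.hl.prod (MeasurePreserving.id _), hr := s.hr.prod (MeasurePreserving.id _) }
  have hA := y.A.hd.pull s.hl.measurable
  have hB := y'.A.hd.pull s.hr.measurable
  have hf : MeasurePreserving Prod.fst (s.Q.prod (volume : Measure I)) s.Q := measurePreserving_fst
  have h1 := Close.pull hA hB hf hs
  refine DM_le (s := s') (Close.cone (hA.pull measurable_fst) (hB.pull measurable_fst) h1
    (measurableSet_lt_snd (c := fun _ => η) measurable_const) D) hG (le_trans ?_ hm)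
  refine le_trans ?_
    (mdev_pull (y.μ.pull s.hl.measurable) (y'.μ.pull s.hr.measurable) h hf).le
  refine E1_mdev_le _ _ h (integrable_mdev _ _ h) fun p => ?_
  by_cases hp : (p.2 : ℝ) < η
  · simp only [s', mem_ofPred_eq, Prod.map_snd, id, hp, if_true, map_zero, sub_self, norm_zero,
      abs_zero, add_zero]
    positivity
  · simp only [s', mem_ofPred_eq, Prod.map_snd, Prod.map_fst, id, hp, if_false, le_refl]

theorem E1_ball_level (y : MK m B) (D η η' : ℝ) :
    DM b G (y.ball D η) (y.ball D η') ≤ (B + 1) * |η - η'| := by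
  have hB := E1_B_nonneg y
  have m1 : MeasurableSet {x : y.A.Ω × I | (x.2 : ℝ) < η} :=
    measurableSet_lt_snd (c := fun _ => η) measurable_const
  have m2 : MeasurableSet {x : y.A.Ω × I | (x.2 : ℝ) < η'} :=
    measurableSet_lt_snd (c := fun _ => η') measurable_const
  have hb := C6_prod_between y.A η η'
  have ha := abs_nonneg (η - η')
  refine DM_map_le (x := y.ball D η) (y := y.ball D η') (τ := id) (MeasurePreserving.id _)
    ⟨{x : y.A.Ω × I | (x.2 : ℝ) < η ↔ (x.2 : ℝ) < η'}, m1.iff m2, hb.trans (by nlinarith),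
      fun p hp q hq => ?_⟩ ?_
  · have hp' : (p.2 : ℝ) < η ↔ (p.2 : ℝ) < η' := hp
    have hq' : (q.2 : ℝ) < η ↔ (q.2 : ℝ) < η' := hq
    have e : (y.ball D η).A.d p q = (y.ball D η').A.d p q := by
      simp only [coneD, glueD, mem_ofPred_eq, hp', hq']
    show |(y.ball D η).A.d p q - (y.ball D η').A.d p q| ≤ _
    rw [e, sub_self, abs_zero]
    positivity
  · obtain ⟨i1, i2⟩ := E1_ind (Q := y.A.P.prod (volume : Measure I)) (m1.iff m2).compl (B + 1)
    refine (E1_mdev_le _ _ 1 i1 fun p => ?_).trans (i2.le.trans ?_)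
    · have c0 := (y.μ.bc p.1).1
      have c1 := (y.μ.bc p.1).2
      have g1 := y.μ.bg p.1
      by_cases h1 : (p.2 : ℝ) < η <;> by_cases h2 : (p.2 : ℝ) < η' <;>
        simp only [indicator, mem_compl_iff, mem_ofPred_eq, id, h1, h2, if_true, if_false,
          D1_one_app, sub_self, norm_zero, abs_zero, add_zero, iff_self, not_true, le_refl,
          iff_false, false_iff, not_false_iff, zero_sub, sub_zero, norm_neg]
      · rw [abs_of_nonneg (by linarith)]
        linarith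
      · rw [abs_of_nonpos (by linarith)]
        linarith
    · rw [mul_comm]
      exact mul_le_mul_of_nonneg_left hb (by positivity)

theorem DM_ball (y y' : MK m B) (D η η' : ℝ) :
    DM b G (y.ball D η) (y'.ball D η') ≤ DM b G y y' + (B + 1) * |η - η'| :=
  (DM_triangle (y := y'.ball D η)).trans
    (add_le_add (E1_ball_same y y' D η) (E1_ball_level y' D η η'))

theorem DM_ball_zero (y : MK m B) {D : ℝ} (hD : 0 ≤ D) (h : ∀ p q, y.A.d p q ≤ 2 * D) :
    DM b G (y.ball D 0) y = 0 := by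
  have hn : ∀ t : I, ¬ (t : ℝ) < 0 := fun t => not_lt.mpr t.2.1
  refine le_antisymm ?_ DM_nonneg
  refine DM_map_le (x := y.ball D 0) (y := y) (τ := Prod.fst) measurePreserving_fst
    ⟨univ, MeasurableSet.univ, by simp, fun p _ q _ => ?_⟩ ?_
  · simp only [coneD, glueD, mem_ofPred_eq, hn, if_false, max_eq_left hD, min_eq_left (h _ _),
      sub_self, abs_zero, le_refl]
  · refine (E1_mdev_le _ _ 1 (integrable_const 0) fun p => ?_).trans (by simp)
    simp only [mem_ofPred_eq, hn, if_false, D1_one_app, sub_self, norm_zero, abs_zero, add_zero,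
      le_refl]

theorem E1_split_pt {u c c' t : ℝ} (c0 : c ∈ Icc (0 : ℝ) 1) (c1 : c' ∈ Icc (0 : ℝ) 1)
    (ht : t ∈ Icc (0 : ℝ) 1) :
    |(if u < c then 1 - (1 - t) * (1 - c) else (1 - t) * c) -
      (if u < c' then 1 - (1 - t) * (1 - c') else (1 - t) * c')| ≤
      |c - c'| + if u < c ↔ u < c' then 0 else 1 := by
  have key : |(1 - t) * (c - c')| ≤ |c - c'| := by
    rw [abs_mul, abs_of_nonneg (sub_nonneg.mpr ht.2)]
    nlinarith [abs_nonneg (c - c'), ht.1]
  have a0 := abs_nonneg (c - c')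
  obtain ⟨a1, a2⟩ := c0
  obtain ⟨a3, a4⟩ := c1
  obtain ⟨a5, a6⟩ := ht
  by_cases h1 : u < c <;> by_cases h2 : u < c' <;>
    simp only [h1, h2, if_true, if_false, iff_self, iff_false, false_iff, not_true, add_zero]
  · rwa [show 1 - (1 - t) * (1 - c) - (1 - (1 - t) * (1 - c')) = (1 - t) * (c - c') by ring]
  · refine le_trans (abs_le.mpr ⟨?_, ?_⟩) (le_add_of_nonneg_left a0) <;> nlinarith
  · refine le_trans (abs_le.mpr ⟨?_, ?_⟩) (le_add_of_nonneg_left a0) <;> nlinarith
  · rwa [show (1 - t) * c - (1 - t) * c' = (1 - t) * (c - c') by ring]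

theorem E1_split_same (y y' : MK m B) (t : I) :
    DM b G (y.split t) (y'.split t) ≤ 2 * DM b G y y' := by
  refine le_of_forall_pos_le_add fun ε hε => ?_
  obtain ⟨s, hs, h, hG, hm⟩ := exists_of_DM_lt (b := b) (G := G) (x := y) (y := y')
    (lt_add_of_pos_right _ (half_pos hε))
  let s' : Span (y.split t).A (y'.split t).A :=
    { Ω := s.Ω × I, Q := s.Q.prod volume, l := Prod.map s.l id, r := Prod.map s.r id
      hl := s.hl.prod (MeasurePreserving.id _), hr := s.hr.prod (MeasurePreserving.id _) }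
  have hA := y.A.hd.pull s.hl.measurable
  have hB := y'.A.hd.pull s.hr.measurable
  have hf : MeasurePreserving Prod.fst (s.Q.prod (volume : Measure I)) s.Q := measurePreserving_fst
  have h1 := Close.pull hA hB hf hs
  have h0 : 0 ≤ DM b G y y' := DM_nonneg
  let ν := y.μ.pull s.hl.measurable
  let ν' := y'.μ.pull s.hr.measurable
  have hm' : mdev s.Q ν ν' h ≤ DM b G y y' + ε / 2 := hm
  have mT : MeasurableSet {x : s.Ω × I | (x.2 : ℝ) < ν.c x.1 ↔ (x.2 : ℝ) < ν'.c x.1} :=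
    (measurableSet_lt_snd ν.hc).iff (measurableSet_lt_snd ν'.hc)
  obtain ⟨i1, i2⟩ := E1_ind (Q := s.Q.prod (volume : Measure I)) mT.compl 1
  have i3 := integrable_mdev (Q := s.Q.prod (volume : Measure I)) (ν.pull hf.measurable)
    (ν'.pull hf.measurable) h
  have i4 := prod_between (P := s.Q) ν.hc ν'.hc ((C7_int ν.hc ν.bc).sub (C7_int ν'.hc ν'.bc)).abs
  have i5 := mdev_c_le (Q := s.Q) ν ν' h
  have i6 := mdev_pull ν ν' h hf
  refine DM_le (s := s') (Close.mono h1 (by linarith)) hG ?_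
  refine (E1_mdev_le _ _ h (i3.add i1) fun p => ?_).trans ?_
  · have := E1_split_pt (u := (p.2 : ℝ)) (ν.bc p.1) (ν'.bc p.1) t.2
    have e : ({x : s.Ω × I | (x.2 : ℝ) < ν.c x.1 ↔ (x.2 : ℝ) < ν'.c x.1}ᶜ.indicator
        (fun _ => (1 : ℝ)) p) = if (p.2 : ℝ) < ν.c p.1 ↔ (p.2 : ℝ) < ν'.c p.1 then 0 else 1 := by
      by_cases hp : (p.2 : ℝ) < ν.c p.1 ↔ (p.2 : ℝ) < ν'.c p.1
      · rw [if_pos hp]
        refine indicator_of_notMem ?_ _
        exact fun hc => hc hp
      · rw [if_neg hp]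
        refine indicator_of_mem ?_ _
        exact hp
    rw [Pi.add_apply, e, add_assoc]
    exact add_le_add le_rfl this
  · have e := integral_add i3 i1
    have i7 : (s.Q.prod (volume : Measure I)).real
        {x : s.Ω × I | (x.2 : ℝ) < ν.c x.1 ↔ (x.2 : ℝ) < ν'.c x.1}ᶜ ≤ _ := i4
    have i8 : mdev (s.Q.prod (volume : Measure I)) (ν.pull hf.measurable)
        (ν'.pull hf.measurable) h ≤ DM b G y y' + ε / 2 := i6.trans_le hm'
    unfold mdev at i8
    refine e.le.trans ?_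
    rw [i2]
    linarith

theorem E1_split_level (y : MK m B) (t t' : I) :
    DM b G (y.split t) (y.split t') ≤ |(t : ℝ) - t'| := by
  refine (DM_same (A := (y.split t).A) (y.split t).μ (y.split t').μ G.one_mem).trans ?_
  refine (E1_mdev_le _ _ 1 (integrable_const |(t : ℝ) - t'|) fun p => ?_).trans (by simp)
  have c0 := (y.μ.bc p.1).1
  have c1 := (y.μ.bc p.1).2
  have a0 := abs_nonneg ((t : ℝ) - t')
  by_cases hp : (p.2 : ℝ) < y.μ.c p.1 <;>
    simp only [hp, if_true, if_false, D1_one_app, sub_self, norm_zero, zero_add]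
  · rw [show 1 - (1 - (t : ℝ)) * (1 - y.μ.c p.1) - (1 - (1 - (t' : ℝ)) * (1 - y.μ.c p.1)) =
      ((t : ℝ) - t') * (1 - y.μ.c p.1) by ring, abs_mul, abs_of_nonneg (sub_nonneg.mpr c1)]
    nlinarith
  · rw [show (1 - (t : ℝ)) * y.μ.c p.1 - (1 - (t' : ℝ)) * y.μ.c p.1 =
      -(((t : ℝ) - t') * y.μ.c p.1) by ring, abs_neg, abs_mul, abs_of_nonneg c0]
    nlinarith

theorem DM_split (y y' : MK m B) (t t' : I) :
    DM b G (y.split t) (y'.split t') ≤ 2 * DM b G y y' + |(t : ℝ) - t'| :=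
  (DM_triangle (y := y'.split t)).trans
    (add_le_add (E1_split_same y y' t) (E1_split_level y' t t'))

theorem DM_split_zero (y : MK m B) : DM b G (y.split 0) y = 0 := by
  refine le_antisymm ?_ DM_nonneg
  refine DM_map_le (x := y.split 0) (y := y) (τ := Prod.fst) measurePreserving_fst
    ⟨univ, MeasurableSet.univ, by simp, fun p _ q _ => by simp⟩ ?_
  refine (E1_mdev_le _ _ 1 (integrable_const 0) fun p => ?_).trans (by simp)
  by_cases hp : (p.2 : ℝ) < y.μ.c p.1 <;> simp [hp]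

theorem DD_split (y : MK m B) (t : I) : DD b (y.split t).A y.A = 0 :=
  DD_map (A := (y.split t).A) (B := y.A) (τ := Prod.fst) measurePreserving_fst (G := univ)
    (Eventually.of_forall fun _ => mem_univ _) fun _ _ _ _ => rfl

theorem E1_act (y : MK m B) (h : U m) : mdev y.A.P (y.μ.act h) y.μ h = 0 := by
  simp [mdev]

theorem DM_act (y : MK m B) {h : U m} (hG : h ∈ G) : DM b G (y.act h) y = 0 :=
  le_antisymm ((DM_same (A := y.A) (y.μ.act h) y.μ hG).trans (E1_act y h).le) DM_nonneg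

theorem E1_pair (y : MK m B) (h : U m) : ∃ π : Measure (E m × E m), IsProbabilityMeasure π ∧
    π.map Prod.fst = (y.act h).law ∧ π.map Prod.snd = y.law ∧
    (∀ᵐ z ∂π, ‖z.1‖ ≤ B ∧ ‖z.2‖ ≤ B) ∧ ∫ z, ‖z.1 - (h : E m →L[ℝ] E m) z.2‖ ∂π = 0 := by
  have hm : Measurable fun p => ((y.μ.act h).g p, y.μ.g p) := (y.μ.act h).hg.prodMk y.μ.hg
  refine ⟨y.bP.map fun p => ((y.μ.act h).g p, y.μ.g p),
    Measure.isProbabilityMeasure_map hm.aemeasurable, ?_, ?_, ?_, ?_⟩
  · rw [Measure.map_map measurable_fst hm]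
    rfl
  · rw [Measure.map_map measurable_snd hm]
    rfl
  · refine (ae_map_iff hm.aemeasurable ?_).mpr
      (Eventually.of_forall fun p => ⟨(y.μ.act h).bg p, y.μ.bg p⟩)
    exact (measurableSet_le measurable_fst.norm measurable_const).inter
      (measurableSet_le measurable_snd.norm measurable_const)
  · rw [integral_map hm.aemeasurable (Continuous.aestronglyMeasurable (by fun_prop))]
    simp

end

variable {m : ℕ} {Γ : Geo m} (S : Slice Γ)

theorem rad_act (h : U m) (y : MK m Γ.B) : S.rad (y.act h).law = S.rad y.law := by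
  obtain ⟨π, _, h1, h2, h3, h4⟩ := E1_pair y h
  have := S.rad_lip π h h3
  rw [h1, h2, h4, mul_zero] at this
  exact sub_eq_zero.mp (abs_nonpos_iff.mp this)

theorem al_Al (y : MK m Γ.B) : S.Al (y.al S).law := by
  rw [MK.law_act]
  exact S.al_alg y.law

theorem rad_span {y y' : MK m Γ.B} (s : Span y.A y'.A) (h : U m) (hx : y.x ≤ 1 / 2)
    (hx' : y'.x ≤ 1 / 2) :
    |S.rad y.law - S.rad y'.law| ≤ S.K * (2 + 8 * Γ.B) * s.mdev y.μ y'.μ h := by
  obtain ⟨π, _, h1, h2, h3, h4⟩ := law_couple s h hx hx'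
  have := S.rad_lip π h h3
  rw [h1, h2] at this
  rw [mul_assoc]
  exact this.trans (mul_le_mul_of_nonneg_left h4 S.hK)

theorem al_uc {δ : ℝ} (hδ : 0 < δ) : ∃ η : ℝ, 0 < η ∧ ∀ (b : Bool) (y y' : MK m Γ.B),
    y.x ≤ 1 / 2 → y'.x ≤ 1 / 2 → S.rad y.law ≤ S.r / 2 → DM b ⊤ y y' < η →
    DM b Γ.G (y.al S) (y'.al S) ≤ δ := by
  have hB := Γ.hB
  have hK := S.hK
  have hr := S.hr
  obtain ⟨η₀, h₀, hu⟩ := S.uniq (δ / (2 * (Γ.B + 1))) (by positivity)
  refine ⟨min (δ / 2) (min (η₀ / (2 + 8 * Γ.B)) (S.r / (4 * (S.K * (2 + 8 * Γ.B) + 1)))),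
    by positivity, fun b y y' hx hx' hy hd => ?_⟩
  obtain ⟨s, hs, h, -, hm⟩ := exists_of_DM_lt hd
  have m1 := hm.trans (min_le_left _ _)
  have m2 := hm.trans ((min_le_right _ _).trans (min_le_left _ _))
  have m3 := hm.trans ((min_le_right _ _).trans (min_le_right _ _))
  have m0 : 0 ≤ s.mdev y.μ y'.μ h := mdev_nonneg _ _ h
  rw [le_div_iff₀ (by positivity)] at m2 m3
  have e : s.mdev (y.μ.act (S.alg y.law)) (y'.μ.act (S.alg y'.law))
      (S.alg y.law * h * (S.alg y'.law)⁻¹) = s.mdev y.μ y'.μ h :=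
    mdev_act (y.μ.pull s.hl.measurable) (y'.μ.pull s.hr.measurable) h _ _
  obtain ⟨π, _, h1, h2, h3, h4⟩ := law_couple (y := y.al S) (y' := y'.al S) s
    (S.alg y.law * h * (S.alg y'.law)⁻¹) hx hx'
  have h5 := (abs_le.mp (rad_span S s h hx hx')).1
  obtain ⟨l, hl, hl2⟩ := hu π _ h3 (h1 ▸ al_Al S y) (h2 ▸ al_Al S y')
    (by rw [h1, rad_act]; linarith) (by rw [h2, rad_act]; nlinarith)
    (h4.trans (by rw [e]; linarith))
  refine DM_le (x := y.al S) (y := y'.al S) (s := s)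
    (hs.mono ((min_le_left _ _).trans (by linarith))) hl ?_
  refine (mdev_change _ _ (S.alg y.law * h * (S.alg y'.law)⁻¹) l).trans ?_
  have h6 := mul_le_mul_of_nonneg_left hl2 hB
  have h7 : Γ.B * (δ / (2 * (Γ.B + 1))) ≤ δ / 2 := by
    rw [← mul_div_assoc, div_le_div_iff₀ (by positivity) (by positivity)]
    nlinarith
  exact (add_le_add (e.trans_le m1) (h6.trans h7)).trans_eq (by ring)

theorem al_self (b : Bool) (y : MK m Γ.B) (h : S.Al y.law) (hr : S.rad y.law < S.r) :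
    DM b Γ.G y (y.al S) = 0 := by
  have hB := Γ.hB
  rw [DM_comm]
  refine le_antisymm (le_of_forall_pos_le_add fun δ hδ => ?_) DM_nonneg
  obtain ⟨η, h₀, hu⟩ := S.uniq (δ / (Γ.B + 1)) (by positivity)
  obtain ⟨π, _, h1, h2, h3, h4⟩ := E1_pair y (S.alg y.law)
  obtain ⟨l, hl, hl2⟩ := hu π _ h3 (h1 ▸ al_Al S y) (h2 ▸ h) (by rwa [h1, rad_act])
    (by rwa [h2]) (h4.trans_le h₀.le)
  refine (DM_same (A := y.A) (y.μ.act (S.alg y.law)) y.μ hl).trans ?_
  refine (mdev_change _ _ (S.alg y.law) l).trans ?_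
  rw [E1_act]
  refine add_le_add le_rfl ((mul_le_mul_of_nonneg_left hl2 hB).trans ?_)
  rw [← mul_div_assoc, div_le_iff₀ (by positivity)]
  nlinarith

end Pool.Agent.P.MP_de432b_gt.LC
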