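import Pool.Agent.P.MP_de432b_gt.LC.C7
import Pool.Agent.P.MP_de432b_gt.LC.D1

namespace Pool.Agent.P.MP_de432b_gt.LC

open MeasureTheory Set Filter Topology
open scoped unitInterval RealInnerProductSpace

variable {m : ℕ} (Γ : Geo m) {b : Bool}

theorem E2_w_le {B c : ℝ} {g : E m} (hc : c ∈ Icc (0 : ℝ) 1) (hg : ‖g‖ ≤ B) :
    ‖(1 - c) • g‖ ≤ B := by
  rw [norm_smul, Real.norm_of_nonneg (sub_nonneg.mpr hc.2)]
  nlinarith [norm_nonneg g, hc.1, hc.2]

theorem E2_w_sub {B c c' : ℝ} {g g' : E m} (hc : c ∈ Icc (0 : ℝ) 1) (hg' : ‖g'‖ ≤ B) :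
    ‖(1 - c) • g - (1 - c') • g'‖ ≤ ‖g - g'‖ + B * |c - c'| := by
  have e : (1 - c) • g - (1 - c') • g' = (1 - c) • (g - g') + (c' - c) • g' := by
    simp only [sub_smul, smul_sub, one_smul]; abel
  rw [e]
  refine (norm_add_le _ _).trans (add_le_add (E2_w_le hc le_rfl) ?_)
  rw [norm_smul, Real.norm_eq_abs, abs_sub_comm, mul_comm]
  exact mul_le_mul_of_nonneg_right hg' (abs_nonneg _)

theorem E2_rho_nonneg (x y : E m) : 0 ≤ Γ.ρ x y := Γ.isPM.nonneg x y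

theorem E2_rho_le {Ω : Type} [MeasurableSpace Ω] (μ : Marks m Γ.B Ω) (p q : Ω) :
    Γ.ρ ((1 - μ.c p) • μ.g p) ((1 - μ.c q) • μ.g q) ≤ 2 * Γ.C * Γ.B := by
  refine (Γ.ρ_le _ _).trans ?_
  have := (norm_sub_le ((1 - μ.c p) • μ.g p) ((1 - μ.c q) • μ.g q)).trans
    (add_le_add (E2_w_le (μ.bc p) (μ.bg p)) (E2_w_le (μ.bc q) (μ.bg q)))
  nlinarith [Γ.hC]

theorem E2_c_le {B : ℝ} {Ω : Type} [MeasurableSpace Ω] (μ : Marks m B Ω) (p q : Ω) :
    |μ.c p - μ.c q| ≤ 1 :=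
  abs_sub_le_iff.mpr ⟨by linarith [(μ.bc p).2, (μ.bc q).1], by linarith [(μ.bc p).1, (μ.bc q).2]⟩

theorem markD_le {Ω : Type} [MeasurableSpace Ω] {t s : ℝ} (ht : 0 ≤ t) (hs : 0 ≤ s)
    (μ : Marks m Γ.B Ω) (p q : Ω) : markD Γ t s μ p q ≤ t * (2 * Γ.C * Γ.B) + s := by
  unfold markD
  rw [max_eq_left ht, max_eq_left hs]
  have h1 := mul_le_mul_of_nonneg_left (E2_rho_le Γ μ p q) ht
  have h2 := mul_le_mul_of_nonneg_left (E2_c_le μ p q) hs
  linarith

/-- The mark metric of two close marks. -/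
theorem E2_diff {Ω : Type} [MeasurableSpace Ω] (t s : ℝ) (μ μ' : Marks m Γ.B Ω) {h : U m}
    (hG : h ∈ Γ.G) (p q : Ω) :
    |markD Γ t s μ p q - markD Γ t s μ' p q| ≤ (max t 0 * (Γ.C * (1 + Γ.B)) + max s 0) *
      ((‖μ.g p - (h : E m →L[ℝ] E m) (μ'.g p)‖ + |μ.c p - μ'.c p|) +
        (‖μ.g q - (h : E m →L[ℝ] E m) (μ'.g q)‖ + |μ.c q - μ'.c q|)) := by
  have hB := Γ.hB
  have hC := Γ.hC
  have key : ∀ p, Γ.ρ ((1 - μ.c p) • μ.g p) ((h : E m →L[ℝ] E m) ((1 - μ'.c p) • μ'.g p)) ≤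
      Γ.C * (1 + Γ.B) * (‖μ.g p - (h : E m →L[ℝ] E m) (μ'.g p)‖ + |μ.c p - μ'.c p|) := by
    intro p
    refine (Γ.ρ_le _ _).trans ?_
    rw [map_smul, mul_assoc]
    refine mul_le_mul_of_nonneg_left ?_ hC
    have h1 := E2_w_sub (c' := μ'.c p) (g := μ.g p) (μ.bc p)
      ((U.norm_app h (μ'.g p)).trans_le (μ'.bg p))
    nlinarith [norm_nonneg (μ.g p - (h : E m →L[ℝ] E m) (μ'.g p)), abs_nonneg (μ.c p - μ'.c p)]
  unfold markD
  rw [← Γ.ρ_inv h hG ((1 - μ'.c p) • μ'.g p)]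
  set a := (1 - μ.c p) • μ.g p
  set a' := (h : E m →L[ℝ] E m) ((1 - μ'.c p) • μ'.g p)
  set d := (1 - μ.c q) • μ.g q
  set d' := (h : E m →L[ℝ] E m) ((1 - μ'.c q) • μ'.g q)
  have k1 := key p
  have k2 := key q
  have e1 : |Γ.ρ a d - Γ.ρ a' d'| ≤ Γ.ρ a a' + Γ.ρ d d' :=
    abs_sub_le_iff.mpr ⟨by linarith [Γ.ρ_tri a a' d, Γ.ρ_tri a' d' d, Γ.ρ_symm d d'],
      by linarith [Γ.ρ_tri a' a d', Γ.ρ_tri a d d', Γ.ρ_symm a a']⟩
  have e2 : |(|μ.c p - μ.c q| - |μ'.c p - μ'.c q|)| ≤ |μ.c p - μ'.c p| + |μ.c q - μ'.c q| := by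
    refine (abs_abs_sub_abs_le_abs_sub _ _).trans ?_
    have : μ.c p - μ.c q - (μ'.c p - μ'.c q) = (μ.c p - μ'.c p) - (μ.c q - μ'.c q) := by ring
    rw [this]
    exact abs_sub _ _
  have ht : 0 ≤ max t 0 := le_max_right _ _
  have hs : 0 ≤ max s 0 := le_max_right _ _
  have e3 : max t 0 * Γ.ρ a d + max s 0 * |μ.c p - μ.c q| -
      (max t 0 * Γ.ρ a' d' + max s 0 * |μ'.c p - μ'.c q|) =
      max t 0 * (Γ.ρ a d - Γ.ρ a' d') + max s 0 * (|μ.c p - μ.c q| - |μ'.c p - μ'.c q|) := by ring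
  rw [e3]
  refine (abs_add_le _ _).trans ?_
  rw [abs_mul, abs_mul, abs_of_nonneg ht, abs_of_nonneg hs, add_mul, mul_assoc]
  refine add_le_add (mul_le_mul_of_nonneg_left (by linarith) ht)
    (mul_le_mul_of_nonneg_left ?_ hs)
  linarith [norm_nonneg (μ.g p - (h : E m →L[ℝ] E m) (μ'.g p)),
    norm_nonneg (μ.g q - (h : E m →L[ℝ] E m) (μ'.g q))]

theorem E2_box {Ω : Type} [MeasurableSpace Ω] (Q : Measure Ω) [IsProbabilityMeasure Q] {t s K : ℝ}
    (hK : max t 0 * (Γ.C * (1 + Γ.B)) + max s 0 ≤ K) (μ μ' : Marks m Γ.B Ω) {h : U m}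
    (hG : h ∈ Γ.G) {η : ℝ} (hη : 0 < η) (hm : mdev Q μ μ' h ≤ η ^ 2) :
    BoxC Q (markD Γ t s μ) (markD Γ t s μ') ((2 * K + 1) * η) := by
  have hB := Γ.hB
  have hC := Γ.hC
  have ht : 0 ≤ max t 0 := le_max_right _ _
  have hs : 0 ≤ max s 0 := le_max_right _ _
  refine boxC_of_mean (measurable_mdev μ μ' h) (fun p => by positivity) (integrable_mdev μ μ' h)
    (le_trans (by positivity) hK) hη hm (G := univ) (by simp) (fun p _ q _ => ?_)
  exact (E2_diff Γ t s μ μ' hG p q).trans (mul_le_mul_of_nonneg_right hK (by positivity))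

theorem lin_uc (L : ℝ) {δ : ℝ} (hδ : 0 < δ) : ∃ η : ℝ, 0 < η ∧
    ∀ (b : Bool) (y y' : MK m Γ.B) (l t s : ℝ), l ∈ Icc (0 : ℝ) 1 → t ∈ Icc (0 : ℝ) 1 →
      s ∈ Icc (0 : ℝ) L → DM b Γ.G y y' < η → DM b Γ.G (y.lin Γ l t s) (y'.lin Γ l t s) ≤ δ := by
  have hB := Γ.hB
  have hC := Γ.hC
  obtain ⟨K, hKd⟩ : ∃ K : ℝ, K = Γ.C * (1 + Γ.B) + max L 0 := ⟨_, rfl⟩
  have hK0 : 0 ≤ K := by rw [hKd]; positivity
  obtain ⟨N, i, hi, hcell⟩ := exists_cells m Γ.B (η := δ / (3 * (K + 1))) (by positivity)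
  refine ⟨min (δ / (3 * (N + 2))) ((δ / (3 * (2 * K + 1))) ^ 2), by positivity, ?_⟩
  intro b y y' l t s hl ht hs hy
  obtain ⟨S, hS, h, hG, hm⟩ := exists_of_DM_lt hy
  have hK : max t 0 * (Γ.C * (1 + Γ.B)) + max s 0 ≤ K := by
    rw [hKd, max_eq_left ht.1, max_eq_left hs.1]
    have : t * (Γ.C * (1 + Γ.B)) ≤ 1 * (Γ.C * (1 + Γ.B)) :=
      mul_le_mul_of_nonneg_right ht.2 (by positivity)
    linarith [hs.2, le_max_left L 0]
  let μ := y.μ.pull S.hl.measurable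
  let μ' := y'.μ.pull S.hr.measurable
  have c1 := Close.cells (y.A.hd.pull S.hl.measurable) (y'.A.hd.pull S.hr.measurable)
    (hS.mono (min_le_left _ _)) (isPM_markD Γ t s μ) (N := N)
    (i := fun p => i (μ.g p, μ.c p)) (hi.comp (μ.hg.prodMk μ.hc))
    (η := K * (δ / (3 * (K + 1)))) (by positivity) (fun p q e => by
      obtain ⟨e1, e2⟩ := hcell (μ.g p, μ.c p) (μ.g q, μ.c q) (μ.bg p) (μ.bg q) (μ.bc p) (μ.bc q) e
      simp only at e1 e2
      refine le_trans ?_ (mul_le_mul_of_nonneg_right hK (by positivity))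
      unfold markD
      rw [add_mul, mul_assoc]
      refine add_le_add (mul_le_mul_of_nonneg_left ((Γ.ρ_le _ _).trans ?_) (le_max_right _ _))
        (mul_le_mul_of_nonneg_left e2 (le_max_right _ _))
      rw [mul_assoc]
      refine mul_le_mul_of_nonneg_left ((E2_w_sub (μ.bc p) (μ.bg q)).trans ?_) hC
      have := mul_le_mul_of_nonneg_left e2 hB
      linarith) (l := max l 0) (le_max_right _ _) (max_le hl.2 zero_le_one)
  have c2 := (E2_box Γ S.Q hK μ μ' hG (η := δ / (3 * (2 * K + 1))) (by positivity)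
    (hm.trans (min_le_right _ _))).add_left (fun p q => max l 0 * y'.A.d (S.r p) (S.r q))
  have c3 := c1.trans (c2.close (b := b)
    (((y'.A.hd.pull S.hr.measurable).smul (le_max_right l 0)).add (isPM_markD Γ t s μ))
    (((y'.A.hd.pull S.hr.measurable).smul (le_max_right l 0)).add (isPM_markD Γ t s μ')))
  have hN : (0 : ℝ) ≤ N := Nat.cast_nonneg N
  have b1 : K * (δ / (3 * (K + 1))) ≤ δ / 3 := by
    rw [mul_div_assoc', div_le_div_iff₀ (by positivity) (by positivity)]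
    nlinarith
  have b2 : ((N : ℝ) + 2) * (δ / (3 * (N + 2))) = δ / 3 := by field_simp
  have b3 : (2 * K + 1) * (δ / (3 * (2 * K + 1))) = δ / 3 := by field_simp
  have b4 : δ / (3 * (N + 2)) ≤ δ := by
    rw [div_le_iff₀ (by positivity)]
    nlinarith
  let S' : Span (y.lin Γ l t s).A (y'.lin Γ l t s).A :=
    { Ω := S.Ω, Q := S.Q, l := S.l, r := S.r, hl := S.hl, hr := S.hr }
  exact DM_le (s := S') (c3.mono (by linarith)) hG (hm.trans ((min_le_left _ _).trans b4))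

theorem E2_max (x y : ℝ) : |max x 0 - max y 0| ≤ |x - y| := abs_max_sub_max_le_abs x y 0

theorem lin_param (y : MK m Γ.B) {R l t s l' t' s' : ℝ} (hR : ∀ p q, y.A.d p q ≤ R) :
    DM b Γ.G (y.lin Γ l t s) (y.lin Γ l' t' s') ≤
      R * |l - l'| + 2 * Γ.C * Γ.B * |t - t'| + |s - s'| := by
  have hB := Γ.hB
  have hC := Γ.hC
  obtain ⟨p₀⟩ := nonempty_of_isProbabilityMeasure y.A.P
  have hR0 : 0 ≤ R := (y.A.hd.nonneg p₀ p₀).trans (hR _ _)
  refine DM_map_le (x := y.lin Γ l t s) (y := y.lin Γ l' t' s') (τ := id)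
    (MeasurePreserving.id _) (boxC_of_ae (G := univ) (by simp) (by positivity) fun p _ q _ => ?_)
    ((mdev_self (Q := y.A.P) y.μ).trans_le (by positivity))
  show |max l 0 * y.A.d p q + markD Γ t s y.μ p q -
    (max l' 0 * y.A.d p q + markD Γ t' s' y.μ p q)| ≤ _
  unfold markD
  set ρ := Γ.ρ ((1 - y.μ.c p) • y.μ.g p) ((1 - y.μ.c q) • y.μ.g q) with hρ
  have e : max l 0 * y.A.d p q + (max t 0 * ρ + max s 0 * |y.μ.c p - y.μ.c q|) -
      (max l' 0 * y.A.d p q + (max t' 0 * ρ + max s' 0 * |y.μ.c p - y.μ.c q|)) =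
      y.A.d p q * (max l 0 - max l' 0) + ρ * (max t 0 - max t' 0) +
        |y.μ.c p - y.μ.c q| * (max s 0 - max s' 0) := by ring
  rw [e]
  have r0 : 0 ≤ ρ := E2_rho_nonneg Γ _ _
  refine (abs_add_three _ _ _).trans (add_le_add (add_le_add ?_ ?_) ?_)
  · rw [abs_mul, abs_of_nonneg (y.A.hd.nonneg p q)]
    exact mul_le_mul (hR p q) (E2_max _ _) (abs_nonneg _) hR0
  · rw [abs_mul, abs_of_nonneg r0]
    exact mul_le_mul (E2_rho_le Γ y.μ p q) (E2_max _ _) (abs_nonneg _) (by positivity)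
  · rw [abs_mul, abs_abs]
    exact (mul_le_mul (E2_c_le y.μ p q) (E2_max _ _) (abs_nonneg _) zero_le_one).trans_eq
      (one_mul _)

theorem lin_id (y : MK m Γ.B) : DM b Γ.G (y.lin Γ 1 0 0) y = 0 := by
  refine le_antisymm (DM_map_le (x := y.lin Γ 1 0 0) (y := y) (τ := id)
    (MeasurePreserving.id _) (boxC_of_ae (G := univ) (by simp) le_rfl fun p _ q _ => ?_)
    (mdev_self (Q := y.A.P) y.μ).le) DM_nonneg
  show |max 1 0 * y.A.d p q + markD Γ 0 0 y.μ p q - y.A.d p q| ≤ 0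
  simp [markD]

theorem E2_clip (B : ℝ) (h : U m) (x : E m) :
    clip B ((h : E m →L[ℝ] E m) x) = (h : E m →L[ℝ] E m) (clip B x) := by
  rw [clip, clip, U.norm_app, map_smul]

theorem E2_inv_app (h : U m) (x : E m) :
    (h : E m →L[ℝ] E m) (((h⁻¹ : U m) : E m →L[ℝ] E m) x) = x := by
  rw [← D1_mul_app, mul_inv_cancel, D1_one_app]

theorem E2_endL (β : I) {h : U m} (hG : h ∈ Γ.G) :
    (endL Γ β).map (fun z : E m × ℝ => ((h : E m →L[ℝ] E m) z.1, z.2)) = endL Γ β := by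
  have hh : Measurable (h : E m →L[ℝ] E m) := (h : E m →L[ℝ] E m).continuous.measurable
  have hf : Measurable (fun z : E m × ℝ => ((h : E m →L[ℝ] E m) z.1, z.2)) :=
    (hh.comp measurable_fst).prodMk measurable_snd
  have h0 : Measurable (fun x : E m => (x, (0 : ℝ))) := by fun_prop
  unfold endL
  rw [mixM_map hf, Measure.map_dirac' hf, Measure.map_map hf h0]
  congr 1
  · conv_rhs => rw [← Γ.lam_inv h hG, Measure.map_map h0 hh]
    rfl
  · simp

theorem mov_uc (D : ℝ) (β : I) {δ : ℝ} (hδ : 0 < δ) : ∃ η : ℝ, 0 < η ∧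
    ∀ (b : Bool) (y y' : MK m Γ.B) (t t' : I), DM b Γ.G y y' < η → |(t : ℝ) - t'| < η →
      DM b Γ.G (y.mov Γ D β t) (y'.mov Γ D β t') ≤ δ := by
  have hB := Γ.hB
  have hC := Γ.hC
  obtain ⟨K, hKd⟩ : ∃ K : ℝ, K = max 1 0 * (Γ.C * (1 + Γ.B)) + max D 0 := ⟨_, rfl⟩
  have hK0 : 0 ≤ K := by rw [hKd]; positivity
  refine ⟨min δ ((δ / (2 * K + 1)) ^ 2) / (2 * Γ.B + 2), by positivity, ?_⟩
  intro b y y' t t' hy htt
  obtain ⟨S, -, h, hG, hm⟩ := exists_of_DM_lt hy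
  let P : Measure (S.Ω × (E m × ℝ)) := S.Q.prod (endL Γ β)
  let k : E m × ℝ → E m × ℝ := fun z => (((h⁻¹ : U m) : E m →L[ℝ] E m) z.1, z.2)
  have hk : Measurable k :=
    ((((h⁻¹ : U m) : E m →L[ℝ] E m).continuous.measurable).comp measurable_fst).prodMk
      measurable_snd
  have hj : Measurable fun p => (y.μ.g p, y.μ.c p) := y.μ.hg.prodMk y.μ.hc
  have hj' : Measurable fun p => (y'.μ.g p, y'.μ.c p) := y'.μ.hg.prodMk y'.μ.hc
  let f : S.Ω × (E m × ℝ) → E m × ℝ := fun x => (y.μ.g (S.l x.1), y.μ.c (S.l x.1))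
  let f' : S.Ω × (E m × ℝ) → E m × ℝ := fun x => (y'.μ.g (S.r x.1), y'.μ.c (S.r x.1))
  have hf : MeasurePreserving f P y.jlaw :=
    (hj.measurePreserving _).comp (S.hl.comp measurePreserving_fst)
  have hf' : MeasurePreserving f' P y'.jlaw :=
    (hj'.measurePreserving _).comp (S.hr.comp measurePreserving_fst)
  have hg : MeasurePreserving Prod.snd P (endL Γ β) := measurePreserving_snd
  have hg' : MeasurePreserving (fun x : S.Ω × (E m × ℝ) => k x.2) P (endL Γ β) :=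
    (⟨hk, E2_endL Γ β (Γ.G.inv_mem hG)⟩ : MeasurePreserving k (endL Γ β) (endL Γ β)).comp hg
  have hI : ∀ u : I, MeasurableSet {x : (S.Ω × (E m × ℝ)) × I | (x.2 : ℝ) < u} := fun u =>
    measurableSet_lt_snd (c := fun _ => (u : ℝ)) measurable_const
  let S' : Span (y.mov Γ D β t).A (y'.mov Γ D β t').A :=
    { Ω := (S.Ω × (E m × ℝ)) × I, Q := P.prod volume
      l := fun x => if (x.2 : ℝ) < t then x.1.2 else f x.1
      r := fun x => if (x.2 : ℝ) < t' then k x.1.2 else f' x.1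
      hl := ⟨Measurable.ite (hI t) (hg.measurable.comp measurable_fst)
          (hf.measurable.comp measurable_fst), by
        have := map_ite_lt (P := P) hf.measurable hg.measurable t
        rw [hf.map_eq, hg.map_eq] at this
        exact this⟩
      hr := ⟨Measurable.ite (hI t') (hg'.measurable.comp measurable_fst)
          (hf'.measurable.comp measurable_fst), by
        have := map_ite_lt (P := P) hf'.measurable hg'.measurable t'
        rw [hf'.map_eq, hg'.map_eq] at this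
        exact this⟩ }
  let μ := (tautM Γ).pull S'.hl.measurable
  let μ' := (tautM Γ).pull S'.hr.measurable
  let T : Set ((S.Ω × (E m × ℝ)) × I) := {x | ¬ ((x.2 : ℝ) < t ↔ (x.2 : ℝ) < t')}
  have hT : MeasurableSet T := ((hI t).iff (hI t')).compl
  have hTm : (P.prod (volume : Measure I)).real T ≤ |(t : ℝ) - t'| := by
    have := prod_between (P := P) (c := fun _ => (t : ℝ)) (c' := fun _ => (t' : ℝ))
      measurable_const measurable_const (integrable_const _)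
    rw [integral_const, probReal_univ, one_smul] at this
    exact this
  have hp : MeasurePreserving (fun x : (S.Ω × (E m × ℝ)) × I => x.1.1) (P.prod volume) S.Q :=
    measurePreserving_fst.comp measurePreserving_fst
  let ν := (y.μ.pull S.hl.measurable).pull hp.measurable
  let ν' := (y'.μ.pull S.hr.measurable).pull hp.measurable
  have hν : mdev (P.prod volume) ν ν' h = S.mdev y.μ y'.μ h := mdev_pull _ _ h hp
  have hmd : mdev (P.prod volume) μ μ' h ≤ min δ ((δ / (2 * K + 1)) ^ 2) := by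
    have h1 : mdev (P.prod volume) μ μ' h ≤ ∫ x, ((‖ν.g x - (h : E m →L[ℝ] E m) (ν'.g x)‖ +
        |ν.c x - ν'.c x|) + T.indicator (fun _ => 2 * Γ.B + 1) x) ∂(P.prod volume) := by
      refine integral_mono (integrable_mdev μ μ' h)
        ((integrable_mdev ν ν' h).add ((integrable_const _).indicator hT)) fun x => ?_
      have n0 : 0 ≤ ‖ν.g x - (h : E m →L[ℝ] E m) (ν'.g x)‖ + |ν.c x - ν'.c x| := by positivity
      by_cases hx : x ∈ T
      · have := D1_bd μ μ' h x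
        simp only [indicator_of_mem hx]
        linarith
      · simp only [indicator_of_notMem hx, add_zero]
        have hx' : (x.2 : ℝ) < t ↔ (x.2 : ℝ) < t' := not_not.mp hx
        by_cases h2 : (x.2 : ℝ) < t
        · refine le_trans (le_of_eq ?_) n0
          simp only [μ, μ', S', if_pos h2, if_pos (hx'.mp h2), k, ← E2_clip, E2_inv_app]
          simp
        · refine le_of_eq ?_
          simp only [μ, μ', ν, ν', S', if_neg h2, if_neg (mt hx'.mpr h2), f, f',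
            clip_of_le (y.μ.bg _), clip_of_le (y'.μ.bg _), cl01_of_mem (y.μ.bc _),
            cl01_of_mem (y'.μ.bc _)]
    rw [integral_add (integrable_mdev ν ν' h) ((integrable_const _).indicator hT),
      integral_indicator_const _ hT, smul_eq_mul] at h1
    have h3 : (P.prod (volume : Measure I)).real T * (2 * Γ.B + 1) ≤
        min δ ((δ / (2 * K + 1)) ^ 2) / (2 * Γ.B + 2) * (2 * Γ.B + 1) :=
      mul_le_mul_of_nonneg_right (hTm.trans htt.le) (by positivity)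
    have h4 : min δ ((δ / (2 * K + 1)) ^ 2) / (2 * Γ.B + 2) +
        min δ ((δ / (2 * K + 1)) ^ 2) / (2 * Γ.B + 2) * (2 * Γ.B + 1) =
        min δ ((δ / (2 * K + 1)) ^ 2) := by field_simp; ring
    have h5 : ∫ x, (‖ν.g x - (h : E m →L[ℝ] E m) (ν'.g x)‖ + |ν.c x - ν'.c x|)
        ∂(P.prod volume) = S.mdev y.μ y'.μ h := hν
    linarith
  have c1 := E2_box Γ (P.prod volume) hKd.ge μ μ' hG (η := δ / (2 * K + 1)) (by positivity)
    (hmd.trans (min_le_right _ _))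
  have b1 : (2 * K + 1) * (δ / (2 * K + 1)) = δ := by field_simp
  rw [b1] at c1
  exact DM_le (s := S') (Span.Close.of_box c1) hG (hmd.trans (min_le_left _ _))

theorem mov_zero (y : MK m Γ.B) (D : ℝ) (β : I) :
    DM b Γ.G (y.lin Γ 0 1 D) (y.mov Γ D β 0) = 0 := by
  have hτ : MeasurePreserving (fun p => (y.μ.g p, y.μ.c p)) y.A.P (mixM 0 y.jlaw (endL Γ β)) := by
    rw [mixM_zero]
    exact (y.μ.hg.prodMk y.μ.hc).measurePreserving _
  refine le_antisymm (DM_map_le (x := y.lin Γ 0 1 D) (y := y.mov Γ D β 0) hτ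
    (boxC_of_ae (G := univ) (by simp) le_rfl fun p _ q _ => ?_) ?_) DM_nonneg
  · show |max 0 0 * y.A.d p q + markD Γ 1 D y.μ p q -
      markD Γ 1 D (tautM Γ) (y.μ.g p, y.μ.c p) (y.μ.g q, y.μ.c q)| ≤ 0
    simp [markD, clip_of_le (y.μ.bg _), cl01_of_mem (y.μ.bc _)]
  · refine le_of_eq (Eq.trans (mdev_congr (Q := y.A.P) (ν := y.μ) (ν' := y.μ) 1 (by simp)
      (Eventually.of_forall fun p => ⟨clip_of_le (y.μ.bg _), cl01_of_mem (y.μ.bc _)⟩))
      (mdev_self _))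

theorem mov_one (y : MK m Γ.B) (D : ℝ) (β : I) :
    DM b Γ.G (y.mov Γ D β 1) (lawK Γ D (endL Γ β)) = 0 := by
  have hτ : MeasurePreserving id (mixM 1 y.jlaw (endL Γ β)) (endL Γ β) := by
    rw [mixM_one]
    exact MeasurePreserving.id _
  refine le_antisymm (DM_map_le (x := y.mov Γ D β 1) (y := lawK Γ D (endL Γ β)) hτ
    (boxC_of_ae (G := univ) (by simp) le_rfl fun p _ q _ => ?_)
    (mdev_self (Q := mixM 1 y.jlaw (endL Γ β)) (tautM Γ)).le) DM_nonneg
  simp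

end Pool.Agent.P.MP_de432b_gt.LC
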