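import Pool.Agent.P.MP_de432b_gt.LC.C7
import Pool.Agent.P.MP_de432b_gt.LC.D1

namespace Pool.Agent.P.MP_de432b_gt.LC

open MeasureTheory Set Filter Topology
open scoped unitInterval RealInnerProductSpace

variable {m : ℕ} (Γ : Geo m) {b : Bool}

/-- The span from a tagged space to its base. -/
noncomputable abbrev tagSpan (y : MK m Γ.B) (L ζ : ℝ) : Span (y.tag Γ L ζ).A y.A :=
  Span.ofMap (A := (y.tag Γ L ζ).A) (B := y.A) (tag_mp Γ y L ζ)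

/-- The tagged metric over an arbitrary base. -/
noncomputable def E3_T {Ω : Type} [MeasurableSpace Ω] (L ζ : ℝ) (d : Ω → Ω → ℝ)
    (μ : Marks m Γ.B Ω) (p q : Ω × (E m × I)) : ℝ :=
  coneD (antS Γ ζ) (10 * max L 1) (fun p q => d p.1 q.1) p q + tagD Γ L ζ μ p q

theorem E3_zc_le_one (ζ : ℝ) : Γ.zc ζ ≤ 1 / 100 := by
  have h := Γ.zc_mul_le ζ
  have h0 := Γ.zc_nonneg ζ
  have h1 := mul_nonneg Γ.hB Γ.hBn
  nlinarith [Γ.hB, Γ.hBn, mul_nonneg h0 h1, mul_nonneg h0 Γ.hB, mul_nonneg h0 Γ.hBn]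

theorem E3_zc_le {ζ : ℝ} (h0 : 0 ≤ ζ) : Γ.zc ζ ≤ ζ := max_le h0 (min_le_left _ _)

theorem E3_zc_lip (ζ ζ' : ℝ) : |Γ.zc ζ - Γ.zc ζ'| ≤ |ζ - ζ'| := by
  unfold Geo.zc
  refine (abs_max_sub_max_le_max _ _ _ _).trans ?_
  simp only [sub_self, abs_zero]
  refine max_le (abs_nonneg _) ((abs_min_sub_min_le_max _ _ _ _).trans ?_)
  simp

theorem E3_mp {Ω : Type} [MeasurableSpace Ω] (P : Measure Ω) [IsProbabilityMeasure P] :
    MeasurePreserving (fun x : Ω × (E m × I) => x.2.2) (P.prod (Γ.nu.prod volume)) volume :=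
  measurePreserving_snd.comp measurePreserving_snd

theorem E3_ant {Ω : Type} [MeasurableSpace Ω] (P : Measure Ω) [IsProbabilityMeasure P] (ζ : ℝ) :
    (P.prod (Γ.nu.prod volume)).real (antS Γ ζ : Set (Ω × (E m × I))) = Γ.zc ζ := by
  have hm : MeasurableSet {s : I | (s : ℝ) < Γ.zc ζ} :=
    measurableSet_lt measurable_subtype_coe measurable_const
  have h := (E3_mp Γ P).measureReal_preimage hm.nullMeasurableSet
  rw [vol_lt (Γ.zc_nonneg ζ) (by linarith [E3_zc_le_one Γ ζ])] at h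
  exact h

section bounds
variable {Ω : Type} [MeasurableSpace Ω] (μ : Marks m Γ.B Ω)

theorem E3_b1 (p q : Ω) : |Γ.Bn * ‖μ.g p - μ.g q‖ + abs (μ.c p - μ.c q)| ≤ Γ.CT := by
  have hB := Γ.hB
  have hBn := Γ.hBn
  have hg : ‖μ.g p - μ.g q‖ ≤ 2 * Γ.B := (norm_sub_le _ _).trans (by linarith [μ.bg p, μ.bg q])
  have hc : |μ.c p - μ.c q| ≤ 1 :=
    abs_sub_le_iff.mpr ⟨by linarith [(μ.bc p).2, (μ.bc q).1], by linarith [(μ.bc p).1, (μ.bc q).2]⟩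
  rw [abs_of_nonneg (by positivity), Geo.CT]
  nlinarith [mul_le_mul_of_nonneg_left hg hBn]

theorem E3_b2 (x y : E m) : |Γ.B * ‖clip Γ.Bn x - clip Γ.Bn y‖| ≤ Γ.CT := by
  have hB := Γ.hB
  have hBn := Γ.hBn
  have ha : ‖clip Γ.Bn x - clip Γ.Bn y‖ ≤ 2 * Γ.Bn :=
    (norm_sub_le _ _).trans (by linarith [norm_clip_le hBn x, norm_clip_le hBn y])
  rw [abs_of_nonneg (by positivity), Geo.CT]
  nlinarith [mul_le_mul_of_nonneg_left ha hB]

theorem E3_b3 (x : E m) (p : Ω) : |⟪clip Γ.Bn x, μ.g p⟫ + (1 - μ.c p)| ≤ Γ.CT := by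
  have hB := Γ.hB
  have hBn := Γ.hBn
  have h1 : |⟪clip Γ.Bn x, μ.g p⟫| ≤ Γ.Bn * Γ.B :=
    (abs_real_inner_le_norm _ _).trans
      (mul_le_mul (norm_clip_le hBn _) (μ.bg _) (norm_nonneg _) hBn)
  have h2 := abs_le.mp h1
  have h3 := μ.bc p
  have h4 := mul_nonneg hB hBn
  rw [Geo.CT, abs_le]
  constructor <;> nlinarith [h3.1, h3.2]

end bounds

theorem E3_CT_ge : Γ.B + 1 ≤ Γ.CT ∧ 1 ≤ Γ.CT := by
  have hB := Γ.hB
  have hBn := Γ.hBn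
  have h4 := mul_nonneg hB hBn
  rw [Geo.CT]
  constructor <;> nlinarith

theorem E3_zc_CT (ζ : ℝ) : Γ.zc ζ * Γ.CT ≤ 1 / 50 := by
  have h := Γ.zc_mul_le ζ
  rw [Geo.CT]
  linarith

theorem E3_mul_le (ζ : ℝ) {x : ℝ} (hx : |x| ≤ Γ.CT) : Γ.zc ζ * x ≤ 1 / 50 :=
  (mul_le_mul_of_nonneg_left ((le_abs_self x).trans hx) (Γ.zc_nonneg ζ)).trans (E3_zc_CT Γ ζ)

section one
variable {Ω : Type} [MeasurableSpace Ω] {Q : Measure Ω} [IsProbabilityMeasure Q]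

theorem E3_cell (L ζ : ℝ) (μ : Marks m Γ.B Ω) {η : ℝ} (hη : 0 < η) (p q : Ω × (E m × I))
    (a1 : ‖μ.g p.1 - μ.g q.1‖ ≤ η) (a2 : |μ.c p.1 - μ.c q.1| ≤ η)
    (a3 : ‖clip Γ.Bn p.2.1 - clip Γ.Bn q.2.1‖ ≤ η) (e3 : p ∈ antS Γ ζ ↔ q ∈ antS Γ ζ) :
    tagD Γ L ζ μ p q ≤ η := by
  have hz := Γ.zc_nonneg ζ
  have hz' := Γ.zc_mul_le ζ
  have hB := Γ.hB
  have hBn := Γ.hBn
  have hzB := mul_nonneg hz hB
  have hzBn := mul_nonneg hz hBn
  have hzBB := mul_nonneg hzB hBn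
  by_cases hp : p ∈ antS Γ ζ
  · simp only [hp, e3.mp hp, if_true, tagD, glueD]
    have h1 := mul_le_mul_of_nonneg_left a3 hzB
    have h2 : Γ.zc ζ * Γ.B ≤ 1 := by nlinarith
    nlinarith
  · simp only [hp, e3.not.mp hp, if_false, tagD, glueD]
    have h1 := mul_le_mul_of_nonneg_left a1 hzBn
    have h2 := mul_le_mul_of_nonneg_left a2 hz
    have h3 : Γ.zc ζ * Γ.Bn + Γ.zc ζ ≤ 1 := by nlinarith
    nlinarith

theorem E3_cells (L : ℝ) {η : ℝ} (hη : 0 < η) : ∃ N : ℕ, ∀ (Ω : Type) [MeasurableSpace Ω]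
    (μ : Marks m Γ.B Ω) (ζ : ℝ), ∃ i : Ω × (E m × I) → Fin N, Measurable i ∧
      ∀ p q, i p = i q → tagD Γ L ζ μ p q ≤ η := by
  classical
  obtain ⟨N1, i1, m1, h1⟩ := exists_cells m Γ.B hη
  obtain ⟨N2, i2, m2, h2⟩ := exists_cells m Γ.Bn hη
  obtain ⟨N, ⟨e₀⟩⟩ := Finite.exists_equiv_fin (Fin N1 × Fin N2 × Fin 2)
  refine ⟨N, fun Ω _ μ ζ => ?_⟩
  have hS := measurableSet_antS (Ω := Ω) Γ ζ
  have j1 : Measurable fun p : Ω × (E m × I) => i1 (μ.g p.1, μ.c p.1) :=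
    m1.comp ((μ.hg.comp measurable_fst).prodMk (μ.hc.comp measurable_fst))
  have j2 : Measurable fun p : Ω × (E m × I) => i2 (clip Γ.Bn p.2.1, 0) :=
    m2.comp ((measurable_clip.comp (measurable_fst.comp measurable_snd)).prodMk measurable_const)
  have j3 : Measurable fun p : Ω × (E m × I) => if p ∈ antS Γ ζ then (1 : Fin 2) else 0 :=
    Measurable.ite hS measurable_const measurable_const
  refine ⟨_, (measurable_of_countable e₀).comp (j1.prodMk (j2.prodMk j3)), fun p q e => ?_⟩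
  have e' := e₀.injective e
  simp only [Prod.mk.injEq] at e'
  obtain ⟨e1, e2, e3⟩ := e'
  have h0 : (0 : ℝ) ∈ Icc (0 : ℝ) 1 := ⟨le_rfl, zero_le_one⟩
  have a1 := h1 (μ.g p.1, μ.c p.1) (μ.g q.1, μ.c q.1) (μ.bg _) (μ.bg _) (μ.bc _) (μ.bc _) e1
  have a3 := h2 (clip Γ.Bn p.2.1, 0) (clip Γ.Bn q.2.1, 0) (norm_clip_le Γ.hBn _)
    (norm_clip_le Γ.hBn _) h0 h0 e2
  refine E3_cell Γ L ζ μ hη p q a1.1 a1.2 a3.1 ?_
  by_cases hp : p ∈ antS Γ ζ <;> by_cases hq : q ∈ antS Γ ζ <;> simp [hp, hq] at e3 ⊢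

/-- Step 1: changing the base metric. -/
theorem E3_step1 (L : ℝ) {η : ℝ} (hη : 0 < η) : ∃ N : ℕ, ∀ (Ω : Type) [MeasurableSpace Ω]
    (Q : Measure Ω) [IsProbabilityMeasure Q] (b : Bool) (d d' : Ω → Ω → ℝ) (μ : Marks m Γ.B Ω)
    (ζ ε : ℝ), IsPM d → IsPM d' → Close b Q d d' ε →
    Close b (Q.prod (Γ.nu.prod volume)) (E3_T Γ L ζ d μ) (E3_T Γ L ζ d' μ) (η + (N + 2) * ε) := by
  obtain ⟨N, hN⟩ := E3_cells Γ L hη
  refine ⟨N, fun Ω _ Q _ b d d' μ ζ ε hd hd' h => ?_⟩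
  obtain ⟨i, hi, hc⟩ := hN Ω μ ζ
  have hS := measurableSet_antS (Ω := Ω) Γ ζ
  have hfst : MeasurePreserving (Prod.fst : Ω × (E m × I) → Ω) (Q.prod (Γ.nu.prod volume)) Q :=
    measurePreserving_fst
  have c1 := (h.pull hd hd' hfst).cone
    (hd.pull measurable_fst) (hd'.pull measurable_fst) hS (10 * max L 1)
  have c2 := c1.cells ((hd.pull measurable_fst).cone hS _) ((hd'.pull measurable_fst).cone hS _)
    (isPM_tagD Γ L ζ μ) hi hη.le hc zero_le_one le_rfl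
  simp only [one_mul] at c2
  exact c2

/-- Step 2: changing the marks. -/
theorem E3_step2 (L ζ : ℝ) (d : Ω → Ω → ℝ) (μ μ' : Marks m Γ.B Ω) {η : ℝ} (hη : 0 < η)
    (h : mdev Q μ μ' 1 ≤ η ^ 2) :
    BoxC (Q.prod (Γ.nu.prod volume)) (E3_T Γ L ζ d μ) (E3_T Γ L ζ d μ') (3 * η) := by
  have hfst : MeasurePreserving (Prod.fst : Ω × (E m × I) → Ω) (Q.prod (Γ.nu.prod volume)) Q :=
    measurePreserving_fst
  have hi := integrable_mdev (Q := Q.prod (Γ.nu.prod volume)) (μ.pull hfst.measurable)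
    (μ'.pull hfst.measurable) 1
  have hm := measurable_mdev (μ.pull hfst.measurable) (μ'.pull hfst.measurable) 1
  have he := (mdev_pull μ μ' 1 hfst).trans_le h
  have key := boxC_of_mean (d := tagD Γ L ζ μ) (d' := tagD Γ L ζ μ') hm (fun p => by positivity) hi
    zero_le_one hη he (G := univ) (by simp) (fun p _ q _ => ?_)
  · have := key.add_left (coneD (antS Γ ζ) (10 * max L 1) (fun p q => d p.1 q.1))
    rw [show (2 * 1 + 1 : ℝ) = 3 by norm_num] at this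
    exact this
  simp only [D1_one_app, one_mul]
  have hz := Γ.zc_nonneg ζ
  have hz' := Γ.zc_mul_le ζ
  have hz1 := E3_zc_le_one Γ ζ
  have hB := Γ.hB
  have hBn := Γ.hBn
  have hzB := mul_nonneg hz hB
  have hzBn := mul_nonneg hz hBn
  have hzBB := mul_nonneg hzB hBn
  have hz2 : Γ.zc ζ * Γ.Bn ≤ 1 := by nlinarith
  have cross : ∀ (p : Ω) (x : E m), |10 * max L 1 + Γ.zc ζ * (⟪clip Γ.Bn x, μ.g p⟫ + (1 - μ.c p)) -
      (10 * max L 1 + Γ.zc ζ * (⟪clip Γ.Bn x, μ'.g p⟫ + (1 - μ'.c p)))| ≤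
      ‖μ.g p - μ'.g p‖ + |μ.c p - μ'.c p| := by
    intro p x
    have h1 : |⟪clip Γ.Bn x, μ.g p - μ'.g p⟫| ≤ Γ.Bn * ‖μ.g p - μ'.g p‖ :=
      (abs_real_inner_le_norm _ _).trans
        (mul_le_mul_of_nonneg_right (norm_clip_le hBn _) (norm_nonneg _))
    rw [inner_sub_right] at h1
    have h2 := abs_le.mp h1
    have h3 := le_abs_self (μ.c p - μ'.c p)
    have h4 := neg_abs_le (μ.c p - μ'.c p)
    have h5 := norm_nonneg (μ.g p - μ'.g p)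
    have h6 := abs_nonneg (μ.c p - μ'.c p)
    have h7 := mul_le_mul_of_nonneg_right hz2 h5
    have h8 := mul_le_mul_of_nonneg_right hz1 h6
    rw [abs_le]
    constructor <;> nlinarith [mul_le_mul_of_nonneg_left h2.1 hz,
      mul_le_mul_of_nonneg_left h2.2 hz, mul_le_mul_of_nonneg_left h3 hz,
      mul_le_mul_of_nonneg_left h4 hz]
  have n1 := norm_nonneg (μ.g p.1 - μ'.g p.1)
  have n2 := norm_nonneg (μ.g q.1 - μ'.g q.1)
  have n3 := abs_nonneg (μ.c p.1 - μ'.c p.1)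
  have n4 := abs_nonneg (μ.c q.1 - μ'.c q.1)
  by_cases hp : p ∈ antS Γ ζ <;> by_cases hq : q ∈ antS Γ ζ <;>
    simp only [hp, hq, if_true, if_false, tagD, glueD]
  · rw [sub_self, abs_zero]
    positivity
  · linarith [cross q.1 p.2.1]
  · linarith [cross p.1 q.2.1]
  · have g1 : |‖μ.g p.1 - μ.g q.1‖ - ‖μ'.g p.1 - μ'.g q.1‖| ≤
        ‖μ.g p.1 - μ'.g p.1‖ + ‖μ.g q.1 - μ'.g q.1‖ := by
      refine (abs_norm_sub_norm_le _ _).trans (le_trans (le_of_eq ?_) (norm_sub_le _ _))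
      congr 1
      abel
    have g2 : |abs (μ.c p.1 - μ.c q.1) - abs (μ'.c p.1 - μ'.c q.1)| ≤
        |μ.c p.1 - μ'.c p.1| + |μ.c q.1 - μ'.c q.1| := by
      refine (abs_abs_sub_abs_le_abs_sub _ _).trans (le_trans (le_of_eq ?_) (abs_sub _ _))
      congr 1
      ring
    have g3 := abs_le.mp g1
    have g4 := abs_le.mp g2
    have h7 := mul_le_mul_of_nonneg_right hz2 (add_nonneg n1 n2)
    have h8 := mul_le_mul_of_nonneg_right hz1 (add_nonneg n3 n4)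
    rw [abs_le]
    constructor <;> nlinarith [mul_le_mul_of_nonneg_left g3.1 hzBn,
      mul_le_mul_of_nonneg_left g3.2 hzBn, mul_le_mul_of_nonneg_left g4.1 hz,
      mul_le_mul_of_nonneg_left g4.2 hz]

/-- Step 3: changing the antenna mass. -/
theorem E3_step3 (L ζ ζ' : ℝ) (d : Ω → Ω → ℝ) (μ : Marks m Γ.B Ω) :
    BoxC (Q.prod (Γ.nu.prod volume)) (E3_T Γ L ζ d μ) (E3_T Γ L ζ' d μ) (Γ.CT * |ζ - ζ'|) := by
  have hz := E3_zc_lip Γ ζ ζ'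
  have hC := (E3_CT_ge Γ).2
  have ha := abs_nonneg (ζ - ζ')
  have hm : MeasurableSet {s : I | ¬ ((s : ℝ) < Γ.zc ζ ↔ (s : ℝ) < Γ.zc ζ')} := by
    have h1 : Measurable fun s : I => (s : ℝ) < Γ.zc ζ :=
      measurableSet_setOfPred.mp (measurableSet_lt measurable_subtype_coe measurable_const)
    have h2 : Measurable fun s : I => (s : ℝ) < Γ.zc ζ' :=
      measurableSet_setOfPred.mp (measurableSet_lt measurable_subtype_coe measurable_const)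
    exact measurableSet_setOfPred.mpr (h1.iff h2).not
  refine ⟨((fun x : Ω × (E m × I) => x.2.2) ⁻¹'
    {s : I | ¬ ((s : ℝ) < Γ.zc ζ ↔ (s : ℝ) < Γ.zc ζ')})ᶜ, ((E3_mp Γ Q).measurable hm).compl, ?_,
    fun p hp q hq => ?_⟩
  · rw [compl_compl, (E3_mp Γ Q).measureReal_preimage hm.nullMeasurableSet]
    refine (vol_between _ _).trans (hz.trans ?_)
    nlinarith
  have hp' : p ∈ antS Γ ζ ↔ p ∈ antS Γ ζ' := not_not.mp hp
  have hq' : q ∈ antS Γ ζ ↔ q ∈ antS Γ ζ' := not_not.mp hq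
  have key : ∀ x a : ℝ, |x| ≤ Γ.CT → |a + Γ.zc ζ * x - (a + Γ.zc ζ' * x)| ≤ Γ.CT * |ζ - ζ'| := by
    intro x a hx
    rw [show a + Γ.zc ζ * x - (a + Γ.zc ζ' * x) = x * (Γ.zc ζ - Γ.zc ζ') by ring, abs_mul]
    exact mul_le_mul hx hz (abs_nonneg _) (by linarith)
  by_cases h1 : p ∈ antS Γ ζ <;> by_cases h2 : q ∈ antS Γ ζ
  · simp only [E3_T, coneD, tagD, glueD, h1, h2, hp'.mp h1, hq'.mp h2, if_true]
    exact key _ _ (E3_b2 Γ _ _)
  · simp only [E3_T, coneD, tagD, glueD, h1, h2, hp'.mp h1, hq'.not.mp h2, if_true, if_false,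
      ← add_assoc]
    have := key _ (max (10 * max L 1) 0 + 10 * max L 1) (E3_b3 Γ μ p.2.1 q.1)
    simpa only [← add_assoc] using this
  · simp only [E3_T, coneD, tagD, glueD, h1, h2, hp'.not.mp h1, hq'.mp h2, if_true, if_false,
      ← add_assoc]
    have := key _ (max (10 * max L 1) 0 + 10 * max L 1) (E3_b3 Γ μ q.2.1 p.1)
    simpa only [← add_assoc] using this
  · simp only [E3_T, coneD, tagD, glueD, h1, h2, hp'.not.mp h1, hq'.not.mp h2, if_false]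
    exact key _ _ (E3_b1 Γ μ _ _)

theorem E3_isPM (L ζ : ℝ) {d : Ω → Ω → ℝ} (hd : IsPM d) (μ : Marks m Γ.B Ω) :
    IsPM (E3_T Γ L ζ d μ) :=
  ((hd.pull measurable_fst).cone (measurableSet_antS Γ ζ) _).add (isPM_tagD Γ L ζ μ)

end one

theorem E3_clip (h : U m) (B : ℝ) (x : E m) :
    clip B ((h : E m →L[ℝ] E m) x) = (h : E m →L[ℝ] E m) (clip B x) := by
  simp only [clip, U.norm_app, map_smul]

/-- Rotating the antenna against rotating the marks. -/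
theorem E3_rot {Ω Ω' : Type} [MeasurableSpace Ω] [MeasurableSpace Ω'] (L ζ : ℝ)
    (d : Ω → Ω → ℝ) (μ : Marks m Γ.B Ω) {τ : Ω' → Ω} (hτ : Measurable τ) (h : U m)
    (p q : Ω' × (E m × I)) :
    E3_T Γ L ζ d μ (τ p.1, ((h⁻¹ : U m) : E m →L[ℝ] E m) p.2.1, p.2.2)
        (τ q.1, ((h⁻¹ : U m) : E m →L[ℝ] E m) q.2.1, q.2.2) =
      E3_T Γ L ζ (fun p q => d (τ p) (τ q)) ((μ.pull hτ).act h) p q := by
  have e1 : ∀ x y : E m, ⟪((h⁻¹ : U m) : E m →L[ℝ] E m) x, y⟫ = ⟪x, (h : E m →L[ℝ] E m) y⟫ := by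
    intro x y
    rw [← ContinuousLinearMap.inner_map_map_of_mem_unitary h.2, ← D1_mul_app, mul_inv_cancel,
      D1_one_app]
  simp only [E3_T, coneD, tagD, glueD, E3_clip, ← map_sub, U.norm_app, e1]
  rfl

theorem tag_uc (L : ℝ) {δ : ℝ} (hδ : 0 < δ) : ∃ η : ℝ, 0 < η ∧
    ∀ (b : Bool) (y y' : MK m Γ.B) (ζ ζ' : ℝ), DM b Γ.G y y' < η → |ζ - ζ'| < η →
      DD b (y.tag Γ L ζ).A (y'.tag Γ L ζ').A ≤ δ := by
  obtain ⟨N, hN⟩ := E3_step1 Γ L (η := δ / 4) (by positivity)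
  have hC := (E3_CT_ge Γ).2
  refine ⟨min (δ / 4 / (N + 2)) (min ((δ / 12) ^ 2) (δ / 4 / Γ.CT)), by positivity,
    fun b y y' ζ ζ' hD hζ => ?_⟩
  obtain ⟨s, hs, h, hG, hm⟩ := exists_of_DM_lt hD
  have hh : MeasurePreserving ((h⁻¹ : U m) : E m →L[ℝ] E m) Γ.nu Γ.nu :=
    ⟨((h⁻¹ : U m) : E m →L[ℝ] E m).continuous.measurable, Γ.nu_inv _ (Γ.G.inv_mem hG)⟩
  let s' : Span (y.tag Γ L ζ).A (y'.tag Γ L ζ').A :=
    { Ω := s.Ω × (E m × I), Q := s.Q.prod (Γ.nu.prod volume)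
      l := fun p => (s.l p.1, p.2)
      r := fun p => (s.r p.1, ((h⁻¹ : U m) : E m →L[ℝ] E m) p.2.1, p.2.2)
      hl := s.hl.prod (MeasurePreserving.id _)
      hr := s.hr.prod (hh.prod (MeasurePreserving.id _)) }
  have d1 := y.A.hd.pull s.hl.measurable
  have d2 := y'.A.hd.pull s.hr.measurable
  have c1 := hN s.Ω s.Q b _ _ (y.μ.pull s.hl.measurable) ζ _ d1 d2 hs
  have hm' : mdev s.Q (y.μ.pull s.hl.measurable) ((y'.μ.pull s.hr.measurable).act h) 1 ≤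
      (δ / 12) ^ 2 := by
    refine le_trans (le_of_eq ?_) (hm.trans ((min_le_right _ _).trans (min_le_left _ _)))
    simp only [Span.mdev, mdev, D1_one_app]
  have c2 := (E3_step2 Γ L ζ (fun p q => y'.A.d (s.r p) (s.r q)) _ _ (by positivity) hm').close
    (b := b) (E3_isPM Γ L ζ d2 _) (E3_isPM Γ L ζ d2 _)
  have c3 := (E3_step3 Γ (Q := s.Q) L ζ ζ' (fun p q => y'.A.d (s.r p) (s.r q))
    ((y'.μ.pull s.hr.measurable).act h)).close (b := b) (E3_isPM Γ L ζ d2 _) (E3_isPM Γ L ζ' d2 _)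
  have c4 := ((c1.trans c2).trans c3).mono (ε' := δ) (by
    have a1 : ((N : ℝ) + 2) * min (δ / 4 / (N + 2)) (min ((δ / 12) ^ 2) (δ / 4 / Γ.CT)) ≤
        δ / 4 := by
      rw [mul_comm, ← le_div_iff₀ (by positivity)]
      exact min_le_left _ _
    have a2 : Γ.CT * |ζ - ζ'| ≤ δ / 4 := by
      rw [mul_comm, ← le_div_iff₀ (by positivity)]
      exact hζ.le.trans ((min_le_right _ _).trans (min_le_right _ _))
    linarith)
  refine DD_le (s := s') ?_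
  have e : (fun p q => (y'.tag Γ L ζ').A.d (s'.r p) (s'.r q)) =
      E3_T Γ L ζ' (fun p q => y'.A.d (s.r p) (s.r q)) ((y'.μ.pull s.hr.measurable).act h) := by
    funext p q
    exact E3_rot Γ L ζ' y'.A.d y'.μ s.hr.measurable h p q
  unfold Span.Close
  rw [e]
  exact c4

theorem tag_box (y : MK m Γ.B) {L ζ : ℝ} (hL : 1 ≤ L) (hd : ∀ p q, y.A.d p q ≤ 20 * L)
    (h0 : 0 ≤ ζ) : (tagSpan Γ y L ζ).Close true (Γ.CT * ζ) := by
  have hC := (E3_CT_ge Γ).2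
  have hz := E3_zc_le Γ h0
  refine ⟨(antS Γ ζ)ᶜ, (measurableSet_antS Γ ζ).compl, ?_, fun p hp q hq => ?_⟩
  · rw [compl_compl]
    refine (E3_ant Γ y.A.P ζ).trans_le ?_
    nlinarith
  have hp' : p ∉ antS Γ ζ := hp
  have hq' : q ∉ antS Γ ζ := hq
  have e : min (y.A.d p.1 q.1) (2 * max (10 * max L 1) 0) = y.A.d p.1 q.1 := by
    refine min_eq_left ((hd _ _).trans ?_)
    linarith [le_max_left (10 * max L 1) 0, le_max_left L 1]
  simp only [id, coneD, tagD, glueD, hp', hq', if_false, e, add_sub_cancel_left]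
  rw [abs_mul, mul_comm, abs_of_nonneg (Γ.zc_nonneg ζ)]
  exact mul_le_mul (E3_b1 Γ y.μ _ _) hz (Γ.zc_nonneg ζ) (by linarith)

theorem tag_mdev (y : MK m Γ.B) (L : ℝ) {ζ : ℝ} (h0 : 0 ≤ ζ) :
    (tagSpan Γ y L ζ).mdev (y.tag Γ L ζ).μ y.μ 1 ≤ (Γ.B + 1) * ζ := by
  have hS := measurableSet_antS (Ω := y.A.Ω) Γ ζ
  have hB := Γ.hB
  have h1 : (tagSpan Γ y L ζ).mdev (y.tag Γ L ζ).μ y.μ 1 ≤
      ∫ p, (antS Γ ζ).indicator (fun _ => Γ.B + 1) p ∂(y.A.P.prod (Γ.nu.prod volume)) := by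
    refine integral_mono (integrable_mdev _ _ _) ((integrable_const _).indicator hS) fun p => ?_
    by_cases hp : p ∈ antS Γ ζ
    · simp only [id, hp, if_true, D1_one_app, indicator_of_mem, zero_sub, norm_neg]
      have := y.μ.bg p.1
      have h2 := y.μ.bc p.1
      rw [abs_of_nonneg (by linarith [h2.2])]
      linarith [h2.1]
    · simp [hp]
  rw [integral_indicator_const _ hS, E3_ant, smul_eq_mul, mul_comm] at h1
  exact h1.trans (mul_le_mul_of_nonneg_left (E3_zc_le Γ h0) (by linarith))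

theorem DM_tag (G : Subgroup (U m)) (y : MK m Γ.B) {L ζ : ℝ} (hL : 1 ≤ L)
    (hd : ∀ p q, y.A.d p q ≤ 20 * L) (h0 : 0 ≤ ζ) : DM b G (y.tag Γ L ζ) y ≤ Γ.CT * ζ :=
  DM_le (s := tagSpan Γ y L ζ) (tag_box Γ y hL hd h0).of_box G.one_mem
    ((tag_mdev Γ y L h0).trans (mul_le_mul_of_nonneg_right (E3_CT_ge Γ).1 h0))

theorem tag_d_le (y : MK m Γ.B) {L : ℝ} (ζ : ℝ) (hL : 1 ≤ L) (hd : ∀ p q, y.A.d p q ≤ 2 * L)
    (p q : (y.tag Γ L ζ).A.Ω) : (y.tag Γ L ζ).A.d p q ≤ 21 * L := by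
  have e1 : max L 1 = L := max_eq_left hL
  have e2 : max (10 * L) 0 = 10 * L := max_eq_left (by linarith)
  by_cases hp : p ∈ antS Γ ζ <;> by_cases hq : q ∈ antS Γ ζ <;>
    simp only [coneD, tagD, glueD, hp, hq, if_true, if_false, e1, e2]
  · linarith [E3_mul_le Γ ζ (E3_b2 Γ p.2.1 q.2.1)]
  · linarith [E3_mul_le Γ ζ (E3_b3 Γ y.μ p.2.1 q.1)]
  · linarith [E3_mul_le Γ ζ (E3_b3 Γ y.μ q.2.1 p.1)]
  · linarith [E3_mul_le Γ ζ (E3_b1 Γ y.μ p.1 q.1), min_le_left (y.A.d p.1 q.1) (2 * (10 * L)),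
      hd p.1 q.1]

end Pool.Agent.P.MP_de432b_gt.LC
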