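import Pool.Agent.P.MP_de432b_gt.LC.C7
import Pool.Agent.P.MP_de432b_gt.LC.D1

namespace Pool.Agent.P.MP_de432b_gt.LC

open MeasureTheory Set Filter Topology
open scoped unitInterval RealInnerProductSpace

variable {m : ℕ}

theorem E4_cont : Continuous fun x : E m => InnerProductSpace.rankOne ℝ x x :=
  (InnerProductSpace.rankOne ℝ : E m →L[ℝ] _).continuous.clm_apply continuous_id

theorem E4_norm {B : ℝ} {x : E m} (hx : ‖x‖ ≤ B) : ‖InnerProductSpace.rankOne ℝ x x‖ ≤ B ^ 2 := by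
  rw [InnerProductSpace.norm_rankOne, pow_two]
  exact mul_self_le_mul_self (norm_nonneg _) hx

theorem E4_diff {B : ℝ} {x y : E m} (hx : ‖x‖ ≤ B) (hy : ‖y‖ ≤ B) :
    ‖InnerProductSpace.rankOne ℝ x x - InnerProductSpace.rankOne ℝ y y‖ ≤ 2 * B * ‖x - y‖ := by
  have e : InnerProductSpace.rankOne ℝ x x - InnerProductSpace.rankOne ℝ y y =
      InnerProductSpace.rankOne ℝ (x - y) x + InnerProductSpace.rankOne ℝ y (x - y) := by
    simp only [map_sub, sub_apply]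
    abel
  rw [e]
  refine (norm_add_le _ _).trans ?_
  rw [InnerProductSpace.norm_rankOne, InnerProductSpace.norm_rankOne]
  nlinarith [norm_nonneg (x - y)]

theorem E4_int {Ω : Type} [MeasurableSpace Ω] {Q : Measure Ω} [IsFiniteMeasure Q] {B : ℝ}
    {g : Ω → E m} (hg : Measurable g) (hb : ∀ᵐ p ∂Q, ‖g p‖ ≤ B) :
    Integrable (fun p => InnerProductSpace.rankOne ℝ (g p) (g p)) Q :=
  Integrable.of_bound (E4_cont.comp_aestronglyMeasurable hg.aestronglyMeasurable) (B ^ 2)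
    (hb.mono fun _ h => E4_norm h)

theorem E4_map {Ω : Type} [MeasurableSpace Ω] (Q : Measure Ω) {g : Ω → E m} (hg : Measurable g) :
    gram (Q.map g) = ‖(∫ p, InnerProductSpace.rankOne ℝ (g p) (g p) ∂Q) - 1‖ := by
  rw [gram, integral_map hg.aemeasurable E4_cont.aestronglyMeasurable]

theorem E4_unit {Ω : Type} [MeasurableSpace Ω] {Q : Measure Ω} [IsFiniteMeasure Q] {B : ℝ}
    {g : Ω → E m} (hg : Measurable g) (hb : ∀ᵐ p ∂Q, ‖g p‖ ≤ B) (h : U m) :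
    gram (Q.map fun p => (h : E m →L[ℝ] E m) (g p)) = gram (Q.map g) := by
  have e : ∀ x : E m, InnerProductSpace.rankOne ℝ ((h : E m →L[ℝ] E m) x) ((h : E m →L[ℝ] E m) x) =
      (h : E m →L[ℝ] E m) * InnerProductSpace.rankOne ℝ x x * star (h : E m →L[ℝ] E m) := by
    intro x
    refine ContinuousLinearMap.ext fun v => ?_
    simp only [InnerProductSpace.rankOne_apply, mul_apply_eq_comp, map_smul,
      ContinuousLinearMap.star_eq_adjoint, ContinuousLinearMap.adjoint_inner_right]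
  have hi := E4_int hg hb
  rw [E4_map Q (g := fun p => (h : E m →L[ℝ] E m) (g p))
    ((h : E m →L[ℝ] E m).continuous.measurable.comp hg), E4_map Q hg]
  simp only [e]
  rw [integral_mul_const_of_integrable (hi.const_mul _), integral_const_mul_of_integrable hi]
  generalize (∫ p, InnerProductSpace.rankOne ℝ (g p) (g p) ∂Q) = A
  have e2 : (h : E m →L[ℝ] E m) * A * star (h : E m →L[ℝ] E m) - 1 =
      (h : E m →L[ℝ] E m) * (A - 1) * star (h : E m →L[ℝ] E m) := by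
    rw [mul_sub, sub_mul, mul_one, Unitary.mul_star_self_of_mem h.2]
  rw [e2, CStarRing.norm_mul_mem_unitary _ (Unitary.star_mem h.2), CStarRing.norm_coe_unitary_mul]

theorem E4_pint {B : ℝ} (π : Measure (E m × E m)) [IsProbabilityMeasure π] (h : U m)
    (hb : ∀ᵐ z ∂π, ‖z.1‖ ≤ B ∧ ‖z.2‖ ≤ B) :
    Integrable (fun z : E m × E m => ‖z.1 - (h : E m →L[ℝ] E m) z.2‖) π :=
  Integrable.of_bound (by fun_prop) (2 * B) (hb.mono fun z hz => by
    rw [norm_norm]; exact C7_norm_le h hz.1 hz.2)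

theorem gram_lip {B : ℝ} (π : Measure (E m × E m)) [IsProbabilityMeasure π] (h : U m)
    (hb : ∀ᵐ z ∂π, ‖z.1‖ ≤ B ∧ ‖z.2‖ ≤ B) :
    |gram (π.map Prod.fst) - gram (π.map Prod.snd)| ≤
      2 * B * ∫ z, ‖z.1 - (h : E m →L[ℝ] E m) z.2‖ ∂π := by
  have hm : Measurable fun z : E m × E m => (h : E m →L[ℝ] E m) z.2 := by fun_prop
  have hb2 : ∀ᵐ z ∂π, ‖(h : E m →L[ℝ] E m) z.2‖ ≤ B := hb.mono fun z hz => by
    rw [U.norm_app]; exact hz.2
  have i1 := E4_int measurable_fst (hb.mono fun z hz => hz.1)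
  have i2 := E4_int hm hb2
  rw [← E4_unit measurable_snd (hb.mono fun z hz => hz.2) h, E4_map π measurable_fst, E4_map π hm]
  refine (abs_norm_sub_norm_le _ _).trans ?_
  rw [sub_sub_sub_cancel_right, ← integral_sub i1 i2, ← integral_const_mul]
  refine norm_integral_le_of_norm_le ((E4_pint π h hb).const_mul _) ?_
  filter_upwards [hb, hb2] with z h1 h2
  exact E4_diff h1.1 h2

theorem gram_mix {B : ℝ} (u : I) (μ ν : Measure (E m)) [IsProbabilityMeasure μ]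
    [IsProbabilityMeasure ν] (hμ : ∀ᵐ z ∂μ, ‖z‖ ≤ B) (hν : ∀ᵐ z ∂ν, ‖z‖ ≤ B) :
    gram (mixM u μ ν) ≤ max (gram μ) (gram ν) := by
  have i1 := E4_int (Q := μ) measurable_id hμ
  have i2 := E4_int (Q := ν) measurable_id hν
  simp only [id] at i1 i2
  have h1 := le_max_left (gram μ) (gram ν)
  have h2 := le_max_right (gram μ) (gram ν)
  generalize max (gram μ) (gram ν) = M at h1 h2 ⊢
  rw [gram] at h1 h2 ⊢
  rw [integral_mixM u i1 i2]
  generalize (∫ x, InnerProductSpace.rankOne ℝ x x ∂μ) = A at h1 ⊢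
  generalize (∫ x, InnerProductSpace.rankOne ℝ x x ∂ν) = A' at h2 ⊢
  have e : (1 - u : ℝ) • A + (u : ℝ) • A' - 1 = (1 - u : ℝ) • (A - 1) + (u : ℝ) • (A' - 1) := by
    module
  rw [e]
  refine (norm_add_le _ _).trans ?_
  rw [norm_smul, norm_smul, Real.norm_of_nonneg (sub_nonneg.mpr u.2.2), Real.norm_of_nonneg u.2.1]
  nlinarith [u.2.1, u.2.2]

theorem gram_act {B : ℝ} (h : U m) (y : MK m B) : gram (y.act h).law = gram y.law :=
  E4_unit (Q := y.bP) y.μ.hg (ae_of_all _ y.μ.bg) h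

theorem gram_tot {B : ℝ} (y : MK m B) (hx : y.x ≤ 1 / 2) :
    gram (y.A.P.map y.μ.g) ≤ gram y.law + y.x * (1 + B ^ 2) := by
  have hx' : ∫ p, y.μ.c p ∂y.A.P < 1 := lt_of_le_of_lt hx (by norm_num)
  have hd := bulkP_decomp y.μ.hc y.μ.bc hx'
  have hW : (y.A.P.withDensity fun p => ENNReal.ofReal (y.μ.c p)) univ = ENNReal.ofReal y.x := by
    rw [withDensity_apply _ MeasurableSet.univ, Measure.restrict_univ, MK.x,
      ofReal_integral_eq_lintegral_ofReal (C7_int y.μ.hc y.μ.bc)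
        (ae_of_all _ fun p => (y.μ.bc p).1)]
  generalize (y.A.P.withDensity fun p => ENNReal.ofReal (y.μ.c p)) = W at hd hW
  have : IsFiniteMeasure W := ⟨by rw [hW]; exact ENNReal.ofReal_lt_top⟩
  have i1 := E4_int (Q := y.bP) y.μ.hg (ae_of_all _ y.μ.bg)
  have i2 := E4_int (Q := W) y.μ.hg (ae_of_all _ y.μ.bg)
  have hb := norm_integral_le_of_norm_le_const (μ := W)
    (f := fun p => InnerProductSpace.rankOne ℝ (y.μ.g p) (y.μ.g p))
    (ae_of_all _ fun p => E4_norm (y.μ.bg p))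
  have h0 := y.x_mem.1
  rw [measureReal_def, hW, ENNReal.toReal_ofReal h0] at hb
  have e : ∫ p, InnerProductSpace.rankOne ℝ (y.μ.g p) (y.μ.g p) ∂y.A.P =
      (1 - y.x) • ∫ p, InnerProductSpace.rankOne ℝ (y.μ.g p) (y.μ.g p) ∂y.bP +
        ∫ p, InnerProductSpace.rankOne ℝ (y.μ.g p) (y.μ.g p) ∂W := by
    conv_lhs => rw [hd]
    rw [integral_add_measure (i1.smul_measure ENNReal.ofReal_ne_top) i2, integral_smul_measure,
      ENNReal.toReal_ofReal (sub_nonneg.mpr hx'.le)]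
    rfl
  rw [MK.law, E4_map _ y.μ.hg, E4_map _ y.μ.hg, e]
  generalize (∫ p, InnerProductSpace.rankOne ℝ (y.μ.g p) (y.μ.g p) ∂y.bP) = A
  generalize (∫ p, InnerProductSpace.rankOne ℝ (y.μ.g p) (y.μ.g p) ∂W) = A' at hb ⊢
  have e2 : (1 - y.x) • A + A' - 1 = (1 - y.x) • (A - 1) + (A' - y.x • 1) := by module
  have h1 : ‖(1 : E m →L[ℝ] E m)‖ ≤ 1 := ContinuousLinearMap.norm_id_le
  rw [e2]
  refine (norm_add_le _ _).trans ((add_le_add le_rfl (norm_sub_le _ _)).trans ?_)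
  rw [norm_smul, norm_smul, Real.norm_of_nonneg (by linarith), Real.norm_of_nonneg h0]
  nlinarith [norm_nonneg (A - 1)]

variable (Γ : Geo m)

theorem le_Qal_lin (b : Bool) (X₀ : PM) (y : MK m Γ.B) (t : I) :
    DD b (y.linB Γ t) X₀ ≤ Qal Γ b X₀ y :=
  le_max_of_le_left (le_ciSup (f := fun t : I => DD b (y.linB Γ t) X₀)
    ⟨1, by rintro _ ⟨t, rfl⟩; exact DD_le_one _ _ _⟩ t)

theorem le_Qal_law (b : Bool) (X₀ : PM) (y : MK m Γ.B) (u : I) :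
    DD b (lawP Γ (mixM u y.law Γ.lam)) X₀ ≤ Qal Γ b X₀ y :=
  le_max_of_le_right (le_ciSup (f := fun u : I => DD b (lawP Γ (mixM u y.law Γ.lam)) X₀)
    ⟨1, by rintro _ ⟨t, rfl⟩; exact DD_le_one _ _ _⟩ u)

theorem Qal_le {b : Bool} {X₀ : PM} {y : MK m Γ.B} {ε : ℝ}
    (h1 : ∀ t : I, DD b (y.linB Γ t) X₀ ≤ ε)
    (h2 : ∀ u : I, DD b (lawP Γ (mixM u y.law Γ.lam)) X₀ ≤ ε) : Qal Γ b X₀ y ≤ ε :=
  max_le (ciSup_le h1) (ciSup_le h2)

theorem E4_rho {h : U m} (hG : h ∈ Γ.G) (a b a' b' : E m) :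
    |Γ.ρ a b - Γ.ρ a' b'| ≤
      Γ.C * (‖a - (h : E m →L[ℝ] E m) a'‖ + ‖b - (h : E m →L[ℝ] E m) b'‖) := by
  rw [← Γ.ρ_inv h hG a' b', mul_add]
  generalize (h : E m →L[ℝ] E m) a' = x
  generalize (h : E m →L[ℝ] E m) b' = y
  have := Γ.ρ_le a x
  have := Γ.ρ_le b y
  have := Γ.ρ_symm a x
  have := Γ.ρ_symm b y
  rw [abs_sub_le_iff]
  constructor
  · linarith [Γ.ρ_tri a x b, Γ.ρ_tri x y b]
  · linarith [Γ.ρ_tri x a y, Γ.ρ_tri a b y]

theorem DD_lawP {b : Bool} (π : Measure (E m × E m)) [IsProbabilityMeasure π]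
    (μ ν : Measure (E m)) [IsProbabilityMeasure μ] [IsProbabilityMeasure ν]
    (h1 : π.map Prod.fst = μ) (h2 : π.map Prod.snd = ν) {h : U m} (hG : h ∈ Γ.G)
    (hb : ∀ᵐ z ∂π, ‖z.1‖ ≤ Γ.B ∧ ‖z.2‖ ≤ Γ.B) {η : ℝ} (hη : 0 < η)
    (hm : ∫ z, ‖z.1 - (h : E m →L[ℝ] E m) z.2‖ ∂π ≤ η ^ 2) (u : I) :
    DD b (lawP Γ (mixM u μ Γ.lam)) (lawP Γ (mixM u ν Γ.lam)) ≤ (2 * Γ.C + 1) * η := by
  have hτ : Measurable fun a : E m => (a, ((h⁻¹ : U m) : E m →L[ℝ] E m) a) := by fun_prop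
  have : IsProbabilityMeasure (Γ.lam.map fun a : E m => (a, ((h⁻¹ : U m) : E m →L[ℝ] E m) a)) :=
    Measure.isProbabilityMeasure_map hτ.aemeasurable
  have hφ : Measurable fun z : E m × E m => ‖z.1 - (h : E m →L[ℝ] E m) z.2‖ := by fun_prop
  have e0 : ∀ a : E m, ‖a - (h : E m →L[ℝ] E m) (((h⁻¹ : U m) : E m →L[ℝ] E m) a)‖ = 0 := by
    intro a
    rw [← D1_mul_app, mul_inv_cancel, D1_one_app, sub_self, norm_zero]
  have i1 := E4_pint π h hb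
  have i2 : Integrable (fun z : E m × E m => ‖z.1 - (h : E m →L[ℝ] E m) z.2‖)
      (Γ.lam.map fun a : E m => (a, ((h⁻¹ : U m) : E m →L[ℝ] E m) a)) := by
    rw [integrable_map_measure hφ.aestronglyMeasurable hτ.aemeasurable]
    exact (integrable_zero _ _ _).congr (ae_of_all _ fun a => (e0 a).symm)
  let s : Span (lawP Γ (mixM u μ Γ.lam)) (lawP Γ (mixM u ν Γ.lam)) :=
    { Ω := E m × E m
      Q := mixM u π (Γ.lam.map fun a : E m => (a, ((h⁻¹ : U m) : E m →L[ℝ] E m) a))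
      l := Prod.fst
      r := Prod.snd
      hl := ⟨measurable_fst, by
        rw [mixM_map measurable_fst, h1, Measure.map_map measurable_fst hτ]
        exact congrArg _ Measure.map_id⟩
      hr := ⟨measurable_snd, by
        rw [mixM_map measurable_snd, h2, Measure.map_map measurable_snd hτ]
        exact congrArg _ (Γ.lam_inv _ (Γ.G.inv_mem hG))⟩ }
  refine DD_le (s := s) (Span.Close.of_box ?_)
  refine boxC_of_mean hφ (fun _ => norm_nonneg _) ?_ Γ.hC hη ?_ (G := univ)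
    (ae_of_all _ fun _ => mem_univ _) fun p _ q _ => E4_rho Γ hG _ _ _ _
  · exact (i1.smul_measure ENNReal.ofReal_ne_top).add_measure
      (i2.smul_measure ENNReal.ofReal_ne_top)
  · show ∫ z, ‖z.1 - (h : E m →L[ℝ] E m) z.2‖ ∂(mixM u π _) ≤ _
    rw [integral_mixM u i1 i2, integral_map hτ.aemeasurable hφ.aestronglyMeasurable]
    simp only [e0, integral_zero, smul_eq_mul]
    nlinarith [u.2.1, u.2.2, sq_nonneg η]

theorem E4_lin {b : Bool} {y y' : MK m Γ.B} (hx : y.x ≤ 1 / 2) (hx' : y'.x ≤ 1 / 2)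
    (s : Span y.A y'.A) {η η₁ : ℝ} (hs : s.Close b η) {h : U m} (hG : h ∈ Γ.G)
    (hm : s.mdev y.μ y'.μ h ≤ η) (h₁ : 0 < η₁) (hη : 2 * η ≤ η₁ ^ 2) {N : ℕ}
    {i : E m × ℝ → Fin N} (hi : Measurable i)
    (hc : ∀ z z' : E m, ‖z‖ ≤ Γ.B → ‖z'‖ ≤ Γ.B → i (z, 0) = i (z', 0) → ‖z - z'‖ ≤ η₁) (t : I) :
    DD b (y.linB Γ t) (y'.linB Γ t) ≤
      Γ.C * η₁ + (N + 2) * (2 * η + 0) + (2 * Γ.C + 1) * η₁ + 4 * η := by
  let ν := y.μ.pull s.hl.measurable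
  let ν' := y'.μ.pull s.hr.measurable
  have x1 : ∫ p, ν.c p ∂s.Q ≤ 1 / 2 := (C7_pull y.μ.hc s.hl).trans_le hx
  have x2 : ∫ p, ν'.c p ∂s.Q ≤ 1 / 2 := (C7_pull y'.μ.hc s.hr).trans_le hx'
  have ht0 := t.2.1
  have ht1 := t.2.2
  have d1 := y.A.hd.pull s.hl.measurable
  have d2 := y'.A.hd.pull s.hr.measurable
  have r1 := (Γ.isPM.pull ν.hg).smul ht0
  have r2 := (Γ.isPM.pull ν'.hg).smul ht0
  have c1 := Close.dom d1 d2 (Q' := bulkP s.Q ν.c) (C := 2) (η := 0) (by norm_num) le_rfl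
    (fun S _ => by rw [add_zero]; exact bulkP_real_le ν.hc ν.bc x1 S) hs
  have c2 := Close.cells d1 d2 c1 r1 (i := fun p => i (ν.g p, 0))
    (hi.comp (ν.hg.prodMk measurable_const)) (mul_nonneg Γ.hC h₁.le) (fun p q e => by
      have a1 := mul_le_mul_of_nonneg_left (hc _ _ (ν.bg p) (ν.bg q) e) Γ.hC
      have a2 := Γ.ρ_le (ν.g p) (ν.g q)
      have a3 := Γ.isPM.nonneg (ν.g p) (ν.g q)
      nlinarith) (sub_nonneg.mpr ht1) (sub_le_self _ ht0)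
  have gi := fun (Q : Measure s.Ω) [IsFiniteMeasure Q] => C7_gint Q h ν.hg ν'.hg ν.bg ν'.bg
  have c3 : BoxC (bulkP s.Q ν.c)
      (fun p q => (1 - t : ℝ) * y'.A.d (s.r p) (s.r q) + t * Γ.ρ (ν.g p) (ν.g q))
      (fun p q => (1 - t : ℝ) * y'.A.d (s.r p) (s.r q) + t * Γ.ρ (ν'.g p) (ν'.g q))
      ((2 * Γ.C + 1) * η₁) := by
    refine boxC_of_mean (φ := fun p => ‖ν.g p - (h : E m →L[ℝ] E m) (ν'.g p)‖)
      (ν.hg.sub ((h : E m →L[ℝ] E m).continuous.measurable.comp ν'.hg)).norm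
      (fun _ => norm_nonneg _) (gi _) Γ.hC h₁ ?_ (G := univ) (ae_of_all _ fun _ => mem_univ _)
      fun p _ q _ => ?_
    · have a1 := integral_bulkP_le ν.hc ν.bc x1 (fun _ => norm_nonneg _) (gi s.Q)
      have a2 := (mdev_g_le (Q := s.Q) ν ν' h).trans hm
      linarith
    · rw [add_sub_add_left_eq_sub, ← mul_sub, abs_mul, abs_of_nonneg ht0]
      exact (mul_le_of_le_one_left (abs_nonneg _) ht1).trans (E4_rho Γ hG _ _ _ _)
  have d3 := (d2.smul (sub_nonneg.mpr ht1)).add r2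
  have c4 := c2.trans (c3.close ((d2.smul (sub_nonneg.mpr ht1)).add r1) d3)
  let A : PM := { Ω := s.Ω, P := s.Q, d := _, hd := d3 }
  let s1 : Span (y.linB Γ t) (A.withP (bulkP s.Q ν.c)) :=
    { Ω := s.Ω, Q := bulkP s.Q ν.c, l := s.l, r := id
      hl := bulkP_pull y.μ.hc y.μ.bc (lt_of_le_of_lt hx (by norm_num)) s.hl
      hr := MeasurePreserving.id _ }
  have a1 : DD b (y.linB Γ t) (A.withP (bulkP s.Q ν.c)) ≤ _ := DD_le (s := s1) c4
  obtain ⟨π, _, p1, p2, p3⟩ := bulk_tv ν.hc ν.bc x1 ν'.hc ν'.bc x2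
  have a2 : DD b (A.withP (bulkP s.Q ν.c)) (A.withP (bulkP s.Q ν'.c)) ≤ _ :=
    DD_coupling A _ _ π p1 p2 p3
  have a3 : DD b (A.withP (bulkP s.Q ν'.c)) (y'.linB Γ t) = 0 :=
    DD_map (A := A.withP (bulkP s.Q ν'.c)) (B := y'.linB Γ t) (τ := s.r)
      (bulkP_pull y'.μ.hc y'.μ.bc (lt_of_le_of_lt hx' (by norm_num)) s.hr) (G := univ)
      (ae_of_all _ fun _ => mem_univ _) fun _ _ _ _ => rfl
  have a4 := (mdev_c_le (Q := s.Q) ν ν' h).trans hm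
  linarith [DD_triangle b (y.linB Γ t) (A.withP (bulkP s.Q ν.c)) (y'.linB Γ t),
    DD_triangle b (A.withP (bulkP s.Q ν.c)) (A.withP (bulkP s.Q ν'.c)) (y'.linB Γ t)]

theorem Qal_uc {δ : ℝ} (hδ : 0 < δ) : ∃ η : ℝ, 0 < η ∧ ∀ (b : Bool) (X₀ : PM) (y y' : MK m Γ.B),
    y.x ≤ 1 / 2 → y'.x ≤ 1 / 2 → DM b Γ.G y y' < η → Qal Γ b X₀ y' ≤ Qal Γ b X₀ y + δ := by
  have hC := Γ.hC
  have hB := Γ.hB
  obtain ⟨η₁, h₁, e₁⟩ : ∃ η₁ : ℝ, 0 < η₁ ∧ (2 * Γ.C + 1) * η₁ = δ / 3 :=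
    ⟨δ / 3 / (2 * Γ.C + 1), by positivity, mul_div_cancel₀ _ (by positivity)⟩
  obtain ⟨N, i, hi, hc⟩ := exists_cells m Γ.B h₁
  refine ⟨min (η₁ ^ 2 / (2 + 8 * Γ.B)) (δ / 3 / (2 * N + 8)), by positivity,
    fun b X₀ y y' hx hx' hd => ?_⟩
  obtain ⟨s, hs, h, hG, hm⟩ := exists_of_DM_lt hd
  have k0 : 0 < min (η₁ ^ 2 / (2 + 8 * Γ.B)) (δ / 3 / (2 * N + 8)) := by positivity
  have k1 := min_le_left (η₁ ^ 2 / (2 + 8 * Γ.B)) (δ / 3 / (2 * N + 8))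
  have k2 := min_le_right (η₁ ^ 2 / (2 + 8 * Γ.B)) (δ / 3 / (2 * N + 8))
  generalize min (η₁ ^ 2 / (2 + 8 * Γ.B)) (δ / 3 / (2 * N + 8)) = η at hs hm k0 k1 k2
  rw [le_div_iff₀ (by positivity)] at k1 k2
  refine Qal_le Γ (fun t => ?_) fun u => ?_
  · have a1 := E4_lin Γ hx hx' s hs hG hm h₁ (by nlinarith) hi (fun z z' hz hz' e =>
      (hc (z, 0) (z', 0) hz hz' (left_mem_Icc.mpr zero_le_one) (left_mem_Icc.mpr zero_le_one)
        e).1) t
    have a2 := DD_triangle b (y'.linB Γ t) (y.linB Γ t) X₀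
    rw [DD_comm b (y'.linB Γ t) (y.linB Γ t)] at a2
    have a3 := le_Qal_lin Γ b X₀ y t
    nlinarith
  · obtain ⟨π, _, p1, p2, p3, p4⟩ := law_couple s h hx hx'
    have a1 := DD_lawP Γ (b := b) π _ _ p1 p2 hG p3 h₁ (p4.trans (by nlinarith)) u
    have a2 := DD_triangle b (lawP Γ (mixM u y'.law Γ.lam)) (lawP Γ (mixM u y.law Γ.lam)) X₀
    rw [DD_comm b (lawP Γ (mixM u y'.law Γ.lam)) (lawP Γ (mixM u y.law Γ.lam))] at a2
    have a3 := le_Qal_law Γ b X₀ y u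
    linarith

end Pool.Agent.P.MP_de432b_gt.LC
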