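import Pool.Agent.P.MP_de432b_gt.LC.E1
import Pool.Agent.P.MP_de432b_gt.LC.E4

namespace Pool.Agent.P.MP_de432b_gt.LC

open MeasureTheory Set Filter Topology
open scoped unitInterval RealInnerProductSpace

variable {m : ℕ} {Γ : Geo m} (S : Slice Γ) {b : Bool} {X₀ : PM} {e₀ e₁ e₂ : ℝ}

theorem E5_div {a a' e δ : ℝ} (he : 0 < e) (h : a' ≤ a + δ * e) : a' / e ≤ a / e + δ := by
  rw [div_add' _ _ _ he.ne']
  exact div_le_div_of_nonneg_right h he.le

theorem E5_rad (h₁ : 0 < e₁) (hr : 4 * e₁ ≤ S.r) {y : MK m Γ.B}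
    (hq : qq S b X₀ e₀ e₁ e₂ y < 2) : S.rad y.law ≤ S.r / 2 := by
  have h : S.rad y.law / e₁ < 2 := lt_of_le_of_lt ((le_max_left _ _).trans (le_max_right _ _)) hq
  rw [div_lt_iff₀ h₁] at h
  linarith

theorem E5_small {K a : ℝ} (hK : 0 ≤ K) (ha : 0 < a) {η x : ℝ} (hx : x ≤ η)
    (hη : η ≤ a / (K + 1)) : K * x ≤ a := by
  have h1 : K * x ≤ K * (a / (K + 1)) := mul_le_mul_of_nonneg_left (hx.trans hη) hK
  have h2 : K * (a / (K + 1)) ≤ a := by
    rw [← mul_div_assoc, div_le_iff₀ (by positivity)]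
    nlinarith
  exact h1.trans h2

theorem qq_uc (h₀ : 0 < e₀) (h₁ : 0 < e₁) (h₂ : 0 < e₂) (hr : 4 * e₁ ≤ S.r) {δ : ℝ} (hδ : 0 < δ) :
    ∃ η : ℝ, 0 < η ∧ ∀ y y' : MK m Γ.B, qq S b X₀ e₀ e₁ e₂ y < 2 → y.x ≤ 1 / 2 → y'.x ≤ 1 / 2 →
      DM b ⊤ y y' < η → qq S b X₀ e₀ e₁ e₂ y' ≤ qq S b X₀ e₀ e₁ e₂ y + δ := by
  have hB := Γ.hB
  have hK := S.hK
  obtain ⟨η₁, hη₁, H₁⟩ := Qal_uc Γ (δ := δ * e₀) (by positivity)
  obtain ⟨η₂, hη₂, H₂⟩ := al_uc S (δ := η₁ / 2) (by positivity)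
  have k1 : 0 ≤ S.K * (2 + 8 * Γ.B) := by positivity
  have k2 : 0 ≤ 2 * Γ.B * (2 + 8 * Γ.B) := by positivity
  refine ⟨min η₂ (min (δ * e₁ / (S.K * (2 + 8 * Γ.B) + 1))
    (δ * e₂ / (2 * Γ.B * (2 + 8 * Γ.B) + 1))), by positivity, fun y y' hq hx hx' hd => ?_⟩
  obtain ⟨s, -, h, -, hm⟩ := exists_of_DM_lt hd
  have a0 : Qal Γ b X₀ (y'.al S) ≤ Qal Γ b X₀ (y.al S) + δ * e₀ :=
    H₁ b X₀ (y.al S) (y'.al S) hx hx'
      ((H₂ b y y' hx hx' (E5_rad S h₁ hr hq) (hd.trans_le (min_le_left _ _))).trans_lt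
        (by linarith))
  have a1 : S.rad y'.law ≤ S.rad y.law + δ * e₁ := by
    have h2 := (abs_le.mp (rad_span S s h hx hx')).1
    have h3 := E5_small k1 (mul_pos hδ h₁) hm ((min_le_right _ _).trans (min_le_left _ _))
    linarith
  have a2 : gram y'.law ≤ gram y.law + δ * e₂ := by
    obtain ⟨π, hπ, e1, e2, hb, hi⟩ := law_couple s h hx hx'
    have h2 := (abs_le.mp (gram_lip π h hb)).1
    rw [e1, e2] at h2
    have h3 := E5_small k2 (mul_pos hδ h₂) hm ((min_le_right _ _).trans (min_le_right _ _))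
    have h4 := mul_le_mul_of_nonneg_left hi (by positivity : 0 ≤ 2 * Γ.B)
    rw [← mul_assoc] at h4
    linarith
  unfold qq
  rw [max_add, max_add]
  exact max_le_max (E5_div h₀ a0) (max_le_max (E5_div h₁ a1) (E5_div h₂ a2))

theorem DD_le_qq (h₀ : 0 < e₀) (y : MK m Γ.B) (hx : y.x ≤ 1 / 2) :
    DD b y.A X₀ ≤ 4 * y.x + e₀ * qq S b X₀ e₀ e₁ e₂ y := by
  have h1 := DD_bulk (b := b) y hx
  have h2 := le_Qal_lin Γ b X₀ (y.al S) 0
  have h3 : DD b (y.A.withP y.bP) ((y.al S).linB Γ 0) = 0 :=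
    DD_map (A := y.A.withP y.bP) (B := (y.al S).linB Γ 0) (τ := id) (MeasurePreserving.id _)
      (G := univ) (ae_of_all _ fun _ => mem_univ _) (fun p _ q _ => by simp)
  have h4 := DD_triangle b y.A (y.A.withP y.bP) X₀
  have h5 := DD_triangle b (y.A.withP y.bP) ((y.al S).linB Γ 0) X₀
  have h6 : Qal Γ b X₀ (y.al S) / e₀ ≤ qq S b X₀ e₀ e₁ e₂ y := le_max_left _ _
  rw [div_le_iff₀ h₀] at h6
  linarith

theorem Qal_al (y : MK m Γ.B) (hx : y.x ≤ 1 / 2) (h : S.Al y.law) (hr : S.rad y.law < S.r) :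
    Qal Γ b X₀ (y.al S) = Qal Γ b X₀ y := by
  have h0 := al_self S b y h hr
  refine le_antisymm (le_of_forall_pos_le_add fun δ hδ => ?_)
    (le_of_forall_pos_le_add fun δ hδ => ?_)
  · obtain ⟨η, hη, H⟩ := Qal_uc Γ hδ
    exact H b X₀ y (y.al S) hx hx (h0.trans_lt hη)
  · obtain ⟨η, hη, H⟩ := Qal_uc Γ hδ
    exact H b X₀ (y.al S) y hx hx ((DM_comm.trans h0).trans_lt hη)

theorem qq_al (h₁ : 0 < e₁) (hr : 4 * e₁ ≤ S.r) (y : MK m Γ.B) (hx : y.x ≤ 1 / 2)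
    (hq : qq S b X₀ e₀ e₁ e₂ y < 2) : qq S b X₀ e₀ e₁ e₂ (y.al S) = qq S b X₀ e₀ e₁ e₂ y := by
  have h1 : S.rad (y.al S).law = S.rad y.law := rad_act S _ y
  have h2 : gram (y.al S).law = gram y.law := gram_act _ y
  have h3 : S.rad (y.al S).law < S.r := by
    have := E5_rad S h₁ hr hq
    have := S.hr
    linarith
  have h4 := Qal_al S (b := b) (X₀ := X₀) (y.al S) hx (al_Al S y) h3
  unfold qq
  rw [h4, h1, h2]

theorem E5_law {B : ℝ} {y y' : MK m B} {τ : y'.A.Ω → y.A.Ω} (hτ : MeasurePreserving τ y'.bP y.bP)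
    {G : Set y'.A.Ω} (hG : ∀ᵐ p ∂y'.bP, p ∈ G) (hg : ∀ p ∈ G, y'.μ.g p = y.μ.g (τ p)) :
    y'.law = y.law := by
  unfold MK.law
  rw [← hτ.map_eq, Measure.map_map y.μ.hg hτ.measurable]
  exact Measure.map_congr (hG.mono fun p hp => hg p hp)

theorem E5_lawP {μ ν : Measure (E m)} [IsProbabilityMeasure μ] [IsProbabilityMeasure ν]
    (h : μ = ν) (u : I) :
    DD b (lawP Γ (mixM u μ Γ.lam)) X₀ = DD b (lawP Γ (mixM u ν Γ.lam)) X₀ := by
  subst h
  rfl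

theorem E5_Qal {y y' : MK m Γ.B} {τ : y'.A.Ω → y.A.Ω} (hτ : MeasurePreserving τ y'.bP y.bP)
    {G : Set y'.A.Ω} (hG : ∀ᵐ p ∂y'.bP, p ∈ G) (hg : ∀ p ∈ G, y'.μ.g p = y.μ.g (τ p))
    (hd : ∀ p ∈ G, ∀ q ∈ G, y'.A.d p q = y.A.d (τ p) (τ q)) :
    Qal Γ b X₀ y' = Qal Γ b X₀ y := by
  have h1 : ∀ t : I, DD b (y'.linB Γ t) X₀ = DD b (y.linB Γ t) X₀ := fun t => by
    have h0 : DD b (y'.linB Γ t) (y.linB Γ t) = 0 :=
      DD_map (A := y'.linB Γ t) (B := y.linB Γ t) (τ := τ) hτ hG (fun p hp q hq => by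
        simp only [hd p hp q hq, hg p hp, hg q hq])
    have h2 := DD_triangle b (y'.linB Γ t) (y.linB Γ t) X₀
    have h3 := DD_triangle b (y.linB Γ t) (y'.linB Γ t) X₀
    rw [DD_comm b (y.linB Γ t) (y'.linB Γ t)] at h3
    linarith
  have h2 := fun u : I => E5_lawP (Γ := Γ) (b := b) (X₀ := X₀) (E5_law hτ hG hg) u
  unfold Qal
  simp only [h1, h2]

theorem qq_congr {y y' : MK m Γ.B} {τ : y'.A.Ω → y.A.Ω} (hτ : MeasurePreserving τ y'.bP y.bP)
    {G : Set y'.A.Ω} (hG : ∀ᵐ p ∂y'.bP, p ∈ G) (hg : ∀ p ∈ G, y'.μ.g p = y.μ.g (τ p))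
    (hd : ∀ p ∈ G, ∀ q ∈ G, y'.A.d p q = y.A.d (τ p) (τ q)) :
    y'.law = y.law ∧ qq S b X₀ e₀ e₁ e₂ y' = qq S b X₀ e₀ e₁ e₂ y := by
  have h1 := E5_law hτ hG hg
  refine ⟨h1, ?_⟩
  have h2 : Qal Γ b X₀ (y'.al S) = Qal Γ b X₀ (y.al S) :=
    E5_Qal (y := y.al S) (y' := y'.al S) (τ := τ) hτ hG
      (fun p hp => by
        show (S.alg y'.law : E m →L[ℝ] E m) (y'.μ.g p) = (S.alg y.law : E m →L[ℝ] E m) (y.μ.g (τ p))
        rw [h1, hg p hp]) hd
  unfold qq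
  rw [h2, h1]

theorem ball_x {B : ℝ} (y : MK m B) (D : ℝ) {η : ℝ} (h0 : 0 ≤ η) (h1 : η ≤ 1) :
    (y.ball D η).x = η + (1 - η) * y.x := by
  have hc := C7_int (P := y.A.P) y.μ.hc y.μ.bc
  have h := integral_ite_lt (P := y.A.P) (c := fun _ => η) (u := fun _ => 1) (v := y.μ.c)
    measurable_const (fun _ => ⟨h0, h1⟩) (integrable_const 1) hc
  rw [integral_add (integrable_const _) (hc.const_mul _), integral_const_mul,
    integral_const_mul] at h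
  simp only [integral_const, probReal_univ, smul_eq_mul, mul_one] at h
  unfold MK.x
  rw [← h]
  refine integral_congr_ae (ae_of_all _ fun x => ?_)
  by_cases hx : (x.2 : ℝ) < η <;> simp [hx]

theorem ball_qq (y : MK m Γ.B) {D η : ℝ} (hD : 0 ≤ D) (hd : ∀ p q, y.A.d p q ≤ 2 * D) (h0 : 0 ≤ η)
    (h1 : η < 1) (hx : y.x < 1) : (y.ball D η).law = y.law ∧
      qq S b X₀ e₀ e₁ e₂ (y.ball D η) = qq S b X₀ e₀ e₁ e₂ y := by
  have hb := ball_x y D h0 h1.le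
  have hp : 0 < 1 - y.x := by linarith
  have hη : 0 < 1 - η := by linarith
  have he : 1 - (y.ball D η).x = (1 - η) * (1 - y.x) := by rw [hb]; ring
  have hx' : (y.ball D η).x < 1 := by nlinarith [mul_pos hη hp]
  have hτ : MeasurePreserving (Prod.fst : (y.ball D η).A.Ω → y.A.Ω) (y.ball D η).bP y.bP := by
    refine ⟨measurable_fst, ?_⟩
    have h := map_fst_withDensity_ite (P := y.A.P) (c := fun _ => η) (u := fun _ => 0)
      (v := fun p => (1 - y.μ.c p) / ((1 - η) * (1 - y.x))) measurable_const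
      (fun _ => ⟨h0, h1.le⟩) measurable_const
      ((measurable_const.sub y.μ.hc).div_const _) (fun _ => le_rfl)
      (fun p => div_nonneg (sub_nonneg.mpr (y.μ.bc p).2) (mul_pos hη hp).le)
    unfold MK.bP
    rw [bulkP_eq (y.ball D η).μ.hc (y.ball D η).μ.bc hx', bulkP_eq y.μ.hc y.μ.bc hx]
    change Measure.map Prod.fst ((y.A.P.prod volume).withDensity fun p =>
      ENNReal.ofReal ((1 - (y.ball D η).μ.c p) / (1 - (y.ball D η).x))) =
      y.A.P.withDensity fun p => ENNReal.ofReal ((1 - y.μ.c p) / (1 - y.x))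
    rw [he]
    convert h using 4 with x p
    · by_cases hx : (x.2 : ℝ) < η <;> simp [hx]
    · field_simp
      ring
  have hG : ∀ᵐ p ∂(y.ball D η).bP, p ∈ {p : y.A.Ω × I | ¬ (p.2 : ℝ) < η} := by
    filter_upwards [bulkP_ae_lt (y.ball D η).μ.hc (y.ball D η).μ.bc hx'] with p hp
    intro h
    simp [h] at hp
  refine qq_congr S hτ hG (fun p hp => ?_) (fun p hp q hq => ?_)
  · have hp' : ¬ (p.2 : ℝ) < η := hp
    simp [hp']
  · have hp' : ¬ (p.2 : ℝ) < η := hp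
    have hq' : ¬ (q.2 : ℝ) < η := hq
    simp only [coneD, glueD, mem_ofPred_eq, hp', hq', if_false, max_eq_left hD]
    exact min_eq_left (hd _ _)

theorem split_x {B : ℝ} (y : MK m B) (t : I) : (y.split t).x = y.x := by
  have hc := C7_int (P := y.A.P) y.μ.hc y.μ.bc
  have h := integral_ite_lt (P := y.A.P) (c := y.μ.c)
    (u := fun p => 1 - (1 - t) * (1 - y.μ.c p)) (v := fun p => (1 - t) * y.μ.c p)
    y.μ.hc y.μ.bc ((integrable_const 1).sub (((integrable_const 1).sub hc).const_mul _))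
    (hc.const_mul _)
  refine h.trans (integral_congr_ae (ae_of_all _ fun p => ?_))
  ring

theorem split_one {B : ℝ} (y : MK m B) (p : (y.split 1).A.Ω) :
    (y.split 1).μ.c p = 0 ∨ (y.split 1).μ.c p = 1 := by
  by_cases h : (p.2 : ℝ) < y.μ.c p.1 <;> simp [h]

theorem split_qq (y : MK m Γ.B) (t : I) (hx : y.x < 1) : (y.split t).law = y.law ∧
    qq S b X₀ e₀ e₁ e₂ (y.split t) = qq S b X₀ e₀ e₁ e₂ y := by
  have hb := split_x y t
  have hp : 0 < 1 - y.x := by linarith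
  have hx' : (y.split t).x < 1 := hb ▸ hx
  have ht0 := t.2.1
  have ht1 := t.2.2
  have hτ : MeasurePreserving (Prod.fst : (y.split t).A.Ω → y.A.Ω) (y.split t).bP y.bP := by
    refine ⟨measurable_fst, ?_⟩
    have h := map_fst_withDensity_ite (P := y.A.P) (c := y.μ.c)
      (u := fun p => (1 - t) * (1 - y.μ.c p) / (1 - y.x))
      (v := fun p => (1 - (1 - t) * y.μ.c p) / (1 - y.x)) y.μ.hc y.μ.bc
      (((measurable_const.sub y.μ.hc).const_mul _).div_const _)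
      ((measurable_const.sub (y.μ.hc.const_mul _)).div_const _)
      (fun p => div_nonneg (mul_nonneg (sub_nonneg.mpr ht1) (sub_nonneg.mpr (y.μ.bc p).2)) hp.le)
      (fun p => div_nonneg (by nlinarith [(y.μ.bc p).1, (y.μ.bc p).2]) hp.le)
    unfold MK.bP
    rw [bulkP_eq (y.split t).μ.hc (y.split t).μ.bc hx', bulkP_eq y.μ.hc y.μ.bc hx]
    change Measure.map Prod.fst ((y.A.P.prod volume).withDensity fun p =>
      ENNReal.ofReal ((1 - (y.split t).μ.c p) / (1 - (y.split t).x))) =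
      y.A.P.withDensity fun p => ENNReal.ofReal ((1 - y.μ.c p) / (1 - y.x))
    rw [hb]
    convert h using 4 with x p
    · by_cases hx : (x.2 : ℝ) < y.μ.c x.1 <;> simp [hx]
    · field_simp
      ring
  exact qq_congr S hτ (G := univ) (ae_of_all _ fun _ => mem_univ _) (fun _ _ => rfl)
    (fun _ _ _ _ => rfl)

end Pool.Agent.P.MP_de432b_gt.LC
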