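import Pool.Agent.P.MP_de432b_gt.LC.E2
import Pool.Agent.P.MP_de432b_gt.LC.E5

namespace Pool.Agent.P.MP_de432b_gt.LC

open MeasureTheory Set Filter Topology
open scoped unitInterval RealInnerProductSpace

variable {m : ℕ} {Γ : Geo m} (S : Slice Γ) {b : Bool} {X₀ : PM} {e₀ e₁ e₂ : ℝ}

theorem E6_rad (h₁ : 0 < e₁) (hr : 4 * e₁ ≤ S.r) (y : MK m Γ.B)
    (hq : qq S b X₀ e₀ e₁ e₂ y < 2) : S.rad y.law < S.r := by
  have h : S.rad y.law / e₁ < 2 := ((le_max_left _ _).trans (le_max_right _ _)).trans_lt hq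
  rw [div_lt_iff₀ h₁] at h
  linarith

theorem E6_ae_zero {B : ℝ} (y : MK m B) (hx : y.x < 1)
    (hc : ∀ᵐ p ∂y.A.P, y.μ.c p = 0 ∨ y.μ.c p = 1) : ∀ᵐ p ∂y.bP, p ∈ {p | y.μ.c p = 0} := by
  filter_upwards [bulkP_ae_lt y.μ.hc y.μ.bc hx, bulkP_ac.ae_le hc] with p h1 h2
  exact h2.resolve_right h1.ne

theorem E6_lawP {μ ν : Measure (E m)} [IsProbabilityMeasure μ] [IsProbabilityMeasure ν]
    (h : μ = ν) : lawP Γ μ = lawP Γ ν := by
  subst h
  rfl

theorem E6_zero {A B : PM} (h : DD b A B = 0) : DD b A X₀ ≤ DD b B X₀ := by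
  have := DD_triangle b A B X₀
  rwa [h, zero_add] at this

theorem lin_qq (h₀ : 0 < e₀) (h₁ : 0 < e₁) (hr : 4 * e₁ ≤ S.r) (y : MK m Γ.B) (hx : y.x ≤ 1 / 2)
    (hc : ∀ p, y.μ.c p = 0 ∨ y.μ.c p = 1) (hA : S.Al y.law) (hq : qq S b X₀ e₀ e₁ e₂ y < 2)
    (t : I) (s : ℝ) :
    qq S b X₀ e₀ e₁ e₂ (y.lin Γ (1 - t) t s) ≤ qq S b X₀ e₀ e₁ e₂ y := by
  have hrad := E6_rad S h₁ hr y hq
  have hQ : Qal Γ b X₀ (y.lin Γ (1 - t) t s) ≤ Qal Γ b X₀ y := by
    refine Qal_le Γ (fun t' => ?_) fun u => le_Qal_law Γ b X₀ y u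
    have h0 : DD b ((y.lin Γ (1 - t) t s).linB Γ t') (y.linB Γ (σ (σ t * σ t'))) = 0 := by
      refine DD_map (τ := id) (MeasurePreserving.id _)
        (E6_ae_zero y (by linarith) (Eventually.of_forall hc)) fun p hp q hq => ?_
      have hp' : y.μ.c p = 0 := hp
      have hq' : y.μ.c q = 0 := hq
      simp only [markD, hp', hq', sub_zero, one_smul, abs_zero, mul_zero, add_zero, id,
        max_eq_left (sub_nonneg.mpr t.2.2), max_eq_left t.2.1, unitInterval.coe_symm_eq,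
        Set.Icc.coe_mul]
      ring
    exact (E6_zero h0).trans (le_Qal_lin Γ b X₀ y _)
  unfold qq
  rw [Qal_al S y hx hA hrad, Qal_al S (y.lin Γ (1 - t) t s) hx hA hrad]
  exact max_le_max (div_le_div_of_nonneg_right hQ h₀.le) le_rfl

theorem E6_cl0 : cl01 0 = 0 := cl01_of_mem ⟨le_rfl, zero_le_one⟩

theorem E6_cl1 : cl01 1 = 1 := cl01_of_mem ⟨zero_le_one, le_rfl⟩

theorem E6_int (κ : Measure (E m × ℝ)) [IsProbabilityMeasure κ] :
    Integrable (fun z : E m × ℝ => cl01 z.2) κ :=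
  C7_int (continuous_cl01.measurable.comp measurable_snd) fun _ => cl01_mem _

theorem E6_meas_inl : Measurable fun x : E m => (x, (0 : ℝ)) := by fun_prop

theorem E6_jlaw_x (y : MK m Γ.B) : ∫ z, cl01 z.2 ∂y.jlaw = y.x := by
  rw [MK.jlaw, integral_map (y.μ.hg.prodMk y.μ.hc).aemeasurable
    (tautM Γ).hc.aestronglyMeasurable]
  exact integral_congr_ae (Eventually.of_forall fun p => cl01_of_mem (y.μ.bc p))

theorem E6_endL_x (β : I) : ∫ z, cl01 z.2 ∂endL Γ β = β := by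
  have : IsProbabilityMeasure (Γ.lam.map fun x => (x, (0 : ℝ))) :=
    Measure.isProbabilityMeasure_map E6_meas_inl.aemeasurable
  rw [endL, integral_mixM β (E6_int _) (E6_int _),
    integral_map E6_meas_inl.aemeasurable (tautM Γ).hc.aestronglyMeasurable, integral_dirac]
  simp [E6_cl0, E6_cl1]

theorem mov_x (y : MK m Γ.B) (D : ℝ) {β : I} (hx : y.x = β) (t : I) :
    (y.mov Γ D β t).x = β := by
  show ∫ z, cl01 z.2 ∂(mixM t y.jlaw (endL Γ β)) = β
  rw [integral_mixM t (E6_int _) (E6_int _), E6_jlaw_x, E6_endL_x, hx]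
  simp only [smul_eq_mul]
  ring

theorem mov_c (y : MK m Γ.B) (D : ℝ) (β t : I) (hc : ∀ p, y.μ.c p = 0 ∨ y.μ.c p = 1) :
    ∀ᵐ p ∂(y.mov Γ D β t).A.P, (y.mov Γ D β t).μ.c p = 0 ∨ (y.mov Γ D β t).μ.c p = 1 := by
  have hm : MeasurableSet {z : E m × ℝ | cl01 z.2 = 0 ∨ cl01 z.2 = 1} :=
    (measurableSet_eq_fun (tautM Γ).hc measurable_const).union
      (measurableSet_eq_fun (tautM Γ).hc measurable_const)
  show ∀ᵐ z ∂(mixM t y.jlaw (endL Γ β)), cl01 z.2 = 0 ∨ cl01 z.2 = 1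
  refine ae_mixM t ?_ (ae_mixM β ?_ ?_)
  · rw [MK.jlaw, ae_map_iff (y.μ.hg.prodMk y.μ.hc).aemeasurable hm]
    refine Eventually.of_forall fun p => ?_
    show cl01 (y.μ.c p) = 0 ∨ cl01 (y.μ.c p) = 1
    rw [cl01_of_mem (y.μ.bc p)]
    exact hc p
  · rw [ae_map_iff E6_meas_inl.aemeasurable hm]
    exact Eventually.of_forall fun _ => Or.inl E6_cl0
  · rw [ae_dirac_iff hm]
    exact Or.inr E6_cl1

theorem E6_mix_dens {Ω : Type} [MeasurableSpace Ω] (t : I) (μ ν : Measure Ω) (w : Ω → ENNReal) :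
    (mixM t μ ν).withDensity w = mixM t (μ.withDensity w) (ν.withDensity w) := by
  simp only [mixM, withDensity_add_measure, withDensity_smul_measure]

theorem E6_jlaw_law (y : MK m Γ.B) (hx : y.x < 1) :
    (bulkP y.jlaw fun z => cl01 z.2).map (fun z => clip Γ.B z.1) = y.law := by
  have hτ : MeasurePreserving (fun p => (y.μ.g p, y.μ.c p)) y.A.P y.jlaw :=
    ⟨y.μ.hg.prodMk y.μ.hc, rfl⟩
  have h := bulkP_pull (c := fun z : E m × ℝ => cl01 z.2) (tautM Γ).hc (tautM Γ).bc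
    (by rw [E6_jlaw_x]; exact hx) hτ
  have e : (fun p => cl01 (y.μ.c p)) = y.μ.c := funext fun p => cl01_of_mem (y.μ.bc p)
  simp only [e] at h
  rw [← h.map_eq, Measure.map_map (tautM Γ).hg hτ.measurable, MK.law]
  congr 1
  exact funext fun p => clip_of_le (y.μ.bg p)

theorem E6_endL_law {β : I} (hβ : (β : ℝ) < 1) :
    ((endL Γ β).withDensity fun z => ENNReal.ofReal ((1 - cl01 z.2) / (1 - β))).map
      (fun z => clip Γ.B z.1) = Γ.lam := by
  have hw : Measurable fun z : E m × ℝ => ENNReal.ofReal ((1 - cl01 z.2) / (1 - β)) :=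
    (C7_meas (tautM Γ).hc β).ennreal_ofReal
  have h1 : (Γ.lam.map fun x => (x, (0 : ℝ))).withDensity
      (fun z => ENNReal.ofReal ((1 - cl01 z.2) / (1 - β))) =
      ENNReal.ofReal (1 / (1 - β)) • Γ.lam.map fun x => (x, (0 : ℝ)) := by
    rw [← withDensity_const]
    refine withDensity_congr_ae ?_
    rw [Filter.EventuallyEq, ae_map_iff E6_meas_inl.aemeasurable
      (measurableSet_eq_fun hw measurable_const)]
    exact Eventually.of_forall fun x => by simp only [E6_cl0, sub_zero]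
  have h2 : (Γ.lam.map fun x => (x, (0 : ℝ))).map (fun z => clip Γ.B z.1) = Γ.lam := by
    rw [Measure.map_map (tautM Γ).hg E6_meas_inl]
    refine (Measure.map_congr ?_).trans Measure.map_id
    filter_upwards [Γ.lam_bd] with x hx
    exact clip_of_le hx
  have h3 : ENNReal.ofReal (1 - β) * ENNReal.ofReal (1 / (1 - β)) = 1 := by
    rw [← ENNReal.ofReal_mul (by linarith), mul_one_div_cancel (by linarith), ENNReal.ofReal_one]
  rw [endL, E6_mix_dens, h1, dirac_withDensity' hw, mixM]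
  simp only [E6_cl1, sub_self, zero_div, ENNReal.ofReal_zero, zero_smul, smul_zero, add_zero,
    smul_smul, h3, one_smul, h2]

theorem mov_law (y : MK m Γ.B) (D : ℝ) {β : I} (hx : y.x = β) (hβ : (β : ℝ) < 1) (t : I) :
    (y.mov Γ D β t).law = mixM t y.law Γ.lam := by
  have h1 : ∫ z, cl01 z.2 ∂(mixM t y.jlaw (endL Γ β)) = β := mov_x y D hx t
  have h2 : ∫ z, cl01 z.2 ∂y.jlaw = β := (E6_jlaw_x y).trans hx
  show (bulkP (mixM t y.jlaw (endL Γ β)) fun z => cl01 z.2).map (fun z => clip Γ.B z.1) = _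
  rw [bulkP_eq (c := fun z : E m × ℝ => cl01 z.2) (tautM Γ).hc (tautM Γ).bc (h1.trans_lt hβ), h1,
    E6_mix_dens, mixM_map (tautM Γ).hg, E6_endL_law hβ, ← E6_jlaw_law y (hx.trans_lt hβ),
    bulkP_eq (c := fun z : E m × ℝ => cl01 z.2) (tautM Γ).hc (tautM Γ).bc (h2.trans_lt hβ), h2]

theorem mov_qq (h₀ : 0 < e₀) (h₁ : 0 < e₁) (h₂ : 0 < e₂) (hr : 4 * e₁ ≤ S.r) (y : MK m Γ.B)
    (D : ℝ) {β : I} (hx : y.x = β) (hβ : (β : ℝ) ≤ 1 / 2)
    (hc : ∀ p, y.μ.c p = 0 ∨ y.μ.c p = 1) (hA : S.Al y.law) (hq : qq S b X₀ e₀ e₁ e₂ y < 2)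
    (t : I) : qq S b X₀ e₀ e₁ e₂ (y.mov Γ D β t) ≤
      max (qq S b X₀ e₀ e₁ e₂ y) (gram Γ.lam / e₂) := by
  have hrad := E6_rad S h₁ hr y hq
  have hβ1 : (β : ℝ) < 1 := by linarith
  have hlaw := mov_law y D hx hβ1 t
  have hx' := mov_x y D hx t
  obtain ⟨hA', hrad'⟩ := S.al_mix y.law hA t
  have hgram := gram_mix t y.law Γ.lam y.law_bd Γ.lam_bd
  have hQ : Qal Γ b X₀ (y.mov Γ D β t) ≤ Qal Γ b X₀ y := by
    refine Qal_le Γ (fun t' => ?_) fun u => ?_
    · have h0 : DD b ((y.mov Γ D β t).linB Γ t') (lawP Γ (mixM t y.law Γ.lam)) = 0 := by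
        refine DD_map (τ := (y.mov Γ D β t).μ.g) ⟨(y.mov Γ D β t).μ.hg, hlaw⟩
          (E6_ae_zero (y.mov Γ D β t) (hx'.trans_lt hβ1) (mov_c y D β t hc)) fun p hp q hq => ?_
        have hp' : cl01 p.2 = 0 := hp
        have hq' : cl01 q.2 = 0 := hq
        simp only [markD, hp', hq', sub_zero, one_smul, abs_zero, mul_zero, add_zero,
          max_eq_left (zero_le_one' ℝ)]
        ring
      exact (E6_zero h0).trans (le_Qal_law Γ b X₀ y t)
    · rw [E6_lawP (ν := mixM (σ (σ t * σ u)) y.law Γ.lam) (by rw [hlaw, mixM_mixM])]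
      exact le_Qal_law Γ b X₀ y _
  unfold qq
  rw [Qal_al S y (hx.trans_le hβ) hA hrad, Qal_al S (y.mov Γ D β t) (hx'.trans_le hβ)
    (by rw [hlaw]; exact hA') (by rw [hlaw]; exact hrad'.trans_lt hrad), hlaw]
  refine max_le ?_ (max_le ?_ ?_)
  · exact le_max_of_le_left (le_max_of_le_left (div_le_div_of_nonneg_right hQ h₀.le))
  · exact le_max_of_le_left (le_max_of_le_right
      (le_max_of_le_left (div_le_div_of_nonneg_right hrad' h₁.le)))
  · rcases le_max_iff.mp hgram with h | h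
    · exact le_max_of_le_left (le_max_of_le_right
        (le_max_of_le_right (div_le_div_of_nonneg_right h h₂.le)))
    · exact le_max_of_le_right (div_le_div_of_nonneg_right h h₂.le)

end Pool.Agent.P.MP_de432b_gt.LC
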