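import Pool.Agent.P.MP_de432b_gt.LC.B3

namespace Pool.Agent.P.MP_de432b_gt.LC

open MeasureTheory Set Filter Topology
open scoped unitInterval RealInnerProductSpace

set_option linter.unusedSectionVars false
set_option linter.unusedVariables false

variable {Ω Ω' : Type} [MeasurableSpace Ω] [MeasurableSpace Ω'] {P : Measure Ω}
  [IsProbabilityMeasure P] {Q : Measure Ω'} [IsProbabilityMeasure Q] {τ : Ω' → Ω}

omit [IsProbabilityMeasure P] in
theorem toL2_ae {f : Ω → ℝ} (hf : MemLp f 2 P) : toL2 P f =ᵐ[P] f := by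
  rw [toL2, dif_pos hf]
  exact hf.coeFn_toLp

theorem memLp_of_bd {f : Ω → ℝ} (hf : AEStronglyMeasurable f P) {M : ℝ} (h : ∀ᵐ p ∂P, |f p| ≤ M) :
    MemLp f 2 P := MemLp.of_bound hf M h

omit [IsProbabilityMeasure P] in
theorem F1_inner (u v : Lp ℝ 2 P) : ⟪u, v⟫ = ∫ p, u p * v p ∂P := by
  rw [L2.inner_def]
  refine integral_congr_ae (ae_of_all _ fun p => ?_)
  simp [mul_comm]

omit [IsProbabilityMeasure P] in
theorem norm_sq_L2 (u : Lp ℝ 2 P) : ‖u‖ ^ 2 = ∫ p, u p ^ 2 ∂P := by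
  rw [← real_inner_self_eq_norm_sq, F1_inner]
  simp only [sq]

theorem oneL_ae : oneL P =ᵐ[P] fun _ => 1 := toL2_ae (memLp_const 1)

theorem norm_oneL : ‖oneL P‖ = 1 := by
  have h : ‖oneL P‖ ^ 2 = 1 := by
    rw [norm_sq_L2, integral_congr_ae (g := fun _ => (1 : ℝ))]
    · simp
    · filter_upwards [oneL_ae (P := P)] with p hp
      rw [hp, one_pow]
  exact (pow_eq_one_iff_of_nonneg (norm_nonneg _) two_ne_zero).1 h

theorem norm_le_of_bd {u : Lp ℝ 2 P} {M : ℝ} (h : ∀ᵐ p ∂P, |u p| ≤ M) : ‖u‖ ≤ M := by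
  have h2 : ‖u‖ ≤ M * ‖oneL P‖ := by
    refine Lp.norm_le_mul_norm_of_ae_le_mul ?_
    filter_upwards [h, oneL_ae (P := P)] with p h1 h2
    rw [h2, norm_one, mul_one]
    exact h1
  rwa [norm_oneL, mul_one] at h2

theorem integral_abs_le_norm (u : Lp ℝ 2 P) : ∫ p, |u p| ∂P ≤ ‖u‖ := by
  have h := real_inner_le_norm |u| (oneL P)
  rw [norm_oneL, mul_one, norm_abs_eq_norm, F1_inner] at h
  refine le_trans (le_of_eq (integral_congr_ae ?_)) h
  filter_upwards [Lp.coeFn_abs u, oneL_ae (P := P)] with p h1 h2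
  rw [h1, h2, mul_one]

omit [IsProbabilityMeasure P] [IsProbabilityMeasure Q] in
theorem pullL_ae (h : MeasurePreserving τ Q P) (u : Lp ℝ 2 P) :
    pullL h u =ᵐ[Q] fun p => u (τ p) := Lp.coeFn_compMeasurePreserving u h

omit [IsProbabilityMeasure P] [IsProbabilityMeasure Q] in
theorem pullL_toL2 (h : MeasurePreserving τ Q P) {f : Ω → ℝ} (hf : MemLp f 2 P) :
    pullL h (toL2 P f) = toL2 Q fun p => f (τ p) := by
  refine Lp.ext ?_
  filter_upwards [pullL_ae h (toL2 P f), h.quasiMeasurePreserving.ae (toL2_ae hf),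
    toL2_ae (f := fun p => f (τ p)) (hf.comp_measurePreserving h)] with p h1 h2 h3
  rw [h1, h2, h3]

theorem pullL_oneL (h : MeasurePreserving τ Q P) : pullL h (oneL P) = oneL Q :=
  pullL_toL2 h (memLp_const 1)

theorem F1_mem2 {F : ℝ → ℝ → ℝ} (hF : Continuous fun x : ℝ × ℝ => F x.1 x.2) {M : ℝ}
    (hM : ∀ a b, |F a b| ≤ M) (k l : Lp ℝ 2 P) : MemLp (fun x => F (k x) (l x)) 2 P :=
  memLp_of_bd (hF.comp_aestronglyMeasurable
    ((Lp.aestronglyMeasurable k).prodMk (Lp.aestronglyMeasurable l))) (ae_of_all _ fun _ => hM _ _)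

theorem post2_ae {F : ℝ → ℝ → ℝ} (hF : Continuous fun x : ℝ × ℝ => F x.1 x.2) {M : ℝ}
    (hM : ∀ a b, |F a b| ≤ M) (k l : Lp ℝ 2 P) : post2 F k l =ᵐ[P] fun x => F (k x) (l x) :=
  toL2_ae (F1_mem2 hF hM k l)

theorem post_ae {F : ℝ → ℝ} (hF : Continuous F) {M : ℝ} (hM : ∀ a, |F a| ≤ M) (k : Lp ℝ 2 P) :
    post F k =ᵐ[P] fun x => F (k x) :=
  post2_ae (F := fun a _ => F a) (hF.comp continuous_fst) (fun a _ => hM a) k k

theorem F1_cont {F : ℝ → ℝ → ℝ} {K : ℝ}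
    (hK : ∀ a b a' b', |F a b - F a' b'| ≤ K * (|a - a'| + |b - b'|)) :
    Continuous fun x : ℝ × ℝ => F x.1 x.2 := by
  refine continuous_iff_continuousAt.2 fun y => tendsto_iff_dist_tendsto_zero.2 ?_
  have hc : Continuous fun x : ℝ × ℝ => K * (|x.1 - y.1| + |x.2 - y.2|) := by fun_prop
  have h := hc.tendsto y
  simp only [sub_self, abs_zero, add_zero, mul_zero] at h
  exact squeeze_zero (fun _ => dist_nonneg) (fun x => hK _ _ _ _) h

theorem norm_post2_sub {F : ℝ → ℝ → ℝ} {K M : ℝ} (hM : ∀ a b, |F a b| ≤ M)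
    (hK : ∀ a b a' b', |F a b - F a' b'| ≤ K * (|a - a'| + |b - b'|)) (k l k' l' : Lp ℝ 2 P) :
    ‖post2 F k l - post2 F k' l'‖ ≤ K * (‖k - k'‖ + ‖l - l'‖) := by
  have hK0 : 0 ≤ K := by simpa using (abs_nonneg _).trans (hK 1 0 0 0)
  have hF := F1_cont hK
  have h : ‖post2 F k l - post2 F k' l'‖ ≤ K * ‖|k - k'| + |l - l'|‖ := by
    refine Lp.norm_le_mul_norm_of_ae_le_mul ?_
    filter_upwards [Lp.coeFn_sub (post2 F k l) (post2 F k' l'), post2_ae hF hM k l,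
      post2_ae hF hM k' l', Lp.coeFn_add |k - k'| |l - l'|, Lp.coeFn_abs (k - k'),
      Lp.coeFn_abs (l - l'), Lp.coeFn_sub k k', Lp.coeFn_sub l l'] with p h1 h2 h3 h4 h5 h6 h7 h8
    rw [h1, Pi.sub_apply, h2, h3, h4, Pi.add_apply, h5, h6, h7, h8, Pi.sub_apply, Pi.sub_apply,
      Real.norm_of_nonneg (add_nonneg (abs_nonneg _) (abs_nonneg _))]
    exact hK _ _ _ _
  refine h.trans (mul_le_mul_of_nonneg_left ((norm_add_le _ _).trans (le_of_eq ?_)) hK0)
  rw [norm_abs_eq_norm, norm_abs_eq_norm]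

theorem norm_post_sub {F : ℝ → ℝ} {K M : ℝ} (hM : ∀ a, |F a| ≤ M)
    (hK : ∀ a a', |F a - F a'| ≤ K * |a - a'|) (k k' : Lp ℝ 2 P) :
    ‖post F k - post F k'‖ ≤ K * ‖k - k'‖ := by
  have hK0 : 0 ≤ K := by simpa using (abs_nonneg _).trans (hK 1 0)
  have h := norm_post2_sub (F := fun a _ => F a) (K := K) (fun a _ => hM a)
    (fun a b a' b' => (hK a a').trans
      (mul_le_mul_of_nonneg_left (le_add_of_nonneg_right (abs_nonneg _)) hK0)) k k k' k
  rwa [sub_self, norm_zero, add_zero] at h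

theorem pullL_post2 (h : MeasurePreserving τ Q P) {F : ℝ → ℝ → ℝ}
    (hF : Continuous fun x : ℝ × ℝ => F x.1 x.2) {M : ℝ} (hM : ∀ a b, |F a b| ≤ M)
    (k l : Lp ℝ 2 P) : pullL h (post2 F k l) = post2 F (pullL h k) (pullL h l) := by
  refine Lp.ext ?_
  filter_upwards [pullL_ae h (post2 F k l), h.quasiMeasurePreserving.ae (post2_ae hF hM k l),
    post2_ae hF hM (pullL h k) (pullL h l), pullL_ae h k, pullL_ae h l] with p h1 h2 h3 h4 h5
  rw [h1, h2, h3, h4, h5]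

theorem pullL_post (h : MeasurePreserving τ Q P) {F : ℝ → ℝ} (hF : Continuous F) {M : ℝ}
    (hM : ∀ a, |F a| ≤ M) (k : Lp ℝ 2 P) : pullL h (post F k) = post F (pullL h k) :=
  pullL_post2 h (F := fun a _ => F a) (hF.comp continuous_fst) (fun a _ => hM a) k k

theorem F1_fst {p : Ω → Prop} (h : ∀ᵐ x ∂P, p x) : ∀ᵐ x ∂(P.prod P), p x.1 :=
  Measure.quasiMeasurePreserving_fst.ae h

theorem F1_snd {p : Ω → Prop} (h : ∀ᵐ x ∂P, p x) : ∀ᵐ x ∂(P.prod P), p x.2 :=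
  Measure.quasiMeasurePreserving_snd.ae h

theorem F1_memT (u v : Lp ℝ 2 P) : MemLp (fun x : Ω × Ω => u x.1 * v x.2) 2 (P.prod P) := by
  have hm : Measurable fun x : Ω × Ω => u x.1 * v x.2 :=
    ((Lp.stronglyMeasurable u).measurable.comp measurable_fst).mul
      ((Lp.stronglyMeasurable v).measurable.comp measurable_snd)
  rw [memLp_two_iff_integrable_sq hm.aestronglyMeasurable]
  simp only [mul_pow]
  exact ((memLp_two_iff_integrable_sq (Lp.aestronglyMeasurable u)).1 (Lp.memLp u)).mul_prod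
    ((memLp_two_iff_integrable_sq (Lp.aestronglyMeasurable v)).1 (Lp.memLp v))

theorem tens_ae (u v : Lp ℝ 2 P) : tens u v =ᵐ[P.prod P] fun x => u x.1 * v x.2 :=
  toL2_ae (F1_memT u v)

theorem inner_tens (u v u' v' : Lp ℝ 2 P) : ⟪tens u v, tens u' v'⟫ = ⟪u, u'⟫ * ⟪v, v'⟫ := by
  rw [F1_inner, F1_inner, F1_inner, ← integral_prod_mul]
  refine integral_congr_ae ?_
  filter_upwards [tens_ae u v, tens_ae u' v'] with x h1 h2
  rw [h1, h2]
  ring

theorem norm_tens (u v : Lp ℝ 2 P) : ‖tens u v‖ = ‖u‖ * ‖v‖ := by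
  have h := inner_tens u v u v
  rw [real_inner_self_eq_norm_sq, real_inner_self_eq_norm_sq, real_inner_self_eq_norm_sq,
    ← mul_pow] at h
  exact (pow_left_inj₀ (norm_nonneg _) (by positivity) two_ne_zero).1 h

theorem tens_sub_right (u v v' : Lp ℝ 2 P) : tens u (v - v') = tens u v - tens u v' := by
  refine Lp.ext ?_
  filter_upwards [tens_ae u (v - v'), Lp.coeFn_sub (tens u v) (tens u v'), tens_ae u v,
    tens_ae u v', F1_snd (Lp.coeFn_sub v v')] with x h1 h2 h3 h4 h5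
  rw [h1, h2, Pi.sub_apply, h3, h4, h5, Pi.sub_apply, mul_sub]

theorem tens_sub_left (u u' v : Lp ℝ 2 P) : tens (u - u') v = tens u v - tens u' v := by
  refine Lp.ext ?_
  filter_upwards [tens_ae (u - u') v, Lp.coeFn_sub (tens u v) (tens u' v), tens_ae u v,
    tens_ae u' v, F1_fst (Lp.coeFn_sub u u')] with x h1 h2 h3 h4 h5
  rw [h1, h2, Pi.sub_apply, h3, h4, h5, Pi.sub_apply, sub_mul]

theorem pullL_tens (h : MeasurePreserving τ Q P) (u v : Lp ℝ 2 P) :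
    pullL (h.prod h) (tens u v) = tens (pullL h u) (pullL h v) := by
  refine Lp.ext ?_
  filter_upwards [pullL_ae (h.prod h) (tens u v),
    (h.prod h).quasiMeasurePreserving.ae (tens_ae u v), tens_ae (pullL h u) (pullL h v),
    F1_fst (pullL_ae h u), F1_snd (pullL_ae h v)] with x h1 h2 h3 h4 h5
  rw [h1, h2, h3, h4, h5]
  rfl

end Pool.Agent.P.MP_de432b_gt.LC
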