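import Pool.Agent.P.MP_de432b_gt.LC.F1

namespace Pool.Agent.P.MP_de432b_gt.LC

open MeasureTheory Set Filter Topology
open scoped unitInterval RealInnerProductSpace

variable {Ω Ω' : Type} [MeasurableSpace Ω] [MeasurableSpace Ω'] {P : Measure Ω}
  [IsProbabilityMeasure P] {Q : Measure Ω'} [IsProbabilityMeasure Q] {τ : Ω' → Ω}

omit [IsProbabilityMeasure P] in
theorem F2_fst {p : Ω → Prop} (h : ∀ᵐ x ∂P, p x) : ∀ᵐ x ∂P.prod P, p x.1 :=
  (Measure.quasiMeasurePreserving_fst (μ := P) (ν := P)).ae h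

omit [IsProbabilityMeasure P] in
theorem F2_snd {p : Ω → Prop} (h : ∀ᵐ x ∂P, p x) : ∀ᵐ x ∂P.prod P, p x.2 :=
  (Measure.quasiMeasurePreserving_snd (μ := P) (ν := P)).ae h

theorem F2_add_left (u u' v : Lp ℝ 2 P) : tens (u + u') v = tens u v + tens u' v := by
  refine Lp.ext ?_
  filter_upwards [tens_ae (u + u') v, tens_ae u v, tens_ae u' v,
    Lp.coeFn_add (tens u v) (tens u' v), F2_fst (Lp.coeFn_add u u')] with x h1 h2 h3 h4 h5
  rw [h1, h4, Pi.add_apply, h2, h3, h5, Pi.add_apply]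
  ring

theorem F2_add_right (u v v' : Lp ℝ 2 P) : tens u (v + v') = tens u v + tens u v' := by
  refine Lp.ext ?_
  filter_upwards [tens_ae u (v + v'), tens_ae u v, tens_ae u v',
    Lp.coeFn_add (tens u v) (tens u v'), F2_snd (Lp.coeFn_add v v')] with x h1 h2 h3 h4 h5
  rw [h1, h4, Pi.add_apply, h2, h3, h5, Pi.add_apply]
  ring

theorem F2_smul_left (a : ℝ) (u v : Lp ℝ 2 P) : tens (a • u) v = a • tens u v := by
  refine Lp.ext ?_
  filter_upwards [tens_ae (a • u) v, tens_ae u v,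
    Lp.coeFn_smul a (tens u v), F2_fst (Lp.coeFn_smul a u)] with x h1 h2 h4 h5
  rw [h1, h4, Pi.smul_apply, h2, h5, Pi.smul_apply, smul_eq_mul, smul_eq_mul]
  ring

theorem F2_smul_right (a : ℝ) (u v : Lp ℝ 2 P) : tens u (a • v) = a • tens u v := by
  refine Lp.ext ?_
  filter_upwards [tens_ae u (a • v), tens_ae u v,
    Lp.coeFn_smul a (tens u v), F2_snd (Lp.coeFn_smul a v)] with x h1 h2 h4 h5
  rw [h1, h4, Pi.smul_apply, h2, h5, Pi.smul_apply, smul_eq_mul, smul_eq_mul]
  ring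

theorem F2_bound (k : Lp ℝ 2 (P.prod P)) (u v : Lp ℝ 2 P) :
    ‖⟪k, tens u v⟫‖ ≤ ‖k‖ * ‖v‖ * ‖u‖ := by
  have h := norm_inner_le_norm (𝕜 := ℝ) k (tens u v)
  rw [norm_tens] at h
  calc ‖⟪k, tens u v⟫‖ ≤ ‖k‖ * (‖u‖ * ‖v‖) := h
    _ = ‖k‖ * ‖v‖ * ‖u‖ := by ring

theorem F2_exists (k : Lp ℝ 2 (P.prod P)) :
    ∃ T : Lp ℝ 2 P →L[ℝ] Lp ℝ 2 P, ∀ u v : Lp ℝ 2 P, ⟪u, T v⟫ = ⟪k, tens u v⟫ := by
  let B₀ : Lp ℝ 2 P →ₗ[ℝ] Lp ℝ 2 P →ₗ[ℝ] ℝ :=
    LinearMap.mk₂ ℝ (fun v u => ⟪k, tens u v⟫)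
      (fun v v' u => by rw [F2_add_right, inner_add_right])
      (fun a v u => by rw [F2_smul_right, real_inner_smul_right, smul_eq_mul])
      (fun v u u' => by rw [F2_add_left, inner_add_right])
      (fun a v u => by rw [F2_smul_left, real_inner_smul_right, smul_eq_mul])
  let B : Lp ℝ 2 P →L[ℝ] Lp ℝ 2 P →L[ℝ] ℝ :=
    LinearMap.mkContinuous₂ B₀ ‖k‖ fun v u => F2_bound k u v
  refine ⟨InnerProductSpace.continuousLinearMapOfBilin B, fun u v => ?_⟩
  rw [real_inner_comm, InnerProductSpace.continuousLinearMapOfBilin_apply]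
  rfl

theorem opK_spec (k : Lp ℝ 2 (P.prod P)) (u v : Lp ℝ 2 P) : ⟪u, opK k v⟫ = ⟪k, tens u v⟫ :=
  Classical.epsilon_spec (F2_exists k) u v

theorem F2_ext {k : Lp ℝ 2 (P.prod P)} {T : Lp ℝ 2 P →L[ℝ] Lp ℝ 2 P}
    (h : ∀ u v, ⟪u, T v⟫ = ⟪k, tens u v⟫) : opK k = T := by
  refine ContinuousLinearMap.ext fun v => ext_inner_left ℝ fun u => ?_
  rw [opK_spec, h]

theorem norm_opK_le (k : Lp ℝ 2 (P.prod P)) : ‖opK k‖ ≤ ‖k‖ := by
  refine ContinuousLinearMap.opNorm_le_bound _ (norm_nonneg _) fun v => ?_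
  have h1 := F2_bound k (opK k v) v
  rw [← opK_spec, real_inner_self_eq_norm_mul_norm, Real.norm_eq_abs,
    abs_of_nonneg (by positivity)] at h1
  rcases (norm_nonneg (opK k v)).eq_or_lt with h0 | h0
  · rw [← h0]; positivity
  · exact le_of_mul_le_mul_right h1 h0

theorem opK_add (k l : Lp ℝ 2 (P.prod P)) : opK (k + l) = opK k + opK l :=
  F2_ext fun u v => by
    rw [add_apply, inner_add_right, opK_spec, opK_spec, inner_add_left]

theorem opK_sub (k l : Lp ℝ 2 (P.prod P)) : opK (k - l) = opK k - opK l :=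
  F2_ext fun u v => by
    rw [sub_apply, inner_sub_right, opK_spec, opK_spec, inner_sub_left]

theorem opK_smul (a : ℝ) (k : Lp ℝ 2 (P.prod P)) : opK (a • k) = a • opK k :=
  F2_ext fun u v => by
    rw [smul_apply, real_inner_smul_right, opK_spec, real_inner_smul_left]

theorem opK_tens (u v : Lp ℝ 2 P) : opK (tens u v) = InnerProductSpace.rankOne ℝ u v :=
  F2_ext fun u' v' => by
    rw [InnerProductSpace.rankOne_apply, real_inner_smul_right, inner_tens, real_inner_comm u' u,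
      mul_comm]

theorem F2_opK_zero : opK (0 : Lp ℝ 2 (P.prod P)) = 0 :=
  F2_ext fun u v => by simp

theorem F2_cont : Continuous fun k : Lp ℝ 2 (P.prod P) => opK k := by
  refine (LipschitzWith.of_dist_le_mul (K := 1) fun k l => ?_).continuous
  rw [dist_eq_norm, dist_eq_norm, ← opK_sub, NNReal.coe_one, one_mul]
  exact norm_opK_le _

theorem F2_inner_tens (k : Lp ℝ 2 (P.prod P)) (u v : Lp ℝ 2 P) :
    ⟪k, tens u v⟫ = ∫ x, k x * (u x.1 * v x.2) ∂P.prod P := by
  rw [L2.inner_def]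
  refine integral_congr_ae ?_
  filter_upwards [tens_ae u v] with x hx
  rw [hx, RCLike.inner_apply, conj_trivial, mul_comm]

theorem F2_integrable {α : Type} [MeasurableSpace α] {μ : Measure α} [IsProbabilityMeasure μ]
    (k : Lp ℝ 2 μ) : Integrable k μ :=
  (Lp.memLp k).integrable (by norm_num)

theorem dense_tens : Dense (Submodule.span ℝ {k : Lp ℝ 2 (P.prod P) | ∃ u v, k = tens u v} :
    Set (Lp ℝ 2 (P.prod P))) := by
  rw [Submodule.dense_iff_topologicalClosure_eq_top, Submodule.topologicalClosure_eq_top_iff,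
    Submodule.eq_bot_iff]
  intro k hk
  have hk' : ∀ u v : Lp ℝ 2 P, ⟪k, tens u v⟫ = 0 := fun u v => by
    rw [real_inner_comm]
    exact (Submodule.mem_orthogonal _ _).1 hk _ (Submodule.subset_span ⟨u, v, rfl⟩)
  have hint := F2_integrable k
  have hrect : ∀ s t : Set Ω, MeasurableSet s → MeasurableSet t →
      ∫ x in s ×ˢ t, k x ∂P.prod P = 0 := by
    intro s t hs ht
    have h1 := hk' (indicatorConstLp 2 hs (measure_ne_top _ _) (1 : ℝ))
      (indicatorConstLp 2 ht (measure_ne_top _ _) (1 : ℝ))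
    rw [F2_inner_tens] at h1
    rw [← h1, ← integral_indicator (hs.prod ht)]
    refine integral_congr_ae ?_
    filter_upwards [F2_fst (indicatorConstLp_coeFn (p := 2) (hs := hs)
      (hμs := measure_ne_top P s) (c := (1 : ℝ))), F2_snd (indicatorConstLp_coeFn (p := 2)
      (hs := ht) (hμs := measure_ne_top P t) (c := (1 : ℝ)))] with x h2 h3
    rw [h2, h3]
    by_cases hx1 : x.1 ∈ s <;> by_cases hx2 : x.2 ∈ t <;> simp [indicator, hx1, hx2]
  have huniv : ∫ x, k x ∂P.prod P = 0 := by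
    have := hrect univ univ MeasurableSet.univ MeasurableSet.univ
    rwa [univ_prod_univ, Measure.restrict_univ] at this
  have hall : ∀ s : Set (Ω × Ω), MeasurableSet s → ∫ x in s, k x ∂P.prod P = 0 := by
    intro s hs
    induction s, hs using MeasurableSpace.induction_on_inter generateFrom_prod.symm
      isPiSystem_prod with
    | empty => simp
    | basic t ht =>
      obtain ⟨a, ha, b, hb, rfl⟩ := ht
      exact hrect a b ha hb
    | compl t htm iht =>
      rw [setIntegral_compl htm hint, huniv, iht, sub_zero]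
    | iUnion f hfd hfm ihf =>
      rw [integral_iUnion hfm hfd hint.integrableOn]
      simp [ihf]
  have h0 := hint.ae_eq_zero_of_forall_setIntegral_eq_zero fun s hs _ => hall s hs
  exact Lp.ext (h0.trans (Lp.coeFn_zero ℝ 2 (P.prod P)).symm)

theorem F2_induction {C : Lp ℝ 2 (P.prod P) → Prop} (hc : IsClosed {k | C k}) (h0 : C 0)
    (hadd : ∀ k l, C k → C l → C (k + l)) (hsmul : ∀ (a : ℝ) k, C k → C (a • k))
    (htens : ∀ u v, C (tens u v)) (k : Lp ℝ 2 (P.prod P)) : C k := by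
  have h1 : ((Submodule.span ℝ {k : Lp ℝ 2 (P.prod P) | ∃ u v, k = tens u v} :
      Submodule ℝ (Lp ℝ 2 (P.prod P))) : Set (Lp ℝ 2 (P.prod P))) ⊆ {k | C k} := by
    intro l hl
    induction hl using Submodule.span_induction with
    | mem x hx =>
      obtain ⟨u, v, rfl⟩ := hx
      exact htens u v
    | zero => exact h0
    | add x y _ _ hx hy => exact hadd x y hx hy
    | smul a x _ hx => exact hsmul a x hx
  exact hc.closure_subset_iff.2 h1 (dense_tens k)

theorem opK_pull (h : MeasurePreserving τ Q P) (k : Lp ℝ 2 (P.prod P)) :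
    opK (pullL (h.prod h) k) = conj (pullL h) (opK k) := by
  refine F2_induction (C := fun k => opK (pullL (h.prod h) k) = conj (pullL h) (opK k))
    ?_ ?_ ?_ ?_ ?_ k
  · refine isClosed_eq (F2_cont.comp (pullL (h.prod h)).continuous) ?_
    unfold conj
    exact continuous_const.clm_comp (F2_cont.clm_comp continuous_const)
  · rw [map_zero, F2_opK_zero, F2_opK_zero, B3_conj_zero]
  · intro k l hk hl
    rw [map_add, opK_add, opK_add, conj_add, hk, hl]
  · intro a k hk
    rw [map_smul, opK_smul, opK_smul, conj_smul, hk]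
  · intro u v
    rw [pullL_tens, opK_tens, opK_tens, conj_rankOne]

theorem F2_swap_tens (u v : Lp ℝ 2 P) :
    pullL (Measure.measurePreserving_swap (μ := P) (ν := P)) (tens u v) = tens v u := by
  refine Lp.ext ?_
  filter_upwards [pullL_ae (Measure.measurePreserving_swap (μ := P) (ν := P)) (tens u v),
    tens_ae v u, (Measure.measurePreserving_swap (μ := P) (ν := P)).quasiMeasurePreserving.ae
      (tens_ae u v)] with x h1 h2 h3
  rw [h1, h2, h3, Prod.fst_swap, Prod.snd_swap, mul_comm]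

theorem opK_swap (k : Lp ℝ 2 (P.prod P)) :
    opK (pullL (Measure.measurePreserving_swap (μ := P) (ν := P)) k) =
      ContinuousLinearMap.adjoint (opK k) := by
  refine F2_ext fun u v => ?_
  rw [ContinuousLinearMap.adjoint_inner_right, real_inner_comm, opK_spec, ← F2_swap_tens v u,
    LinearIsometry.inner_map_map]

theorem isCompact_opK (k : Lp ℝ 2 (P.prod P)) : IsCompactOperator (opK k) := by
  refine F2_induction (C := fun k => IsCompactOperator (opK k)) ?_ ?_ ?_ ?_ ?_ k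
  · exact isClosed_setOfPred_isCompactOperator.preimage F2_cont
  · rw [F2_opK_zero]
    exact isCompactOperator_zero
  · intro k l hk hl
    rw [opK_add]
    exact hk.add hl
  · intro a k hk
    rw [opK_smul]
    exact hk.smul a
  · intro u v
    rw [opK_tens, InnerProductSpace.rankOne_def']
    exact (isCompactOperator_of_locallyCompactSpace_dom (innerSL ℝ v)).clm_comp
      (ContinuousLinearMap.toSpanSingleton ℝ u)

theorem F2_int_mul (k : Lp ℝ 2 (P.prod P)) (v : Lp ℝ 2 P) :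
    Integrable (fun x : Ω × Ω => k x * v x.2) (P.prod P) := by
  have h1 : MemLp (fun x : Ω × Ω => v x.2) 2 (P.prod P) :=
    (Lp.memLp v).comp_measurePreserving (measurePreserving_snd (μ := P) (ν := P))
  exact (Lp.memLp k).integrable_mul h1

theorem opK_ae (k : Lp ℝ 2 (P.prod P)) (v : Lp ℝ 2 P) :
    opK k v =ᵐ[P] fun p => ∫ q, k (p, q) * v q ∂P := by
  have hi := F2_int_mul k v
  refine Integrable.ae_eq_of_forall_setIntegral_eq _ _ (F2_integrable _) hi.integral_prod_left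
    fun s hs hs' => ?_
  rw [← L2.inner_indicatorConstLp_one hs hs'.ne, opK_spec, F2_inner_tens]
  have h1 : ∫ x, k x * (indicatorConstLp 2 hs hs'.ne (1 : ℝ) x.1 * v x.2) ∂P.prod P =
      ∫ x in s ×ˢ univ, k x * v x.2 ∂P.prod P := by
    rw [← integral_indicator (hs.prod MeasurableSet.univ)]
    refine integral_congr_ae ?_
    filter_upwards [F2_fst (indicatorConstLp_coeFn (p := 2) (hs := hs)
      (hμs := hs'.ne) (c := (1 : ℝ)))] with x h2
    rw [h2]
    by_cases hx1 : x.1 ∈ s <;> simp [indicator, hx1]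
  rw [h1, setIntegral_prod _ hi.integrableOn, Measure.restrict_univ]

theorem opK_toL2_ae {κ : Ω × Ω → ℝ} (hκ : Measurable κ) {M : ℝ} (hM : ∀ x, |κ x| ≤ M)
    {v : Lp ℝ 2 P} {f : Ω → ℝ} (hv : v =ᵐ[P] f) :
    opK (toL2 (P.prod P) κ) v =ᵐ[P] fun p => ∫ q, κ (p, q) * f q ∂P := by
  have h1 : toL2 (P.prod P) κ =ᵐ[P.prod P] κ :=
    toL2_ae (memLp_of_bd hκ.aestronglyMeasurable (Eventually.of_forall hM))
  filter_upwards [opK_ae (toL2 (P.prod P) κ) v, Measure.ae_ae_of_ae_prod h1] with p h2 h3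
  rw [h2]
  refine integral_congr_ae ?_
  filter_upwards [h3, hv] with q h4 h5
  rw [h4, h5]

theorem opK_bd {k : Lp ℝ 2 (P.prod P)} {M : ℝ} (h : ∀ᵐ x ∂P.prod P, |k x| ≤ M) (v : Lp ℝ 2 P) :
    ∀ᵐ p ∂P, |opK k v p| ≤ M * ‖v‖ := by
  have hM : 0 ≤ M := by
    obtain ⟨x, hx⟩ := h.exists
    exact (abs_nonneg _).trans hx
  filter_upwards [opK_ae k v, Measure.ae_ae_of_ae_prod h] with p h2 h3
  rw [h2]
  have h4 : ‖∫ q, k (p, q) * v q ∂P‖ ≤ ∫ q, M * |v q| ∂P := by
    refine norm_integral_le_of_norm_le ((F2_integrable v).abs.const_mul M) ?_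
    filter_upwards [h3] with q hq
    rw [Real.norm_eq_abs, abs_mul]
    exact mul_le_mul_of_nonneg_right hq (abs_nonneg _)
  rw [integral_const_mul, Real.norm_eq_abs] at h4
  exact h4.trans (mul_le_mul_of_nonneg_left (integral_abs_le_norm v) hM)

end Pool.Agent.P.MP_de432b_gt.LC
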