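import Pool.Agent.P.MP_de432b_gt.LC.B5
import Pool.Agent.P.MP_de432b_gt.LC.C3
import Pool.Agent.P.MP_de432b_gt.LC.F1

namespace Pool.Agent.P.MP_de432b_gt.LC

open MeasureTheory Set Filter Topology
open scoped unitInterval RealInnerProductSpace

section aux
variable {X Y : Type} [MeasurableSpace X] [MeasurableSpace Y] {R : Measure X}
  [IsProbabilityMeasure R]

theorem F3_mem {p : X → ℝ} (hp : Measurable p) {M : ℝ} (b : ∀ x, |p x| ≤ M) : MemLp p 2 R :=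
  memLp_of_bd hp.aestronglyMeasurable (Eventually.of_forall b)

theorem F3_int {p : X → ℝ} (hp : Measurable p) {M : ℝ} (b : ∀ x, |p x| ≤ M) : Integrable p R :=
  (F3_mem hp b).integrable one_le_two

theorem F3_norm {p : X → ℝ} (hp : Measurable p) {M : ℝ} (b : ∀ x, |p x| ≤ M) :
    ‖toL2 R p‖ ≤ M := by
  refine norm_le_of_bd ?_
  filter_upwards [toL2_ae (F3_mem (R := R) hp b)] with x hx
  rw [hx]
  exact b x

theorem F3_abs_int {p : X → ℝ} {M : ℝ} (b : ∀ x, |p x| ≤ M) : |∫ x, p x ∂(R)| ≤ M := by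
  have := norm_integral_le_of_norm_le_const (μ := R) (f := p) (C := M) (Eventually.of_forall b)
  simpa using this

theorem F3_sub {p p' : X → ℝ} (hp : Measurable p) (hp' : Measurable p') {M : ℝ}
    (b : ∀ x, |p x| ≤ M) (b' : ∀ x, |p' x| ≤ M) :
    ‖toL2 R p - toL2 R p'‖ ^ 2 = ∫ x, (p x - p' x) ^ 2 ∂(R) ∧
      |∫ x, p x ∂(R) - ∫ x, p' x ∂(R)| ≤ ‖toL2 R p - toL2 R p'‖ := by
  have h : (toL2 R p - toL2 R p' : Lp ℝ 2 R) =ᵐ[R] fun x => p x - p' x := by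
    filter_upwards [Lp.coeFn_sub (toL2 R p) (toL2 R p'), toL2_ae (F3_mem (R := R) hp b),
      toL2_ae (F3_mem (R := R) hp' b')] with x h1 h2 h3
    rw [h1, Pi.sub_apply, h2, h3]
  constructor
  · rw [norm_sq_L2]
    refine integral_congr_ae ?_
    filter_upwards [h] with x hx
    rw [hx]
  · rw [← integral_sub (F3_int hp b) (F3_int hp' b')]
    refine (abs_integral_le_integral_abs).trans (le_trans (le_of_eq ?_) (integral_abs_le_norm _))
    refine integral_congr_ae ?_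
    filter_upwards [h] with x hx
    rw [hx]

omit [IsProbabilityMeasure R] in
theorem F3_int_comp {Q : Measure Y} {τ : Y → X} (h : MeasurePreserving τ Q R) {p : X → ℝ}
    (hp : Measurable p) : ∫ x, p x ∂(R) = ∫ y, p (τ y) ∂Q :=
  calc ∫ x, p x ∂(R) = ∫ x, p x ∂(Measure.map τ Q) := by rw [h.map_eq]
    _ = _ := integral_map h.measurable.aemeasurable hp.aestronglyMeasurable

theorem F3_meas {N : ℕ} {ψ : ℝ → ℝ} (hψ : Continuous ψ) {g : Fin N → X → ℝ}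
    (hg : ∀ i, Measurable (g i)) : Measurable (tupK ψ g) :=
  hψ.measurable.comp (Measurable.iSup fun i =>
    (((hg i).comp measurable_fst).sub ((hg i).comp measurable_snd)).abs)

theorem F3_sup {N : ℕ} {a b : Fin N → ℝ} {c : ℝ} (hc : 0 ≤ c) (h : ∀ i, |a i - b i| ≤ c) :
    |(⨆ i, a i) - ⨆ i, b i| ≤ c := by
  rcases isEmpty_or_nonempty (Fin N) with hN | hN
  · simpa using hc
  have h1 : ⨆ i, a i ≤ (⨆ i, b i) + c := ciSup_le fun i => by
    linarith [le_ciSup (Finite.bddAbove_range b) i, (abs_le.mp (h i)).2]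
  have h2 : ⨆ i, b i ≤ (⨆ i, a i) + c := ciSup_le fun i => by
    linarith [le_ciSup (Finite.bddAbove_range a) i, (abs_le.mp (h i)).1]
  exact abs_le.mpr ⟨by linarith, by linarith⟩

theorem F3_cont {ψ : ℝ → ℝ} {K : ℝ} (hl : ∀ s t, |ψ s - ψ t| ≤ K * |s - t|) : Continuous ψ :=
  (LipschitzWith.of_dist_le' (K := K) fun s t => by simpa [Real.dist_eq] using hl s t).continuous

theorem F3_pair {N : ℕ} {ψ ψ' : ℝ → ℝ} {M K η ε : ℝ} (hM : 1 ≤ M) (hK : 0 ≤ K) (hε : 0 ≤ ε)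
    (b1 : ∀ t, |ψ t| ≤ M) (b2 : ∀ t, |ψ' t| ≤ M) (hl : ∀ s t, |ψ s - ψ t| ≤ K * |s - t|)
    (hc : Continuous ψ') (hη : ∀ t, |ψ t - ψ' t| ≤ η) {g g' : Fin N → X → ℝ}
    (hg : ∀ i, Measurable (g i)) (hg' : ∀ i, Measurable (g' i))
    (h : ∀ i, R.real {p | ε < |g i p - g' i p|} ≤ ε) :
    ‖toL2 (R.prod R) (tupK ψ g) - toL2 (R.prod R) (tupK ψ' g')‖ ≤
      2 * K * ε + η + 2 * M * √(2 * N * ε) := by
  have hη0 : 0 ≤ η := (abs_nonneg _).trans (hη 0)
  set B : Set X := ⋃ i, {p | ε < |g i p - g' i p|} with hB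
  have hBm : MeasurableSet B :=
    MeasurableSet.iUnion fun i => measurableSet_lt measurable_const ((hg i).sub (hg' i)).abs
  have hBr : R.real B ≤ N * ε := by
    refine (measureReal_iUnion_fintype_le _).trans ?_
    refine (Finset.sum_le_sum fun i _ => h i).trans ?_
    simp
  set T : Set (X × X) := Prod.fst ⁻¹' B ∪ Prod.snd ⁻¹' B with hT
  have hTm : MeasurableSet T := (measurable_fst hBm).union (measurable_snd hBm)
  have hTr : (R.prod R).real T ≤ 2 * N * ε := by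
    refine (measureReal_union_le _ _).trans ?_
    have e1 : (R.prod R).real (Prod.fst ⁻¹' B) = R.real B :=
      measurePreserving_fst.measureReal_preimage hBm.nullMeasurableSet
    have e2 : (R.prod R).real (Prod.snd ⁻¹' B) = R.real B :=
      measurePreserving_snd.measureReal_preimage hBm.nullMeasurableSet
    linarith
  have ha : 0 ≤ 2 * K * ε + η := by positivity
  have hpt : ∀ x, (tupK ψ g x - tupK ψ' g' x) ^ 2 ≤
      (2 * K * ε + η) ^ 2 + T.indicator (fun _ => (2 * M) ^ 2) x := by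
    intro x
    by_cases hx : x ∈ T
    · rw [indicator_of_mem hx]
      have k1 : |tupK ψ g x| ≤ M := b1 _
      have k2 : |tupK ψ' g' x| ≤ M := b2 _
      have h1 : |tupK ψ g x - tupK ψ' g' x| ≤ 2 * M := (abs_sub _ _).trans (by linarith)
      have h2 := pow_le_pow_left₀ (abs_nonneg _) h1 2
      rw [sq_abs] at h2
      nlinarith [sq_nonneg (2 * K * ε + η)]
    · rw [indicator_of_notMem hx, add_zero]
      simp only [hT, hB, mem_union, mem_preimage, mem_iUnion, mem_ofPred_eq, not_or, not_exists,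
        not_lt] at hx
      have h1 : |(⨆ i, |g i x.1 - g i x.2|) - (⨆ i, |g' i x.1 - g' i x.2|)| ≤ 2 * ε := by
        refine F3_sup (by positivity) fun i => (abs_abs_sub_abs_le_abs_sub _ _).trans ?_
        have := abs_le.mp (hx.1 i)
        have := abs_le.mp (hx.2 i)
        exact abs_le.mpr ⟨by linarith, by linarith⟩
      have h2 := (hl _ _).trans (mul_le_mul_of_nonneg_left h1 hK)
      have h3 : |tupK ψ g x - tupK ψ' g' x| ≤ 2 * K * ε + η :=
        (abs_sub_le _ (ψ (⨆ i, |g' i x.1 - g' i x.2|)) _).trans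
          (add_le_add (h2.trans_eq (by ring)) (hη _))
      have h4 := pow_le_pow_left₀ (abs_nonneg _) h3 2
      rwa [sq_abs] at h4
  have hm1 := F3_meas (F3_cont hl) hg
  have hm2 := F3_meas hc hg'
  have e := (F3_sub (R := R.prod R) hm1 hm2 (fun x => b1 _) (fun x => b2 _)).1
  have hi : Integrable (fun x => T.indicator (fun _ => (2 * M) ^ 2) x) (R.prod R) :=
    (integrable_const _).indicator hTm
  have h5 : ∫ x, (tupK ψ g x - tupK ψ' g' x) ^ 2 ∂(R.prod R) ≤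
      (2 * K * ε + η) ^ 2 + (2 * M) ^ 2 * (2 * N * ε) := by
    refine (integral_mono_of_nonneg (Eventually.of_forall fun x => sq_nonneg _)
      ((integrable_const _).add hi) (Eventually.of_forall hpt)).trans ?_
    simp only [Pi.add_apply]
    rw [integral_add (integrable_const _) hi, integral_indicator_const _ hTm]
    simp only [integral_const, probReal_univ, smul_eq_mul, one_mul]
    nlinarith [sq_nonneg (2 * M)]
  have hs : 0 ≤ 2 * M * √(2 * N * ε) := by positivity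
  have hq : √(2 * N * ε) ^ 2 = 2 * N * ε := Real.sq_sqrt (by positivity)
  refine (pow_le_pow_iff_left₀ (norm_nonneg _) (by positivity) two_ne_zero).mp ?_
  rw [e]
  refine h5.trans ?_
  have : (2 * K * ε + η + 2 * M * √(2 * N * ε)) ^ 2 = (2 * K * ε + η) ^ 2 +
      2 * ((2 * K * ε + η) * (2 * M * √(2 * N * ε))) + (2 * M) ^ 2 * √(2 * N * ε) ^ 2 := by ring
  rw [this, hq]
  linarith [mul_nonneg ha hs]

end aux

theorem F3_bd {N : ℕ} {ψ : ℝ → ℝ} {M : ℝ} (hM : 1 ≤ M) (b1 : ∀ t, |ψ t| ≤ M)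
    (hc : Continuous ψ) (A : PM) {z : Lp ℝ 2 (A.P.prod A.P) × ℝ}
    (hz : z ∈ {z : Lp ℝ 2 (A.P.prod A.P) × ℝ | ∃ f : Fin N → A.Ω → ℝ, (∀ i, Lip A.d (f i)) ∧
      z.1 = toL2 (A.P.prod A.P) (tupK ψ f) ∧ z.2 = 2 * M * ∫ x, tupK ψ f x ∂(A.P.prod A.P)}) :
    ‖z.1‖ ≤ M ∧ |z.2| ≤ 2 * M ^ 2 := by
  obtain ⟨f, hf, h1, h2⟩ := hz
  rw [h1, h2]
  refine ⟨F3_norm (F3_meas hc fun i => (hf i).measurable A.hd) fun x => b1 _, ?_⟩
  rw [abs_mul, abs_of_nonneg (by linarith : 0 ≤ 2 * M)]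
  have := F3_abs_int (R := A.P.prod A.P) (p := tupK ψ f) (M := M) fun x => b1 _
  nlinarith

theorem F3_cmp {N : ℕ} {ψ ψ' : ℝ → ℝ} {M K η ε : ℝ} (hM : 1 ≤ M) (hK : 0 ≤ K) (hε : 0 ≤ ε)
    (b1 : ∀ t, |ψ t| ≤ M) (b2 : ∀ t, |ψ' t| ≤ M) (hl : ∀ s t, |ψ s - ψ t| ≤ K * |s - t|)
    (hc : Continuous ψ') (hη : ∀ t, |ψ t - ψ' t| ≤ η) {A A' : PM} (s : Span A A')
    {f : Fin N → A.Ω → ℝ} {f' : Fin N → A'.Ω → ℝ} (hf : ∀ i, Lip A.d (f i))
    (hf' : ∀ i, Lip A'.d (f' i))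
    (h : ∀ i, s.Q.real {p | ε < |f i (s.l p) - f' i (s.r p)|} ≤ ε) :
    ‖pullL (s.hl.prod s.hl) (toL2 (A.P.prod A.P) (tupK ψ f)) -
        pullL (s.hr.prod s.hr) (toL2 (A'.P.prod A'.P) (tupK ψ' f'))‖ ≤
      2 * K * ε + η + 2 * M * √(2 * N * ε) ∧
    |2 * M * ∫ x, tupK ψ f x ∂(A.P.prod A.P) - 2 * M * ∫ x, tupK ψ' f' x ∂(A'.P.prod A'.P)| ≤
      2 * M * (2 * K * ε + η + 2 * M * √(2 * N * ε)) := by
  have m1 := fun i => (hf i).measurable A.hd
  have m2 := fun i => (hf' i).measurable A'.hd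
  have hm1 := F3_meas (F3_cont hl) m1
  have hm2 := F3_meas hc m2
  have n1 := fun i => (m1 i).comp s.hl.measurable
  have n2 := fun i => (m2 i).comp s.hr.measurable
  have key := F3_pair (R := s.Q) hM hK hε b1 b2 hl hc hη n1 n2 h
  have k2 := (F3_sub (R := s.Q.prod s.Q) (F3_meas (F3_cont hl) n1) (F3_meas hc n2)
    (fun x => b1 _) (fun x => b2 _)).2
  rw [pullL_toL2 _ (F3_mem hm1 fun x => b1 _), pullL_toL2 _ (F3_mem hm2 fun x => b2 _),
    F3_int_comp (s.hl.prod s.hl) hm1, F3_int_comp (s.hr.prod s.hr) hm2, ← mul_sub, abs_mul,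
    abs_of_nonneg (by linarith : 0 ≤ 2 * M)]
  exact ⟨key, mul_le_mul_of_nonneg_left (k2.trans key) (by linarith)⟩

theorem kerK_stab {N : ℕ} {ψ ψ' : ℝ → ℝ} {M K η ε : ℝ} (hM : 1 ≤ M) (hK : 0 ≤ K)
    (b1 : ∀ t, |ψ t| ≤ M) (b2 : ∀ t, |ψ' t| ≤ M) (hl : ∀ s t, |ψ s - ψ t| ≤ K * |s - t|)
    (hc : Continuous ψ') (hη : ∀ t, |ψ t - ψ' t| ≤ η) {A A' : PM} (s : Span A A')
    (hs : s.Close false ε) :
    ‖pullL (s.hl.prod s.hl) (kerK N ψ (2 * M) A) - pullL (s.hr.prod s.hr) (kerK N ψ' (2 * M) A')‖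
      ^ 2 ≤ 80 * M * (2 * K * ε + η + 2 * M * √(2 * N * ε)) := by
  have hε : 0 ≤ ε := C3_nonneg hs
  have hη0 : 0 ≤ η := (abs_nonneg _).trans (hη 0)
  have hs' : ConC s.Q (fun p q => A.d (s.l p) (s.l q)) (fun p q => A'.d (s.r p) (s.r q)) ε := hs
  refine le_trans (centre_stab (pullL (s.hl.prod s.hl)) (pullL (s.hr.prod s.hr)) (M := 2 * M)
    (η := 2 * K * ε + η + 2 * M * √(2 * N * ε)) (by linarith) (by positivity) ?_ ?_ ?_ ?_ ?_)
    (le_of_eq (by ring))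
  · exact ⟨(_, _), fun _ _ => 0, fun i p q => by simpa using A.hd.nonneg p q, rfl, rfl⟩
  · intro z hz
    have := F3_bd hM b1 (F3_cont hl) A hz
    exact ⟨by linarith [this.1], by nlinarith [this.2]⟩
  · intro z hz
    have := F3_bd hM b2 hc A' hz
    exact ⟨by linarith [this.1], by nlinarith [this.2]⟩
  · rintro z ⟨f, hf, h1, h2⟩
    have : ∀ i, ∃ f', Lip A'.d f' ∧ s.Q.real {p | ε < |f i (s.l p) - f' (s.r p)|} ≤ ε := by
      intro i
      obtain ⟨g, hg, hq⟩ := hs'.1 (fun p => f i (s.l p)) fun p q => hf i _ _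
      obtain ⟨f', hf', e⟩ := lip_factor A'.hd s.r hg
      exact ⟨f', hf', by simpa only [e] using hq⟩
    choose f' hf' hq using this
    refine ⟨(_, _), ⟨f', hf', rfl, rfl⟩, ?_⟩
    rw [h1, h2]
    exact F3_cmp hM hK hε b1 b2 hl hc hη s hf hf' hq
  · rintro z ⟨f', hf', h1, h2⟩
    have : ∀ i, ∃ f, Lip A.d f ∧ s.Q.real {p | ε < |f (s.l p) - f' i (s.r p)|} ≤ ε := by
      intro i
      obtain ⟨g, hg, hq⟩ := hs'.2 (fun p => f' i (s.r p)) fun p q => hf' i _ _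
      obtain ⟨f, hf, e⟩ := lip_factor A.hd s.l hg
      exact ⟨f, hf, by simpa only [e, abs_sub_comm] using hq⟩
    choose f hf hq using this
    refine ⟨(_, _), ⟨f, hf, rfl, rfl⟩, ?_⟩
    rw [h1, h2]
    exact F3_cmp hM hK hε b1 b2 hl hc hη s hf hf' hq

theorem kerK_acc {N : ℕ} {ψ : ℝ → ℝ} {M η : ℝ} (hM : 1 ≤ M) (b1 : ∀ t, |ψ t| ≤ M)
    (hm : Monotone ψ) (hc : Continuous ψ) (A : PM) (f : Fin N → A.Ω → ℝ) (hf : ∀ i, Lip A.d (f i))
    (h : ∫ x, (ψ (A.d x.1 x.2) - tupK ψ f x) ∂(A.P.prod A.P) ≤ η) :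
    ‖kerK N ψ (2 * M) A - toL2 (A.P.prod A.P) (fun x => ψ (A.d x.1 x.2))‖ ^ 2 ≤ 8 * M * η := by
  have m0 : Measurable fun x : A.Ω × A.Ω => ψ (A.d x.1 x.2) := hc.measurable.comp A.hd.measurable
  have i0 : Integrable (fun x : A.Ω × A.Ω => ψ (A.d x.1 x.2)) (A.P.prod A.P) :=
    F3_int m0 fun x => b1 _
  refine le_trans (centre_acc (M := 2 * M ^ 2) ?_ _
    (β := 2 * M * ∫ x, ψ (A.d x.1 x.2) ∂(A.P.prod A.P)) (η := 2 * M * η) ?_ ?_)
    (le_of_eq (by ring))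
  · intro z hz
    have := F3_bd hM b1 hc A hz
    exact ⟨by nlinarith [this.1], this.2⟩
  · rintro z ⟨g, hg, h1, h2⟩
    have m1 := F3_meas hc fun i => (hg i).measurable A.hd
    have i1 : Integrable (tupK ψ g) (A.P.prod A.P) := F3_int m1 fun x => b1 _
    rw [h1, h2, (F3_sub (R := A.P.prod A.P) m0 m1 (fun x => b1 _) (fun x => b1 _)).1]
    have h3 : ∫ x, (ψ (A.d x.1 x.2) - tupK ψ g x) ^ 2 ∂(A.P.prod A.P) ≤
        ∫ x, 2 * M * (ψ (A.d x.1 x.2) - tupK ψ g x) ∂(A.P.prod A.P) := by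
      refine integral_mono_of_nonneg (Eventually.of_forall fun x => sq_nonneg _)
        ((i0.sub i1).const_mul _) (Eventually.of_forall fun x => ?_)
      have h4 : tupK ψ g x ≤ ψ (A.d x.1 x.2) :=
        hm (Real.iSup_le (fun i => (hg i).abs_le A.hd _ _) (A.hd.nonneg _ _))
      have h5 : -M ≤ tupK ψ g x := (abs_le.mp (b1 _)).1
      have h6 := (abs_le.mp (b1 (A.d x.1 x.2))).2
      simp only
      nlinarith
    rw [integral_const_mul, integral_sub i0 i1] at h3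
    linarith
  · refine ⟨(_, _), ⟨f, hf, rfl, rfl⟩, ?_⟩
    have i1 : Integrable (tupK ψ f) (A.P.prod A.P) :=
      F3_int (F3_meas hc fun i => (hf i).measurable A.hd) fun x => b1 _
    rw [integral_sub i0 i1] at h
    simp only
    nlinarith

/-- The clamp used for the kernels. -/
noncomputable def win (M D κ t : ℝ) : ℝ := max (-M) (min M ((t - D) / κ))

theorem F3_clamp (M x y : ℝ) : |max (-M) (min M x) - max (-M) (min M y)| ≤ |x - y| := by
  refine (abs_max_sub_max_le_max _ _ _ _).trans ?_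
  simp only [sub_self, abs_zero]
  refine max_le (abs_nonneg _) ((abs_min_sub_min_le_max _ _ _ _).trans ?_)
  simp

theorem F3_win_bd {M : ℝ} (hM : 0 ≤ M) (D κ t : ℝ) : |win M D κ t| ≤ M :=
  abs_le.mpr ⟨le_max_left _ _, max_le (by linarith) (min_le_left _ _)⟩

theorem F3_win_lip (M D : ℝ) {κ : ℝ} (hκ : 0 < κ) (s t : ℝ) :
    |win M D κ s - win M D κ t| ≤ 1 / κ * |s - t| := by
  refine (F3_clamp M _ _).trans (le_of_eq ?_)
  rw [← sub_div, abs_div, abs_of_pos hκ, sub_sub_sub_cancel_right]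
  ring

theorem F3_win_par {M : ℝ} (hM : 0 ≤ M) (D : ℝ) {κ κ' : ℝ} (hκ : 0 < κ) (h : κ ≤ κ') (t : ℝ) :
    |win M D κ t - win M D κ' t| ≤ M * ((κ' - κ) / κ) := by
  have hκ' : 0 < κ' := hκ.trans_le h
  have ha : 0 ≤ (κ' - κ) / κ := div_nonneg (by linarith) hκ.le
  have e : (t - D) / κ = (t - D) / κ' + (t - D) / κ' * ((κ' - κ) / κ) := by
    field_simp
    ring
  unfold win
  rw [e]
  generalize (t - D) / κ' = x
  generalize (κ' - κ) / κ = a at ha
  rcases le_total M x with h1 | h1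
  · rw [min_eq_left h1, min_eq_left (by nlinarith), sub_self, abs_zero]
    positivity
  rcases le_total x (-M) with h2 | h2
  · rw [max_eq_left ((min_le_right _ _).trans h2),
      max_eq_left ((min_le_right _ _).trans (by nlinarith)), sub_self, abs_zero]
    positivity
  refine (F3_clamp M _ _).trans ?_
  rw [add_sub_cancel_left, abs_mul, abs_of_nonneg ha]
  exact mul_le_mul_of_nonneg_right (abs_le.mpr ⟨h2, h1⟩) ha

theorem F3_win_near {M : ℝ} (hM : 0 ≤ M) (D : ℝ) {κ κ' ρ : ℝ} (hκ : 0 < κ) (hρ : ρ ≤ κ / 2)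
    (h : |κ - κ'| ≤ ρ) (t : ℝ) : |win M D κ t - win M D κ' t| ≤ M * (2 * ρ / κ) := by
  obtain ⟨h1, h2⟩ := abs_le.mp h
  have h0 : 0 ≤ ρ := (abs_nonneg _).trans h
  rcases le_total κ κ' with h3 | h3
  · refine (F3_win_par hM D hκ h3 t).trans (mul_le_mul_of_nonneg_left ?_ hM)
    exact div_le_div_of_nonneg_right (by linarith) hκ.le
  · have hκ' : 0 < κ' := by linarith
    rw [abs_sub_comm]
    refine (F3_win_par hM D hκ' h3 t).trans (mul_le_mul_of_nonneg_left ?_ hM)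
    rw [div_le_div_iff₀ hκ' hκ]
    nlinarith

theorem SC2_kerK (N : ℕ) {M : ℝ} (hM : 1 ≤ M) (D : ℝ) {κ : PM → ℝ} {A : PM} (h : SC0 κ A)
    (h0 : 0 < κ A) : SC2 (fun z => kerK N (win M D (κ z)) (2 * M) z) A := by
  intro δ hδ
  have hM0 : 0 ≤ M := by linarith
  have hφ : Continuous fun ρ : ℝ =>
      80 * M * (2 * (1 / κ A) * ρ + M * (2 * ρ / κ A) + 2 * M * √(2 * N * ρ)) := by fun_prop
  have e1 : ∀ᶠ ρ in 𝓝 (0 : ℝ),
      80 * M * (2 * (1 / κ A) * ρ + M * (2 * ρ / κ A) + 2 * M * √(2 * N * ρ)) < δ ^ 2 :=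
    hφ.continuousAt.eventually_lt continuousAt_const (by simpa using pow_pos hδ 2)
  have e2 : ∀ᶠ ρ in 𝓝 (0 : ℝ), ρ < κ A / 2 := eventually_lt_nhds (by positivity)
  obtain ⟨ρ, ⟨h1, h2⟩, h3⟩ :=
    (((e1.and e2).filter_mono nhdsWithin_le_nhds).and
      (self_mem_nhdsWithin (a := (0 : ℝ)) (s := Ioi 0))).exists
  obtain ⟨r, hr, h4⟩ := h ρ h3
  refine ⟨min r ρ, lt_min hr h3, fun A' s hs => ?_⟩
  have h5 := h4 A' s (hs.mono (min_le_left _ _))
  have h6 := kerK_stab (N := N) hM (K := 1 / κ A) (by positivity) (F3_win_bd hM0 D (κ A))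
    (F3_win_bd hM0 D (κ A')) (F3_win_lip M D h0) (by unfold win; fun_prop)
    (F3_win_near hM0 D h0 h2.le h5) s (hs.mono (min_le_right _ _))
  exact (pow_le_pow_iff_left₀ (norm_nonneg _) hδ.le two_ne_zero).mp (h6.trans h1.le)

end Pool.Agent.P.MP_de432b_gt.LC
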