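import Pool.Agent.P.MP_de432b_gt.LC.B7
import Pool.Agent.P.MP_de432b_gt.LC.F2
import Pool.Agent.P.MP_de432b_gt.LC.C3

namespace Pool.Agent.P.MP_de432b_gt.LC

open MeasureTheory Set Filter Topology
open scoped unitInterval RealInnerProductSpace

variable {A : PM} {κ : PM → ℝ} {u v : (A : PM) → Lp ℝ 2 A.P}
  {k l : (A : PM) → Lp ℝ 2 (A.P.prod A.P)} {S T : (A : PM) → Lp ℝ 2 A.P →L[ℝ] Lp ℝ 2 A.P}

theorem F4_one {b : Bool} {d e : (A' : PM) → Span A A' → ℝ} (hd : Small b A d)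
    (h : ∀ δ : ℝ, 0 < δ → ∃ η : ℝ, 0 < η ∧ ∀ A' s, d A' s ≤ η → e A' s ≤ δ) : Small b A e := by
  intro δ hδ
  obtain ⟨η, hη, h1⟩ := h δ hδ
  obtain ⟨r, hr, h2⟩ := hd η hη
  exact ⟨r, hr, fun A' s hs => h1 A' s (h2 A' s hs)⟩

theorem F4_two {b : Bool} {d d' e : (A' : PM) → Span A A' → ℝ} (hd : Small b A d)
    (hd' : Small b A d') (C : ℝ)
    (h : ∀ A' s (η : ℝ), 0 < η → η ≤ 1 → d A' s ≤ η → d' A' s ≤ η → e A' s ≤ C * η) :
    Small b A e := by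
  intro δ hδ
  have hC : 0 < |C| + 1 := by positivity
  have hη : 0 < min 1 (δ / (|C| + 1)) := lt_min one_pos (div_pos hδ hC)
  obtain ⟨r, hr, h1⟩ := hd _ hη
  obtain ⟨r', hr', h2⟩ := hd' _ hη
  refine ⟨min r r', lt_min hr hr', fun A' s hs => ?_⟩
  have h3 := h A' s _ hη (min_le_left _ _) (h1 A' s (hs.mono (min_le_left _ _)))
    (h2 A' s (hs.mono (min_le_right _ _)))
  have h4 : min 1 (δ / (|C| + 1)) ≤ δ / (|C| + 1) := min_le_right _ _
  rw [le_div_iff₀ hC] at h4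
  have h5 := mul_le_mul_of_nonneg_right (le_abs_self C) hη.le
  nlinarith

theorem F4_lip {b : Bool} {d e : (A' : PM) → Span A A' → ℝ} (hd : Small b A d) (C : ℝ)
    (h : ∀ A' s (η : ℝ), 0 < η → η ≤ 1 → d A' s ≤ η → e A' s ≤ C * η) : Small b A e :=
  F4_two hd hd C fun A' s η h0 h1 h2 _ => h A' s η h0 h1 h2

theorem F4_bil {X Y Z : Type} [NormedAddCommGroup X] [NormedAddCommGroup Y] [NormedAddCommGroup Z]
    (f : X → Y → Z) (hl : ∀ a a' c, f (a - a') c = f a c - f a' c)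
    (hr : ∀ a c c', f a (c - c') = f a c - f a c') (hn : ∀ a c, ‖f a c‖ ≤ ‖a‖ * ‖c‖)
    {a a' : X} {c c' : Y} {η : ℝ} (h1 : η ≤ 1) (ha : ‖a - a'‖ ≤ η) (hc : ‖c - c'‖ ≤ η) :
    ‖f a c - f a' c'‖ ≤ (‖a‖ + ‖c‖ + 1) * η := by
  have e : f a c - f a' c' = f (a - a') c + f a' (c - c') := by
    rw [hl, hr]
    abel
  have h2 : ‖a'‖ ≤ ‖a‖ + 1 := by
    have h3 : a' = a - (a - a') := by abel
    calc ‖a'‖ = ‖a - (a - a')‖ := congrArg _ h3
      _ ≤ ‖a‖ + ‖a - a'‖ := norm_sub_le _ _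
      _ ≤ ‖a‖ + 1 := by linarith
  have h4 := (hn (a - a') c).trans (mul_le_mul_of_nonneg_right ha (norm_nonneg _))
  have h5 := (hn a' (c - c')).trans
    (mul_le_mul h2 hc (norm_nonneg _) (by positivity))
  rw [e]
  refine (norm_add_le _ _).trans ?_
  linarith

theorem F4_cont {F : ℝ → ℝ} {K : ℝ} (hK : ∀ a a', |F a - F a'| ≤ K * |a - a'|) : Continuous F := by
  refine (LipschitzWith.of_dist_le' (K := K) fun a a' => ?_).continuous
  rw [Real.dist_eq, Real.dist_eq]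
  exact hK a a'

theorem F4_cont2 {F : ℝ → ℝ → ℝ} {K : ℝ}
    (hK : ∀ a b a' b', |F a b - F a' b'| ≤ K * (|a - a'| + |b - b'|)) :
    Continuous fun x : ℝ × ℝ => F x.1 x.2 := by
  refine (LipschitzWith.of_dist_le' (K := 2 * |K|) fun x y => ?_).continuous
  have h1 : |x.1 - y.1| ≤ dist x y := by
    rw [← Real.dist_eq, Prod.dist_eq]
    exact le_max_left _ _
  have h2 : |x.2 - y.2| ≤ dist x y := by
    rw [← Real.dist_eq, Prod.dist_eq]
    exact le_max_right _ _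
  rw [Real.dist_eq]
  refine (hK _ _ _ _).trans ?_
  have h3 := mul_le_mul_of_nonneg_right (le_abs_self K)
    (add_nonneg (abs_nonneg (x.1 - y.1)) (abs_nonneg (x.2 - y.2)))
  have h4 := mul_le_mul_of_nonneg_left (add_le_add h1 h2) (abs_nonneg K)
  linarith

theorem F4_le {K x η : ℝ} (hx : 0 ≤ x) (h : x ≤ η) : K * x ≤ |K| * η :=
  (mul_le_mul_of_nonneg_right (le_abs_self K) hx).trans
    (mul_le_mul_of_nonneg_left h (abs_nonneg K))

theorem F4_app {H K : Type} [NormedAddCommGroup H] [InnerProductSpace ℝ H] [CompleteSpace H]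
    [NormedAddCommGroup K] [InnerProductSpace ℝ K] [CompleteSpace K] (j : H →ₗᵢ[ℝ] K)
    (T : H →L[ℝ] H) (x : H) : j (T x) = conj j T (j x) := by
  rw [B3_conj_apply, B3_adj_apply]

theorem F4_sa {H K : Type} [NormedAddCommGroup H] [InnerProductSpace ℝ H] [CompleteSpace H]
    [NormedAddCommGroup K] [InnerProductSpace ℝ K] [CompleteSpace K] (j : H →ₗᵢ[ℝ] K)
    {T : H →L[ℝ] H} (h : IsSelfAdjoint T) : IsSelfAdjoint (conj j T) := by
  rw [ContinuousLinearMap.isSelfAdjoint_iff', ← conj_adjoint, h.adjoint_eq]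

theorem SC0.const (a : ℝ) : SC0 (fun _ => a) A := fun δ hδ =>
  ⟨1, one_pos, fun _ _ _ => by simpa using hδ.le⟩

theorem SC0.comp (h : SC0 κ A) {φ : ℝ → ℝ} (hφ : ContinuousAt φ (κ A)) :
    SC0 (fun z => φ (κ z)) A := by
  refine F4_one h fun δ hδ => ?_
  obtain ⟨η, hη, h1⟩ := Metric.continuousAt_iff.mp hφ δ hδ
  refine ⟨η / 2, half_pos hη, fun A' _ h2 => ?_⟩
  have h3 := h1 (x := κ A') (by rw [Real.dist_eq, abs_sub_comm]; linarith)
  rw [Real.dist_eq, abs_sub_comm] at h3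
  exact h3.le

theorem SC1.one : SC1 (fun z => oneL z.P) A := fun δ hδ =>
  ⟨1, one_pos, fun _ s _ => by
    show ‖pullL s.hl (oneL _) - pullL s.hr (oneL _)‖ ≤ δ
    rw [pullL_oneL, pullL_oneL, sub_self, norm_zero]
    exact hδ.le⟩

theorem SC1.smul (h : SC0 κ A) (hu : SC1 u A) : SC1 (fun z => κ z • u z) A := by
  refine F4_two h hu (‖κ A‖ + ‖u A‖ + 1) fun A' s η _ h1 h2 h3 => ?_
  show ‖pullL s.hl (κ A • u A) - pullL s.hr (κ A' • u A')‖ ≤ _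
  rw [map_smul, map_smul, ← (pullL s.hl).norm_map (u A)]
  exact F4_bil (fun (a : ℝ) (x : Lp ℝ 2 s.Q) => a • x) (fun _ _ _ => sub_smul _ _ _)
    (fun _ _ _ => smul_sub _ _ _) (fun _ _ => (norm_smul _ _).le) h1 h2 h3

theorem SC1.post (hu : SC1 u A) {F : ℝ → ℝ} {K M : ℝ} (hM : ∀ a, |F a| ≤ M)
    (hK : ∀ a a', |F a - F a'| ≤ K * |a - a'|) : SC1 (fun z => post F (u z)) A := by
  refine F4_lip hu |K| fun A' s η _ _ h2 => ?_
  show ‖pullL s.hl (LC.post F (u A)) - pullL s.hr (LC.post F (u A'))‖ ≤ _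
  rw [pullL_post s.hl (F4_cont hK) hM, pullL_post s.hr (F4_cont hK) hM]
  exact (norm_post_sub hM hK _ _).trans (F4_le (norm_nonneg _) h2)

theorem SC1.app (hT : SCo T A) (hu : SC1 u A) : SC1 (fun z => T z (u z)) A := by
  refine F4_two hT hu (‖T A‖ + ‖u A‖ + 1) fun A' s η _ h1 h2 h3 => ?_
  show ‖pullL s.hl (T A (u A)) - pullL s.hr (T A' (u A'))‖ ≤ _
  rw [F4_app, F4_app, ← (pullL s.hl).norm_map (u A), ← norm_conj (pullL s.hl) (T A)]
  exact F4_bil (fun (a : Lp ℝ 2 s.Q →L[ℝ] Lp ℝ 2 s.Q) (x : Lp ℝ 2 s.Q) => a x)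
    (fun _ _ _ => rfl) (fun a _ _ => map_sub a _ _) (fun a _ => a.le_opNorm _) h1 h2 h3

theorem SC2.post (hk : SC2 k A) {F : ℝ → ℝ} {K M : ℝ} (hM : ∀ a, |F a| ≤ M)
    (hK : ∀ a a', |F a - F a'| ≤ K * |a - a'|) : SC2 (fun z => post F (k z)) A := by
  refine F4_lip hk |K| fun A' s η _ _ h2 => ?_
  show ‖pullL (s.hl.prod s.hl) (LC.post F (k A)) - pullL (s.hr.prod s.hr) (LC.post F (k A'))‖ ≤ _
  rw [pullL_post (s.hl.prod s.hl) (F4_cont hK) hM, pullL_post (s.hr.prod s.hr) (F4_cont hK) hM]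
  exact (norm_post_sub hM hK _ _).trans (F4_le (norm_nonneg _) h2)

theorem SC2.post2 (hk : SC2 k A) (hl : SC2 l A) {F : ℝ → ℝ → ℝ} {K M : ℝ}
    (hM : ∀ a b, |F a b| ≤ M) (hK : ∀ a b a' b', |F a b - F a' b'| ≤ K * (|a - a'| + |b - b'|)) :
    SC2 (fun z => post2 F (k z) (l z)) A := by
  refine F4_two hk hl (|K| * 2) fun A' s η _ _ h2 h3 => ?_
  show ‖pullL (s.hl.prod s.hl) (LC.post2 F (k A) (l A)) -
    pullL (s.hr.prod s.hr) (LC.post2 F (k A') (l A'))‖ ≤ _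
  rw [pullL_post2 (s.hl.prod s.hl) (F4_cont2 hK) hM, pullL_post2 (s.hr.prod s.hr) (F4_cont2 hK) hM]
  refine (norm_post2_sub hM hK _ _ _ _).trans
    ((F4_le (add_nonneg (norm_nonneg _) (norm_nonneg _)) (add_le_add h2 h3)).trans_eq ?_)
  ring

theorem SC2.tens (hu : SC1 u A) (hv : SC1 v A) : SC2 (fun z => tens (u z) (v z)) A := by
  refine F4_two hu hv (‖u A‖ + ‖v A‖ + 1) fun A' s η _ h1 h2 h3 => ?_
  show ‖pullL (s.hl.prod s.hl) (LC.tens (u A) (v A)) -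
    pullL (s.hr.prod s.hr) (LC.tens (u A') (v A'))‖ ≤ _
  rw [pullL_tens s.hl, pullL_tens s.hr, ← (pullL s.hl).norm_map (u A), ← (pullL s.hl).norm_map (v A)]
  exact F4_bil (fun (a c : Lp ℝ 2 s.Q) => LC.tens a c) tens_sub_left tens_sub_right
    (fun _ _ => (norm_tens _ _).le) h1 h2 h3

theorem SCo.op (hk : SC2 k A) : SCo (fun z => opK (k z)) A := by
  refine F4_lip hk 1 fun A' s η _ _ h2 => ?_
  show ‖conj (pullL s.hl) (opK (k A)) - conj (pullL s.hr) (opK (k A'))‖ ≤ _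
  rw [← opK_pull, ← opK_pull, ← opK_sub, one_mul]
  exact (norm_opK_le _).trans h2

theorem SCo.add (hS : SCo S A) (hT : SCo T A) : SCo (fun z => S z + T z) A := by
  refine F4_two hS hT 2 fun A' s η _ _ h2 h3 => ?_
  show ‖conj (pullL s.hl) (S A + T A) - conj (pullL s.hr) (S A' + T A')‖ ≤ _
  rw [conj_add, conj_add, add_sub_add_comm]
  exact (norm_add_le _ _).trans ((add_le_add h2 h3).trans_eq (two_mul η).symm)

theorem SCo.sub (hS : SCo S A) (hT : SCo T A) : SCo (fun z => S z - T z) A := by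
  refine F4_two hS hT 2 fun A' s η _ _ h2 h3 => ?_
  show ‖conj (pullL s.hl) (S A - T A) - conj (pullL s.hr) (S A' - T A')‖ ≤ _
  rw [conj_sub, conj_sub, sub_sub_sub_comm]
  exact (norm_sub_le _ _).trans ((add_le_add h2 h3).trans_eq (two_mul η).symm)

theorem SCo.mul (hS : SCo S A) (hT : SCo T A) : SCo (fun z => S z * T z) A := by
  refine F4_two hS hT (‖S A‖ + ‖T A‖ + 1) fun A' s η _ h1 h2 h3 => ?_
  show ‖conj (pullL s.hl) (S A * T A) - conj (pullL s.hr) (S A' * T A')‖ ≤ _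
  rw [conj_mul, conj_mul, ← norm_conj (pullL s.hl) (S A), ← norm_conj (pullL s.hl) (T A)]
  exact F4_bil (fun (a c : Lp ℝ 2 s.Q →L[ℝ] Lp ℝ 2 s.Q) => a * c) (fun _ _ _ => sub_mul _ _ _)
    (fun _ _ _ => mul_sub _ _ _) (fun _ _ => norm_mul_le _ _) h1 h2 h3

theorem SCo.smul (h : SC0 κ A) (hT : SCo T A) : SCo (fun z => κ z • T z) A := by
  refine F4_two h hT (‖κ A‖ + ‖T A‖ + 1) fun A' s η _ h1 h2 h3 => ?_
  show ‖conj (pullL s.hl) (κ A • T A) - conj (pullL s.hr) (κ A' • T A')‖ ≤ _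
  rw [conj_smul, conj_smul, ← norm_conj (pullL s.hl) (T A)]
  exact F4_bil (fun (a : ℝ) (c : Lp ℝ 2 s.Q →L[ℝ] Lp ℝ 2 s.Q) => a • c)
    (fun _ _ _ => sub_smul _ _ _) (fun _ _ _ => smul_sub _ _ _)
    (fun _ _ => (norm_smul _ _).le) h1 h2 h3

theorem SCo.adjoint (hT : SCo T A) : SCo (fun z => ContinuousLinearMap.adjoint (T z)) A := by
  refine F4_lip hT 1 fun A' s η _ _ h2 => ?_
  show ‖conj (pullL s.hl) (ContinuousLinearMap.adjoint (T A)) -
    conj (pullL s.hr) (ContinuousLinearMap.adjoint (T A'))‖ ≤ _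
  rw [conj_adjoint, conj_adjoint, ← map_sub, LinearIsometryEquiv.norm_map, one_mul]
  exact h2

theorem SCo.rankOne (hu : SC1 u A) (hv : SC1 v A) :
    SCo (fun z => InnerProductSpace.rankOne ℝ (u z) (v z)) A := by
  refine F4_two hu hv (‖u A‖ + ‖v A‖ + 1) fun A' s η _ h1 h2 h3 => ?_
  show ‖conj (pullL s.hl) (InnerProductSpace.rankOne ℝ (u A) (v A)) -
    conj (pullL s.hr) (InnerProductSpace.rankOne ℝ (u A') (v A'))‖ ≤ _
  rw [conj_rankOne, conj_rankOne, ← (pullL s.hl).norm_map (u A), ← (pullL s.hl).norm_map (v A)]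
  exact F4_bil (fun (a c : Lp ℝ 2 s.Q) => InnerProductSpace.rankOne ℝ a c)
    (fun _ _ _ => by rw [map_sub]; rfl) (fun _ _ _ => map_sub _ _ _)
    (fun _ _ => (InnerProductSpace.norm_rankOne _ _).le) h1 h2 h3

theorem SCo.aeval (hT : SCo T A) {φ : Polynomial ℝ} (hφ : φ.coeff 0 = 0) :
    SCo (fun z => Polynomial.aeval (T z) φ) A := by
  refine F4_one hT fun δ hδ => ?_
  obtain ⟨η, hη, h1⟩ := aeval_uc φ ‖T A‖ hδ
  refine ⟨η, hη, fun A' s h2 => ?_⟩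
  show ‖conj (pullL s.hl) (Polynomial.aeval (T A) φ) -
    conj (pullL s.hr) (Polynomial.aeval (T A') φ)‖ ≤ _
  rw [conj_aeval _ _ hφ, conj_aeval _ _ hφ]
  exact h1 _ _ _ (norm_conj _ _).le h2

theorem SCo.Newt (hS : SCo S A) (hsa : ∀ z, IsSelfAdjoint (S z))
    (h : ‖S A * S A - S A‖ < 1 / 8) : SCo (fun z => Newt (S z)) A := by
  have hD : SCo (fun z => S z * S z - S z) A := (hS.mul hS).sub hS
  intro δ hδ
  obtain ⟨η, hη, h1⟩ := Newt_uc hδ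
  obtain ⟨r, hr, h2⟩ := hS η hη
  obtain ⟨r', hr', h3⟩ := hD _ (sub_pos.mpr h)
  refine ⟨min r r', lt_min hr hr', fun A' s hs => ?_⟩
  have h4 := h2 A' s (hs.mono (min_le_left _ _))
  have h5 : ‖conj (pullL s.hl) (S A * S A - S A) - conj (pullL s.hr) (S A' * S A' - S A')‖ ≤
      1 / 8 - ‖S A * S A - S A‖ := h3 A' s (hs.mono (min_le_right _ _))
  have h6 : ‖S A' * S A' - S A'‖ ≤ 1 / 8 := by
    have h7 := norm_sub_norm_le (conj (pullL s.hr) (S A' * S A' - S A'))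
      (conj (pullL s.hl) (S A * S A - S A))
    rw [norm_conj, norm_conj, norm_sub_rev (conj (pullL s.hr) (S A' * S A' - S A'))] at h7
    linarith
  show ‖conj (pullL s.hl) (LC.Newt (S A)) - conj (pullL s.hr) (LC.Newt (S A'))‖ ≤ δ
  rw [conj_Newt _ (hsa A) h.le, conj_Newt _ (hsa A') h6]
  refine h1 _ _ _ (F4_sa _ (hsa A)) (F4_sa _ (hsa A')) ?_ ?_ h4
  · rw [← conj_mul, ← conj_sub, norm_conj]
    exact h.le
  · rw [← conj_mul, ← conj_sub, norm_conj]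
    exact h6

end Pool.Agent.P.MP_de432b_gt.LC
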