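import Pool.Agent.P.MP_de432b_gt.LC.B4
import Pool.Agent.P.MP_de432b_gt.LC.F4
import Pool.Agent.P.MP_de432b_gt.LC.D1

namespace Pool.Agent.P.MP_de432b_gt.LC

open MeasureTheory Set Filter Topology
open scoped unitInterval RealInnerProductSpace

section
variable {m : ℕ} {Ω Ω' : Type} [MeasurableSpace Ω] [MeasurableSpace Ω'] {P : Measure Ω}
  [IsProbabilityMeasure P]

omit [IsProbabilityMeasure P] in
theorem F5_vec_apply (W : E m →L[ℝ] Lp ℝ 2 P) (p : Ω) (i : Fin m) :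
    vec W p i = W (EuclideanSpace.single i 1) p := by
  simp [vec, Pi.single_apply]

omit [IsProbabilityMeasure P] in
theorem F5_sum_ae (f : Fin m → Lp ℝ 2 P) (c : Fin m → ℝ) (s : Finset (Fin m)) :
    ∀ᵐ p ∂P, (∑ i ∈ s, c i • f i : Lp ℝ 2 P) p = ∑ i ∈ s, c i * f i p := by
  classical
  induction s using Finset.induction_on with
  | empty => filter_upwards [Lp.coeFn_zero ℝ 2 P] with p hp; simpa using hp
  | insert a s ha ih =>
    rw [Finset.sum_insert ha]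
    filter_upwards [ih, Lp.coeFn_add (c a • f a) (∑ i ∈ s, c i • f i), Lp.coeFn_smul (c a) (f a)]
      with p h1 h2 h3
    rw [Finset.sum_insert ha, h2, Pi.add_apply, h1, h3, Pi.smul_apply, smul_eq_mul]

omit [IsProbabilityMeasure P] in
theorem F5_inner (W : E m →L[ℝ] Lp ℝ 2 P) (x : E m) : ∀ᵐ p ∂P, ⟪vec W p, x⟫ = W x p := by
  have e : x = ∑ i, x i • EuclideanSpace.single i (1 : ℝ) := by
    ext j
    simp [Pi.single_apply]
  have e2 : W x = ∑ i, x i • W (EuclideanSpace.single i (1 : ℝ)) := by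
    conv_lhs => rw [e]
    simp only [map_sum, map_smul]
  filter_upwards [F5_sum_ae (fun i => W (EuclideanSpace.single i (1 : ℝ))) (fun i => x i)
    Finset.univ] with p hp
  rw [e2, hp, PiLp.inner_apply]
  refine Finset.sum_congr rfl fun i _ => ?_
  rw [F5_vec_apply]
  simp

omit [IsProbabilityMeasure P] in
theorem F5_eq {W : E m →L[ℝ] Lp ℝ 2 P} {g : Ω → E m} (h : ∀ x, ∀ᵐ p ∂P, W x p = ⟪g p, x⟫) :
    ∀ᵐ p ∂P, vec W p = g p := by
  filter_upwards [ae_all_iff.mpr fun i : Fin m => h (EuclideanSpace.single i (1 : ℝ))] with p hp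
  ext i
  rw [F5_vec_apply, hp i]
  simp [EuclideanSpace.inner_single_right]

theorem inner_vec_ae (W : E m →L[ℝ] Lp ℝ 2 P) (x : E m) : ∀ᵐ p ∂P, ⟪vec W p, x⟫ = W x p :=
  F5_inner W x

theorem vec_ae_eq {W : E m →L[ℝ] Lp ℝ 2 P} {g : Ω → E m} (h : ∀ x, ∀ᵐ p ∂P, W x p = ⟪g p, x⟫) :
    ∀ᵐ p ∂P, vec W p = g p := F5_eq h

theorem vec_comp (W : E m →L[ℝ] Lp ℝ 2 P) (M : E m →L[ℝ] E m) :
    ∀ᵐ p ∂P, vec (W ∘L M) p = ContinuousLinearMap.adjoint M (vec W p) := by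
  refine F5_eq fun x => ?_
  filter_upwards [F5_inner W (M x)] with p hp
  rw [ContinuousLinearMap.adjoint_inner_left, hp]
  rfl

theorem vec_pull {Q : Measure Ω'} {τ : Ω' → Ω} (h : MeasurePreserving τ Q P)
    (W : E m →L[ℝ] Lp ℝ 2 P) :
    ∀ᵐ p ∂Q, vec ((pullL h).toContinuousLinearMap ∘L W) p = vec W (τ p) := by
  refine F5_eq fun x => ?_
  filter_upwards [h.quasiMeasurePreserving.ae (F5_inner W x),
    Lp.coeFn_compMeasurePreserving (W x) h] with p h1 h2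
  rw [h1]
  exact h2

omit [IsProbabilityMeasure P] in
theorem F5_bd (W W' : E m →L[ℝ] Lp ℝ 2 P) : ∀ᵐ p ∂P, ‖vec W p - vec W' p‖ ≤
    ∑ i, |(W - W') (EuclideanSpace.single i (1 : ℝ)) p| := by
  filter_upwards [ae_all_iff.mpr fun i : Fin m => Lp.coeFn_sub (W (EuclideanSpace.single i (1 : ℝ)))
    (W' (EuclideanSpace.single i (1 : ℝ)))] with p hp
  rw [vec, vec, ← Finset.sum_sub_distrib]
  refine (norm_sum_le _ _).trans (Finset.sum_le_sum fun i _ => ?_)
  rw [← sub_smul, norm_smul, EuclideanSpace.norm_single, norm_one, mul_one, Real.norm_eq_abs,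
    ContinuousLinearMap.sub_apply, hp i, Pi.sub_apply]

theorem F5_int_sum (W : E m →L[ℝ] Lp ℝ 2 P) :
    Integrable (fun p => ∑ i, |W (EuclideanSpace.single i (1 : ℝ)) p|) P :=
  integrable_finset_sum _ fun _ _ => (F2_integrable _).abs

theorem F5_int (W W' : E m →L[ℝ] Lp ℝ 2 P) : Integrable (fun p => ‖vec W p - vec W' p‖) P :=
  (F5_int_sum (W - W')).mono'
    ((measurable_vec W).sub (measurable_vec W')).norm.aestronglyMeasurable
    (by simpa only [norm_norm] using F5_bd W W')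

theorem integral_vec_sub (W W' : E m →L[ℝ] Lp ℝ 2 P) :
    ∫ p, ‖vec W p - vec W' p‖ ∂P ≤ m * ‖W - W'‖ := by
  refine (integral_mono_ae (F5_int W W') (F5_int_sum (W - W')) (F5_bd W W')).trans ?_
  rw [integral_finset_sum _ fun _ _ => (F2_integrable _).abs]
  have h : ∀ i : Fin m, ∫ p, |(W - W') (EuclideanSpace.single i (1 : ℝ)) p| ∂P ≤ ‖W - W'‖ :=
    fun i => (integral_abs_le_norm _).trans (by
      simpa using (W - W').le_opNorm (EuclideanSpace.single i (1 : ℝ)))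
  refine (Finset.sum_le_sum fun i _ => h i).trans ?_
  simp

theorem clip_unitary (B : ℝ) (h : U m) (x : E m) :
    clip B ((h : E m →L[ℝ] E m) x) = (h : E m →L[ℝ] E m) (clip B x) := by
  rw [clip, clip, U.norm_app, map_smul]

theorem norm_clip_sub {B : ℝ} (hB : 0 ≤ B) (x y : E m) : ‖clip B x - clip B y‖ ≤ 2 * ‖x - y‖ := by
  rcases hB.eq_or_lt with h0 | h0
  · simp [clip, ← h0]
  have hx : 0 < max B ‖x‖ := lt_max_of_lt_left h0
  have hy : 0 < max B ‖y‖ := lt_max_of_lt_left h0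
  have e : clip B x - clip B y =
      (B / max B ‖x‖) • (x - y) + (B / max B ‖x‖ - B / max B ‖y‖) • y := by
    rw [clip, clip, smul_sub, sub_smul]
    abel
  have h1 : B / max B ‖x‖ ≤ 1 := (div_le_one hx).mpr (le_max_left _ _)
  have h2 : ‖y‖ / max B ‖y‖ ≤ 1 := (div_le_one hy).mpr (le_max_right _ _)
  have h3 : |max B ‖y‖ - max B ‖x‖| ≤ ‖x - y‖ := by
    refine (abs_max_sub_max_le_max _ _ _ _).trans (max_le (by simp) ?_)
    rw [norm_sub_rev]
    exact abs_norm_sub_norm_le _ _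
  have e2 : |B / max B ‖x‖ - B / max B ‖y‖| * ‖y‖ =
      B / max B ‖x‖ * (‖y‖ / max B ‖y‖) * |max B ‖y‖ - max B ‖x‖| := by
    have : B / max B ‖x‖ - B / max B ‖y‖ =
        B / max B ‖x‖ / max B ‖y‖ * (max B ‖y‖ - max B ‖x‖) := by field_simp
    rw [this, abs_mul, abs_of_nonneg (by positivity)]
    field_simp
  have h4 : B / max B ‖x‖ * (‖y‖ / max B ‖y‖) ≤ 1 := mul_le_one₀ h1 (by positivity) h2
  rw [e]
  refine (norm_add_le _ _).trans ?_
  rw [norm_smul, norm_smul, Real.norm_of_nonneg (by positivity), Real.norm_eq_abs, e2]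
  have h5 := mul_le_mul h4 h3 (abs_nonneg _) zero_le_one
  have h6 := mul_le_mul_of_nonneg_right h1 (norm_nonneg (x - y))
  linarith

theorem mdev_mkMarks {B : ℝ} (hB : 0 ≤ B) (W W' : E m →L[ℝ] Lp ℝ 2 P) (u u' : Lp ℝ 2 P) (h : U m) :
    mdev P (mkMarks hB W u) (mkMarks hB W' u') h ≤
      2 * m * ‖W ∘L (h : E m →L[ℝ] E m) - W'‖ + ‖u - u'‖ := by
  have i1 := (F5_int (W ∘L (h : E m →L[ℝ] E m)) W').const_mul 2
  have i2 : Integrable (fun p => |(u - u') p|) P := (F2_integrable _).abs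
  have key : mdev P (mkMarks hB W u) (mkMarks hB W' u') h ≤
      ∫ p, (2 * ‖vec (W ∘L (h : E m →L[ℝ] E m)) p - vec W' p‖ + |(u - u') p|) ∂P := by
    refine integral_mono_ae (integrable_mdev _ _ _) (i1.add i2) ?_
    filter_upwards [vec_comp W (h : E m →L[ℝ] E m), Lp.coeFn_sub u u'] with p h1 h2
    have e : vec W p = (h : E m →L[ℝ] E m) (vec (W ∘L (h : E m →L[ℝ] E m)) p) := by
      rw [h1]
      exact (congrArg (fun T : E m →L[ℝ] E m => T (vec W p)) (Unitary.mul_star_self_of_mem h.2)).symm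
    refine add_le_add ?_ ?_
    · show ‖clip B (vec W p) - (h : E m →L[ℝ] E m) (clip B (vec W' p))‖ ≤ _
      rw [e, clip_unitary, ← map_sub, U.norm_app]
      exact norm_clip_sub hB _ _
    · show |cl01 (1 - u p) - cl01 (1 - u' p)| ≤ _
      refine (abs_cl01_sub _ _).trans (le_of_eq ?_)
      rw [h2, Pi.sub_apply, abs_sub_comm]
      congr 1
      ring
  rw [integral_add i1 i2, integral_const_mul] at key
  have h1 := integral_vec_sub (W ∘L (h : E m →L[ℝ] E m)) W'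
  have h2 := integral_abs_le_norm (u - u')
  linarith

end

variable {m : ℕ} {B : ℝ} {u : (A : PM) → Lp ℝ 2 A.P}
  {S F : (A : PM) → Lp ℝ 2 A.P →L[ℝ] Lp ℝ 2 A.P}

theorem read_sc (hB : 0 ≤ B) {A : PM} (hS : SCo S A) (hF : SCo F A) (hu : SC1 u A)
    (hsa : ∀ z, IsSelfAdjoint (S z)) (h : ‖S A * S A - S A‖ < 1 / 8)
    (hV : ∃ V : E m →L[ℝ] Lp ℝ 2 A.P, IsFrame V (Newt (S A))) :
    SC false (fun z => mkMarks hB (F z ∘L frame m (Newt (S z))) (u z)) A := by
  intro δ hδ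
  obtain ⟨V₀, hV₀⟩ := hV
  have hV := hV₀.frame
  set V := frame m (Newt (S A)) with hVd
  have hC : 0 < 2 * m * (‖F A‖ + 1) + 1 := by positivity
  set δ₁ := δ / (2 * m * (‖F A‖ + 1) + 1) with hδ₁
  have h1 : 0 < δ₁ := div_pos hδ hC
  obtain ⟨η, hη, hfr⟩ := frame_uc m h1
  obtain ⟨r₁, hr₁, g1⟩ := hS.Newt hsa h (min η (1 / 2)) (lt_min hη (by norm_num))
  obtain ⟨r₂, hr₂, g2⟩ := ((hS.mul hS).sub hS) _ (sub_pos.mpr h)
  obtain ⟨r₃, hr₃, g3⟩ := hF δ₁ h1
  obtain ⟨r₄, hr₄, g4⟩ := hu δ₁ h1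
  refine ⟨min (min r₁ r₂) (min r₃ r₄), lt_min (lt_min hr₁ hr₂) (lt_min hr₃ hr₄),
    fun A' s hs => ?_⟩
  have k1 : ‖conj (pullL s.hl) (Newt (S A)) - conj (pullL s.hr) (Newt (S A'))‖ ≤ min η (1 / 2) :=
    g1 A' s (hs.mono ((min_le_left _ _).trans (min_le_left _ _)))
  have k2 : ‖conj (pullL s.hl) (S A * S A - S A) - conj (pullL s.hr) (S A' * S A' - S A')‖ ≤
      1 / 8 - ‖S A * S A - S A‖ := g2 A' s (hs.mono ((min_le_left _ _).trans (min_le_right _ _)))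
  have k3 : ‖conj (pullL s.hl) (F A) - conj (pullL s.hr) (F A')‖ ≤ δ₁ :=
    g3 A' s (hs.mono ((min_le_right _ _).trans (min_le_left _ _)))
  have k4 : ‖pullL s.hl (u A) - pullL s.hr (u A')‖ ≤ δ₁ :=
    g4 A' s (hs.mono ((min_le_right _ _).trans (min_le_right _ _)))
  have h6 : ‖S A' * S A' - S A'‖ ≤ 1 / 8 := by
    have h7 := norm_sub_norm_le (conj (pullL s.hr) (S A' * S A' - S A'))
      (conj (pullL s.hl) (S A * S A - S A))
    rw [norm_conj, norm_conj, norm_sub_rev (conj (pullL s.hr) (S A' * S A' - S A'))] at h7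
    linarith
  obtain ⟨n1, n2, -, -⟩ := Newt_spec (hsa A') h6
  obtain ⟨V₁, hV₁⟩ := (hV.map (pullL s.hl)).of_near (pullL s.hr) n1 n2
    (by linarith [min_le_right η (1 / 2 : ℝ)])
  have hV' := hV₁.frame
  set V' := frame m (Newt (S A')) with hVd'
  obtain ⟨g, hg⟩ := hfr _ _ _ _ _ (hV.map (pullL s.hl)) (hV'.map (pullL s.hr))
    (k1.trans (min_le_left _ _))
  refine ⟨g, ?_⟩
  have e : s.mdev (mkMarks hB (F A ∘L V) (u A)) (mkMarks hB (F A' ∘L V') (u A')) g =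
      mdev s.Q (mkMarks hB ((pullL s.hl).toContinuousLinearMap ∘L (F A ∘L V)) (pullL s.hl (u A)))
        (mkMarks hB ((pullL s.hr).toContinuousLinearMap ∘L (F A' ∘L V')) (pullL s.hr (u A'))) g := by
    refine mdev_congr g ?_ ?_
    · filter_upwards [vec_pull s.hl (F A ∘L V), pullL_ae s.hl (u A)] with p p1 p2
      exact ⟨congrArg (clip B) p1.symm, congrArg (fun t => cl01 (1 - t)) p2.symm⟩
    · filter_upwards [vec_pull s.hr (F A' ∘L V'), pullL_ae s.hr (u A')] with p p1 p2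
      exact ⟨congrArg (clip B) p1.symm, congrArg (fun t => cl01 (1 - t)) p2.symm⟩
  refine e.trans_le ((mdev_mkMarks hB _ _ _ _ g).trans ?_)
  have e2 : ((pullL s.hl).toContinuousLinearMap ∘L (F A ∘L V)) ∘L (g : E m →L[ℝ] E m) -
      (pullL s.hr).toContinuousLinearMap ∘L (F A' ∘L V') =
      conj (pullL s.hl) (F A) ∘L
        (((pullL s.hl).toContinuousLinearMap ∘L V) ∘L (g : E m →L[ℝ] E m) -
          (pullL s.hr).toContinuousLinearMap ∘L V') +
      (conj (pullL s.hl) (F A) - conj (pullL s.hr) (F A')) ∘L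
        ((pullL s.hr).toContinuousLinearMap ∘L V') := by
    ext1 x
    simp only [ContinuousLinearMap.sub_apply, ContinuousLinearMap.add_apply,
      ContinuousLinearMap.comp_apply, LinearIsometry.coe_toContinuousLinearMap, map_sub]
    rw [← F4_app, ← F4_app (pullL s.hr)]
    abel
  have n3 : ‖(pullL s.hr).toContinuousLinearMap ∘L V'‖ ≤ 1 :=
    ContinuousLinearMap.opNorm_le_bound _ zero_le_one fun x => by
      rw [(hV'.map (pullL s.hr)).proj.2.2.2 x, one_mul]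
  have b1 := (conj (pullL s.hl) (F A)).opNorm_comp_le
    (((pullL s.hl).toContinuousLinearMap ∘L V) ∘L (g : E m →L[ℝ] E m) -
      (pullL s.hr).toContinuousLinearMap ∘L V')
  have b2 := (conj (pullL s.hl) (F A) - conj (pullL s.hr) (F A')).opNorm_comp_le
    ((pullL s.hr).toContinuousLinearMap ∘L V')
  rw [norm_conj] at b1
  have b3 := mul_le_mul_of_nonneg_left hg (norm_nonneg (F A))
  have b4 := mul_le_mul k3 n3 (norm_nonneg _) h1.le
  have b5 : ‖((pullL s.hl).toContinuousLinearMap ∘L (F A ∘L V)) ∘L (g : E m →L[ℝ] E m) -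
      (pullL s.hr).toContinuousLinearMap ∘L (F A' ∘L V')‖ ≤ (‖F A‖ + 1) * δ₁ := by
    rw [e2]
    refine (norm_add_le _ _).trans ?_
    linarith
  have b6 := mul_le_mul_of_nonneg_left b5 (show (0 : ℝ) ≤ 2 * m by positivity)
  have b7 : (2 * m * (‖F A‖ + 1) + 1) * δ₁ = δ := by
    rw [hδ₁]
    field_simp
  linarith

theorem read_near {A : PM} (hS : SCo S A) (hsa : ∀ z, IsSelfAdjoint (S z))
    {V : E m →L[ℝ] Lp ℝ 2 A.P} {P : Lp ℝ 2 A.P →L[ℝ] Lp ℝ 2 A.P} (hV : IsFrame V P)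
    (h : ‖S A - P‖ ≤ 1 / 50) : ∃ ρ : ℝ, 0 < ρ ∧ ∀ z, DD false A z < ρ →
      ‖S z * S z - S z‖ < 1 / 8 ∧ ∃ V' : E m →L[ℝ] Lp ℝ 2 z.P, IsFrame V' (Newt (S z)) := by
  obtain ⟨r, hr, g⟩ := hS (1 / 200) (by norm_num)
  refine ⟨r, hr, fun z hz => ?_⟩
  obtain ⟨s, hs⟩ := exists_span hz
  have k : ‖conj (pullL s.hl) (S A) - conj (pullL s.hr) (S z)‖ ≤ 1 / 200 := g z s hs
  have hV' := hV.map (pullL s.hl)
  have k1 : ‖conj (pullL s.hl) (S A) - conj (pullL s.hl) P‖ ≤ 1 / 50 := by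
    rw [← conj_sub, norm_conj]
    exact h
  have k2 : ‖conj (pullL s.hr) (S z) - conj (pullL s.hl) P‖ ≤ 1 / 40 := by
    have := norm_sub_le_norm_sub_add_norm_sub (conj (pullL s.hr) (S z)) (conj (pullL s.hl) (S A))
      (conj (pullL s.hl) P)
    rw [norm_sub_rev] at k
    linarith
  have k3 := defect_le hV'.proj.1 hV'.proj.2.1 k2 (by norm_num)
  rw [← conj_mul, ← conj_sub, norm_conj] at k3
  obtain ⟨n1, n2, n3, -⟩ := Newt_spec (hsa z) (by linarith)
  refine ⟨by linarith, hV'.of_near (pullL s.hr) n1 n2 ?_⟩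
  have k4 : ‖conj (pullL s.hr) (S z) - conj (pullL s.hr) (Newt (S z))‖ ≤ 3 / 10 := by
    rw [← conj_sub, norm_conj, norm_sub_rev]
    linarith
  have := norm_sub_le_norm_sub_add_norm_sub (conj (pullL s.hl) P) (conj (pullL s.hr) (S z))
    (conj (pullL s.hr) (Newt (S z)))
  rw [norm_sub_rev] at k2
  linarith

end Pool.Agent.P.MP_de432b_gt.LC
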