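import Pool.Agent.P.MP_de432b_gt.LC.F3
import Pool.Agent.P.MP_de432b_gt.LC.F5
import Pool.Agent.P.MP_de432b_gt.LC.C8

namespace Pool.Agent.P.MP_de432b_gt.LC

open MeasureTheory Set Filter Topology
open scoped unitInterval RealInnerProductSpace

/-- The signal cut-off. -/
noncomputable def th2 (M a : ℝ) : ℝ := cl01 (M - |a|)

/-- The signal. -/
noncomputable def th1 (M a : ℝ) : ℝ := a * th2 M a

section
variable {Ω : Type} [MeasurableSpace Ω] {P : Measure Ω} [IsProbabilityMeasure P]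

/-- The antenna indicator read from a kernel. -/
noncomputable def chiOf (M : ℝ) (k : Lp ℝ 2 (P.prod P)) : Lp ℝ 2 P :=
  post (fun t => cl01 (2 * t - 1 / 2)) (opK (post (th2 M) k) (oneL P))

/-- The keep weight read from a kernel. -/
noncomputable def uOf (M κ : ℝ) (k : Lp ℝ 2 (P.prod P)) : Lp ℝ 2 P :=
  κ⁻¹ • opK (post (th1 M) k) (chiOf M k)

/-- The centred signal operator read from a kernel. -/
noncomputable def fOf (M κ : ℝ) (k : Lp ℝ 2 (P.prod P)) : Lp ℝ 2 P →L[ℝ] Lp ℝ 2 P :=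
  (√κ)⁻¹ • (opK (post2 (fun a b => th1 M a * cl01 b) k (tens (oneL P) (chiOf M k))) -
    InnerProductSpace.rankOne ℝ (uOf M κ k) (chiOf M k))

/-- The operator from Euclidean space given by a vector-valued function. -/
noncomputable def inL {m : ℕ} (P : Measure Ω) (φ : Ω → E m) : E m →L[ℝ] Lp ℝ 2 P :=
  Classical.epsilon fun W => ∀ x, W x =ᵐ[P] fun p => ⟪φ p, x⟫

end

/-- The window kernel at level `20 L`. -/
noncomputable def rK (N : ℕ) (M L : ℝ) (z : PM) : Lp ℝ 2 (z.P.prod z.P) :=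
  kerK N (win M (20 * L) (Gam (3 * L) z)) (2 * M) z

/-- The keep weight of the reader. -/
noncomputable def rU (N : ℕ) (M L : ℝ) (z : PM) : Lp ℝ 2 z.P := uOf M (Gam (3 * L) z) (rK N M L z)

/-- The signal operator of the reader. -/
noncomputable def rF (N : ℕ) (M L : ℝ) (z : PM) : Lp ℝ 2 z.P →L[ℝ] Lp ℝ 2 z.P :=
  fOf M (Gam (3 * L) z) (rK N M L z)

/-- The approximate projection of the reader. -/
noncomputable def rS (N : ℕ) (M L : ℝ) (z : PM) : Lp ℝ 2 z.P →L[ℝ] Lp ℝ 2 z.P :=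
  ContinuousLinearMap.adjoint (rF N M L z) * rF N M L z

/-- The reader. -/
noncomputable def reader (m : ℕ) {B : ℝ} (hB : 0 ≤ B) (N : ℕ) (M L : ℝ) : Gauge m B :=
  fun z => mkMarks hB (rF N M L z ∘L frame m (Newt (rS N M L z))) (rU N M L z)

/-- The abstract description of a tagged space. -/
structure IsTag {m : ℕ} (B Bn L ζ : ℝ) (Z : PM) (S : Set Z.Ω) (μ : Marks m B Z.Ω)
    (α : Z.Ω → E m) : Prop where
  hS : MeasurableSet S
  mass : Z.P.real S = ζ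
  hα : Measurable α
  bα : ∀ p, ‖α p‖ ≤ Bn
  kill : ∀ p ∈ S, μ.g p = 0 ∧ μ.c p = 1
  cross : ∀ p ∉ S, ∀ q ∈ S, Z.d p q = 20 * L + ζ * (⟪α q, μ.g p⟫ + (1 - μ.c p))
  same : ∀ p q, (p ∈ S ↔ q ∈ S) → Z.d p q ≤ 3 * L
  ant : ∀ p ∈ S, ∀ q ∈ S, Z.d p q ≤ ζ * (B * ‖α p - α q‖)
  mean : ∀ u : E m, ∫ p in S, ⟪α p, u⟫ ∂Z.P = 0
  cov : ∀ u v : E m, ∫ p in S, ⟪α p, u⟫ * ⟪α p, v⟫ ∂Z.P = ζ * ⟪u, v⟫
  small : ζ * ((B + 1) * (Bn + 1)) ≤ 1 / 100

end Pool.Agent.P.MP_de432b_gt.LC
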