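import Pool.Agent.P.MP_de432b_gt.LC.G0

namespace Pool.Agent.P.MP_de432b_gt.LC

open MeasureTheory Set Filter Topology
open scoped unitInterval RealInnerProductSpace

theorem G1_cl (t : ℝ) : |cl01 t| ≤ 1 :=
  abs_le.mpr ⟨by linarith [(cl01_mem t).1], (cl01_mem t).2⟩

theorem G1_th2_zero {M a : ℝ} (h : M < |a|) : th2 M a = 0 := by
  unfold th2 cl01
  exact max_eq_left ((min_le_right _ _).trans (by linarith))

theorem G1_th2_sub (M a a' : ℝ) : |th2 M a - th2 M a'| ≤ |a - a'| := by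
  refine (abs_cl01_sub _ _).trans ?_
  rw [sub_sub_sub_cancel_left, abs_sub_comm]
  exact abs_abs_sub_abs_le_abs_sub _ _

theorem G1_th1_sub {M a : ℝ} (h : |a| ≤ M) (a' : ℝ) :
    |th1 M a - th1 M a'| ≤ (M + 1) * |a - a'| := by
  have e : th1 M a - th1 M a' = a * (th2 M a - th2 M a') + (a - a') * th2 M a' := by
    unfold th1
    ring
  rw [e]
  refine (abs_add_le _ _).trans ?_
  rw [abs_mul, abs_mul]
  have h1 := mul_le_mul h (G1_th2_sub M a a') (abs_nonneg _) ((abs_nonneg _).trans h)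
  have h2 : |a - a'| * |th2 M a'| ≤ |a - a'| * 1 :=
    mul_le_mul_of_nonneg_left (G1_cl _) (abs_nonneg _)
  linarith

theorem abs_th1_le {M : ℝ} (hM : 0 ≤ M) (a : ℝ) : |th1 M a| ≤ M := by
  unfold th1
  rcases le_or_gt |a| M with h | h
  · rw [abs_mul]
    have h2 : |a| * |th2 M a| ≤ |a| * 1 := mul_le_mul_of_nonneg_left (G1_cl _) (abs_nonneg _)
    linarith
  · rw [G1_th2_zero h, mul_zero, abs_zero]
    exact hM

theorem abs_th1_sub {M : ℝ} (hM : 0 ≤ M) (a a' : ℝ) : |th1 M a - th1 M a'| ≤ (M + 1) * |a - a'| :=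
  by
  rcases le_or_gt |a| M with h | h
  · exact G1_th1_sub h a'
  rcases le_or_gt |a'| M with h' | h'
  · rw [abs_sub_comm, abs_sub_comm a]
    exact G1_th1_sub h' a
  · simp only [th1, G1_th2_zero h, G1_th2_zero h', mul_zero, sub_self, abs_zero]
    positivity

theorem abs_th2_sub (M a a' : ℝ) : |th2 M a - th2 M a'| ≤ |a - a'| := G1_th2_sub M a a'

theorem inL_ae {m : ℕ} {Ω : Type} [MeasurableSpace Ω] {P : Measure Ω} [IsProbabilityMeasure P]
    {φ : Ω → E m} (hφ : Measurable φ) {C : ℝ} (hC : ∀ p, ‖φ p‖ ≤ C) (x : E m) :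
    inL P φ x =ᵐ[P] fun p => ⟪φ p, x⟫ := by
  have hm : ∀ x : E m, MemLp (fun p => ⟪φ p, x⟫) 2 P := fun x =>
    memLp_of_bd (hφ.inner_const (𝕜 := ℝ)).aestronglyMeasurable (M := C * ‖x‖)
      (Eventually.of_forall fun p => (abs_real_inner_le_norm _ _).trans
        (mul_le_mul_of_nonneg_right (hC p) (norm_nonneg _)))
  let W : E m →ₗ[ℝ] Lp ℝ 2 P :=
    { toFun := fun x => (hm x).toLp _
      map_add' := fun x y => by
        refine Lp.ext ?_
        filter_upwards [(hm (x + y)).coeFn_toLp, (hm x).coeFn_toLp, (hm y).coeFn_toLp,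
          Lp.coeFn_add ((hm x).toLp _) ((hm y).toLp _)] with p h1 h2 h3 h4
        rw [h1, h4, Pi.add_apply, h2, h3, inner_add_right]
      map_smul' := fun c x => by
        refine Lp.ext ?_
        filter_upwards [(hm (c • x)).coeFn_toLp, (hm x).coeFn_toLp,
          Lp.coeFn_smul c ((hm x).toLp _)] with p h1 h2 h3
        rw [h1, RingHom.id_apply, h3, Pi.smul_apply, h2, real_inner_smul_right, smul_eq_mul] }
  have hex : ∃ W : E m →L[ℝ] Lp ℝ 2 P, ∀ x, W x =ᵐ[P] fun p => ⟪φ p, x⟫ :=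
    ⟨LinearMap.toContinuousLinearMap W, fun x => (hm x).coeFn_toLp⟩
  exact Classical.epsilon_spec hex x

theorem reader_fields (N : ℕ) {M L : ℝ} (hM : 1 ≤ M) (hL : 1 ≤ L) {A : PM}
    (h : 0 < Gam (3 * L) A) : SC1 (rU N M L) A ∧ SCo (rF N M L) A ∧ SCo (rS N M L) A := by
  have hM0 : 0 ≤ M := by linarith
  have hκ : SC0 (Gam (3 * L)) A := fun δ hδ =>
    ⟨δ / 2, by positivity, fun A' s hs => (Gam_span (by linarith) s hs).trans (by linarith)⟩
  have hK : SC2 (rK N M L) A := SC2_kerK N hM (20 * L) hκ h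
  have h2 : SC2 (fun z => post (th2 M) (rK N M L z)) A :=
    hK.post (K := 1) (M := 1) (fun a => G1_cl _) (fun a a' => by
      rw [one_mul]
      exact abs_th2_sub M a a')
  have h1 : SC2 (fun z => post (th1 M) (rK N M L z)) A :=
    hK.post (abs_th1_le hM0) (abs_th1_sub hM0)
  have hχ : SC1 (fun z => chiOf M (rK N M L z)) A :=
    (SC1.app (SCo.op h2) SC1.one).post (F := fun t => cl01 (2 * t - 1 / 2)) (K := 2) (M := 1)
      (fun a => G1_cl _) (fun a a' => (abs_cl01_sub _ _).trans (by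
        rw [sub_sub_sub_cancel_right, ← mul_sub, abs_mul, abs_two]))
  have hu : SC1 (rU N M L) A :=
    SC1.smul (hκ.comp (φ := fun t => t⁻¹) (continuousAt_inv₀ h.ne')) (SC1.app (SCo.op h1) hχ)
  have h3 : SC2 (fun z => post2 (fun a b => th1 M a * cl01 b) (rK N M L z)
      (tens (oneL z.P) (chiOf M (rK N M L z)))) A := by
    refine hK.post2 (SC2.tens SC1.one hχ) (K := M + 1) (M := M) (fun a b => ?_)
      (fun a b a' b' => ?_)
    · rw [abs_mul]
      have := mul_le_mul (abs_th1_le hM0 a) (G1_cl b) (abs_nonneg _) hM0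
      linarith
    · rw [show th1 M a * cl01 b - th1 M a' * cl01 b' =
        (th1 M a - th1 M a') * cl01 b + th1 M a' * (cl01 b - cl01 b') by ring]
      refine (abs_add_le _ _).trans ?_
      rw [abs_mul, abs_mul]
      have e1 := mul_le_mul (abs_th1_sub hM0 a a') (G1_cl b) (abs_nonneg _) (by positivity)
      have e2 := mul_le_mul (abs_th1_le hM0 a') (abs_cl01_sub b b') (abs_nonneg _) hM0
      have e3 := abs_nonneg (b - b')
      linarith
  have hF : SCo (rF N M L) A :=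
    SCo.smul (hκ.comp (φ := fun t => (√t)⁻¹)
      (Real.continuous_sqrt.continuousAt.inv₀ (Real.sqrt_pos.mpr h).ne'))
      ((SCo.op h3).sub (SCo.rankOne hu hχ))
  exact ⟨hu, hF, hF.adjoint.mul hF⟩

theorem G1_sa (N : ℕ) (M L : ℝ) (z : PM) : IsSelfAdjoint (rS N M L z) := by
  rw [rS, ← ContinuousLinearMap.star_eq_adjoint]
  exact IsSelfAdjoint.star_mul_self _

theorem reader_sc {m : ℕ} {B : ℝ} (hB : 0 ≤ B) (N : ℕ) {M L : ℝ} (hM : 1 ≤ M) (hL : 1 ≤ L) {Z : PM}
    (h : 0 < Gam (3 * L) Z) {V : E m →L[ℝ] Lp ℝ 2 Z.P} {P : Lp ℝ 2 Z.P →L[ℝ] Lp ℝ 2 Z.P}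
    (hV : IsFrame V P) (hP : ‖rS N M L Z - P‖ ≤ 1 / 50) :
    ∃ ρ : ℝ, 0 < ρ ∧ ∀ z, DD false Z z < ρ → SC false (reader m hB N M L) z := by
  obtain ⟨ρ, hρ, h1⟩ := read_near (reader_fields N hM hL h).2.2 (G1_sa N M L) hV hP
  refine ⟨min ρ (Gam (3 * L) Z / 2), lt_min hρ (by linarith), fun z hz => ?_⟩
  obtain ⟨h2, h3⟩ := h1 z (hz.trans_le (min_le_left _ _))
  have h4 : 0 < Gam (3 * L) z := by
    have h5 := (abs_le.mp (Gam_lip (a := 3 * L) (by linarith) false Z z)).2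
    have h6 := hz.trans_le (min_le_right _ _)
    linarith
  obtain ⟨hu, hF, hS⟩ := reader_fields N hM hL h4
  exact read_sc hB hS hF hu (G1_sa N M L) h2 h3

theorem G1_small {m : ℕ} {B Bn L ζ : ℝ} {Z : PM} {S : Set Z.Ω} {μ : Marks m B Z.Ω}
    {α : Z.Ω → E m} (h : IsTag B Bn L ζ Z S μ α) :
    0 ≤ B ∧ 0 ≤ Bn ∧ 0 ≤ ζ ∧ ζ ≤ 1 / 100 ∧ ζ * (B * Bn) ≤ 1 / 100 := by
  obtain ⟨p⟩ := nonempty_of_isProbabilityMeasure Z.P
  have hB : 0 ≤ B := (norm_nonneg _).trans (μ.bg p)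
  have hBn : 0 ≤ Bn := (norm_nonneg _).trans (h.bα p)
  have hζ : 0 ≤ ζ := h.mass ▸ measureReal_nonneg
  have h1 := h.small
  have h2 := mul_nonneg hζ hB
  have h3 := mul_nonneg hζ hBn
  have h4 := mul_nonneg h2 hBn
  refine ⟨hB, hBn, hζ, by nlinarith, by nlinarith⟩

theorem IsTag.gam {m : ℕ} {B Bn L ζ : ℝ} (hL : 1 ≤ L) {Z : PM} {S : Set Z.Ω} {μ : Marks m B Z.Ω}
    {α : Z.Ω → E m} (h : IsTag B Bn L ζ Z S μ α) : Gam (3 * L) Z = ζ := by
  obtain ⟨hB, hBn, hζ, h1, h2⟩ := G1_small h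
  have ha : 0 < 3 * L := by linarith
  apply le_antisymm
  · have := Gam_le ha Z h.hS.compl (fun p hp q hq => h.same p q (iff_of_false hp hq))
    rwa [compl_compl, h.mass] at this
  have hi : ∫ p, S.indicator (fun _ => (1 : ℝ)) p ∂Z.P = ζ := by
    rw [integral_indicator_const _ h.hS, h.mass, smul_eq_mul, mul_one]
  have cross : ∀ p ∉ S, ∀ q ∈ S, 12 * L ≤ Z.d p q := by
    intro p hp q hq
    have e1 : |⟪α q, μ.g p⟫| ≤ Bn * B :=
      (abs_real_inner_le_norm _ _).trans (mul_le_mul (h.bα _) (μ.bg _) (norm_nonneg _) hBn)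
    have e2 : -(Bn * B) ≤ ⟪α q, μ.g p⟫ + (1 - μ.c p) := by
      linarith [(abs_le.mp e1).1, (μ.bc p).2]
    have e3 := mul_le_mul_of_nonneg_left e2 hζ
    rw [h.cross p hp q hq]
    linarith
  rw [← hi]
  refine Gam_ge ha Z (measurable_const.indicator h.hS) (fun p => ?_)
    (Eventually.of_forall fun p => ?_) (by linarith) (fun p q => ?_)
  · by_cases hp : p ∈ S <;> simp [hp]
  · by_cases hp : p ∈ S <;> simp [hp]
  · have h0 := Z.hd.nonneg p q
    by_cases hp : p ∈ S <;> by_cases hq : q ∈ S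
    · simpa [hp, hq] using h0
    · have := cross q hq p hp
      rw [Z.hd.symm] at this
      simp only [indicator_of_mem hp, indicator_of_notMem hq, sub_zero, abs_one]
      linarith
    · have := cross p hp q hq
      simp only [indicator_of_mem hq, indicator_of_notMem hp, zero_sub, abs_neg, abs_one]
      linarith
    · simpa [hp, hq] using h0

theorem G1_win_mono (M D : ℝ) {κ : ℝ} (hκ : 0 < κ) : Monotone (win M D κ) := fun _ _ h =>
  max_le_max le_rfl (min_le_min le_rfl (div_le_div_of_nonneg_right (by linarith) hκ.le))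

theorem G1_win_drop (M D : ℝ) {κ : ℝ} (hκ : 0 < κ) {s t c : ℝ} (hc : 0 ≤ c) (h : s - κ * c ≤ t) :
    win M D κ s - win M D κ t ≤ c := by
  have h1 := G1_win_mono M D hκ h
  have h2 := (le_abs_self _).trans (F3_win_lip M D hκ s (s - κ * c))
  rw [sub_sub_cancel, abs_of_nonneg (by positivity), one_div, inv_mul_cancel_left₀ hκ.ne'] at h2
  linarith

theorem tag_kernel (m : ℕ) {B Bn : ℝ} (hB : 0 ≤ B) (hBn : 0 ≤ Bn) {η : ℝ} (hη : 0 < η) :
    ∃ N : ℕ, ∀ (L ζ : ℝ) (Z : PM) (S : Set Z.Ω) (μ : Marks m B Z.Ω) (α : Z.Ω → E m), 1 ≤ L →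
      0 < ζ → IsTag B Bn L ζ Z S μ α →
      ‖rK N (B * Bn + 2) L Z - toL2 (Z.P.prod Z.P)
        (fun x => win (B * Bn + 2) (20 * L) ζ (Z.d x.1 x.2))‖ ≤ η * √ζ := by
  classical
  have hBB := mul_nonneg hB hBn
  obtain ⟨τ, hτ, hτ'⟩ : ∃ τ : ℝ, 0 < τ ∧ 8 * (B * Bn + 2) * (4 * B * τ) ≤ η ^ 2 := by
    refine ⟨η ^ 2 / (32 * (B * Bn + 2) * (B + 1)), by positivity, ?_⟩
    rw [show 8 * (B * Bn + 2) * (4 * B * (η ^ 2 / (32 * (B * Bn + 2) * (B + 1)))) =
      η ^ 2 * (B / (B + 1)) by field_simp; ring]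
    exact mul_le_of_le_one_right (by positivity) ((div_le_one (by positivity)).mpr (by linarith))
  obtain ⟨N, i, -, hi⟩ := exists_cells m Bn hτ
  refine ⟨N, fun L ζ Z S μ α hL hζ h => ?_⟩
  obtain ⟨-, -, -, h1, h2⟩ := G1_small h
  let f : Fin N → Z.Ω → ℝ := fun j p =>
    if hj : ∃ r ∈ S, i (α r, 0) = j then Z.d p hj.choose else 0
  have hf : ∀ j, Lip Z.d (f j) := by
    intro j p q
    by_cases hj : ∃ r ∈ S, i (α r, 0) = j
    · simp only [f, dif_pos hj]
      exact Z.hd.lip_left _ p q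
    · simp only [f, dif_neg hj, sub_self]
      exact Z.hd.nonneg p q
  have h0 : (0 : ℝ) ∈ Icc (0 : ℝ) 1 := ⟨le_rfl, zero_le_one⟩
  have key : ∀ p, ∀ q ∈ S, ∃ j, Z.d p q - ζ * (2 * B * τ) ≤ f j p - f j q := by
    intro p q hq
    have hj : ∃ r ∈ S, i (α r, 0) = i (α q, 0) := ⟨q, hq, rfl⟩
    refine ⟨i (α q, 0), ?_⟩
    simp only [f, dif_pos hj]
    obtain ⟨r1, r2⟩ := hj.choose_spec
    have a1 := (hi (α q, 0) (α hj.choose, 0) (h.bα _) (h.bα _) h0 h0 r2.symm).1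
    have a2 := h.ant q hq _ r1
    have a3 := mul_le_mul_of_nonneg_left (mul_le_mul_of_nonneg_left a1 hB) hζ.le
    have a4 := Z.hd.tri p hj.choose q
    rw [Z.hd.symm hj.choose q] at a4
    linarith
  have hM : (1 : ℝ) ≤ B * Bn + 2 := by linarith
  have hc : Continuous (win (B * Bn + 2) (20 * L) ζ) := by
    unfold win
    fun_prop
  have b1 := F3_win_bd (M := B * Bn + 2) (by linarith) (20 * L) ζ
  have hc0 : 0 ≤ 2 * B * τ := by positivity
  have m1 : MeasurableSet (Prod.fst ⁻¹' S : Set (Z.Ω × Z.Ω)) := measurable_fst h.hS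
  have m2 : MeasurableSet (Prod.snd ⁻¹' S : Set (Z.Ω × Z.Ω)) := measurable_snd h.hS
  have pt : ∀ x : Z.Ω × Z.Ω, win (B * Bn + 2) (20 * L) ζ (Z.d x.1 x.2) -
      tupK (win (B * Bn + 2) (20 * L) ζ) f x ≤
      (Prod.fst ⁻¹' S).indicator (fun _ => 2 * B * τ) x +
        (Prod.snd ⁻¹' S).indicator (fun _ => 2 * B * τ) x := by
    intro x
    have n1 : 0 ≤ (Prod.fst ⁻¹' S).indicator (fun _ => 2 * B * τ) x :=
      indicator_nonneg (fun _ _ => hc0) x
    have n2 : 0 ≤ (Prod.snd ⁻¹' S).indicator (fun _ => 2 * B * τ) x :=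
      indicator_nonneg (fun _ _ => hc0) x
    have sup : ∀ j, |f j x.1 - f j x.2| ≤ ⨆ j, |f j x.1 - f j x.2| := fun j =>
      le_ciSup (f := fun j => |f j x.1 - f j x.2|) (Finite.bddAbove_range _) j
    by_cases hs : x.1 ∈ S ↔ x.2 ∈ S
    · have e : win (B * Bn + 2) (20 * L) ζ (Z.d x.1 x.2) = -(B * Bn + 2) := by
        refine max_eq_left ((min_le_right _ _).trans ?_)
        rw [div_le_iff₀ hζ]
        have := h.same _ _ hs
        nlinarith
      have e2 : -(B * Bn + 2) ≤ tupK (win (B * Bn + 2) (20 * L) ζ) f x := le_max_left _ _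
      linarith
    by_cases hq : x.2 ∈ S
    · obtain ⟨j, hj⟩ := key x.1 x.2 hq
      have := G1_win_drop (B * Bn + 2) (20 * L) hζ hc0 (hj.trans ((le_abs_self _).trans (sup j)))
      rw [indicator_of_mem (show x ∈ Prod.snd ⁻¹' S from hq)]
      unfold tupK
      linarith
    · have hp : x.1 ∈ S := by tauto
      obtain ⟨j, hj⟩ := key x.2 x.1 hp
      rw [Z.hd.symm] at hj
      have := G1_win_drop (B * Bn + 2) (20 * L) hζ hc0
        (hj.trans ((le_abs_self _).trans ((abs_sub_comm _ _).trans_le (sup j))))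
      rw [indicator_of_mem (show x ∈ Prod.fst ⁻¹' S from hp)]
      unfold tupK
      linarith
  have hint : ∫ x, (win (B * Bn + 2) (20 * L) ζ (Z.d x.1 x.2) -
      tupK (win (B * Bn + 2) (20 * L) ζ) f x) ∂(Z.P.prod Z.P) ≤ 4 * B * τ * ζ := by
    have i1 : Integrable ((Prod.fst ⁻¹' S).indicator fun _ => 2 * B * τ) (Z.P.prod Z.P) :=
      (integrable_const _).indicator m1
    have i2 : Integrable ((Prod.snd ⁻¹' S).indicator fun _ => 2 * B * τ) (Z.P.prod Z.P) :=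
      (integrable_const _).indicator m2
    refine (integral_mono ((F3_int (hc.measurable.comp Z.hd.measurable) fun x => b1 _).sub
      (F3_int (F3_meas hc fun j => (hf j).measurable Z.hd) fun x => b1 _)) (i1.add i2) pt).trans ?_
    rw [integral_add' i1 i2, integral_indicator_const _ m1, integral_indicator_const _ m2,
      measurePreserving_fst.measureReal_preimage h.hS.nullMeasurableSet,
      measurePreserving_snd.measureReal_preimage h.hS.nullMeasurableSet, h.mass]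
    simp only [smul_eq_mul]
    linarith
  have acc := kerK_acc hM b1 (G1_win_mono _ _ hζ) hc Z f hf hint
  rw [rK, h.gam hL]
  refine (pow_le_pow_iff_left₀ (norm_nonneg _) (by positivity) two_ne_zero).mp (acc.trans ?_)
  rw [mul_pow, Real.sq_sqrt hζ.le, ← mul_assoc]
  exact mul_le_mul_of_nonneg_right hτ' hζ.le

end Pool.Agent.P.MP_de432b_gt.LC
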