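import Pool.Agent.P.MP_de432b_gt.LC.G1

namespace Pool.Agent.P.MP_de432b_gt.LC

open MeasureTheory Set Filter Topology
open scoped unitInterval RealInnerProductSpace

section gen
variable {Ω : Type} [MeasurableSpace Ω] {P : Measure Ω}

theorem G2_congr {f g : Ω → ℝ} (h : f =ᵐ[P] g) : toL2 P f = toL2 P g := by
  by_cases hf : MemLp f 2 P
  · have hg : MemLp g 2 P := hf.ae_eq h
    exact Lp.ext ((toL2_ae hf).trans (h.trans (toL2_ae hg).symm))
  · have hg : ¬ MemLp g 2 P := fun hg => hf (hg.ae_eq h.symm)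
    rw [toL2, toL2, dif_neg hf, dif_neg hg]

theorem G2_ae [IsProbabilityMeasure P] {f : Ω → ℝ} (hf : Measurable f) {M : ℝ}
    (h : ∀ p, |f p| ≤ M) : toL2 P f =ᵐ[P] f :=
  toL2_ae (memLp_of_bd hf.aestronglyMeasurable (Eventually.of_forall h))

theorem G2_post [IsProbabilityMeasure P] (F : ℝ → ℝ) {f : Ω → ℝ} (hf : Measurable f) {M : ℝ}
    (h : ∀ p, |f p| ≤ M) : post F (toL2 P f) = toL2 P fun x => F (f x) := by
  refine G2_congr ?_
  filter_upwards [G2_ae (P := P) hf h] with p hp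
  rw [hp]

theorem G2_int [IsProbabilityMeasure P] {f : Ω → ℝ} (hf : Measurable f) {M : ℝ}
    (h : ∀ p, |f p| ≤ M) : Integrable f P :=
  Integrable.of_bound hf.aestronglyMeasurable M (Eventually.of_forall h)

theorem G2_int_mul [IsProbabilityMeasure P] {f : Ω → ℝ} (hf : Measurable f) {M : ℝ}
    (h : ∀ p, |f p| ≤ M) (v : Lp ℝ 2 P) : Integrable (fun p => f p * v p) P :=
  (F2_integrable v).bdd_mul hf.aestronglyMeasurable (Eventually.of_forall h)

end gen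

theorem G2_cont2 (M : ℝ) : Continuous (th2 M) :=
  continuous_cl01.comp (continuous_const.sub continuous_abs)

theorem G2_cont1 (M : ℝ) : Continuous (th1 M) := continuous_id.mul (G2_cont2 M)

theorem G2_abs2 (M a : ℝ) : |th2 M a| ≤ 1 := by
  have := cl01_mem (M - |a|)
  rw [th2, abs_of_nonneg this.1]
  exact this.2

theorem G2_cl_one {t : ℝ} (h : 1 ≤ t) : cl01 t = 1 := by
  rw [cl01, min_eq_left h, max_eq_right zero_le_one]

theorem G2_cl_zero {t : ℝ} (h : t ≤ 0) : cl01 t = 0 := by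
  rw [cl01, max_eq_left ((min_le_right _ _).trans h)]

variable {m : ℕ} {B Bn L ζ : ℝ} {Z : PM} {S : Set Z.Ω} {μ : Marks m B Z.Ω} {α : Z.Ω → E m}

theorem G2_nonneg (h : IsTag B Bn L ζ Z S μ α) : 0 ≤ B ∧ 0 ≤ Bn := by
  obtain ⟨p⟩ := nonempty_of_isProbabilityMeasure Z.P
  exact ⟨(norm_nonneg _).trans (μ.bg p), (norm_nonneg _).trans (h.bα p)⟩

theorem G2_M (h : IsTag B Bn L ζ Z S μ α) : 0 ≤ B * Bn + 2 := by
  have := mul_nonneg (G2_nonneg h).1 (G2_nonneg h).2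
  linarith

theorem G2_small (hζ : 0 < ζ) (h : IsTag B Bn L ζ Z S μ α) :
    ζ ≤ 1 / 100 ∧ ζ * (B * Bn + 2) ≤ 1 := by
  obtain ⟨h1, h2⟩ := G2_nonneg h
  have h3 := h.small
  have h4 := mul_nonneg h1 h2
  have h5 := mul_nonneg hζ.le h1
  have h6 := mul_nonneg hζ.le h2
  have h7 := mul_nonneg hζ.le h4
  constructor <;> nlinarith

theorem G2_sig_bd (h : IsTag B Bn L ζ Z S μ α) (p q : Z.Ω) :
    |⟪α q, μ.g p⟫ + (1 - μ.c p)| ≤ B * Bn + 1 := by
  have h1 : |⟪α q, μ.g p⟫| ≤ B * Bn := by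
    refine (abs_real_inner_le_norm _ _).trans ?_
    rw [mul_comm B]
    exact mul_le_mul (h.bα q) (μ.bg p) (norm_nonneg _) (G2_nonneg h).2
  have h2 := μ.bc p
  have h3 : |1 - μ.c p| ≤ 1 := abs_le.2 ⟨by linarith [h2.2], by linarith [h2.1]⟩
  exact (abs_add_le _ _).trans (add_le_add h1 h3)

theorem G2_win_cross (hζ : 0 < ζ) (h : IsTag B Bn L ζ Z S μ α) {p q : Z.Ω} (hp : p ∉ S)
    (hq : q ∈ S) :
    win (B * Bn + 2) (20 * L) ζ (Z.d p q) = ⟪α q, μ.g p⟫ + (1 - μ.c p) := by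
  have h1 := abs_le.1 (G2_sig_bd h p q)
  rw [win, h.cross p hp q hq, add_sub_cancel_left, mul_div_cancel_left₀ _ hζ.ne',
    min_eq_right (by linarith [h1.2]), max_eq_right (by linarith [h1.1])]

theorem G2_win_same (hL : 1 ≤ L) (hζ : 0 < ζ) (h : IsTag B Bn L ζ Z S μ α) {p q : Z.Ω}
    (hpq : p ∈ S ↔ q ∈ S) : win (B * Bn + 2) (20 * L) ζ (Z.d p q) = -(B * Bn + 2) := by
  have h1 := h.same p q hpq
  have h2 := (G2_small hζ h).2
  rw [win, max_eq_left]
  refine (min_le_right _ _).trans ?_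
  rw [div_le_iff₀ hζ]
  nlinarith

theorem G2_th2_cross (hζ : 0 < ζ) (h : IsTag B Bn L ζ Z S μ α) {p q : Z.Ω} (hp : p ∉ S)
    (hq : q ∈ S) : th2 (B * Bn + 2) (win (B * Bn + 2) (20 * L) ζ (Z.d p q)) = 1 := by
  rw [G2_win_cross hζ h hp hq, th2, G2_cl_one]
  linarith [G2_sig_bd h p q]

theorem G2_th2_same (hL : 1 ≤ L) (hζ : 0 < ζ) (h : IsTag B Bn L ζ Z S μ α) {p q : Z.Ω}
    (hpq : p ∈ S ↔ q ∈ S) : th2 (B * Bn + 2) (win (B * Bn + 2) (20 * L) ζ (Z.d p q)) = 0 := by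
  rw [G2_win_same hL hζ h hpq, th2, abs_neg, abs_of_nonneg (G2_M h), sub_self,
    G2_cl_zero le_rfl]

theorem G2_th1_cross (hζ : 0 < ζ) (h : IsTag B Bn L ζ Z S μ α) {p q : Z.Ω} (hp : p ∉ S)
    (hq : q ∈ S) : th1 (B * Bn + 2) (win (B * Bn + 2) (20 * L) ζ (Z.d p q)) =
      ⟪α q, μ.g p⟫ + (1 - μ.c p) := by
  rw [th1, G2_th2_cross hζ h hp hq, mul_one, G2_win_cross hζ h hp hq]

theorem G2_th1_same (hL : 1 ≤ L) (hζ : 0 < ζ) (h : IsTag B Bn L ζ Z S μ α) {p q : Z.Ω}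
    (hpq : p ∈ S ↔ q ∈ S) : th1 (B * Bn + 2) (win (B * Bn + 2) (20 * L) ζ (Z.d p q)) = 0 := by
  rw [th1, G2_th2_same hL hζ h hpq, mul_zero]

theorem G2_meas (M D κ : ℝ) (Z : PM) :
    Measurable fun x : Z.Ω × Z.Ω => win M D κ (Z.d x.1 x.2) := by
  unfold win
  exact measurable_const.max (measurable_const.min ((Z.hd.measurable.sub_const D).div_const κ))

/-- The signal kernel times the indicator of the antenna. -/
theorem G2_th1_ind (hL : 1 ≤ L) (hζ : 0 < ζ) (h : IsTag B Bn L ζ Z S μ α) (p q : Z.Ω) :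
    th1 (B * Bn + 2) (win (B * Bn + 2) (20 * L) ζ (Z.d p q)) * S.indicator (fun _ => (1 : ℝ)) q =
      ⟪S.indicator α q, μ.g p⟫ + (1 - μ.c p) * S.indicator (fun _ => (1 : ℝ)) q := by
  by_cases hq : q ∈ S
  · by_cases hp : p ∈ S
    · rw [G2_th1_same hL hζ h (iff_of_true hp hq), (h.kill p hp).1, (h.kill p hp).2]
      simp
    · rw [G2_th1_cross hζ h hp hq]
      simp [hq]
  · simp [hq]

theorem G2_ind_meas (h : IsTag B Bn L ζ Z S μ α) :
    Measurable (S.indicator fun _ => (1 : ℝ)) := measurable_const.indicator h.hS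

theorem G2_ind_bd (S : Set Z.Ω) (p : Z.Ω) : |S.indicator (fun _ => (1 : ℝ)) p| ≤ 1 := by
  by_cases hp : p ∈ S <;> simp [hp]

theorem G2_ind_int (h : IsTag B Bn L ζ Z S μ α) :
    ∫ q, S.indicator (fun _ => (1 : ℝ)) q ∂Z.P = ζ := by
  rw [integral_indicator h.hS]
  simp [h.mass]

theorem G2_al_meas (h : IsTag B Bn L ζ Z S μ α) : Measurable (S.indicator α) :=
  h.hα.indicator h.hS

theorem G2_al_bd (h : IsTag B Bn L ζ Z S μ α) (p : Z.Ω) : ‖S.indicator α p‖ ≤ Bn :=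
  (norm_indicator_le_norm_self α p).trans (h.bα p)

theorem G2_alx_meas (h : IsTag B Bn L ζ Z S μ α) (x : E m) :
    Measurable fun q => ⟪S.indicator α q, x⟫ := (G2_al_meas h).inner measurable_const

theorem G2_alx_bd (h : IsTag B Bn L ζ Z S μ α) (x : E m) (q : Z.Ω) :
    |⟪S.indicator α q, x⟫| ≤ Bn * ‖x‖ :=
  (abs_real_inner_le_norm _ _).trans (mul_le_mul_of_nonneg_right (G2_al_bd h q) (norm_nonneg _))

theorem IsTag.chi_true (hL : 1 ≤ L) (hζ : 0 < ζ) (h : IsTag B Bn L ζ Z S μ α) :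
    chiOf (B * Bn + 2) (toL2 (Z.P.prod Z.P) fun x => win (B * Bn + 2) (20 * L) ζ (Z.d x.1 x.2)) =
      toL2 Z.P (S.indicator fun _ => 1) := by
  have hm := G2_meas (B * Bn + 2) (20 * L) ζ Z
  have hs := (G2_small hζ h).1
  rw [chiOf, G2_post _ hm (fun x => F3_win_bd (G2_M h) _ _ _)]
  refine G2_congr ?_
  filter_upwards [opK_toL2_ae ((G2_cont2 (B * Bn + 2)).measurable.comp hm)
    (fun x => G2_abs2 _ _) (oneL_ae (P := Z.P))] with p hp
  simp only [Function.comp_def] at hp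
  rw [hp]
  by_cases hpS : p ∈ S
  · have e : ∀ q, th2 (B * Bn + 2) (win (B * Bn + 2) (20 * L) ζ (Z.d p q)) * 1 =
        1 - S.indicator (fun _ => (1 : ℝ)) q := by
      intro q
      by_cases hq : q ∈ S
      · rw [G2_th2_same hL hζ h (iff_of_true hpS hq)]
        simp [hq]
      · rw [Z.hd.symm, G2_th2_cross hζ h hq hpS]
        simp [hq]
    simp only [e]
    rw [integral_sub (integrable_const _) (G2_int (G2_ind_meas h) (G2_ind_bd S)), G2_ind_int h,
      G2_cl_one]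
    · simp [hpS]
    · simp only [integral_const, probReal_univ, smul_eq_mul]
      linarith
  · have e : ∀ q, th2 (B * Bn + 2) (win (B * Bn + 2) (20 * L) ζ (Z.d p q)) * 1 =
        S.indicator (fun _ => (1 : ℝ)) q := by
      intro q
      by_cases hq : q ∈ S
      · rw [G2_th2_cross hζ h hpS hq]
        simp [hq]
      · rw [G2_th2_same hL hζ h (iff_of_false hpS hq)]
        simp [hq]
    simp only [e]
    rw [G2_ind_int h, G2_cl_zero (by linarith)]
    simp [hpS]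

theorem G2_c_ae (μ : Marks m B Z.Ω) :
    (toL2 Z.P fun p => 1 - μ.c p) =ᵐ[Z.P] fun p => 1 - μ.c p :=
  G2_ae (measurable_const.sub μ.hc) (M := 1) fun p =>
    abs_le.2 ⟨by linarith [(μ.bc p).2], by linarith [(μ.bc p).1]⟩

theorem IsTag.u_true (hL : 1 ≤ L) (hζ : 0 < ζ) (h : IsTag B Bn L ζ Z S μ α) :
    uOf (B * Bn + 2) ζ (toL2 (Z.P.prod Z.P) fun x => win (B * Bn + 2) (20 * L) ζ (Z.d x.1 x.2)) =
      toL2 Z.P fun p => 1 - μ.c p := by
  have hm := G2_meas (B * Bn + 2) (20 * L) ζ Z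
  rw [uOf, h.chi_true hL hζ, G2_post _ hm (fun x => F3_win_bd (G2_M h) _ _ _)]
  refine Lp.ext ((Lp.coeFn_smul _ _).trans (EventuallyEq.trans ?_ (G2_c_ae μ).symm))
  filter_upwards [opK_toL2_ae ((G2_cont1 (B * Bn + 2)).measurable.comp hm)
    (fun x => abs_th1_le (G2_M h) _) (G2_ae (P := Z.P) (G2_ind_meas h) (G2_ind_bd S))] with p hp
  simp only [Function.comp_def] at hp
  rw [Pi.smul_apply, hp]
  simp only [G2_th1_ind hL hζ h p]
  rw [integral_add (G2_int (G2_alx_meas h _) (G2_alx_bd h _))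
    ((G2_int (G2_ind_meas h) (G2_ind_bd S)).const_mul _), integral_const_mul, G2_ind_int h]
  have e : ∫ q, ⟪S.indicator α q, μ.g p⟫ ∂Z.P = 0 := by
    rw [← h.mean (μ.g p), ← integral_indicator h.hS]
    refine integral_congr_ae (Eventually.of_forall fun q => ?_)
    by_cases hq : q ∈ S <;> simp [hq]
  rw [e, smul_eq_mul]
  field_simp
  ring

theorem IsTag.f_true (hL : 1 ≤ L) (hζ : 0 < ζ) (h : IsTag B Bn L ζ Z S μ α) :
    fOf (B * Bn + 2) ζ (toL2 (Z.P.prod Z.P) fun x => win (B * Bn + 2) (20 * L) ζ (Z.d x.1 x.2)) =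
      inL Z.P μ.g ∘L ContinuousLinearMap.adjoint ((√ζ)⁻¹ • inL Z.P (S.indicator α)) := by
  have hm := G2_meas (B * Bn + 2) (20 * L) ζ Z
  have hi := G2_ae (P := Z.P) (G2_ind_meas h) (G2_ind_bd S)
  have e1 : post2 (fun a b => th1 (B * Bn + 2) a * cl01 b)
      (toL2 (Z.P.prod Z.P) fun x => win (B * Bn + 2) (20 * L) ζ (Z.d x.1 x.2))
      (tens (oneL Z.P) (toL2 Z.P (S.indicator fun _ => 1))) = toL2 (Z.P.prod Z.P) fun x =>
        th1 (B * Bn + 2) (win (B * Bn + 2) (20 * L) ζ (Z.d x.1 x.2)) *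
          S.indicator (fun _ => (1 : ℝ)) x.2 := by
    refine G2_congr ?_
    filter_upwards [G2_ae (P := Z.P.prod Z.P) hm (fun x => F3_win_bd (G2_M h) _ _ _),
      tens_ae (oneL Z.P) (toL2 Z.P (S.indicator fun _ => 1)),
      Measure.quasiMeasurePreserving_fst.ae (oneL_ae (P := Z.P)),
      (Measure.quasiMeasurePreserving_snd (μ := Z.P)).ae hi] with x h1 h2 h3 h4
    rw [h1, h2, h3, h4, one_mul, cl01_of_mem]
    by_cases hq : x.2 ∈ S <;> simp [hq]
  rw [fOf, h.u_true hL hζ, h.chi_true hL hζ, e1]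
  refine ContinuousLinearMap.ext fun v => Lp.ext ?_
  rw [_root_.smul_apply, _root_.sub_apply,
    InnerProductSpace.rankOne_apply, ContinuousLinearMap.comp_apply]
  refine (Lp.coeFn_smul _ _).trans (EventuallyEq.trans ?_ (inL_ae μ.hg μ.bg _).symm)
  have hk := opK_toL2_ae (κ := fun x : Z.Ω × Z.Ω =>
    th1 (B * Bn + 2) (win (B * Bn + 2) (20 * L) ζ (Z.d x.1 x.2)) *
      S.indicator (fun _ => (1 : ℝ)) x.2) (((G2_cont1 (B * Bn + 2)).measurable.comp hm).mul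
    ((G2_ind_meas h).comp measurable_snd)) (M := (B * Bn + 2) * 1) (fun x => by
      rw [abs_mul]
      exact mul_le_mul (abs_th1_le (G2_M h) _) (G2_ind_bd S _) (abs_nonneg _) (G2_M h))
    (EventuallyEq.refl _ (v : Z.Ω → ℝ))
  filter_upwards [hk, G2_c_ae μ, Lp.coeFn_smul ⟪toL2 Z.P (S.indicator fun _ => 1), v⟫
    (toL2 Z.P fun p => 1 - μ.c p), Lp.coeFn_sub (opK (toL2 (Z.P.prod Z.P) fun x =>
      th1 (B * Bn + 2) (win (B * Bn + 2) (20 * L) ζ (Z.d x.1 x.2)) *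
        S.indicator (fun _ => (1 : ℝ)) x.2) v)
      (⟪toL2 Z.P (S.indicator fun _ => 1), v⟫ • toL2 Z.P fun p => 1 - μ.c p)] with p h1 h2 h3 h4
  rw [Pi.smul_apply, h4, Pi.sub_apply, h1, h3, Pi.smul_apply, h2,
    ContinuousLinearMap.adjoint_inner_right, _root_.smul_apply, real_inner_smul_left,
    F1_inner, F1_inner]
  simp only [G2_th1_ind hL hζ h p, add_mul, mul_assoc]
  rw [integral_add (G2_int_mul (G2_alx_meas h _) (G2_alx_bd h _) v)
    ((G2_int_mul (G2_ind_meas h) (G2_ind_bd S) v).const_mul _), integral_const_mul]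
  have e2 : ∫ q, toL2 Z.P (S.indicator fun _ => 1) q * v q ∂Z.P =
      ∫ q, S.indicator (fun _ => (1 : ℝ)) q * v q ∂Z.P := by
    refine integral_congr_ae ?_
    filter_upwards [hi] with q hq
    rw [hq]
  have e3 : ∫ q, inL Z.P (S.indicator α) (μ.g p) q * v q ∂Z.P =
      ∫ q, ⟪S.indicator α q, μ.g p⟫ * v q ∂Z.P := by
    refine integral_congr_ae ?_
    filter_upwards [inL_ae (P := Z.P) (G2_al_meas h) (G2_al_bd h) (μ.g p)] with q hq
    rw [hq]
  rw [e2, e3, smul_eq_mul, smul_eq_mul]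
  ring

theorem IsTag.norm_signal (hL : 1 ≤ L) (hζ : 0 < ζ) (h : IsTag B Bn L ζ Z S μ α) :
    ‖post (th1 (B * Bn + 2)) (toL2 (Z.P.prod Z.P)
      fun x => win (B * Bn + 2) (20 * L) ζ (Z.d x.1 x.2))‖ ≤ 2 * (B * Bn + 2) * √ζ := by
  have hm := G2_meas (B * Bn + 2) (20 * L) ζ Z
  have hM := G2_M h
  rw [G2_post _ hm (fun x => F3_win_bd hM _ _ _)]
  refine abs_le_of_sq_le_sq' ?_ (by positivity) |>.2
  have i1 : Integrable (fun x : Z.Ω × Z.Ω => S.indicator (fun _ => (1 : ℝ)) x.1) (Z.P.prod Z.P) :=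
    G2_int ((G2_ind_meas h).comp measurable_fst) fun x => G2_ind_bd S x.1
  have i2 : Integrable (fun x : Z.Ω × Z.Ω => S.indicator (fun _ => (1 : ℝ)) x.2) (Z.P.prod Z.P) :=
    G2_int ((G2_ind_meas h).comp measurable_snd) fun x => G2_ind_bd S x.2
  have j1 : ∫ x : Z.Ω × Z.Ω, S.indicator (fun _ => (1 : ℝ)) x.1 ∂Z.P.prod Z.P = ζ := by
    rw [integral_fun_fst, G2_ind_int h]
    simp
  have j2 : ∫ x : Z.Ω × Z.Ω, S.indicator (fun _ => (1 : ℝ)) x.2 ∂Z.P.prod Z.P = ζ := by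
    rw [integral_fun_snd, G2_ind_int h]
    simp
  rw [norm_sq_L2]
  calc _ ≤ ∫ x : Z.Ω × Z.Ω, (B * Bn + 2) ^ 2 * (S.indicator (fun _ => (1 : ℝ)) x.1 +
        S.indicator (fun _ => (1 : ℝ)) x.2) ∂Z.P.prod Z.P := by
        refine integral_mono_of_nonneg (Eventually.of_forall fun x => sq_nonneg _)
          ((i1.add i2).const_mul _) ?_
        filter_upwards [G2_ae (P := Z.P.prod Z.P) ((G2_cont1 (B * Bn + 2)).measurable.comp hm)
          (fun x => abs_th1_le hM _)] with x hx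
        simp only [Function.comp_def] at hx
        rw [hx]
        have hb := sq_le_sq' (abs_le.1 (abs_th1_le hM
          (win (B * Bn + 2) (20 * L) ζ (Z.d x.1 x.2)))).1 (abs_le.1 (abs_th1_le hM _)).2
        by_cases h1 : x.1 ∈ S <;> by_cases h2 : x.2 ∈ S
        · rw [G2_th1_same hL hζ h (iff_of_true h1 h2)]
          simp only [indicator_of_mem h1, indicator_of_mem h2]
          nlinarith [sq_nonneg (B * Bn + 2)]
        · simpa [h1, h2] using hb
        · simpa [h1, h2] using hb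
        · rw [G2_th1_same hL hζ h (iff_of_false h1 h2)]
          simp [h1, h2]
    _ ≤ _ := by
        rw [integral_const_mul, integral_add i1 i2, j1, j2, mul_pow, Real.sq_sqrt hζ.le]
        nlinarith [mul_nonneg (sq_nonneg (B * Bn + 2)) hζ.le]

theorem IsTag.iso (hζ : 0 < ζ) (h : IsTag B Bn L ζ Z S μ α) :
    ContinuousLinearMap.adjoint ((√ζ)⁻¹ • inL Z.P (S.indicator α)) ∘L
      ((√ζ)⁻¹ • inL Z.P (S.indicator α)) = 1 := by
  refine ContinuousLinearMap.ext fun v => ext_inner_left ℝ fun u => ?_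
  rw [ContinuousLinearMap.comp_apply, ContinuousLinearMap.adjoint_inner_right,
    _root_.smul_apply, _root_.smul_apply, real_inner_smul_left,
    real_inner_smul_right, F1_inner, one_apply_eq_self]
  have e : ∫ p, inL Z.P (S.indicator α) u p * inL Z.P (S.indicator α) v p ∂Z.P = ζ * ⟪u, v⟫ := by
    rw [← h.cov u v, ← integral_indicator h.hS]
    refine integral_congr_ae ?_
    filter_upwards [inL_ae (P := Z.P) (G2_al_meas h) (G2_al_bd h) u,
      inL_ae (P := Z.P) (G2_al_meas h) (G2_al_bd h) v] with p h1 h2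
    rw [h1, h2]
    by_cases hp : p ∈ S <;> simp [hp]
  rw [e, ← mul_assoc, ← mul_inv, Real.mul_self_sqrt hζ.le, ← mul_assoc, inv_mul_cancel₀ hζ.ne',
    one_mul]

end Pool.Agent.P.MP_de432b_gt.LC
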