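import Pool.Agent.P.MP_de432b_gt.LC.G2

namespace Pool.Agent.P.MP_de432b_gt.LC

open MeasureTheory Set Filter Topology
open scoped unitInterval RealInnerProductSpace

theorem G3_cl (t : ℝ) : |cl01 t| ≤ 1 := by
  rw [abs_of_nonneg (cl01_mem t).1]
  exact (cl01_mem t).2

theorem G3_op {Ω : Type} [MeasurableSpace Ω] {P : Measure Ω} [IsProbabilityMeasure P]
    (k : Lp ℝ 2 (P.prod P)) (v : Lp ℝ 2 P) : ‖opK k v‖ ≤ ‖k‖ * ‖v‖ :=
  ((opK k).le_opNorm v).trans (mul_le_mul_of_nonneg_right (norm_opK_le k) (norm_nonneg _))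

theorem G3_chi {Ω : Type} [MeasurableSpace Ω] {P : Measure Ω} [IsProbabilityMeasure P]
    (M : ℝ) (k k' : Lp ℝ 2 (P.prod P)) : ‖chiOf M k - chiOf M k'‖ ≤ 2 * ‖k - k'‖ := by
  have h1 : ‖post (th2 M) k - post (th2 M) k'‖ ≤ 1 * ‖k - k'‖ :=
    norm_post_sub (M := 1) (fun a => G3_cl _) (fun a a' => by
      rw [one_mul]; exact abs_th2_sub M a a') k k'
  have h2 := norm_post_sub (F := fun t => cl01 (2 * t - 1 / 2)) (K := 2) (M := 1)
    (fun a => G3_cl _) (fun a a' => by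
      refine (abs_cl01_sub _ _).trans (le_of_eq ?_)
      rw [show 2 * a - 1 / 2 - (2 * a' - 1 / 2) = 2 * (a - a') by ring, abs_mul]
      norm_num) (opK (post (th2 M) k) (oneL P)) (opK (post (th2 M) k') (oneL P))
  have h3 := G3_op (post (th2 M) k - post (th2 M) k') (oneL P)
  rw [opK_sub, norm_oneL, mul_one] at h3
  have h4 : opK (post (th2 M) k) (oneL P) - opK (post (th2 M) k') (oneL P) =
      (opK (post (th2 M) k) - opK (post (th2 M) k')) (oneL P) := rfl
  unfold chiOf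
  rw [h4] at h2
  linarith

theorem read_pert {Ω : Type} [MeasurableSpace Ω] {P : Measure Ω} [IsProbabilityMeasure P]
    {M ζ η : ℝ} (hM : 1 ≤ M) (hζ : 0 < ζ) (hη0 : 0 ≤ η) (hη : η ≤ 1) {k k' : Lp ℝ 2 (P.prod P)}
    (hk : ‖k - k'‖ ≤ η * √ζ) (h1 : ‖chiOf M k'‖ ≤ √ζ) (h2 : ‖uOf M ζ k'‖ ≤ 1)
    (h3 : ‖post (th1 M) k'‖ ≤ 2 * M * √ζ) :
    ‖uOf M ζ k - uOf M ζ k'‖ ≤ 10 * M * η ∧ ‖fOf M ζ k - fOf M ζ k'‖ ≤ 40 * M * η := by
  have hM0 : 0 ≤ M := by linarith
  have hs : 0 < √ζ := Real.sqrt_pos.mpr hζ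
  have hss : √ζ * √ζ = ζ := Real.mul_self_sqrt hζ.le
  have c1 : ‖chiOf M k - chiOf M k'‖ ≤ 2 * η * √ζ := by linarith [G3_chi M k k']
  have c2 : ‖chiOf M k‖ ≤ 3 * √ζ := by
    have := norm_le_insert' (chiOf M k) (chiOf M k')
    nlinarith
  have a1 : ‖post (th1 M) k - post (th1 M) k'‖ ≤ (M + 1) * (η * √ζ) :=
    (norm_post_sub (abs_th1_le hM0) (abs_th1_sub hM0) k k').trans
      (mul_le_mul_of_nonneg_left hk (by linarith))
  have hu : ‖uOf M ζ k - uOf M ζ k'‖ ≤ 10 * M * η := by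
    have e : uOf M ζ k - uOf M ζ k' = ζ⁻¹ • (opK (post (th1 M) k - post (th1 M) k') (chiOf M k) +
        opK (post (th1 M) k') (chiOf M k - chiOf M k')) := by
      unfold uOf
      rw [← smul_sub, opK_sub, map_sub, sub_apply]
      congr 1
      abel
    have b1 := (G3_op (post (th1 M) k - post (th1 M) k') (chiOf M k)).trans
      (mul_le_mul a1 c2 (norm_nonneg _) (by positivity))
    have b2 := (G3_op (post (th1 M) k') (chiOf M k - chiOf M k')).trans
      (mul_le_mul h3 c1 (norm_nonneg _) (by positivity))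
    rw [e, norm_smul, Real.norm_of_nonneg (by positivity), inv_mul_le_iff₀ hζ]
    refine (norm_add_le _ _).trans ((add_le_add b1 b2).trans ?_)
    have e2 : (M + 1) * (η * √ζ) * (3 * √ζ) + 2 * M * √ζ * (2 * η * √ζ) =
        (√ζ * √ζ) * ((7 * M + 3) * η) := by ring
    rw [e2, hss]
    exact mul_le_mul_of_nonneg_left (by nlinarith) hζ.le
  refine ⟨hu, ?_⟩
  have p1 := norm_post2_sub (F := fun a b => th1 M a * cl01 b) (K := M + 1) (M := M)
    (fun a b => by
      rw [abs_mul]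
      exact (mul_le_mul (abs_th1_le hM0 a) (G3_cl b) (abs_nonneg _) hM0).trans_eq (mul_one _))
    (fun a b a' b' => by
      rw [show th1 M a * cl01 b - th1 M a' * cl01 b' =
        (th1 M a - th1 M a') * cl01 b + th1 M a' * (cl01 b - cl01 b') by ring]
      refine (abs_add_le _ _).trans ?_
      rw [abs_mul, abs_mul]
      have t1 := mul_le_mul (abs_th1_sub hM0 a a') (G3_cl b) (abs_nonneg _)
        (by positivity)
      have t2 := mul_le_mul (abs_th1_le hM0 a') (abs_cl01_sub b b') (abs_nonneg _) hM0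
      nlinarith [abs_nonneg (b - b')])
    k (tens (oneL P) (chiOf M k)) k' (tens (oneL P) (chiOf M k'))
  rw [← tens_sub_right, norm_tens, norm_oneL, one_mul] at p1
  have e : fOf M ζ k - fOf M ζ k' = (√ζ)⁻¹ •
      (opK (post2 (fun a b => th1 M a * cl01 b) k (tens (oneL P) (chiOf M k)) -
        post2 (fun a b => th1 M a * cl01 b) k' (tens (oneL P) (chiOf M k'))) -
      (InnerProductSpace.rankOne ℝ (uOf M ζ k - uOf M ζ k') (chiOf M k) +
        InnerProductSpace.rankOne ℝ (uOf M ζ k') (chiOf M k - chiOf M k'))) := by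
    unfold fOf
    rw [← smul_sub, opK_sub, map_sub, map_sub, sub_apply]
    congr 1
    abel
  have r1 : ‖InnerProductSpace.rankOne ℝ (uOf M ζ k - uOf M ζ k') (chiOf M k)‖ ≤
      10 * M * η * (3 * √ζ) := by
    rw [InnerProductSpace.norm_rankOne]
    exact mul_le_mul hu c2 (norm_nonneg _) (by positivity)
  have r2 : ‖InnerProductSpace.rankOne ℝ (uOf M ζ k') (chiOf M k - chiOf M k')‖ ≤
      1 * (2 * η * √ζ) := by
    rw [InnerProductSpace.norm_rankOne]
    exact mul_le_mul h2 c1 (norm_nonneg _) zero_le_one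
  have p2 := p1.trans (mul_le_mul_of_nonneg_left (add_le_add hk c1) (by linarith))
  rw [e, norm_smul, Real.norm_of_nonneg (by positivity), inv_mul_le_iff₀ hs]
  refine (norm_sub_le _ _).trans ((add_le_add ((norm_opK_le _).trans p2)
    ((norm_add_le _ _).trans (add_le_add r1 r2))).trans ?_)
  have e2 : (M + 1) * (η * √ζ + 2 * η * √ζ) + (10 * M * η * (3 * √ζ) + 1 * (2 * η * √ζ)) =
      √ζ * ((33 * M + 5) * η) := by ring
  rw [e2]
  exact mul_le_mul_of_nonneg_left (by nlinarith) hs.le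

theorem norm_gram_inL {m : ℕ} {B : ℝ} {Ω : Type} [MeasurableSpace Ω] {P : Measure Ω}
    [IsProbabilityMeasure P] (μ : Marks m B Ω) :
    ‖ContinuousLinearMap.adjoint (inL P μ.g) ∘L inL P μ.g - 1‖ = gram (P.map μ.g) := by
  have hc : Continuous fun x : E m => InnerProductSpace.rankOne ℝ x x :=
    (InnerProductSpace.rankOne ℝ : E m →L[ℝ] _).continuous.clm_apply continuous_id
  have hi : Integrable (fun p => InnerProductSpace.rankOne ℝ (μ.g p) (μ.g p)) P := by
    refine Integrable.of_bound (hc.measurable.comp μ.hg).aestronglyMeasurable (B * B)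
      (Eventually.of_forall fun p => ?_)
    rw [InnerProductSpace.norm_rankOne]
    exact mul_le_mul (μ.bg p) (μ.bg p) (norm_nonneg _) ((norm_nonneg _).trans (μ.bg p))
  unfold gram
  rw [integral_map μ.hg.aemeasurable hc.aestronglyMeasurable]
  congr 2
  ext1 y
  refine ext_inner_left ℝ fun x => ?_
  rw [ContinuousLinearMap.comp_apply, ContinuousLinearMap.adjoint_inner_right,
    ContinuousLinearMap.integral_apply hi, ← integral_inner (hi.apply_continuousLinearMap y),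
    L2.inner_def]
  refine integral_congr_ae ?_
  filter_upwards [inL_ae μ.hg μ.bg x, inL_ae μ.hg μ.bg y] with p h1 h2
  rw [h1, h2, InnerProductSpace.rankOne_apply, real_inner_smul_right, real_inner_comm (μ.g p) x]
  simp

theorem G3_hil (m : ℕ) {δ : ℝ} (hδ : 0 < δ) : ∃ η : ℝ, 0 < η ∧
    ∀ (K : Type) [NormedAddCommGroup K] [InnerProductSpace ℝ K] [CompleteSpace K]
      (V G : E m →L[ℝ] K) (F : K →L[ℝ] K), ContinuousLinearMap.adjoint V ∘L V = 1 →
      ‖ContinuousLinearMap.adjoint G ∘L G - 1‖ ≤ 1 / 60 →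
      ‖F - G ∘L ContinuousLinearMap.adjoint V‖ ≤ η →
      ‖ContinuousLinearMap.adjoint F * F - V ∘L ContinuousLinearMap.adjoint V‖ ≤ 1 / 50 ∧
        ∃ h : U m, ‖G ∘L (h : E m →L[ℝ] E m) -
          F ∘L frame m (Newt (ContinuousLinearMap.adjoint F * F))‖ ≤ δ := by
  obtain ⟨η₁, h₁, H₁⟩ := frame_uc m (δ := δ / 4) (by positivity)
  obtain ⟨η₂, h₂, H₂⟩ := Newt_uc (δ := min η₁ (1 / 2)) (by positivity)
  refine ⟨min (min (η₂ / 5) (1 / 1500)) (δ / 2), by positivity, ?_⟩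
  intro K _ _ _ V G F hV hG hF
  have e1 := hF.trans ((min_le_left _ _).trans (min_le_left _ _))
  have e2 := hF.trans ((min_le_left _ _).trans (min_le_right _ _))
  have e3 := hF.trans (min_le_right _ _)
  have fr : IsFrame V (V ∘L ContinuousLinearMap.adjoint V) := ⟨hV, rfl⟩
  obtain ⟨p1, p2, -, p4⟩ := fr.proj
  have hVV : ∀ x, ContinuousLinearMap.adjoint V (V x) = x := fun x => by
    simpa using congrArg (fun T : E m →L[ℝ] E m => T x) hV
  have nV : ‖V‖ ≤ 1 := V.opNorm_le_bound zero_le_one fun x => by rw [p4, one_mul]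
  have nV' : ‖ContinuousLinearMap.adjoint V‖ ≤ 1 := by rwa [LinearIsometryEquiv.norm_map]
  have nG : ‖G‖ ≤ 2 := by
    have t1 := ContinuousLinearMap.norm_adjoint_comp_self G
    have t2 := norm_le_insert' (ContinuousLinearMap.adjoint G ∘L G) (1 : E m →L[ℝ] E m)
    have t3 : ‖(1 : E m →L[ℝ] E m)‖ ≤ 1 := ContinuousLinearMap.norm_id_le
    nlinarith [norm_nonneg G]
  obtain ⟨F₀, hF₀⟩ : ∃ F₀, F₀ = G ∘L ContinuousLinearMap.adjoint V := ⟨_, rfl⟩
  have nF₀ : ‖F₀‖ ≤ 2 := by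
    rw [hF₀]
    refine (ContinuousLinearMap.opNorm_comp_le _ _).trans ?_
    nlinarith [norm_nonneg G, norm_nonneg (ContinuousLinearMap.adjoint V)]
  have eS : ContinuousLinearMap.adjoint F₀ * F₀ =
      V ∘L (ContinuousLinearMap.adjoint G ∘L G) ∘L ContinuousLinearMap.adjoint V := by
    rw [hF₀, ContinuousLinearMap.adjoint_comp, ContinuousLinearMap.adjoint_adjoint]
    rfl
  have n0 : ‖ContinuousLinearMap.adjoint F₀ * F₀ - V ∘L ContinuousLinearMap.adjoint V‖ ≤
      1 / 60 := by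
    have e : ContinuousLinearMap.adjoint F₀ * F₀ - V ∘L ContinuousLinearMap.adjoint V =
        V ∘L (ContinuousLinearMap.adjoint G ∘L G - 1) ∘L ContinuousLinearMap.adjoint V := by
      rw [eS]
      ext1 x
      simp
    rw [e]
    refine (ContinuousLinearMap.opNorm_comp_le _ _).trans ?_
    have t := (ContinuousLinearMap.opNorm_comp_le (ContinuousLinearMap.adjoint G ∘L G - 1)
      (ContinuousLinearMap.adjoint V)).trans (mul_le_mul hG nV' (norm_nonneg _) (by norm_num))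
    exact (mul_le_mul nV t (norm_nonneg _) zero_le_one).trans (by norm_num)
  have cm : Commute (V ∘L ContinuousLinearMap.adjoint V) (ContinuousLinearMap.adjoint F₀ * F₀) := by
    rw [eS]
    ext1 x
    simp [hVV]
  have sa : ∀ T : K →L[ℝ] K, IsSelfAdjoint (ContinuousLinearMap.adjoint T * T) := fun T =>
    IsSelfAdjoint.star_mul_self T
  rw [← hF₀] at e1 e2 e3
  have n1 : ‖ContinuousLinearMap.adjoint F₀ * F₀ - ContinuousLinearMap.adjoint F * F‖ ≤
      5 * ‖F - F₀‖ := by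
    have e : ContinuousLinearMap.adjoint F * F - ContinuousLinearMap.adjoint F₀ * F₀ =
        ContinuousLinearMap.adjoint F * (F - F₀) + ContinuousLinearMap.adjoint (F - F₀) * F₀ := by
      rw [map_sub, mul_sub, sub_mul]
      abel
    rw [norm_sub_rev, e]
    have t1 := norm_mul_le (ContinuousLinearMap.adjoint F) (F - F₀)
    have t2 := norm_mul_le (ContinuousLinearMap.adjoint (F - F₀)) F₀
    rw [LinearIsometryEquiv.norm_map] at t1 t2
    have t3 := norm_le_insert' F F₀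
    refine (norm_add_le _ _).trans ?_
    nlinarith [norm_nonneg (F - F₀)]
  have n2 : ‖ContinuousLinearMap.adjoint F * F - V ∘L ContinuousLinearMap.adjoint V‖ ≤
      1 / 50 := by
    have t := norm_sub_le_norm_sub_add_norm_sub (ContinuousLinearMap.adjoint F * F)
      (ContinuousLinearMap.adjoint F₀ * F₀) (V ∘L ContinuousLinearMap.adjoint V)
    rw [norm_sub_rev] at n1
    linarith
  refine ⟨n2, ?_⟩
  have d0 := defect_le p1 p2 n0 (by norm_num)
  have d1 := defect_le p1 p2 n2 (by norm_num)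
  have N0 := Newt_eq (sa F₀) p1 p2 cm (n0.trans (by norm_num))
  have N1 := H₂ K _ _ (sa F₀) (sa F) (by linarith) (by linarith) (by linarith)
  rw [N0] at N1
  obtain ⟨q1, q2, -, -⟩ := Newt_spec (sa F) (by linarith)
  obtain ⟨V', hV'⟩ := fr.of_near (LinearIsometry.id) q1 q2 (by
    have : conj (LinearIsometry.id : K →ₗᵢ[ℝ] K) (Newt (ContinuousLinearMap.adjoint F * F)) =
        Newt (ContinuousLinearMap.adjoint F * F) := by
      have := conj_comp_iso (LinearIsometry.id : K →ₗᵢ[ℝ] K)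
        (Newt (ContinuousLinearMap.adjoint F * F))
      ext1 x
      exact congrArg (fun T : K →L[ℝ] K => T x) this
    rw [this]
    exact (N1.trans (min_le_right _ _)).trans_lt (by norm_num))
  have fr' := hV'.frame
  obtain ⟨h, hh⟩ := H₁ K _ _ _ _ fr fr' (N1.trans (min_le_left _ _))
  refine ⟨h, ?_⟩
  obtain ⟨W, hW⟩ : ∃ W, W = frame m (Newt (ContinuousLinearMap.adjoint F * F)) := ⟨_, rfl⟩
  rw [← hW] at hh fr' ⊢
  have nW : ‖W‖ ≤ 1 := W.opNorm_le_bound zero_le_one fun x => by rw [fr'.proj.2.2.2, one_mul]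
  have e : G ∘L (h : E m →L[ℝ] E m) - F ∘L W =
      F₀ ∘L (V ∘L (h : E m →L[ℝ] E m) - W) - (F - F₀) ∘L W := by
    ext1 x
    simp [hF₀, hVV]
  rw [e]
  have t1 := (ContinuousLinearMap.opNorm_comp_le F₀ (V ∘L (h : E m →L[ℝ] E m) - W)).trans
    (mul_le_mul nF₀ hh (norm_nonneg _) (by norm_num))
  have t2 := (ContinuousLinearMap.opNorm_comp_le (F - F₀) W).trans
    (mul_le_mul e3 nW (norm_nonneg _) (by positivity))
  exact (norm_sub_le _ _).trans (by linarith)

theorem tag_read (m : ℕ) {B Bn : ℝ} (hB : 0 ≤ B) (hBn : 0 ≤ Bn) {δ : ℝ} (hδ : 0 < δ) :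
    ∃ N : ℕ, ∀ (L ζ : ℝ) (Z : PM) (S : Set Z.Ω) (μ : Marks m B Z.Ω) (α : Z.Ω → E m), 1 ≤ L →
      0 < ζ → IsTag B Bn L ζ Z S μ α → gram (Z.P.map μ.g) ≤ 1 / 60 →
      (∃ ρ : ℝ, 0 < ρ ∧ ∀ z, DD false Z z < ρ → SC false (reader m hB N (B * Bn + 2) L) z) ∧
        dmk Z.P μ (reader m hB N (B * Bn + 2) L Z) ≤ δ := by
  have hM : 1 ≤ B * Bn + 2 := by nlinarith [mul_nonneg hB hBn]
  obtain ⟨η, hη, H⟩ := G3_hil m (δ := δ / (4 * (m + 1))) (by positivity)
  obtain ⟨θ, hθ, t1, t2, t3⟩ : ∃ θ : ℝ, 0 < θ ∧ θ ≤ 1 ∧ 40 * (B * Bn + 2) * θ ≤ η ∧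
      10 * (B * Bn + 2) * θ ≤ δ / 2 := by
    refine ⟨min 1 (min (η / (40 * (B * Bn + 2))) (δ / 2 / (10 * (B * Bn + 2)))), by positivity,
      min_le_left _ _, ?_, ?_⟩
    · rw [← le_div_iff₀' (by positivity)]
      exact (min_le_right _ _).trans (min_le_left _ _)
    · rw [← le_div_iff₀' (by positivity)]
      exact (min_le_right _ _).trans (min_le_right _ _)
  obtain ⟨N, hN⟩ := tag_kernel m hB hBn hθ
  refine ⟨N, fun L ζ Z S μ α hL hζ h hg => ?_⟩
  have hc : MemLp (fun p => 1 - μ.c p) 2 Z.P :=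
    memLp_of_bd (measurable_const.sub μ.hc).aestronglyMeasurable (M := 1)
      (Eventually.of_forall fun p => abs_le.mpr ⟨by linarith [(μ.bc p).2], by linarith [(μ.bc p).1]⟩)
  have hi : MemLp (S.indicator fun _ => (1 : ℝ)) 2 Z.P := (memLp_const 1).indicator h.hS
  have c1 : ‖toL2 Z.P (S.indicator fun _ => (1 : ℝ))‖ ≤ √ζ := by
    refine Real.le_sqrt_of_sq_le (le_of_eq ?_)
    rw [norm_sq_L2, ← h.mass, ← integral_indicator_one h.hS]
    refine integral_congr_ae ?_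
    filter_upwards [toL2_ae hi] with p hp
    rw [hp]
    by_cases e : p ∈ S <;> simp [e]
  have c2 : ‖toL2 Z.P fun p => 1 - μ.c p‖ ≤ 1 := by
    refine norm_le_of_bd ?_
    filter_upwards [toL2_ae hc] with p hp
    rw [hp]
    exact abs_le.mpr ⟨by linarith [(μ.bc p).2], by linarith [(μ.bc p).1]⟩
  obtain ⟨r1, r2⟩ := read_pert hM hζ hθ.le t1 (hN L ζ Z S μ α hL hζ h)
    (by rw [h.chi_true hL hζ]; exact c1) (by rw [h.u_true hL hζ]; exact c2)
    (h.norm_signal hL hζ)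
  rw [h.u_true hL hζ] at r1
  rw [h.f_true hL hζ] at r2
  have g0 := h.gam hL
  have eU : rU N (B * Bn + 2) L Z = uOf (B * Bn + 2) ζ (rK N (B * Bn + 2) L Z) := by rw [rU, g0]
  have eF : rF N (B * Bn + 2) L Z = fOf (B * Bn + 2) ζ (rK N (B * Bn + 2) L Z) := by rw [rF, g0]
  rw [← eU] at r1
  rw [← eF] at r2
  obtain ⟨n1, k, hk⟩ := H _ _ (inL Z.P μ.g) _ (h.iso hζ) (by rw [norm_gram_inL]; exact hg)
    (r2.trans t2)
  refine ⟨reader_sc hB N hM hL (by rw [g0]; exact hζ) ⟨h.iso hζ, rfl⟩ n1, ?_⟩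
  have e : mdev Z.P μ (reader m hB N (B * Bn + 2) L Z) k =
      mdev Z.P (mkMarks hB (inL Z.P μ.g) (toL2 Z.P fun p => 1 - μ.c p))
        (reader m hB N (B * Bn + 2) L Z) k := by
    refine mdev_congr k ?_ (Eventually.of_forall fun p => ⟨rfl, rfl⟩)
    filter_upwards [vec_ae_eq (inL_ae (P := Z.P) μ.hg μ.bg), toL2_ae hc] with p e1 e2
    refine ⟨?_, ?_⟩
    · show μ.g p = clip B (vec (inL Z.P μ.g) p)
      rw [e1, clip_of_le (μ.bg p)]
    · show μ.c p = cl01 (1 - toL2 Z.P (fun p => 1 - μ.c p) p)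
      rw [e2, sub_sub_cancel, cl01_of_mem (μ.bc p)]
  refine (dmk_le _ _ k).trans (e.trans_le ((mdev_mkMarks hB _ _ _ _ k).trans ?_))
  rw [norm_sub_rev] at r1
  have t4 : 2 * (m : ℝ) * (δ / (4 * (m + 1))) ≤ δ / 2 := by
    rw [← mul_div_assoc, div_le_iff₀ (by positivity)]
    nlinarith
  have t5 := mul_le_mul_of_nonneg_left hk (by positivity : (0 : ℝ) ≤ 2 * m)
  exact (add_le_add (t5.trans t4) (r1.trans t3)).trans (by linarith)

end Pool.Agent.P.MP_de432b_gt.LC
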