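import Pool.Agent.P.MP_de432b_gt.LC.G3
import Pool.Agent.P.MP_de432b_gt.LC.C5

namespace Pool.Agent.P.MP_de432b_gt.LC

open MeasureTheory Set Filter Topology
open scoped unitInterval RealInnerProductSpace

variable {m : ℕ} (Γ : Geo m)

theorem G4_zc_le (ζ : ℝ) : Γ.zc ζ ≤ 1 / 100 := by
  have h1 := Γ.zc_mul_le ζ
  have h2 := Γ.zc_nonneg ζ
  have hB := Γ.hB
  have hBn := Γ.hBn
  have h3 : 1 ≤ (Γ.B + 1) * (Γ.Bn + 1) := by nlinarith
  nlinarith

theorem G4_zc_eq {ζ : ℝ} (h0 : 0 ≤ ζ) (h1 : ζ ≤ Γ.zmax) : Γ.zc ζ = ζ := by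
  rw [Geo.zc, min_eq_left h1, max_eq_right h0]

theorem G4_meas (z : ℝ) : MeasurableSet {s : I | (s : ℝ) < z} :=
  measurableSet_lt measurable_subtype_coe measurable_const

theorem G4_vol (ζ : ℝ) : (volume : Measure I).real {s | (s : ℝ) < Γ.zc ζ} = Γ.zc ζ :=
  vol_lt (Γ.zc_nonneg ζ) ((G4_zc_le Γ ζ).trans (by norm_num))

theorem G4_restrict {Ω : Type} [MeasurableSpace Ω] (P : Measure Ω) [IsProbabilityMeasure P]
    (T : Set I) :
    (P.prod (Γ.nu.prod (volume : Measure I))).restrict {x | x.2.2 ∈ T} =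
      P.prod (Γ.nu.prod (volume.restrict T)) := by
  have h : {x : Ω × (E m × I) | x.2.2 ∈ T} = univ ×ˢ (univ ×ˢ T) := by
    ext x
    simp
  rw [h, ← Measure.prod_restrict, ← Measure.prod_restrict, Measure.restrict_univ,
    Measure.restrict_univ]

theorem G4_ant {Ω : Type} [MeasurableSpace Ω] (P : Measure Ω) [IsProbabilityMeasure P] (ζ : ℝ)
    (F : E m → ℝ) :
    ∫ p in antS Γ ζ, F p.2.1 ∂P.prod (Γ.nu.prod (volume : Measure I)) =
      Γ.zc ζ * ∫ a, F a ∂Γ.nu := by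
  have h := G4_restrict Γ P {s | (s : ℝ) < Γ.zc ζ}
  have h' : (P.prod (Γ.nu.prod (volume : Measure I))).restrict (antS Γ ζ) =
      P.prod (Γ.nu.prod (volume.restrict {s : I | (s : ℝ) < Γ.zc ζ})) := h
  rw [h', integral_fun_snd (fun z : E m × I => F z.1), integral_fun_fst, probReal_univ, one_smul,
    measureReal_restrict_apply_univ, G4_vol, smul_eq_mul]

theorem G4_clip : ∀ᵐ a ∂Γ.nu, clip Γ.Bn a = a := by
  filter_upwards [Γ.nu_bd] with a ha using clip_of_le ha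

theorem G4_int : Integrable (fun a : E m => a) Γ.nu :=
  Integrable.of_bound aestronglyMeasurable_id Γ.Bn Γ.nu_bd

theorem tag_isTag (y : MK m Γ.B) {L ζ : ℝ} (hL : 1 ≤ L) (h0 : 0 ≤ ζ) (h1 : ζ ≤ Γ.zmax)
    (hd : ∀ p q, y.A.d p q ≤ 2 * L) : IsTag Γ.B Γ.Bn L ζ (y.tag Γ L ζ).A (antS Γ ζ)
      (y.tag Γ L ζ).μ (fun p => clip Γ.Bn p.2.1) := by
  have hz := G4_zc_eq Γ h0 h1
  have hB := Γ.hB
  have hBn := Γ.hBn
  have hsm : ζ * ((Γ.B + 1) * (Γ.Bn + 1)) ≤ 1 / 100 := hz ▸ Γ.zc_mul_le ζ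
  have hm : max L 1 = L := max_eq_left hL
  have hm' : max (10 * L) 0 = 10 * L := max_eq_left (by linarith)
  have hBB : 0 ≤ Γ.B * Γ.Bn := by positivity
  refine ⟨measurableSet_antS Γ ζ, ?_, measurable_clip.comp (measurable_fst.comp measurable_snd),
    fun p => norm_clip_le hBn _, fun p hp => ?_, fun p hp q hq => ?_, fun p q hpq => ?_,
    fun p hp q hq => ?_, fun u => ?_, fun u v => ?_, hsm⟩
  · have h := G4_ant Γ y.A.P ζ fun _ => 1
    simpa [hz] using h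
  · simp [hp]
  · simp only [coneD, tagD, glueD, hp, hq, if_true, if_false, hm, hm', hz]
    ring
  · by_cases hp : p ∈ antS Γ ζ
    · have hq := hpq.1 hp
      simp only [coneD, tagD, glueD, hp, hq, if_true, hz]
      have ha : ‖clip Γ.Bn p.2.1 - clip Γ.Bn q.2.1‖ ≤ 2 * Γ.Bn :=
        (norm_sub_le _ _).trans
          (by linarith [norm_clip_le hBn p.2.1, norm_clip_le hBn q.2.1])
      have h2 := mul_le_mul_of_nonneg_left (mul_le_mul_of_nonneg_left ha hB) h0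
      nlinarith
    · have hq : q ∉ antS Γ ζ := fun h => hp (hpq.2 h)
      simp only [coneD, tagD, glueD, hp, hq, if_false, hz]
      have hg : ‖y.μ.g p.1 - y.μ.g q.1‖ ≤ 2 * Γ.B :=
        (norm_sub_le _ _).trans (by linarith [y.μ.bg p.1, y.μ.bg q.1])
      have hc : |y.μ.c p.1 - y.μ.c q.1| ≤ 1 :=
        abs_sub_le_iff.mpr ⟨by linarith [(y.μ.bc p.1).2, (y.μ.bc q.1).1],
          by linarith [(y.μ.bc p.1).1, (y.μ.bc q.1).2]⟩
      have h2 := mul_le_mul_of_nonneg_left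
        (add_le_add (mul_le_mul_of_nonneg_left hg hBn) hc) h0
      have h3 := (min_le_left (y.A.d p.1 q.1) (2 * max (10 * max L 1) 0)).trans (hd p.1 q.1)
      nlinarith
  · simp only [coneD, tagD, glueD, hp, hq, if_true, hz, zero_add, le_refl]
  · have h := G4_ant Γ y.A.P ζ fun a => ⟪clip Γ.Bn a, u⟫
    refine h.trans ?_
    have h2 : ∫ a, ⟪clip Γ.Bn a, u⟫ ∂Γ.nu = ∫ a, ⟪u, a⟫ ∂Γ.nu := by
      refine integral_congr_ae ?_
      filter_upwards [G4_clip Γ] with a ha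
      rw [ha, real_inner_comm]
    rw [h2, integral_inner (G4_int Γ), Γ.nu_mean, inner_zero_right, mul_zero]
  · have h := G4_ant Γ y.A.P ζ fun a => ⟪clip Γ.Bn a, u⟫ * ⟪clip Γ.Bn a, v⟫
    refine h.trans ?_
    have h2 : ∫ a, ⟪clip Γ.Bn a, u⟫ * ⟪clip Γ.Bn a, v⟫ ∂Γ.nu = ∫ a, ⟪a, u⟫ * ⟪a, v⟫ ∂Γ.nu := by
      refine integral_congr_ae ?_
      filter_upwards [G4_clip Γ] with a ha
      rw [ha]
    rw [h2, Γ.nu_cov, hz]

theorem G4_cont : Continuous fun x : E m => InnerProductSpace.rankOne ℝ x x :=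
  (InnerProductSpace.rankOne ℝ : E m →L[ℝ] E m →L⋆[ℝ] E m →L[ℝ] E m).continuous.clm_apply
    continuous_id

theorem tag_gram (y : MK m Γ.B) (L ζ : ℝ) (h : gram (y.A.P.map y.μ.g) ≤ 1 / 200) :
    gram ((y.tag Γ L ζ).A.P.map (y.tag Γ L ζ).μ.g) ≤ 1 / 60 := by
  have hz0 := Γ.zc_nonneg ζ
  have hz1 := G4_zc_le Γ ζ
  unfold gram at h ⊢
  rw [integral_map y.μ.hg.aemeasurable G4_cont.aestronglyMeasurable] at h
  rw [integral_map (y.tag Γ L ζ).μ.hg.aemeasurable G4_cont.aestronglyMeasurable]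
  set A := ∫ p, InnerProductSpace.rankOne ℝ (y.μ.g p) (y.μ.g p) ∂y.A.P with hA
  have h1 : ∫ p, InnerProductSpace.rankOne ℝ ((y.tag Γ L ζ).μ.g p) ((y.tag Γ L ζ).μ.g p)
      ∂(y.tag Γ L ζ).A.P = (1 - Γ.zc ζ) • A := by
    have h2 : (fun p : y.A.Ω × (E m × I) =>
        InnerProductSpace.rankOne ℝ ((y.tag Γ L ζ).μ.g p) ((y.tag Γ L ζ).μ.g p)) =
        (antS Γ ζ)ᶜ.indicator fun p => InnerProductSpace.rankOne ℝ (y.μ.g p.1) (y.μ.g p.1) := by
      funext p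
      by_cases hp : p ∈ antS Γ ζ <;> simp [indicator, hp]
    have h3 : (y.A.P.prod (Γ.nu.prod (volume : Measure I))).restrict (antS Γ ζ)ᶜ =
        y.A.P.prod (Γ.nu.prod (volume.restrict {s : I | (s : ℝ) < Γ.zc ζ}ᶜ)) :=
      G4_restrict Γ y.A.P {s | (s : ℝ) < Γ.zc ζ}ᶜ
    change ∫ p : y.A.Ω × (E m × I), InnerProductSpace.rankOne ℝ ((y.tag Γ L ζ).μ.g p)
      ((y.tag Γ L ζ).μ.g p) ∂y.A.P.prod (Γ.nu.prod volume) = _
    rw [h2, integral_indicator (measurableSet_antS Γ ζ).compl, h3,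
      integral_fun_fst fun p => InnerProductSpace.rankOne ℝ (y.μ.g p) (y.μ.g p), ← hA]
    congr 1
    rw [← univ_prod_univ, measureReal_prod_prod, probReal_univ, one_mul,
      measureReal_restrict_apply_univ, probReal_compl_eq_one_sub (G4_meas _), G4_vol]
  rw [h1]
  have h4 : (1 - Γ.zc ζ) • A - 1 = (1 - Γ.zc ζ) • (A - 1) - Γ.zc ζ • (1 : E m →L[ℝ] E m) := by
    module
  rw [h4]
  refine (norm_sub_le _ _).trans ?_
  rw [norm_smul, norm_smul, Real.norm_of_nonneg hz0, Real.norm_of_nonneg (by linarith)]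
  have h5 : ‖(1 : E m →L[ℝ] E m)‖ ≤ 1 := ContinuousLinearMap.norm_id_le
  have h6 := norm_nonneg (A - 1)
  nlinarith

theorem exists_reader {L δ : ℝ} (hL : 1 ≤ L) (hδ : 0 < δ) : ∃ R, Reader Γ L δ R := by
  obtain ⟨N, hN⟩ := tag_read m Γ.hB Γ.hBn hδ
  exact ⟨reader m Γ.hB N (Γ.B * Γ.Bn + 2) L, fun y ζ h0 h1 hd hg =>
    hN L ζ _ _ _ _ hL h0 (tag_isTag Γ y hL h0.le h1 hd) (tag_gram Γ y L ζ hg)⟩

end Pool.Agent.P.MP_de432b_gt.LC
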