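import Pool.Agent.P.MP_de432b_gt.LC.C6

namespace Pool.Agent.P.MP_de432b_gt.LC

open MeasureTheory Set Filter Topology
open scoped unitInterval RealInnerProductSpace

set_option linter.unusedSectionVars false
set_option linter.unusedVariables false

variable {m : ℕ}

/-- An average-value-at-risk functional of the linear form `u ↦ ⟪A v, u⟫`. -/
noncomputable def cvar (H : ℝ) (ν : Measure (E m)) (A : E m →L[ℝ] E m) (v : E m) : ℝ :=
  ⨅ a : ℝ, (a + H * ∫ u, max (⟪A v, u⟫ - a) 0 ∂ν)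

/-- Its symmetrisation. -/
noncomputable def rhoC (H : ℝ) (ν : Measure (E m)) (A : E m →L[ℝ] E m) (v : E m) : ℝ :=
  max (cvar H ν A v) (cvar H ν A (-v))

section
variable {Ω : Type} [MeasurableSpace Ω] {P : Measure Ω} [IsProbabilityMeasure P] {H : ℝ}
  {f F : Ω → ℝ}

theorem H1_int (hf : Integrable f P) (a : ℝ) : Integrable (fun u => max (f u - a) 0) P :=
  (hf.sub (integrable_const a)).pos_part

theorem H1_nn (f : Ω → ℝ) (a : ℝ) : 0 ≤ ∫ u, max (f u - a) 0 ∂P :=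
  integral_nonneg fun _ => le_max_right _ _

theorem H1_lb (hH : 1 ≤ H) (hf : Integrable f P) (a : ℝ) :
    ∫ u, f u ∂P ≤ a + H * ∫ u, max (f u - a) 0 ∂P := by
  have h := integral_mono (hf.sub (integrable_const a)) (H1_int hf a) fun u => le_max_left _ _
  simp only [Pi.sub_apply] at h
  rw [integral_sub hf (integrable_const a), integral_const, probReal_univ, one_smul] at h
  have := le_mul_of_one_le_left (H1_nn (P := P) f a) hH
  linarith

theorem H1_bdd (hH : 1 ≤ H) (hf : Integrable f P) :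
    BddBelow (range fun a : ℝ => a + H * ∫ u, max (f u - a) 0 ∂P) :=
  ⟨_, forall_mem_range.2 (H1_lb hH hf)⟩

theorem H1_up (hH : 1 ≤ H) (hf : Integrable f P) (hF : Integrable F P) (h0 : ∀ u, 0 ≤ F u) {t : ℝ}
    (h : ∀ᵐ u ∂P, f u ≤ t + F u) :
    ⨅ a : ℝ, (a + H * ∫ u, max (f u - a) 0 ∂P) ≤ t + H * ∫ u, F u ∂P := by
  refine (ciInf_le (H1_bdd hH hf) t).trans (add_le_add le_rfl ?_)
  refine mul_le_mul_of_nonneg_left (integral_mono_ae (H1_int hf t) hF ?_) (by linarith)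
  filter_upwards [h] with u hu
  exact max_le (by linarith) (h0 u)

theorem H1_low (hH : 1 ≤ H) (hf : Integrable f P) (hF : Integrable F P) (h0 : ∀ u, 0 ≤ F u)
    {K : Set Ω} (hK : MeasurableSet K) (hP : 1 ≤ H * P.real K) {t : ℝ}
    (h : ∀ u ∈ K, t ≤ f u + F u) :
    t - H * ∫ u, F u ∂P ≤ ⨅ a : ℝ, (a + H * ∫ u, max (f u - a) 0 ∂P) := by
  refine le_ciInf fun a => ?_
  have hH0 : 0 ≤ H := by linarith
  have n1 := mul_nonneg hH0 (H1_nn (P := P) f a)
  have n2 : 0 ≤ H * ∫ u, F u ∂P := mul_nonneg hH0 (integral_nonneg h0)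
  rcases le_total t a with hta | hta
  · linarith
  have h1 := integral_mono ((integrable_const (t - a)).indicator hK) ((H1_int hf a).add hF)
    fun u => by
      by_cases hu : u ∈ K
      · simp only [indicator_of_mem hu, Pi.add_apply]
        linarith [h u hu, le_max_left (f u - a) 0]
      · simp only [indicator_of_notMem hu, Pi.add_apply]
        exact add_nonneg (le_max_right _ _) (h0 u)
  simp only [Pi.add_apply] at h1
  rw [integral_indicator_const _ hK, integral_add (H1_int hf a) hF, smul_eq_mul] at h1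
  have h2 := mul_le_mul_of_nonneg_left h1 hH0
  have h3 := mul_le_mul_of_nonneg_right hP (sub_nonneg.2 hta)
  nlinarith

theorem H1_cells {i : Ω → ℕ} (hi : Measurable i) {η : ℝ} (hη : 0 < η) :
    ∃ (H : ℝ) (S : Set Ω), 1 ≤ H ∧ MeasurableSet S ∧ P.real Sᶜ ≤ η ∧
      ∀ q ∈ S, 1 ≤ H * P.real (i ⁻¹' {i q}) := by
  have : IsProbabilityMeasure (P.map i) := Measure.isProbabilityMeasure_map hi.aemeasurable
  let T : ℕ → Set ℕ := fun n => {k | ((n : ℝ) + 1) * (P.map i).real {k} < 1}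
  have hT : Antitone T := fun n n' h k hk => by
    have h1 : (n : ℝ) + 1 ≤ n' + 1 := by exact_mod_cast Nat.succ_le_succ h
    exact lt_of_le_of_lt (mul_le_mul_of_nonneg_right h1 measureReal_nonneg) hk
  have h0 : (P.map i) (⋂ n, T n) = 0 := by
    rw [measure_null_iff_singleton (to_countable _)]
    intro k hk
    by_contra hne
    have hpos : 0 < (P.map i).real {k} := ENNReal.toReal_pos hne (measure_ne_top _ _)
    obtain ⟨n, hn⟩ := exists_nat_gt (1 / (P.map i).real {k})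
    rw [div_lt_iff₀ hpos] at hn
    have h2 : ((n : ℝ) + 1) * (P.map i).real {k} < 1 := mem_iInter.1 hk n
    nlinarith
  have h1 := tendsto_measure_iInter_atTop (μ := P.map i)
    (fun n => (MeasurableSet.of_discrete (s := T n)).nullMeasurableSet) hT ⟨0, measure_ne_top _ _⟩
  rw [h0] at h1
  have h2 := (ENNReal.tendsto_toReal ENNReal.zero_ne_top).comp h1
  obtain ⟨n, hn⟩ := (h2.eventually (gt_mem_nhds hη)).exists
  refine ⟨n + 1, (i ⁻¹' T n)ᶜ, by linarith [Nat.cast_nonneg (α := ℝ) n],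
    (hi MeasurableSet.of_discrete).compl, ?_, fun q hq => ?_⟩
  · rw [compl_compl, ← map_measureReal_apply hi MeasurableSet.of_discrete]
    exact hn.le
  · rw [← map_measureReal_apply hi MeasurableSet.of_discrete]
    exact not_lt.1 hq

theorem H1_rows {Φ : Ω × Ω → ℝ} (hm : Measurable Φ) (h0 : ∀ x, 0 ≤ Φ x) {M : ℝ}
    (hb : ∀ x, Φ x ≤ M) {η t : ℝ} (ht : 0 < t) (h : ∫ x, Φ x ∂(P.prod P) ≤ t * η) :
    ∃ S, MeasurableSet S ∧ P.real Sᶜ ≤ η ∧ ∀ p ∈ S, ∫ u, Φ (p, u) ∂P ≤ t := by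
  have hi : Integrable Φ (P.prod P) := Integrable.of_bound hm.aestronglyMeasurable M
    (ae_of_all _ fun x => by rw [Real.norm_of_nonneg (h0 x)]; exact hb x)
  have hG : Measurable fun p => ∫ u, Φ (p, u) ∂P :=
    hm.stronglyMeasurable.integral_prod_right'.measurable
  refine ⟨{p | t ≤ ∫ u, Φ (p, u) ∂P}ᶜ, (measurableSet_le measurable_const hG).compl, ?_,
    fun p hp => (not_le.1 (show ¬ t ≤ ∫ u, Φ (p, u) ∂P from hp)).le⟩
  have h1 := mul_meas_ge_le_integral_of_nonneg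
    (ae_of_all _ fun p => integral_nonneg fun u => h0 (p, u)) hi.integral_prod_left t
  rw [← integral_prod _ hi] at h1
  rw [compl_compl]
  exact le_of_mul_le_mul_left (h1.trans h) ht

end

section
variable {H C : ℝ} {ν : Measure (E m)} [IsProbabilityMeasure ν] {A : E m →L[ℝ] E m}

theorem H1_abs (A : E m →L[ℝ] E m) (v : E m) {u : E m} (hu : ‖u‖ ≤ C) :
    |⟪A v, u⟫| ≤ ‖A‖ * C * ‖v‖ := by
  refine (abs_real_inner_le_norm _ _).trans ?_
  calc ‖A v‖ * ‖u‖ ≤ (‖A‖ * ‖v‖) * C :=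
        mul_le_mul (A.le_opNorm v) hu (norm_nonneg _) (by positivity)
    _ = ‖A‖ * C * ‖v‖ := by ring

theorem H1_inner_int (hν : ∀ᵐ u ∂ν, ‖u‖ ≤ C) (A : E m →L[ℝ] E m) (v : E m) :
    Integrable (fun u => ⟪A v, u⟫) ν :=
  Integrable.of_bound (continuous_const.inner continuous_id).aestronglyMeasurable _
    (hν.mono fun _ hu => H1_abs A v hu)

theorem rhoC_zero (hH : 1 ≤ H) : rhoC H ν A 0 = 0 := by
  have hi : Integrable (fun u : E m => ⟪A 0, u⟫) ν := by simp
  have h : cvar H ν A 0 = 0 := by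
    refine le_antisymm ((ciInf_le (H1_bdd hH hi) 0).trans (by simp)) (le_ciInf fun a => ?_)
    refine le_trans (by simp) (H1_lb hH hi a)
  rw [rhoC, neg_zero, h, max_self]

omit [IsProbabilityMeasure ν] in
theorem rhoC_neg (v : E m) : rhoC H ν A (-v) = rhoC H ν A v := by
  rw [rhoC, rhoC, neg_neg, max_comm]

theorem H1_add (hH : 1 ≤ H) (hν : ∀ᵐ u ∂ν, ‖u‖ ≤ C) (v w : E m) :
    cvar H ν A (v + w) ≤ cvar H ν A v + cvar H ν A w := by
  refine le_ciInf_add_ciInf fun a b => ?_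
  have i1 := H1_int (H1_inner_int hν A v) a
  have i2 := H1_int (H1_inner_int hν A w) b
  have h := H1_up (t := a + b) hH (H1_inner_int hν A (v + w)) (i1.add i2)
    (fun u => add_nonneg (le_max_right _ _) (le_max_right _ _)) (ae_of_all _ fun u => by
      rw [map_add, inner_add_left, Pi.add_apply]
      linarith [le_max_left (⟪A v, u⟫ - a) 0, le_max_left (⟪A w, u⟫ - b) 0])
  simp only [Pi.add_apply] at h
  rw [integral_add i1 i2] at h
  refine h.trans (le_of_eq ?_)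
  ring

theorem rhoC_add (hH : 1 ≤ H) (hν : ∀ᵐ u ∂ν, ‖u‖ ≤ C) (v w : E m) :
    rhoC H ν A (v + w) ≤ rhoC H ν A v + rhoC H ν A w := by
  refine max_le ((H1_add hH hν v w).trans (add_le_add (le_max_left _ _) (le_max_left _ _))) ?_
  rw [neg_add]
  exact (H1_add hH hν _ _).trans (add_le_add (le_max_right _ _) (le_max_right _ _))

theorem H1_le (hH : 1 ≤ H) (hν : ∀ᵐ u ∂ν, ‖u‖ ≤ C) (v : E m) :
    cvar H ν A v ≤ ‖A‖ * C * ‖v‖ := by
  have h := H1_up (t := ‖A‖ * C * ‖v‖) hH (H1_inner_int hν A v) (integrable_const (0 : ℝ))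
    (fun _ => le_rfl) (hν.mono fun u hu => by
      rw [add_zero]
      exact (le_abs_self _).trans (H1_abs A v hu))
  rwa [integral_zero, mul_zero, add_zero] at h

theorem rhoC_le (hH : 1 ≤ H) (hν : ∀ᵐ u ∂ν, ‖u‖ ≤ C) (v : E m) :
    rhoC H ν A v ≤ ‖A‖ * C * ‖v‖ :=
  max_le (H1_le hH hν v) ((H1_le hH hν (-v)).trans_eq (by rw [norm_neg]))

theorem H1_inv (h : U m) (hν : ν.map (h : E m →L[ℝ] E m) = ν)
    (hA : Commute (h : E m →L[ℝ] E m) A) (v : E m) :
    cvar H ν A ((h : E m →L[ℝ] E m) v) = cvar H ν A v := by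
  refine iInf_congr fun a => ?_
  congr 2
  have hc : Continuous fun u : E m => max (⟪A ((h : E m →L[ℝ] E m) v), u⟫ - a) 0 := by fun_prop
  have e : A ((h : E m →L[ℝ] E m) v) = (h : E m →L[ℝ] E m) (A v) :=
    (congrArg (fun T : E m →L[ℝ] E m => T v) hA.eq).symm
  conv_lhs => rw [← hν]
  rw [integral_map (h : E m →L[ℝ] E m).continuous.measurable.aemeasurable hc.aestronglyMeasurable]
  simp only [e, ContinuousLinearMap.inner_map_map_of_mem_unitary h.2]

theorem rhoC_inv (h : U m) (hν : ν.map (h : E m →L[ℝ] E m) = ν)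
    (hA : Commute (h : E m →L[ℝ] E m) A) (v : E m) :
    rhoC H ν A ((h : E m →L[ℝ] E m) v) = rhoC H ν A v := by
  rw [rhoC, rhoC, ← map_neg, H1_inv h hν hA, H1_inv h hν hA]

end

theorem H1_cvar_map {Ω : Type} [MeasurableSpace Ω] (P : Measure Ω) (H : ℝ) {e : Ω → E m}
    (he : Measurable e) (A : E m →L[ℝ] E m) (p q : Ω) :
    cvar H (P.map e) A (e p - e q) =
      ⨅ a : ℝ, (a + H * ∫ u, max ((⟪A (e p), e u⟫ - ⟪A (e q), e u⟫) - a) 0 ∂P) := by
  refine iInf_congr fun a => ?_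
  have hc : Continuous fun u : E m => max (⟪A (e p - e q), u⟫ - a) 0 := by fun_prop
  rw [integral_map he.aemeasurable hc.aestronglyMeasurable]
  simp only [map_sub, inner_sub_left]

theorem rhoC_box (X : PM) {ε : ℝ} (hε : 0 < ε) : ∃ R H δ : ℝ, 1 ≤ R ∧ 1 ≤ H ∧ 0 < δ ∧
    ∀ (m : ℕ) (e : X.Ω → E m) (C : ℝ) (A : E m →L[ℝ] E m), Measurable e → (∀ p, ‖e p‖ ≤ C) →
      ∫ x, |min (X.d x.1 x.2) R - ⟪A (e x.1), e x.2⟫| ∂(X.P.prod X.P) ≤ δ →
      BoxC X.P X.d (fun p q => rhoC H (X.P.map e) A (e p - e q)) ε := by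
  obtain ⟨η, hη, rfl⟩ : ∃ η : ℝ, 0 < η ∧ ε = 4 * η := ⟨ε / 4, by positivity, by ring⟩
  obtain ⟨R₀, S₁, -, m₁, b₁, h₁⟩ := X.tight hη
  obtain ⟨i, hi, hc⟩ := X.hd.sep η hη
  obtain ⟨H, S₂, hH, m₂, b₂, h₂⟩ := H1_cells (P := X.P) hi hη
  obtain ⟨R, hR1, hR⟩ : ∃ R : ℝ, 1 ≤ R ∧ R₀ ≤ R := ⟨max 1 R₀, le_max_left _ _, le_max_right _ _⟩
  have hH0 : 0 < H := by linarith
  refine ⟨R, H, η / H * η, hR1, hH, by positivity, fun m e C A he hC hδ => ?_⟩
  have mB : Measurable fun x : X.Ω × X.Ω => ⟪A (e x.1), e x.2⟫ :=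
    (A.continuous.measurable.comp (he.comp measurable_fst)).inner (he.comp measurable_snd)
  have bB : ∀ p u, |⟪A (e p), e u⟫| ≤ ‖A‖ * C * C := fun p u =>
    (H1_abs A (e p) (hC u)).trans (mul_le_mul_of_nonneg_left (hC p)
      (mul_nonneg (norm_nonneg _) ((norm_nonneg _).trans (hC u))))
  have mΦ : Measurable fun x : X.Ω × X.Ω => |min (X.d x.1 x.2) R - ⟪A (e x.1), e x.2⟫| :=
    continuous_abs.measurable.comp ((X.hd.measurable.min measurable_const).sub mB)
  have bΦ : ∀ x : X.Ω × X.Ω, |min (X.d x.1 x.2) R - ⟪A (e x.1), e x.2⟫| ≤ R + ‖A‖ * C * C :=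
    fun x => by
      refine (abs_sub _ _).trans (add_le_add ?_ (bB _ _))
      rw [abs_of_nonneg (le_min (X.hd.nonneg _ _) (by linarith))]
      exact min_le_right _ _
  obtain ⟨S₃, m₃, b₃, h₃⟩ := H1_rows mΦ (fun _ => abs_nonneg _) bΦ (div_pos hη hH0) hδ
  have iB : ∀ p, Integrable (fun u => ⟪A (e p), e u⟫) X.P := fun p =>
    Integrable.of_bound (mB.comp measurable_prodMk_left).aestronglyMeasurable _
      (ae_of_all _ fun u => bB p u)
  have iΦ : ∀ p, Integrable (fun u => |min (X.d p u) R - ⟪A (e p), e u⟫|) X.P := fun p =>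
    Integrable.of_bound (mΦ.comp measurable_prodMk_left).aestronglyMeasurable _
      (ae_of_all _ fun u => by rw [Real.norm_of_nonneg (abs_nonneg _)]; exact bΦ (p, u))
  have hF : ∀ p ∈ S₃, ∀ q ∈ S₃, H * ∫ u, (|min (X.d p u) R - ⟪A (e p), e u⟫| +
      |min (X.d q u) R - ⟪A (e q), e u⟫|) ∂X.P ≤ 2 * η := fun p hp q hq => by
    rw [integral_add (iΦ p) (iΦ q)]
    refine (mul_le_mul_of_nonneg_left (add_le_add (h₃ p hp) (h₃ q hq)) hH0.le).trans_eq ?_
    field_simp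
    ring
  have up : ∀ p ∈ S₃, ∀ q ∈ S₃, cvar H (X.P.map e) A (e p - e q) ≤ X.d p q + 2 * η := by
    intro p hp q hq
    rw [H1_cvar_map _ _ he]
    refine (H1_up (t := X.d p q) hH ((iB p).sub (iB q)) ((iΦ p).add (iΦ q))
      (fun u => add_nonneg (abs_nonneg _) (abs_nonneg _)) (ae_of_all _ fun u => ?_)).trans
      (add_le_add le_rfl (hF p hp q hq))
    have k1 : min (X.d p u) R ≤ X.d p q + min (X.d q u) R := by
      rcases le_total (X.d q u) R with h | h
      · rw [min_eq_left h]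
        exact (min_le_left _ _).trans (X.hd.tri p q u)
      · rw [min_eq_right h]
        exact (min_le_right _ _).trans (le_add_of_nonneg_left (X.hd.nonneg p q))
    simp only [Pi.add_apply, Pi.sub_apply]
    linarith [neg_abs_le (min (X.d p u) R - ⟪A (e p), e u⟫),
      le_abs_self (min (X.d q u) R - ⟪A (e q), e u⟫)]
  refine ⟨S₁ ∩ S₂ ∩ S₃, (m₁.inter m₂).inter m₃, ?_, ?_⟩
  · rw [compl_inter, compl_inter]
    linarith [measureReal_union_le (μ := X.P) (S₁ᶜ ∪ S₂ᶜ) S₃ᶜ,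
      measureReal_union_le (μ := X.P) S₁ᶜ S₂ᶜ]
  rintro p ⟨⟨p₁, -⟩, p₃⟩ q ⟨⟨q₁, q₂⟩, q₃⟩
  have low : X.d p q - 4 * η ≤ cvar H (X.P.map e) A (e p - e q) := by
    rw [H1_cvar_map _ _ he]
    refine le_trans ?_ (H1_low (t := X.d p q - 2 * η) hH ((iB p).sub (iB q)) ((iΦ p).add (iΦ q))
      (fun u => add_nonneg (abs_nonneg _) (abs_nonneg _)) (hi (measurableSet_singleton (i q)))
      (h₂ q q₂) fun u hu => ?_)
    · have := hF p p₃ q q₃
      simp only [Pi.add_apply]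
      linarith
    · have k0 : X.d u q ≤ η := hc u q hu
      have k1 : X.d p q - η ≤ min (X.d p u) R :=
        le_min (by linarith [X.hd.tri p u q]) (by linarith [h₁ p p₁ q q₁])
      have k2 : min (X.d q u) R ≤ η := (min_le_left _ _).trans ((X.hd.symm q u).trans_le k0)
      simp only [Pi.add_apply, Pi.sub_apply]
      linarith [le_abs_self (min (X.d p u) R - ⟪A (e p), e u⟫),
        neg_abs_le (min (X.d q u) R - ⟪A (e q), e u⟫)]
  have u1 := up p p₃ q q₃
  have u2 := up q q₃ p p₃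
  rw [X.hd.symm q p, ← neg_sub] at u2
  have u3 : rhoC H (X.P.map e) A (e p - e q) ≤ X.d p q + 2 * η := max_le u1 u2
  have u4 : X.d p q - 4 * η ≤ rhoC H (X.P.map e) A (e p - e q) := low.trans (le_max_left _ _)
  exact abs_sub_le_iff.2 ⟨by linarith, by linarith⟩

end Pool.Agent.P.MP_de432b_gt.LC
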