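import Pool.Agent.P.MP_de432b_gt.LC.F3
import Pool.Agent.P.MP_de432b_gt.LC.F5
import Pool.Agent.P.MP_de432b_gt.LC.C6

namespace Pool.Agent.P.MP_de432b_gt.LC

open MeasureTheory Set Filter Topology
open scoped unitInterval RealInnerProductSpace

theorem H2_cells (X : PM) {ε : ℝ} (hε : 0 < ε) : ∃ (i : X.Ω → ℕ) (r : ℕ → X.Ω) (N : ℕ),
    Measurable i ∧ (∀ p, X.d p (r (i p)) ≤ ε) ∧ X.P.real {p | N ≤ i p} ≤ ε := by
  obtain ⟨i, hi, hc⟩ := X.hd.sep ε hε
  obtain ⟨p0⟩ : Nonempty X.Ω := nonempty_of_isProbabilityMeasure X.P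
  have hR : ∀ k : ℕ, ∃ r : X.Ω, ∀ p, i p = k → X.d p r ≤ ε := by
    intro k
    by_cases hk : ∃ q, i q = k
    · obtain ⟨q, hq⟩ := hk
      exact ⟨q, fun p hp => hc p q (hp.trans hq.symm)⟩
    · exact ⟨p0, fun p hp => absurd ⟨p, hp⟩ hk⟩
  choose r hr using hR
  have hm : ∀ n : ℕ, MeasurableSet {p : X.Ω | n ≤ i p} := fun n =>
    measurableSet_le measurable_const hi
  have hanti : Antitone fun n : ℕ => {p : X.Ω | n ≤ i p} := fun m n hmn p hp =>
    le_trans hmn hp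
  have hlim := tendsto_measure_iInter_atTop (μ := X.P) (fun n => (hm n).nullMeasurableSet) hanti
    ⟨0, measure_ne_top _ _⟩
  have hemp : (⋂ n : ℕ, {p : X.Ω | n ≤ i p}) = ∅ := by
    ext p
    simp only [mem_iInter, Set.mem_ofPred_eq, mem_empty_iff_false, iff_false, not_forall, not_le]
    exact ⟨i p + 1, Nat.lt_succ_self _⟩
  rw [hemp, measure_empty] at hlim
  obtain ⟨n, hn⟩ := (hlim.eventually (gt_mem_nhds (ENNReal.ofReal_pos.mpr hε))).exists
  exact ⟨i, r, n, hi, fun p => hr _ p rfl, ENNReal.toReal_le_of_le_ofReal hε.le (le_of_lt hn)⟩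

theorem exists_tuple (X : PM) {R η : ℝ} (hR : 1 ≤ R) (hη : 0 < η) :
    ∃ (N : ℕ) (f : Fin N → X.Ω → ℝ), (∀ i, Lip X.d (f i)) ∧
      ∫ x, (win R 0 1 (X.d x.1 x.2) - tupK (win R 0 1) f x) ∂(X.P.prod X.P) ≤ η := by
  have hR0 : 0 ≤ R := by linarith
  set ε := η / (2 + 2 * R) with hεd
  have hε : 0 < ε := by positivity
  obtain ⟨i, r, N, hi, hr, hN⟩ := H2_cells X hε
  have hL : ∀ j : Fin N, Lip X.d (fun p => X.d p (r j)) := fun j => X.hd.lip_left _
  refine ⟨N, fun j p => X.d p (r j), hL, ?_⟩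
  have hlip : ∀ s t, |win R 0 1 s - win R 0 1 t| ≤ 1 * |s - t| := fun s t => by
    simpa using F3_win_lip R 0 one_pos s t
  have hc : Continuous (win R 0 1) := F3_cont hlip
  have hS : MeasurableSet {p : X.Ω | N ≤ i p} := measurableSet_le measurable_const hi
  have hS' : MeasurableSet (Prod.fst ⁻¹' {p : X.Ω | N ≤ i p} : Set (X.Ω × X.Ω)) :=
    measurable_fst hS
  have hb : ∀ x : X.Ω × X.Ω,
      |win R 0 1 (X.d x.1 x.2) - tupK (win R 0 1) (fun (j : Fin N) p => X.d p (r j)) x| ≤ 2 * R :=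
    fun x => (abs_sub _ _).trans ((add_le_add (F3_win_bd hR0 0 1 _)
      (F3_win_bd hR0 0 1 _)).trans_eq (two_mul R).symm)
  have hi1 : Integrable (fun x : X.Ω × X.Ω => win R 0 1 (X.d x.1 x.2) -
      tupK (win R 0 1) (fun (j : Fin N) p => X.d p (r j)) x) (X.P.prod X.P) :=
    F3_int ((hc.measurable.comp X.hd.measurable).sub
      (F3_meas hc fun j => (hL j).measurable X.hd)) hb
  have hi2 : Integrable ((Prod.fst ⁻¹' {p : X.Ω | N ≤ i p} : Set (X.Ω × X.Ω)).indicator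
      fun _ => 2 * R) (X.P.prod X.P) := (integrable_const _).indicator hS'
  refine (integral_mono hi1 ((integrable_const (2 * ε)).add hi2) fun x => ?_).trans ?_
  · by_cases hx : N ≤ i x.1
    · have e : (Prod.fst ⁻¹' {p : X.Ω | N ≤ i p} : Set (X.Ω × X.Ω)).indicator
          (fun _ => 2 * R) x = 2 * R := indicator_of_mem (by exact hx) _
      show _ ≤ 2 * ε + _
      rw [e]
      linarith [le_abs_self (win R 0 1 (X.d x.1 x.2) -
        tupK (win R 0 1) (fun (j : Fin N) p => X.d p (r j)) x), hb x]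
    · have e : (Prod.fst ⁻¹' {p : X.Ω | N ≤ i p} : Set (X.Ω × X.Ω)).indicator
          (fun _ => 2 * R) x = 0 := indicator_of_notMem (by exact hx) _
      show _ ≤ 2 * ε + _
      rw [e, add_zero]
      let j : Fin N := ⟨i x.1, not_le.mp hx⟩
      have : Nonempty (Fin N) := ⟨j⟩
      have h1 : (⨆ j : Fin N, |X.d x.1 (r j) - X.d x.2 (r j)|) ≤ X.d x.1 x.2 :=
        ciSup_le fun j => (hL j).abs_le X.hd _ _
      have h2 : |X.d x.1 (r j) - X.d x.2 (r j)| ≤
          ⨆ j : Fin N, |X.d x.1 (r j) - X.d x.2 (r j)| :=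
        le_ciSup (f := fun j : Fin N => |X.d x.1 (r j) - X.d x.2 (r j)|)
          (Set.finite_range _).bddAbove j
      have h3 : X.d x.1 (r j) ≤ ε := hr x.1
      have h4 := X.hd.tri x.1 (r j) x.2
      have h5 := X.hd.symm (r j) x.2
      have h6 := neg_abs_le (X.d x.1 (r j) - X.d x.2 (r j))
      have h7 := hlip (X.d x.1 x.2) (⨆ j : Fin N, |X.d x.1 (r j) - X.d x.2 (r j)|)
      rw [one_mul, abs_of_nonneg (sub_nonneg.mpr h1)] at h7
      refine (le_abs_self _).trans (h7.trans ?_)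
      linarith
  · rw [integral_add' (integrable_const _) hi2, integral_const, integral_indicator_const _ hS',
      (measurePreserving_fst (μ := X.P) (ν := X.P)).measureReal_preimage hS.nullMeasurableSet]
    have h1 := mul_le_mul_of_nonneg_right hN (by positivity : 0 ≤ 2 * R)
    have h2 : ε * (2 + 2 * R) = η := div_mul_cancel₀ _ (by positivity)
    simp only [probReal_univ, smul_eq_mul, one_mul]
    linarith

section
variable {Ω : Type} [MeasurableSpace Ω] {Q : Measure Ω} [IsProbabilityMeasure Q]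

theorem H2_span {s : Lp ℝ 2 (Q.prod Q)}
    (hs : s ∈ Submodule.span ℝ {k : Lp ℝ 2 (Q.prod Q) | ∃ u v, k = tens u v}) :
    ∃ C : ℝ, 0 ≤ C ∧ ∀ k : Lp ℝ 2 (Q.prod Q), |⟪k, s⟫| ≤ C * ‖opK k‖ := by
  induction hs using Submodule.span_induction with
  | mem x hx =>
    obtain ⟨u, v, rfl⟩ := hx
    refine ⟨‖u‖ * ‖v‖, by positivity, fun k => ?_⟩
    rw [← opK_spec]
    refine (abs_real_inner_le_norm _ _).trans ?_
    have h := mul_le_mul_of_nonneg_left ((opK k).le_opNorm v) (norm_nonneg u)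
    linarith
  | zero => exact ⟨0, le_rfl, fun k => by simp⟩
  | add x y _ _ hx hy =>
    obtain ⟨C, hC, h⟩ := hx
    obtain ⟨C', hC', h'⟩ := hy
    refine ⟨C + C', by positivity, fun k => ?_⟩
    rw [inner_add_right]
    linarith [abs_add_le ⟪k, x⟫ ⟪k, y⟫, h k, h' k]
  | smul a x _ hx =>
    obtain ⟨C, hC, h⟩ := hx
    refine ⟨|a| * C, by positivity, fun k => ?_⟩
    rw [real_inner_smul_right, abs_mul, mul_assoc]
    exact mul_le_mul_of_nonneg_left (h k) (abs_nonneg a)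

theorem H2_sum {m : ℕ} (A : E m →L[ℝ] E m) (a b : E m) :
    ∑ i, ⟪A (EuclideanSpace.basisFun (Fin m) ℝ i), a⟫ * ⟪EuclideanSpace.basisFun (Fin m) ℝ i, b⟫ =
      ⟪A b, a⟫ := by
  conv_rhs => rw [← (EuclideanSpace.basisFun (Fin m) ℝ).sum_repr' b]
  rw [map_sum, sum_inner]
  refine Finset.sum_congr rfl fun i _ => ?_
  rw [map_smul, real_inner_smul_left, mul_comm]

/-- The finite-rank kernel of an operator on the range of a frame. -/
theorem H2_ker {m : ℕ} (V : E m →L[ℝ] Lp ℝ 2 Q) (A : E m →L[ℝ] E m) :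
    ∃ k : Lp ℝ 2 (Q.prod Q), opK k = V ∘L A ∘L ContinuousLinearMap.adjoint V ∧
      (∀ᵐ x ∂Q.prod Q, k x = ⟪A (vec V x.2), vec V x.1⟫) ∧
      ∀ t : Lp ℝ 2 (Q.prod Q), (∀ a b, ⟪V a, opK t (V b)⟫ = 0) → ⟪t, k⟫ = 0 := by
  let e := EuclideanSpace.basisFun (Fin m) ℝ
  refine ⟨∑ i, tens (V (A (e i))) (V (e i)), ?_, ?_, fun t ht => ?_⟩
  · ext1 v
    refine ext_inner_left ℝ fun u => ?_
    rw [opK_spec, sum_inner]
    simp only [inner_tens]
    show _ = ⟪u, V (A (ContinuousLinearMap.adjoint V v))⟫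
    rw [← ContinuousLinearMap.adjoint_inner_left, real_inner_comm, ← H2_sum]
    refine Finset.sum_congr rfl fun i _ => ?_
    rw [ContinuousLinearMap.adjoint_inner_right, ContinuousLinearMap.adjoint_inner_right]
  · have h1 := Lp.coeFn_fun_finsetSum Finset.univ fun i => tens (V (A (e i))) (V (e i))
    have h2 : ∀ᵐ x ∂Q.prod Q, ∀ i, tens (V (A (e i))) (V (e i)) x = V (A (e i)) x.1 * V (e i) x.2 :=
      ae_all_iff.mpr fun i => tens_ae _ _
    have h3 : ∀ᵐ x ∂Q.prod Q, ∀ i, ⟪vec V x.1, A (e i)⟫ = V (A (e i)) x.1 :=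
      Measure.quasiMeasurePreserving_fst.ae (ae_all_iff.mpr fun i => inner_vec_ae V (A (e i)))
    have h4 : ∀ᵐ x ∂Q.prod Q, ∀ i, ⟪vec V x.2, e i⟫ = V (e i) x.2 :=
      Measure.quasiMeasurePreserving_snd.ae (ae_all_iff.mpr fun i => inner_vec_ae V (e i))
    filter_upwards [h1, h2, h3, h4] with x a1 a2 a3 a4
    rw [a1, ← H2_sum]
    refine Finset.sum_congr rfl fun i _ => ?_
    rw [a2, ← a3, ← a4, real_inner_comm, real_inner_comm (vec V x.2)]
  · rw [inner_sum]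
    exact Finset.sum_eq_zero fun i _ => by rw [← opK_spec, ht]

end

/-- The Hilbert-Schmidt tail is small once the operator tail is small. -/
theorem hs_tail (X : PM) {R δ : ℝ} (hR : 1 ≤ R) (hδ : 0 < δ) : ∃ θ : ℝ, 0 < θ ∧
    ∀ (k : Lp ℝ 2 (X.P.prod X.P)) (m : ℕ) (V : E m →L[ℝ] Lp ℝ 2 X.P)
      (P : Lp ℝ 2 X.P →L[ℝ] Lp ℝ 2 X.P), IsFrame V P → IsSelfAdjoint (opK k) →
      ‖k - toL2 (X.P.prod X.P) (fun x => min (X.d x.1 x.2) R)‖ ≤ δ / 10 →
      ‖opK k - P * opK k * P‖ ≤ θ →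
      ∫ x, |min (X.d x.1 x.2) R - ⟪(ContinuousLinearMap.adjoint V ∘L opK k ∘L V) (vec V x.1),
        vec V x.2⟫| ∂(X.P.prod X.P) ≤ δ := by
  have hgm : Measurable fun x : X.Ω × X.Ω => min (X.d x.1 x.2) R :=
    X.hd.measurable.min measurable_const
  have hgb : ∀ x : X.Ω × X.Ω, |min (X.d x.1 x.2) R| ≤ R := fun x => by
    rw [abs_of_nonneg (le_min (X.hd.nonneg _ _) (by linarith))]
    exact min_le_right _ _
  have hg := toL2_ae (F3_mem (R := X.P.prod X.P) hgm hgb)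
  set g := toL2 (X.P.prod X.P) (fun x => min (X.d x.1 x.2) R) with hgd
  obtain ⟨s, hs, hgs⟩ := (dense_tens (P := X.P)).exists_dist_lt g (by positivity : 0 < δ / 10)
  obtain ⟨C, hC, hCs⟩ := H2_span hs
  refine ⟨(δ / 5) ^ 2 / (C + 1), by positivity, fun k m V P hV hT hk hθ => ?_⟩
  obtain ⟨hP, -, hPV, -⟩ := hV.proj
  have hPV' : ∀ a, P (V a) = V a := fun a => congrArg (fun T : E m →L[ℝ] Lp ℝ 2 X.P => T a) hPV
  set A := ContinuousLinearMap.adjoint V ∘L opK k ∘L V with hA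
  obtain ⟨k0, h1, h2, h3⟩ := H2_ker V A
  have e1 : opK (k - k0) = opK k - P * opK k * P := by
    rw [opK_sub, h1, hA, ← hV.2]
    rfl
  have e2 : ⟪k - k0, k0⟫ = 0 := by
    refine h3 _ fun a b => ?_
    rw [e1]
    show ⟪V a, opK k (V b) - P (opK k (P (V b)))⟫ = 0
    rw [inner_sub_right, hPV', ← ContinuousLinearMap.adjoint_inner_left P, hP.adjoint_eq, hPV',
      sub_self]
  have e3 : ‖k - k0‖ ^ 2 = ⟪k - k0, k - s⟫ + ⟪k - k0, s⟫ := by
    rw [← real_inner_self_eq_norm_sq, inner_sub_right _ k k0, e2, inner_sub_right _ k s]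
    ring
  have b1 : ‖k - s‖ ≤ δ / 5 := by
    rw [dist_eq_norm] at hgs
    have e : k - s = (k - g) + (g - s) := by abel
    rw [e]
    linarith [norm_add_le (k - g) (g - s)]
  have b2 : ⟪k - k0, k - s⟫ ≤ ‖k - k0‖ * (δ / 5) :=
    (real_inner_le_norm _ _).trans (mul_le_mul_of_nonneg_left b1 (norm_nonneg _))
  have b3 : ⟪k - k0, s⟫ ≤ (δ / 5) ^ 2 := by
    have a1 := (le_abs_self _).trans (hCs (k - k0))
    rw [e1] at a1
    have a2 := mul_le_mul_of_nonneg_left hθ hC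
    have a3 : (δ / 5) ^ 2 / (C + 1) * (C + 1) = (δ / 5) ^ 2 := div_mul_cancel₀ _ (by positivity)
    have a4 : 0 ≤ (δ / 5) ^ 2 / (C + 1) := by positivity
    linarith
  have b4 : ‖k - k0‖ ≤ 2 * (δ / 5) := by
    by_contra hlt
    have a1 := not_le.mp hlt
    nlinarith
  have b5 : ‖g - k0‖ ≤ δ := by
    have e : g - k0 = (k - k0) - (k - g) := by abel
    rw [e]
    linarith [norm_sub_le (k - k0) (k - g)]
  have hsa : ∀ a b, ⟪A a, b⟫ = ⟪A b, a⟫ := fun a b => by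
    show ⟪ContinuousLinearMap.adjoint V (opK k (V a)), b⟫ =
      ⟪ContinuousLinearMap.adjoint V (opK k (V b)), a⟫
    rw [ContinuousLinearMap.adjoint_inner_left, ContinuousLinearMap.adjoint_inner_left,
      ← ContinuousLinearMap.adjoint_inner_right (opK k), hT.adjoint_eq, real_inner_comm]
  refine le_trans (le_of_eq (integral_congr_ae ?_)) ((integral_abs_le_norm (g - k0)).trans b5)
  filter_upwards [hg, h2, Lp.coeFn_sub g k0] with x a1 a2 a3
  rw [a3, Pi.sub_apply, a1, a2, hsa]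

end Pool.Agent.P.MP_de432b_gt.LC
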