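import Pool.Agent.P.MP_de432b_gt.LC.H1
import Pool.Agent.P.MP_de432b_gt.LC.C5

namespace Pool.Agent.P.MP_de432b_gt.LC

open MeasureTheory Set Filter Topology
open scoped unitInterval RealInnerProductSpace

theorem H3_comm {R : Type} [NormedRing R] [NormedAlgebra ℝ R] {u S : R} (hS : ‖S - 1‖ < 1)
    (hc : Commute u (S * S)) : Commute u S := by
  have e : (u * S - S * u) + (u * S - S * u) =
      -((S - 1) * (u * S - S * u)) - (u * S - S * u) * (S - 1) := by
    have h1 : u * (S * S) = S * S * u := hc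
    have h2 : S * (u * S - S * u) + (u * S - S * u) * S = u * (S * S) - S * S * u := by
      noncomm_ring
    rw [h1, sub_self] at h2
    have h3 : -((S - 1) * (u * S - S * u)) - (u * S - S * u) * (S - 1) =
        (u * S - S * u) + (u * S - S * u) - (S * (u * S - S * u) + (u * S - S * u) * S) := by
      noncomm_ring
    rw [h3, h2, sub_zero]
  have hz : u * S - S * u = 0 := by
    generalize u * S - S * u = X at e
    have h1 : ‖X + X‖ = 2 * ‖X‖ := by
      rw [← two_smul ℝ X, norm_smul]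
      simp
    have h2 : ‖X + X‖ ≤ ‖S - 1‖ * ‖X‖ + ‖X‖ * ‖S - 1‖ := by
      rw [e]
      refine (norm_sub_le _ _).trans ?_
      rw [norm_neg]
      exact add_le_add (norm_mul_le _ _) (norm_mul_le _ _)
    have h3 : ‖X‖ ≤ 0 := by
      by_contra hp
      have hp' : 0 < ‖X‖ := not_le.mp hp
      nlinarith
    exact norm_le_zero_iff.mp h3
  exact sub_eq_zero.mp hz

theorem commute_of_sq {m : ℕ} (h : U m) {S : E m →L[ℝ] E m} (hS : ‖S - 1‖ < 1)
    (hc : Commute (h : E m →L[ℝ] E m) (S * S)) : Commute (h : E m →L[ℝ] E m) S :=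
  H3_comm hS hc

/-- The stabiliser of a measure in the orthogonal group. -/
def H3_stab {m : ℕ} (lam : Measure (E m)) : Subgroup (U m) where
  carrier := {h | lam.map (h : E m →L[ℝ] E m) = lam}
  one_mem' := by
    change lam.map (fun x => x) = lam
    simp
  mul_mem' {a b} ha hb := by
    have ha' : lam.map (a : E m →L[ℝ] E m) = lam := ha
    have hb' : lam.map (b : E m →L[ℝ] E m) = lam := hb
    have h := Measure.map_map (μ := lam) (a : E m →L[ℝ] E m).continuous.measurable
      (b : E m →L[ℝ] E m).continuous.measurable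
    rw [hb', ha'] at h
    exact h.symm
  inv_mem' {a} ha := by
    have ha' : lam.map (a : E m →L[ℝ] E m) = lam := ha
    have h := Measure.map_map (μ := lam) ((a⁻¹ : U m) : E m →L[ℝ] E m).continuous.measurable
      (a : E m →L[ℝ] E m).continuous.measurable
    have e : ((a⁻¹ : U m) : E m →L[ℝ] E m) ∘ (a : E m →L[ℝ] E m) = id := by
      have : ((a⁻¹ : U m) : E m →L[ℝ] E m) * (a : E m →L[ℝ] E m) = 1 := by
        rw [← Submonoid.coe_mul, inv_mul_cancel]
        rfl
      funext x
      exact congrArg (fun T : E m →L[ℝ] E m => T x) this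
    rw [ha', e, Measure.map_id] at h
    exact h

theorem H3_int {m : ℕ} {F : Type} [NormedAddCommGroup F] {μ : Measure (E m)} [IsFiniteMeasure μ]
    {C : ℝ} (hμ : ∀ᵐ x ∂μ, ‖x‖ ≤ C) {f : E m → F} (hf : Continuous f) : Integrable f μ := by
  obtain ⟨K, hK⟩ := (isCompact_closedBall (0 : E m) C).exists_bound_of_continuousOn hf.continuousOn
  refine Integrable.of_bound hf.aestronglyMeasurable K (hμ.mono fun x hx => hK x ?_)
  simpa using hx

theorem H3_second {m : ℕ} {μ : Measure (E m)} [IsFiniteMeasure μ] {C : ℝ}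
    (hμ : ∀ᵐ x ∂μ, ‖x‖ ≤ C) {T : E m →L[ℝ] E m}
    (hT : ∀ u v : E m, ∫ x, ⟪x, u⟫ * ⟪x, v⟫ ∂μ = ⟪T u, v⟫) :
    ∫ x, InnerProductSpace.rankOne ℝ x x ∂μ = T := by
  have hc : Continuous fun x : E m => InnerProductSpace.rankOne ℝ x x :=
    (InnerProductSpace.rankOne ℝ : E m →L[ℝ] _).continuous.clm_apply continuous_id
  have hi := H3_int hμ hc
  ext1 u
  refine ext_inner_right ℝ fun v => ?_
  rw [ContinuousLinearMap.integral_apply hi, real_inner_comm, ← integral_inner
    (H3_int hμ (hc.clm_apply continuous_const)), ← hT]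
  refine integral_congr_ae (Eventually.of_forall fun x => ?_)
  simp only [InnerProductSpace.rankOne_apply, inner_smul_right]
  rw [real_inner_comm v x]

theorem exists_geo (X : PM) {m : ℕ} {e : X.Ω → E m} (he : Measurable e) {C : ℝ}
    (hb : ∀ p, ‖e p‖ ≤ C) (hi : ∀ u v : E m, ∫ p, ⟪e p, u⟫ * ⟪e p, v⟫ ∂X.P = ⟪u, v⟫)
    {A : E m →L[ℝ] E m} (hA : IsSelfAdjoint A) {s : ℝ} (hs : 0 < s) (hs' : s * ‖A‖ ≤ 1 / 2)
    {H : ℝ} (hH : 1 ≤ H) : ∃ Γ : Geo m, Γ.B = 2 * C ∧
      Γ.lam = X.P.map (fun p => (1 + s • A) (e p)) ∧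
      (∀ h : U m, Γ.lam.map (h : E m →L[ℝ] E m) = Γ.lam → h ∈ Γ.G) ∧ gram Γ.lam ≤ 3 * s * ‖A‖ ∧
      ∀ x y : E m, Γ.ρ ((1 + s • A) x) ((1 + s • A) y) = rhoC H (X.P.map e) A (x - y) := by
  have hC : 0 ≤ C := by
    obtain ⟨p⟩ := nonempty_of_isProbabilityMeasure X.P
    exact (norm_nonneg _).trans (hb p)
  have hn : ‖s • A‖ = s * ‖A‖ := by rw [norm_smul, Real.norm_of_nonneg hs.le]
  have hS1 : ‖(1 + s • A) - 1‖ < 1 := by
    rw [add_sub_cancel_left, hn]
    linarith
  have hsa : ∀ x y : E m, ⟪(1 + s • A) x, y⟫ = ⟪x, (1 + s • A) y⟫ := by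
    intro x y
    have := hA.isSymmetric x y
    simp only [ContinuousLinearMap.coe_coe] at this
    simp only [add_apply, smul_apply,
      one_apply_eq_self, inner_add_left, inner_add_right, real_inner_smul_left,
      real_inner_smul_right, this]
  have hg : ‖(1 + s • A) * (1 + s • A) - 1‖ ≤ 3 * s * ‖A‖ := by
    have e1 : (1 + s • A) * (1 + s • A) - 1 = s • A + s • A + (s • A) * (s • A) := by
      noncomm_ring
    rw [e1]
    have h1 := norm_add₃_le (a := s • A) (b := s • A) (c := (s • A) * (s • A))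
    have h2 := norm_mul_le (s • A) (s • A)
    rw [hn] at h1 h2
    have h3 : 0 ≤ s * ‖A‖ := by positivity
    nlinarith
  have hcA : ∀ u : E m →L[ℝ] E m, Commute u (1 + s • A) → Commute u A := by
    intro u hu
    have h1 : u * (1 + s • A) = (1 + s • A) * u := hu
    rw [mul_add, add_mul, mul_one, one_mul, add_right_inj] at h1
    ext1 x
    have h2 : u (s • A x) = s • A (u x) := congrArg (fun R : E m →L[ℝ] E m => R x) h1
    rw [map_smul] at h2
    exact smul_right_injective _ hs.ne' h2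
  have hSb : ∀ x : E m, ‖(1 + s • A) x‖ ≤ 2 * ‖x‖ := by
    intro x
    rw [add_apply, one_apply_eq_self]
    refine (norm_add_le _ _).trans ?_
    have := (s • A).le_opNorm x
    rw [hn] at this
    nlinarith [norm_nonneg x]
  obtain ⟨W, hW⟩ : IsUnit (1 + s • A) := by
    have h1 : ‖-(s • A)‖ < 1 := by
      rw [norm_neg, hn]
      linarith
    refine ⟨Units.oneSub _ h1, ?_⟩
    simp
  generalize (1 + s • A) = S at *
  subst hW
  set S : E m →L[ℝ] E m := (W : E m →L[ℝ] E m) with hSdef
  set T : E m →L[ℝ] E m := ((W⁻¹ : (E m →L[ℝ] E m)ˣ) : E m →L[ℝ] E m) with hTdef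
  have hTS : ∀ x, T (S x) = x := fun x =>
    congrArg (fun R : E m →L[ℝ] E m => R x) (W.inv_mul)
  set ν₀ : Measure (E m) := X.P.map e with hν₀
  set lam : Measure (E m) := X.P.map (fun p => S (e p)) with hlam
  have hSe : Measurable fun p => S (e p) := S.continuous.measurable.comp he
  have : IsProbabilityMeasure ν₀ := Measure.isProbabilityMeasure_map he.aemeasurable
  have : IsProbabilityMeasure lam := Measure.isProbabilityMeasure_map hSe.aemeasurable
  have : IsProbabilityMeasure (ν₀.map (fun x : E m => -x)) :=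
    Measure.isProbabilityMeasure_map measurable_neg.aemeasurable
  have hms : ∀ c : ℝ, MeasurableSet {x : E m | ‖x‖ ≤ c} := fun c =>
    measurableSet_le measurable_norm measurable_const
  have b0 : ∀ᵐ x ∂ν₀, ‖x‖ ≤ C :=
    (ae_map_iff he.aemeasurable (hms C)).mpr (Eventually.of_forall hb)
  have b1 : ∀ᵐ x ∂(ν₀.map (fun x : E m => -x)), ‖x‖ ≤ C :=
    (ae_map_iff measurable_neg.aemeasurable (hms C)).mpr (b0.mono fun x hx => by simpa using hx)
  have b2 : ∀ᵐ x ∂lam, ‖x‖ ≤ 2 * C :=
    (ae_map_iff hSe.aemeasurable (hms _)).mpr (Eventually.of_forall fun p => by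
      have := hSb (e p)
      have := hb p
      change ‖S (e p)‖ ≤ 2 * C
      linarith)
  have hq : ∀ u v : E m, Continuous fun x : E m => ⟪x, u⟫ * ⟪x, v⟫ := fun u v => by fun_prop
  have c0 : ∀ u v : E m, ∫ x, ⟪x, u⟫ * ⟪x, v⟫ ∂ν₀ = ⟪u, v⟫ := fun u v => by
    rw [hν₀, integral_map he.aemeasurable (hq u v).aestronglyMeasurable, hi]
  have c2 : ∀ u v : E m, ∫ x, ⟪x, u⟫ * ⟪x, v⟫ ∂lam = ⟪S u, S v⟫ := fun u v => by
    rw [hlam, integral_map hSe.aemeasurable (hq u v).aestronglyMeasurable, ← hi]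
    simp only [hsa]
  have hcS : ∀ h ∈ H3_stab lam, Commute (h : E m →L[ℝ] E m) S := by
    intro h hh
    have hh' : lam.map (h : E m →L[ℝ] E m) = lam := hh
    have hin : ∀ x y : E m, ⟪(h : E m →L[ℝ] E m) x, (h : E m →L[ℝ] E m) y⟫ = ⟪x, y⟫ :=
      fun x y => ContinuousLinearMap.inner_map_map_of_mem_unitary h.2 x y
    refine commute_of_sq h hS1 ?_
    have key : ∀ u v : E m, ⟪S ((h : E m →L[ℝ] E m) u), S ((h : E m →L[ℝ] E m) v)⟫ =
        ⟪S u, S v⟫ := by
      intro u v
      rw [← c2, ← c2]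
      conv_lhs => rw [← hh']
      rw [integral_map (h : E m →L[ℝ] E m).continuous.measurable.aemeasurable
        (hq _ _).aestronglyMeasurable]
      simp only [hin]
    ext1 u
    refine ext_inner_right ℝ fun w => ?_
    obtain ⟨v, rfl⟩ : ∃ v, (h : E m →L[ℝ] E m) v = w :=
      ⟨star (h : E m →L[ℝ] E m) w, congrArg (fun R : E m →L[ℝ] E m => R w) h.2.2⟩
    change ⟪(h : E m →L[ℝ] E m) (S (S u)), _⟫ = ⟪S (S ((h : E m →L[ℝ] E m) u)), _⟫
    rw [hin, hsa, hsa (S ((h : E m →L[ℝ] E m) u)), key]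
  have hcT : ∀ h ∈ H3_stab lam, ∀ x, T ((h : E m →L[ℝ] E m) x) = (h : E m →L[ℝ] E m) (T x) := by
    intro h hh x
    have := Commute.units_inv_right (hcS h hh)
    exact (congrArg (fun R : E m →L[ℝ] E m => R x) this).symm
  have hν : ν₀ = lam.map T := by
    rw [hlam, Measure.map_map T.continuous.measurable hSe, hν₀]
    congr 1
    funext p
    exact (hTS _).symm
  have i0 : ∀ h ∈ H3_stab lam, ν₀.map (h : E m →L[ℝ] E m) = ν₀ := by
    intro h hh
    have hh' : lam.map (h : E m →L[ℝ] E m) = lam := hh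
    have hm := (h : E m →L[ℝ] E m).continuous.measurable
    rw [hν]
    conv_rhs => rw [← hh']
    rw [Measure.map_map hm T.continuous.measurable, Measure.map_map T.continuous.measurable hm]
    congr 1
    funext x
    exact (hcT h hh x).symm
  let t : I := ⟨1 / 2, by norm_num, by norm_num⟩
  have ht : (t : ℝ) = 1 / 2 := rfl
  refine ⟨{
    B := 2 * C
    Bn := C
    hB := by positivity
    hBn := hC
    ρ := fun x y => rhoC H ν₀ A (T (x - y))
    C := ‖A‖ * C * ‖T‖
    hC := by positivity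
    ρ_self := fun x => by rw [sub_self, map_zero, rhoC_zero hH]
    ρ_symm := fun x y => by rw [← neg_sub y x, map_neg, rhoC_neg]
    ρ_tri := fun x y z => by
      rw [← sub_add_sub_cancel x y z, map_add]
      exact rhoC_add hH b0 _ _
    ρ_le := fun x y => by
      refine (rhoC_le hH b0 _).trans ?_
      rw [mul_assoc (‖A‖ * C)]
      exact mul_le_mul_of_nonneg_left (T.le_opNorm _) (by positivity)
    lam := lam
    lam_bd := b2
    nu := mixM t ν₀ (ν₀.map (fun x : E m => -x))
    nu_bd := ae_mixM t b0 b1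
    nu_mean := by
      rw [integral_mixM t (f := fun x : E m => x) (H3_int b0 continuous_id)
        (H3_int b1 continuous_id),
        integral_map measurable_neg.aemeasurable continuous_id'.aestronglyMeasurable,
        integral_neg, ht, smul_neg]
      norm_num
    nu_cov := fun u v => by
      rw [integral_mixM t (H3_int b0 (hq u v)) (H3_int b1 (hq u v)),
        integral_map measurable_neg.aemeasurable (hq u v).aestronglyMeasurable]
      simp only [inner_neg_left, neg_mul_neg, c0, smul_eq_mul]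
      ring
    G := H3_stab lam
    ρ_inv := fun h hh x y => by
      rw [← map_sub, hcT h hh, rhoC_inv h (i0 h hh) (hcA _ (hcS h hh))]
    lam_inv := fun h hh => hh
    nu_inv := fun h hh => by
      have hm := (h : E m →L[ℝ] E m).continuous.measurable
      rw [mixM_map hm, i0 h hh]
      congr 1
      conv_rhs => rw [← i0 h hh]
      rw [Measure.map_map hm measurable_neg, Measure.map_map measurable_neg hm]
      congr 1
      funext x
      exact map_neg _ x }, rfl, rfl, fun h hh => hh, ?_, fun x y => ?_⟩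
  · change gram lam ≤ _
    rw [gram, H3_second b2 (T := S * S) (fun u v => by rw [c2]; exact (hsa _ _).symm)]
    exact hg
  · change rhoC H ν₀ A (T (S x - S y)) = _
    rw [← map_sub, hTS]

end Pool.Agent.P.MP_de432b_gt.LC
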