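import Pool.Agent.P.MP_de432b_gt.LC.S2
import Pool.Agent.P.MP_de432b_gt.LC.B6
import Pool.Agent.P.MP_de432b_gt.LC.C6
import Pool.Agent.P.MP_de432b_gt.LC.F3
import Pool.Agent.P.MP_de432b_gt.LC.F5

/-!
Stage zero, part three: the canonical kernel, its finite rank part and the first gauge.
-/

namespace Pool.Agent.P.MP_de432b_gt.LC

open MeasureTheory Set Filter Topology
open scoped unitInterval RealInnerProductSpace

theorem H4_tuple (A : PM) {ψ : ℝ → ℝ} {M η : ℝ} (hM : 0 ≤ M) (b : ∀ t, |ψ t| ≤ M)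
    (hm : Monotone ψ) (hl : ∀ s t, |ψ s - ψ t| ≤ 1 * |s - t|) (hη : 0 < η) :
    ∃ (N : ℕ) (f : Fin N → A.Ω → ℝ), (∀ i, Lip A.d (f i)) ∧
      ∫ x, (ψ (A.d x.1 x.2) - tupK ψ f x) ∂(A.P.prod A.P) ≤ η := by
  classical
  have hη' : 0 < η / (2 * (M + 1)) := by positivity
  obtain ⟨i, hi, hd⟩ := A.hd.sep _ hη'
  have hms : ∀ n : ℕ, MeasurableSet {p | n ≤ i p} := fun n => measurableSet_le measurable_const hi
  have h1 := tendsto_measure_iInter_atTop (μ := A.P) (s := fun n : ℕ => {p | n ≤ i p})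
    (fun n => (hms n).nullMeasurableSet) (fun n n' h p hp => le_trans h hp) ⟨0, measure_ne_top _ _⟩
  have h2 : (⋂ n : ℕ, {p | n ≤ i p}) = ∅ := eq_empty_of_forall_notMem fun p hp =>
    Nat.not_succ_le_self _ (mem_iInter.mp hp (i p + 1))
  rw [h2, measure_empty] at h1
  obtain ⟨N, hN⟩ := (h1.eventually (gt_mem_nhds (ENNReal.ofReal_pos.mpr hη'))).exists
  have hN' : A.P.real {p | N ≤ i p} ≤ η / (2 * (M + 1)) :=
    ENNReal.toReal_le_of_le_ofReal hη'.le hN.le
  let f : Fin N → A.Ω → ℝ := fun n p => if h : ∃ q, i q = n then A.d p h.choose else 0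
  have hf : ∀ n, Lip A.d (f n) := fun n => by
    by_cases h : ∃ q, i q = n
    · simp only [f, dif_pos h]
      exact A.hd.lip_left _
    · simp only [f, dif_neg h]
      exact C1_lip_zero A.hd
  refine ⟨N, f, hf, ?_⟩
  have hc := F3_cont hl
  have mT : MeasurableSet {x : A.Ω × A.Ω | N ≤ i x.2} := measurable_snd (hms N)
  have i1 := F3_int (R := A.P.prod A.P) (hc.measurable.comp A.hd.measurable) fun _ => b _
  have i2 := F3_int (R := A.P.prod A.P) (F3_meas hc fun n => (hf n).measurable A.hd) fun _ => b _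
  have i3 : Integrable (fun x : A.Ω × A.Ω => {x : A.Ω × A.Ω | N ≤ i x.2}.indicator
      (fun _ => 2 * M) x) (A.P.prod A.P) := (integrable_const _).indicator mT
  have h3 : ∫ x, (ψ (A.d x.1 x.2) - tupK ψ f x) ∂(A.P.prod A.P) ≤
      ∫ x, (2 * (η / (2 * (M + 1))) + {x : A.Ω × A.Ω | N ≤ i x.2}.indicator (fun _ => 2 * M) x)
        ∂(A.P.prod A.P) := integral_mono (i1.sub i2) ((integrable_const _).add i3) fun x => by
    show ψ (A.d x.1 x.2) - tupK ψ f x ≤ _
    by_cases hx : N ≤ i x.2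
    · rw [indicator_of_mem (show x ∈ {x : A.Ω × A.Ω | N ≤ i x.2} from hx), tupK]
      linarith [(abs_le.mp (b (A.d x.1 x.2))).2, (abs_le.mp (b (⨆ n, |f n x.1 - f n x.2|))).1]
    · rw [indicator_of_notMem (show x ∉ {x : A.Ω × A.Ω | N ≤ i x.2} from hx), add_zero]
      have he : ∃ q, i q = ((⟨i x.2, lt_of_not_ge hx⟩ : Fin N) : ℕ) := ⟨x.2, rfl⟩
      have h4 := le_ciSup (Finite.bddAbove_range fun n => |f n x.1 - f n x.2|)
        ⟨i x.2, lt_of_not_ge hx⟩
      have h5 := hd x.2 he.choose he.choose_spec.symm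
      have h6 : A.d x.1 x.2 - 2 * (η / (2 * (M + 1))) ≤ ⨆ n, |f n x.1 - f n x.2| := by
        refine le_trans ?_ ((le_abs_self _).trans h4)
        simp only [f, dif_pos he]
        linarith [A.hd.tri x.1 he.choose x.2, A.hd.symm x.2 he.choose]
      have h7 := (abs_le.mp (hl (A.d x.1 x.2) (A.d x.1 x.2 - 2 * (η / (2 * (M + 1)))))).2
      rw [sub_sub_cancel, one_mul, abs_of_pos (by positivity)] at h7
      have h8 : ψ _ ≤ tupK ψ f x := hm h6
      linarith
  refine h3.trans ?_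
  rw [integral_add (integrable_const _) i3, integral_const, probReal_univ, one_smul,
    integral_indicator_const _ mT, smul_eq_mul]
  have h4 : (A.P.prod A.P).real {x : A.Ω × A.Ω | N ≤ i x.2} = A.P.real {p | N ≤ i p} :=
    measurePreserving_snd.measureReal_preimage (hms N).nullMeasurableSet
  rw [h4]
  have h5 : η / (2 * (M + 1)) * (2 * (M + 1)) = η := by field_simp
  nlinarith

section tail
variable {m : ℕ} {Ω : Type} [MeasurableSpace Ω] {P : Measure Ω} [IsProbabilityMeasure P]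

theorem H4_tail (k : Lp ℝ 2 (P.prod P)) {η : ℝ} (hη : 0 < η) : ∃ θ : ℝ, 0 < θ ∧
    ∀ κ : Lp ℝ 2 (P.prod P), ‖opK (k - κ)‖ ≤ θ → ⟪k - κ, κ⟫ = 0 → ‖k - κ‖ ≤ η := by
  obtain ⟨s, hs, hks⟩ := (dense_tens (P := P)).exists_dist_lt k (half_pos hη)
  have hC : ∃ C : ℝ, 0 ≤ C ∧ ∀ h : Lp ℝ 2 (P.prod P), |⟪h, s⟫| ≤ C * ‖opK h‖ := by
    clear hks
    induction hs using Submodule.span_induction with
    | mem x hx =>
      obtain ⟨u, v, rfl⟩ := hx
      refine ⟨‖u‖ * ‖v‖, by positivity, fun h => ?_⟩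
      rw [← opK_spec]
      exact (abs_real_inner_le_norm _ _).trans
        ((mul_le_mul_of_nonneg_left ((opK h).le_opNorm v) (norm_nonneg _)).trans_eq (by ring))
    | zero => exact ⟨0, le_rfl, fun h => by simp⟩
    | add x y _ _ hx hy =>
      obtain ⟨C, c0, hC⟩ := hx
      obtain ⟨C', c0', hC'⟩ := hy
      refine ⟨C + C', by positivity, fun h => ?_⟩
      rw [inner_add_right, add_mul]
      exact (abs_add_le _ _).trans (add_le_add (hC h) (hC' h))
    | smul a x _ hx =>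
      obtain ⟨C, c0, hC⟩ := hx
      refine ⟨|a| * C, by positivity, fun h => ?_⟩
      rw [real_inner_smul_right, abs_mul, mul_assoc]
      exact mul_le_mul_of_nonneg_left (hC h) (abs_nonneg _)
  obtain ⟨C, c0, hC⟩ := hC
  refine ⟨η ^ 2 / (2 * (C + 1)), by positivity, fun κ h1 h2 => ?_⟩
  have e : ‖k - κ‖ ^ 2 = ⟪k - κ, k - s⟫ + ⟪k - κ, s⟫ := by
    rw [← inner_add_right, sub_add_cancel, ← real_inner_self_eq_norm_sq, inner_sub_right, h2,
      sub_zero]
  rw [dist_eq_norm] at hks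
  have h3 := (real_inner_le_norm (k - κ) (k - s)).trans
    (mul_le_mul_of_nonneg_left hks.le (norm_nonneg _))
  have h4 := (le_abs_self _).trans ((hC (k - κ)).trans (mul_le_mul_of_nonneg_left h1 c0))
  have h5 : C * (η ^ 2 / (2 * (C + 1))) ≤ η ^ 2 / 2 := by
    rw [← mul_div_assoc, div_le_div_iff₀ (by positivity) (by positivity)]
    nlinarith [sq_nonneg η]
  by_contra hc
  have := lt_of_not_ge hc
  nlinarith

/-- The kernel of a finite rank operator. -/
noncomputable def finK (W W' : E m →L[ℝ] Lp ℝ 2 P) : Lp ℝ 2 (P.prod P) :=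
  ∑ i, tens (W (EuclideanSpace.single i 1)) (W' (EuclideanSpace.single i 1))

theorem inner_finK (W W' : E m →L[ℝ] Lp ℝ 2 P) (h : Lp ℝ 2 (P.prod P)) : ⟪h, finK W W'⟫ =
    ∑ i, ⟪W (EuclideanSpace.single i 1), opK h (W' (EuclideanSpace.single i 1))⟫ := by
  simp only [finK, inner_sum, opK_spec]

theorem opK_finK (W W' : E m →L[ℝ] Lp ℝ 2 P) :
    opK (finK W W') = W ∘L ContinuousLinearMap.adjoint W' := by
  refine F2_ext fun u v => ?_
  rw [ContinuousLinearMap.comp_apply, ← ContinuousLinearMap.adjoint_inner_left W, finK, sum_inner,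
    ← (EuclideanSpace.basisFun (Fin m) ℝ).sum_inner_mul_inner]
  refine Finset.sum_congr rfl fun i _ => ?_
  rw [inner_tens, EuclideanSpace.basisFun_apply, ContinuousLinearMap.adjoint_inner_left,
    ContinuousLinearMap.adjoint_inner_right, real_inner_comm]

omit [IsProbabilityMeasure P] in
theorem vec_coord (W : E m →L[ℝ] Lp ℝ 2 P) (p : Ω) (i : Fin m) :
    vec W p i = W (EuclideanSpace.single i 1) p := by
  simp [vec, Pi.single_apply]

omit [IsProbabilityMeasure P] in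
theorem Lp_sum_ae {ι : Type} (s : Finset ι) (u : ι → Lp ℝ 2 P) :
    ∀ᵐ x ∂P, (∑ i ∈ s, u i) x = ∑ i ∈ s, u i x := by
  classical
  induction s using Finset.induction_on with
  | empty => exact Lp.coeFn_zero ℝ 2 P
  | insert a s ha ih =>
    filter_upwards [ih, Lp.coeFn_add (u a) (∑ i ∈ s, u i)] with x h1 h2
    rw [Finset.sum_insert ha, Finset.sum_insert ha, h2, Pi.add_apply, h1]

theorem finK_ae (W W' : E m →L[ℝ] Lp ℝ 2 P) :
    finK W W' =ᵐ[P.prod P] fun x => ⟪vec W x.1, vec W' x.2⟫ := by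
  filter_upwards [Lp_sum_ae Finset.univ fun i =>
    tens (W (EuclideanSpace.single i 1)) (W' (EuclideanSpace.single i 1)),
    ae_all_iff.mpr fun i => tens_ae (W (EuclideanSpace.single i 1))
      (W' (EuclideanSpace.single i 1))] with x h1 h2
  rw [finK, h1, PiLp.inner_apply]
  refine Finset.sum_congr rfl fun i _ => ?_
  rw [h2, vec_coord, vec_coord, real_inner_comm]
  rfl

omit [IsProbabilityMeasure P] in
theorem vec_bd {W : E m →L[ℝ] Lp ℝ 2 P} (h : ∀ x, ∃ c, ∀ᵐ p ∂P, |W x p| ≤ c) :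
    ∃ B : ℝ, 0 ≤ B ∧ ∀ᵐ p ∂P, ‖vec W p‖ ≤ B := by
  choose c hc using h
  refine ⟨∑ i, |c (EuclideanSpace.single i 1)|, Finset.sum_nonneg fun _ _ => abs_nonneg _, ?_⟩
  filter_upwards [ae_all_iff.mpr fun i : Fin m => hc (EuclideanSpace.single i 1)] with p hp
  refine (norm_sum_le _ _).trans (Finset.sum_le_sum fun i _ => ?_)
  rw [norm_smul, PiLp.norm_single, norm_one, mul_one]
  exact (hp i).trans (le_abs_self _)

end tail

section alg
variable {R : Type} [Ring R] [StarRing R] [Algebra ℝ R] [StarModule ℝ R]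

theorem H4_sa_half (x : R) : IsSelfAdjoint ((1 / 2 : ℝ) • (x + star x)) :=
  (IsSelfAdjoint.all _).smul (IsSelfAdjoint.add_star_self x)

theorem H4_sa_aeval {x : R} (hx : IsSelfAdjoint x) (φ : Polynomial ℝ) :
    IsSelfAdjoint (Polynomial.aeval x φ) := by
  rw [Polynomial.aeval_eq_sum_range]
  exact isSelfAdjoint_sum _ fun i _ => (IsSelfAdjoint.all _).smul (hx.pow i)

omit [StarRing R] [StarModule ℝ R] in
theorem H4_comm_aeval {p x : R} (h : Commute p x) (φ : Polynomial ℝ) :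
    Commute p (Polynomial.aeval x φ) := by
  rw [Polynomial.aeval_eq_sum_range]
  exact Commute.sum_right _ _ _ fun i _ => (h.pow_right i).smul_right _

end alg

theorem H4_kernel (A : PM) {M η : ℝ} (hM : 1 ≤ M) (hη : 0 < η) :
    ∃ (T : (z : PM) → Lp ℝ 2 z.P →L[ℝ] Lp ℝ 2 z.P) (ks : Lp ℝ 2 (A.P.prod A.P)),
      (∀ z, SCo T z) ∧ (∀ z, IsSelfAdjoint (T z)) ∧ opK ks = T A ∧
      (∀ᵐ x ∂A.P.prod A.P, |ks x| ≤ M) ∧
      ‖ks - toL2 (A.P.prod A.P) fun x => min (A.d x.1 x.2) M‖ ≤ η := by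
  have hM0 : 0 ≤ M := zero_le_one.trans hM
  have hl : ∀ s t, |win M 0 1 s - win M 0 1 t| ≤ 1 * |s - t| := fun s t => by
    simpa using F3_win_lip M 0 one_pos s t
  have hm : Monotone (win M 0 1) := fun s t h =>
    max_le_max le_rfl (min_le_min le_rfl (by simpa using h))
  obtain ⟨N, f, hf, hN⟩ := H4_tuple A hM0 (F3_win_bd hM0 0 1) hm hl
    (show 0 < η ^ 2 / (8 * M) by positivity)
  have acc := kerK_acc hM (F3_win_bd hM0 0 1) hm (F3_cont hl) A f hf hN
  have e0 : (fun x : A.Ω × A.Ω => win M 0 1 (A.d x.1 x.2)) = fun x => min (A.d x.1 x.2) M := by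
    funext x
    rw [win, sub_zero, div_one, min_comm,
      max_eq_right (le_min (by linarith [A.hd.nonneg x.1 x.2]) (by linarith))]
  rw [e0, mul_div_cancel₀ _ (by positivity)] at acc
  have acc' := (pow_le_pow_iff_left₀ (norm_nonneg _) hη.le two_ne_zero).mp acc
  let cl : ℝ → ℝ := fun t => max (-M) (min M t)
  have cb : ∀ t, |cl t| ≤ M := fun t =>
    abs_le.mpr ⟨le_max_left _ _, max_le (by linarith) (min_le_left _ _)⟩
  have cK : ∀ s t, |cl s - cl t| ≤ 1 * |s - t| := fun s t => by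
    rw [one_mul]
    exact F3_clamp M s t
  let k : (z : PM) → Lp ℝ 2 (z.P.prod z.P) := fun z => post cl (kerK N (win M 0 1) (2 * M) z)
  have hk : ∀ z, SC2 k z := fun z => (SC2_kerK N hM 0 (SC0.const 1) one_pos).post cb cK
  have hd := A.hd.trunc hM0
  have b0 : ∀ x : A.Ω × A.Ω, |min (A.d x.1 x.2) M| ≤ M := fun x =>
    (abs_of_nonneg (hd.nonneg _ _)).trans_le (min_le_right _ _)
  have m0 := F3_mem (R := A.P.prod A.P) hd.measurable b0
  set k0 := toL2 (A.P.prod A.P) fun x => min (A.d x.1 x.2) M with hk0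
  have c0 : post cl k0 = k0 := by
    refine Lp.ext ?_
    filter_upwards [post_ae (F3_cont cK) cb k0, toL2_ae m0] with x h1 h2
    rw [h1, h2]
    exact (congrArg (max (-M)) (min_eq_right (min_le_right _ _))).trans
      (max_eq_right (abs_le.mp (b0 x)).1)
  have n1 : ‖k A - k0‖ ≤ η := by
    have := norm_post_sub cb cK (kerK N (win M 0 1) (2 * M) A) k0
    rw [c0, one_mul] at this
    exact this.trans acc'
  have sw := Measure.measurePreserving_swap (μ := A.P) (ν := A.P)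
  have s0 : pullL sw k0 = k0 := by
    rw [hk0, pullL_toL2 sw m0]
    congr 1
    funext x
    exact hd.symm _ _
  have kb : ∀ᵐ x ∂A.P.prod A.P, |k A x| ≤ M := by
    filter_upwards [post_ae (F3_cont cK) cb (kerK N (win M 0 1) (2 * M) A)] with x hx
    exact hx ▸ cb _
  refine ⟨fun z => (1 / 2 : ℝ) • (opK (k z) + ContinuousLinearMap.adjoint (opK (k z))),
    (1 / 2 : ℝ) • (k A + pullL sw (k A)),
    fun z => SCo.smul (SC0.const _) ((SCo.op (hk z)).add (SCo.op (hk z)).adjoint),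
    fun z => H4_sa_half (R := Lp ℝ 2 z.P →L[ℝ] Lp ℝ 2 z.P) _, ?_, ?_, ?_⟩
  · rw [opK_smul, opK_add, opK_swap]
  · filter_upwards [Lp.coeFn_smul (1 / 2 : ℝ) (k A + pullL sw (k A)),
      Lp.coeFn_add (k A) (pullL sw (k A)), pullL_ae sw (k A), kb,
      sw.quasiMeasurePreserving.ae kb] with x h1 h2 h3 h4 h5
    rw [h1, Pi.smul_apply, h2, Pi.add_apply, h3, smul_eq_mul, abs_mul,
      abs_of_pos (by norm_num : (0 : ℝ) < 1 / 2)]
    linarith [abs_add_le (k A x) (k A x.swap)]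
  · have e : (1 / 2 : ℝ) • (k A + pullL sw (k A)) - k0 =
        (1 / 2 : ℝ) • ((k A - k0) + pullL sw (k A - k0)) := by
      rw [map_sub, s0]
      module
    have h1 := norm_add_le (k A - k0) (pullL sw (k A - k0))
    rw [LinearIsometry.norm_map] at h1
    rw [e, norm_smul, Real.norm_of_nonneg (by norm_num)]
    linarith

section frame
variable {m : ℕ} {H : Type} [NormedAddCommGroup H] [InnerProductSpace ℝ H] [CompleteSpace H]
  {V : E m →L[ℝ] H} {T P : H →L[ℝ] H}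

theorem H4_inner (hV : IsFrame V P) (x y : E m) : ⟪V x, V y⟫ = ⟪x, y⟫ := by
  rw [← ContinuousLinearMap.adjoint_inner_right]
  exact congrArg (fun S : E m →L[ℝ] E m => ⟪x, S y⟫) hV.1

theorem H4_P (hV : IsFrame V P) (y : H) : V (ContinuousLinearMap.adjoint V y) = P y :=
  congrArg (fun S : H →L[ℝ] H => S y) hV.2

theorem H4_PV (hV : IsFrame V P) (x : E m) : P (V x) = V x :=
  congrArg (fun S : E m →L[ℝ] H => S x) hV.proj.2.2.1

theorem H4_TV (hV : IsFrame V P) (hc : Commute P T) (x : E m) :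
    V ((ContinuousLinearMap.adjoint V ∘L T ∘L V) x) = T (V x) := by
  show V (ContinuousLinearMap.adjoint V (T (V x))) = _
  rw [H4_P hV, show P (T (V x)) = T (P (V x)) from congrArg (fun S : H →L[ℝ] H => S (V x)) hc.eq,
    H4_PV hV]

theorem H4_sa (hT : IsSelfAdjoint T) : IsSelfAdjoint (ContinuousLinearMap.adjoint V ∘L T ∘L V) :=
  ContinuousLinearMap.isSelfAdjoint_iff_isSymmetric.mpr fun x y => by
    show ⟪ContinuousLinearMap.adjoint V (T (V x)), y⟫ = ⟪x, ContinuousLinearMap.adjoint V (T (V y))⟫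
    rw [ContinuousLinearMap.adjoint_inner_left, ContinuousLinearMap.adjoint_inner_right]
    exact hT.isSymmetric _ _

end frame

theorem H4_fin {m : ℕ} {Ω : Type} [MeasurableSpace Ω] {Q : Measure Ω} [IsProbabilityMeasure Q]
    {k : Lp ℝ 2 (Q.prod Q)} {V : E m →L[ℝ] Lp ℝ 2 Q} {P : Lp ℝ 2 Q →L[ℝ] Lp ℝ 2 Q}
    (hV : IsFrame V P) (hc : Commute P (opK k)) :
    opK (k - finK (V ∘L (ContinuousLinearMap.adjoint V ∘L opK k ∘L V)) V) =
        opK k - P * opK k * P ∧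
      ⟪k - finK (V ∘L (ContinuousLinearMap.adjoint V ∘L opK k ∘L V)) V,
        finK (V ∘L (ContinuousLinearMap.adjoint V ∘L opK k ∘L V)) V⟫ = 0 := by
  have e : opK (k - finK (V ∘L (ContinuousLinearMap.adjoint V ∘L opK k ∘L V)) V) =
      opK k - P * opK k * P := by
    rw [opK_sub, opK_finK]
    congr 1
    refine ContinuousLinearMap.ext fun y => ?_
    show V (ContinuousLinearMap.adjoint V (opK k (V (ContinuousLinearMap.adjoint V y)))) =
      P (opK k (P y))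
    rw [H4_P hV, H4_P hV]
  refine ⟨e, ?_⟩
  rw [inner_finK, e]
  refine Finset.sum_eq_zero fun i _ => ?_
  have h1 : (opK k - P * opK k * P) (V (EuclideanSpace.single i 1)) = 0 := by
    show opK k (V _) - P (opK k (P (V _))) = 0
    rw [H4_PV hV, ← H4_TV hV hc, H4_PV hV, sub_self]
  rw [h1, inner_zero_right]

theorem exists_gauge (X₀ : PM) {ε : ℝ} (hε : 0 < ε) (τ : ℕ → ℝ) (hτ : ∀ m, 0 < τ m) :
    ∃ (m : ℕ) (Γ : Geo m) (_ : Slice Γ) (ga : Gauge m Γ.B) (r₁ : ℝ), 0 < r₁ ∧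
      (∀ z, DD false X₀ z < r₁ → SC false ga z) ∧ (∀ z, (⟨z, ga z⟩ : MK m Γ.B).x = 0) ∧
      (⟨X₀, ga X₀⟩ : MK m Γ.B).law = Γ.lam ∧ gram Γ.lam ≤ τ m ∧
      ∀ b, Qal Γ b X₀ ⟨X₀, ga X₀⟩ ≤ ε := by
  have hδ : 0 < ε / 4 := by positivity
  obtain ⟨R, S₀, hR, m₀, p₀, h₀⟩ := X₀.tight hδ
  obtain ⟨H, S₁, hH, m₁, p₁, h₁⟩ := exists_thick X₀ hδ
  have hη : 0 < (ε / 4) ^ 2 / (2 * H) := by positivity
  obtain ⟨T, ks, hT, saT, eT, bks, nks⟩ := H4_kernel X₀ (M := R + 1) (by linarith) hη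
  obtain ⟨θ, hθ, htail⟩ := H4_tail ks hη
  obtain ⟨m, V₀, P, φ, hV₀, hφ, hφP, hPT, hθP, hrange⟩ :=
    exists_gap (saT X₀) (eT ▸ isCompact_opK ks) hθ
  let S : (z : PM) → Lp ℝ 2 z.P →L[ℝ] Lp ℝ 2 z.P := fun z => Polynomial.aeval (T z) φ
  have hS : ∀ z, SCo S z := fun z => (hT z).aeval hφ
  have saS : ∀ z, IsSelfAdjoint (S z) := fun z =>
    H4_sa_aeval (R := Lp ℝ 2 z.P →L[ℝ] Lp ℝ 2 z.P) (saT z) φ
  obtain ⟨ρ, hρ, hnear⟩ := read_near (hS X₀) saS hV₀ (hφP.trans (by norm_num))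
  have eN : Newt (S X₀) = P := Newt_eq (saS X₀) hV₀.proj.1 hV₀.proj.2.1 (H4_comm_aeval hPT φ)
    (hφP.trans (by norm_num))
  have hV := hV₀.frame
  set V := frame m P with hVd
  set A := ContinuousLinearMap.adjoint V ∘L T X₀ ∘L V with hA
  have saA : IsSelfAdjoint A := H4_sa (saT X₀)
  have hτm := hτ m
  let s : ℝ := min (1 / 2) (τ m / 3) / (‖A‖ + 1)
  have hs : 0 < s := by positivity
  have hsA : s * ‖A‖ ≤ min (1 / 2) (τ m / 3) := by
    rw [div_mul_eq_mul_div, div_le_iff₀ (by positivity)]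
    exact mul_le_mul_of_nonneg_left (by linarith) (by positivity)
  have hsA' : s * ‖A‖ ≤ 1 / 2 := hsA.trans (min_le_left _ _)
  have saS1 := sa_one_add saA s
  let F : (z : PM) → Lp ℝ 2 z.P →L[ℝ] Lp ℝ 2 z.P := fun z => Newt (S z) + s • T z
  have eW : F X₀ ∘L frame m (Newt (S X₀)) = V ∘L (1 + s • A) := by
    refine ContinuousLinearMap.ext fun x => ?_
    show Newt (S X₀) (frame m (Newt (S X₀)) x) + s • T X₀ (frame m (Newt (S X₀)) x) =
      V (x + s • A x)
    rw [eN, map_add, map_smul, H4_TV hV hPT, H4_PV hV]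
  obtain ⟨B, hB, hb⟩ := vec_bd (W := V ∘L (1 + s • A)) fun x => by
    obtain ⟨y, hy⟩ := hrange (ContinuousLinearMap.adjoint V₀ (V ((1 + s • A) x)))
    rw [H4_P hV₀, H4_PV hV, ← eT] at hy
    have h1 := opK_bd bks (V₀ y)
    rw [← hy] at h1
    exact ⟨_, h1⟩
  let ga : Gauge m B := fun z => mkMarks hB (F z ∘L frame m (Newt (S z))) (oneL z.P)
  have hc : ∀ z : PM, ∀ᵐ p ∂z.P, (ga z).c p = 0 := fun z => by
    filter_upwards [oneL_ae (P := z.P)] with p hp
    show cl01 (1 - oneL z.P p) = 0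
    rw [hp, sub_self, cl01_of_mem ⟨le_rfl, zero_le_one⟩]
  have hg : ∀ᵐ p ∂X₀.P, (ga X₀).g p = vec (V ∘L (1 + s • A)) p := by
    filter_upwards [hb] with p hp
    show clip B (vec (F X₀ ∘L frame m (Newt (S X₀))) p) = _
    rw [eW, clip_of_le hp]
  have mg := (ga X₀).hg
  have := Measure.isProbabilityMeasure_map (μ := X₀.P) mg.aemeasurable
  have hlb : ∀ᵐ x ∂X₀.P.map (ga X₀).g, ‖x‖ ≤ B :=
    (ae_map_iff mg.aemeasurable (measurableSet_le measurable_norm measurable_const)).mpr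
      (Eventually.of_forall (ga X₀).bg)
  have cov : Cov (X₀.P.map (ga X₀).g) (1 + s • A) := fun u v => by
    rw [integral_map mg.aemeasurable (Continuous.aestronglyMeasurable (by fun_prop)),
      ← H4_inner hV, L2.inner_def]
    refine integral_congr_ae ?_
    filter_upwards [hg, inner_vec_ae (V ∘L (1 + s • A)) u, inner_vec_ae (V ∘L (1 + s • A)) v]
      with p h1 h2 h3
    rw [h1, h2, h3, mul_comm]
    rfl
  obtain ⟨Si, i1, i2⟩ := exists_inv_near (S := 1 + s • A) (by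
    rw [add_sub_cancel_left, norm_smul, Real.norm_of_nonneg hs.le]
    exact hsA')
  have box : BoxC X₀.P X₀.d (fun p q => rhoJ (X₀.P.map (ga X₀).g) H (Si * A * Si) ((ga X₀).g p)
      ((ga X₀).g q)) (4 * (ε / 4)) := by
    refine box_of_kernel X₀ mg (ga X₀).bg _ hδ (show 0 ≤ R + 1 by linarith) hH m₀ m₁ p₀ p₁
      (fun p hp q hq => (h₀ p hp q hq).trans (by linarith)) h₁ ?_
    obtain ⟨f1, f2⟩ := H4_fin (k := ks) hV (eT ▸ hPT)
    rw [eT] at f1 f2
    have n1 := htail _ (f1 ▸ hθP) f2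
    have hd := X₀.hd.trunc (show 0 ≤ R + 1 by linarith)
    have m0 := F3_mem (R := X₀.P.prod X₀.P) hd.measurable fun x =>
      (abs_of_nonneg (hd.nonneg _ _)).trans_le (min_le_right _ _)
    have n2 := norm_sub_le_norm_sub_add_norm_sub (finK (V ∘L A) V) ks
      (toL2 (X₀.P.prod X₀.P) fun x => min (X₀.d x.1 x.2) (R + 1))
    rw [norm_sub_rev _ ks] at n2
    have n3 := integral_abs_le_norm (finK (V ∘L A) V -
      toL2 (X₀.P.prod X₀.P) fun x => min (X₀.d x.1 x.2) (R + 1))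
    have a1 : ContinuousLinearMap.adjoint (1 + s • A) = 1 + s • A := saS1
    have a2 : ContinuousLinearMap.adjoint A = A := saA
    have g1 : ∀ᵐ p ∂X₀.P, (ga X₀).g p = (1 + s • A) (vec V p) := by
      filter_upwards [hg, vec_comp V (1 + s • A)] with p h1 h2
      rw [h1, h2, a1]
    have e : ∫ x, |⟪(Si * A * Si) ((ga X₀).g x.1), (ga X₀).g x.2⟫ - min (X₀.d x.1 x.2) (R + 1)|
        ∂(X₀.P.prod X₀.P) = ∫ x, |(finK (V ∘L A) V -
          toL2 (X₀.P.prod X₀.P) fun x => min (X₀.d x.1 x.2) (R + 1)) x| ∂(X₀.P.prod X₀.P) := by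
      refine integral_congr_ae ?_
      filter_upwards [Lp.coeFn_sub (finK (V ∘L A) V)
        (toL2 (X₀.P.prod X₀.P) fun x => min (X₀.d x.1 x.2) (R + 1)), finK_ae (V ∘L A) V,
        toL2_ae m0, F2_fst g1, F2_snd g1, F2_fst (vec_comp V A)] with x h1 h2 h3 h4 h5 h6
      have k1 : ∀ a, Si ((1 + s • A) a) = a := fun a =>
        congrArg (fun M : E m →L[ℝ] E m => M a) i2
      have k2 : ∀ a, (1 + s • A) (Si a) = a := fun a =>
        congrArg (fun M : E m →L[ℝ] E m => M a) i1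
      have k3 : ∀ a b, ⟪(1 + s • A) a, b⟫ = ⟪a, (1 + s • A) b⟫ := saS1.isSymmetric
      rw [h1, Pi.sub_apply, h2, h3, h4, h5, h6, a2, mul_apply_eq_comp, mul_apply_eq_comp, k1, ← k3,
        k2]
    rw [e]
    calc _ ≤ H * (2 * ((ε / 4) ^ 2 / (2 * H))) :=
          mul_le_mul_of_nonneg_left (by linarith) (by linarith)
      _ = _ := by field_simp
  have hsc : ∀ z, DD false X₀ z < ρ → SC false ga z := fun z hz =>
    read_sc hB (hS z) (((hS z).Newt saS (hnear z hz).1).add (SCo.smul (SC0.const s) (hT z)))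
      SC1.one saS (hnear z hz).1 (hnear z hz).2
  have hlaw : (⟨X₀, ga X₀⟩ : MK m B).law = X₀.P.map (ga X₀).g :=
    congrArg (fun Q => Measure.map (ga X₀).g Q) (bulkP_of_ae_zero (ga X₀).hc (hc X₀))
  obtain ⟨Γ, e1, e2, e3, e4, e5⟩ := exists_geo hB hlb saA hs hsA' i1 i2 cov hH
  clear_value ga
  subst e1
  obtain ⟨Sl⟩ := exists_slice Γ (e2 ▸ e4)
  refine ⟨m, Γ, Sl, ga, ρ, hρ, hsc, fun z => ?_, hlaw.trans e2.symm, ?_, fun b => ?_⟩
  · exact (integral_congr_ae (hc z)).trans (integral_zero _ _)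
  · rw [e2]
    linarith [hsA.trans (min_le_right _ _)]
  · refine Qal_le_of_box Γ b ⟨X₀, ga X₀⟩ (hc X₀) (hlaw.trans e2.symm) ?_
    rw [e3, ← mul_div_cancel₀ ε (show (4 : ℝ) ≠ 0 by norm_num)]
    exact box

end Pool.Agent.P.MP_de432b_gt.LC
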