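import Pool.Agent.P.MP_de432b_gt.LC.C9
import Pool.Agent.P.MP_de432b_gt.LC.E5

namespace Pool.Agent.P.MP_de432b_gt.LC

open MeasureTheory Set Filter Topology
open scoped unitInterval RealInnerProductSpace

namespace Setup
variable (Δ : Setup)

theorem I1_L0 (k : ℕ) : Δ.L₀ ≤ Δ.L k := by
  have h := Δ.hL
  have h1 : (1 : ℝ) ≤ 252 ^ k := one_le_pow₀ (by norm_num)
  unfold L
  nlinarith

theorem I1_x (k : ℕ) : (0 : ℝ) < 1 / 2 ^ k ∧ (1 : ℝ) / 2 ^ k ≤ 1 :=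
  ⟨by positivity, by
    rw [div_le_one (by positivity)]
    exact one_le_pow₀ (by norm_num)⟩

theorem I1_anti {k l : ℕ} (h : l ≤ k) : (1 : ℝ) / 2 ^ k ≤ 1 / 2 ^ l :=
  one_div_le_one_div_of_le (by positivity) (pow_le_pow_right₀ (by norm_num) h)

theorem I1_succ (k : ℕ) : (1 : ℝ) / 2 ^ (k + 1) = (1 / 2 ^ k) / 2 := by
  rw [pow_succ]; field_simp

theorem I1_t (k : ℕ) : Δ.t k = Δ.r * (1 / 2 ^ k) := by
  unfold t; ring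

theorem I1_β (k l : ℕ) : Δ.β k l = Δ.r * (5 - 2 * (1 / 2 ^ l) - 2 * (1 / 2 ^ k)) := by
  unfold β; ring

theorem I1_bb (k : ℕ) : Δ.bb k = Δ.r * (5 - 3 * (1 / 2 ^ k)) := by
  rw [bb, I1_β, I1_succ]; ring

theorem L_ge (k : ℕ) : 12 ≤ Δ.L k := Δ.hL.trans (Δ.I1_L0 k)
theorem L_succ (k : ℕ) : Δ.L (k + 1) = 252 * Δ.L k := by
  unfold L; ring
theorem L_mono {k l : ℕ} (h : k ≤ l) : Δ.L k ≤ Δ.L l :=
  mul_le_mul_of_nonneg_left (pow_le_pow_right₀ (by norm_num) h) (by linarith [Δ.hL])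
theorem L_rho (k : ℕ) : 2 * Δ.Γ.C * Δ.Γ.B ≤ Δ.L k := Δ.hL'.trans (Δ.I1_L0 k)
theorem a_ge (k : ℕ) : 1 ≤ Δ.a k := by
  have := Δ.L_ge k
  unfold a; linarith
theorem a_le {k l : ℕ} (h : l ≤ k) : 12 * Δ.a l ≤ Δ.L k := by
  have := Δ.L_mono h
  unfold a; linarith
theorem a_succ (k : ℕ) : Δ.a (k + 1) = 21 * Δ.L k := by
  rw [a, L_succ]; ring
theorem t_pos (k : ℕ) : 0 < Δ.t k := by
  rw [I1_t]; exact mul_pos Δ.hr (I1_x k).1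
theorem t_anti {k l : ℕ} (h : l ≤ k) : Δ.t k ≤ Δ.t l := by
  rw [I1_t, I1_t]; exact mul_le_mul_of_nonneg_left (I1_anti h) Δ.hr.le
theorem t_le (k : ℕ) : Δ.t k ≤ Δ.r := by
  rw [I1_t]; nlinarith [Δ.hr, I1_x k]
theorem β_pos (k l : ℕ) : 0 < Δ.β k l := by
  rw [I1_β]; exact mul_pos Δ.hr (by linarith [(I1_x k).2, (I1_x l).2])
theorem β_succ (k l : ℕ) : Δ.β (k + 1) l = Δ.β k l + Δ.t k := by
  rw [I1_β, I1_β, I1_t, I1_succ]; ring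
theorem β_add_t {k l : ℕ} (h : l ≤ k) : Δ.β k l + Δ.t l ≤ Δ.bb k := by
  rw [I1_β, I1_t, I1_bb]; nlinarith [Δ.hr, I1_anti h]
theorem bb_lt (k : ℕ) : Δ.bb k + Δ.t k < 5 * Δ.r := by
  rw [I1_t, I1_bb]; nlinarith [mul_pos Δ.hr (I1_x k).1]
theorem r_le_bb (k : ℕ) : Δ.r ≤ Δ.bb k := by
  rw [I1_bb]; nlinarith [Δ.hr, (I1_x k).2]
theorem s_mem (k : ℕ) : 1 ≤ Δ.s k ∧ Δ.s k < Δ.s (k + 1) ∧ Δ.s k < 2 := by
  unfold s
  rw [I1_succ]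
  obtain ⟨h1, h2⟩ := I1_x k
  exact ⟨by linarith, by linarith, by linarith⟩

variable {Δ} {k : ℕ} {y : MK Δ.m Δ.Γ.B}

theorem Inv.x_le (h : Δ.Inv k y) : y.x ≤ 1 / 100 := by
  linarith [h.2.1, Δ.hr']
theorem Inv.q_lt (h : Δ.Inv k y) : Δ.q y < 2 := h.1.trans (Δ.s_mem k).2.2
theorem Inv.rad_le (h : Δ.Inv k y) : Δ.S.rad y.law ≤ Δ.S.r / 2 := by
  have h1 : Δ.S.rad y.law / Δ.e₁ < 2 :=
    lt_of_le_of_lt ((le_max_left _ _).trans (le_max_right _ _)) h.q_lt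
  rw [div_lt_iff₀ Δ.he₁] at h1
  linarith [Δ.he₁']
theorem Inv.dd (h : Δ.Inv k y) : DD Δ.b y.A Δ.X₀ ≤ 20 * Δ.r + 2 * Δ.e₀ := by
  have h1 : DD Δ.b y.A Δ.X₀ ≤ 4 * y.x + Δ.e₀ * Δ.q y :=
    DD_le_qq Δ.S Δ.he₀ y (by linarith [h.x_le])
  nlinarith [h.2.1, h.q_lt, Δ.he₀]
theorem Inv.gam (h : Δ.Inv k y) (l : ℕ) : Gam (Δ.a l) y.A ≤ 1 / 16 := by
  have h1 := (abs_le.mp (Gam_lip (Δ.a_ge l) Δ.b y.A Δ.X₀)).2
  have h2 := Δ.hGam (Δ.a l) (by unfold a; linarith [Δ.I1_L0 l])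
  linarith [h.dd, Δ.hr', Δ.he₀']
theorem Inv.gram (h : Δ.Inv k y) : gram (y.A.P.map y.μ.g) ≤ Δ.γ := by
  have h1 : LC.gram y.law / Δ.e₂ < 2 :=
    lt_of_le_of_lt ((le_max_right _ _).trans (le_max_right _ _)) h.q_lt
  rw [div_lt_iff₀ Δ.he₂] at h1
  have h2 := gram_tot y (by linarith [h.x_le])
  have h3 : y.x * (1 + Δ.Γ.B ^ 2) ≤ 6 * Δ.r * (1 + Δ.Γ.B ^ 2) :=
    mul_le_mul_of_nonneg_right (by linarith [h.2.1, Δ.hr]) (by positivity)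
  linarith [Δ.hgram]
theorem Inv.al (h : Δ.Inv k y) : Δ.Inv k (y.al Δ.S) := by
  have h1 : Δ.q (y.al Δ.S) = Δ.q y :=
    qq_al Δ.S Δ.he₁ Δ.he₁' y (by linarith [h.x_le]) h.q_lt
  exact ⟨h1 ▸ h.1, h.2.1, h.2.2⟩

theorem Stage.x_lt (St : Δ.Stage k) {z : PM} (h : St.w z < 0) :
    (⟨z, St.ga z⟩ : MK Δ.m Δ.Γ.B).x < Δ.bb k := by
  have h1 : ¬ ∀ l ≤ k, Δ.t l ≤ Gam (Δ.a l) z := fun h2 => by
    linarith [St.pair.exit z h2, Δ.t_pos k]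
  push Not at h1
  obtain ⟨l, hl, h2⟩ := h1
  have h3 := (St.inv z h).2.2 l hl
  have h4 := Δ.β_add_t hl
  change _ - Gam (Δ.a l) z < _ at h3
  linarith

/-- The invariants pass to the next stage under a small perturbation. -/
theorem inv_stab (Δ : Setup) (k : ℕ) : ∃ η : ℝ, 0 < η ∧ ∀ y y' : MK Δ.m Δ.Γ.B, Δ.Inv k y →
    y.x ≤ Δ.bb k → DM Δ.b ⊤ y y' < η → Δ.Inv (k + 1) y' := by
  obtain ⟨η, hη, H⟩ := qq_uc Δ.S (b := Δ.b) (X₀ := Δ.X₀) Δ.he₀ Δ.he₁ Δ.he₂ Δ.he₁'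
    (δ := Δ.s (k + 1) - Δ.s k) (by linarith [(Δ.s_mem k).2.1])
  have ht := Δ.t_pos k
  refine ⟨min η (Δ.t k / 4), lt_min hη (by positivity), fun y y' hy hx hd => ?_⟩
  have hd1 : DM Δ.b ⊤ y y' < η := hd.trans_le (min_le_left _ _)
  have hd2 : DM Δ.b ⊤ y y' < Δ.t k / 4 := hd.trans_le (min_le_right _ _)
  obtain ⟨sp, -, g, -, hg⟩ := exists_of_DM_lt hd2
  have hx1 := (abs_le.mp ((abs_x_sub sp g).trans hg)).1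
  have hb := Δ.bb_lt k
  have hx2 : y'.x < 5 * Δ.r := by linarith
  have hDD : DD Δ.b y.A y'.A ≤ Δ.t k / 4 := DD_le_DM.trans hd2.le
  refine ⟨?_, hx2, fun l hl => ?_⟩
  · have h1 : Δ.q y' ≤ Δ.q y + (Δ.s (k + 1) - Δ.s k) :=
      H y y' hy.q_lt (by linarith [hy.x_le]) (by linarith [Δ.hr']) hd1
    linarith [hy.1]
  · rw [β_succ]
    rcases Nat.lt_or_ge l (k + 1) with h1 | h1
    · have h2 := hy.2.2 l (Nat.lt_succ_iff.mp h1)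
      have h3 := (abs_le.mp (Gam_lip (Δ.a_ge l) Δ.b y.A y'.A)).2
      linarith
    · obtain rfl : l = k + 1 := le_antisymm hl h1
      have h2 := Gam_nonneg (a := Δ.a (k + 1)) (by linarith [Δ.a_ge (k + 1)]) y'.A
      have h3 : Δ.β k (k + 1) = Δ.bb k := rfl
      linarith

end Setup

end Pool.Agent.P.MP_de432b_gt.LC
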