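import Pool.Agent.P.MP_de432b_gt.LC.I1

namespace Pool.Agent.P.MP_de432b_gt.LC

open MeasureTheory Set Filter Topology
open scoped unitInterval RealInnerProductSpace

namespace Setup
variable {Δ : Setup} {k : ℕ} {T : Set PM} {θ v w : PM → ℝ}

theorem I2_a_pos (Δ : Setup) (k : ℕ) : 0 < Δ.a k := lt_of_lt_of_le one_pos (Δ.a_ge k)

theorem I2_le_nf (hT : T.Nonempty) {c x : ℝ} {z : PM}
    (h : ∀ Z ∈ T, x ≤ DD Δ.b (z.trunc (Δ.L k)) Z + 4 * Gam (Δ.a k) z - c * θ Z) :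
    x ≤ Δ.nf k T θ c z := by
  have : Nonempty T := hT.to_subtype
  exact le_ciInf fun Z => h Z.1 Z.2

theorem I2_exists (hT : T.Nonempty) {c x : ℝ} {z : PM} (h : Δ.nf k T θ c z < x) :
    ∃ Z ∈ T, DD Δ.b (z.trunc (Δ.L k)) Z + 4 * Gam (Δ.a k) z - c * θ Z < x := by
  have : Nonempty T := hT.to_subtype
  obtain ⟨Z, hZ⟩ := exists_lt_of_ciInf_lt h
  exact ⟨Z.1, Z.2, hZ⟩

theorem nf_le (hθ : ∀ Z ∈ T, 0 < θ Z ∧ θ Z ≤ Δ.t k) {c : ℝ} (hc : 0 ≤ c) {Z : PM} (hZ : Z ∈ T)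
    (z : PM) : Δ.nf k T θ c z ≤ DD Δ.b (z.trunc (Δ.L k)) Z + 4 * Gam (Δ.a k) z - c * θ Z := by
  refine ciInf_le (f := fun Z : T =>
    DD Δ.b (z.trunc (Δ.L k)) Z.1 + 4 * Gam (Δ.a k) z - c * θ Z.1) ⟨-(c * Δ.t k), ?_⟩ ⟨Z, hZ⟩
  rintro _ ⟨Y, rfl⟩
  have h1 := DD_nonneg Δ.b (z.trunc (Δ.L k)) Y.1
  have h2 := Gam_nonneg (I2_a_pos Δ k).le z
  have h3 := mul_le_mul_of_nonneg_left (hθ Y.1 Y.2).2 hc
  show -(c * Δ.t k) ≤ DD Δ.b (z.trunc (Δ.L k)) Y.1 + 4 * Gam (Δ.a k) z - c * θ Y.1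
  linarith

theorem nf_lt (hT : T.Nonempty) {c : ℝ} {z : PM} (h : Δ.nf k T θ c z < 0) :
    ∃ Z ∈ T, DD Δ.b (z.trunc (Δ.L k)) Z < c * θ Z := by
  obtain ⟨Z, hZ, h1⟩ := I2_exists hT h
  have h2 := Gam_nonneg (I2_a_pos Δ k).le z
  exact ⟨Z, hZ, by linarith⟩

theorem nf_mem (hθ : ∀ Z ∈ T, 0 < θ Z ∧ θ Z ≤ Δ.t k) {Z : PM} (hZ : Z ∈ T)
    (hd : ∀ p q, Z.d p q ≤ Δ.a k) : Δ.nf k T θ 1 Z < 0 := by
  have h1 := nf_le hθ zero_le_one hZ Z
  have ha := I2_a_pos Δ k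
  have hL := Δ.a_le (le_refl k)
  rw [PM.trunc_eq Z (fun p q => (hd p q).trans (by linarith)), DD_self] at h1
  have h2 := Gam_le ha Z MeasurableSet.univ (fun p _ q _ => hd p q)
  rw [compl_univ, measureReal_empty] at h2
  linarith [(hθ Z hZ).1]

theorem I2_lip (hT : T.Nonempty) (hθ : ∀ Z ∈ T, 0 < θ Z ∧ θ Z ≤ Δ.t k) {c : ℝ} (hc : 0 ≤ c)
    (z z' : PM) : Δ.nf k T θ c z - 9 * DD Δ.b z z' ≤ Δ.nf k T θ c z' := by
  refine I2_le_nf hT fun Z hZ => ?_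
  have h1 := nf_le hθ hc hZ z
  have h2 := DD_triangle Δ.b (z.trunc (Δ.L k)) (z'.trunc (Δ.L k)) Z
  have h3 := DD_trunc_trunc (b := Δ.b) z z' (Δ.L k) (Δ.L k)
  rw [sub_self, abs_zero, add_zero] at h3
  have h4 := (abs_le.mp (Gam_lip (Δ.a_ge k) Δ.b z z')).2
  linarith

theorem I2_gain {G e x : ℝ} (hG : G ≤ 1 / 8) (he : 0 ≤ e) (he' : e ≤ 1 / 32) (hx : 0 ≤ x) :
    7 / 8 * x ≤ x * (1 - G) / (1 - e) := by
  rw [le_div_iff₀ (by linarith)]
  nlinarith [mul_nonneg hx he, mul_nonneg hx (sub_nonneg.mpr hG)]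

theorem nf_level (hT : T.Nonempty) (hθ : ∀ Z ∈ T, 0 < θ Z ∧ θ Z ≤ Δ.t k) {c : ℝ} (hc : 0 ≤ c) :
    Δ.Level k (Δ.nf k T θ c) where
  lip z z' := by
    have h1 := I2_lip hT hθ hc z z'
    have h2 := I2_lip hT hθ hc z' z
    rw [DD_comm] at h2
    exact abs_sub_le_iff.mpr ⟨by linarith, by linarith⟩
  trunc z L' hL := by
    unfold nf
    rw [PM.trunc_trunc z hL, Gam_trunc (I2_a_pos Δ k).le z ((Δ.a_le (le_refl k)).trans hL)]
  mono z D η η' hD h0 h1 h2 hG := by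
    refine I2_le_nf hT fun Z hZ => ?_
    have hD' : 12 * Δ.a k ≤ D := (Δ.a_le (le_refl k)).trans hD
    have e1 := nf_le hθ hc hZ (z.ball D η)
    have e2 := DD_triangle Δ.b ((z.ball D η).trunc (Δ.L k)) ((z.ball D η').trunc (Δ.L k)) Z
    have e3 := DD_trunc_trunc (b := Δ.b) (z.ball D η) (z.ball D η') (Δ.L k) (Δ.L k)
    rw [sub_self, abs_zero, add_zero] at e3
    have e4 := DD_ball_ball (b := Δ.b) z z D η η'
    rw [DD_self, zero_add, abs_sub_comm, abs_of_nonneg (sub_nonneg.mpr h1)] at e4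
    have e5 := Gam_ball_le (Δ.a_ge k) z hD' h0
    have e6 : Gam (Δ.a k) (z.ball D η) ≤ 1 / 8 := by linarith [hG k le_rfl]
    have e7 := Gam_ball (I2_a_pos Δ k) z hD' h0 h1 (by linarith) e6
    have e8 := I2_gain e6 h0 (h1.trans h2) (sub_nonneg.mpr h1)
    linarith

theorem Level.up (h : Δ.Level k v) : Δ.Level (k + 1) v where
  lip := h.lip
  trunc z L' hL := h.trunc z L' ((Δ.L_mono (Nat.le_succ k)).trans hL)
  mono z D η η' hD h0 h1 h2 hG := h.mono z D η η' ((Δ.L_mono (Nat.le_succ k)).trans hD) h0 h1 h2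
    fun l hl => hG l (hl.trans (Nat.le_succ k))

theorem Level.min (h : Δ.Level k v) (h' : Δ.Level k w) : Δ.Level k fun z => min (v z) (w z) where
  lip z z' := (abs_min_sub_min_le_max _ _ _ _).trans (max_le (h.lip z z') (h'.lip z z'))
  trunc z L' hL := by
    simp only [h.trunc z L' hL, h'.trunc z L' hL]
  mono z D η η' hD h0 h1 h2 hG := by
    have e1 := h.mono z D η η' hD h0 h1 h2 hG
    have e2 := h'.mono z D η η' hD h0 h1 h2 hG
    have e3 := min_le_left (v (z.ball D η)) (w (z.ball D η))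
    have e4 := min_le_right (v (z.ball D η)) (w (z.ball D η))
    exact le_min (by linarith) (by linarith)

theorem Level.comb (h : Δ.Level k v) (h' : Δ.Level k w) {a b : ℝ} (ha : 0 ≤ a) (hb : 0 ≤ b)
    (hab : a + b = 1) : Δ.Level k fun z => a * v z + b * w z where
  lip z z' := by
    have e1 := mul_le_mul_of_nonneg_left (h.lip z z') ha
    have e2 := mul_le_mul_of_nonneg_left (h'.lip z z') hb
    have e3 : a * v z + b * w z - (a * v z' + b * w z') = a * (v z - v z') + b * (w z - w z') := by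
      ring
    have e4 : a * (9 * DD Δ.b z z') + b * (9 * DD Δ.b z z') = 9 * DD Δ.b z z' := by
      rw [← add_mul, hab, one_mul]
    rw [e3]
    refine (abs_add_le _ _).trans ?_
    rw [abs_mul, abs_mul, abs_of_nonneg ha, abs_of_nonneg hb]
    linarith
  trunc z L' hL := by
    simp only [h.trunc z L' hL, h'.trunc z L' hL]
  mono z D η η' hD h0 h1 h2 hG := by
    have e1 := mul_le_mul_of_nonneg_left (h.mono z D η η' hD h0 h1 h2 hG) ha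
    have e2 := mul_le_mul_of_nonneg_left (h'.mono z D η η' hD h0 h1 h2 hG) hb
    have e4 : a * (η' - η) + b * (η' - η) = η' - η := by
      rw [← add_mul, hab, one_mul]
    rw [mul_add] at e1 e2
    linarith

theorem I2_le (hT : T.Nonempty) (hθ : ∀ Z ∈ T, 0 < θ Z ∧ θ Z ≤ Δ.t k) (z : PM) :
    Δ.nf k T θ 2 z ≤ Δ.nf k T θ 1 z := by
  refine I2_le_nf hT fun Z hZ => ?_
  have h1 := nf_le hθ zero_le_two hZ z
  linarith [(hθ Z hZ).1]

theorem I2_gap (hT : T.Nonempty) (hθ : ∀ Z ∈ T, 0 < θ Z ∧ θ Z ≤ Δ.t k) {z : PM}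
    (h : Δ.nf k T θ 1 z ≤ 0) (hG : 0 < Gam (Δ.a k) z) : Δ.nf k T θ 2 z < 0 := by
  obtain ⟨Z, hZ, h1⟩ := I2_exists hT (h.trans_lt hG)
  have h2 := nf_le hθ zero_le_two hZ z
  have h3 := DD_nonneg Δ.b (z.trunc (Δ.L k)) Z
  linarith

theorem I2_exit (hT : T.Nonempty) (hθ : ∀ Z ∈ T, 0 < θ Z ∧ θ Z ≤ Δ.t k) {z : PM}
    (hG : Δ.t k ≤ Gam (Δ.a k) z) : 2 * Δ.t k ≤ Δ.nf k T θ 2 z := by
  refine I2_le_nf hT fun Z hZ => ?_
  have h3 := DD_nonneg Δ.b (z.trunc (Δ.L k)) Z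
  linarith [(hθ Z hZ).2]

theorem pair_zero (hT : T.Nonempty) (hθ : ∀ Z ∈ T, 0 < θ Z ∧ θ Z ≤ Δ.t 0) :
    Δ.Pair 0 (Δ.nf 0 T θ 1) (Δ.nf 0 T θ 2) where
  lv := nf_level hT hθ zero_le_one
  lw := nf_level hT hθ zero_le_two
  le := I2_le hT hθ
  gap _ h hG := I2_gap hT hθ h (hG 0 le_rfl)
  exit _ hG := I2_exit hT hθ (hG 0 le_rfl)

theorem Pair.succ (h : Δ.Pair k v w) (hT : T.Nonempty)
    (hθ : ∀ Z ∈ T, 0 < θ Z ∧ θ Z ≤ Δ.t (k + 1)) :
    Δ.Pair (k + 1) (fun z => min (v z) (Δ.nf (k + 1) T θ 1 z))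
      (fun z => min ((2 * v z + w z) / 3) (Δ.nf (k + 1) T θ 2 z)) where
  lv := h.lv.up.min (nf_level hT hθ zero_le_one)
  lw := by
    have e : (fun z => (2 * v z + w z) / 3) = fun z => 2 / 3 * v z + 1 / 3 * w z :=
      funext fun z => by ring
    have h1 : Δ.Level k fun z => (2 * v z + w z) / 3 := by
      rw [e]
      exact h.lv.comb h.lw (by norm_num) (by norm_num) (by norm_num)
    exact h1.up.min (nf_level hT hθ zero_le_two)
  le z := min_le_min (by linarith [h.le z]) (I2_le hT hθ z)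
  gap z hz hG := by
    rcases min_le_iff.mp hz with h1 | h1
    · have h2 := h.gap z h1 fun l hl => hG l (hl.trans (Nat.le_succ k))
      exact min_lt_iff.mpr (Or.inl (by linarith))
    · exact min_lt_iff.mpr (Or.inr (I2_gap hT hθ h1 (hG (k + 1) le_rfl)))
  exit z hG := by
    have h1 := h.exit z fun l hl => hG l (hl.trans (Nat.le_succ k))
    have h2 := Δ.t_anti (Nat.le_succ k)
    have h3 := h.le z
    exact le_min (by linarith) (I2_exit hT hθ (hG (k + 1) le_rfl))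

end Setup

end Pool.Agent.P.MP_de432b_gt.LC
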