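import Pool.Agent.P.MP_de432b_gt.LC.I2
import Pool.Agent.P.MP_de432b_gt.LC.D2
import Pool.Agent.P.MP_de432b_gt.LC.E3
import Pool.Agent.P.MP_de432b_gt.LC.G4

namespace Pool.Agent.P.MP_de432b_gt.LC

open MeasureTheory Set Filter Topology
open scoped unitInterval RealInnerProductSpace

theorem I3_delta {B η γ : ℝ} (hη : 0 < η) (hγ : 0 < γ) :
    ∃ δ : ℝ, 0 < δ ∧ √(2 * B * (4 * δ)) + 4 * δ < η ∧ 4 * δ * (B + 1) ≤ γ := by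
  have c1 : Continuous fun δ : ℝ => √(2 * B * (4 * δ)) + 4 * δ := by fun_prop
  have c2 : Continuous fun δ : ℝ => 4 * δ * (B + 1) := by fun_prop
  have e1 : ∀ᶠ δ in 𝓝 (0 : ℝ), √(2 * B * (4 * δ)) + 4 * δ < η :=
    c1.continuousAt.eventually_lt continuousAt_const (by simpa using hη)
  have e2 : ∀ᶠ δ in 𝓝 (0 : ℝ), 4 * δ * (B + 1) < γ :=
    c2.continuousAt.eventually_lt continuousAt_const (by simpa using hγ)
  obtain ⟨δ, ⟨h1, h2⟩, h3⟩ :=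
    (((e1.and e2).filter_mono nhdsWithin_le_nhds).and
      (self_mem_nhdsWithin (a := (0 : ℝ)) (s := Ioi 0))).exists
  exact ⟨δ, h3, h1, h2.le⟩

namespace Setup
variable {Δ : Setup} {k : ℕ}

theorem I3_alt (St : Δ.Stage k) {δ : ℝ} (hδ : 0 < δ) {R : Gauge Δ.m Δ.Γ.B} {Z : PM}
    {μ : Marks Δ.m Δ.Γ.B Z.Ω} (hR : SC Δ.b R Z) (h1 : dmk Z.P μ (R Z) ≤ δ)
    (h : 0 < St.o Z ∨ (St.w Z < 0 ∧ dmk Z.P μ (St.ga Z) ≤ 2 * δ)) :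
    ∃ r : ℝ, 0 < r ∧ ∀ z, DD Δ.b Z z < r →
      (0 < St.o z ∨ (St.w z < 0 ∧ dmk z.P (St.ga z) (R z) < 4 * δ)) := by
  rcases h with h | ⟨h, h2⟩
  · refine ⟨St.o Z / 9, by positivity, fun z hz => Or.inl ?_⟩
    have a1 := abs_le.mp (St.pair.lv.lip Z z)
    have a2 := abs_le.mp (St.pair.lw.lip Z z)
    unfold Stage.o at h hz ⊢
    linarith [a1.2, a2.2]
  · obtain ⟨r, hr, H⟩ := (St.sc Z h).dmk_cont hR (δ := δ / 2) (by positivity)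
    refine ⟨min r (-St.w Z / 9), lt_min hr (by linarith), fun z hz => Or.inr ⟨?_, ?_⟩⟩
    · have a2 := abs_le.mp (St.pair.lw.lip Z z)
      linarith [a2.1, hz.trans_le (min_le_right _ _)]
    · have a1 := H z (hz.trans_le (min_le_left _ _))
      have a2 := dmk_tri (Q := Z.P) (St.ga Z) μ (R Z)
      rw [dmk_comm (St.ga Z) μ] at a2
      linarith

theorem Stage.thin (St : Δ.Stage k) : ∃ (δ ζ₁ : ℝ) (R : Gauge Δ.m Δ.Γ.B), 0 < δ ∧ 0 < ζ₁ ∧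
    4 * δ * (Δ.Γ.B + 1) ≤ Δ.γ ∧
    (∀ (z : PM) (μ : Marks Δ.m Δ.Γ.B z.Ω) (χ : I), St.w z < 0 →
      (χ = 0 ∨ dmk z.P (St.ga z) μ < 4 * δ) → Δ.Inv (k + 1) ⟨z, mixK z.P χ (St.ga z) μ⟩) ∧
    ∀ Z, St.Nice δ ζ₁ Z → ∃ θ : ℝ, 0 < θ ∧ θ ≤ Δ.t (k + 1) ∧ ∀ z, DD Δ.b Z z < 2 * θ →
      SC Δ.b R z ∧ Δ.Inv (k + 1) ⟨z, mixK z.P 1 (St.ga z) (R z)⟩ ∧
      (0 < St.o z ∨ (St.w z < 0 ∧ dmk z.P (St.ga z) (R z) < 4 * δ)) := by
  obtain ⟨η, hη, hst⟩ := Δ.inv_stab k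
  have hγ : 0 < Δ.γ := by
    have := Δ.he₂
    have := Δ.hr
    exact lt_of_lt_of_le (by positivity) Δ.hgram
  obtain ⟨δ, hδ, d1, d2⟩ := I3_delta (B := Δ.Γ.B) hη hγ
  have d3 : 4 * δ < η := by linarith [Real.sqrt_nonneg (2 * Δ.Γ.B * (4 * δ))]
  have hCT : 0 < Δ.Γ.CT := by
    have := Δ.Γ.hB
    have := Δ.Γ.hBn
    unfold Geo.CT
    positivity
  have hL : 1 ≤ Δ.L k := by linarith [Δ.L_ge k]
  obtain ⟨R, hR⟩ := exists_reader Δ.Γ hL hδ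
  refine ⟨δ, min Δ.Γ.zmax (η / 4 / Δ.Γ.CT), R, hδ, lt_min Δ.Γ.zmax_pos (by positivity), d2,
    fun z μ χ hw h => ?_, ?_⟩
  · refine hst ⟨z, St.ga z⟩ _ (St.inv z hw) (St.x_lt hw).le
      ((DM_same _ _ (Subgroup.mem_top 1)).trans_lt ?_)
    rcases h with rfl | h
    · exact (mix_near _ _ _).trans_lt (by simpa using hη)
    · exact (mix_close _ _ _ h).trans_lt d1
  · rintro Z ⟨y, ζ, rfl, z0, z1, hd, hI, hx, halt⟩
    obtain ⟨⟨ρ, hρ, hsc⟩, hdm⟩ := hR y ζ z0 (z1.trans (min_le_left _ _)) hd (hI.gram.trans Δ.hγ')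
    have hZ : SC Δ.b R (y.tag Δ.Γ (Δ.L k) ζ).A := (hsc _ (by rwa [DD_self])).of_false
    obtain ⟨r₁, hr₁, H₁⟩ := I3_alt St hδ hZ hdm halt
    obtain ⟨r₂, hr₂, H₂⟩ := hZ.cont (δ := η / 8) (by positivity)
    have ht := Δ.t_pos (k + 1)
    have m1 : min (min (Δ.t (k + 1)) ρ) (min r₁ r₂) ≤ Δ.t (k + 1) :=
      (min_le_left _ _).trans (min_le_left _ _)
    have m2 : min (min (Δ.t (k + 1)) ρ) (min r₁ r₂) ≤ ρ :=
      (min_le_left _ _).trans (min_le_right _ _)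
    have m3 : min (min (Δ.t (k + 1)) ρ) (min r₁ r₂) ≤ r₁ :=
      (min_le_right _ _).trans (min_le_left _ _)
    have m4 : min (min (Δ.t (k + 1)) ρ) (min r₁ r₂) ≤ r₂ :=
      (min_le_right _ _).trans (min_le_right _ _)
    have m0 : 0 < min (min (Δ.t (k + 1)) ρ) (min r₁ r₂) := by positivity
    refine ⟨min (min (Δ.t (k + 1)) ρ) (min r₁ r₂) / 2, by positivity, by linarith,
      fun z hz => ⟨?_, ?_, H₁ z (by linarith)⟩⟩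
    · exact (hsc z ((DD_false_le Δ.b _ _).trans_lt (by linarith))).of_false
    · refine hst y _ hI hx ?_
      have a1 : DM Δ.b ⊤ y (y.tag Δ.Γ (Δ.L k) ζ) ≤ η / 4 := by
        rw [DM_comm]
        refine (DM_tag Δ.Γ ⊤ y hL (fun p q => by linarith [hd p q]) z0.le).trans ?_
        have := (le_div_iff₀ hCT).mp (z1.trans (min_le_right _ _))
        linarith
      have a2 : DM Δ.b ⊤ (y.tag Δ.Γ (Δ.L k) ζ)
          ⟨(y.tag Δ.Γ (Δ.L k) ζ).A, R (y.tag Δ.Γ (Δ.L k) ζ).A⟩ ≤ δ :=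
        (DM_top_le_dmk _ _).trans hdm
      have a3 := H₂ z (by linarith)
      have a4 : DM Δ.b ⊤ (⟨z, R z⟩ : MK Δ.m Δ.Γ.B) ⟨z, mixK z.P 1 (St.ga z) (R z)⟩ ≤ 0 := by
        rw [DM_comm]
        refine (DM_same _ _ (Subgroup.mem_top (bestU z.P (St.ga z) (R z)))).trans
          ((mix_near' _ _ _).trans (by simp))
      have t1 := DM_triangle (b := Δ.b) (G := ⊤) (x := y) (y := y.tag Δ.Γ (Δ.L k) ζ)
        (z := ⟨z, mixK z.P 1 (St.ga z) (R z)⟩)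
      have t2 := DM_triangle (b := Δ.b) (G := ⊤) (x := y.tag Δ.Γ (Δ.L k) ζ)
        (y := ⟨(y.tag Δ.Γ (Δ.L k) ζ).A, R (y.tag Δ.Γ (Δ.L k) ζ).A⟩)
        (z := ⟨z, mixK z.P 1 (St.ga z) (R z)⟩)
      have t3 := DM_triangle (b := Δ.b) (G := ⊤)
        (x := ⟨(y.tag Δ.Γ (Δ.L k) ζ).A, R (y.tag Δ.Γ (Δ.L k) ζ).A⟩) (y := ⟨z, R z⟩)
        (z := ⟨z, mixK z.P 1 (St.ga z) (R z)⟩)
      linarith

end Setup

end Pool.Agent.P.MP_de432b_gt.LC
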