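import Pool.Agent.P.MP_de432b_gt.LC.I3

namespace Pool.Agent.P.MP_de432b_gt.LC

open MeasureTheory Set Filter Topology
open scoped unitInterval RealInnerProductSpace

/-- The interpolation weight between two negative parts. -/
noncomputable def I4_chi (u o : ℝ) : I :=
  projIcc 0 1 zero_le_one (max (-u) 0 / (max (-u) 0 + max (-o) 0))

theorem I4_chi_zero {u : ℝ} (hu : 0 ≤ u) (o : ℝ) : I4_chi u o = 0 := by
  rw [I4_chi, max_eq_right (neg_nonpos.mpr hu), zero_div]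
  exact projIcc_left _

theorem I4_chi_one {u o : ℝ} (hu : u < 0) (ho : 0 ≤ o) : I4_chi u o = 1 := by
  rw [I4_chi, max_eq_right (neg_nonpos.mpr ho), add_zero, max_eq_left (neg_nonneg.mpr hu.le),
    div_self (neg_ne_zero.mpr hu.ne)]
  exact projIcc_right _

theorem I4_chi_cont {u o : ℝ} (h : min o u < 0) {δ : ℝ} (hδ : 0 < δ) : ∃ r : ℝ, 0 < r ∧
    ∀ u' o' : ℝ, |u - u'| < r → |o - o'| < r → |(I4_chi u o : ℝ) - I4_chi u' o'| ≤ δ := by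
  have hne : max (-u) 0 + max (-o) 0 ≠ 0 := by
    have h1 := le_max_left (-u) 0
    have h2 := le_max_right (-u) 0
    have h3 := le_max_left (-o) 0
    have h4 := le_max_right (-o) 0
    rcases min_lt_iff.mp h with h | h <;> linarith
  have hc : ContinuousAt (fun x : ℝ × ℝ => (I4_chi x.1 x.2 : ℝ)) (u, o) := by
    refine (continuous_subtype_val.comp continuous_projIcc).continuousAt.comp ?_
    exact ContinuousAt.div (by fun_prop) (by fun_prop) hne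
  obtain ⟨r, hr, H⟩ := Metric.continuousAt_iff.mp hc δ hδ
  refine ⟨r, hr, fun u' o' h1 h2 => ?_⟩
  have := H (x := (u', o')) (by
    rw [Prod.dist_eq, max_lt_iff, Real.dist_eq, Real.dist_eq, abs_sub_comm u', abs_sub_comm o']
    exact ⟨h1, h2⟩)
  rw [Real.dist_eq, abs_sub_comm] at this
  exact this.le

namespace Setup
variable {Δ : Setup} {k : ℕ}

theorem I4_mono (St : Δ.Stage k) {δ ζ₀ ζ₁ : ℝ} (h : ζ₀ ≤ ζ₁) {Z : PM} (hZ : St.Nice δ ζ₀ Z) :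
    St.Nice δ ζ₁ Z := by
  obtain ⟨y, ζ, h1, h2, h3, h4⟩ := hZ
  exact ⟨y, ζ, h1, h2, h3.trans h, h4⟩

theorem I4_d_le (St : Δ.Stage k) {δ ζ₀ : ℝ} {Z : PM} (hZ : St.Nice δ ζ₀ Z) (p q : Z.Ω) :
    Z.d p q ≤ 21 * Δ.L k := by
  obtain ⟨y, ζ, rfl, -, -, h4, -⟩ := hZ
  exact tag_d_le Δ.Γ y ζ (by linarith [Δ.L_ge k]) h4 p q

theorem I4_w_neg (St : Δ.Stage k) {z : PM} (h : St.o z < 0) : St.w z < 0 := by
  have := St.pair.le z
  rw [Stage.o] at h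
  linarith

theorem I4_o_lip (St : Δ.Stage k) (z z' : PM) : |St.o z - St.o z'| ≤ 9 * DD Δ.b z z' := by
  have h1 := abs_le.mp (St.pair.lv.lip z z')
  have h2 := abs_le.mp (St.pair.lw.lip z z')
  rw [Stage.o, Stage.o, abs_le]
  constructor <;> linarith [h1.1, h1.2, h2.1, h2.2]

theorem Stage.step (St : Δ.Stage k) : ∃ δ ζ₁ : ℝ, 0 < δ ∧ 0 < ζ₁ ∧ ∀ ζ₀ ≤ ζ₁,
    (∃ Z, St.Nice δ ζ₀ Z) → ∃ St' : Δ.Stage (k + 1), (∀ z, St'.v z ≤ St.v z) ∧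
      ∀ Z, St.Nice δ ζ₀ Z → St'.v Z < 0 := by
  obtain ⟨δ, ζ₁, R, hδ, hζ, hγ, hinv, hthin⟩ := St.thin
  refine ⟨δ, ζ₁, hδ, hζ, fun ζ₀ hζ₀ hne => ?_⟩
  choose! θ hθ0 hθ1 hθ2 using hthin
  obtain ⟨T, hTdef⟩ : ∃ T : Set PM, ∀ Z, Z ∈ T ↔ St.Nice δ ζ₀ Z := ⟨{Z | St.Nice δ ζ₀ Z},
    fun _ => Iff.rfl⟩
  have hT : T.Nonempty := hne.imp fun Z hZ => (hTdef Z).mpr hZ
  have hN : ∀ Z ∈ T, St.Nice δ ζ₁ Z := fun Z hZ => I4_mono St hζ₀ ((hTdef Z).mp hZ)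
  have hθ : ∀ Z ∈ T, 0 < θ Z ∧ θ Z ≤ Δ.t (k + 1) := fun Z hZ =>
    ⟨hθ0 Z (hN Z hZ), hθ1 Z (hN Z hZ)⟩
  have hlev := nf_level (Δ := Δ) (k := k + 1) hT hθ (c := 2) (by norm_num)
  have hball : ∀ z, Δ.nf (k + 1) T θ 2 z < 0 → SC Δ.b R z ∧
      Δ.Inv (k + 1) ⟨z, mixK z.P 1 (St.ga z) (R z)⟩ ∧
      (0 < St.o z ∨ (St.w z < 0 ∧ dmk z.P (St.ga z) (R z) < 4 * δ)) := by
    intro z hz
    obtain ⟨Z, hZ, hd⟩ := nf_lt hT hz
    refine hθ2 Z (hN Z hZ) z ?_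
    rw [DD_comm]
    refine lt_of_le_of_lt (DD_of_trunc z Z (by linarith [Δ.L_ge (k + 1)]) (fun p q => ?_) ?_) hd
    · have := I4_d_le St (hN Z hZ) p q
      rw [Δ.L_succ]
      linarith [Δ.L_ge k]
    · linarith [(hθ Z hZ).2, Δ.t_le (k + 1), Δ.hr']
  have hcase : ∀ z, min (St.o z) (Δ.nf (k + 1) T θ 2 z) < 0 →
      (0 ≤ Δ.nf (k + 1) T θ 2 z ∧ St.w z < 0) ∨ (Δ.nf (k + 1) T θ 2 z < 0 ∧ 0 ≤ St.o z) ∨
      (Δ.nf (k + 1) T θ 2 z < 0 ∧ St.w z < 0 ∧ dmk z.P (St.ga z) (R z) < 4 * δ) := by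
    intro z hz
    rcases le_or_gt 0 (Δ.nf (k + 1) T θ 2 z) with h | h
    · exact Or.inl ⟨h, I4_w_neg St ((min_lt_iff.mp hz).resolve_right (not_lt.mpr h))⟩
    · rcases le_or_gt 0 (St.o z) with h' | h'
      · exact Or.inr (Or.inl ⟨h, h'⟩)
      · exact Or.inr (Or.inr ⟨h, (hball z h).2.2.resolve_left (not_lt.mpr h'.le)⟩)
  refine ⟨{ v := fun z => min (St.v z) (Δ.nf (k + 1) T θ 1 z)
            w := fun z => min ((2 * St.v z + St.w z) / 3) (Δ.nf (k + 1) T θ 2 z)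
            ga := fun z => mixK z.P (I4_chi (Δ.nf (k + 1) T θ 2 z) (St.o z)) (St.ga z) (R z)
            pair := St.pair.succ hT hθ
            sc := fun z hz => ?_
            inv := fun z hz => ?_
            base := (min_le_left _ _).trans_lt St.base }, fun z => min_le_left _ _,
    fun Z hZ => (min_le_right _ _).trans_lt (nf_mem hθ ((hTdef Z).mpr hZ) fun p q => ?_)⟩
  · refine SC.mix (χ := fun z => I4_chi (Δ.nf (k + 1) T θ 2 z) (St.o z)) Δ.hγ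
      (fun ε hε => ?_) ?_
    · obtain ⟨r, hr, H⟩ := I4_chi_cont (o := St.o z) hz hε
      refine ⟨r / 9, by positivity, fun z' hz' => H _ _ ?_ ?_⟩
      · linarith [hlev.lip z z']
      · linarith [I4_o_lip St z z']
    · rcases hcase z hz with h | h | h
      · exact Or.inl ⟨I4_chi_zero h.1 _, St.sc z h.2⟩
      · exact Or.inr (Or.inl ⟨I4_chi_one h.1 h.2, (hball z h.1).1⟩)
      · refine Or.inr (Or.inr ⟨St.sc z h.2.1, (hball z h.1).1, (St.inv z h.2.1).gram, ?_⟩)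
        exact (mul_le_mul_of_nonneg_right h.2.2.le (by linarith [Δ.Γ.hB])).trans hγ
  · rcases hcase z hz with h | h | h
    · exact hinv z _ _ h.2 (Or.inl (I4_chi_zero h.1 _))
    · rw [I4_chi_one h.1 h.2]
      exact (hball z h.1).2.1
    · exact hinv z _ _ h.2.1 (Or.inr h.2.2)
  · rw [Δ.a_succ]
    exact I4_d_le St hZ p q

end Setup

end Pool.Agent.P.MP_de432b_gt.LC
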