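import Pool.Agent.P.MP_de432b_gt.LC.I2
import Pool.Agent.P.MP_de432b_gt.LC.D2
import Pool.Agent.P.MP_de432b_gt.LC.H4

namespace Pool.Agent.P.MP_de432b_gt.LC

open MeasureTheory Set Filter Topology
open scoped unitInterval RealInnerProductSpace

theorem I5_small {a b c d e : ℝ} (ha : 0 < a) (hb : 0 < b) (hc : 0 < c) (hd : 0 < d)
    (he : 0 < e) : ∃ r : ℝ, 0 < r ∧ r ≤ a ∧ r ≤ b ∧ r ≤ c ∧ r ≤ d ∧ r ≤ e :=
  ⟨min a (min b (min c (min d e))), by positivity, by simp, by simp, by simp, by simp, by simp⟩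

theorem I5_stage (Δ : Setup) (ga : Gauge Δ.m Δ.Γ.B) {R : ℝ} (hR : 0 < R) (hRL : 12 * R ≤ Δ.L₀)
    (htail : ∀ L, R ≤ L → DD Δ.b Δ.X₀ (Δ.X₀.trunc L) ≤ Δ.r / 100)
    (hG : ∀ a, R ≤ a → Gam a Δ.X₀ ≤ Δ.r / 100)
    (hsc : ∀ z, DD Δ.b Δ.X₀ z < 4 * Δ.r → SC Δ.b ga z)
    (hq : ∀ z, DD Δ.b Δ.X₀ z < 4 * Δ.r → Δ.q ⟨z, ga z⟩ < 1)
    (hx : ∀ z, (⟨z, ga z⟩ : MK Δ.m Δ.Γ.B).x = 0) : Nonempty (Δ.Stage 0) := by
  have hr := Δ.hr
  have hr' := Δ.hr'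
  have hL0 : Δ.L 0 = Δ.L₀ := by simp [Setup.L]
  have hL := Δ.hL
  have hθ : ∀ Z ∈ ({Δ.X₀.trunc R} : Set PM), 0 < (fun _ : PM => Δ.r) Z ∧
      (fun _ : PM => Δ.r) Z ≤ Δ.t 0 := fun _ _ => ⟨hr, by simp [Setup.t]⟩
  have hnear : ∀ z, Δ.nf 0 {Δ.X₀.trunc R} (fun _ => Δ.r) 2 z < 0 → DD Δ.b Δ.X₀ z < 4 * Δ.r := by
    intro z hz
    obtain ⟨Z, hZ, h⟩ := Setup.nf_lt (Set.singleton_nonempty _) hz
    obtain rfl : Z = Δ.X₀.trunc R := hZ
    have h1 := DD_of_trunc (b := Δ.b) z (Δ.X₀.trunc R) (L := Δ.L 0) (by rw [hL0]; linarith)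
      (fun p q => (min_le_right _ _).trans (by rw [max_eq_left hR.le, hL0]; linarith))
      (by linarith)
    have h2 := DD_triangle Δ.b Δ.X₀ (Δ.X₀.trunc R) z
    have h3 := htail R le_rfl
    rw [DD_comm Δ.b (Δ.X₀.trunc R) z] at h2
    linarith
  refine ⟨⟨Δ.nf 0 {Δ.X₀.trunc R} (fun _ => Δ.r) 1, Δ.nf 0 {Δ.X₀.trunc R} (fun _ => Δ.r) 2, ga,
    Setup.pair_zero (Set.singleton_nonempty _) hθ, fun z hz => hsc z (hnear z hz),
    fun z hz => ⟨?_, ?_, fun l _ => ?_⟩, ?_⟩⟩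
  · have := hq z (hnear z hz)
    norm_num [Setup.s]
    exact this
  · rw [hx z]
    positivity
  · rw [hx z]
    have h1 := Δ.β_pos 0 l
    have h2 := Gam_nonneg (zero_le_one.trans (Δ.a_ge l)) z
    linarith
  · have h1 := Setup.nf_le (k := 0) hθ zero_le_one (Set.mem_singleton _) Δ.X₀
    have h2 := DD_triangle Δ.b (Δ.X₀.trunc (Δ.L 0)) Δ.X₀ (Δ.X₀.trunc R)
    have h3 := htail R le_rfl
    have h4 := htail (Δ.L 0) (by rw [hL0]; linarith)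
    have h5 := hG (Δ.a 0) (by rw [Setup.a, hL0]; linarith)
    rw [DD_comm Δ.b (Δ.X₀.trunc (Δ.L 0)) Δ.X₀] at h2
    linarith

theorem exists_setup (b : Bool) (X₀ : PM) {ε : ℝ} (hε : 0 < ε) : ∃ Δ : Setup, Δ.b = b ∧
    Δ.X₀ = X₀ ∧ 20 * Δ.r + 2 * Δ.e₀ < ε ∧ Nonempty (Δ.Stage 0) := by
  choose γ₀ hγ₀ hmix using exists_mixOK
  obtain ⟨γ, hγ⟩ : ∃ γ : ℕ → ℝ, ∀ m, γ m = min (1 / 200) (γ₀ m) := ⟨_, fun _ => rfl⟩
  have hγp : ∀ m, 0 < γ m := fun m => by rw [hγ]; exact lt_min (by norm_num) (hγ₀ m)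
  obtain ⟨e₀, he₀, he₁, he₂⟩ : ∃ e₀ : ℝ, 0 < e₀ ∧ e₀ ≤ ε / 4 ∧ e₀ ≤ 1 / 1000 :=
    ⟨min (ε / 4) (1 / 1000), by positivity, min_le_left _ _, min_le_right _ _⟩
  obtain ⟨m, Γ, S, ga, r₁, hr₁, hsc, hx, hlaw, hgram, hQ⟩ :=
    exists_gauge X₀ (half_pos he₀) (fun m => γ m / 8) fun m => by have := hγp m; positivity
  have hg := hγp m
  have hS := S.hr
  have hq0 : qq S b X₀ e₀ (S.r / 4) (γ m / 4) ⟨X₀, ga X₀⟩ ≤ 1 / 2 := by
    unfold qq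
    rw [Qal_al _ _ (by rw [hx]; norm_num) (by rw [hlaw]; exact S.al_lam)
      (by rw [hlaw, S.rad_lam]; exact hS), hlaw, S.rad_lam]
    refine max_le ?_ (max_le (by norm_num) ?_)
    · rw [div_le_iff₀ he₀]
      linarith [hQ b]
    · rw [div_le_iff₀ (by positivity)]
      linarith
  obtain ⟨η, hη, huc⟩ := qq_uc (S := S) (b := b) (X₀ := X₀) he₀ (e₁ := S.r / 4) (e₂ := γ m / 4)
    (by positivity) (by positivity) (by linarith) (δ := 1 / 4) (by norm_num)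
  obtain ⟨r₂, hr₂, hcont⟩ := (SC.of_false (b := b)
    (hsc X₀ (by rw [DD_self]; exact hr₁))).cont (half_pos hη)
  have hB : 0 < 12 * (1 + Γ.B ^ 2) := by positivity
  obtain ⟨r, hr, h1, h2, h3, h4, h5⟩ := I5_small (a := 1 / 4000) (b := ε / 80)
    (c := γ m / (12 * (1 + Γ.B ^ 2))) (d := r₁ / 4) (e := r₂ / 4) (by norm_num) (by positivity)
    (by positivity) (by positivity) (by positivity)
  rw [le_div_iff₀ hB] at h3
  obtain ⟨R₁, hR₁, htail⟩ := DD_trunc_tail (b := b) X₀ (δ := r / 100) (by positivity)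
  obtain ⟨R₂, T, hR₂, hT, hTc, hTd⟩ := X₀.tight (δ := r / 100) (by positivity)
  have hG : ∀ a, max R₁ R₂ ≤ a → Gam a X₀ ≤ r / 100 := fun a ha =>
    (Gam_le (hR₂.trans_le ((le_max_right _ _).trans ha)) X₀ hT
      fun p hp q hq => (hTd p hp q hq).trans ((le_max_right _ _).trans ha)).trans hTc
  have hL : 12 * max R₁ R₂ ≤ max 12 (max (2 * Γ.C * Γ.B) (12 * max R₁ R₂)) :=
    (le_max_right _ _).trans (le_max_right _ _)
  refine ⟨⟨b, X₀, m, Γ, S, e₀, S.r / 4, γ m / 4, γ m, r,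
    max 12 (max (2 * Γ.C * Γ.B) (12 * max R₁ R₂)), he₀, he₂, by positivity, by linarith,
    by positivity, hmix m _ (by rw [hγ]; exact min_le_right _ _),
    by rw [hγ]; exact min_le_left _ _, hr, h1, by linarith, by linarith, le_max_left _ _,
    (le_max_left _ _).trans (le_max_right _ _), fun a ha => (hG a (by linarith)).trans (by linarith)⟩,
    rfl, rfl, by show 20 * r + 2 * e₀ < ε; linarith, ?_⟩
  refine I5_stage _ ga (R := max R₁ R₂) (hR₁.trans_le (le_max_left _ _)) hL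
    (fun L h => htail L ((le_max_left _ _).trans h)) hG (fun z hz => ?_) (fun z hz => ?_) hx
  · have hz' : DD b X₀ z < 4 * r := hz
    exact SC.of_false (hsc z (by linarith [DD_false_le b X₀ z]))
  · have hz' : DD b X₀ z < 4 * r := hz
    have := huc ⟨X₀, ga X₀⟩ ⟨z, ga z⟩ (by linarith) (by rw [hx]; norm_num) (by rw [hx]; norm_num)
      ((hcont z (by linarith)).trans_lt (half_lt_self hη))
    show qq S b X₀ e₀ (S.r / 4) (γ m / 4) ⟨z, ga z⟩ < 1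
    linarith

end Pool.Agent.P.MP_de432b_gt.LC
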