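import Pool.Agent.P.MP_de432b_gt.LC.A2

namespace Pool.Agent.P.MP_de432b_gt.LC

open MeasureTheory Set Filter Topology
open scoped unitInterval RealInnerProductSpace

variable {X : Type 1} [PseudoMetricSpace X] {V V' : Set X} {f g h : V → X}

theorem J1_dist_trans {a b c : X} (h₁ : dist a b = 0) (h₂ : dist b c = 0) : dist a c = 0 :=
  le_antisymm (by linarith [dist_triangle a b c]) dist_nonneg

theorem J1_dist_symm {a b : X} (h₁ : dist a b = 0) : dist b a = 0 := by rwa [dist_comm]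

theorem Hot.trans (h₁ : Hot V V' f g) (h₂ : Hot V V' g h) : Hot V V' f h := by
  classical
  obtain ⟨F₁, c₁, m₁, a₁, b₁⟩ := h₁
  obtain ⟨F₂, c₂, m₂, a₂, b₂⟩ := h₂
  have p₁ : Continuous fun z : V × I => F₁ (z.1, projIcc (0 : ℝ) 1 zero_le_one (2 * z.2)) :=
    c₁.comp (continuous_fst.prodMk (continuous_projIcc.comp (by fun_prop)))
  have p₂ : Continuous fun z : V × I => F₂ (z.1, projIcc (0 : ℝ) 1 zero_le_one (2 * z.2 - 1)) :=
    c₂.comp (continuous_fst.prodMk (continuous_projIcc.comp (by fun_prop)))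
  refine ⟨fun z => if (z.2 : ℝ) ≤ 1 / 2 then F₁ (z.1, projIcc (0 : ℝ) 1 zero_le_one (2 * z.2))
    else F₂ (z.1, projIcc (0 : ℝ) 1 zero_le_one (2 * z.2 - 1)), ?_, ?_, ?_, ?_⟩
  · rw [SeparationQuotient.isInducing_mk.continuous_iff]
    have : (SeparationQuotient.mk ∘ fun z : V × I =>
        if (z.2 : ℝ) ≤ 1 / 2 then F₁ (z.1, projIcc (0 : ℝ) 1 zero_le_one (2 * z.2))
        else F₂ (z.1, projIcc (0 : ℝ) 1 zero_le_one (2 * z.2 - 1))) = fun z : V × I =>
        if (z.2 : ℝ) ≤ 1 / 2 then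
          SeparationQuotient.mk (F₁ (z.1, projIcc (0 : ℝ) 1 zero_le_one (2 * z.2)))
        else SeparationQuotient.mk (F₂ (z.1, projIcc (0 : ℝ) 1 zero_le_one (2 * z.2 - 1))) := by
      funext z
      simp only [Function.comp_apply]
      split_ifs <;> rfl
    rw [this]
    refine Continuous.if_le (SeparationQuotient.continuous_mk.comp p₁)
      (SeparationQuotient.continuous_mk.comp p₂) (by fun_prop) continuous_const ?_
    intro z hz
    rw [SeparationQuotient.mk_eq_mk, Metric.inseparable_iff, hz]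
    have e₁ : projIcc (0 : ℝ) 1 zero_le_one (2 * (1 / 2)) = 1 := by
      rw [projIcc_of_right_le _ (by norm_num)]; rfl
    have e₂ : projIcc (0 : ℝ) 1 zero_le_one (2 * (1 / 2) - 1) = 0 := by
      rw [projIcc_of_le_left _ (by norm_num)]; rfl
    rw [e₁, e₂]
    exact J1_dist_trans (b₁ _) (J1_dist_symm (a₂ _))
  · intro z
    dsimp only
    split_ifs
    · exact m₁ _
    · exact m₂ _
  · intro y
    have e₁ : projIcc (0 : ℝ) 1 zero_le_one (2 * ((0 : I) : ℝ)) = 0 := by
      rw [projIcc_of_le_left _ (by norm_num)]; rfl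
    dsimp only
    rw [if_pos (by norm_num), e₁]
    exact a₁ y
  · intro y
    have e₂ : projIcc (0 : ℝ) 1 zero_le_one (2 * ((1 : I) : ℝ) - 1) = 1 := by
      rw [projIcc_of_right_le _ (by norm_num)]; rfl
    dsimp only
    rw [if_neg (by norm_num), e₂]
    exact b₂ y

theorem Hot.congr {f' g' : V → X} (h₁ : Hot V V' f g) (hf : ∀ y, dist (f y) (f' y) = 0)
    (hg : ∀ y, dist (g y) (g' y) = 0) : Hot V V' f' g' := by
  obtain ⟨F, c, m, a, b⟩ := h₁
  exact ⟨F, c, m, fun y => J1_dist_trans (a y) (hf y), fun y => J1_dist_trans (b y) (hg y)⟩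

theorem J1_cont_of_insep {A Z : Type*} [TopologicalSpace A] [TopologicalSpace Z] {u v : A → Z}
    (hv : Continuous v) (h : ∀ a, Inseparable (u a) (v a)) : Continuous u := by
  rw [SeparationQuotient.isInducing_mk.continuous_iff]
  have : SeparationQuotient.mk ∘ u = SeparationQuotient.mk ∘ v := by
    funext a
    exact SeparationQuotient.mk_eq_mk.2 (h a)
  rw [this]
  exact SeparationQuotient.continuous_mk.comp hv

theorem contractible_preimage {Y Z : Type 1} [TopologicalSpace Y] [TopologicalSpace Z] {j : Y → Z}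
    (hj : Topology.IsInducing j) {W : Set Z} (ho : IsOpen W)
    (hW : ∀ w ∈ W, ∃ y, Inseparable (j y) w) [ContractibleSpace W] :
    ContractibleSpace (j ⁻¹' W) := by
  classical
  choose s hs using hW
  have hsW : ∀ w (hw : w ∈ W), s w hw ∈ j ⁻¹' W := fun w hw =>
    ((hs w hw).mem_open_iff ho).2 hw
  have hk : Topology.IsInducing fun y : j ⁻¹' W => j y := hj.comp Topology.IsInducing.subtypeVal
  let S : C(W, j ⁻¹' W) := ⟨fun w => ⟨s w.1 w.2, hsW _ _⟩, by
    rw [hk.continuous_iff]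
    exact J1_cont_of_insep continuous_subtype_val fun w => hs w.1 w.2⟩
  let J : C(j ⁻¹' W, W) := ⟨fun y => ⟨j y, y.2⟩, hk.continuous.subtype_mk _⟩
  have hn : (S.comp J).Nullhomotopic :=
    ((id_nullhomotopic W).comp_right S).comp_left J
  have hh : (ContinuousMap.id (j ⁻¹' W)).Homotopic (S.comp J) := by
    refine ⟨⟨⟨fun z => if z.1 = 0 then z.2 else S (J z.2), ?_⟩, ?_, ?_⟩⟩
    · rw [hk.continuous_iff]
      refine J1_cont_of_insep (hk.continuous.comp continuous_snd) fun z => ?_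
      simp only [Function.comp_apply]
      split_ifs
      · rfl
      · exact hs _ z.2.2
    · intro y
      simp
    · intro y
      simp
  obtain ⟨y, hy⟩ := hn
  exact (contractible_iff_id_nullhomotopic _).2 ⟨y, hh.trans hy⟩

/-- The zero of a strictly increasing family depends continuously on the parameter. -/
theorem exists_zero {Y : Type 1} [TopologicalSpace Y] {φ : Y → ℝ → ℝ} {T : ℝ} (hT : 0 ≤ T)
    (hc : Continuous fun z : Y × ℝ => φ z.1 z.2) (h0 : ∀ y, φ y 0 < 0) (h1 : ∀ y, 0 < φ y T)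
    (hm : ∀ y η η', 0 ≤ η → η ≤ η' → η' ≤ T → φ y η + (η' - η) ≤ φ y η') :
    ∃ e : Y → ℝ, Continuous e ∧ ∀ y, 0 < e y ∧ e y ≤ T ∧ φ y (e y) = 0 := by
  have hex : ∀ y, ∃ e, 0 < e ∧ e ≤ T ∧ φ y e = 0 := by
    intro y
    have hcy : Continuous (φ y) := hc.comp (Continuous.prodMk_right y)
    obtain ⟨e, he, h⟩ := intermediate_value_Icc hT hcy.continuousOn ⟨(h0 y).le, (h1 y).le⟩
    refine ⟨e, lt_of_le_of_ne he.1 ?_, he.2, h⟩
    rintro rfl
    exact (h0 y).ne h
  choose e he using hex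
  refine ⟨e, ?_, he⟩
  have key : ∀ y y', |e y' - e y| ≤ |φ y' (e y)| := by
    intro y y'
    rcases le_total (e y) (e y') with hle | hle
    · have := hm y' _ _ (he y).1.le hle (he y').2.1
      rw [(he y').2.2] at this
      rw [abs_of_nonneg (by linarith)]
      exact le_trans (by linarith) (neg_le_abs _)
    · have := hm y' _ _ (he y').1.le hle (he y).2.1
      rw [(he y').2.2] at this
      rw [abs_of_nonpos (by linarith)]
      exact le_trans (by linarith) (le_abs_self _)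
  rw [continuous_iff_continuousAt]
  intro y
  have hcy : Continuous fun y' => |φ y' (e y)| := (hc.comp (Continuous.prodMk_left (e y))).abs
  have ht : Tendsto (fun y' => |φ y' (e y)|) (𝓝 y) (𝓝 0) := by
    have := hcy.tendsto y
    rwa [(he y).2.2, abs_zero] at this
  rw [ContinuousAt, tendsto_iff_dist_tendsto_zero]
  exact squeeze_zero (fun _ => dist_nonneg) (fun y' => by rw [Real.dist_eq]; exact key y y') ht

/-- A continuous positive function below a locally uniform radius. -/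
theorem exists_radius {Y : Type 1} [PseudoMetricSpace Y] {p : Y → I → ℝ → Prop}
    (hp : ∀ y u r r', 0 < r' → r' ≤ r → p y u r → p y u r')
    (h : ∀ y u, ∃ r : ℝ, 0 < r ∧ ∀ᶠ z in 𝓝 (y, u), p z.1 z.2 r) :
    ∃ ζ : Y → ℝ, Continuous ζ ∧ ∀ y, 0 < ζ y ∧ ∀ u, p y u (ζ y) := by
  have hloc : ∀ y, ∃ r : ℝ, 0 < r ∧ ∀ᶠ y' in 𝓝 y, ∀ u ∈ (univ : Set I), p y' u r := by
    intro y
    refine (isCompact_univ (X := I)).induction_on
      (p := fun K => ∃ r : ℝ, 0 < r ∧ ∀ᶠ y' in 𝓝 y, ∀ u ∈ K, p y' u r) ?_ ?_ ?_ ?_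
    · exact ⟨1, one_pos, Eventually.of_forall fun _ _ hu => absurd hu (notMem_empty _)⟩
    · rintro s t hst ⟨r, hr, H⟩
      exact ⟨r, hr, H.mono fun y' hy' u hu => hy' u (hst hu)⟩
    · rintro s t ⟨r, hr, H⟩ ⟨r', hr', H'⟩
      refine ⟨min r r', lt_min hr hr', (H.and H').mono fun y' hy' u hu => ?_⟩
      rcases hu with hu | hu
      · exact hp _ _ _ _ (lt_min hr hr') (min_le_left _ _) (hy'.1 u hu)
      · exact hp _ _ _ _ (lt_min hr hr') (min_le_right _ _) (hy'.2 u hu)
    · intro u _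
      obtain ⟨r, hr, H⟩ := h y u
      rw [nhds_prod_eq, eventually_prod_iff] at H
      obtain ⟨pa, ha, pb, hb, H⟩ := H
      exact ⟨{u | pb u}, mem_nhdsWithin_of_mem_nhds hb, r, hr,
        ha.mono fun y' hy' u' hu' => H hy' hu'⟩
  obtain ⟨ζ, hζ⟩ := exists_continuous_forall_mem_convex_of_local_const
    (t := fun y : Y => {z : ℝ | 0 < z ∧ ∀ u, p y u z}) (fun y => by
      rw [convex_iff_ordConnected]
      refine ⟨fun a ha b hb c hc => ⟨ha.1.trans_le hc.1, fun u => ?_⟩⟩
      exact hp _ _ _ _ (ha.1.trans_le hc.1) hc.2 (hb.2 u)) (fun y => by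
      obtain ⟨r, hr, H⟩ := hloc y
      exact ⟨r, H.mono fun y' hy' => ⟨hr, fun u => hy' u (mem_univ u)⟩⟩)
  exact ⟨ζ, ζ.continuous, hζ⟩

end Pool.Agent.P.MP_de432b_gt.LC
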