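import Pool.Agent.P.MP_de432b_gt.LC.J1

namespace Pool.Agent.P.MP_de432b_gt.LC

open MeasureTheory Set Filter Topology
open scoped unitInterval RealInnerProductSpace

/-- The tent function centred at `i`. -/
noncomputable def J2_tent (i : ℕ) (a : ℝ) : I := projIcc 0 1 zero_le_one (2 - 2 * |a - i|)

theorem J2_tent_cont (i : ℕ) : Continuous (J2_tent i) :=
  continuous_projIcc.comp (by fun_prop)

theorem J2_tent_zero {i : ℕ} {a : ℝ} (h : 1 ≤ |a - i|) : J2_tent i a = 0 :=
  projIcc_of_le_left _ (by linarith)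

theorem J2_tent_one {i : ℕ} {a : ℝ} (h : |a - i| ≤ 1 / 2) : J2_tent i a = 1 :=
  projIcc_of_right_le _ (by linarith)

theorem J2_tent_low {i n : ℕ} {a : ℝ} (h : i < n) (ha : (n : ℝ) < a) : J2_tent i a = 0 := by
  have : (i : ℝ) + 1 ≤ n := by exact_mod_cast h
  exact J2_tent_zero (le_abs.mpr (Or.inl (by linarith)))

theorem J2_tent_high {i : ℕ} {a : ℝ} (h : ⌈a⌉₊ + 1 ≤ i) : J2_tent i a = 0 := by
  have h1 : (⌈a⌉₊ : ℝ) + 1 ≤ i := by exact_mod_cast h
  have h2 := Nat.le_ceil a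
  exact J2_tent_zero (le_abs.mpr (Or.inr (by linarith)))

/-- Composition of the homotopies `H i` at the times `s i`. -/
def J2_C {X : Type 1} (H : ℕ → X × I → X) (y : X) (s : ℕ → I) : ℕ → X
  | 0 => y
  | i + 1 => H i (J2_C H y s i, s i)

/-- The telescope map. -/
noncomputable def J2_G {X : Type 1} (H : ℕ → X × I → X) (y : X) (a : ℝ) (u : I) : X :=
  J2_C H y (fun i => u * J2_tent i a) (⌈a⌉₊ + 2)

/-- The data of a telescope of total maps. -/
structure J2_Tel {X : Type 1} [TopologicalSpace X] (V : ℕ → Set X) (H : ℕ → X × I → X) :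
    Prop where
  zero : ∀ i z, H i (z, 0) = z
  one : ∀ i, ∀ z ∈ V i, ∀ z' ∈ V i, H i (z, 1) = H i (z', 1)
  mem : ∀ i, ∀ z ∈ V i, ∀ t, H i (z, t) ∈ V (i + 1)
  cont : ∀ i, ∀ z ∈ V i, ∀ t, ContinuousAt (H i) (z, t)

section tel
variable {X : Type 1} [TopologicalSpace X] {V : ℕ → Set X} {H : ℕ → X × I → X}

theorem J2_Tel.low (h : J2_Tel V H) {y : X} {s : ℕ → I} {n : ℕ} (hs : ∀ i < n, s i = 0) :
    ∀ i ≤ n, J2_C H y s i = y := by
  intro i hi
  induction i with
  | zero => rfl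
  | succ i ih => rw [J2_C, ih (by omega), hs i (by omega), h.zero]

theorem J2_Tel.high (h : J2_Tel V H) {y : X} {s : ℕ → I} {n : ℕ} (hy : y ∈ V n)
    (hs : ∀ i < n, s i = 0) : ∀ i, n ≤ i → J2_C H y s i ∈ V i := by
  intro i hi
  induction i, hi using Nat.le_induction with
  | base => rwa [h.low hs n le_rfl]
  | succ i _ ih => exact h.mem i _ ih _

theorem J2_Tel.stab (h : J2_Tel V H) {y : X} {s : ℕ → I} {n : ℕ} (hs : ∀ i, n ≤ i → s i = 0) :
    ∀ i, n ≤ i → J2_C H y s i = J2_C H y s n := by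
  intro i hi
  induction i, hi using Nat.le_induction with
  | base => rfl
  | succ i hi ih => rw [J2_C, ih, hs i hi, h.zero]

theorem J2_Tel.merge (h : J2_Tel V H) {y y' : X} {s : ℕ → I} {n : ℕ} (hs : s n = 1)
    (hy : J2_C H y s n ∈ V n) (hy' : J2_C H y' s n ∈ V n) :
    ∀ i, n + 1 ≤ i → J2_C H y s i = J2_C H y' s i := by
  intro i hi
  induction i, hi using Nat.le_induction with
  | base => rw [J2_C, J2_C, hs, h.one n _ hy _ hy']
  | succ i _ ih => rw [J2_C, J2_C, ih]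

theorem J2_Tel.contC (h : J2_Tel V H) {T : Type 1} [TopologicalSpace T] {y : T → X}
    {s : T → ℕ → I} {t : T} (hy : ContinuousAt y t) (hs : ∀ i, ContinuousAt (fun t => s t i) t)
    {n : ℕ} (hn : y t ∈ V n) (h0 : ∀ᶠ t' in 𝓝 t, ∀ i < n, s t' i = 0) (N : ℕ) :
    ContinuousAt (fun t => J2_C H (y t) (s t) N) t := by
  have lo : ∀ i ≤ n, ContinuousAt (fun t => J2_C H (y t) (s t) i) t := fun i hi =>
    hy.congr (h0.mono fun t' ht' => (h.low ht' i hi).symm)
  rcases le_total N n with hN | hN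
  · exact lo N hN
  induction N, hN using Nat.le_induction with
  | base => exact lo n le_rfl
  | succ i hi ih =>
    exact ContinuousAt.comp (g := H i) (f := fun t => (J2_C H (y t) (s t) i, s t i))
      (h.cont i _ (h.high hn h0.self_of_nhds i hi) _) (ih.prodMk (hs i))

theorem J2_Tel.contG (h : J2_Tel V H) {T : Type 1} [TopologicalSpace T] {y : T → X} {a : T → ℝ}
    {u : T → I} (hy : Continuous y) (ha : Continuous a) (hu : Continuous u)
    (hn : ∀ t, ∃ n, y t ∈ V n ∧ (n = 0 ∨ (n : ℝ) < a t)) :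
    Continuous fun t => J2_G H (y t) (a t) (u t) := by
  refine continuous_iff_continuousAt.mpr fun t => ?_
  obtain ⟨n, h1, h2⟩ := hn t
  have h0 : ∀ᶠ t' in 𝓝 t, ∀ i < n, u t' * J2_tent i (a t') = 0 := by
    rcases h2 with rfl | h2
    · exact Eventually.of_forall fun _ i hi => absurd hi (Nat.not_lt_zero i)
    · filter_upwards [ha.continuousAt.eventually (lt_mem_nhds h2)] with t' ht' i hi
      rw [J2_tent_low hi ht', mul_zero]
  have hc : ∀ i, Continuous fun t => u t * J2_tent i (a t) := fun i =>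
    Continuous.subtype_mk ((continuous_subtype_val.comp hu).mul
      (continuous_subtype_val.comp ((J2_tent_cont i).comp ha))) _
  refine (h.contC (s := fun t i => u t * J2_tent i (a t)) hy.continuousAt
    (fun i => (hc i).continuousAt) h1 h0 (⌈a t⌉₊ + 3)).congr ?_
  filter_upwards [ha.continuousAt.eventually (gt_mem_nhds (lt_add_one (a t)))] with t' ht'
  have h3 : ⌈a t'⌉₊ ≤ ⌈a t⌉₊ + 1 := by
    rw [Nat.ceil_le]
    push_cast
    linarith [Nat.le_ceil (a t)]
  exact h.stab (fun i hi => by rw [J2_tent_high (by omega), mul_zero]) _ (by omega)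

theorem J2_Tel.memG (h : J2_Tel V H) {y : X} {a : ℝ} {n : ℕ} (h1 : y ∈ V n)
    (h2 : n = 0 ∨ (n : ℝ) < a) (u : I) : J2_G H y a u ∈ ⋃ n, V n := by
  refine mem_iUnion.mpr ⟨_, h.high h1 (fun i hi => ?_) _ ?_⟩
  · rcases h2 with rfl | h2
    · exact absurd hi (Nat.not_lt_zero i)
    · rw [J2_tent_low hi h2, mul_zero]
  · rcases h2 with rfl | h2
    · exact Nat.zero_le _
    · have := Nat.lt_ceil.mpr h2
      omega

theorem J2_Tel.zeroG (h : J2_Tel V H) (y : X) (a : ℝ) : J2_G H y a 0 = y :=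
  h.low (fun _ _ => zero_mul _) _ le_rfl

theorem J2_Tel.oneG (h : J2_Tel V H) {y y' : X} {a : ℝ} {n : ℕ} (h1 : y ∈ V n)
    (h2 : (n : ℝ) < a) (h3 : y' ∈ V 0) : J2_G H y a 1 = J2_G H y' a 1 := by
  have h0 : (0 : ℝ) ≤ a + 1 / 2 := by linarith [Nat.cast_nonneg (α := ℝ) n]
  have e1 := Nat.floor_le h0
  have e2 := Nat.lt_floor_add_one (a + 1 / 2)
  refine h.merge (n := ⌊a + 1 / 2⌋₊) ?_
    (h.high h1 (fun i hi => by rw [J2_tent_low hi h2, mul_zero]) _ (Nat.le_floor (by linarith)))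
    (h.high h3 (fun i hi => absurd hi (Nat.not_lt_zero i)) _ (Nat.zero_le _)) _ ?_
  · rw [one_mul]
    exact J2_tent_one (abs_le.mpr ⟨by linarith, by linarith⟩)
  · have : ⌊a + 1 / 2⌋₊ < ⌈a⌉₊ + 2 := by
      rw [Nat.floor_lt h0]
      push_cast
      linarith [Nat.le_ceil a]
    omega

end tel

theorem J2_exists {X : Type 1} [MetricSpace X] {V : ℕ → Set X} (ho : ∀ n, IsOpen (V n))
    (h : ∀ n, ∃ x, Hot (V n) (V (n + 1)) Subtype.val fun _ => x) : ∃ H, J2_Tel V H := by
  classical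
  choose x F hF h1 h2 h3 using h
  refine ⟨fun i p => if hp : p.1 ∈ V i then F i (⟨p.1, hp⟩, p.2) else p.1, fun i z => ?_,
    fun i z hz z' hz' => ?_, fun i z hz t => ?_, fun i z hz t => ?_⟩
  · by_cases hz : z ∈ V i
    · simp only [dif_pos hz]
      exact dist_eq_zero.mp (h2 i ⟨z, hz⟩)
    · simp only [dif_neg hz]
  · simp only [dif_pos hz, dif_pos hz']
    rw [dist_eq_zero.mp (h3 i ⟨z, hz⟩), dist_eq_zero.mp (h3 i ⟨z', hz'⟩)]
  · simp only [dif_pos hz]
    exact h1 i _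
  · have he : IsOpenEmbedding (Prod.map (Subtype.val : V i → X) (id : I → I)) :=
      (ho i).isOpenEmbedding_subtypeVal.prodMap IsOpenEmbedding.id
    refine (he.continuousAt_iff (x := (⟨z, hz⟩, t))).mp ?_
    refine (hF i).continuousAt.congr (Eventually.of_forall fun p => ?_)
    simp only [Function.comp, Prod.map, id, dif_pos p.1.2]

theorem telescope_metric {X : Type 1} [MetricSpace X] {V : ℕ → Set X} (ho : ∀ n, IsOpen (V n))
    (hm : ∀ n, V n ⊆ V (n + 1)) (hne : (V 0).Nonempty)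
    (h : ∀ n, ∃ x, Hot (V n) (V (n + 1)) Subtype.val fun _ => x) :
    ContractibleSpace (⋃ n, V n) := by
  obtain ⟨H, hH⟩ := J2_exists ho h
  obtain ⟨y₀, h₀⟩ := hne
  obtain ⟨τ, hτ⟩ := exists_continuous_forall_mem_convex_of_local_const
    (t := fun y : (⋃ n, V n : Set X) => {a : ℝ | ∃ n, y.1 ∈ V n ∧ (n : ℝ) < a})
    (fun y => by
      refine OrdConnected.convex ⟨?_⟩
      rintro a ⟨n, h1, h2⟩ b _ c hc
      exact ⟨n, h1, h2.trans_le hc.1⟩)
    (fun y => by
      obtain ⟨n, hn⟩ := mem_iUnion.mp y.2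
      refine ⟨n + 1, ?_⟩
      filter_upwards [continuous_subtype_val.continuousAt.eventually ((ho n).mem_nhds hn)]
        with z hz
      exact ⟨n, hz, lt_add_one _⟩)
  have m0 : ∀ a u, J2_G H y₀ a u ∈ ⋃ n, V n := fun a u => hH.memG h₀ (Or.inl rfl) u
  have m1 : ∀ (y : (⋃ n, V n : Set X)) u, J2_G H y (τ y) u ∈ ⋃ n, V n := fun y u => by
    obtain ⟨n, h1, h2⟩ := hτ y
    exact hH.memG h1 (Or.inr h2) u
  let f : C((⋃ n, V n : Set X), (⋃ n, V n : Set X)) :=
    ⟨fun y => ⟨J2_G H y₀ (τ y) 1, m0 _ _⟩, (hH.contG continuous_const τ.continuous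
      continuous_const fun _ => ⟨0, h₀, Or.inl rfl⟩).subtype_mk _⟩
  have a1 : (ContinuousMap.id _).Homotopic f :=
    ⟨{ toFun := fun p => ⟨J2_G H p.2 (τ p.2) p.1, m1 _ _⟩
       continuous_toFun := (hH.contG (continuous_subtype_val.comp continuous_snd)
         (τ.continuous.comp continuous_snd) continuous_fst fun p => by
           obtain ⟨n, h1, h2⟩ := hτ p.2
           exact ⟨n, h1, Or.inr h2⟩).subtype_mk _
       map_zero_left := fun y => Subtype.ext (hH.zeroG _ _)
       map_one_left := fun y => by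
         obtain ⟨n, h1, h2⟩ := hτ y
         exact Subtype.ext (hH.oneG h1 h2 h₀) }⟩
  have a2 : f.Homotopic (ContinuousMap.const _ ⟨J2_G H y₀ 0 1, m0 _ _⟩) :=
    ⟨{ toFun := fun p => ⟨J2_G H y₀ ((1 - p.1) * τ p.2) 1, m0 _ _⟩
       continuous_toFun := (hH.contG continuous_const (by fun_prop) continuous_const
         fun _ => ⟨0, h₀, Or.inl rfl⟩).subtype_mk _
       map_zero_left := fun y => Subtype.ext (by simp [f])
       map_one_left := fun y => Subtype.ext (by simp) }⟩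
  exact (contractible_iff_id_nullhomotopic _).mpr ⟨_, a1.trans a2⟩

theorem telescope {X : Type 1} [PseudoMetricSpace X] {V : ℕ → Set X} (ho : ∀ n, IsOpen (V n))
    (hm : ∀ n, V n ⊆ V (n + 1)) (hne : (V 0).Nonempty)
    (h : ∀ n, ∃ x, Hot (V n) (V (n + 1)) Subtype.val fun _ => x) :
    ContractibleSpace (⋃ n, V n) := by
  obtain ⟨s, hs⟩ := (SeparationQuotient.surjective_mk (X := X)).hasRightInverse
  have hc : Continuous s := SeparationQuotient.isInducing_mk.continuous_iff.mpr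
    (continuous_id.congr fun q => (hs q).symm)
  have key : ∀ n z, s (SeparationQuotient.mk z) ∈ V n ↔ z ∈ V n := fun n z =>
    (SeparationQuotient.mk_eq_mk.mp (hs _)).mem_open_iff (ho n)
  obtain ⟨y₀, h₀⟩ := hne
  have := telescope_metric (V := fun n => s ⁻¹' V n) (fun n => (ho n).preimage hc)
    (fun n => preimage_mono (hm n)) ⟨SeparationQuotient.mk y₀, (key 0 y₀).mpr h₀⟩ fun n => by
      obtain ⟨x, F, hF, h1, h2, h3⟩ := h n
      refine ⟨SeparationQuotient.mk x,
        fun p => SeparationQuotient.mk (F (⟨s p.1, p.1.2⟩, p.2)), ?_, fun p => ?_, fun y => ?_,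
        fun y => ?_⟩
      · exact SeparationQuotient.continuous_mk.comp (hF.comp
          (((hc.comp (continuous_subtype_val.comp continuous_fst)).subtype_mk _).prodMk
            continuous_snd))
      · exact (key _ _).mpr (h1 _)
      · have e := h2 ⟨s y, y.2⟩
        rw [← SeparationQuotient.dist_mk, hs] at e
        exact e
      · exact h3 ⟨s y, y.2⟩
  have e : SeparationQuotient.mk ⁻¹' (⋃ n, s ⁻¹' V n) = ⋃ n, V n := by
    ext z
    simp only [mem_preimage, mem_iUnion, key]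
  rw [← e]
  exact contractible_preimage SeparationQuotient.isInducing_mk
    (isOpen_iUnion fun n => (ho n).preimage hc) fun w _ => ⟨s w, by rw [hs]⟩

end Pool.Agent.P.MP_de432b_gt.LC
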