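import Pool.Agent.P.MP_de432b_gt.Contr
import Pool.Agent.P.MP_de432b_gt.LC.C4

namespace Pool.Agent.P.MP_de432b_gt.LC

open MeasureTheory Set Filter Topology
open scoped unitInterval RealInnerProductSpace

/-- An mm-space as a pre-mm-space. -/
noncomputable abbrev ofMM (A : MMSpace) : PM :=
  { Ω := A.X, P := A.μ, d := fun x y => dist x y, hd := isPM_dist A.X }

/-- The distance of the problem: box for `true`, observable for `false`. -/
noncomputable def DMM : Bool → MMSpace → MMSpace → ENNReal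
  | true => box
  | false => dconc

theorem J3_lip {X : Type} [PseudoMetricSpace X] {f : X → ℝ} :
    Lip (fun x y : X => dist x y) f ↔ LipschitzWith 1 f :=
  ⟨fun h => LipschitzWith.of_le_add fun x y => by linarith [h x y],
    fun h x y => by linarith [h.le_add_mul x y, show ((1 : NNReal) : ℝ) * dist x y = dist x y by simp]⟩

theorem J3_set {ε : ℝ} (hε : 0 ≤ ε) (f g : I → ℝ) :
    {s | ENNReal.ofReal ε < edist (f s) (g s)} = {s | ε < |f s - g s|} := by
  ext s
  rw [mem_ofPred_eq, mem_ofPred_eq, edist_dist, ENNReal.ofReal_lt_ofReal_iff_of_nonneg hε,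
    Real.dist_eq]

theorem J3_half {A B : MMSpace} {φ : I → A.X} {ψ : I → B.X} {ε : ℝ} (hε : 0 ≤ ε)
    (h : half φ ψ < ENNReal.ofReal ε) :
    Half (volume : Measure I) (fun p q => dist (φ p) (φ q)) (fun p q => dist (ψ p) (ψ q)) ε := by
  intro f hf
  obtain ⟨f₀, h1, h2⟩ := lip_factor (isPM_dist A.X) φ hf
  obtain ⟨g, hg, h3⟩ := half_lt h f₀ (J3_lip.1 h1)
  refine ⟨g ∘ ψ, fun p q => J3_lip.2 hg _ _, ?_⟩
  have h4 := dKF_lt h3
  rw [J3_set hε] at h4
  have e : f₀ ∘ φ = f := funext h2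
  rw [e] at h4
  exact ENNReal.toReal_le_of_le_ofReal hε h4

theorem J3_half' {A B : MMSpace} {φ : I → A.X} {ψ : I → B.X} {ε : ℝ} (hε : 0 ≤ ε)
    (h : Half (volume : Measure I) (fun p q => dist (φ p) (φ q))
      (fun p q => dist (ψ p) (ψ q)) ε) : half φ ψ ≤ ENNReal.ofReal ε := by
  refine half_le fun f hf ε' hε' => ?_
  obtain ⟨f', h1, h2⟩ := h (f ∘ φ) fun p q => J3_lip.2 hf _ _
  obtain ⟨g, h3, h4⟩ := lip_factor (isPM_dist B.X) ψ h1
  refine ⟨g, J3_lip.1 h3, le_trans (dKF_le ?_) hε'.le⟩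
  have e : g ∘ ψ = f' := funext h4
  rw [J3_set hε, e]
  exact (ENNReal.le_ofReal_iff_toReal_le (measure_ne_top _ _) hε).2 h2

/-- The span of two parameters. -/
noncomputable abbrev J3_span {A B : MMSpace} {φ : I → A.X} {ψ : I → B.X} (hφ : IsParam A φ)
    (hψ : IsParam B ψ) : Span (ofMM A) (ofMM B) :=
  { Ω := I, Q := volume, l := φ, r := ψ, hl := hφ.mp, hr := hψ.mp }

theorem DD_le_of_DMM {b : Bool} {A B : MMSpace} {ε : ℝ} (h : DMM b A B < ENNReal.ofReal ε) :
    DD b (ofMM A) (ofMM B) ≤ ε := by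
  have hε : 0 ≤ ε := (ENNReal.ofReal_pos.1 (lt_of_le_of_lt bot_le h)).le
  cases b
  · obtain ⟨_, ⟨φ, ψ, h1, h2, rfl⟩, h3⟩ := sInf_lt_iff.1 (show dconc A B < _ from h)
    rw [dH_eq, max_lt_iff] at h3
    exact DD_le (s := J3_span h1 h2) ⟨J3_half hε h3.1, J3_half hε h3.2⟩
  · obtain ⟨ε', ⟨φ, ψ, J, h1, h2, h3, h4, h5⟩, h6⟩ := sInf_lt_iff.1 (show box A B < _ from h)
    rw [one_sub_le_iff h3] at h4
    refine DD_le (s := J3_span h1 h2) ⟨J, h3, ?_, fun p hp q hq => ?_⟩
    · exact ENNReal.toReal_le_of_le_ofReal hε (h4.trans h6.le)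
    · have h7 := (h5 p hp q hq).trans h6.le
      rwa [edist_le_ofReal hε, Real.dist_eq] at h7

theorem DMM_le_of_DD {b : Bool} {A B : MMSpace} {ε : ℝ} (h : DD b (ofMM A) (ofMM B) < ε) :
    DMM b A B ≤ ENNReal.ofReal ε := by
  have hε : 0 ≤ ε := (DD_nonneg _ _ _).trans h.le
  obtain ⟨s, hs⟩ := exists_span h
  obtain ⟨η, hη⟩ := exists_mp s.Q
  have h1 : IsParam A (s.l ∘ η) := isParam_of_mp (s.hl.comp hη)
  have h2 : IsParam B (s.r ∘ η) := isParam_of_mp (s.hr.comp hη)
  have h3 := LC.Close.pull ((ofMM A).hd.pull s.hl.measurable) ((ofMM B).hd.pull s.hr.measurable)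
    hη hs
  cases b
  · exact dconc_le h1 h2 (J3_half' hε h3.1) (J3_half' hε h3.2)
  · obtain ⟨J, -, h5, h6⟩ := h3
    refine box_le (J := J) h1 h2 ?_ fun p hp q hq => ?_
    · exact (ENNReal.le_ofReal_iff_toReal_le (measure_ne_top _ _) hε).2 h5
    · rw [edist_le_ofReal hε, Real.dist_eq]
      exact h6 p hp q hq

/-- The carrier of a pre-mm-space with its pseudo-metric. -/
def J3_W (Z : PM) : Type := Z.Ω

instance (Z : PM) : PseudoMetricSpace (J3_W Z) where
  dist p q := Z.d p q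
  dist_self := Z.hd.self
  dist_comm := Z.hd.symm
  dist_triangle := Z.hd.tri

instance (Z : PM) : TopologicalSpace.SeparableSpace (J3_W Z) := by
  have : SecondCountableTopology (J3_W Z) := by
    refine Metric.secondCountable_of_countable_discretization fun ε hε => ?_
    obtain ⟨i, -, hi⟩ := Z.hd.sep ε hε
    exact ⟨ℕ, inferInstance, i, hi⟩
  infer_instance

/-- The map to the completion. -/
noncomputable def J3_j (Z : PM) (p : Z.Ω) : UniformSpace.Completion (J3_W Z) :=
  ((show J3_W Z from p : J3_W Z) : UniformSpace.Completion (J3_W Z))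

theorem J3_dist (Z : PM) (p q : Z.Ω) : dist (J3_j Z p) (J3_j Z q) = Z.d p q :=
  UniformSpace.Completion.dist_eq (show J3_W Z from p) (show J3_W Z from q)

theorem J3_meas (Z : PM) : @Measurable _ _ _ (borel _) (J3_j Z) := by
  let _ : MeasurableSpace (UniformSpace.Completion (J3_W Z)) := borel _
  have : BorelSpace (UniformSpace.Completion (J3_W Z)) := ⟨rfl⟩
  refine measurable_of_isClosed' fun F hF hne _ => ?_
  have h1 : Lip Z.d fun p => Metric.infDist (J3_j Z p) F := fun p q => by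
    have := Metric.infDist_le_infDist_add_dist (x := J3_j Z p) (y := J3_j Z q) (s := F)
    rw [J3_dist] at this
    linarith
  have h2 : J3_j Z ⁻¹' F = (fun p => Metric.infDist (J3_j Z p) F) ⁻¹' {0} := by
    ext p
    exact hF.mem_iff_infDist_zero hne
  rw [h2]
  exact h1.measurable Z.hd (measurableSet_singleton 0)

theorem exists_ofMM (b : Bool) (Z : PM) : ∃ A : MMSpace, DD b (ofMM A) Z = 0 := by
  let _ : MeasurableSpace (UniformSpace.Completion (J3_W Z)) := borel _
  have : BorelSpace (UniformSpace.Completion (J3_W Z)) := ⟨rfl⟩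
  have : IsProbabilityMeasure (Z.P.map (J3_j Z)) :=
    Measure.isProbabilityMeasure_map (J3_meas Z).aemeasurable
  refine ⟨{ X := UniformSpace.Completion (J3_W Z), μ := Z.P.map (J3_j Z) }, ?_⟩
  rw [DD_comm]
  exact DD_map (τ := J3_j Z) ⟨J3_meas Z, rfl⟩ (G := univ) (Eventually.of_forall fun _ => trivial)
    fun p _ q _ => (J3_dist Z p q).symm

end Pool.Agent.P.MP_de432b_gt.LC
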