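import Pool.Agent.P.MP_de432b_gt.LC.J1
import Pool.Agent.P.MP_de432b_gt.LC.J3

namespace Pool.Agent.P.MP_de432b_gt.LC

open MeasureTheory Set Filter Topology
open scoped unitInterval RealInnerProductSpace

theorem J4_good (b : Bool) : Good (DMM b) := by
  cases b
  · exact good_dconc
  · exact good_box

/-- The pre-mm-space of an mm-space, with the distance chosen by `b`. -/
noncomputable def J4_of (b : Bool) (A : MMSpace) : PMb b := ofMM A

theorem J4_eq (b : Bool) (A B : MMSpace) :
    DMM b A B = edist (J4_of b A) (J4_of b B) := by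
  rw [edist_dist]
  refine le_antisymm ?_ ?_
  · refine ENNReal.le_of_forall_pos_le_add fun ε hε _ => ?_
    have h := DMM_le_of_DD (b := b) (A := A) (B := B) (ε := dist (J4_of b A) (J4_of b B) + ε)
      (lt_add_of_pos_right _ (by exact_mod_cast hε))
    rwa [ENNReal.ofReal_add dist_nonneg ε.coe_nonneg, ENNReal.ofReal_coe_nnreal] at h
  · refine le_of_forall_gt_imp_ge_of_dense fun c hc => ?_
    rcases eq_or_ne c ⊤ with rfl | hc'
    · exact le_top
    rw [← ENNReal.ofReal_toReal hc'] at hc ⊢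
    exact ENNReal.ofReal_le_ofReal (DD_le_of_DMM hc)

theorem J4_zero (b : Bool) {A B : MMSpace} (h : cls A = cls B) :
    dist (J4_of b A) (J4_of b B) = 0 := by
  have h1 := (J4_good b).zero h
  rw [J4_eq, edist_dist, ENNReal.ofReal_eq_zero] at h1
  exact le_antisymm h1 dist_nonneg

theorem transfer (b : Bool) (h : ∀ (X : PMb b) (ε : ℝ), 0 < ε → ∃ W : Set (PMb b), IsOpen W ∧
      X ∈ W ∧ W ⊆ Metric.ball X ε ∧ ContractibleSpace W) (x : {x : MM // x ≠ cls pt})
    (N : Set {x : MM // x ≠ cls pt})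
    (hN : N ∈ @nhds _ (@instTopologicalSpaceSubtype _ _ (topOf (DMM b))) x) :
    ∃ V : Set {x : MM // x ≠ cls pt},
      @IsOpen _ (@instTopologicalSpaceSubtype _ _ (topOf (DMM b))) V ∧ x ∈ V ∧ V ⊆ N ∧
      @ContractibleSpace V (@instTopologicalSpaceSubtype _ _
        (@instTopologicalSpaceSubtype _ _ (topOf (DMM b)))) := by
  revert hN
  rw [(J4_good b).top_eq]
  let _ := (J4_good b).pem
  intro hN
  let j : {x : MM // x ≠ cls pt} → PMb b := fun y => J4_of b (rep y.1)
  have hj : Isometry j := fun y z => (J4_eq b _ _).symm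
  have hi : Topology.IsInducing j := hj.isUniformInducing.isInducing
  rw [hi.nhds_eq_comap] at hN
  obtain ⟨T, hT, hTN⟩ := hN
  obtain ⟨ε, hε, hb⟩ := Metric.mem_nhds_iff.1 hT
  obtain ⟨δ, hδ, hδε, hδp⟩ : ∃ δ : ℝ, 0 < δ ∧ δ ≤ ε ∧
      (dist (j x) (J4_of b pt) = 0 ∨ δ ≤ dist (j x) (J4_of b pt)) := by
    rcases (dist_nonneg (x := j x) (y := J4_of b pt)).eq_or_lt with h0 | h0
    · exact ⟨ε, hε, le_rfl, Or.inl h0.symm⟩
    · exact ⟨min ε _, lt_min hε h0, min_le_left _ _, Or.inr (min_le_right _ _)⟩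
  obtain ⟨W, hW, hxW, hWb, hWc⟩ := h (j x) δ hδ
  refine ⟨j ⁻¹' W, hW.preimage hi.continuous, hxW, fun y hy => hTN
    (hb (Metric.ball_subset_ball hδε (hWb hy))), contractible_preimage hi hW fun w hw => ?_⟩
  obtain ⟨A, hA⟩ := exists_ofMM b w
  have hA' : dist (J4_of b A) w = 0 := hA
  by_cases hp : cls A = cls pt
  · have h1 : dist (J4_of b pt) w = 0 := by
      have := dist_triangle (J4_of b pt) (J4_of b A) w
      rw [J4_zero b hp.symm, hA'] at this
      exact le_antisymm (by simpa using this) dist_nonneg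
    rcases hδp with h0 | h0
    · refine ⟨x, Metric.inseparable_iff.2 (le_antisymm ?_ dist_nonneg)⟩
      have := dist_triangle (j x) (J4_of b pt) w
      linarith
    · have h2 : dist w (j x) < δ := hWb hw
      have := dist_triangle_left (j x) (J4_of b pt) w
      rw [dist_comm w (J4_of b pt)] at this
      linarith
  · refine ⟨⟨cls A, hp⟩, Metric.inseparable_iff.2 (le_antisymm ?_ dist_nonneg)⟩
    have h1 : dist (J4_of b (rep (cls A))) (J4_of b A) = 0 := J4_zero b (cls_rep _)
    have := dist_triangle (J4_of b (rep (cls A))) (J4_of b A) w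
    change dist (J4_of b (rep (cls A))) w ≤ 0
    linarith

end Pool.Agent.P.MP_de432b_gt.LC
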