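import Pool.Agent.P.MP_de432b_gt.LC.C4
import Pool.Agent.P.MP_de432b_gt.LC.I1
import Pool.Agent.P.MP_de432b_gt.LC.D2
import Pool.Agent.P.MP_de432b_gt.LC.E2
import Pool.Agent.P.MP_de432b_gt.LC.E3

namespace Pool.Agent.P.MP_de432b_gt.LC

open MeasureTheory Set Filter Topology
open scoped unitInterval RealInnerProductSpace

/-- Continuity of a family of marked spaces. -/
def CM {m : ℕ} {B : ℝ} (b : Bool) (G : Subgroup (U m)) {Y : Type 1} [TopologicalSpace Y]
    (f : Y → MK m B) : Prop :=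
  ∀ y, ∀ δ : ℝ, 0 < δ → ∀ᶠ y' in 𝓝 y, DM b G (f y) (f y') ≤ δ

/-- A pre-mm-space as a point of the pseudo-metric space. -/
abbrev toP (b : Bool) (A : PM) : PMb b := A

/-- A point of the pseudo-metric space as a pre-mm-space. -/
abbrev ofP {b : Bool} (A : PMb b) : PM := A

variable {m : ℕ} {b : Bool} {Y Y' : Type 1} [TopologicalSpace Y] [TopologicalSpace Y']

theorem K1_ev {Z : Type*} [PseudoMetricSpace Z] {g : Y → Z} (hg : Continuous g) (y : Y) {δ : ℝ}
    (hδ : 0 < δ) : ∀ᶠ y' in 𝓝 y, dist (g y) (g y') < δ := by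
  filter_upwards [Metric.continuous_iff'.1 hg y δ hδ] with y' h
  rwa [dist_comm]

theorem K1_cont {Z : Type*} [PseudoMetricSpace Z] {g : Y → Z}
    (h : ∀ y, ∀ δ : ℝ, 0 < δ → ∀ᶠ y' in 𝓝 y, dist (g y) (g y') ≤ δ) : Continuous g := by
  refine Metric.continuous_iff'.2 fun y δ hδ => ?_
  filter_upwards [h y _ (half_pos hδ)] with y' h1
  rw [dist_comm]
  linarith

theorem K1_lt {B : ℝ} {G : Subgroup (U m)} {f : Y → MK m B} (h : CM b G f) (y : Y) {δ : ℝ}
    (hδ : 0 < δ) : ∀ᶠ y' in 𝓝 y, DM b G (f y) (f y') < δ := by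
  filter_upwards [h y _ (half_pos hδ)] with y' h1
  linarith

theorem cont_trunc {γ : Y → PMb b} (hγ : Continuous γ) (L : ℝ) :
    Continuous fun y => toP b ((ofP (γ y)).trunc L) := by
  refine K1_cont fun y δ hδ => ?_
  filter_upwards [K1_ev hγ y hδ] with y' h1
  have h2 := DD_trunc_trunc (b := b) (ofP (γ y)) (ofP (γ y')) L L
  rw [sub_self, abs_zero, add_zero] at h2
  exact h2.trans h1.le

theorem cont_ball {γ : Y → PMb b} (hγ : Continuous γ) (D : ℝ) {η : Y → ℝ} (hη : Continuous η) :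
    Continuous fun y => toP b ((ofP (γ y)).ball D (η y)) := by
  refine K1_cont fun y δ hδ => ?_
  filter_upwards [K1_ev hγ y (half_pos hδ), K1_ev hη y (half_pos hδ)] with y' h1 h3
  have h2 := DD_ball_ball (b := b) (ofP (γ y)) (ofP (γ y')) D (η y) (η y')
  rw [Real.dist_eq] at h3
  rw [dist_PMb] at h1
  rw [dist_PMb]
  exact h2.trans (by linarith)

theorem Setup.Level.cont {Δ : Setup} {k : ℕ} {v : PM → ℝ} (h : Δ.Level k v) :
    Continuous fun z : PMb Δ.b => v (ofP z) := by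
  refine K1_cont fun y δ hδ => ?_
  filter_upwards [K1_ev (continuous_id (X := PMb Δ.b)) y (show 0 < δ / 9 by positivity)]
    with y' h1
  have h2 := h.lip (ofP y) (ofP y')
  rw [dist_PMb] at h1
  rw [Real.dist_eq]
  exact h2.trans (by
    simp only [id] at h1
    linarith)

section
variable {B : ℝ} {G : Subgroup (U m)} {f : Y → MK m B}

theorem CM.comp (h : CM b G f) {g : Y' → Y} (hg : Continuous g) : CM b G fun y => f (g y) :=
  fun y δ hδ => (hg.tendsto y).eventually (h (g y) δ hδ)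

theorem CM.gauge {ga : Gauge m B} {γ : Y → PMb b} (hγ : Continuous γ)
    (h : ∀ y, SC b ga (ofP (γ y))) : CM b ⊤ fun y => (⟨ofP (γ y), ga _⟩ : MK m B) := by
  intro y δ hδ
  obtain ⟨r, hr, h1⟩ := (h y).cont hδ
  filter_upwards [K1_ev hγ y hr] with y' h2
  exact h1 _ h2

theorem CM.x (h : CM b G f) : Continuous fun y => (f y).x := by
  refine K1_cont fun y δ hδ => ?_
  filter_upwards [K1_lt h y hδ] with y' h1
  obtain ⟨s, _, k, _, hm⟩ := exists_of_DM_lt h1
  rw [Real.dist_eq]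
  exact (abs_x_sub s k).trans hm

theorem CM.ball (h : CM b G f) (D : ℝ) {η : Y → ℝ} (hη : Continuous η) :
    CM b G fun y => (f y).ball D (η y) := by
  intro y δ hδ
  have hB : 0 < |B + 1| + 1 := by positivity
  filter_upwards [h y _ (half_pos hδ), K1_ev hη y (show 0 < δ / 2 / (|B + 1| + 1) by positivity)]
    with y' h1 h2
  rw [Real.dist_eq, lt_div_iff₀ hB] at h2
  have h3 := DM_ball (b := b) (G := G) (f y) (f y') D (η y) (η y')
  have h4 := mul_le_mul_of_nonneg_right (le_abs_self (B + 1)) (abs_nonneg (η y - η y'))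
  have h5 := abs_nonneg (η y - η y')
  linarith

theorem CM.split (h : CM b G f) {t : Y → I} (ht : Continuous t) :
    CM b G fun y => (f y).split (t y) := by
  intro y δ hδ
  filter_upwards [h y _ (show 0 < δ / 4 by positivity),
    K1_ev (continuous_subtype_val.comp ht) y (half_pos hδ)] with y' h1 h2
  rw [Real.dist_eq] at h2
  have h3 := DM_split (b := b) (G := G) (f y) (f y') (t y) (t y')
  simp only [Function.comp] at h2
  linarith

end

variable {Γ : Geo m} {f : Y → MK m Γ.B}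

theorem CM.al (S : Slice Γ) (h : CM b ⊤ f) (hx : ∀ y, (f y).x ≤ 1 / 2)
    (hr : ∀ y, S.rad (f y).law ≤ S.r / 2) : CM b Γ.G fun y => (f y).al S := by
  intro y δ hδ
  obtain ⟨η, hη, h1⟩ := al_uc S hδ
  filter_upwards [K1_lt h y hη] with y' h2
  exact h1 b _ _ (hx y) (hx y') (hr y) h2

theorem CM.lin (h : CM b Γ.G f) {R L : ℝ} (hR : ∀ y p q, (f y).A.d p q ≤ R) {l t s : Y → ℝ}
    (hl : Continuous l) (ht : Continuous t) (hs : Continuous s) (bl : ∀ y, l y ∈ Icc (0 : ℝ) 1)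
    (bt : ∀ y, t y ∈ Icc (0 : ℝ) 1) (bs : ∀ y, s y ∈ Icc (0 : ℝ) L) :
    CM b Γ.G fun y => (f y).lin Γ (l y) (t y) (s y) := by
  intro y δ hδ
  obtain ⟨η, hη, h1⟩ := lin_uc Γ L (half_pos hδ)
  have hc : Continuous fun y' => R * |l y - l y'| + 2 * Γ.C * Γ.B * |t y - t y'| + |s y - s y'| := by
    fun_prop
  filter_upwards [K1_lt h y hη, K1_ev hc y (half_pos hδ)] with y' h2 h3
  have h4 := h1 b _ _ (l y') (t y') (s y') (bl y') (bt y') (bs y') h2
  have h5 := lin_param Γ (b := b) (f y) (l := l y) (t := t y) (s := s y) (l' := l y') (t' := t y')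
    (s' := s y') (hR y)
  have h6 := DM_triangle (b := b) (G := Γ.G) (x := (f y).lin Γ (l y) (t y) (s y))
    (y := (f y).lin Γ (l y') (t y') (s y')) (z := (f y').lin Γ (l y') (t y') (s y'))
  simp only [sub_self, abs_zero, mul_zero, add_zero] at h3
  rw [Real.dist_eq, zero_sub, abs_neg] at h3
  have h7 := (abs_lt.1 h3).2
  linarith

theorem CM.mov (h : CM b Γ.G f) (D : ℝ) (β : I) {t : Y → I} (ht : Continuous t) :
    CM b Γ.G fun y => (f y).mov Γ D β (t y) := by
  intro y δ hδ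
  obtain ⟨η, hη, h1⟩ := mov_uc Γ D β hδ
  filter_upwards [K1_lt h y hη, K1_ev (continuous_subtype_val.comp ht) y hη] with y' h2 h3
  exact h1 b _ _ _ _ h2 h3

theorem CM.tag (h : CM b Γ.G f) (L : ℝ) {ζ : Y → ℝ} (hζ : Continuous ζ) :
    Continuous fun y => toP b ((f y).tag Γ L (ζ y)).A := by
  refine K1_cont fun y δ hδ => ?_
  obtain ⟨η, hη, h1⟩ := tag_uc Γ L hδ
  filter_upwards [K1_lt h y hη, K1_ev hζ y hη] with y' h2 h3
  exact h1 b _ _ _ _ h2 h3

theorem tag_congr {y y' : MK m Γ.B} (h : DM b Γ.G y y' = 0) (L ζ : ℝ) :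
    DD b (y.tag Γ L ζ).A (y'.tag Γ L ζ).A = 0 := by
  refine le_antisymm (le_of_forall_pos_le_add fun δ hδ => ?_) (DD_nonneg _ _ _)
  obtain ⟨η, hη, h1⟩ := tag_uc Γ L hδ
  rw [zero_add]
  exact h1 b _ _ _ _ (h ▸ hη) (by simpa using hη)

end Pool.Agent.P.MP_de432b_gt.LC
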