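import Pool.Agent.P.MP_de432b_gt.LC.K1
import Pool.Agent.P.MP_de432b_gt.LC.I2
import Pool.Agent.P.MP_de432b_gt.LC.J1

namespace Pool.Agent.P.MP_de432b_gt.LC

open MeasureTheory Set Filter Topology
open scoped unitInterval RealInnerProductSpace

namespace Setup
variable {Δ : Setup} {k : ℕ}

/-- The ballast path. -/
noncomputable abbrev path (Δ : Setup) (k : ℕ) (z : PM) (η : ℝ) : PM :=
  (z.trunc (Δ.L k)).ball (Δ.L k) η

/-- The aligned marked space over a point. -/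
noncomputable abbrev Stage.lift (St : Δ.Stage k) (z : PM) : MK Δ.m Δ.Γ.B :=
  (⟨z, St.ga z⟩ : MK Δ.m Δ.Γ.B).al Δ.S

/-- The open set of stage `k`. -/
def Stage.V (St : Δ.Stage k) : Set (PMb Δ.b) := {z | St.v (ofP z) < 0}

theorem K2_L_nonneg (Δ : Setup) (k : ℕ) : 0 ≤ Δ.L k := by linarith [Δ.L_ge k]

theorem K2_trunc_d_le (z : PM) (p q : (z.trunc (Δ.L k)).Ω) : (z.trunc (Δ.L k)).d p q ≤ Δ.L k :=
  (min_le_right _ _).trans (max_le le_rfl (K2_L_nonneg Δ k))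

theorem path_d_le (z : PM) (η : ℝ) (p q : (Δ.path k z η).Ω) : (Δ.path k z η).d p q ≤ Δ.L k :=
  ball_d_le (z.trunc (Δ.L k)) (K2_L_nonneg Δ k) le_rfl (K2_trunc_d_le z) p q

theorem DD_path_zero (z : PM) : DD Δ.b (Δ.path k z 0) (z.trunc (Δ.L k)) = 0 := by
  have h0 := K2_L_nonneg Δ k
  have h1 := DD_ball_trunc (b := Δ.b) (z.trunc (Δ.L k)) h0 (le_refl (0 : ℝ))
  rw [PM.trunc_eq (z.trunc (Δ.L k)) (L := 2 * Δ.L k)
    (fun p q => (K2_trunc_d_le z p q).trans (by linarith))] at h1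
  exact le_antisymm h1 (DD_nonneg _ _ _)

theorem K2_level_zero {v : PM → ℝ} (h : Δ.Level k v) (z : PM) : v (Δ.path k z 0) = v z := by
  have h1 := h.lip (Δ.path k z 0) (z.trunc (Δ.L k))
  rw [DD_path_zero, mul_zero, h.trunc z _ le_rfl] at h1
  exact sub_eq_zero.mp (abs_nonpos_iff.mp h1)

theorem K2_cont_path {Y : Type 1} [TopologicalSpace Y] {γ : Y → PMb Δ.b} (hγ : Continuous γ)
    {η : Y → ℝ} (hη : Continuous η) : Continuous fun y => toP Δ.b (Δ.path k (ofP (γ y)) (η y)) :=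
  cont_ball (γ := fun y => toP Δ.b ((ofP (γ y)).trunc (Δ.L k))) (cont_trunc hγ _) _ hη

theorem K2_gam_ge (z : PM) {η : ℝ} (h0 : 0 ≤ η) (h1 : η ≤ Δ.r) {l : ℕ} (hl : l ≤ k) :
    η ≤ Gam (Δ.a l) (Δ.path k z η) := by
  have ha := Δ.a_ge l
  have hL := Δ.a_le hl
  have hr := Δ.hr'
  exact Gam_ball_ge (by linarith) _ (by linarith) h0 (by linarith)

theorem K2_mono (St : Δ.Stage k) {v : PM → ℝ} (h : Δ.Level k v) {z : PM} (hz : St.v z < 0)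
    {η η' : ℝ} (h0 : 0 ≤ η) (h1 : η ≤ η') (h2 : η' ≤ Δ.r) :
    v (Δ.path k z η) + (η' - η) ≤ v (Δ.path k z η') := by
  have hr := Δ.hr'
  refine h.mono _ _ _ _ le_rfl h0 h1 (by linarith) fun l hl => ?_
  have ha := Δ.a_ge l
  rw [Gam_trunc (by linarith) z (Δ.a_le hl)]
  exact (St.inv z ((St.pair.le z).trans_lt hz)).gam l

theorem K2_small (c : ℝ) {d : ℝ} (hd : 0 < d) : ∀ᶠ ρ in 𝓝[>] (0 : ℝ), c * ρ < d := by
  refine Eventually.filter_mono nhdsWithin_le_nhds ?_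
  have hc : Continuous fun ρ : ℝ => c * ρ := continuous_const.mul continuous_id
  exact hc.continuousAt.eventually_lt continuousAt_const (by simpa using hd)

theorem K2_mdev_act {m : ℕ} {B : ℝ} {Ω : Type} [MeasurableSpace Ω] (Q : Measure Ω)
    (μ : Marks m B Ω) (κ : U m) : mdev Q (μ.act κ) μ κ = 0 := by
  simp [mdev]

theorem Stage.freeze (St : Δ.Stage k) : ∃ e : St.V → ℝ, Continuous e ∧ ∀ y : St.V, 0 < e y ∧
    (∀ η, 0 ≤ η → η ≤ e y → St.w (Δ.path k (ofP y.1) η) < 0) ∧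
    0 < St.o (Δ.path k (ofP y.1) (e y)) := by
  have hc := St.pair.lv.comb St.pair.lw (a := 1 / 3) (b := 2 / 3) (by norm_num) (by norm_num)
    (by norm_num)
  obtain ⟨e, he, H⟩ := exists_zero (Y := St.V) (T := Δ.r)
    (φ := fun y η => 1 / 3 * St.v (Δ.path k (ofP y.1) η) + 2 / 3 * St.w (Δ.path k (ofP y.1) η))
    Δ.hr.le
    (hc.cont.comp (K2_cont_path (k := k) (continuous_subtype_val.comp continuous_fst)
      continuous_snd))
    (fun y => by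
      have h1 : St.v (ofP y.1) < 0 := y.2
      have h2 := St.pair.le (ofP y.1)
      show 1 / 3 * St.v (Δ.path k (ofP y.1) 0) + 2 / 3 * St.w (Δ.path k (ofP y.1) 0) < 0
      rw [K2_level_zero St.pair.lv, K2_level_zero St.pair.lw]
      linarith)
    (fun y => by
      have h1 := St.pair.exit (Δ.path k (ofP y.1) Δ.r) fun l hl =>
        (Δ.t_le l).trans (K2_gam_ge _ Δ.hr.le le_rfl hl)
      have h2 := St.pair.le (Δ.path k (ofP y.1) Δ.r)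
      have h3 := Δ.t_pos k
      show 0 < 1 / 3 * St.v (Δ.path k (ofP y.1) Δ.r) + 2 / 3 * St.w (Δ.path k (ofP y.1) Δ.r)
      linarith)
    (fun y η η' h0 h1 h2 => K2_mono St hc y.2 h0 h1 h2)
  refine ⟨e, he, fun y => ?_⟩
  obtain ⟨h0, h1, h2⟩ := H y
  have h3 := St.pair.le (Δ.path k (ofP y.1) (e y))
  have h4 : St.w (Δ.path k (ofP y.1) (e y)) < 0 := by
    by_contra hn
    exact hn (St.pair.gap _ (by linarith [not_lt.mp hn]) fun l hl =>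
      h0.trans_le (K2_gam_ge _ h0.le h1 hl))
  refine ⟨h0, fun η a1 a2 => ?_, ?_⟩
  · have h5 := K2_mono St St.pair.lw y.2 a1 a2 h1
    linarith
  · unfold Stage.o
    linarith

theorem K2_nice (St : Δ.Stage k) {δ ζ₀ ζ : ℝ} (h0 : 0 < ζ) (h1 : ζ ≤ ζ₀)
    (h2 : (Δ.Γ.B + 1) * ζ ≤ δ) {A : PM} (hd : ∀ p q, A.d p q ≤ Δ.L k) (hw : St.w A < 0)
    (H : ∀ (Z : PM) (s : Span A Z), s.Close Δ.b (Δ.Γ.CT * ζ) →
      St.w Z < 0 ∧ ∃ h : U Δ.m, s.mdev (St.ga A) (St.ga Z) h ≤ δ) :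
    St.Nice δ ζ₀ ((St.lift A).tag Δ.Γ (Δ.L k) ζ).A := by
  have hL := Δ.L_ge k
  refine ⟨St.lift A, ζ, rfl, h0, h1, fun p q => (hd p q).trans (by linarith), (St.inv A hw).al,
    (St.x_lt hw).le, Or.inr ?_⟩
  obtain ⟨a1, h, a2⟩ := H _ (tagSpan Δ.Γ (St.lift A) (Δ.L k) ζ).symm
    (tag_box Δ.Γ (St.lift A) (by linarith) (fun p q => (hd p q).trans (by linarith))
      h0.le).of_box.symm
  refine ⟨a1, ?_⟩
  have a3 := tag_mdev Δ.Γ (St.lift A) (Δ.L k) h0.le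
  have a4 := K2_mdev_act ((St.lift A).tag Δ.Γ (Δ.L k) ζ).A.P
    ((St.ga A).pull (tag_mp Δ.Γ (St.lift A) (Δ.L k) ζ).measurable)
    (Δ.S.alg (⟨A, St.ga A⟩ : MK Δ.m Δ.Γ.B).law)
  have a5 := mdev_tri (Q := ((St.lift A).tag Δ.Γ (Δ.L k) ζ).A.P)
    (((St.ga A).pull (tag_mp Δ.Γ (St.lift A) (Δ.L k) ζ).measurable).act
      (Δ.S.alg (⟨A, St.ga A⟩ : MK Δ.m Δ.Γ.B).law))
    ((St.ga A).pull (tag_mp Δ.Γ (St.lift A) (Δ.L k) ζ).measurable)
    (St.ga ((St.lift A).tag Δ.Γ (Δ.L k) ζ).A) (Δ.S.alg (⟨A, St.ga A⟩ : MK Δ.m Δ.Γ.B).law) h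
  have a6 := mdev_tri (Q := ((St.lift A).tag Δ.Γ (Δ.L k) ζ).A.P)
    ((St.lift A).tag Δ.Γ (Δ.L k) ζ).μ
    (((St.ga A).pull (tag_mp Δ.Γ (St.lift A) (Δ.L k) ζ).measurable).act
      (Δ.S.alg (⟨A, St.ga A⟩ : MK Δ.m Δ.Γ.B).law))
    (St.ga ((St.lift A).tag Δ.Γ (Δ.L k) ζ).A) 1 (Δ.S.alg (⟨A, St.ga A⟩ : MK Δ.m Δ.Γ.B).law * h)
  rw [a4, zero_add] at a5
  exact (dmk_le _ _ _).trans (a6.trans ((add_le_add (a3.trans h2) (a5.trans a2)).trans_eq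
    (two_mul δ).symm))

theorem Stage.radius (St : Δ.Stage k) {δ ζ₀ : ℝ} (hδ : 0 < δ) (hζ : 0 < ζ₀) {e : St.V → ℝ}
    (he : Continuous e) (h : ∀ y : St.V, 0 < e y ∧
      (∀ η, 0 ≤ η → η ≤ e y → St.w (Δ.path k (ofP y.1) η) < 0) ∧
      0 < St.o (Δ.path k (ofP y.1) (e y))) :
    ∃ ζ : St.V → ℝ, Continuous ζ ∧ ∀ y : St.V, 0 < ζ y ∧ ζ y ≤ ζ₀ ∧
      9 * (Δ.Γ.CT * ζ y) < -St.v (ofP y.1) ∧
      9 * (Δ.Γ.CT * ζ y) < St.o (Δ.path k (ofP y.1) (e y)) ∧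
      ∀ u : I, St.Nice δ ζ₀
        ((St.lift (Δ.path k (ofP y.1) (u * e y))).tag Δ.Γ (Δ.L k) (ζ y)).A := by
  have hC := (E3_CT_ge Δ.Γ).2
  have hB := Δ.Γ.hB
  have hw : ∀ (y : St.V) (u : I), St.w (Δ.path k (ofP y.1) (u * e y)) < 0 := fun y u =>
    (h y).2.1 _ (mul_nonneg u.2.1 (h y).1.le) (mul_le_of_le_one_left (h y).1.le u.2.2)
  have c1 : Continuous fun z : St.V × I => toP Δ.b (Δ.path k (ofP z.1.1) (z.2 * e z.1)) :=
    K2_cont_path (continuous_subtype_val.comp continuous_fst)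
      ((continuous_subtype_val.comp continuous_snd).mul (he.comp continuous_fst))
  have c2 : Continuous fun z : St.V × I => toP Δ.b (Δ.path k (ofP z.1.1) (e z.1)) :=
    K2_cont_path (continuous_subtype_val.comp continuous_fst) (he.comp continuous_fst)
  have c3 : Continuous fun z : St.V × I => -St.v (ofP z.1.1) :=
    (St.pair.lv.cont.comp (continuous_subtype_val.comp continuous_fst)).neg
  have c4 : Continuous fun z : St.V × I => St.o (Δ.path k (ofP z.1.1) (e z.1)) :=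
    ((continuous_const.mul (St.pair.lv.cont.comp c2)).add (St.pair.lw.cont.comp c2)).div_const 3
  have c5 : Continuous fun z : St.V × I => -St.w (Δ.path k (ofP z.1.1) (z.2 * e z.1)) :=
    (St.pair.lw.cont.comp c1).neg
  obtain ⟨ζ, hc, H⟩ := exists_radius (Y := St.V) (p := fun y u z => z ≤ ζ₀ ∧
      (Δ.Γ.B + 1) * z ≤ δ ∧ 9 * (Δ.Γ.CT * z) < -St.v (ofP y.1) ∧
      9 * (Δ.Γ.CT * z) < St.o (Δ.path k (ofP y.1) (e y)) ∧
      ∀ (Z : PM) (s : Span (Δ.path k (ofP y.1) (u * e y)) Z), s.Close Δ.b (Δ.Γ.CT * z) →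
        St.w Z < 0 ∧ ∃ h : U Δ.m, s.mdev (St.ga _) (St.ga Z) h ≤ δ)
    (fun y u r r' _ a2 ⟨b1, b2, b3, b4, b5⟩ => by
      have a3 : Δ.Γ.CT * r' ≤ Δ.Γ.CT * r := mul_le_mul_of_nonneg_left a2 (by linarith)
      have a4 : (Δ.Γ.B + 1) * r' ≤ (Δ.Γ.B + 1) * r := mul_le_mul_of_nonneg_left a2 (by linarith)
      exact ⟨by linarith, by linarith, by linarith, by linarith,
        fun Z s hs => b5 Z s (hs.mono a3)⟩)
    (fun y u => by
      obtain ⟨r, hr, hu⟩ := (St.sc _ (hw y u)).unif hδ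
      have hv : 0 < -St.v (ofP y.1) := neg_pos.mpr y.2
      obtain ⟨ρ, ⟨⟨⟨⟨⟨⟨r0, r1⟩, r2⟩, r3⟩, r4⟩, r5⟩, r6⟩⟩ :=
        ((((((eventually_mem_nhdsWithin.and (K2_small 1 hζ)).and
          (K2_small (Δ.Γ.B + 1) hδ)).and (K2_small (9 * Δ.Γ.CT) hv)).and
          (K2_small (9 * Δ.Γ.CT) (h y).2.2)).and
          (K2_small (9 * Δ.Γ.CT) (neg_pos.mpr (hw y u)))).and (K2_small Δ.Γ.CT hr)).exists
      refine ⟨ρ, r0, ?_⟩
      have e1 := continuousAt_const.eventually_lt (c3.continuousAt (x := (y, u))) r3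
      have e2 := continuousAt_const.eventually_lt (c4.continuousAt (x := (y, u))) r4
      have e3 := continuousAt_const.eventually_lt (c5.continuousAt (x := (y, u))) r5
      have e4 := K1_ev c1 (y, u) hr
      filter_upwards [e1, e2, e3, e4] with z a1 a2 a3 a4
      refine ⟨by linarith, r2.le, by linarith, by linarith, fun Z s hs =>
        ⟨?_, hu _ a4 Z s (hs.mono r6.le)⟩⟩
      have a5 := St.pair.lw.lip (Δ.path k (ofP z.1.1) (z.2 * e z.1)) Z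
      have a6 := DD_le hs
      have a7 := (abs_le.mp a5).1
      linarith)
  refine ⟨ζ, hc, fun y => ?_⟩
  obtain ⟨a0, a1⟩ := H y
  obtain ⟨b1, -, b3, b4, -⟩ := a1 0
  exact ⟨a0, b1, b3, b4, fun u => K2_nice St a0 b1 (a1 u).2.1 (path_d_le _ _) (hw y u)
    (a1 u).2.2.2.2⟩

end Setup

end Pool.Agent.P.MP_de432b_gt.LC
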