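import Pool.Agent.P.MP_de432b_gt.LC.K1
import Pool.Agent.P.MP_de432b_gt.LC.E6

namespace Pool.Agent.P.MP_de432b_gt.LC

open MeasureTheory Set Filter Topology
open scoped unitInterval RealInnerProductSpace

namespace Setup
variable {Δ : Setup} {k : ℕ} {y : MK Δ.m Δ.Γ.B}

/-- Marked spaces in the late part of the track. -/
def Late (Δ : Setup) (k : ℕ) (y : MK Δ.m Δ.Γ.B) : Prop :=
  Δ.Inv k y ∧ y.x = Δ.bb k ∧ ∀ l ≤ k, Δ.t l ≤ Gam (Δ.a l) y.A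

theorem K3_x_nonneg {m : ℕ} {B : ℝ} (y : MK m B) : 0 ≤ y.x :=
  integral_nonneg fun p => (y.μ.bc p).1

theorem K3_bb_le (Δ : Setup) (k : ℕ) : Δ.bb k < 5 * Δ.r ∧ Δ.bb k ≤ 1 / 800 := by
  have h1 := Δ.bb_lt k
  have h2 := Δ.t_pos k
  have h3 := Δ.hr'
  constructor <;> linarith

theorem K3_a_pos (Δ : Setup) (l : ℕ) : 0 < Δ.a l := lt_of_lt_of_le one_pos (Δ.a_ge l)

theorem Stage.nice_of (St : Δ.Stage k) (δ : ℝ) {ζ ζ₀ : ℝ} (h0 : 0 < ζ) (h1 : ζ ≤ ζ₀)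
    (hd : ∀ p q, y.A.d p q ≤ 2 * Δ.L k) (hi : Δ.Inv k y) (hx : y.x ≤ Δ.bb k)
    (ho : 9 * (Δ.Γ.CT * ζ) < St.o y.A) : St.Nice δ ζ₀ (y.tag Δ.Γ (Δ.L k) ζ).A := by
  refine ⟨y, ζ, rfl, h0, h1, hd, hi, hx, Or.inl ?_⟩
  have hL := Δ.L_ge k
  have hD : DD Δ.b (y.tag Δ.Γ (Δ.L k) ζ).A y.A ≤ Δ.Γ.CT * ζ :=
    (DD_le_DM (G := ⊤)).trans
      (DM_tag Δ.Γ ⊤ y (by linarith) (fun p q => (hd p q).trans (by linarith)) h0.le)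
  have hv := (abs_le.mp (St.pair.lv.lip (y.tag Δ.Γ (Δ.L k) ζ).A y.A)).1
  have hw := (abs_le.mp (St.pair.lw.lip (y.tag Δ.Γ (Δ.L k) ζ).A y.A)).1
  unfold Stage.o at ho ⊢
  linarith

theorem Stage.nice_of_late (St : Δ.Stage k) (δ : ℝ) {ζ ζ₀ : ℝ} (h0 : 0 < ζ) (h1 : ζ ≤ ζ₀)
    (h2 : 9 * (Δ.Γ.CT * ζ₀) < 2 * Δ.t k) (hd : ∀ p q, y.A.d p q ≤ 2 * Δ.L k) (h : Δ.Late k y) :
    St.Nice δ ζ₀ (y.tag Δ.Γ (Δ.L k) ζ).A := by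
  refine St.nice_of δ h0 h1 hd h.1 h.2.1.le ?_
  have h3 := St.pair.exit y.A h.2.2
  have h4 := St.pair.le y.A
  have h5 : Δ.Γ.CT * ζ ≤ Δ.Γ.CT * ζ₀ :=
    mul_le_mul_of_nonneg_left h1 (zero_le_one.trans (E3_CT_ge Δ.Γ).2)
  unfold Stage.o
  linarith

theorem K3_eta (hi : Δ.Inv k y) {η : ℝ} (h0 : 0 ≤ η) (h1 : η ≤ (Δ.bb k - y.x) / (1 - y.x)) :
    η * (1 - y.x) ≤ Δ.bb k - y.x ∧ η ≤ 1 / 32 := by
  have hx := hi.x_le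
  have hx0 := K3_x_nonneg y
  have hb := (K3_bb_le Δ k).2
  rw [le_div_iff₀ (by linarith)] at h1
  exact ⟨h1, by nlinarith⟩

theorem K3_ball (hi : Δ.Inv k y) (hd : ∀ p q, y.A.d p q ≤ Δ.L k) {η : ℝ} (h0 : 0 ≤ η)
    (h1 : η ≤ (Δ.bb k - y.x) / (1 - y.x)) :
    Δ.Inv k (y.ball (Δ.L k) η) ∧ (y.ball (Δ.L k) η).x ≤ Δ.bb k ∧
      (y.ball (Δ.L k) η).law = y.law := by
  obtain ⟨e1, e2⟩ := K3_eta hi h0 h1
  have hx := hi.x_le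
  have hL := Δ.L_ge k
  have hb := (K3_bb_le Δ k).1
  have ex := ball_x y (Δ.L k) h0 (by linarith)
  have hq := ball_qq Δ.S (b := Δ.b) (X₀ := Δ.X₀) (e₀ := Δ.e₀) (e₁ := Δ.e₁) (e₂ := Δ.e₂) y
    (D := Δ.L k) (η := η) (by linarith) (fun p q => (hd p q).trans (by linarith)) h0
    (by linarith) (by linarith)
  have hle : (y.ball (Δ.L k) η).x ≤ Δ.bb k := by
    rw [ex]
    linarith
  refine ⟨⟨?_, by linarith, fun l hl => ?_⟩, hle, hq.1⟩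
  · have := hi.1
    unfold Setup.q at this ⊢
    rwa [hq.2]
  · have g0 := Gam_ball_zero (Δ.a_ge l) y.A (Δ.a_le hl)
    have g1 := hi.gam l
    have g2 := Gam_ball (K3_a_pos Δ l) y.A (Δ.a_le hl) le_rfl h0 (by linarith)
      (by rw [g0]; linarith)
    rw [g0, sub_zero, sub_zero, div_one] at g2
    have g3 := hi.2.2 l hl
    have g4 := Δ.β_pos k l
    rw [ex]
    change η + (1 - η) * y.x - Gam (Δ.a l) (y.A.ball (Δ.L k) η) < Δ.β k l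
    have g5 : (1 - η) * (y.x - Gam (Δ.a l) y.A) < Δ.β k l := by
      rcases le_total (y.x - Gam (Δ.a l) y.A) 0 with h | h
      · exact lt_of_le_of_lt (mul_nonpos_of_nonneg_of_nonpos (by linarith) h) g4
      · nlinarith
    linarith

theorem K3_level {v : PM → ℝ} (hv : Δ.Level k v) (hi : Δ.Inv k y) {η : ℝ} (h0 : 0 ≤ η)
    (h1 : η ≤ 1 / 32) : v y.A ≤ v (y.A.ball (Δ.L k) η) := by
  have hL := Δ.L_ge k
  have a1 := hv.mono y.A (Δ.L k) 0 η le_rfl le_rfl h0 h1 (fun l _ => hi.gam l)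
  have a2 := (abs_le.mp (hv.lip (y.A.ball (Δ.L k) 0) (y.A.trunc (2 * Δ.L k)))).1
  have a3 := DD_ball_trunc (b := Δ.b) y.A (D := Δ.L k) (η := 0) (by linarith) le_rfl
  have a4 := hv.trunc y.A (2 * Δ.L k) (by linarith)
  linarith

theorem Stage.ball_phase (St : Δ.Stage k) (hi : Δ.Inv k y) (hx : y.x ≤ Δ.bb k)
    (hd : ∀ p q, y.A.d p q ≤ Δ.L k) {η : ℝ} (h0 : 0 ≤ η) (h1 : η ≤ (Δ.bb k - y.x) / (1 - y.x)) :
    Δ.Inv k (y.ball (Δ.L k) η) ∧ (y.ball (Δ.L k) η).x ≤ Δ.bb k ∧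
      St.o y.A ≤ St.o (y.ball (Δ.L k) η).A ∧ (y.ball (Δ.L k) η).law = y.law := by
  have _ := hx
  obtain ⟨b1, b2, b3⟩ := K3_ball hi hd h0 h1
  refine ⟨b1, b2, ?_, b3⟩
  have e := (K3_eta hi h0 h1).2
  have c1 := K3_level St.pair.lv hi h0 e
  have c2 := K3_level St.pair.lw hi h0 e
  change St.o y.A ≤ St.o (y.A.ball (Δ.L k) η)
  unfold Stage.o
  linarith

theorem ball_late (hi : Δ.Inv k y) (hx : y.x ≤ Δ.bb k) (hd : ∀ p q, y.A.d p q ≤ Δ.L k) :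
    Δ.Late k (y.ball (Δ.L k) ((Δ.bb k - y.x) / (1 - y.x))) := by
  have hx1 := hi.x_le
  have h0 : 0 ≤ (Δ.bb k - y.x) / (1 - y.x) := div_nonneg (by linarith) (by linarith)
  obtain ⟨b1, -, -⟩ := K3_ball hi hd h0 le_rfl
  have e := (K3_eta hi h0 le_rfl).2
  have ex : (y.ball (Δ.L k) ((Δ.bb k - y.x) / (1 - y.x))).x = Δ.bb k := by
    rw [ball_x y (Δ.L k) h0 (by linarith)]
    have : (1 - y.x) ≠ 0 := by linarith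
    field_simp
    ring
  refine ⟨b1, ex, fun l hl => ?_⟩
  have g1 := b1.2.2 l hl
  have g2 := Δ.β_add_t hl
  rw [ex] at g1
  linarith

theorem Late.split (h : Δ.Late k y) (t : I) : Δ.Late k (y.split t) ∧ (y.split t).law = y.law := by
  have hx := h.1.x_le
  have hq := split_qq Δ.S (b := Δ.b) (X₀ := Δ.X₀) (e₀ := Δ.e₀) (e₁ := Δ.e₁) (e₂ := Δ.e₂) y t
    (by linarith)
  have hG : ∀ l, Gam (Δ.a l) (y.split t).A = Gam (Δ.a l) y.A := fun l => by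
    have g := Gam_lip (Δ.a_ge l) Δ.b (y.split t).A y.A
    rw [DD_split, mul_zero] at g
    exact sub_eq_zero.mp (abs_nonpos_iff.mp g)
  refine ⟨⟨⟨?_, ?_, fun l hl => ?_⟩, ?_, fun l hl => ?_⟩, hq.1⟩
  · have := h.1.1
    unfold Setup.q at this ⊢
    rwa [hq.2]
  · rw [split_x]
    exact h.1.2.1
  · rw [split_x, hG]
    exact h.1.2.2 l hl
  · rw [split_x]
    exact h.2.1
  · rw [hG]
    exact h.2.2 l hl

theorem K3_lin_q (h : Δ.Late k y) (hc : ∀ p, y.μ.c p = 0 ∨ y.μ.c p = 1) (hA : Δ.S.Al y.law)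
    (τ : I) {l t : ℝ} (hl : l = 1 - τ) (ht : t = τ) (s : ℝ) : Δ.q (y.lin Δ.Γ l t s) < Δ.s k := by
  subst hl ht
  have hx := h.1.x_le
  exact lt_of_le_of_lt (lin_qq Δ.S Δ.he₀ Δ.he₁ Δ.he₁' y (by linarith) hc hA h.1.q_lt τ s) h.1.1

theorem Late.add (h : Δ.Late k y) (hc : ∀ p, y.μ.c p = 0 ∨ y.μ.c p = 1) (hA : Δ.S.Al y.law)
    (s : ℝ) : Δ.Late k (y.lin Δ.Γ 1 0 s) := by
  have hG : ∀ l, Gam (Δ.a l) y.A ≤ Gam (Δ.a l) (y.lin Δ.Γ 1 0 s).A := fun l =>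
    Gam_mono (K3_a_pos Δ l).le y.A _ (fun p q => by
      have := (isPM_markD Δ.Γ 0 s y.μ).nonneg p q
      rw [max_eq_left zero_le_one]
      linarith)
  have ex : (y.lin Δ.Γ 1 0 s).x = y.x := rfl
  refine ⟨⟨K3_lin_q h hc hA 0 (by simp) (by simp) s, h.1.2.1, fun l hl => ?_⟩, h.2.1,
    fun l hl => (h.2.2 l hl).trans (hG l)⟩
  have := h.1.2.2 l hl
  rw [ex]
  linarith [hG l]

theorem K3_markD_ge {Ω : Type} [MeasurableSpace Ω] (μ : Marks Δ.m Δ.Γ.B Ω) (t : ℝ) {l : ℕ}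
    (hl : l ≤ k) (p q : Ω) : 4 * Δ.a l * |μ.c p - μ.c q| ≤ markD Δ.Γ t (Δ.L k) μ p q := by
  have h1 := Δ.a_le hl
  have h2 := K3_a_pos Δ l
  have h3 : 4 * Δ.a l ≤ max (Δ.L k) 0 := le_max_of_le_left (by linarith)
  have h4 := mul_le_mul_of_nonneg_right h3 (abs_nonneg (μ.c p - μ.c q))
  have h5 : 0 ≤ max t 0 * Δ.Γ.ρ ((1 - μ.c p) • μ.g p) ((1 - μ.c q) • μ.g q) :=
    mul_nonneg (le_max_right _ _) (Δ.Γ.isPM.nonneg _ _)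
  unfold markD
  linarith

theorem K3_late_of {z : MK Δ.m Δ.Γ.B} (hq : Δ.q z < Δ.s k) (hx : z.x = Δ.bb k)
    (hc : ∀ᵐ p ∂z.A.P, z.μ.c p = 0 ∨ z.μ.c p = 1)
    (hd : ∀ l ≤ k, ∀ p q, 4 * Δ.a l * |z.μ.c p - z.μ.c q| ≤ z.A.d p q) : Δ.Late k z := by
  obtain ⟨b1, b2⟩ := K3_bb_le Δ k
  have hG : ∀ l ≤ k, z.x ≤ Gam (Δ.a l) z.A := fun l hl =>
    Gam_ge (K3_a_pos Δ l) z.A z.μ.hc z.μ.bc hc (by
      change z.x ≤ 1 / 2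
      linarith) (hd l hl)
  refine ⟨⟨hq, by linarith, fun l hl => ?_⟩, hx, fun l hl => ?_⟩
  · linarith [hG l hl, Δ.β_pos k l]
  · linarith [hG l hl, Δ.t_le l, Δ.r_le_bb k]

theorem Late.line (h : Δ.Late k y) (hc : ∀ p, y.μ.c p = 0 ∨ y.μ.c p = 1) (hA : Δ.S.Al y.law)
    (t : I) : Δ.Late k (y.lin Δ.Γ (1 - t) t (Δ.L k)) := by
  refine K3_late_of (K3_lin_q h hc hA t rfl rfl _) h.2.1 (ae_of_all _ hc) fun l hl p q => ?_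
  have h1 := K3_markD_ge y.μ t hl p q
  have h2 : 0 ≤ max (1 - (t : ℝ)) 0 * y.A.d p q :=
    mul_nonneg (le_max_right _ _) (y.A.hd.nonneg p q)
  change 4 * Δ.a l * |y.μ.c p - y.μ.c q| ≤
    max (1 - (t : ℝ)) 0 * y.A.d p q + markD Δ.Γ t (Δ.L k) y.μ p q
  linarith

theorem Late.mov (h : Δ.Late k y) (hc : ∀ p, y.μ.c p = 0 ∨ y.μ.c p = 1) (hA : Δ.S.Al y.law)
    {β : I} (hβ : (β : ℝ) = Δ.bb k) (t : I) : Δ.Late k (y.mov Δ.Γ (Δ.L k) β t) := by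
  have b2 := (K3_bb_le Δ k).2
  have hx : y.x = β := h.2.1.trans hβ.symm
  refine K3_late_of ?_ ((mov_x y _ hx t).trans hβ) (mov_c y _ β t hc) fun l hl p q =>
    K3_markD_ge (tautM Δ.Γ) 1 hl p q
  refine lt_of_le_of_lt (mov_qq Δ.S Δ.he₀ Δ.he₁ Δ.he₂ Δ.he₁' y (Δ.L k) hx (by linarith) hc hA
    h.1.q_lt t) (max_lt h.1.1 ?_)
  rw [div_lt_iff₀ Δ.he₂]
  have h1 := Δ.hlam
  have h2 := (Δ.s_mem k).1
  have h3 := Δ.he₂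
  nlinarith

theorem lin_d_le (hd : ∀ p q, y.A.d p q ≤ Δ.L k) {t s : ℝ} (ht : t ∈ Icc (0 : ℝ) 1)
    (hs : s ∈ Icc (0 : ℝ) (Δ.L k)) (p q : y.A.Ω) :
    (y.lin Δ.Γ (1 - t) t s).A.d p q ≤ 2 * Δ.L k := by
  change max (1 - t) 0 * y.A.d p q + markD Δ.Γ t s y.μ p q ≤ 2 * Δ.L k
  have h1 := markD_le Δ.Γ ht.1 hs.1 y.μ p q
  have h2 := mul_le_mul_of_nonneg_left (Δ.L_rho k) ht.1
  have h3 := mul_le_mul_of_nonneg_left (hd p q) (sub_nonneg.mpr ht.2)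
  rw [max_eq_left (sub_nonneg.mpr ht.2)]
  linarith [hs.2]

theorem mov_d_le (β t : I) (p q : (y.mov Δ.Γ (Δ.L k) β t).A.Ω) :
    (y.mov Δ.Γ (Δ.L k) β t).A.d p q ≤ 2 * Δ.L k := by
  have hL := Δ.L_ge k
  have h1 := markD_le Δ.Γ (t := 1) (s := Δ.L k) zero_le_one (by linarith) (tautM Δ.Γ) p q
  have h2 := Δ.L_rho k
  change markD Δ.Γ 1 (Δ.L k) (tautM Δ.Γ) p q ≤ 2 * Δ.L k
  linarith

end Setup

end Pool.Agent.P.MP_de432b_gt.LC
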