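import Pool.Agent.P.MP_de432b_gt.LC.K2
import Pool.Agent.P.MP_de432b_gt.LC.K3

namespace Pool.Agent.P.MP_de432b_gt.LC

open MeasureTheory Set Filter Topology
open scoped unitInterval RealInnerProductSpace

namespace Setup
variable {Δ : Setup} {k : ℕ}

/-- The tagged space as a point. -/
noncomputable def K4_T (Δ : Setup) (k : ℕ) (y : MK Δ.m Δ.Γ.B) (ζ : ℝ) : PMb Δ.b :=
  toP Δ.b (y.tag Δ.Γ (Δ.L k) ζ).A

theorem K4_phase (St : Δ.Stage k) {δ ζ₀ : ℝ} {V V' : Set (PMb Δ.b)}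
    (hV : ∀ Z, St.Nice δ ζ₀ Z → toP Δ.b Z ∈ V') {F : V × I → MK Δ.m Δ.Γ.B}
    (hF : CM Δ.b Δ.Γ.G F) {z : V × I → ℝ} (hz : Continuous z)
    (hn : ∀ w, St.Nice δ ζ₀ ((F w).tag Δ.Γ (Δ.L k) (z w)).A) {g g' : V → MK Δ.m Δ.Γ.B}
    {ζ ζ' : V → ℝ} (h0 : ∀ y, DM Δ.b Δ.Γ.G (F (y, 0)) (g y) = 0)
    (h1 : ∀ y, DM Δ.b Δ.Γ.G (F (y, 1)) (g' y) = 0) (z0 : ∀ y, z (y, 0) = ζ y)
    (z1 : ∀ y, z (y, 1) = ζ' y) :
    Hot V V' (fun y => K4_T Δ k (g y) (ζ y)) fun y => K4_T Δ k (g' y) (ζ' y) := by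
  refine ⟨fun w => K4_T Δ k (F w) (z w), hF.tag (Δ.L k) hz, fun w => hV _ (hn w), fun y => ?_,
    fun y => ?_⟩
  · show dist (K4_T Δ k (F (y, 0)) (z (y, 0))) (K4_T Δ k (g y) (ζ y)) = 0
    rw [z0]
    exact tag_congr (h0 y) _ _
  · show dist (K4_T Δ k (F (y, 1)) (z (y, 1))) (K4_T Δ k (g' y) (ζ' y)) = 0
    rw [z1]
    exact tag_congr (h1 y) _ _

theorem K4_late (St : Δ.Stage k) (δ : ℝ) {ζ₀ : ℝ} (h2 : 9 * (Δ.Γ.CT * ζ₀) < 2 * Δ.t k)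
    {V V' : Set (PMb Δ.b)} (hV : ∀ Z, St.Nice δ ζ₀ Z → toP Δ.b Z ∈ V') {ζ : V → ℝ}
    (hζ : Continuous ζ) (hz : ∀ y, 0 < ζ y ∧ ζ y ≤ ζ₀) {F : V × I → MK Δ.m Δ.Γ.B}
    (hF : CM Δ.b Δ.Γ.G F) (hd : ∀ w p q, (F w).A.d p q ≤ 2 * Δ.L k) (hl : ∀ w, Δ.Late k (F w))
    {g g' : V → MK Δ.m Δ.Γ.B} (h0 : ∀ y, DM Δ.b Δ.Γ.G (F (y, 0)) (g y) = 0)
    (h1 : ∀ y, DM Δ.b Δ.Γ.G (F (y, 1)) (g' y) = 0) :
    Hot V V' (fun y => K4_T Δ k (g y) (ζ y)) fun y => K4_T Δ k (g' y) (ζ y) :=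
  K4_phase St hV hF (z := fun w => ζ w.1) (hζ.comp continuous_fst)
    (fun w => St.nice_of_late δ (hz w.1).1 (hz w.1).2 h2 (hd w) (hl w)) h0 h1 (fun _ => rfl)
    fun _ => rfl

/-- The part of the track that starts at a late space with an indicator discard weight. -/
theorem K4_end (St : Δ.Stage k) (δ : ℝ) {ζ₀ : ℝ} (hζ₀ : 0 < ζ₀)
    (h2 : 9 * (Δ.Γ.CT * ζ₀) < 2 * Δ.t k) {V V' : Set (PMb Δ.b)}
    (hV : ∀ Z, St.Nice δ ζ₀ Z → toP Δ.b Z ∈ V') {f : V → MK Δ.m Δ.Γ.B} (hf : CM Δ.b Δ.Γ.G f)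
    {ζ : V → ℝ} (hζ : Continuous ζ) (hz : ∀ y, 0 < ζ y ∧ ζ y ≤ ζ₀) (hl : ∀ y, Δ.Late k (f y))
    (hd : ∀ y p q, (f y).A.d p q ≤ Δ.L k) (hc : ∀ y p, (f y).μ.c p = 0 ∨ (f y).μ.c p = 1)
    (hA : ∀ y, Δ.S.Al (f y).law) :
    ∃ Z₀ : PMb Δ.b, Hot V V' (fun y => K4_T Δ k (f y) (ζ y)) fun _ => Z₀ := by
  have hL : 0 ≤ Δ.L k := by linarith [Δ.L_ge k]
  have hb : Δ.bb k ∈ Icc (0 : ℝ) 1 :=
    ⟨by linarith [Δ.r_le_bb k, Δ.hr], by linarith [Δ.bb_lt k, Δ.t_pos k, Δ.hr']⟩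
  obtain ⟨β, hβ⟩ : ∃ β : I, (β : ℝ) = Δ.bb k := ⟨⟨_, hb⟩, rfl⟩
  have hf' : CM Δ.b Δ.Γ.G fun w : V × I => f w.1 := hf.comp continuous_fst
  have ct : Continuous fun w : V × I => (w.2 : ℝ) := by fun_prop
  have p3 : Hot V V' (fun y => K4_T Δ k (f y) (ζ y))
      fun y => K4_T Δ k ((f y).lin Δ.Γ 1 0 (Δ.L k)) (ζ y) := by
    have bs : ∀ w : V × I, (w.2 : ℝ) * Δ.L k ∈ Icc (0 : ℝ) (Δ.L k) := fun w =>
      ⟨mul_nonneg w.2.2.1 hL, by nlinarith [w.2.2.2]⟩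
    refine K4_late St δ h2 hV hζ hz (F := fun w => (f w.1).lin Δ.Γ 1 0 (w.2 * Δ.L k))
      (hf'.lin (R := Δ.L k) (L := Δ.L k) (fun w => hd w.1) continuous_const continuous_const
        (ct.mul continuous_const) (fun _ => by simp) (fun _ => by simp) bs)
      (fun w => ?_) (fun w => (hl w.1).add (hc w.1) (hA w.1) _) (fun y => ?_) fun y => ?_
    · have := lin_d_le (hd w.1) (t := 0) (by simp) (bs w)
      rwa [sub_zero] at this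
    · simp only [Icc.coe_zero, zero_mul]
      exact lin_id Δ.Γ _
    · simp only [Icc.coe_one, one_mul]
      exact DM_self
  have p4 : Hot V V' (fun y => K4_T Δ k ((f y).lin Δ.Γ 1 0 (Δ.L k)) (ζ y))
      fun y => K4_T Δ k ((f y).lin Δ.Γ 0 1 (Δ.L k)) (ζ y) := by
    refine K4_late St δ h2 hV hζ hz (F := fun w => (f w.1).lin Δ.Γ (1 - w.2) w.2 (Δ.L k))
      (hf'.lin (R := Δ.L k) (L := Δ.L k) (fun w => hd w.1) (continuous_const.sub ct) ct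
        continuous_const (fun w => ⟨by linarith [w.2.2.2], by linarith [w.2.2.1]⟩)
        (fun w => w.2.2) fun _ => ⟨hL, le_rfl⟩)
      (fun w => lin_d_le (hd w.1) w.2.2 ⟨hL, le_rfl⟩)
      (fun w => (hl w.1).line (hc w.1) (hA w.1) _) (fun y => ?_) fun y => ?_
    · simp only [Icc.coe_zero, sub_zero]
      exact DM_self
    · simp only [Icc.coe_one, sub_self]
      exact DM_self
  have p5 : Hot V V' (fun y => K4_T Δ k ((f y).lin Δ.Γ 0 1 (Δ.L k)) (ζ y))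
      fun y => K4_T Δ k ((f y).mov Δ.Γ (Δ.L k) β 1) (ζ y) :=
    K4_late St δ h2 hV hζ hz (F := fun w => (f w.1).mov Δ.Γ (Δ.L k) β w.2)
      (hf'.mov _ β continuous_snd) (fun w => mov_d_le β w.2)
      (fun w => (hl w.1).mov (hc w.1) (hA w.1) hβ _)
      (fun y => DM_comm.trans (mov_zero Δ.Γ _ _ β)) fun _ => DM_self
  have p6 : Hot V V' (fun y => K4_T Δ k ((f y).mov Δ.Γ (Δ.L k) β 1) (ζ y))
      fun _ => K4_T Δ k (lawK Δ.Γ (Δ.L k) (endL Δ.Γ β)) ζ₀ := by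
    refine K4_phase St hV (F := fun w => (f w.1).mov Δ.Γ (Δ.L k) β 1)
      (hf'.mov _ β continuous_const) (z := fun w => (1 - w.2) * ζ w.1 + w.2 * ζ₀)
      (((continuous_const.sub ct).mul (hζ.comp continuous_fst)).add (ct.mul continuous_const))
      (fun w => St.nice_of_late δ ?_ ?_ h2 (mov_d_le β 1)
        ((hl w.1).mov (hc w.1) (hA w.1) hβ _)) (fun _ => DM_self)
      (fun y => mov_one Δ.Γ _ _ β) (fun _ => by simp) fun _ => by simp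
    · nlinarith [(hz w.1).1, (hz w.1).2, w.2.2.1, w.2.2.2]
    · nlinarith [(hz w.1).1, (hz w.1).2, w.2.2.1, w.2.2.2]
  exact ⟨_, ((p3.trans p4).trans p5).trans p6⟩

/-- The late part of the track, from a continuous family of aligned marked spaces. -/
theorem Stage.late_track (St : Δ.Stage k) (δ : ℝ) {ζ₀ : ℝ} (hζ₀ : 0 < ζ₀)
    (h2 : 9 * (Δ.Γ.CT * ζ₀) < 2 * Δ.t k) {V V' : Set (PMb Δ.b)}
    (hV : ∀ Z, St.Nice δ ζ₀ Z → toP Δ.b Z ∈ V') {f : V → MK Δ.m Δ.Γ.B} (hf : CM Δ.b Δ.Γ.G f)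
    {ζ : V → ℝ} (hζ : Continuous ζ) (h : ∀ y, 0 < ζ y ∧ ζ y ≤ ζ₀ ∧ Δ.Inv k (f y) ∧
      (f y).x ≤ Δ.bb k ∧ (∀ p q, (f y).A.d p q ≤ Δ.L k) ∧ Δ.S.Al (f y).law ∧
      9 * (Δ.Γ.CT * ζ y) < St.o (f y).A) :
    ∃ Z₀ : PMb Δ.b, Hot V V' (fun y => toP Δ.b ((f y).tag Δ.Γ (Δ.L k) (ζ y)).A) fun _ => Z₀ := by
  choose z0 z1 hi hx hd hA ho using h
  have hL : 0 ≤ Δ.L k := by linarith [Δ.L_ge k]
  have hz : ∀ y, 0 < ζ y ∧ ζ y ≤ ζ₀ := fun y => ⟨z0 y, z1 y⟩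
  have hx1 : ∀ y, 0 < 1 - (f y).x := fun y => by linarith [(hi y).x_le]
  obtain ⟨η, hη⟩ : ∃ η : V → ℝ, ∀ y, η y = (Δ.bb k - (f y).x) / (1 - (f y).x) := ⟨_, fun _ => rfl⟩
  have cη : Continuous η := by
    rw [funext hη]
    exact (continuous_const.sub hf.x).div (continuous_const.sub hf.x) fun y => (hx1 y).ne'
  have η0 : ∀ y, 0 ≤ η y := fun y => by
    rw [hη]
    exact div_nonneg (sub_nonneg.mpr (hx y)) (hx1 y).le
  have ct : Continuous fun w : V × I => (w.2 : ℝ) := by fun_prop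
  have hb : ∀ y e p q, ((f y).ball (Δ.L k) e).A.d p q ≤ Δ.L k := fun y e =>
    ball_d_le (f y).A hL le_rfl (hd y)
  have p1 : Hot V V' (fun y => K4_T Δ k (f y) (ζ y))
      fun y => K4_T Δ k ((f y).ball (Δ.L k) (η y)) (ζ y) := by
    refine K4_phase St hV (F := fun w => (f w.1).ball (Δ.L k) (w.2 * η w.1))
      ((hf.comp continuous_fst).ball _ (ct.mul (cη.comp continuous_fst))) (z := fun w => ζ w.1)
      (hζ.comp continuous_fst) (fun w => ?_) (fun y => ?_) (fun y => ?_) (fun _ => rfl)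
      fun _ => rfl
    · obtain ⟨a1, a2, a3, -⟩ := St.ball_phase (hi w.1) (hx w.1) (hd w.1)
        (η := w.2 * η w.1) (mul_nonneg w.2.2.1 (η0 _))
        (by rw [← hη]; nlinarith [w.2.2.2, η0 w.1])
      exact St.nice_of δ (z0 _) (z1 _) (fun p q => (hb _ _ p q).trans (by linarith)) a1 a2
        ((ho _).trans_le a3)
    · simp only [Icc.coe_zero, zero_mul]
      exact DM_ball_zero _ hL fun p q => (hd y p q).trans (by linarith)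
    · simp only [Icc.coe_one, one_mul]
      exact DM_self
  obtain ⟨g, hg⟩ : ∃ g : V → MK Δ.m Δ.Γ.B, ∀ y, g y = (f y).ball (Δ.L k) (η y) :=
    ⟨_, fun _ => rfl⟩
  have cg : CM Δ.b Δ.Γ.G g := by
    rw [funext hg]
    exact hf.ball _ cη
  have lg : ∀ y, Δ.Late k (g y) := fun y => by
    rw [hg, hη]
    exact ball_late (hi y) (hx y) (hd y)
  have dg : ∀ y p q, (g y).A.d p q ≤ Δ.L k := fun y => by
    rw [hg]
    exact hb y _
  have ag : ∀ y, Δ.S.Al (g y).law := fun y => by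
    rw [hg, (St.ball_phase (hi y) (hx y) (hd y) (η0 y) (hη y).le).2.2.2]
    exact hA y
  simp only [← hg] at p1
  have p2 : Hot V V' (fun y => K4_T Δ k (g y) (ζ y))
      fun y => K4_T Δ k ((g y).split 1) (ζ y) :=
    K4_late St δ h2 hV hζ hz (F := fun w => (g w.1).split w.2)
      ((cg.comp continuous_fst).split continuous_snd)
      (fun w p q => (dg w.1 p.1 q.1).trans (by linarith)) (fun w => ((lg w.1).split w.2).1)
      (fun y => DM_split_zero _) fun _ => DM_self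
  obtain ⟨Z₀, p3⟩ := K4_end St δ hζ₀ h2 hV (f := fun y => (g y).split 1)
    (cg.split continuous_const) hζ hz (fun y => ((lg y).split 1).1)
    (fun y p q => dg y p.1 q.1) (fun y => split_one (g y))
    fun y => by rw [((lg y).split 1).2]; exact ag y
  exact ⟨Z₀, (p1.trans p2).trans p3⟩

end Setup

end Pool.Agent.P.MP_de432b_gt.LC
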