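import Pool.Agent.P.MP_de432b_gt.LC.K4

namespace Pool.Agent.P.MP_de432b_gt.LC

open MeasureTheory Set Filter Topology
open scoped unitInterval RealInnerProductSpace

namespace Setup
variable {Δ : Setup} {k : ℕ}

open Classical in
/-- The truncation phase. -/
theorem K5_trunc (St : Δ.Stage k) {V' : Set (PMb Δ.b)} (hV : St.V ⊆ V') :
    Hot St.V V' Subtype.val fun y => toP Δ.b ((ofP y.1).trunc (Δ.L k)) := by
  have hL : 0 < Δ.L k := by linarith [Δ.L_ge k]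
  refine ⟨fun z => toP Δ.b (if z.2 = 0 then ofP z.1.1 else (ofP z.1.1).trunc (Δ.L k / z.2)),
    ?_, fun z => hV ?_, fun y => ?_, fun y => ?_⟩
  · refine continuous_iff_continuousAt.mpr fun z => Metric.continuousAt_iff'.mpr fun ε hε => ?_
    obtain ⟨η, hη, h⟩ := trunc_path (b := Δ.b) (ofP z.1.1) hL z.2 (half_pos hε)
    have c1 : Continuous fun w : St.V × I => dist z.1.1 w.1.1 := by fun_prop
    have c2 : Continuous fun w : St.V × I => |(z.2 : ℝ) - w.2| := by fun_prop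
    have e1 := c1.continuousAt (x := z) |>.eventually_lt continuousAt_const
      (show dist z.1.1 z.1.1 < η by simpa using hη)
    have e2 := c2.continuousAt (x := z) |>.eventually_lt continuousAt_const
      (show |(z.2 : ℝ) - z.2| < η by simpa using hη)
    filter_upwards [e1, e2] with w h1 h2
    rw [dist_comm]
    exact (h (ofP w.1.1) w.2 h1 h2).trans_lt (half_lt_self hε)
  · have hz : St.v (ofP z.1.1) < 0 := z.1.2
    show St.v (if z.2 = 0 then ofP z.1.1 else (ofP z.1.1).trunc (Δ.L k / z.2)) < 0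
    split_ifs with h0
    · exact hz
    · have hp : (0 : ℝ) < z.2 := lt_of_le_of_ne z.2.2.1 fun e => h0 (Subtype.ext e.symm)
      rw [St.pair.lv.trunc _ _ (by
        rw [le_div_iff₀ hp]
        exact mul_le_of_le_one_right hL.le z.2.2.2)]
      exact hz
  · simp
  · simp

/-- The aligned marked space over the ballast path depends continuously on the data. -/
theorem K5_lift (St : Δ.Stage k) {Y : Type 1} [TopologicalSpace Y] {γ : Y → PMb Δ.b}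
    (hγ : Continuous γ) {η : Y → ℝ} (hη : Continuous η)
    (hw : ∀ y, St.w (Δ.path k (ofP (γ y)) (η y)) < 0) :
    CM Δ.b Δ.Γ.G fun y => St.lift (Δ.path k (ofP (γ y)) (η y)) := by
  have h1 : Continuous fun y => toP Δ.b (Δ.path k (ofP (γ y)) (η y)) :=
    cont_ball (cont_trunc hγ (Δ.L k)) (Δ.L k) hη
  have h2 := CM.gauge (ga := St.ga) h1 fun y => St.sc _ (hw y)
  exact CM.al Δ.S h2 (fun y => (St.inv _ (hw y)).x_le.trans (by norm_num))
    fun y => (St.inv _ (hw y)).rad_le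

/-- The tagged space over the ballast path. -/
noncomputable def K5_T (St : Δ.Stage k) (y : PMb Δ.b) (η ζ : ℝ) : PMb Δ.b :=
  toP Δ.b ((St.lift (Δ.path k (ofP y) η)).tag Δ.Γ (Δ.L k) ζ).A

theorem K5_T_cont (St : Δ.Stage k) {Y : Type 1} [TopologicalSpace Y] {γ : Y → PMb Δ.b}
    (hγ : Continuous γ) {η ζ : Y → ℝ} (hη : Continuous η) (hζ : Continuous ζ)
    (hw : ∀ y, St.w (Δ.path k (ofP (γ y)) (η y)) < 0) :
    Continuous fun y => K5_T St (γ y) (η y) (ζ y) :=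
  (K5_lift St hγ hη hw).tag (Δ.L k) hζ

theorem K5_T_dist (St : Δ.Stage k) (y : PMb Δ.b) {ζ : ℝ} (h0 : 0 ≤ ζ) :
    DD Δ.b (ofP (K5_T St y 0 ζ)) ((ofP y).trunc (Δ.L k)) ≤ Δ.Γ.CT * ζ := by
  have hL := Δ.L_ge k
  have h1 : DD Δ.b (ofP (K5_T St y 0 ζ)) (Δ.path k (ofP y) 0) ≤ Δ.Γ.CT * ζ :=
    (DD_le_DM (G := ⊤) (x := (St.lift (Δ.path k (ofP y) 0)).tag Δ.Γ (Δ.L k) ζ)
      (y := St.lift (Δ.path k (ofP y) 0))).trans
      (DM_tag Δ.Γ ⊤ (St.lift (Δ.path k (ofP y) 0)) (by linarith)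
        (fun p q => (path_d_le (ofP y) 0 p q).trans (by linarith)) h0)
  have h2 := DD_triangle Δ.b (ofP (K5_T St y 0 ζ)) (Δ.path k (ofP y) 0) ((ofP y).trunc (Δ.L k))
  rw [DD_path_zero] at h2
  linarith

/-- The growth of the antenna. -/
theorem K5_grow (St : Δ.Stage k) {V' : Set (PMb Δ.b)} (hV : St.V ⊆ V') {ζ : St.V → ℝ}
    (hζ : Continuous ζ) (h0 : ∀ y, 0 < ζ y) (h1 : ∀ y, 9 * (Δ.Γ.CT * ζ y) < -St.v (ofP y.1))
    (hw : ∀ y : St.V, St.w (Δ.path k (ofP y.1) 0) < 0) :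
    Hot St.V V' (fun y => toP Δ.b ((ofP y.1).trunc (Δ.L k))) fun y => K5_T St y.1 0 (ζ y) := by
  have hC := (E3_CT_ge Δ.Γ).2
  refine ⟨fun z => K5_T St z.1.1 0 (z.2 * ζ z.1), ?_, fun z => hV ?_, fun y => ?_, fun y => ?_⟩
  · exact K5_T_cont St (γ := fun z : St.V × I => z.1.1) (by fun_prop) continuous_const
      (by fun_prop) fun z => hw z.1
  · show St.v (ofP (K5_T St z.1.1 0 (z.2 * ζ z.1))) < 0
    have h2 := K5_T_dist St z.1.1 (mul_nonneg z.2.2.1 (h0 z.1).le)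
    have h3 := St.pair.lv.lip (ofP (K5_T St z.1.1 0 (z.2 * ζ z.1))) ((ofP z.1.1).trunc (Δ.L k))
    rw [St.pair.lv.trunc _ _ le_rfl] at h3
    have h4 : (z.2 : ℝ) * ζ z.1 ≤ ζ z.1 := mul_le_of_le_one_left (h0 z.1).le z.2.2.2
    have h5 : Δ.Γ.CT * (z.2 * ζ z.1) ≤ Δ.Γ.CT * ζ z.1 :=
      mul_le_mul_of_nonneg_left h4 (by linarith)
    linarith [(abs_le.mp h3).2, h1 z.1]
  · have h2 := K5_T_dist St y.1 (ζ := 0) le_rfl
    simp only [Set.Icc.coe_zero, zero_mul]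
    refine le_antisymm ?_ dist_nonneg
    rw [mul_zero] at h2
    exact h2
  · simp

theorem Stage.track (St : Δ.Stage k) {δ : ℝ} (hδ : 0 < δ) : ∃ ζ₂ : ℝ, 0 < ζ₂ ∧
    ∀ ζ₀, 0 < ζ₀ → ζ₀ ≤ ζ₂ → (∃ Z, St.Nice δ ζ₀ Z) ∧ ∀ V' : Set (PMb Δ.b), St.V ⊆ V' →
      (∀ Z, St.Nice δ ζ₀ Z → toP Δ.b Z ∈ V') →
      ∃ Z₀ : PMb Δ.b, Hot St.V V' Subtype.val fun _ => Z₀ := by
  have hC := (E3_CT_ge Δ.Γ).2
  have ht := Δ.t_pos k
  refine ⟨Δ.t k / (9 * Δ.Γ.CT), by positivity, fun ζ₀ hζ₀ hζ₂ => ?_⟩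
  have h2 : 9 * (Δ.Γ.CT * ζ₀) < 2 * Δ.t k := by
    rw [le_div_iff₀ (by positivity)] at hζ₂
    linarith
  obtain ⟨e, he, hE⟩ := St.freeze
  obtain ⟨ζ, hζ, hZ⟩ := St.radius hδ hζ₀ he hE
  refine ⟨⟨_, (hZ ⟨toP Δ.b Δ.X₀, St.base⟩).2.2.2.2 0⟩, fun V' hV hN => ?_⟩
  have hw : ∀ (y : St.V) (u : I), St.w (Δ.path k (ofP y.1) (u * e y)) < 0 := fun y u =>
    (hE y).2.1 _ (mul_nonneg u.2.1 (hE y).1.le) (mul_le_of_le_one_left (hE y).1.le u.2.2)
  have hw1 : ∀ y : St.V, St.w (Δ.path k (ofP y.1) (e y)) < 0 := fun y =>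
    (hE y).2.1 _ (hE y).1.le le_rfl
  have p1 := K5_trunc St hV
  have p2 := K5_grow St hV hζ (fun y => (hZ y).1) (fun y => (hZ y).2.2.1)
    fun y => (hE y).2.1 0 le_rfl (hE y).1.le
  have p3 : Hot St.V V' (fun y => K5_T St y.1 0 (ζ y)) fun y => K5_T St y.1 (e y) (ζ y) := by
    refine ⟨fun z => K5_T St z.1.1 (z.2 * e z.1) (ζ z.1), ?_,
      fun z => hN _ ((hZ z.1).2.2.2.2 z.2), fun y => ?_, fun y => ?_⟩
    · exact K5_T_cont St (γ := fun z : St.V × I => z.1.1) (by fun_prop) (by fun_prop)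
        (by fun_prop) fun z => hw z.1 z.2
    · simp
    · simp
  obtain ⟨Z₀, p4⟩ := St.late_track δ hζ₀ h2 (V := St.V) hN
    (f := fun y => St.lift (Δ.path k (ofP y.1) (e y)))
    (K5_lift St (γ := fun y : St.V => y.1) continuous_subtype_val he hw1) hζ
    fun y => ⟨(hZ y).1, (hZ y).2.1, (St.inv _ (hw1 y)).al, (St.x_lt (hw1 y)).le,
      path_d_le (ofP y.1) (e y), al_Al Δ.S _, (hZ y).2.2.2.1⟩
  exact ⟨Z₀, ((p1.trans p2).trans p3).trans p4⟩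

end Setup

end Pool.Agent.P.MP_de432b_gt.LC
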