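import Pool.Agent.P.MP_de432b_gt.LC.K5
import Pool.Agent.P.MP_de432b_gt.LC.I4
import Pool.Agent.P.MP_de432b_gt.LC.I5
import Pool.Agent.P.MP_de432b_gt.LC.J2

namespace Pool.Agent.P.MP_de432b_gt.LC

open MeasureTheory Set Filter Topology
open scoped unitInterval RealInnerProductSpace

theorem K6_next {Δ : Setup} {k : ℕ} (St : Δ.Stage k) : ∃ St' : Δ.Stage (k + 1),
    St.V ⊆ St'.V ∧ ∃ x, Hot St.V St'.V Subtype.val fun _ => x := by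
  obtain ⟨δ, ζ₁, hδ, hζ₁, h1⟩ := St.step
  obtain ⟨ζ₂, hζ₂, h2⟩ := St.track hδ
  obtain ⟨h3, h4⟩ := h2 (min ζ₁ ζ₂) (lt_min hζ₁ hζ₂) (min_le_right _ _)
  obtain ⟨St', h5, h6⟩ := h1 (min ζ₁ ζ₂) (min_le_left _ _) h3
  have h7 : St.V ⊆ St'.V := fun z hz => (h5 _).trans_lt hz
  exact ⟨St', h7, h4 St'.V h7 h6⟩

theorem K6_local (Δ : Setup) (St₀ : Δ.Stage 0) : ∃ W : Set (PMb Δ.b), IsOpen W ∧
    toP Δ.b Δ.X₀ ∈ W ∧ (∀ z ∈ W, DD Δ.b (ofP z) Δ.X₀ ≤ 20 * Δ.r + 2 * Δ.e₀) ∧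
      ContractibleSpace W := by
  choose nx h1 h2 using fun (k : ℕ) (St : Δ.Stage k) => K6_next St
  let S : ∀ k, Δ.Stage k := fun k => Nat.rec St₀ (fun k St => nx k St) k
  have ho : ∀ n, IsOpen (S n).V := fun n =>
    isOpen_lt (Setup.Level.cont (S n).pair.lv) continuous_const
  have h0 : toP Δ.b Δ.X₀ ∈ (S 0).V := (S 0).base
  refine ⟨⋃ n, (S n).V, isOpen_iUnion ho, mem_iUnion.2 ⟨0, h0⟩, fun z hz => ?_,
    telescope ho (fun n => h1 n (S n)) ⟨_, h0⟩ fun n => h2 n (S n)⟩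
  obtain ⟨n, hn⟩ := mem_iUnion.1 hz
  exact ((S n).inv _ (((S n).pair.le _).trans_lt hn)).dd

theorem pm_local (b : Bool) (X : PMb b) (ε : ℝ) (hε : 0 < ε) : ∃ W : Set (PMb b), IsOpen W ∧
    X ∈ W ∧ W ⊆ Metric.ball X ε ∧ ContractibleSpace W := by
  obtain ⟨Δ, rfl, hX, hr, ⟨St₀⟩⟩ := exists_setup b (ofP X) hε
  obtain ⟨W, h1, h2, h3, h4⟩ := K6_local Δ St₀
  rw [hX] at h2 h3
  exact ⟨W, h1, h2, fun z hz => (h3 z hz).trans_lt hr, h4⟩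

end Pool.Agent.P.MP_de432b_gt.LC
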