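import Pool.Agent.P.MP_de432b_gt.LC.B2
import Pool.Agent.P.MP_de432b_gt.LC.E4

/-!
Stage zero, part one: an upper tail mean and the invariant pseudo-metric built from it.
-/

namespace Pool.Agent.P.MP_de432b_gt.LC

open MeasureTheory Set Filter Topology
open scoped unitInterval RealInnerProductSpace

section cvar
variable {Ω Ω' : Type} [MeasurableSpace Ω] [MeasurableSpace Ω'] {P : Measure Ω}
  [IsProbabilityMeasure P] {H : ℝ} {X Y : Ω → ℝ}

/-- The upper tail mean at level `1 / H`. -/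
noncomputable def cv (P : Measure Ω) (H : ℝ) (X : Ω → ℝ) : ℝ :=
  ⨅ a : ℝ, (a + H * ∫ p, max (X p - a) 0 ∂P)

theorem cv_int (hX : Integrable X P) (a : ℝ) : Integrable (fun p => max (X p - a) 0) P :=
  (hX.sub (integrable_const a)).pos_part

theorem cv_low (hH : 1 ≤ H) (hX : Integrable X P) (a : ℝ) :
    ∫ p, X p ∂P ≤ a + H * ∫ p, max (X p - a) 0 ∂P := by
  have h1 : ∫ p, (X p - a) ∂P ≤ ∫ p, max (X p - a) 0 ∂P :=
    integral_mono (hX.sub (integrable_const a)) (cv_int hX a) fun p => le_max_left _ _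
  have h2 : 0 ≤ ∫ p, max (X p - a) 0 ∂P := integral_nonneg fun p => le_max_right _ _
  rw [integral_sub hX (integrable_const a), integral_const, probReal_univ, one_smul] at h1
  nlinarith

theorem cv_le (hH : 1 ≤ H) (hX : Integrable X P) (a : ℝ) :
    cv P H X ≤ a + H * ∫ p, max (X p - a) 0 ∂P :=
  ciInf_le ⟨_, forall_mem_range.mpr (cv_low hH hX)⟩ a

theorem mean_le_cv (hH : 1 ≤ H) (hX : Integrable X P) : ∫ p, X p ∂P ≤ cv P H X :=
  le_ciInf (cv_low hH hX)

theorem cv_le_of_ae (hH : 1 ≤ H) (hX : Integrable X P) {c : ℝ} (h : ∀ᵐ p ∂P, X p ≤ c) :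
    cv P H X ≤ c := by
  refine (cv_le hH hX c).trans_eq ?_
  rw [integral_congr_ae (g := fun _ => 0) (h.mono fun p hp => max_eq_right (sub_nonpos.mpr hp))]
  simp

theorem le_cv (hH : 1 ≤ H) (hX : Integrable X P) {c : ℝ} {S : Set Ω}
    (hS : 1 ≤ H * P.real S) (h : ∀ p ∈ S, c ≤ X p) : c ≤ cv P H X := by
  refine le_ciInf fun a => ?_
  have h2 : 0 ≤ ∫ p, max (X p - a) 0 ∂P := integral_nonneg fun p => le_max_right _ _
  by_cases hc : c ≤ a
  · nlinarith
  have h1 := mul_meas_ge_le_integral_of_nonneg (μ := P)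
    (Eventually.of_forall fun p => le_max_right (X p - a) 0) (cv_int hX a) (c - a)
  have h3 : P.real S ≤ P.real {p | c - a ≤ max (X p - a) 0} :=
    measureReal_mono fun p hp => le_max_of_le_left (sub_le_sub_right (h p hp) a)
  have h4 : 0 < c - a := by linarith
  have h5 := mul_le_mul_of_nonneg_left ((mul_le_mul_of_nonneg_left h3 h4.le).trans h1)
    (zero_le_one.trans hH)
  nlinarith

theorem cv_add (hH : 1 ≤ H) (hX : Integrable X P) (hY : Integrable Y P) :
    cv P H (fun p => X p + Y p) ≤ cv P H X + cv P H Y := by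
  refine le_ciInf_add_ciInf fun a b => (cv_le hH (hX.add hY) (a + b)).trans ?_
  have h1 : ∫ p, max (X p + Y p - (a + b)) 0 ∂P ≤
      ∫ p, (max (X p - a) 0 + max (Y p - b) 0) ∂P :=
    integral_mono (cv_int (hX.add hY) _) ((cv_int hX a).add (cv_int hY b)) fun p =>
      max_le (by linarith [le_max_left (X p - a) 0, le_max_left (Y p - b) 0])
        (add_nonneg (le_max_right _ _) (le_max_right _ _))
  rw [integral_add (cv_int hX a) (cv_int hY b)] at h1
  have := mul_le_mul_of_nonneg_left h1 (zero_le_one.trans hH)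
  show a + b + H * ∫ p, max (X p + Y p - (a + b)) 0 ∂P ≤ _
  linarith

theorem cv_lip (hH : 1 ≤ H) (hX : Integrable X P) (hY : Integrable Y P) :
    cv P H X ≤ cv P H Y + H * ∫ p, |X p - Y p| ∂P := by
  have h1 := cv_add hH hY (hX.sub hY)
  simp only [Pi.sub_apply, add_sub_cancel] at h1
  have h2 := cv_le hH (hX.sub hY) 0
  have h3 : ∫ p, max ((X - Y) p - 0) 0 ∂P ≤ ∫ p, |X p - Y p| ∂P :=
    integral_mono (cv_int (hX.sub hY) 0) (hX.sub hY).abs fun p =>
      max_le (by rw [sub_zero]; exact le_abs_self (X p - Y p)) (abs_nonneg _)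
  have h4 := mul_le_mul_of_nonneg_left h3 (zero_le_one.trans hH)
  have h5 : cv P H (fun p => X p - Y p) = cv P H (X - Y) := rfl
  linarith

omit [IsProbabilityMeasure P] in
theorem cv_map {g : Ω → Ω'} (hg : Measurable g) {Z : Ω' → ℝ} (hZ : Measurable Z) :
    cv (P.map g) H Z = cv P H fun p => Z (g p) := by
  unfold cv
  congr 1
  funext a
  rw [integral_map hg.aemeasurable
    ((hZ.sub_const a).max measurable_const).aestronglyMeasurable]

end cvar

section rho
variable {m : ℕ} {lam : Measure (E m)} [IsProbabilityMeasure lam] {B H : ℝ} {J : E m →L[ℝ] E m}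

/-- The gauge of a vector. -/
noncomputable def nJ (lam : Measure (E m)) (H : ℝ) (J : E m →L[ℝ] E m) (v : E m) : ℝ :=
  cv lam H fun u => ⟪J v, u⟫

/-- The invariant pseudo-metric. -/
noncomputable def rhoJ (lam : Measure (E m)) (H : ℝ) (J : E m →L[ℝ] E m) (x y : E m) : ℝ :=
  max (nJ lam H J (x - y)) (nJ lam H J (y - x))

theorem meas_inner (w : E m) : Measurable fun u : E m => ⟪w, u⟫ := by fun_prop

theorem int_inner (hb : ∀ᵐ x ∂lam, ‖x‖ ≤ B) (w : E m) : Integrable (fun u => ⟪w, u⟫) lam :=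
  Integrable.of_bound (meas_inner w).aestronglyMeasurable (‖w‖ * B) (hb.mono fun _ hx =>
    (norm_inner_le_norm _ _).trans (mul_le_mul_of_nonneg_left hx (norm_nonneg _)))

theorem nJ_le (hH : 1 ≤ H) (hb : ∀ᵐ x ∂lam, ‖x‖ ≤ B) (v : E m) :
    nJ lam H J v ≤ ‖J‖ * B * ‖v‖ :=
  cv_le_of_ae hH (int_inner hb _) (hb.mono fun x hx => (real_inner_le_norm _ _).trans
    ((mul_le_mul (J.le_opNorm v) hx (norm_nonneg _) (by positivity)).trans_eq (by ring)))

theorem nJ_zero (hH : 1 ≤ H) : nJ lam H J 0 = 0 := by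
  have hi : Integrable (fun u : E m => ⟪J 0, u⟫) lam := by simp
  refine le_antisymm (cv_le_of_ae hH hi (Eventually.of_forall fun _ => by simp)) ?_
  exact le_trans (by simp) (mean_le_cv hH hi)

theorem nJ_add (hH : 1 ≤ H) (hb : ∀ᵐ x ∂lam, ‖x‖ ≤ B) (v w : E m) :
    nJ lam H J (v + w) ≤ nJ lam H J v + nJ lam H J w := by
  have := cv_add hH (int_inner hb (J v)) (int_inner hb (J w))
  simpa only [nJ, map_add, inner_add_left] using this

omit [IsProbabilityMeasure lam] in
theorem nJ_inv {h : U m} (hl : lam.map (h : E m →L[ℝ] E m) = lam)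
    (hJ : ∀ v, J ((h : E m →L[ℝ] E m) v) = (h : E m →L[ℝ] E m) (J v)) (v : E m) :
    nJ lam H J ((h : E m →L[ℝ] E m) v) = nJ lam H J v := by
  rw [nJ, ← hl, cv_map (h : E m →L[ℝ] E m).continuous.measurable (meas_inner _), hl, nJ, hJ]
  congr 1
  funext u
  exact ContinuousLinearMap.inner_map_map_of_mem_unitary h.2 _ _

theorem rhoJ_self (hH : 1 ≤ H) (x : E m) : rhoJ lam H J x x = 0 := by
  rw [rhoJ, sub_self, nJ_zero hH, max_self]

omit [IsProbabilityMeasure lam] in
theorem rhoJ_symm (x y : E m) : rhoJ lam H J x y = rhoJ lam H J y x := max_comm _ _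

theorem rhoJ_tri (hH : 1 ≤ H) (hb : ∀ᵐ x ∂lam, ‖x‖ ≤ B) (x y z : E m) :
    rhoJ lam H J x z ≤ rhoJ lam H J x y + rhoJ lam H J y z := by
  have h1 := nJ_add (J := J) hH hb (x - y) (y - z)
  have h2 := nJ_add (J := J) hH hb (z - y) (y - x)
  rw [sub_add_sub_cancel] at h1 h2
  refine max_le (h1.trans (add_le_add (le_max_left _ _) (le_max_left _ _))) (h2.trans ?_)
  rw [add_comm]
  exact add_le_add (le_max_right _ _) (le_max_right _ _)

theorem rhoJ_le (hH : 1 ≤ H) (hb : ∀ᵐ x ∂lam, ‖x‖ ≤ B) (x y : E m) :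
    rhoJ lam H J x y ≤ ‖J‖ * B * ‖x - y‖ :=
  max_le (nJ_le hH hb _) (norm_sub_rev x y ▸ nJ_le hH hb _)

omit [IsProbabilityMeasure lam] in
theorem rhoJ_inv {h : U m} (hl : lam.map (h : E m →L[ℝ] E m) = lam)
    (hJ : ∀ v, J ((h : E m →L[ℝ] E m) v) = (h : E m →L[ℝ] E m) (J v)) (x y : E m) :
    rhoJ lam H J ((h : E m →L[ℝ] E m) x) ((h : E m →L[ℝ] E m) y) = rhoJ lam H J x y := by
  rw [rhoJ, ← map_sub, ← map_sub, nJ_inv hl hJ, nJ_inv hl hJ, rhoJ]

end rho

section box

theorem exists_thick (A : PM) {δ : ℝ} (hδ : 0 < δ) : ∃ (H : ℝ) (S : Set A.Ω), 1 ≤ H ∧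
    MeasurableSet S ∧ A.P.real Sᶜ ≤ δ ∧ ∀ q ∈ S, 1 ≤ H * A.P.real {u | A.d q u ≤ δ} := by
  obtain ⟨i, hi, hd⟩ := A.hd.sep δ hδ
  let f : A.Ω → ℝ := fun p => A.P.real (i ⁻¹' {i p})
  have hf : Measurable f := (measurable_of_countable fun n => A.P.real (i ⁻¹' {n})).comp hi
  have hms : ∀ r : ℝ, MeasurableSet {p | f p < r} := fun r => measurableSet_lt hf measurable_const
  have h1 := tendsto_measure_biInter_gt (μ := A.P) (s := fun r : ℝ => {p | f p < r}) (a := 0)
    (fun r _ => (hms r).nullMeasurableSet) (fun r r' _ h p hp => lt_of_lt_of_le hp h)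
    ⟨1, one_pos, measure_ne_top _ _⟩
  have h2 : A.P (⋂ r > (0 : ℝ), {p | f p < r}) = 0 := by
    refine measure_mono_null (t := ⋃ n ∈ {n | A.P (i ⁻¹' {n}) = 0}, i ⁻¹' {n}) (fun p hp => ?_)
      ((measure_biUnion_null_iff (to_countable _)).mpr fun n hn => hn)
    refine mem_biUnion (x := i p) ?_ rfl
    have h3 : f p ≤ 0 := le_of_forall_pos_le_add fun r hr => by
      have : f p < r := mem_iInter₂.mp hp r hr
      linarith
    exact (measureReal_eq_zero_iff (measure_ne_top _ _)).mp (le_antisymm h3 measureReal_nonneg)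
  rw [h2] at h1
  obtain ⟨r, hr, hr0⟩ := ((h1.eventually (gt_mem_nhds (ENNReal.ofReal_pos.mpr hδ))).and
    self_mem_nhdsWithin).exists
  have hr1 : (0 : ℝ) < r := hr0
  refine ⟨max 1 (1 / r), {p | f p < r}ᶜ, le_max_left _ _, (hms r).compl, ?_, fun q hq => ?_⟩
  · rw [compl_compl]
    exact ENNReal.toReal_le_of_le_ofReal hδ.le hr.le
  · have h4 : r ≤ f q := le_of_not_gt hq
    have h5 : f q ≤ A.P.real {u | A.d q u ≤ δ} :=
      measureReal_mono fun u hu => hd q u (Eq.symm hu)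
    calc (1 : ℝ) = 1 / r * r := by field_simp
      _ ≤ _ := mul_le_mul (le_max_right _ _) (h4.trans h5) hr1.le (by positivity)

theorem box_of_kernel {m : ℕ} (A : PM) {g : A.Ω → E m} (hg : Measurable g) {B : ℝ}
    (hb : ∀ p, ‖g p‖ ≤ B) (J : E m →L[ℝ] E m) {δ R H : ℝ} (hδ : 0 < δ) (hR : 0 ≤ R) (hH : 1 ≤ H)
    {S₀ S₁ : Set A.Ω} (m₀ : MeasurableSet S₀) (m₁ : MeasurableSet S₁) (p₀ : A.P.real S₀ᶜ ≤ δ)
    (p₁ : A.P.real S₁ᶜ ≤ δ) (h₀ : ∀ p ∈ S₀, ∀ q ∈ S₀, A.d p q ≤ R)
    (h₁ : ∀ q ∈ S₁, 1 ≤ H * A.P.real {u | A.d q u ≤ δ})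
    (hk : H * ∫ x, |⟪J (g x.1), g x.2⟫ - min (A.d x.1 x.2) R| ∂(A.P.prod A.P) ≤ δ ^ 2) :
    BoxC A.P A.d (fun p q => rhoJ (A.P.map g) H J (g p) (g q)) (4 * δ) := by
  have hd' := A.hd.trunc hR
  let φ : A.Ω × A.Ω → ℝ := fun x => |⟪J (g x.1), g x.2⟫ - min (A.d x.1 x.2) R|
  have mk : Measurable fun x : A.Ω × A.Ω => ⟪J (g x.1), g x.2⟫ :=
    (J.continuous.measurable.comp (hg.comp measurable_fst)).inner (hg.comp measurable_snd)
  have mφ : Measurable φ := (mk.sub hd'.measurable).abs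
  have bk : ∀ p u, |⟪J (g p), g u⟫| ≤ ‖J‖ * B * B := fun p u =>
    (abs_real_inner_le_norm _ _).trans (mul_le_mul ((J.le_opNorm _).trans
      (mul_le_mul_of_nonneg_left (hb p) (norm_nonneg _))) (hb u) (norm_nonneg _)
      (mul_nonneg (norm_nonneg _) ((norm_nonneg _).trans (hb p))))
  have bd : ∀ p u, |min (A.d p u) R| ≤ R := fun p u =>
    (abs_of_nonneg (hd'.nonneg p u)).trans_le (min_le_right _ _)
  have iφ : Integrable φ (A.P.prod A.P) :=
    Integrable.of_bound mφ.aestronglyMeasurable (‖J‖ * B * B + R) (Eventually.of_forall fun x => by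
      rw [Real.norm_eq_abs, abs_abs]
      exact (abs_sub _ _).trans (add_le_add (bk _ _) (bd _ _)))
  have ik : ∀ p, Integrable (fun u => ⟪J (g p), g u⟫) A.P := fun p =>
    Integrable.of_bound (mk.comp measurable_prodMk_left).aestronglyMeasurable _
      (Eventually.of_forall (bk p))
  have id' : ∀ p, Integrable (fun u => min (A.d p u) R) A.P := fun p =>
    Integrable.of_bound (hd'.measurable.comp measurable_prodMk_left).aestronglyMeasurable _
      (Eventually.of_forall (bd p))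
  let F : A.Ω → ℝ := fun p => H * ∫ u, φ (p, u) ∂A.P
  have mF : Measurable F := mφ.stronglyMeasurable.integral_prod_right'.measurable.const_mul H
  have hH0 : 0 ≤ H := zero_le_one.trans hH
  have p₂ : A.P.real {p | δ ≤ F p} ≤ δ := by
    have h1 := mul_meas_ge_le_integral_of_nonneg (μ := A.P) (f := F)
      (Eventually.of_forall fun p => mul_nonneg hH0 (integral_nonneg fun u => abs_nonneg _))
      (iφ.integral_prod_left.const_mul H) δ
    rw [integral_const_mul, ← integral_prod _ iφ] at h1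
    have := h1.trans hk
    rw [pow_two] at this
    exact le_of_mul_le_mul_left this hδ
  have key : ∀ p q, F p ≤ δ → F q ≤ δ → q ∈ S₁ →
      |nJ (A.P.map g) H J (g p - g q) - min (A.d p q) R| ≤ 4 * δ := by
    intro p q hp hq hq1
    rw [nJ, cv_map hg (meas_inner _)]
    have iX : Integrable (fun u => ⟪J (g p - g q), g u⟫) A.P := by
      simp only [map_sub, inner_sub_left]
      exact (ik p).sub (ik q)
    have iY : Integrable (fun u => min (A.d p u) R - min (A.d q u) R) A.P := (id' p).sub (id' q)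
    have e1 : H * ∫ u, |⟪J (g p - g q), g u⟫ - (min (A.d p u) R - min (A.d q u) R)| ∂A.P ≤
        2 * δ := by
      have i1 : Integrable (fun u => φ (p, u)) A.P := ((ik p).sub (id' p)).abs
      have i2 : Integrable (fun u => φ (q, u)) A.P := ((ik q).sub (id' q)).abs
      have h1 : ∫ u, |⟪J (g p - g q), g u⟫ - (min (A.d p u) R - min (A.d q u) R)| ∂A.P ≤
          ∫ u, (φ (p, u) + φ (q, u)) ∂A.P := integral_mono (iX.sub iY).abs (i1.add i2) fun u => by
        show |⟪J (g p - g q), g u⟫ - (min (A.d p u) R - min (A.d q u) R)| ≤ _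
        rw [map_sub, inner_sub_left, sub_sub_sub_comm]
        exact abs_sub _ _
      rw [integral_add i1 i2] at h1
      have := mul_le_mul_of_nonneg_left h1 hH0
      simp only [F] at hp hq
      linarith
    have c1 := cv_lip hH iX iY
    have c2 := cv_lip hH iY iX
    simp only [abs_sub_comm (_ - _ : ℝ) ⟪J (g p - g q), g _⟫] at c2
    have c3 := cv_le_of_ae hH iY (c := min (A.d p q) R)
      (Eventually.of_forall fun u => by linarith [hd'.tri p q u])
    have c4 := le_cv hH iY (c := min (A.d p q) R - 2 * δ) (h₁ q hq1) fun u hu => by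
      have h1 : min (A.d q u) R ≤ δ := (min_le_left _ _).trans hu
      linarith [hd'.tri p u q, hd'.symm u q]
    exact abs_le.mpr ⟨by linarith, by linarith⟩
  refine ⟨S₀ ∩ S₁ ∩ {p | δ ≤ F p}ᶜ, (m₀.inter m₁).inter
    (measurableSet_le measurable_const mF).compl, ?_, fun p hp q hq => ?_⟩
  · rw [compl_inter, compl_inter, compl_compl]
    have h1 := measureReal_union_le (μ := A.P) (S₀ᶜ ∪ S₁ᶜ) {p | δ ≤ F p}
    have h2 := measureReal_union_le (μ := A.P) S₀ᶜ S₁ᶜ
    linarith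
  · have fp : F p ≤ δ := (lt_of_not_ge (show ¬ δ ≤ F p from hp.2)).le
    have fq : F q ≤ δ := (lt_of_not_ge (show ¬ δ ≤ F q from hq.2)).le
    have k1 := abs_le.mp (key p q fp fq hq.1.2)
    have k2 := abs_le.mp (key q p fq fp hp.1.2)
    rw [A.hd.symm q p] at k2
    rw [min_eq_left (h₀ p hp.1.1 q hq.1.1)] at k1 k2
    have k3 := le_max_left (nJ (A.P.map g) H J (g p - g q)) (nJ (A.P.map g) H J (g q - g p))
    have k4 : rhoJ (A.P.map g) H J (g p) (g q) ≤ A.d p q + 4 * δ :=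
      max_le (by linarith) (by linarith)
    exact abs_le.mpr ⟨by linarith, by unfold rhoJ; linarith⟩

end box

end Pool.Agent.P.MP_de432b_gt.LC
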