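import Pool.Agent.P.MP_de432b_gt.LC.S1

/-!
Stage zero, part two: the model geometry of a nearly isotropic law.
-/

namespace Pool.Agent.P.MP_de432b_gt.LC

open MeasureTheory Set Filter Topology
open scoped unitInterval RealInnerProductSpace

theorem sqrt_unique {R : Type} [NormedRing R] [NormedAlgebra ℝ R] {S S' : R} (h : S * S = S' * S')
    (h1 : ‖S - 1‖ ≤ 1 / 2) (h2 : ‖S' - 1‖ ≤ 1 / 2) : S = S' := by
  have e : (2 : ℝ) • (S - S') = -((S - 1) * (S - S') + (S - S') * (S' - 1)) := by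
    rw [two_smul]
    have : (S - 1) * (S - S') + (S - S') * (S' - 1) = S * S - S' * S' - (S - S' + (S - S')) := by
      noncomm_ring
    rw [this, h, sub_self, zero_sub, neg_neg]
  have h3 := congrArg norm e
  rw [norm_smul, norm_neg, Real.norm_two] at h3
  have h4 := norm_add_le ((S - 1) * (S - S')) ((S - S') * (S' - 1))
  have h5 := norm_mul_le (S - 1) (S - S')
  have h6 := norm_mul_le (S - S') (S' - 1)
  have h7 := norm_nonneg (S - S')
  exact sub_eq_zero.mp (norm_le_zero_iff.mp (by nlinarith))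

theorem exists_inv_near {R : Type} [NormedRing R] [CompleteSpace R] {S : R} (h : ‖S - 1‖ ≤ 1 / 2) :
    ∃ Si : R, S * Si = 1 ∧ Si * S = 1 := by
  have h1 : ‖1 - S‖ < 1 := by rw [norm_sub_rev]; linarith
  have e : ((Units.oneSub (1 - S) h1 : Rˣ) : R) = S := by simp
  have e1 := (Units.oneSub (1 - S) h1).val_inv
  have e2 := (Units.oneSub (1 - S) h1).inv_val
  generalize (Units.oneSub (1 - S) h1).inv = Si at e1 e2
  rw [e] at e1 e2
  exact ⟨Si, e1, e2⟩

theorem sq_near {R : Type} [NormedRing R] {S : R} (h : ‖S - 1‖ ≤ 1 / 2) :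
    ‖S * S - 1‖ ≤ 3 * ‖S - 1‖ := by
  have e : S * S - 1 = (S - 1) * (S - 1) + (S - 1) + (S - 1) := by noncomm_ring
  have h1 := norm_add₃_le (a := (S - 1) * (S - 1)) (b := S - 1) (c := S - 1)
  have h2 := norm_mul_le (S - 1) (S - 1)
  rw [← e] at h1
  nlinarith [norm_nonneg (S - 1)]

theorem comm_chain {R : Type} [Ring R] [Algebra ℝ R] {A Si h : R} {ε : ℝ} (hε : ε ≠ 0)
    (h1 : (1 + ε • A) * Si = 1) (h2 : Si * (1 + ε • A) = 1) (hc : Commute (1 + ε • A) h) :
    Commute Si h ∧ Commute (Si * A * Si) h := by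
  have c1 : Commute Si h := by
    calc Si * h = Si * h * ((1 + ε • A) * Si) := by rw [h1, mul_one]
      _ = Si * ((1 + ε • A) * h) * Si := by rw [hc.eq]; noncomm_ring
      _ = h * Si := by rw [← mul_assoc, h2, one_mul]
  have c2 : Commute A h := by
    have h3 : Commute (ε⁻¹ • ((1 + ε • A) - 1)) h := (hc.sub_left (Commute.one_left h)).smul_left _
    rwa [add_sub_cancel_left, inv_smul_smul₀ hε] at h3
  exact ⟨c1, (c1.mul_left c2).mul_left c1⟩

theorem sa_one_add' {R : Type} [Ring R] [StarRing R] [Algebra ℝ R] [StarModule ℝ R] {A : R}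
    (hA : IsSelfAdjoint A) (ε : ℝ) : IsSelfAdjoint (1 + ε • A) :=
  (IsSelfAdjoint.one _).add ((IsSelfAdjoint.all ε).smul hA)

theorem sa_one_add {m : ℕ} {A : E m →L[ℝ] E m} (hA : IsSelfAdjoint A) (ε : ℝ) :
    IsSelfAdjoint (1 + ε • A) := sa_one_add' (R := E m →L[ℝ] E m) hA ε

section geo
variable {m : ℕ} {lam : Measure (E m)} [IsProbabilityMeasure lam] {B : ℝ} {S Si : E m →L[ℝ] E m}

/-- The second moments of a law are those of the operator `S`. -/
def Cov (lam : Measure (E m)) (S : E m →L[ℝ] E m) : Prop :=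
  ∀ u v, ∫ x, ⟪x, u⟫ * ⟪x, v⟫ ∂lam = ⟪S u, S v⟫

omit [IsProbabilityMeasure lam] in
theorem Cov.map (h : Cov lam S) (M : E m →L[ℝ] E m) :
    Cov (lam.map M) (S * ContinuousLinearMap.adjoint M) := fun u v => by
  rw [integral_map M.continuous.measurable.aemeasurable
    (Continuous.aestronglyMeasurable (by fun_prop))]
  simp only [← ContinuousLinearMap.adjoint_inner_right M]
  exact h _ _

omit [IsProbabilityMeasure lam] in
theorem Cov.comm (h : Cov lam S) (hS : IsSelfAdjoint S) (hn : ‖S - 1‖ ≤ 1 / 2) {g : U m}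
    (hg : lam.map (g : E m →L[ℝ] E m) = lam) : Commute S (g : E m →L[ℝ] E m) := by
  have h1 := h.map (g : E m →L[ℝ] E m)
  rw [hg] at h1
  have sa : ∀ u v, ⟪S u, v⟫ = ⟪u, S v⟫ := hS.isSymmetric
  have u1 : star (g : E m →L[ℝ] E m) * g = 1 := (Unitary.mem_iff.mp g.2).1
  have u2 : (g : E m →L[ℝ] E m) * star (g : E m →L[ℝ] E m) = 1 := (Unitary.mem_iff.mp g.2).2
  have u3 : ∀ x, ContinuousLinearMap.adjoint (g : E m →L[ℝ] E m) ((g : E m →L[ℝ] E m) x) = x :=
    fun x => congrArg (fun T : E m →L[ℝ] E m => T x) u1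
  have e : S = (g : E m →L[ℝ] E m) * S * star (g : E m →L[ℝ] E m) := by
    refine sqrt_unique ?_ hn ?_
    · refine ContinuousLinearMap.ext fun v => ext_inner_left ℝ fun u => ?_
      show ⟪u, S (S v)⟫ = ⟪u, (g : E m →L[ℝ] E m) (S (ContinuousLinearMap.adjoint
        (g : E m →L[ℝ] E m) ((g : E m →L[ℝ] E m) (S (ContinuousLinearMap.adjoint
        (g : E m →L[ℝ] E m) v)))))⟫
      rw [u3, ← ContinuousLinearMap.adjoint_inner_left (g : E m →L[ℝ] E m), ← sa, ← h u v,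
        h1 u v, ← sa]
      rfl
    · have e2 : (g : E m →L[ℝ] E m) * S * star (g : E m →L[ℝ] E m) - 1 =
          (g : E m →L[ℝ] E m) * ((S - 1) * ((g⁻¹ : U m) : E m →L[ℝ] E m)) := by
        show _ = (g : E m →L[ℝ] E m) * ((S - 1) * star (g : E m →L[ℝ] E m))
        rw [sub_mul, mul_sub, one_mul, u2, mul_assoc]
      rw [e2, U.norm_mul_left, U.norm_mul_right]
      exact hn
  show S * g = g * S
  nth_rewrite 1 [e]
  rw [mul_assoc, u1, mul_one]

theorem Cov.gram_eq (h : Cov lam S) (hS : IsSelfAdjoint S) (hb : ∀ᵐ x ∂lam, ‖x‖ ≤ B) :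
    gram lam = ‖S * S - 1‖ := by
  have hi := E4_int (Q := lam) measurable_id' hb
  have e : ∫ x, InnerProductSpace.rankOne ℝ x x ∂lam = S * S := by
    refine ContinuousLinearMap.ext fun v => ext_inner_left ℝ fun u => ?_
    rw [ContinuousLinearMap.integral_apply hi, ← integral_inner (hi.apply_continuousLinearMap v)]
    show _ = ⟪u, S (S v)⟫
    refine Eq.trans ?_ ((h u v).trans (hS.isSymmetric u (S v)))
    refine integral_congr_ae (Eventually.of_forall fun x => ?_)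
    simp only [InnerProductSpace.rankOne_apply, real_inner_smul_right]
    rw [real_inner_comm x u, mul_comm]
  rw [gram, e]

theorem exists_nu (h : Cov lam S) (hS : IsSelfAdjoint S) (h2 : Si * S = 1)
    (hb : ∀ᵐ x ∂lam, ‖x‖ ≤ B) : ∃ ν : Measure (E m), IsProbabilityMeasure ν ∧
      (∀ᵐ x ∂ν, ‖x‖ ≤ ‖Si‖ * B) ∧ ∫ x, x ∂ν = 0 ∧ (∀ u v, ∫ x, ⟪x, u⟫ * ⟪x, v⟫ ∂ν = ⟪u, v⟫) ∧
      ∀ g : U m, lam.map (g : E m →L[ℝ] E m) = lam → Commute Si (g : E m →L[ℝ] E m) →
        ν.map (g : E m →L[ℝ] E m) = ν := by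
  have pm : ∀ M : E m →L[ℝ] E m, IsProbabilityMeasure (lam.map M) := fun M =>
    Measure.isProbabilityMeasure_map M.continuous.measurable.aemeasurable
  have bd : ∀ M : E m →L[ℝ] E m, ‖M‖ = ‖Si‖ → ∀ᵐ x ∂lam.map M, ‖x‖ ≤ ‖Si‖ * B := fun M hM =>
    (ae_map_iff M.continuous.measurable.aemeasurable
      (measurableSet_le measurable_norm measurable_const)).mpr (hb.mono fun x hx =>
        (M.le_opNorm x).trans (hM ▸ mul_le_mul_of_nonneg_left hx (norm_nonneg _)))
  have b1 := bd Si rfl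
  have b2 := bd (-Si) (norm_neg _)
  have ad : ∀ u, S (ContinuousLinearMap.adjoint Si u) = u := fun u => ext_inner_left ℝ fun v => by
    have sa : ∀ u v, ⟪S u, v⟫ = ⟪u, S v⟫ := hS.isSymmetric
    rw [← sa, ContinuousLinearMap.adjoint_inner_right]
    exact congrArg (fun T : E m →L[ℝ] E m => ⟪T v, u⟫) h2
  have iid : ∀ M : E m →L[ℝ] E m, (∀ᵐ x ∂lam.map M, ‖x‖ ≤ ‖Si‖ * B) →
      Integrable (fun x : E m => x) (lam.map M) := fun M hM =>
    Integrable.of_bound aestronglyMeasurable_id _ hM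
  have iq : ∀ M : E m →L[ℝ] E m, (∀ᵐ x ∂lam.map M, ‖x‖ ≤ ‖Si‖ * B) → ∀ u v,
      Integrable (fun x : E m => ⟪x, u⟫ * ⟪x, v⟫) (lam.map M) := fun M hM u v =>
    Integrable.of_bound (Continuous.aestronglyMeasurable (by fun_prop))
      (‖Si‖ * B * ‖u‖ * (‖Si‖ * B * ‖v‖)) (hM.mono fun x hx => by
        rw [norm_mul]
        have h0 : 0 ≤ ‖Si‖ * B := (norm_nonneg _).trans hx
        exact mul_le_mul ((norm_inner_le_norm _ _).trans (by gcongr))
          ((norm_inner_le_norm _ _).trans (by gcongr)) (norm_nonneg _) (by positivity))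
  let t : I := ⟨1 / 2, by norm_num, by norm_num⟩
  refine ⟨mixM t (lam.map Si) (lam.map (-Si)), inferInstance, ae_mixM t b1 b2, ?_,
    fun u v => ?_, fun g hg hc => ?_⟩
  · rw [integral_mixM t (iid _ b1) (iid _ b2),
      integral_map Si.continuous.measurable.aemeasurable (iid _ b1).aestronglyMeasurable,
      integral_map (-Si).continuous.measurable.aemeasurable (iid _ b2).aestronglyMeasurable]
    simp only [neg_apply, integral_neg, t]
    module
  · rw [integral_mixM t (iq _ b1 u v) (iq _ b2 u v), h.map Si u v, h.map (-Si) u v]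
    simp only [map_neg, mul_apply_eq_comp, neg_apply, ad, inner_neg_neg, smul_eq_mul]
    ring
  · have mg := (g : E m →L[ℝ] E m).continuous.measurable
    have iv : ∀ M : E m →L[ℝ] E m, Commute M (g : E m →L[ℝ] E m) →
        (lam.map M).map (g : E m →L[ℝ] E m) = lam.map M := fun M hM => by
      have e : ((g : E m →L[ℝ] E m) : E m → E m) ∘ M = M ∘ (g : E m →L[ℝ] E m) :=
        funext fun x => (congrArg (fun T : E m →L[ℝ] E m => T x) hM.eq).symm
      rw [Measure.map_map mg M.continuous.measurable, e,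
        ← Measure.map_map M.continuous.measurable mg, hg]
    rw [mixM_map mg, iv Si hc, iv (-Si) hc.neg_left]

/-- The stabiliser of a law. -/
def stabU (lam : Measure (E m)) : Subgroup (U m) where
  carrier := {h | lam.map (h : E m →L[ℝ] E m) = lam}
  mul_mem' := fun {g h} hg hh => by
    show lam.map ((g * h : U m) : E m →L[ℝ] E m) = lam
    rw [← SliceAux.map_map_U, show lam.map (h : E m →L[ℝ] E m) = lam from hh]
    exact hg
  one_mem' := SliceAux.map_one_U lam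
  inv_mem' := fun {g} hg => by
    have h := SliceAux.map_map_U lam g⁻¹ g
    rw [show lam.map (g : E m →L[ℝ] E m) = lam from hg, inv_mul_cancel, SliceAux.map_one_U] at h
    exact h

theorem exists_geo (hB : 0 ≤ B) (hb : ∀ᵐ x ∂lam, ‖x‖ ≤ B) {A : E m →L[ℝ] E m}
    (hA : IsSelfAdjoint A) {ε : ℝ} (hε : 0 < ε) (hεA : ε * ‖A‖ ≤ 1 / 2)
    (h1 : (1 + ε • A) * Si = 1) (h2 : Si * (1 + ε • A) = 1) (hc : Cov lam (1 + ε • A)) {H : ℝ}
    (hH : 1 ≤ H) : ∃ Γ : Geo m, Γ.B = B ∧ Γ.lam = lam ∧ Γ.ρ = rhoJ lam H (Si * A * Si) ∧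
      (∀ h : U m, lam.map (h : E m →L[ℝ] E m) = lam → h ∈ Γ.G) ∧ gram lam ≤ 3 * (ε * ‖A‖) := by
  have hS : IsSelfAdjoint (1 + ε • A) := sa_one_add hA ε
  have n1 : ‖1 + ε • A - 1‖ = ε * ‖A‖ := by
    rw [add_sub_cancel_left, norm_smul, Real.norm_of_nonneg hε.le]
  have hn : ‖1 + ε • A - 1‖ ≤ 1 / 2 := n1 ▸ hεA
  obtain ⟨ν, pν, bν, mν, cν, iν⟩ := exists_nu hc hS h2 hb
  have cc : ∀ h ∈ stabU lam, Commute Si (h : E m →L[ℝ] E m) ∧
      Commute (Si * A * Si) (h : E m →L[ℝ] E m) := fun h hh =>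
    comm_chain hε.ne' h1 h2 (hc.comm hS hn hh)
  refine ⟨{ B := B, Bn := ‖Si‖ * B, hB := hB, hBn := by positivity
            ρ := rhoJ lam H (Si * A * Si), C := ‖Si * A * Si‖ * B, hC := by positivity
            ρ_self := rhoJ_self hH, ρ_symm := rhoJ_symm, ρ_tri := rhoJ_tri hH hb
            ρ_le := rhoJ_le hH hb, lam := lam, lam_bd := hb, nu := ν, nu_bd := bν
            nu_mean := mν, nu_cov := cν, G := stabU lam
            ρ_inv := fun h hh => rhoJ_inv hh fun v =>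
              congrArg (fun T : E m →L[ℝ] E m => T v) (cc h hh).2.eq
            lam_inv := fun _ hh => hh
            nu_inv := fun h hh => iν h hh (cc h hh).1 }, rfl, rfl, rfl, fun _ hh => hh, ?_⟩
  rw [hc.gram_eq hS hb, ← n1]
  exact sq_near hn

theorem mixM_self {Ω : Type} [MeasurableSpace Ω] (u : I) (μ : Measure Ω) : mixM u μ μ = μ := by
  rw [mixM, ← add_smul, ← ENNReal.ofReal_add (sub_nonneg.mpr u.2.2) u.2.1, sub_add_cancel,
    ENNReal.ofReal_one, one_smul]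

theorem Qal_le_of_box (Γ : Geo m) (b : Bool) (y : MK m Γ.B) (hc : ∀ᵐ p ∂y.A.P, y.μ.c p = 0)
    (hl : y.law = Γ.lam) {e : ℝ} (h : BoxC y.A.P y.A.d (fun p q => Γ.ρ (y.μ.g p) (y.μ.g q)) e) :
    Qal Γ b y.A y ≤ e := by
  have hP : y.bP = y.A.P := bulkP_of_ae_zero y.μ.hc hc
  refine Qal_le Γ (fun t => ?_) fun u => ?_
  · rw [DD_comm]
    refine DD_map_le (τ := id) ⟨measurable_id, Measure.map_id.trans hP.symm⟩ ?_
    obtain ⟨G, h1, h2, h3⟩ := h
    refine ⟨G, h1, h2, fun p hp q hq => le_trans ?_ (h3 p hp q hq)⟩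
    show |y.A.d p q - ((1 - t : ℝ) * y.A.d p q + t * Γ.ρ (y.μ.g p) (y.μ.g q))| ≤ _
    rw [show y.A.d p q - ((1 - t : ℝ) * y.A.d p q + t * Γ.ρ (y.μ.g p) (y.μ.g q)) =
      t * (y.A.d p q - Γ.ρ (y.μ.g p) (y.μ.g q)) by ring, abs_mul, abs_of_nonneg t.2.1]
    exact mul_le_of_le_one_left (abs_nonneg _) t.2.2
  · rw [DD_comm]
    refine DD_map_le (τ := y.μ.g) ⟨y.μ.hg, ?_⟩ h
    show y.A.P.map y.μ.g = mixM u y.law Γ.lam
    rw [← hl, mixM_self, MK.law, hP]

end geo

end Pool.Agent.P.MP_de432b_gt.LC
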